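import Pool.Agent.MP_ee2255_nt.Exp

/-! Simultaneous approximations to two Anderson generating functions. -/

namespace Pool.Agent.MP_ee2255_nt

open WithZero Polynomial Filter Topology

variable {F : Type*} [Field F] [Fintype F]

variable (F) in
/-- twist the coefficients `j` times and put `t = θ` -/
noncomputable def Phi (j : ℕ) : (LaurentSeries F)[X] →+* LaurentSeries F :=
  eval₂RingHom (frp F j : LaurentSeries F →+* LaurentSeries F) (theta F)

lemma Phi_eq (j : ℕ) (g : (LaurentSeries F)[X]) :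
    Phi F j g = ∑ k ∈ g.support, g.coeff k ^ Fintype.card F ^ j * theta F ^ k := by
  rw [Phi, coe_eval₂RingHom, eval₂_eq_sum, Polynomial.sum]
  exact Finset.sum_congr rfl fun k _ => by rw [RingHom.coe_coe, frp_apply]

lemma Phi_monomial (j k : ℕ) (c : LaurentSeries F) :
    Phi F j (monomial k c) = c ^ Fintype.card F ^ j * theta F ^ k := by
  rw [Phi, coe_eval₂RingHom, eval₂_monomial, RingHom.coe_coe, frp_apply]

lemma O_Phi {j : ℕ} {g : (LaurentSeries F)[X]} {B : ℤ}
    (h : ∀ k, g.coeff k ≠ 0 → ∃ b, O (g.coeff k) b ∧ (Fintype.card F : ℤ) ^ j * b + k ≤ B) :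
    O (Phi F j g) B := by
  rw [Phi_eq]
  refine O_sum fun k hk => ?_
  obtain ⟨b, h1, h2⟩ := h k (mem_support_iff.1 hk)
  exact ((h1.qpow j).mul (O_theta_pow k)).mono h2

lemma O_Phi_deg (j : ℕ) {g : (LaurentSeries F)[X]} {κ : ℕ} {M : ℤ} (hd : g.natDegree ≤ κ)
    (h : ∀ k, O (g.coeff k) M) : O (Phi F j g) ((Fintype.card F : ℤ) ^ j * M + κ) :=
  O_Phi fun k hk => ⟨M, h k, by
    have := (le_natDegree_of_ne_zero hk).trans hd
    omega⟩

lemma Phi_mem (j : ℕ) {g : (LaurentSeries F)[X]} (h : ∀ k, g.coeff k ∈ AA F) :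
    Phi F j g ∈ AA F := by
  rw [Phi_eq]
  exact sum_mem fun k _ => mul_mem (pow_mem (h k) _) (pow_mem theta_mem _)

omit [Fintype F] in
lemma coeff_sum_monomial (y : ℕ → LaurentSeries F) (J k : ℕ) :
    (∑ i ∈ Finset.range J, monomial i (y i)).coeff k = if k < J then y k else 0 := by
  simp only [finsetSum_coeff, coeff_monomial, Finset.sum_ite_eq', Finset.mem_range]

omit [Fintype F] in
lemma natDegree_sum_monomial (y : ℕ → LaurentSeries F) (J : ℕ) :
    (∑ i ∈ Finset.range (J + 1), monomial i (y i)).natDegree ≤ J :=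
  natDegree_le_iff_coeff_eq_zero.2 fun k hk => by rw [coeff_sum_monomial, if_neg (by omega)]

/-- the truncated Anderson generating function -/
noncomputable def fJ (u : LaurentSeries F) (J : ℕ) : (LaurentSeries F)[X] :=
  ∑ k ∈ Finset.range J, monomial k (gam u (k + 1))

lemma Phi_fJ (u : LaurentSeries F) (J j : ℕ) : Phi F j (fJ u J) = phi u J j := by
  rw [fJ, map_sum, phi]
  exact Finset.sum_congr rfl fun k _ => Phi_monomial _ _ _

lemma exists_w (u : LaurentSeries F) {c : ℕ} (hc : ∀ k, O (gam u k) (c - k))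
    {w : (LaurentSeries F)[X]} {δ M E κ : ℕ} (hd : w.natDegree ≤ δ) (hM : ∀ k, O (w.coeff k) M)
    (hκ : M + c + δ + E ≤ κ)
    (h : ∀ k < κ, ∀ l < E, ((w * fJ u κ).coeff k).coeff ((l : ℤ) + 1) = 0) :
    ∃ w₁ : (LaurentSeries F)[X], (∀ k, w₁.coeff k ∈ AA F) ∧ w₁.natDegree ≤ κ ∧
      ∀ m, O (Phi F (m + 1) w * (aa (carlitzExp F u) m - ll F m * u) - Phi F (m + 1) w₁)
        (-((Fintype.card F : ℤ) ^ (m + 1) * E) + κ) := by
  have h1 : ∀ k, ∃ y ∈ AA F, k < κ → O ((w * fJ u κ).coeff k - y) (-E) := by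
    intro k
    by_cases hk : k < κ
    · obtain ⟨y, hy, hy'⟩ := exists_polypart E (h k hk)
      exact ⟨y, hy, fun _ => hy'⟩
    · exact ⟨0, zero_mem _, fun h => absurd h hk⟩
  choose y hy hy' using h1
  refine ⟨∑ i ∈ Finset.range κ, monomial i (y i), fun k => ?_,
    natDegree_le_iff_coeff_eq_zero.2 fun k hk => ?_, fun m => ?_⟩
  · rw [coeff_sum_monomial]
    split_ifs
    exacts [hy k, zero_mem _]
  · rw [coeff_sum_monomial, if_neg (by omega)]
  · obtain ⟨B, hB⟩ := exists_O (Phi F (m + 1) w)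
    obtain ⟨J, hJ, hJ'⟩ := ((ev_O_phi u m (-((Fintype.card F : ℤ) ^ (m + 1) * E) + κ - B)).and
      (eventually_ge_atTop κ)).exists
    have h2 : O (Phi F (m + 1) (w * fJ u J - ∑ i ∈ Finset.range κ, monomial i (y i)))
        (-((Fintype.card F : ℤ) ^ (m + 1) * E) + κ) := by
      refine O_Phi fun k _ => ?_
      rw [coeff_sub, coeff_sum_monomial]
      split_ifs with hk
      · refine ⟨-E, ?_, by
          have : (k : ℤ) ≤ κ := by omega
          linarith⟩
        convert hy' k hk using 2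
        rw [coeff_mul, coeff_mul]
        refine Finset.sum_congr rfl fun p hp => ?_
        have := Finset.HasAntidiagonal.mem_antidiagonal.1 hp
        rw [fJ, fJ, coeff_sum_monomial, coeff_sum_monomial, if_pos (by omega), if_pos (by omega)]
      · refine ⟨κ - E - k, ?_, ?_⟩
        · rw [sub_zero, coeff_mul]
          refine O_sum fun p hp => ?_
          have h3 := Finset.HasAntidiagonal.mem_antidiagonal.1 hp
          by_cases h4 : w.coeff p.1 = 0
          · rw [h4, zero_mul]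
            exact O_zero _
          · have h5 := (le_natDegree_of_ne_zero h4).trans hd
            rw [fJ, coeff_sum_monomial]
            split_ifs
            · exact ((hM _).mul (hc _)).mono (by omega)
            · rw [mul_zero]
              exact O_zero _
        · have h3 := one_le_qpow (F := F) (m + 1)
          have h4 : (κ : ℤ) ≤ k := by omega
          nlinarith
    rw [map_sub, map_mul, Phi_fJ] at h2
    convert h2.sub ((hB.mul hJ).mono (by omega)) using 1
    ring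

/-- `(w₀, w₁, w₂)` is a good simultaneous approximation. -/
structure Appr (u v : LaurentSeries F) (E κ : ℕ) (w₀ w₁ w₂ : (LaurentSeries F)[X]) : Prop where
  ne : w₀ ≠ 0
  mem0 : ∀ k, w₀.coeff k ∈ AA F
  mem1 : ∀ k, w₁.coeff k ∈ AA F
  mem2 : ∀ k, w₂.coeff k ∈ AA F
  deg0 : w₀.natDegree ≤ κ
  deg1 : w₁.natDegree ≤ κ
  deg2 : w₂.natDegree ≤ κ
  size : ∀ k, O (w₀.coeff k) (2 * E)
  err1 : ∀ m, O (Phi F (m + 1) w₀ * (aa (carlitzExp F u) m - ll F m * u) - Phi F (m + 1) w₁)
    (-((Fintype.card F : ℤ) ^ (m + 1) * E) + κ)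
  err2 : ∀ m, O (Phi F (m + 1) w₀ * (aa (carlitzExp F v) m - ll F m * v) - Phi F (m + 1) w₂)
    (-((Fintype.card F : ℤ) ^ (m + 1) * E) + κ)

lemma Appr.mono {u v : LaurentSeries F} {E κ κ' : ℕ} {w₀ w₁ w₂ : (LaurentSeries F)[X]}
    (h : Appr u v E κ w₀ w₁ w₂) (hκ : κ ≤ κ') : Appr u v E κ' w₀ w₁ w₂ :=
  ⟨h.ne, h.mem0, h.mem1, h.mem2, h.deg0.trans hκ, h.deg1.trans hκ, h.deg2.trans hκ, h.size,
    fun m => (h.err1 m).mono (by omega), fun m => (h.err2 m).mono (by omega)⟩

/-- the polynomial in `t` and `θ` with a given array of coefficients -/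
noncomputable def WW {δ M : ℕ} (z : Fin (δ + 1) × Fin (M + 1) → F) : (LaurentSeries F)[X] :=
  ∑ p, monomial p.1 (algebraMap F _ (z p) * theta F ^ (p.2 : ℕ))

omit [Fintype F] in
lemma WW_sub {δ M : ℕ} (x y : Fin (δ + 1) × Fin (M + 1) → F) : WW (x - y) = WW x - WW y := by
  simp only [WW, Pi.sub_apply, map_sub, sub_mul, Finset.sum_sub_distrib]

omit [Fintype F] in
lemma coeff_WW {δ M : ℕ} (z : Fin (δ + 1) × Fin (M + 1) → F) (k : ℕ) : (WW z).coeff k =
    ∑ p, if (p.1 : ℕ) = k then algebraMap F _ (z p) * theta F ^ (p.2 : ℕ) else 0 := by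
  simp only [WW, finsetSum_coeff, coeff_monomial]

omit [Fintype F] in
lemma WW_ne {δ M : ℕ} {z : Fin (δ + 1) × Fin (M + 1) → F} (hz : z ≠ 0) : WW z ≠ 0 := by
  intro h
  apply hz
  funext p
  have h1 := congrArg (fun g => (Polynomial.coeff g p.1).coeff (-((p.2 : ℕ) : ℤ))) h
  simp only [coeff_WW, HahnSeries.coeff_sum, Polynomial.coeff_zero, HahnSeries.coeff_zero] at h1
  rw [Finset.sum_eq_single p, if_pos rfl, coeff_C_mul_theta_pow, if_pos rfl] at h1
  · exact h1
  · intro p' _ hp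
    split_ifs with h2
    · rw [coeff_C_mul_theta_pow, if_neg]
      intro h3
      exact hp (Prod.ext (Fin.ext h2) (Fin.ext (by omega)))
    · rfl
  · simp

lemma exists_appr (u v : LaurentSeries F) : ∃ c : ℕ, ∀ E : ℕ, ∃ w₀ w₁ w₂,
    Appr u v E (3 * E + c + 2 * E * (3 * E + c)) w₀ w₁ w₂ := by
  obtain ⟨c₁, h₁⟩ := exists_O_gam u
  obtain ⟨c₂, h₂⟩ := exists_O_gam v
  refine ⟨c₁ + c₂, fun E => ?_⟩
  set c := c₁ + c₂ with hc
  set δ := 2 * E * (3 * E + c) with hδ
  set κ := 3 * E + c + δ with hκ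
  obtain ⟨x, y, hxy, h⟩ := Fintype.exists_ne_map_eq_of_card_lt
    (fun (z : Fin (δ + 1) × Fin (2 * E + 1) → F) (p : Fin 2 × Fin κ × Fin E) =>
      ((WW z * fJ (![u, v] p.1) κ).coeff p.2.1).coeff (((p.2.2 : ℕ) : ℤ) + 1)) (by
      simp only [Fintype.card_fun, Fintype.card_prod, Fintype.card_fin]
      refine Nat.pow_lt_pow_right two_le_q ?_
      rw [hκ]
      nlinarith)
  have h3 : ∀ i : Fin 2, ∀ k < κ, ∀ l < E,
      ((WW (x - y) * fJ (![u, v] i) κ).coeff k).coeff ((l : ℤ) + 1) = 0 := by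
    intro i k hk l hl
    rw [WW_sub, sub_mul, coeff_sub, HahnSeries.coeff_sub, sub_eq_zero]
    exact congrFun h (i, ⟨k, hk⟩, ⟨l, hl⟩)
  have hd : (WW (x - y)).natDegree ≤ δ := natDegree_le_iff_coeff_eq_zero.2 fun k hk => by
    rw [coeff_WW]
    exact Finset.sum_eq_zero fun p _ => if_neg (by omega)
  have hM : ∀ k, O ((WW (x - y)).coeff k) ((2 * E : ℕ) : ℤ) := by
    intro k
    rw [coeff_WW]
    refine O_sum fun p _ => ?_
    split_ifs
    · exact ((O_algebraMap _).mul (O_theta_pow _)).mono (by omega)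
    · exact O_zero _
  obtain ⟨w₁, h4, h5, h6⟩ := exists_w u (c := c) (fun k => (h₁ k).mono (by omega)) hd hM
    (E := E) (κ := κ) (by omega) (h3 0)
  obtain ⟨w₂, h7, h8, h9⟩ := exists_w v (c := c) (fun k => (h₂ k).mono (by omega)) hd hM
    (E := E) (κ := κ) (by omega) (h3 1)
  refine ⟨_, w₁, w₂, WW_ne (sub_ne_zero.2 hxy), fun k => ?_, h4, h7, by omega, h5, h8,
    fun k => by exact_mod_cast hM k, h6, h9⟩
  rw [coeff_WW]
  refine sum_mem fun p _ => ?_
  split_ifs
  exacts [mul_mem (algebraMap_mem _ _) (pow_mem theta_mem _), zero_mem _]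

end Pool.Agent.MP_ee2255_nt
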