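import Mathlib

namespace Pool.Agent.MP_ee2255_nt

variable (F : Type*) [Field F] [Fintype F]

/-- The element `θ = X⁻¹` of `F((X))`, so that `F((X)) = F((1/θ))` is the completion of `F(θ)`
at the infinite place. -/
noncomputable def theta : LaurentSeries F := HahnSeries.single (-1) 1

/-- The Carlitz factorial `D_i = ∏_{j < i} (θ^(q^i) - θ^(q^j))`, where `q = #F`. -/
noncomputable def carlitzD (i : ℕ) : LaurentSeries F :=
  ∏ j ∈ Finset.range i, (theta F ^ Fintype.card F ^ i - theta F ^ Fintype.card F ^ j)

/-- The Carlitz exponential `exp_C(x) = ∑_i x^(q^i) / D_i`. -/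
noncomputable def carlitzExp (x : LaurentSeries F) : LaurentSeries F :=
  ∑' i : ℕ, x ^ Fintype.card F ^ i / carlitzD F i

end Pool.Agent.MP_ee2255_nt
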