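import Pool.Agent.MP_ee2255_nt.Val

/-! The Carlitz exponential: convergence, functional equation, truncations. -/

namespace Pool.Agent.MP_ee2255_nt

open WithZero Polynomial Filter Topology

variable {F : Type*} [Field F] [Fintype F] {x : LaurentSeries F} {a : ℤ}

lemma two_le_q : 2 ≤ Fintype.card F := Fintype.one_lt_card

lemma two_le_qz : (2 : ℤ) ≤ Fintype.card F := by exact_mod_cast two_le_q (F := F)

lemma one_le_qpow (i : ℕ) : (1 : ℤ) ≤ (Fintype.card F : ℤ) ^ i :=
  one_le_pow₀ (by linarith [two_le_qz (F := F)])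

lemma qpow_mono {i j : ℕ} (h : i ≤ j) : (Fintype.card F : ℤ) ^ i ≤ (Fintype.card F : ℤ) ^ j :=
  pow_le_pow_right₀ (by linarith [two_le_qz (F := F)]) h

variable (F) in
/-- the map `x ↦ x ^ q ^ j` -/
noncomputable def frp (j : ℕ) : LaurentSeries F →ₐ[F] LaurentSeries F :=
  FiniteField.frobeniusAlgHom F (LaurentSeries F) ^ j

lemma frp_apply (j : ℕ) (x : LaurentSeries F) : frp F j x = x ^ Fintype.card F ^ j := by
  rw [frp, AlgHom.coe_pow, FiniteField.coe_frobeniusAlgHom, pow_iterate]

lemma O.qpow (h : O x a) (j : ℕ) : O (x ^ Fintype.card F ^ j) ((Fintype.card F : ℤ) ^ j * a) := by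
  simpa using h.pow (Fintype.card F ^ j)

omit [Fintype F] in
lemma v_theta_sub {i j : ℕ} (h : j < i) :
    Valued.v (theta F ^ i - theta F ^ j) = exp (i : ℤ) := by
  rw [sub_eq_add_neg]
  exact v_add_of_O (v_theta_pow i) ((O_theta_pow j).neg.mono (by omega))

lemma v_D (i : ℕ) : Valued.v (carlitzD F i) = exp ((i : ℤ) * (Fintype.card F : ℤ) ^ i) := by
  rw [carlitzD, map_prod, Finset.prod_congr rfl fun j hj => v_theta_sub
    (Nat.pow_lt_pow_right two_le_q (Finset.mem_range.1 hj)), Finset.prod_const, ← exp_nsmul]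
  simp

lemma D_ne (i : ℕ) : carlitzD F i ≠ 0 := by
  intro h
  have := v_D (F := F) i
  rw [h, map_zero] at this
  exact exp_ne_zero this.symm

lemma D_mem (i : ℕ) : carlitzD F i ∈ AA F :=
  prod_mem fun _ _ => sub_mem (pow_mem theta_mem _) (pow_mem theta_mem _)

lemma D_zero : carlitzD F 0 = 1 := by simp [carlitzD]

lemma D_succ (i : ℕ) : carlitzD F (i + 1) =
    (theta F ^ Fintype.card F ^ (i + 1) - theta F) * carlitzD F i ^ Fintype.card F := by
  have h := frp_apply 1 (carlitzD F i)
  rw [pow_one] at h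
  rw [← h, carlitzD, carlitzD, Finset.prod_range_succ', map_prod, mul_comm, pow_zero, pow_one]
  congr 1
  refine Finset.prod_congr rfl fun j _ => ?_
  rw [map_sub, frp_apply, frp_apply, ← pow_mul, ← pow_mul, pow_one, ← pow_succ, ← pow_succ]

lemma O_term (h : O x a) (i : ℕ) :
    O (x ^ Fintype.card F ^ i / carlitzD F i) ((Fintype.card F : ℤ) ^ i * (a - i)) := by
  convert (h.qpow i).div (v_D i) using 1
  ring

lemma hasSum_exp (x : LaurentSeries F) :
    HasSum (fun i => x ^ Fintype.card F ^ i / carlitzD F i) (carlitzExp F x) := by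
  obtain ⟨a, ha⟩ := exists_O x
  refine (summable_of_O fun b => ?_).hasSum
  filter_upwards [eventually_ge_atTop (a + b.natAbs)] with i hi
  refine (O_term ha i).mono ?_
  have h1 := one_le_qpow (F := F) i
  have h2 : (a : ℤ) - i ≤ 0 := by omega
  have h3 : (a : ℤ) - i ≤ b := by omega
  nlinarith

lemma exp_theta_mul (x : LaurentSeries F) :
    carlitzExp F (theta F * x) = theta F * carlitzExp F x + carlitzExp F x ^ Fintype.card F := by
  have h1 := (hasSum_nat_add_iff' 1).2
    ((hasSum_exp (theta F * x)).sub ((hasSum_exp x).mul_left (theta F)))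
  have h2 := (hasSum_exp x).map (frp F 1).toRingHom.toAddMonoidHom (by
    have : ⇑(frp F 1).toRingHom.toAddMonoidHom = fun y => y ^ Fintype.card F ^ 1 :=
      funext (frp_apply 1)
    rw [this]
    exact continuous_pow _)
  have h3 := h1.unique (h2.congr_fun fun i => ?_)
  · have h4 : (frp F 1).toRingHom.toAddMonoidHom (carlitzExp F x) =
      carlitzExp F x ^ Fintype.card F ^ 1 := frp_apply 1 _
    rw [h4] at h3
    simp only [Finset.range_one, Finset.sum_singleton, pow_zero, pow_one, D_zero, div_one,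
      sub_self, sub_zero] at h3
    linear_combination h3
  · have h4 : ((frp F 1).toRingHom.toAddMonoidHom ∘ fun i => x ^ Fintype.card F ^ i /
      carlitzD F i) i = (x ^ Fintype.card F ^ i / carlitzD F i) ^ Fintype.card F ^ 1 :=
      frp_apply 1 _
    have h5 := D_ne (F := F) (i + 1)
    rw [D_succ] at h5
    have h6 := left_ne_zero_of_mul h5
    have h7 := right_ne_zero_of_mul h5
    rw [h4, D_succ, pow_one, div_pow, ← pow_mul, ← pow_succ, mul_pow]
    field_simp

lemma O_tail (h : O x a) (n : ℕ) (hn : a ≤ n) :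
    O (carlitzExp F x - ∑ i ∈ Finset.range n, x ^ Fintype.card F ^ i / carlitzD F i)
      ((Fintype.card F : ℤ) ^ n * (a - n)) := by
  refine O_of_hasSum ((hasSum_nat_add_iff' n).2 (hasSum_exp x)) fun i => (O_term h _).mono ?_
  have h1 := qpow_mono (F := F) (Nat.le_add_left n i)
  have h2 := one_le_qpow (F := F) n
  push_cast
  nlinarith

variable (F) in
/-- the partial sums of `e = exp_C(1)` -/
noncomputable def eN (n : ℕ) : LaurentSeries F := ∑ i ∈ Finset.range (n + 1), (carlitzD F i)⁻¹

lemma O_e_sub (n : ℕ) :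
    O (carlitzExp F 1 - eN F n) (-((n + 1) * (Fintype.card F : ℤ) ^ (n + 1))) := by
  have h := O_tail (O_one (F := F)) (n + 1) (by omega)
  simp only [one_pow, one_div] at h
  refine O.mono h (le_of_eq ?_)
  push_cast
  ring

lemma O_eN_sub {n n' : ℕ} (h : n' ≤ n) :
    O (eN F n - eN F n') (-((n' + 1) * (Fintype.card F : ℤ) ^ (n' + 1))) := by
  have h1 : eN F n - eN F n' = (carlitzExp F 1 - eN F n') - (carlitzExp F 1 - eN F n) := by ring
  rw [h1]
  refine (O_e_sub n').sub ((O_e_sub n).mono ?_)
  have h2 := qpow_mono (F := F) (Nat.add_le_add_right h 1)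
  have h3 := one_le_qpow (F := F) (n' + 1)
  have h4 : (n' : ℤ) ≤ n := by exact_mod_cast h
  nlinarith

lemma eN_succ (n : ℕ) : eN F (n + 1) = eN F n + (carlitzD F (n + 1))⁻¹ :=
  Finset.sum_range_succ _ _

lemma O_eN (n : ℕ) : O (eN F n) 0 := by
  refine O_sum fun i _ => ?_
  rw [← one_div]
  refine (O_one.div (v_D i)).mono ?_
  have := one_le_qpow (F := F) i
  nlinarith

lemma D_mul_eN_mem (n : ℕ) : carlitzD F n * eN F n ∈ AA F := by
  induction n with
  | zero => simp [eN, D_zero, one_mem]
  | succ n ih =>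
    obtain ⟨r, hr⟩ : ∃ r, Fintype.card F = r + 1 := ⟨_, (Nat.sub_add_cancel Fintype.card_pos).symm⟩
    rw [eN_succ, mul_add, mul_inv_cancel₀ (D_ne _), D_succ]
    refine add_mem ?_ (one_mem _)
    rw [hr, pow_succ (carlitzD F n), mul_assoc, mul_assoc]
    exact mul_mem (sub_mem (pow_mem theta_mem _) theta_mem) (mul_mem (pow_mem (D_mem n) _) ih)

/-- the coefficients of the Anderson generating function -/
noncomputable def gam (u : LaurentSeries F) (k : ℕ) : LaurentSeries F :=
  carlitzExp F (u / theta F ^ k)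

lemma gam_rec (u : LaurentSeries F) (k : ℕ) :
    gam u k = theta F * gam u (k + 1) + gam u (k + 1) ^ Fintype.card F := by
  rw [gam, gam, ← exp_theta_mul]
  congr 1
  have := theta_ne (F := F)
  field_simp
  ring

lemma exists_O_gam (u : LaurentSeries F) : ∃ c : ℕ, ∀ k, O (gam u k) (c - k) := by
  obtain ⟨a, ha⟩ := exists_O u
  have h1 : ∀ k, ∃ b : ℕ, O (gam u k) b := fun k => exists_O _
  choose b hb using h1
  refine ⟨a + ∑ k ∈ Finset.range a, b k, fun k => ?_⟩
  rcases lt_or_ge k a with hk | hk
  · refine (hb k).mono ?_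
    have := Finset.single_le_sum (f := b) (fun _ _ => Nat.zero_le _) (Finset.mem_range.2 hk)
    omega
  · have h := O_tail (ha.div (v_theta_pow k)) 0 (by omega)
    simp only [Finset.range_zero, Finset.sum_empty, sub_zero, pow_zero, one_mul,
      Nat.cast_zero] at h
    exact h.mono (by omega)

lemma ev_O_gam_sub (u : LaurentSeries F) (b : ℤ) :
    ∀ᶠ J in atTop, O (u - gam u J * theta F ^ J) b := by
  obtain ⟨a, ha⟩ := exists_O u
  filter_upwards [eventually_ge_atTop (2 * a + b.natAbs)] with J hJ
  have h := O_tail (ha.div (v_theta_pow J)) 1 (by omega)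
  simp only [Finset.range_one, Finset.sum_singleton, pow_zero, pow_one, D_zero, div_one] at h
  have h1 : u - gam u J * theta F ^ J = -((gam u J - u / theta F ^ J) * theta F ^ J) := by
    have := theta_ne (F := F)
    field_simp
    ring
  rw [h1]
  refine (h.mul (O_theta_pow J)).neg.mono ?_
  have h2 := two_le_qz (F := F)
  have h3 : (a : ℤ) - J - 1 ≤ 0 := by omega
  have h4 : 2 * ((a : ℤ) - J - 1) + J ≤ b := by omega
  push_cast
  nlinarith

/-- the truncated Anderson generating function, twisted `j` times and evaluated at `θ` -/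
noncomputable def phi (u : LaurentSeries F) (J j : ℕ) : LaurentSeries F :=
  ∑ k ∈ Finset.range J, gam u (k + 1) ^ Fintype.card F ^ j * theta F ^ k

lemma phi_succ (u : LaurentSeries F) (J j : ℕ) :
    phi u J (j + 1) = carlitzExp F u ^ Fintype.card F ^ j +
      (theta F - theta F ^ Fintype.card F ^ j) * phi u J j -
        gam u J ^ Fintype.card F ^ j * theta F ^ J := by
  induction J with
  | zero => simp [phi, gam]
  | succ J ih =>
    have h := congrArg (frp F j) (gam_rec u J)
    rw [map_add, map_mul, frp_apply, frp_apply, frp_apply, frp_apply, ← pow_mul,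
      ← pow_succ'] at h
    unfold phi at ih ⊢
    rw [Finset.sum_range_succ, Finset.sum_range_succ, ih, h]
    ring

/-- numerators of the truncated logarithm -/
noncomputable def aa (α : LaurentSeries F) : ℕ → LaurentSeries F
  | 0 => α
  | j + 1 => α ^ Fintype.card F ^ (j + 1) + (theta F - theta F ^ Fintype.card F ^ (j + 1)) * aa α j

variable (F) in
/-- denominators of the logarithm -/
noncomputable def ll : ℕ → LaurentSeries F
  | 0 => 1
  | j + 1 => (theta F - theta F ^ Fintype.card F ^ (j + 1)) * ll j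

lemma v_fac (j : ℕ) : Valued.v (theta F - theta F ^ Fintype.card F ^ (j + 1)) =
    exp ((Fintype.card F : ℤ) ^ (j + 1)) := by
  have h := v_theta_sub (F := F) (Nat.one_lt_pow (Nat.succ_ne_zero j) (two_le_q (F := F)))
  rw [pow_one] at h
  rw [Valuation.map_sub_swap, h]
  simp

lemma ll_mem (m : ℕ) : ll F m ∈ AA F := by
  induction m with
  | zero => exact one_mem _
  | succ m ih => exact mul_mem (sub_mem theta_mem (pow_mem theta_mem _)) ih

lemma ll_ne (m : ℕ) : ll F m ≠ 0 := by
  induction m with
  | zero => exact one_ne_zero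
  | succ m ih =>
    refine mul_ne_zero (fun h => ?_) ih
    have := v_fac (F := F) m
    rw [h, map_zero] at this
    exact exp_ne_zero this.symm

lemma O_ll (m : ℕ) : O (ll F m) ((Fintype.card F : ℤ) ^ (m + 1)) := by
  induction m with
  | zero => exact O_one.mono (by positivity)
  | succ m ih =>
    refine (O.mul (v_fac m).le ih).mono ?_
    have h1 := two_le_qz (F := F)
    have h2 := one_le_qpow (F := F) (m + 1)
    rw [pow_succ _ (m + 1)]
    nlinarith

lemma aa_mem {α h : LaurentSeries F} (hh : h ∈ AA F) (hα : h * α ∈ AA F) (m : ℕ) :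
    h ^ Fintype.card F ^ m * aa α m ∈ AA F := by
  induction m with
  | zero => simpa [aa] using hα
  | succ m ih =>
    obtain ⟨r, hr⟩ := Nat.exists_eq_add_of_le
      (Nat.pow_le_pow_right (Fintype.card_pos (α := F)) (Nat.le_succ m))
    rw [aa, mul_add, ← mul_pow]
    refine add_mem (pow_mem hα _) ?_
    rw [mul_left_comm]
    refine mul_mem (sub_mem theta_mem (pow_mem theta_mem _)) ?_
    rw [hr, pow_add, mul_right_comm]
    exact mul_mem ih (pow_mem hh _)

lemma ev_O_phi (u : LaurentSeries F) (m : ℕ) (b : ℤ) :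
    ∀ᶠ J in atTop, O (phi u J (m + 1) - (aa (carlitzExp F u) m - ll F m * u)) b := by
  induction m generalizing b with
  | zero =>
    filter_upwards [ev_O_gam_sub u b] with J hJ
    convert hJ using 1
    rw [phi_succ, aa, ll]
    simp only [pow_zero, pow_one]
    ring
  | succ m ih =>
    obtain ⟨c, hc⟩ := exists_O_gam u
    filter_upwards [ih (b - (Fintype.card F : ℤ) ^ (m + 1)),
      eventually_ge_atTop (2 * c + b.natAbs)] with J hJ hJ'
    have h1 : phi u J (m + 1 + 1) - (aa (carlitzExp F u) (m + 1) - ll F (m + 1) * u) =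
        (theta F - theta F ^ Fintype.card F ^ (m + 1)) *
          (phi u J (m + 1) - (aa (carlitzExp F u) m - ll F m * u)) -
          gam u J ^ Fintype.card F ^ (m + 1) * theta F ^ J := by
      rw [phi_succ, aa, ll]
      ring
    rw [h1]
    refine ((O.mul (v_fac m).le hJ).mono (by omega)).sub
      ((((hc J).qpow _).mul (O_theta_pow J)).mono ?_)
    have h2 := two_le_qz (F := F)
    have h3 := qpow_mono (F := F) (Nat.le_add_left 1 m)
    rw [pow_one] at h3
    have h4 : (c : ℤ) - J ≤ 0 := by omega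
    have h5 : 2 * ((c : ℤ) - J) + J ≤ b := by omega
    nlinarith

end Pool.Agent.MP_ee2255_nt
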