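import Pool.Agent.MP_ee2255_nt.SMain

namespace Pool.Agent.MP_ee2255_nt.KeptMixed

open Pool.Agent.MP_ee2255_nt

/-- Schanuel's conjecture for the Carlitz exponential, for points that are algebraic or
logarithms of algebraic elements. Here `K = F(θ)`; the `β i` are algebraic over `K` and
`K`-linearly independent, the `u j` are `K`-linearly independent logarithms of algebraic
elements. Then the `exp_C(β i)` and the `u j` are jointly algebraically independent over `K`. -/
theorem result (F E : Type*) [Field F] [Fintype F] [Field E] [Algebra F E]
    (θ : LaurentSeries E) (hθ : θ.order < 0) (m n : ℕ)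
    (β : Fin m → LaurentSeries E) (u : Fin n → LaurentSeries E)
    (hβ : ∀ i, IsAlgebraic (IntermediateField.adjoin F {θ}) (β i))
    (hu : ∀ j, IsAlgebraic (IntermediateField.adjoin F {θ}) (expC F θ (u j)))
    (hβi : LinearIndependent (IntermediateField.adjoin F {θ}) β)
    (hui : LinearIndependent (IntermediateField.adjoin F {θ}) u) :
    AlgebraicIndependent (IntermediateField.adjoin F {θ})
      (Sum.elim (fun i => expC F θ (β i)) u) :=
  S.main hθ β u hβ hu hβi hui

end Pool.Agent.MP_ee2255_nt.KeptMixed
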