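import Pool.Agent.MP_ee2255_nt.Main

namespace Pool.Agent.MP_ee2255_nt.KeptPowerE

open Pool.Agent.MP_ee2255_nt Polynomial

/-- Function field model of the irrationality of `n ^ e = exp (e log n)`: for `q ≥ 3`, if
`u ≠ 0` in `F_q((1/θ))` has `exp_C(u)` in `F_q(θ)`, then `exp_C(e u)` is not in `F_q(θ)`, where
`e = exp_C(1)`. -/
theorem result (F : Type*) [Field F] [Fintype F] (hq : 3 ≤ Fintype.card F)
    (u : LaurentSeries F) (hu : u ≠ 0)
    (h : carlitzExp F u ∈ IntermediateField.adjoin F {theta F}) :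
    carlitzExp F (carlitzExp F 1 * u) ∉ IntermediateField.adjoin F {theta F} := by
  intro h'
  obtain ⟨r, s, hrs⟩ := (IntermediateField.mem_adjoin_simple_iff F _).1 h
  obtain ⟨r', s', hrs'⟩ := (IntermediateField.mem_adjoin_simple_iff F _).1 h'
  have key : ∀ r s : F[X], ∃ d ∈ AA F, d ≠ 0 ∧
      d * (aeval (theta F) r / aeval (theta F) s) ∈ AA F := by
    intro r s
    by_cases h0 : aeval (theta F) s = 0
    · exact ⟨1, one_mem _, one_ne_zero, by rw [h0, div_zero, mul_zero]; exact zero_mem _⟩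
    · refine ⟨aeval (theta F) s, ⟨s, rfl⟩, h0, ?_⟩
      rw [mul_div_cancel₀ _ h0]
      exact ⟨r, rfl⟩
  obtain ⟨d, hd, hd0, hd1⟩ := key r s
  obtain ⟨d', hd', hd0', hd1'⟩ := key r' s'
  refine not_both hq hu (mul_mem hd hd') (mul_ne_zero hd0 hd0') ?_ ?_
  · rw [hrs, mul_right_comm]
    exact mul_mem hd1 hd'
  · rw [hrs', mul_assoc]
    exact mul_mem hd hd1'

end Pool.Agent.MP_ee2255_nt.KeptPowerE
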