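import Pool.Agent.MP_ee2255_nt.Approx

/-! Irrationality of `exp_C(e u)` when `exp_C(u)` is rational. -/

namespace Pool.Agent.MP_ee2255_nt

open WithZero Polynomial Filter Topology

variable {F : Type*} [Field F] [Fintype F]

lemma lead_poly (j : ℕ) {P : (LaurentSeries F)[X]} {κ : ℕ} (hd : P.natDegree ≤ κ)
    (h : ∀ k, O (P.coeff k) 0) : ∃ p ∈ AA F, O p κ ∧
      O (Phi F j P - p) (-(Fintype.card F : ℤ) ^ j + κ) ∧ (p = 0 → ∀ k, O (P.coeff k) (-1)) := by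
  choose c hc using fun k => exists_lead (h k)
  have h1 : Phi F j (∑ k ∈ Finset.range (κ + 1), monomial k (algebraMap F _ (c k))) =
      ∑ k ∈ Finset.range (κ + 1), algebraMap F _ (c k) * theta F ^ k := by
    rw [map_sum]
    exact Finset.sum_congr rfl fun k _ => by rw [Phi_monomial, ← frp_apply, AlgHom.commutes]
  have h2 : ∀ k, κ < k → P.coeff k = 0 := fun k hk => coeff_eq_zero_of_natDegree_lt (by omega)
  refine ⟨∑ k ∈ Finset.range (κ + 1), algebraMap F _ (c k) * theta F ^ k,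
    sum_mem fun k _ => mul_mem (algebraMap_mem _ _) (pow_mem theta_mem _),
    O_sum fun k hk => ((O_algebraMap _).mul (O_theta_pow _)).mono (by
      have := Finset.mem_range.1 hk
      omega), ?_, fun h0 k => ?_⟩
  · rw [← h1, ← map_sub]
    refine (O_Phi_deg j (M := -1) ((natDegree_sub_le _ _).trans
      (max_le hd (natDegree_sum_monomial _ _))) fun k => ?_).mono (by omega)
    rw [coeff_sub, coeff_sum_monomial]
    split_ifs with hk
    · exact hc k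
    · rw [h2 k (by omega), sub_zero]
      exact O_zero _
  · rcases lt_or_ge κ k with hk | hk
    · rw [h2 k hk]
      exact O_zero _
    · have h3 := congrArg (fun g : LaurentSeries F => g.coeff (-(k : ℤ))) h0
      simp only [HahnSeries.coeff_sum, coeff_C_mul_theta_pow, HahnSeries.coeff_zero] at h3
      rw [Finset.sum_eq_single k (fun i _ hi => if_neg (by omega))
        (fun hk' => absurd (Finset.mem_range.2 (by omega)) hk'), if_pos rfl] at h3
      simpa [h3] using hc k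

lemma rel_step {P Q : (LaurentSeries F)[X]} {κ n n' j : ℕ} (hP : P.natDegree ≤ κ)
    (hQ : Q.natDegree ≤ κ) (hn : n' + 1 ≤ n) (h1 : (κ : ℤ) < (Fintype.card F : ℤ) ^ n')
    (h2 : (n' + 1) * (Fintype.card F : ℤ) ^ (n' + 1) + κ < (Fintype.card F : ℤ) ^ j)
    (h : eN F n * Phi F j P = Phi F j Q) (hP0 : ∀ k, O (P.coeff k) 0) (hQ0 : ∀ k, O (Q.coeff k) 0) :
    (∀ k, O (P.coeff k) (-1)) ∧ ∀ k, O (Q.coeff k) (-1) := by
  obtain ⟨p, hp, hp1, hp2, hp3⟩ := lead_poly j hP hP0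
  obtain ⟨r, hr, -, hr2, hr3⟩ := lead_poly j hQ hQ0
  have h3 : O (eN F n * p - r) (-(Fintype.card F : ℤ) ^ j + κ) := by
    have h4 : eN F n * p - r = (Phi F j Q - r) - eN F n * (Phi F j P - p) := by
      rw [← h]
      ring
    rw [h4]
    exact hr2.sub (((O_eN n).mul hp2).mono (by omega))
  have key : ∀ i, n' ≤ i → i ≤ n' + 1 → eN F i * p = r := by
    intro i hi hi'
    have h4 : carlitzD F i * (eN F i * p - r) ∈ AA F := by
      rw [mul_sub, ← mul_assoc]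
      exact sub_mem (mul_mem (D_mul_eN_mem i) hp) (mul_mem (D_mem i) hr)
    have h5 : eN F i * p - r = (eN F n * p - r) - (eN F n - eN F i) * p := by ring
    have h6 := qpow_mono (F := F) hi
    have h7 := qpow_mono (F := F) hi'
    have h8 := qpow_mono (F := F) (Nat.le_succ i)
    have h9 := one_le_qpow (F := F) i
    have h10 : (i : ℤ) ≤ n' + 1 := by exact_mod_cast hi'
    have h11 : (0 : ℤ) ≤ i := by positivity
    have h14 : (i : ℤ) * (Fintype.card F : ℤ) ^ i ≤ (n' + 1) * (Fintype.card F : ℤ) ^ (n' + 1) := by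
      gcongr
    have h15 : ((i : ℤ) + 1) * (Fintype.card F : ℤ) ^ i ≤
        (i + 1) * (Fintype.card F : ℤ) ^ (i + 1) := mul_le_mul_of_nonneg_left h8 (by omega)
    have h12 : O (eN F i * p - r) (-(i * (Fintype.card F : ℤ) ^ i) - 1) := by
      rw [h5]
      refine (h3.mono ?_).sub (((O_eN_sub (by omega : i ≤ n)).mul hp1).mono ?_) <;> linarith
    have h13 := eq_zero_of_mem h4 (O.mul (v_D i).le h12) (by omega)
    exact sub_eq_zero.1 ((mul_eq_zero.1 h13).resolve_left (D_ne i))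
  have h4 := key n' le_rfl (by omega)
  have h5 := key (n' + 1) (by omega) le_rfl
  rw [eN_succ, add_mul, h4, add_eq_left] at h5
  have h6 : p = 0 := (mul_eq_zero.1 h5).resolve_left (inv_ne_zero (D_ne _))
  exact ⟨hp3 h6, hr3 (by rw [← h4, h6, mul_zero])⟩

omit [Fintype F] in
lemma exists_O_coeff (P : (LaurentSeries F)[X]) : ∃ d : ℕ, ∀ k, O (P.coeff k) d := by
  choose b hb using fun k => exists_O (P.coeff k)
  refine ⟨∑ k ∈ P.support, b k, fun k => ?_⟩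
  by_cases hk : k ∈ P.support
  · exact (hb k).mono (by
      exact_mod_cast Finset.single_le_sum (f := b) (fun _ _ => Nat.zero_le _) hk)
  · rw [notMem_support_iff.1 hk]
    exact O_zero _

lemma eq_zero_of_rel {P Q : (LaurentSeries F)[X]} {κ n n' j : ℕ} (hP : P.natDegree ≤ κ)
    (hQ : Q.natDegree ≤ κ) (hn : n' + 1 ≤ n) (h1 : (κ : ℤ) < (Fintype.card F : ℤ) ^ n')
    (h2 : (n' + 1) * (Fintype.card F : ℤ) ^ (n' + 1) + κ < (Fintype.card F : ℤ) ^ j)
    (h : eN F n * Phi F j P = Phi F j Q) : P = 0 ∧ Q = 0 := by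
  obtain ⟨d₁, hd₁⟩ := exists_O_coeff P
  obtain ⟨d₂, hd₂⟩ := exists_O_coeff Q
  have key : ∀ i : ℕ, (∀ k, O (P.coeff k) (d₁ + d₂ - i)) ∧ ∀ k, O (Q.coeff k) (d₁ + d₂ - i) := by
    intro i
    induction i with
    | zero => exact ⟨fun k => (hd₁ k).mono (by omega), fun k => (hd₂ k).mono (by omega)⟩
    | succ i ih =>
      have h3 := rel_step (P := P * C (theta F ^ (-((d₁ : ℤ) + d₂ - i))))
        (Q := Q * C (theta F ^ (-((d₁ : ℤ) + d₂ - i)))) ((natDegree_mul_C_le _ _).trans hP)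
        ((natDegree_mul_C_le _ _).trans hQ) hn h1 h2 (by rw [map_mul, map_mul, ← h, mul_assoc])
        (fun k => by
          rw [coeff_mul_C]
          exact ((ih.1 k).mul (O_theta_zpow _)).mono (by omega))
        (fun k => by
          rw [coeff_mul_C]
          exact ((ih.2 k).mul (O_theta_zpow _)).mono (by omega))
      simp only [coeff_mul_C] at h3
      exact ⟨fun k => ((h3.1 k).of_mul (v_theta_zpow _)).mono (by omega),
        fun k => ((h3.2 k).of_mul (v_theta_zpow _)).mono (by omega)⟩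
  constructor <;> ext1 k <;> refine eq_zero_of_O fun a => ?_
  · exact ((key (d₁ + d₂ + a.natAbs)).1 k).mono (by omega)
  · exact ((key (d₁ + d₂ + a.natAbs)).2 k).mono (by omega)

lemma kill (hq : 3 ≤ Fintype.card F) {u h x₀ x₁ x₂ : LaurentSeries F} {H κ m n : ℕ} {s b r : ℤ}
    (hu : O u κ) (hh : h ∈ AA F) (hh0 : h ≠ 0) (hH : O h H) (hα : h * carlitzExp F u ∈ AA F)
    (hγ : h * carlitzExp F (carlitzExp F 1 * u) ∈ AA F) (m0 : x₀ ∈ AA F) (m1 : x₁ ∈ AA F)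
    (m2 : x₂ ∈ AA F) (hs : (Fintype.card F : ℤ) ^ n = s * (Fintype.card F : ℤ) ^ (m + 1))
    (hκ : 2 * (κ : ℤ) < (Fintype.card F : ℤ) ^ (m + 1))
    (hb : O x₀ ((Fintype.card F : ℤ) ^ (m + 1) * b + κ))
    (e1 : O (x₀ * (aa (carlitzExp F u) m - ll F m * u) - x₁)
      (-((Fintype.card F : ℤ) ^ (m + 1) * r) + 2 * κ))
    (e2 : O (x₀ * (aa (carlitzExp F (carlitzExp F 1 * u)) m - ll F m * (carlitzExp F 1 * u)) - x₂)
      (-((Fintype.card F : ℤ) ^ (m + 1) * r) + 2 * κ))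
    (k1 : H + n * s + b + 2 ≤ 3 * (n + 1) * s) (k2 : H + n * s + 1 ≤ r) :
    eN F n * (x₀ * aa (carlitzExp F u) m - x₁) =
      x₀ * aa (carlitzExp F (carlitzExp F 1 * u)) m - x₂ := by
  set α := carlitzExp F u
  set γ := carlitzExp F (carlitzExp F 1 * u)
  set e := carlitzExp F (1 : LaurentSeries F) with he
  have h1 : h ^ Fintype.card F ^ m * carlitzD F n *
      (x₀ * aa γ m - x₂ - eN F n * (x₀ * aa α m - x₁)) ∈ AA F := by
    have h2 : h ^ Fintype.card F ^ m * carlitzD F n *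
        (x₀ * aa γ m - x₂ - eN F n * (x₀ * aa α m - x₁)) =
        carlitzD F n * (x₀ * (h ^ Fintype.card F ^ m * aa γ m) - h ^ Fintype.card F ^ m * x₂) -
        carlitzD F n * eN F n *
          (x₀ * (h ^ Fintype.card F ^ m * aa α m) - h ^ Fintype.card F ^ m * x₁) := by ring
    rw [h2]
    exact sub_mem (mul_mem (D_mem n) (sub_mem (mul_mem m0 (aa_mem hh hγ m))
      (mul_mem (pow_mem hh _) m2))) (mul_mem (D_mul_eN_mem n) (sub_mem (mul_mem m0
      (aa_mem hh hα m)) (mul_mem (pow_mem hh _) m1)))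
  have h2 : x₀ * aa γ m - x₂ - eN F n * (x₀ * aa α m - x₁) =
      x₀ * ll F m * u * (e - eN F n) + ((x₀ * (aa γ m - ll F m * (e * u)) - x₂) -
        eN F n * (x₀ * (aa α m - ll F m * u) - x₁)) := by ring
  have hq' : (3 : ℤ) ≤ Fintype.card F := by exact_mod_cast hq
  have h3 := qpow_mono (F := F) (Nat.le_succ m)
  have h4 := one_le_qpow (F := F) n
  set N := (Fintype.card F : ℤ) ^ (m + 1)
  have hN : 0 < N := by omega
  have hs0 : 0 < s := by nlinarith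
  have h5 : (H : ℤ) * (Fintype.card F : ℤ) ^ m ≤ H * N := by gcongr
  have h6 : O (x₀ * aa γ m - x₂ - eN F n * (x₀ * aa α m - x₁)) (-((H + n * s) * N) - 1) := by
    rw [h2]
    refine ((((hb.mul (O_ll m)).mul hu).mul (O_e_sub n)).mono ?_).add
      ((e2.sub (((O_eN n).mul e1).mono (by omega))).mono (by nlinarith))
    have h7 : 3 * (n + 1) * s * N ≤ (n + 1) * (Fintype.card F : ℤ) ^ (n + 1) := by
      rw [pow_succ, hs]
      have : (0 : ℤ) ≤ (n + 1) * (s * N) := by positivity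
      nlinarith
    nlinarith
  have h7 := eq_zero_of_mem h1 (((hH.qpow m).mul (v_D n).le).mul h6) (by rw [hs]; nlinarith)
  exact (sub_eq_zero.1 ((mul_eq_zero.1 h7).resolve_left
    (mul_ne_zero (pow_ne_zero _ hh0) (D_ne n)))).symm

lemma exists_lt_two_pow (C : ℕ) : ∃ n : ℕ, C * (n + 1) ^ 2 < 2 ^ n := by
  have h := (tendsto_pow_const_div_const_pow_of_one_lt 2 (one_lt_two (α := ℝ))).comp
    (tendsto_add_atTop_nat 1)
  obtain ⟨n, hn⟩ := ((h.const_mul (2 * (C : ℝ))).eventually_lt_const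
    (by simp : 2 * (C : ℝ) * 0 < 1)).exists
  refine ⟨n, ?_⟩
  simp only [Function.comp] at hn
  rw [← mul_div_assoc, div_lt_one (by positivity), pow_succ (2 : ℝ) n] at hn
  have : ((C * (n + 1) ^ 2 : ℕ) : ℝ) < ((2 ^ n : ℕ) : ℝ) := by
    push_cast at hn ⊢
    linarith
  exact_mod_cast this

theorem not_both (hq : 3 ≤ Fintype.card F) {u h : LaurentSeries F} (hu : u ≠ 0) (hh : h ∈ AA F)
    (hh0 : h ≠ 0) (hα : h * carlitzExp F u ∈ AA F)
    (hγ : h * carlitzExp F (carlitzExp F 1 * u) ∈ AA F) : False := by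
  obtain ⟨H, hH⟩ := exists_O h
  obtain ⟨a₀, ha₀⟩ := exists_O u
  obtain ⟨a₁, ha₁⟩ : ∃ a₁ : ℕ, ¬O u (-a₁) := by
    by_contra hc
    push Not at hc
    exact hu (eq_zero_of_O fun a => (hc a.natAbs).mono (by omega))
  obtain ⟨c, hc⟩ := exists_appr u (carlitzExp F 1 * u)
  choose w₀ w₁ w₂ hw using hc
  set q := Fintype.card F with hqdef
  obtain ⟨s, hs⟩ : ∃ s, s = q ^ (3 * H + 6) := ⟨_, rfl⟩
  have hs1 : 3 * H + 6 < s := hs ▸ Nat.lt_pow_self (by omega)
  obtain ⟨A, hA⟩ : ∃ A, A = 3 * H + 7 + (2 + q) * s * (3 * H + 9) := ⟨_, rfl⟩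
  obtain ⟨n', hn'⟩ := exists_lt_two_pow (2 * (3 * A + c + 2 * A * (3 * A + c) + a₀ + a₁))
  obtain ⟨n₀, hn₀⟩ : ∃ n₀, n₀ = 2 * n' + 2 + (3 * H + 6) := ⟨_, rfl⟩
  obtain ⟨E₀, hE₀⟩ : ∃ E₀, E₀ = H + n₀ * s + 2 := ⟨_, rfl⟩
  obtain ⟨E₁, hE₁⟩ : ∃ E₁, E₁ = 2 * E₀ + (H + (n₀ + 1) * (q * s) + 3) := ⟨_, rfl⟩
  obtain ⟨κ, hκ⟩ : ∃ κ, κ = 3 * E₁ + c + 2 * E₁ * (3 * E₁ + c) + a₀ + a₁ := ⟨_, rfl⟩
  have hκ1 : 2 * κ < q ^ n' := by
    have h1 : n₀ + 1 ≤ (3 * H + 9) * (n' + 1) := by rw [hn₀]; nlinarith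
    have h2 : E₁ ≤ A * (n' + 1) := by
      have h3 : (2 + q) * s * (n₀ + 1) ≤ (2 + q) * s * ((3 * H + 9) * (n' + 1)) := by gcongr
      rw [hE₁, hE₀, hA]
      nlinarith
    have h3 : 2 ^ n' ≤ q ^ n' := Nat.pow_le_pow_left (by omega) _
    have h4 : 1 ≤ n' + 1 := by omega
    generalize n' + 1 = t at h2 h4 hn'
    have h5 : t ≤ t ^ 2 := by nlinarith
    have h6 : κ ≤ 3 * (A * t ^ 2) + c * t ^ 2 + 2 * (A * t) * (3 * (A * t) + c * t) +
        a₀ * t ^ 2 + a₁ * t ^ 2 := by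
      have h7 : E₁ ≤ A * t ^ 2 := h2.trans (by gcongr)
      have h8 : ∀ x, x ≤ x * t ^ 2 := fun x => Nat.le_mul_of_pos_right _ (by positivity)
      have h9 : c ≤ c * t := Nat.le_mul_of_pos_right _ h4
      rw [hκ]
      gcongr <;> exact h8 _
    nlinarith
  have hw' : ∀ E ≤ E₁, Appr u (carlitzExp F 1 * u) E κ (w₀ E) (w₁ E) (w₂ E) := by
    intro E hE
    refine (hw E).mono ?_
    have : 3 * E + c + 2 * E * (3 * E + c) ≤ 3 * E₁ + c + 2 * E₁ * (3 * E₁ + c) := by gcongr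
    omega
  have hκ2 : ((κ + κ : ℕ) : ℤ) < (q : ℤ) ^ n' := by exact_mod_cast (by omega : κ + κ < q ^ n')
  have hκ3 : ∀ m, 2 * n' + 1 ≤ m →
      (n' + 1) * (q : ℤ) ^ (n' + 1) + (κ + κ : ℕ) < (q : ℤ) ^ (m + 1) := by
    intro m hm
    have h1 : n' + 2 ≤ q ^ (n' + 1) := Nat.lt_pow_self (by omega)
    have h2 : (n' : ℤ) + 2 ≤ (q : ℤ) ^ (n' + 1) := by exact_mod_cast h1
    have h3 := qpow_mono (F := F) (by omega : n' + 1 + (n' + 1) ≤ m + 1)
    have h4 := qpow_mono (F := F) (Nat.le_add_right n' 1)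
    have h5 := one_le_qpow (F := F) n'
    rw [pow_add] at h3
    have h6 := mul_le_mul_of_nonneg_right h2 (by omega : (0 : ℤ) ≤ (q : ℤ) ^ (n' + 1))
    rw [← hqdef] at h3 h4 h5
    linarith
  have hκ4 : ∀ m, 2 * n' + 1 ≤ m → 2 * (κ : ℤ) < (q : ℤ) ^ (m + 1) := by
    intro m hm
    have h1 := hκ3 m hm
    have h2 : (0 : ℤ) ≤ (n' + 1) * (q : ℤ) ^ (n' + 1) := by positivity
    omega
  have hu' : O u κ := ha₀.mono (by omega)
  have hpow : ∀ m, (q : ℤ) ^ (m + 1 + (3 * H + 6)) = s * (q : ℤ) ^ (m + 1) := by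
    intro m
    rw [hs, pow_add]
    push_cast
    ring
  have step : ∀ E, E₀ ≤ E → E + 1 ≤ E₁ →
      w₁ E * w₀ (E + 1) = w₁ (E + 1) * w₀ E ∧ w₂ E * w₀ (E + 1) = w₂ (E + 1) * w₀ E := by
    intro E h1 h2
    have h3 := hw' E (by omega)
    have h4 := hw' (E + 1) h2
    obtain ⟨n, hn1, hn2, hn3⟩ : ∃ n, n₀ ≤ n ∧ H + n * s + 2 ≤ E ∧ E < H + (n + 1) * s + 2 := by
      refine ⟨(E - H - 2) / s, (Nat.le_div_iff_mul_le (by omega)).2 (by omega), ?_, ?_⟩
      · have := Nat.div_mul_le_self (E - H - 2) s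
        omega
      · have := Nat.lt_div_mul_add (a := E - H - 2) (by omega : 0 < s)
        rw [add_mul]
        omega
    obtain ⟨m, rfl⟩ : ∃ m, n = m + 1 + (3 * H + 6) := ⟨n - (3 * H + 6) - 1, by omega⟩
    have hm : 2 * n' + 1 ≤ m := by omega
    have hN := one_le_qpow (F := F) (m + 1)
    have k1 : (H : ℤ) + (m + 1 + (3 * H + 6) : ℕ) * s + (2 * E + 2) + 2 ≤
        3 * ((m + 1 + (3 * H + 6) : ℕ) + 1) * s := by
      generalize m + 1 + (3 * H + 6) = n at hn3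
      have : H + n * s + (2 * E + 2) + 2 ≤ 3 * (n + 1) * s := by nlinarith
      exact_mod_cast this
    have k2 : (H : ℤ) + (m + 1 + (3 * H + 6) : ℕ) * s + 1 ≤ E := by
      exact_mod_cast (by omega : H + (m + 1 + (3 * H + 6)) * s + 1 ≤ E)
    have h5 := kill hq hu' hh hh0 hH hα hγ (Phi_mem _ h3.mem0) (Phi_mem _ h3.mem1)
      (Phi_mem _ h3.mem2) (hpow m) (hκ4 m hm)
      (O_Phi_deg _ h3.deg0 fun k => (h3.size k).mono (by omega))
      ((h3.err1 m).mono (by omega)) ((h3.err2 m).mono (by omega)) k1 k2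
    have h6 := kill hq hu' hh hh0 hH hα hγ (Phi_mem _ h4.mem0) (Phi_mem _ h4.mem1)
      (Phi_mem _ h4.mem2) (hpow m) (hκ4 m hm)
      (O_Phi_deg _ h4.deg0 fun k => (h4.size k).mono (by omega))
      ((h4.err1 m).mono (by push_cast; nlinarith)) ((h4.err2 m).mono (by push_cast; nlinarith))
      k1 k2
    have h7 := eq_zero_of_rel (P := w₁ E * w₀ (E + 1) - w₁ (E + 1) * w₀ E)
      (Q := w₂ E * w₀ (E + 1) - w₂ (E + 1) * w₀ E) (κ := κ + κ) (n := m + 1 + (3 * H + 6))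
      ((natDegree_sub_le _ _).trans (max_le (natDegree_mul_le.trans (add_le_add h3.deg1 h4.deg0))
        (natDegree_mul_le.trans (add_le_add h4.deg1 h3.deg0))))
      ((natDegree_sub_le _ _).trans (max_le (natDegree_mul_le.trans (add_le_add h3.deg2 h4.deg0))
        (natDegree_mul_le.trans (add_le_add h4.deg2 h3.deg0)))) (by omega) hκ2 (hκ3 m hm) (by
      simp only [map_sub, map_mul]
      linear_combination Phi F (m + 1) (w₀ E) * h6 - Phi F (m + 1) (w₀ (E + 1)) * h5)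
    exact ⟨sub_eq_zero.1 h7.1, sub_eq_zero.1 h7.2⟩
  have chain : ∀ E, E₀ ≤ E → E ≤ E₁ →
      w₁ E₀ * w₀ E = w₁ E * w₀ E₀ ∧ w₂ E₀ * w₀ E = w₂ E * w₀ E₀ := by
    intro E h1
    induction E, h1 using Nat.le_induction with
    | base => exact fun _ => ⟨rfl, rfl⟩
    | succ E h1 ih =>
      intro h2
      obtain ⟨h3, h4⟩ := ih (by omega)
      obtain ⟨h5, h6⟩ := step E h1 h2
      have h7 := (hw E).ne
      exact ⟨mul_left_cancel₀ h7 (by linear_combination w₀ (E + 1) * h3 + w₀ E₀ * h5),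
        mul_left_cancel₀ h7 (by linear_combination w₀ (E + 1) * h4 + w₀ E₀ * h6)⟩
  obtain ⟨h1, h2⟩ := chain E₁ (by omega) le_rfl
  have h3 := hw' E₀ (by omega)
  have h4 := hw' E₁ le_rfl
  obtain ⟨m, hm⟩ : ∃ m, m = 2 * n' + 1 := ⟨_, rfl⟩
  have hne : ∀ E ≤ E₁, Phi F (m + 1) (w₀ E) ≠ 0 := by
    intro E hE h0
    exact (hw E).ne (eq_zero_of_rel (P := w₀ E) (Q := 0) (κ := κ + κ) (n := n' + 1)
      ((hw' E hE).deg0.trans (by omega)) (by simp) le_rfl hκ2 (hκ3 m hm.ge)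
      (by rw [h0, map_zero, mul_zero])).1
  have hb := O_Phi_deg (m + 1) h3.deg0 h3.size
  obtain ⟨r, hr⟩ : ∃ r : ℤ, r = H + (n₀ + 1) * (q * s) + 3 := ⟨_, rfl⟩
  have hr' : (E₁ : ℤ) = 2 * E₀ + r := by rw [hE₁, hr]; push_cast; ring
  have herr : ∀ (x : LaurentSeries F) (w w' : (LaurentSeries F)[X]), w * w₀ E₁ = w' * w₀ E₀ →
      O (Phi F (m + 1) (w₀ E₁) * x - Phi F (m + 1) w') (-((q : ℤ) ^ (m + 1) * E₁) + κ) →
      O (Phi F (m + 1) (w₀ E₀) * x - Phi F (m + 1) w) (-((q : ℤ) ^ (m + 1) * r) + 2 * κ) := by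
    intro x w w' h5 h6
    refine O.of_mul_mem ?_ (Phi_mem (m + 1) h4.mem0) (hne E₁ le_rfl)
    have h7 := congrArg (Phi F (m + 1)) h5
    rw [map_mul, map_mul] at h7
    convert hb.mul h6 using 1
    · linear_combination -h7
    · rw [hr']; ring
  have e1 := herr _ _ _ h1 (h4.err1 m)
  have e2 := herr _ _ _ h2 (h4.err2 m)
  have hn₀' : n₀ = m + 1 + (3 * H + 6) := by omega
  have hs1' : 3 * (H : ℤ) + 6 < s := by exact_mod_cast hs1
  have hq' : (3 : ℤ) ≤ q := by exact_mod_cast hq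
  have hE₀' : (E₀ : ℤ) = H + n₀ * s + 2 := by exact_mod_cast hE₀
  have hn0 : (0 : ℤ) ≤ n₀ := by positivity
  have hqs : 3 * (s : ℤ) ≤ q * s := by nlinarith
  have hqs' : (n₀ : ℤ) * (3 * s) ≤ n₀ * (q * s) := by gcongr
  have hns : (0 : ℤ) ≤ n₀ * s := by positivity
  have h5 := kill hq hu' hh hh0 hH hα hγ (Phi_mem _ h3.mem0) (Phi_mem _ h3.mem1)
    (Phi_mem _ h3.mem2) (n := n₀) (s := s) (by rw [hn₀', hpow]) (hκ4 m hm.ge) hb e1 e2
    (by nlinarith) (by nlinarith)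
  have h6 := kill hq hu' hh hh0 hH hα hγ (Phi_mem _ h3.mem0) (Phi_mem _ h3.mem1)
    (Phi_mem _ h3.mem2) (n := n₀ + 1) (s := q * s) (by rw [pow_succ, hn₀', hpow]; ring)
    (hκ4 m hm.ge) hb e1 e2 (by push_cast; nlinarith) (by push_cast; nlinarith)
  rw [← h5, eN_succ, add_mul, add_eq_left] at h6
  have h7 := (mul_eq_zero.1 h6).resolve_left (inv_ne_zero (D_ne _))
  have h8 : O (u * (Phi F (m + 1) (w₀ E₀) * ll F m)) (-((q : ℤ) ^ (m + 1) * r) + 2 * κ) := by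
    convert e1.neg using 1
    linear_combination h7
  refine ha₁ ((h8.of_mul_mem (mul_mem (Phi_mem _ h3.mem0) (ll_mem m))
    (mul_ne_zero (hne E₀ (by omega)) (ll_ne m))).mono ?_)
  have h9 := hκ4 m hm.ge
  have h10 : (a₁ : ℤ) ≤ κ := by omega
  have h11 : 3 ≤ r := by nlinarith
  nlinarith

end Pool.Agent.MP_ee2255_nt
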