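import Pool.Agent.Mg.F655169.Gfe3d60
import Pool.Agent.MP_655169_nt.GelAux

/-!
The powers with exponent `e` and `π` in the Carlitz model.
-/

open scoped IntermediateField

namespace Pool.Agent.MP_ee2255_nt.MQ

open Pool.Agent.MP_655169_nt

variable {F E : Type*} [Field F] [Fintype F] [NormedField E] [IsUltrametricDist E]
  [CompleteSpace E] [Algebra F E]

theorem sch {θ : E} (hθ : 1 < ‖θ‖) {ι : Type} [Fintype ι] (x y : ι → E)
    (hx : LinearIndependent F⟮θ⟯ x)
    (h : ∀ S : IntermediateField F⟮θ⟯ E, (∀ i, y i ∈ S) → (∀ b, IsAlgebraic F⟮θ⟯ b → b ∈ S) →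
      ∀ i, x i ∈ S ∧ carlitzExp (Fintype.card F) θ (x i) ∈ S) :
    AlgebraicIndependent F⟮θ⟯ y := by
  let e := (Fintype.equivFin ι).symm
  have hm := Pool.Agent.MP_ee2255_nt.T.main θ hθ _ (x ∘ e) (hx.comp e e.injective)
  set T : Set E := Set.range (y ∘ e) ∪ {b | IsAlgebraic F⟮θ⟯ b} with hT
  have h1 := h (IntermediateField.adjoin F⟮θ⟯ T)
    (fun i => IntermediateField.subset_adjoin _ _ (Or.inl ⟨e.symm i, by simp⟩))
    fun b hb => IntermediateField.subset_adjoin _ _ (Or.inr hb)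
  have h2 : IntermediateField.adjoin F⟮θ⟯ (Set.range (x ∘ e) ∪
      Set.range fun i => carlitzExp (Fintype.card F) θ ((x ∘ e) i)) ≤
      IntermediateField.adjoin F⟮θ⟯ T := by
    rw [IntermediateField.adjoin_le_iff]
    rintro t (⟨i, rfl⟩ | ⟨i, rfl⟩)
    · exact (h1 _).1
    · exact (h1 _).2
  refine (algebraicIndependent_equiv e).1 (algInd_of_trdeg _ T _
    (fun i => IntermediateField.subset_adjoin _ _ (Or.inl ⟨i, rfl⟩)) ?_
    (hm.trans (trdeg_le_of_injective (IntermediateField.inclusion h2)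
      (IntermediateField.inclusion_injective h2))))
  rintro t (⟨i, rfl⟩ | ht)
  · exact Or.inr ⟨1, i, isAlgebraic_one, one_mem _, (one_mul _).symm⟩
  · exact Or.inl ht

theorem lin_cons {K A : Type*} [Field K] [Field A] [Algebra K A] {n : ℕ} {v : Fin n → A}
    (hv : AlgebraicIndependent K v) : LinearIndependent K (Fin.cons 1 v : Fin (n + 1) → A) := by
  refine Fintype.linearIndependent_iff.2 fun g hg => ?_
  have h0 : (MvPolynomial.C (g 0) + ∑ j, MvPolynomial.C (g j.succ) * MvPolynomial.X j :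
      MvPolynomial (Fin n) K) = 0 := by
    refine hv.eq_zero_of_aeval_eq_zero _ ?_
    simpa [Fin.sum_univ_succ, Algebra.smul_def] using hg
  have h1 : ∀ z : Fin n → K, g 0 + ∑ j, g j.succ * z j = 0 := fun z => by
    simpa using congrArg (MvPolynomial.eval z) h0
  have h2 : g 0 = 0 := by simpa using h1 0
  refine Fin.cases h2 fun j => ?_
  simpa [h2, Pi.single_apply] using h1 (Pi.single j 1)

theorem lin_all {K A : Type*} [Field K] [Field A] [Algebra K A] {m : ℕ} {e ω γ : A}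
    {u : Fin m → A} (hγ : γ ≠ 0) (hγa : IsAlgebraic K γ)
    (hv : AlgebraicIndependent K (Fin.cons e (Fin.cons ω u) : Fin (m + 2) → A)) :
    LinearIndependent K (Sum.elim (Fin.cons 1 (Fin.cons ω u) : Fin (m + 2) → A)
      (Sum.elim (fun j => e * u j) fun j => γ * ω * u j)) := by
  refine Fintype.linearIndependent_iff.2 fun g hg => ?_
  let L := algebraicClosure K A
  let c : L := ⟨γ, mem_algebraicClosure_iff.2 hγa⟩
  have hc : c ≠ 0 := fun h => hγ (congrArg Subtype.val h)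
  let a : K →+* L := algebraMap K L
  have ha : ∀ k, (a k : A) = algebraMap K A k := fun k =>
    (IsScalarTower.algebraMap_apply K L A k).symm
  have hcA : (c : A) = γ := rfl
  have h0 : (MvPolynomial.C (a (g (.inl 0))) + (MvPolynomial.C (a (g (.inl 1))) * MvPolynomial.X 1 +
      ∑ j : Fin m, MvPolynomial.C (a (g (.inl j.succ.succ))) * MvPolynomial.X j.succ.succ) +
      (∑ j : Fin m, MvPolynomial.C (a (g (.inr (.inl j)))) *
        (MvPolynomial.X 0 * MvPolynomial.X j.succ.succ) +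
      ∑ j : Fin m, MvPolynomial.C (a (g (.inr (.inr j)))) *
        (MvPolynomial.C c * MvPolynomial.X 1 * MvPolynomial.X j.succ.succ)) :
      MvPolynomial (Fin (m + 2)) L) = 0 := by
    refine hv.algebraicClosure.eq_zero_of_aeval_eq_zero _ ?_
    simpa [Fintype.sum_sum_type, Fin.sum_univ_succ, Algebra.smul_def, ha, hcA] using hg
  have h1 : ∀ (p q : L) (z : Fin m → L), a (g (.inl 0)) + (a (g (.inl 1)) * q +
      ∑ j : Fin m, a (g (.inl j.succ.succ)) * z j) + (∑ j : Fin m, a (g (.inr (.inl j))) * (p * z j) +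
      ∑ j : Fin m, a (g (.inr (.inr j))) * (c * q * z j)) = 0 := fun p q z => by
    simpa using congrArg (MvPolynomial.eval (Fin.cons p (Fin.cons q z))) h0
  have g0 : g (.inl 0) = 0 := by simpa using h1 0 0 0
  have g1 : g (.inl 1) = 0 := by simpa [g0] using h1 0 1 0
  have g2 : ∀ j : Fin m, g (.inl j.succ.succ) = 0 := fun j => by
    simpa [g0, Pi.single_apply] using h1 0 0 (Pi.single j 1)
  have g3 : ∀ j : Fin m, g (.inr (.inl j)) = 0 := fun j => by
    simpa [g0, g2, Pi.single_apply] using h1 1 0 (Pi.single j 1)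
  have g4 : ∀ j : Fin m, g (.inr (.inr j)) = 0 := fun j => by
    simpa [g0, g1, g2, hc, Pi.single_apply] using h1 0 1 (Pi.single j 1)
  rintro (i | j | j)
  · exact Fin.cases g0 (Fin.cases g1 g2) i
  · exact g3 j
  · exact g4 j

theorem main (θ : E) (hθ : 1 < ‖θ‖) (ω γ : E) (hω : carlitzExp (Fintype.card F) θ ω = 0)
    (hγ : γ ≠ 0) (hγa : IsAlgebraic F⟮θ⟯ γ) (m : ℕ) (u : Fin m → E)
    (hu : ∀ j, IsAlgebraic F⟮θ⟯ (carlitzExp (Fintype.card F) θ (u j)))
    (hind : LinearIndependent F⟮θ⟯ (Fin.cons ω u : Fin (m + 1) → E)) :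
    AlgebraicIndependent F⟮θ⟯
      (Sum.elim (Fin.cons (carlitzExp (Fintype.card F) θ 1) (Fin.cons ω u) : Fin (m + 2) → E)
        (Sum.elim (fun j => carlitzExp (Fintype.card F) θ (carlitzExp (Fintype.card F) θ 1 * u j))
          fun j => carlitzExp (Fintype.card F) θ (γ * ω * u j))) := by
  have ha : ∀ i, IsAlgebraic F⟮θ⟯
      (carlitzExp (Fintype.card F) θ ((Fin.cons ω u : Fin (m + 1) → E) i)) :=
    Fin.cases (by simpa [hω] using isAlgebraic_zero) fun j => by simpa using hu j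
  have h1 := sch hθ _ _ hind fun S hy hb i => ⟨hy i, hb _ (ha i)⟩
  have h2 := sch hθ _
    (Fin.cons (carlitzExp (Fintype.card F) θ 1) (Fin.cons ω u) : Fin (m + 2) → E) (lin_cons h1)
    fun S hy hb => Fin.cases ⟨one_mem S, hy 0⟩ fun i => ⟨hy i.succ, hb _ (ha i)⟩
  refine sch hθ _ _ (lin_all hγ hγa h2) fun S hy hb => ?_
  rintro (i | j | j)
  · exact Fin.cases ⟨one_mem S, hy (.inl 0)⟩ (fun i => ⟨hy (.inl i.succ), hb _ (ha i)⟩) i
  · exact ⟨mul_mem (hy (.inl 0)) (hy (.inl j.succ.succ)), hy (.inr (.inl j))⟩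
  · exact ⟨mul_mem (mul_mem (hb _ hγa) (hy (.inl 1))) (hy (.inl j.succ.succ)), hy (.inr (.inr j))⟩

end Pool.Agent.MP_ee2255_nt.MQ
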