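import Mathlib

/-! Translation `P(Y + W)` of polynomials, minimal relations and additive polynomials. -/

namespace Pool.Agent.MP_ee2255_nt.S

open MvPolynomial

variable {k ι : Type*} [Field k]

/-- `P(Y + W)` as a polynomial in `Y` whose coefficients are polynomials in `W` -/
noncomputable def shift : MvPolynomial ι k →ₐ[k] MvPolynomial ι (MvPolynomial ι k) :=
  aeval fun j => X j + C (X j)

/-- The product of binomial coefficients in the translation formula. -/
noncomputable def saddB (κ ν : ι →₀ ℕ) : ℕ := ∏ j ∈ κ.support, (κ j + ν j).choose (κ j)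

lemma saddB_split [DecidableEq ι] (κ ν : ι →₀ ℕ) (i : ι) :
    saddB κ ν = (κ i + ν i).choose (κ i) * ∏ j ∈ κ.support.erase i, (κ j + ν j).choose (κ j) := by
  unfold saddB
  by_cases h : i ∈ κ.support
  · rw [Finset.mul_prod_erase _ (fun j => (κ j + ν j).choose (κ j)) h]
  · rw [Finset.erase_eq_of_notMem h, Finsupp.notMem_support_iff.1 h]
    simp

lemma saddB_left [DecidableEq ι] (κ ν : ι →₀ ℕ) (i : ι) :
    saddB (κ - Finsupp.single i 1) ν = (κ i - 1 + ν i).choose (κ i - 1) *
      ∏ j ∈ κ.support.erase i, (κ j + ν j).choose (κ j) := by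
  rw [saddB_split _ _ i]
  have h1 : (κ - Finsupp.single i 1).support.erase i = κ.support.erase i := by
    ext j
    simp only [Finset.mem_erase, Finsupp.mem_support_iff, Finsupp.coe_tsub, Pi.sub_apply]
    refine and_congr_right fun hj => ?_
    rw [Finsupp.single_eq_of_ne hj, Nat.sub_zero]
  rw [h1]
  congr 1
  · simp
  · refine Finset.prod_congr rfl fun j hj => ?_
    simp only [Finsupp.coe_tsub, Pi.sub_apply]
    rw [Finsupp.single_eq_of_ne (Finset.mem_erase.1 hj).1, Nat.sub_zero]

lemma saddB_right [DecidableEq ι] (κ ν : ι →₀ ℕ) (i : ι) :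
    saddB κ (ν - Finsupp.single i 1) = (κ i + (ν i - 1)).choose (κ i) *
      ∏ j ∈ κ.support.erase i, (κ j + ν j).choose (κ j) := by
  rw [saddB_split _ _ i]
  congr 1
  · simp
  · refine Finset.prod_congr rfl fun j hj => ?_
    simp only [Finsupp.coe_tsub, Pi.sub_apply]
    rw [Finsupp.single_eq_of_ne (Finset.mem_erase.1 hj).1, Nat.sub_zero]

lemma sadd_coeff (P : MvPolynomial ι k) (κ ν : ι →₀ ℕ) :
    coeff ν (coeff κ (shift P)) = coeff (κ + ν) P * (saddB κ ν : k) := by
  classical
  induction P using MvPolynomial.induction_on generalizing κ ν with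
  | C a =>
    have h : shift (C a : MvPolynomial ι k) = C (C a) := by simp [shift]
    rw [h, coeff_C, coeff_C]
    by_cases h1 : 0 = κ
    · subst h1
      simp [coeff_C, saddB]
    · rw [if_neg h1, if_neg, zero_mul, coeff_zero]
      intro h2
      exact h1 (add_eq_zero.1 h2.symm).1.symm
  | add p q hp hq => simp only [map_add, coeff_add, hp, hq, add_mul]
  | mul_X p i hp =>
    have h : shift (p * X i) = shift p * X i + C (X i) * shift p := by
      simp only [shift, map_mul, aeval_X]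
      ring
    rw [h, coeff_add, coeff_add, coeff_mul_X', coeff_C_mul, coeff_X_mul', coeff_mul_X',
      saddB_split κ ν i]
    by_cases h1 : i ∈ κ.support
    · have h1' : κ i ≠ 0 := Finsupp.mem_support_iff.1 h1
      have h3 : i ∈ (κ + ν).support := by
        rw [Finsupp.mem_support_iff, Finsupp.add_apply]; omega
      have e1 : κ - Finsupp.single i 1 + ν = κ + ν - Finsupp.single i 1 :=
        tsub_add_eq_add_tsub (Finsupp.single_le_iff.2 (by omega))
      rw [if_pos h1, if_pos h3, hp, e1, saddB_left]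
      obtain ⟨a, ha⟩ := Nat.exists_eq_succ_of_ne_zero h1'
      by_cases h2 : i ∈ ν.support
      · have h2' : ν i ≠ 0 := Finsupp.mem_support_iff.1 h2
        have e2 : κ + (ν - Finsupp.single i 1) = κ + ν - Finsupp.single i 1 :=
          (add_tsub_assoc_of_le (Finsupp.single_le_iff.2 (by omega)) κ).symm
        rw [if_pos h2, hp, e2, saddB_right]
        obtain ⟨b, hb⟩ := Nat.exists_eq_succ_of_ne_zero h2'
        rw [ha, hb]
        have e3 : (a.succ + b.succ).choose a.succ =
            (a.succ - 1 + b.succ).choose (a.succ - 1) + (a.succ + (b.succ - 1)).choose a.succ := by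
          rw [show a.succ + b.succ = (a + b + 1) + 1 by omega, Nat.choose_succ_succ',
            show a.succ - 1 + b.succ = a + b + 1 by omega, show a.succ - 1 = a by omega,
            show a.succ + (b.succ - 1) = a + b + 1 by omega]
        rw [e3]
        push_cast
        ring
      · have h2' : ν i = 0 := Finsupp.notMem_support_iff.1 h2
        rw [if_neg h2, h2']
        simp
    · have h1' : κ i = 0 := Finsupp.notMem_support_iff.1 h1
      rw [if_neg h1, coeff_zero, zero_add]
      by_cases h2 : i ∈ ν.support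
      · have h2' : ν i ≠ 0 := Finsupp.mem_support_iff.1 h2
        have h3 : i ∈ (κ + ν).support := by
          rw [Finsupp.mem_support_iff, Finsupp.add_apply]; omega
        have e2 : κ + (ν - Finsupp.single i 1) = κ + ν - Finsupp.single i 1 :=
          (add_tsub_assoc_of_le (Finsupp.single_le_iff.2 (by omega)) κ).symm
        rw [if_pos h2, if_pos h3, hp, e2, saddB_right, h1']
        simp
      · have h2' : ν i = 0 := Finsupp.notMem_support_iff.1 h2
        have h3 : i ∉ (κ + ν).support := by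
          rw [Finsupp.notMem_support_iff, Finsupp.add_apply]; omega
        rw [if_neg h2, if_neg h3, zero_mul]

lemma shift_support {P : MvPolynomial ι k} {κ ν : ι →₀ ℕ}
    (h : coeff ν (coeff κ (shift P)) ≠ 0) : coeff (κ + ν) P ≠ 0 := by
  rw [sadd_coeff] at h
  exact left_ne_zero_of_mul h

lemma shift_zero_coeff (P : MvPolynomial ι k) (κ : ι →₀ ℕ) :
    coeff 0 (coeff κ (shift P)) = coeff κ P := by
  rw [sadd_coeff]
  simp [saddB]

lemma aeval_add {A : Type*} [CommRing A] [Algebra k A] (y w : ι → A) (P : MvPolynomial ι k) :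
    aeval (y + w) P = eval₂ (aeval w : MvPolynomial ι k →ₐ[k] A).toRingHom y (shift P) := by
  induction P using MvPolynomial.induction_on with
  | C a => simp [shift]
  | add p q hp hq => simp only [map_add, eval₂_add, hp, hq]
  | mul_X p i hp =>
    rw [map_mul, map_mul, eval₂_mul, hp]
    simp [shift]

/-- if all the translation coefficients are constant, the polynomial is additive up to a
constant -/
lemma add_form (p : ℕ) [Fact p.Prime] [CharP k p] {P : MvPolynomial ι k}
    (h : ∀ κ, κ ≠ 0 → ∃ c, coeff κ (shift P) = C c) {μ : ι →₀ ℕ} (hμ : coeff μ P ≠ 0) :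
    μ = 0 ∨ ∃ j b, μ = Finsupp.single j (p ^ b) := by
  classical
  by_cases h0 : μ = 0
  · exact Or.inl h0
  right
  obtain ⟨j, hj⟩ := Finsupp.support_nonempty_iff.2 h0
  have hj' : μ j ≠ 0 := Finsupp.mem_support_iff.1 hj
  have hp : p.Prime := Fact.out
  obtain ⟨b, n, hn, hb⟩ := Nat.exists_eq_pow_mul_and_not_dvd hj' p hp.ne_one
  have hn0 : n ≠ 0 := by rintro rfl; exact hn (dvd_zero p)
  have hq : 0 < p ^ b := pow_pos hp.pos b
  have hle : Finsupp.single j (p ^ b) ≤ μ :=
    Finsupp.single_le_iff.2 (by rw [hb]; exact Nat.le_mul_of_pos_right _ (Nat.pos_of_ne_zero hn0))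
  refine ⟨j, b, ?_⟩
  have hs : Finsupp.single j (p ^ b) + (μ - Finsupp.single j (p ^ b)) = μ :=
    add_tsub_cancel_of_le hle
  obtain ⟨c, hc⟩ := h (Finsupp.single j (p ^ b)) (Finsupp.single_ne_zero.2 hq.ne')
  have h1 := sadd_coeff P (Finsupp.single j (p ^ b)) (μ - Finsupp.single j (p ^ b))
  have h2 : saddB (Finsupp.single j (p ^ b)) (μ - Finsupp.single j (p ^ b)) =
      (p ^ b * n).choose (p ^ b * 1) := by
    unfold saddB
    rw [Finsupp.support_single _ hq.ne', Finset.prod_singleton, ← Finsupp.add_apply, hs,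
      hb, Finsupp.single_eq_same, mul_one]
  have h3 : (((p ^ b * n).choose (p ^ b * 1) : ℕ) : k) ≠ 0 := by
    rw [(CharP.natCast_eq_natCast k p).2 Choose.choose_pow_mul_pow_mul_modEq_choose_nat,
      Nat.choose_one_right, Ne, CharP.cast_eq_zero_iff k p]
    exact hn
  rw [hs, h2, hc, coeff_C] at h1
  by_cases h4 : 0 = μ - Finsupp.single j (p ^ b)
  · rw [← h4, add_zero] at hs
    exact hs.symm
  · rw [if_neg h4] at h1
    exact absurd h1.symm (mul_ne_zero hμ h3)

/-- a nonzero element with least leading monomial -/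
lemma exists_min [Finite ι] (I : Submodule k (MvPolynomial ι k)) (hI : I ≠ ⊥) :
    ∃ P ∈ I, ∃ (μ₀ : ι →₀ ℕ) (lt : Set (ι →₀ ℕ)), coeff μ₀ P = 1 ∧ μ₀ ∉ lt ∧
      (∀ μ, coeff μ P ≠ 0 → μ = μ₀ ∨ μ ∈ lt) ∧
      (∀ ν κ, κ ≠ 0 → (ν + κ = μ₀ ∨ ν + κ ∈ lt) → ν ∈ lt) ∧
      (∀ μ ∈ lt, μ.degree ≤ μ₀.degree) ∧
      ∀ Q ∈ I, (∀ μ, coeff μ Q ≠ 0 → μ ∈ lt) → Q = 0 := by
  classical
  obtain ⟨n, ⟨e⟩⟩ := Finite.exists_equiv_fin ι
  let _ : LinearOrder ι := LinearOrder.lift' e e.injective
  have _ : WellFoundedGT ι := Finite.to_wellFoundedGT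
  let m : MonomialOrder ι := MonomialOrder.degLex
  obtain ⟨Q0, hQ0, hQ0'⟩ := (Submodule.ne_bot_iff I).1 hI
  let T : Set m.syn := {s | ∃ Q ∈ I, Q ≠ 0 ∧ m.toSyn (m.degree Q) = s}
  obtain ⟨s, ⟨R, hR, hR0, rfl⟩, hmin⟩ :=
    (wellFounded_lt (α := m.syn)).has_min T ⟨_, Q0, hQ0, hQ0', rfl⟩
  have hc : coeff (m.degree R) R ≠ 0 := m.coeff_degree_ne_zero_iff.2 hR0
  refine ⟨(coeff (m.degree R) R)⁻¹ • R, I.smul_mem _ hR, m.degree R,
    {ν | m.toSyn ν < m.toSyn (m.degree R)}, ?_,
    fun h => lt_irrefl (m.toSyn (m.degree R)) h, fun μ hμ => ?_, fun ν κ hκ h => ?_,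
    fun μ hμ => ?_, fun Q hQ h => ?_⟩
  · rw [coeff_smul, smul_eq_mul, inv_mul_cancel₀ hc]
  · rw [coeff_smul, smul_eq_mul] at hμ
    have h1 := m.le_degree (mem_support_iff.2 (right_ne_zero_of_mul hμ))
    rcases h1.eq_or_lt with h2 | h2
    · exact Or.inl (m.toSyn.injective h2)
    · exact Or.inr h2
  · have h1 : m.toSyn ν < m.toSyn (ν + κ) :=
      m.toSyn_strictMono (lt_add_of_pos_right ν (pos_iff_ne_zero.2 hκ))
    rcases h with h | h
    · rw [← h]; exact h1
    · exact h1.trans h
  · exact Finsupp.DegLex.monotone_degree (le_of_lt hμ)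
  · by_contra h0
    exact hmin _ ⟨Q, hQ, h0, rfl⟩ (h _ (m.coeff_degree_ne_zero_iff.2 h0))

end Pool.Agent.MP_ee2255_nt.S
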