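import Mathlib

/-! A polynomial relation between additive power series survives `X ↦ X + Y`. -/

namespace Pool.Agent.MP_ee2255_nt.S

open PowerSeries

variable {k ι : Type*} [Field k]

lemma aeval_sub_mem {A : Type*} [CommRing A] [Algebra k A] (I : Ideal A) (v w : ι → A)
    (h : ∀ j, v j - w j ∈ I) (P : MvPolynomial ι k) :
    MvPolynomial.aeval v P - MvPolynomial.aeval w P ∈ I := by
  rw [← Ideal.Quotient.eq]
  have h1 : ∀ u : ι → A, Ideal.Quotient.mk I (MvPolynomial.aeval u P) =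
      MvPolynomial.aeval (fun j => Ideal.Quotient.mk I (u j)) P := fun u =>
    MvPolynomial.comp_aeval_apply u (Ideal.Quotient.mkₐ k I) P
  rw [h1, h1]
  congr 2
  funext j
  exact Ideal.Quotient.eq.2 (h j)

lemma X_pow_dvd_trunc_sub (M : ℕ) (f : k⟦X⟧) :
    (X : k⟦X⟧) ^ M ∣ ((trunc M f : Polynomial k) : k⟦X⟧) - f := by
  rw [X_pow_dvd_iff]
  intro m hm
  rw [map_sub, coeff_coe_trunc_of_lt hm, sub_self]

lemma algebraMap_two (a : k) : algebraMap k k⟦X⟧⟦X⟧ a = C (C a) := by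
  rw [PowerSeries.algebraMap_apply, PowerSeries.algebraMap_apply]
  rfl

lemma aeval_C_X (T : Polynomial k) :
    Polynomial.aeval (C (X : k⟦X⟧) : k⟦X⟧⟦X⟧) T = C (T : k⟦X⟧) := by
  induction T using Polynomial.induction_on' with
  | add p q hp hq => simp [hp, hq]
  | monomial n a =>
    rw [Polynomial.aeval_monomial, Polynomial.coe_monomial, monomial_eq_C_mul_X_pow, map_mul,
      map_pow, algebraMap_two]

lemma aeval_X_X (T : Polynomial k) :
    Polynomial.aeval (X : k⟦X⟧⟦X⟧) T = PowerSeries.map (C : k →+* k⟦X⟧) (T : k⟦X⟧) := by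
  induction T using Polynomial.induction_on' with
  | add p q hp hq => simp [hp, hq]
  | monomial n a =>
    rw [Polynomial.aeval_monomial, Polynomial.coe_monomial, monomial_eq_C_mul_X_pow, map_mul,
      map_pow, map_C, map_X, algebraMap_two]

lemma aeval_trunc_add (p : ℕ) [Fact p.Prime] [CharP k p] {A : Type*} [CommRing A] [Algebra k A]
    [CharP A p] (f : k⟦X⟧) (hf : ∀ n, coeff n f ≠ 0 → ∃ b, n = p ^ b) (M : ℕ) (y z : A) :
    Polynomial.aeval (y + z) (trunc M f) =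
      Polynomial.aeval y (trunc M f) + Polynomial.aeval z (trunc M f) := by
  simp only [Polynomial.aeval_def, eval₂_trunc_eq_sum_range, ← Finset.sum_add_distrib]
  refine Finset.sum_congr rfl fun n _ => ?_
  by_cases h : coeff n f = 0
  · simp [h]
  · obtain ⟨b, rfl⟩ := hf n h
    rw [add_pow_char_pow, mul_add]

lemma coeff_eq_zero_of_mem {N a b : ℕ} (ha : a < N) (hb : b < N) {F : k⟦X⟧⟦X⟧}
    (hF : F ∈ Ideal.span {(C (X : k⟦X⟧) : k⟦X⟧⟦X⟧) ^ N, (X : k⟦X⟧⟦X⟧) ^ N}) :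
    coeff a (coeff b F) = 0 := by
  obtain ⟨u, v, rfl⟩ := Ideal.mem_span_pair.1 hF
  rw [map_add, ← map_pow, coeff_mul_C, coeff_mul_X_pow', if_neg (by omega), add_zero,
    coeff_mul_X_pow', if_neg (by omega)]

theorem aeval_two (p : ℕ) [Fact p.Prime] [CharP k p] (Λ : ι → k⟦X⟧)
    (hΛ : ∀ j n, coeff n (Λ j) ≠ 0 → ∃ b, n = p ^ b) (P : MvPolynomial ι k)
    (hP : MvPolynomial.aeval Λ P = 0) :
    MvPolynomial.aeval (fun j => (C (Λ j) : k⟦X⟧⟦X⟧) +
      PowerSeries.map (C : k →+* k⟦X⟧) (Λ j)) P = 0 := by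
  have : CharP k⟦X⟧⟦X⟧ p :=
    charP_of_injective_algebraMap (algebraMap k k⟦X⟧⟦X⟧).injective p
  ext b a
  rw [map_zero, map_zero]
  set N := a + b + 1 with hN
  refine coeff_eq_zero_of_mem (N := N) (by omega) (by omega) ?_
  set K := Ideal.span {(C (X : k⟦X⟧) : k⟦X⟧⟦X⟧) ^ N, (X : k⟦X⟧⟦X⟧) ^ N} with hK
  have h1 : (C (X : k⟦X⟧) : k⟦X⟧⟦X⟧) ^ N ∈ K := Ideal.subset_span (by simp)
  have h2 : (X : k⟦X⟧⟦X⟧) ^ N ∈ K := Ideal.subset_span (by simp)
  have h3 : (C (X : k⟦X⟧) + X : k⟦X⟧⟦X⟧) ^ (N + N) ∈ K :=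
    K.add_pow_mem_of_pow_mem_of_le h1 h2 (by omega)
  set T : ι → Polynomial k := fun j => trunc (N + N) (Λ j) with hT
  have h4 : (Polynomial.X : Polynomial k) ^ (N + N) ∣ MvPolynomial.aeval T P := by
    have h5 := aeval_sub_mem (Ideal.span {(X : k⟦X⟧) ^ (N + N)})
      (fun j => ((T j : Polynomial k) : k⟦X⟧)) Λ
      (fun j => Ideal.mem_span_singleton.2 (X_pow_dvd_trunc_sub _ _)) P
    rw [hP, sub_zero, Ideal.mem_span_singleton, X_pow_dvd_iff] at h5
    have h6 : ((MvPolynomial.aeval T P : Polynomial k) : k⟦X⟧) =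
        MvPolynomial.aeval (fun j => ((T j : Polynomial k) : k⟦X⟧)) P := by
      have := MvPolynomial.comp_aeval_apply (f := T) (Polynomial.coeToPowerSeries.algHom k) P
      simpa [Polynomial.coeToPowerSeries.algHom_apply] using this
    rw [Polynomial.X_pow_dvd_iff]
    intro d hd
    have := h5 d hd
    rwa [← h6, Polynomial.coeff_coe] at this
  have h7 : MvPolynomial.aeval
      (fun j => Polynomial.aeval (C (X : k⟦X⟧) + X : k⟦X⟧⟦X⟧) (T j)) P ∈ K := by
    rw [← MvPolynomial.comp_aeval_apply]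
    obtain ⟨R, hR⟩ := h4
    rw [hR, map_mul, map_pow, Polynomial.aeval_X]
    exact K.mul_mem_right _ h3
  have h8 := aeval_sub_mem K
    (fun j => Polynomial.aeval (C (X : k⟦X⟧) + X : k⟦X⟧⟦X⟧) (T j))
    (fun j => (C (Λ j) : k⟦X⟧⟦X⟧) + PowerSeries.map (C : k →+* k⟦X⟧) (Λ j)) (fun j => by
      simp only [hT]
      rw [aeval_trunc_add p (Λ j) (hΛ j), aeval_C_X, aeval_X_X, add_sub_add_comm, ← map_sub,
        ← map_sub]
      obtain ⟨g, hg⟩ := X_pow_dvd_trunc_sub (N + N) (Λ j)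
      rw [hg, pow_add]
      refine K.add_mem ?_ ?_
      · rw [map_mul, map_mul, map_pow, mul_assoc]
        exact K.mul_mem_right _ h1
      · rw [map_mul, map_mul, map_pow, map_X, mul_assoc]
        exact K.mul_mem_right _ h2) P
  simpa using K.sub_mem h7 h8

end Pool.Agent.MP_ee2255_nt.S
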