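import Mathlib

/-! The Moore lemma and coefficients of Frobenius powers. -/

namespace Pool.Agent.MP_ee2255_nt.S

open Polynomial

lemma mem_range_of_pow_card {F k : Type*} [Field F] [Fintype F] [Field k] [Algebra F k] {e : k}
    (he : e ^ Fintype.card F = e) : ∃ g : F, algebraMap F k g = e := by
  classical
  have hm : (X ^ Fintype.card F - X : F[X]).Monic := by
    refine monic_X_pow_sub ?_
    rw [degree_X]
    exact_mod_cast Fintype.one_lt_card
  have h1 := prod_multiset_X_sub_C_of_monic_of_roots_card_eq hm (by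
    rw [FiniteField.roots_X_pow_card_sub_X,
      FiniteField.X_pow_card_sub_X_natDegree_eq F Fintype.one_lt_card]
    rfl)
  rw [FiniteField.roots_X_pow_card_sub_X] at h1
  have h2 : aeval e (X ^ Fintype.card F - X : F[X]) = 0 := by simp [he]
  rw [← h1] at h2
  change aeval e (∏ a : F, (X - C a)) = 0 at h2
  rw [map_prod, Finset.prod_eq_zero_iff] at h2
  obtain ⟨g, -, hg⟩ := h2
  refine ⟨g, ?_⟩
  simp only [map_sub, aeval_X, aeval_C] at hg
  exact (sub_eq_zero.1 hg).symm

theorem moore {F k α : Type*} [Field F] [Fintype F] [Field k] [Algebra F k] (y : α → k)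
    (hy : LinearIndependent F y) (s : Finset α) :
    ∀ (e : α → k) (K₀ : ℕ), (∀ K, K₀ ≤ K → ∑ a ∈ s, e a * y a ^ Fintype.card F ^ K = 0) →
      ∀ a ∈ s, e a = 0 := by
  classical
  obtain ⟨p, hp⟩ := CharP.exists F
  obtain ⟨f, hpp, hq⟩ := FiniteField.card F p
  have : Fact p.Prime := ⟨hpp⟩
  have : CharP k p := charP_of_injective_algebraMap (algebraMap F k).injective p
  have hsum : ∀ (s : Finset α) (u : α → k) (K : ℕ),
      (∑ a ∈ s, u a) ^ Fintype.card F ^ K = ∑ a ∈ s, u a ^ Fintype.card F ^ K := by
    intro s u K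
    rw [hq, ← pow_mul, sum_pow_char_pow]
  induction s using Finset.induction_on with
  | empty => simp
  | insert a₀ s ha₀ ih =>
    intro e K₀ h
    have h0 : e a₀ = 0 := by
      by_contra hne
      set e' : α → k := fun a => e a / e a₀ with he'
      have h1 : ∀ K, K₀ ≤ K → ∑ a ∈ insert a₀ s, e' a * y a ^ Fintype.card F ^ K = 0 := by
        intro K hK
        have := congrArg (· / e a₀) (h K hK)
        simp only [zero_div, Finset.sum_div] at this
        rw [← this]
        exact Finset.sum_congr rfl fun a _ => by simp only [he']; ring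
      have h2 : e' a₀ = 1 := div_self hne
      have h3 := ih (fun a => e' a ^ Fintype.card F - e' a) (K₀ + 1) (by
        intro K hK
        obtain ⟨K, rfl⟩ : ∃ K', K = K' + 1 := ⟨K - 1, by omega⟩
        have h4 := congrArg (· ^ Fintype.card F ^ 1) (h1 K (by omega))
        have h5 := h1 (K + 1) (by omega)
        simp only [hsum] at h4
        simp only [pow_one, mul_pow, ← pow_mul, ← pow_succ] at h4
        rw [zero_pow Fintype.card_ne_zero] at h4
        rw [Finset.sum_insert ha₀, h2] at h4 h5
        simp only [sub_mul, Finset.sum_sub_distrib]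
        rw [one_pow] at h4
        linear_combination h4 - h5)
      have h6 : ∀ a ∈ insert a₀ s, ∃ g : F, algebraMap F k g = e' a := by
        intro a ha
        rcases Finset.mem_insert.1 ha with rfl | ha
        · exact ⟨1, by rw [h2, map_one]⟩
        · exact mem_range_of_pow_card (sub_eq_zero.1 (h3 a ha))
      choose! g hg using h6
      have h7 : (∑ a ∈ insert a₀ s, g a • y a) ^ Fintype.card F ^ K₀ = 0 := by
        rw [hsum, ← h1 K₀ le_rfl]
        refine Finset.sum_congr rfl fun a ha => ?_
        rw [Algebra.smul_def, mul_pow, ← map_pow, FiniteField.pow_card_pow, hg a ha]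
      have h8 := linearIndependent_iff'.1 hy _ g (pow_eq_zero_iff (pow_ne_zero _
        Fintype.card_ne_zero) |>.1 h7) a₀ (Finset.mem_insert_self _ _)
      have h9 := hg a₀ (Finset.mem_insert_self _ _)
      rw [h8, h2, map_zero] at h9
      exact zero_ne_one h9
    intro a ha
    rcases Finset.mem_insert.1 ha with rfl | ha
    · exact h0
    · refine ih e K₀ (fun K hK => ?_) a ha
      have := h K hK
      rwa [Finset.sum_insert ha₀, h0, zero_mul, zero_add] at this

theorem moore_poly {F k ι : Type*} [Field F] [Fintype F] [Field k] [Algebra F k] [Fintype ι]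
    (x : k) (b : ι → k) (hb : LinearIndependent F fun ja : ι × ℕ => b ja.1 * x ^ ja.2)
    (R : ι → k[X]) (K₀ : ℕ) (h : ∀ K, K₀ ≤ K →
      ∑ j, (R j).eval (x ^ Fintype.card F ^ K) * b j ^ Fintype.card F ^ K = 0) (j : ι) :
    R j = 0 := by
  classical
  set D := Finset.univ.sup (fun j => (R j).natDegree) + 1 with hD
  have hlt : ∀ j, (R j).natDegree < D := fun j =>
    Nat.lt_succ_of_le (Finset.le_sup (f := fun j => (R j).natDegree) (Finset.mem_univ j))
  have h1 := moore _ hb (Finset.univ ×ˢ Finset.range D) (fun ja => (R ja.1).coeff ja.2) K₀ (by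
    intro K hK
    rw [← h K hK, Finset.sum_product]
    refine Finset.sum_congr rfl fun j _ => ?_
    rw [eval_eq_sum_range' (hlt j), Finset.sum_mul]
    refine Finset.sum_congr rfl fun a _ => ?_
    simp only [mul_pow, ← pow_mul, mul_comm a]
    ring)
  ext a
  by_cases ha : a < D
  · exact h1 (j, a) (by simpa using ha)
  · exact coeff_eq_zero_of_natDegree_lt (by have := hlt j; omega)

lemma coeff_pow_char_pow {k : Type*} [Field k] (p : ℕ) [Fact p.Prime] [CharP k p]
    (g : PowerSeries k) (b n : ℕ) :
    PowerSeries.coeff n (g ^ p ^ b) =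
      if p ^ b ∣ n then PowerSeries.coeff (n / p ^ b) g ^ p ^ b else 0 := by
  have hp : p ≠ 0 := (Fact.out : p.Prime).ne_zero
  have h1 : PowerSeries.map (iterateFrobenius k p b)
      (PowerSeries.expand (p ^ b) (pow_ne_zero b hp) g) = g ^ p ^ b :=
    MvPowerSeries.map_iterateFrobenius_expand p hp g b
  rw [← h1, PowerSeries.coeff_map, PowerSeries.coeff_expand]
  split_ifs
  · rw [iterateFrobenius_def]
  · rw [map_zero]

end Pool.Agent.MP_ee2255_nt.S
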