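import Pool.Agent.MP_ee2255_nt.SAdd
import Pool.Agent.MP_ee2255_nt.SArtinA
import Pool.Agent.MP_ee2255_nt.SArtinB

/-! Algebraic independence of additive power series. -/

namespace Pool.Agent.MP_ee2255_nt.S

open PowerSeries

lemma exists_eq_C_or {k ι : Type*} [Field k] (Q : MvPolynomial ι k) :
    (∃ c, Q = MvPolynomial.C c) ∨ ∃ ν, ν ≠ 0 ∧ MvPolynomial.coeff ν Q ≠ 0 := by
  classical
  by_cases h : ∃ ν, ν ≠ 0 ∧ MvPolynomial.coeff ν Q ≠ 0
  · exact Or.inr h
  · push Not at h
    refine Or.inl ⟨MvPolynomial.coeff 0 Q, ?_⟩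
    ext ν
    rw [MvPolynomial.coeff_C]
    split_ifs with h0
    · rw [← h0]
    · exact h ν (Ne.symm h0)

/-- the coefficients in the second variable are again relations -/
lemma delta_rel {k ι : Type*} [Field k] (p : ℕ) [Fact p.Prime] [CharP k p]
    (Λ : ι → k⟦X⟧) (hΛ : ∀ j n, coeff n (Λ j) ≠ 0 → ∃ b, n = p ^ b) (P : MvPolynomial ι k)
    (hP : MvPolynomial.aeval Λ P = 0) (n : ℕ) :
    MvPolynomial.aeval Λ (∑ κ ∈ (shift P).support, MvPolynomial.monomial κ
      (coeff n (MvPolynomial.aeval Λ (MvPolynomial.coeff κ (shift P))))) = 0 := by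
  have h1 := aeval_two p Λ hΛ P hP
  have h2 := aeval_add (fun j => (C (Λ j) : k⟦X⟧⟦X⟧))
    (fun j => PowerSeries.map (C : k →+* k⟦X⟧) (Λ j)) P
  have h3 : ∀ Q : MvPolynomial ι k,
      MvPolynomial.aeval (fun j => PowerSeries.map (C : k →+* k⟦X⟧) (Λ j)) Q =
        PowerSeries.map (C : k →+* k⟦X⟧) (MvPolynomial.aeval Λ Q) := by
    intro Q
    induction Q using MvPolynomial.induction_on with
    | C a =>
      rw [MvPolynomial.aeval_C, MvPolynomial.aeval_C, algebraMap_two,
        PowerSeries.algebraMap_apply, map_C]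
      rfl
    | add p q hp hq => simp only [map_add, hp, hq]
    | mul_X p n hp => simp only [map_mul, hp, MvPolynomial.aeval_X]
  have h4 := congrArg (coeff n) (h2.symm.trans h1)
  rw [MvPolynomial.eval₂_eq, map_sum, map_zero] at h4
  rw [map_sum, ← h4]
  refine Finset.sum_congr rfl fun κ _ => ?_
  rw [MvPolynomial.aeval_monomial]
  simp only [← map_pow]
  rw [← map_prod, coeff_mul_C]
  change _ = coeff n (MvPolynomial.aeval _ _) * _
  rw [h3, coeff_map]
  rfl

/-- Artin's theorem for additive power series -/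
theorem artin {k ι : Type*} [Field k] [Fintype ι] (p : ℕ) [Fact p.Prime] [CharP k p]
    (Λ : ι → k⟦X⟧) (hΛ : ∀ j n, coeff n (Λ j) ≠ 0 → ∃ b, n = p ^ b)
    (h : ∀ (B : ℕ) (e : ι → ℕ → k), ∑ j, ∑ b ∈ Finset.range B, e j b • Λ j ^ p ^ b = 0 →
      ∀ j, ∀ b < B, e j b = 0) :
    AlgebraicIndependent k Λ := by
  classical
  have hp : 1 < p := (Fact.out : p.Prime).one_lt
  rw [algebraicIndependent_iff]
  by_contra hne
  push Not at hne
  obtain ⟨P₀, hP₀, hP₀'⟩ := hne
  set I : Submodule k (MvPolynomial ι k) :=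
    LinearMap.ker (MvPolynomial.aeval Λ : MvPolynomial ι k →ₐ[k] k⟦X⟧).toLinearMap with hI
  have hmem : ∀ Q, Q ∈ I ↔ MvPolynomial.aeval Λ Q = 0 := fun Q => Iff.rfl
  obtain ⟨P, hPI, μ₀, lt, h1, h2, h3, h4, h5, h6⟩ := exists_min I
    ((Submodule.ne_bot_iff I).2 ⟨P₀, (hmem _).2 hP₀, hP₀'⟩)
  have hP := (hmem _).1 hPI
  have hμ₀ : μ₀ ≠ 0 := by
    rintro rfl
    rcases exists_eq_C_or P with ⟨c, rfl⟩ | ⟨ν, hν, hν'⟩
    · rw [MvPolynomial.coeff_zero_C] at h1
      rw [h1] at hP
      simp at hP
    · rcases h3 ν hν' with h7 | h7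
      · exact hν h7
      · have := h5 ν h7
        rw [map_zero, Nat.le_zero, Finsupp.degree_eq_zero_iff] at this
        exact hν this
  have h0lt : (0 : ι →₀ ℕ) ∈ lt := h4 0 μ₀ hμ₀ (Or.inl (zero_add _))
  have hcoef : ∀ n, n ≠ 0 → ∀ κ,
      coeff n (MvPolynomial.aeval Λ (MvPolynomial.coeff κ (shift P))) = 0 := by
    intro n hn
    have hc : ∀ κ, MvPolynomial.coeff κ (∑ κ ∈ (shift P).support, MvPolynomial.monomial κ
        (coeff n (MvPolynomial.aeval Λ (MvPolynomial.coeff κ (shift P))))) =
        coeff n (MvPolynomial.aeval Λ (MvPolynomial.coeff κ (shift P))) := by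
      intro κ
      rw [MvPolynomial.coeff_sum]
      simp only [MvPolynomial.coeff_monomial]
      rw [Finset.sum_ite_eq']
      split_ifs with hκ
      · rfl
      · rw [MvPolynomial.notMem_support_iff.1 hκ, map_zero, map_zero]
    have hΔ := h6 _ ((hmem _).2 (delta_rel p Λ hΛ P hP n)) (by
      intro κ hκ
      rw [hc] at hκ
      rcases exists_eq_C_or (MvPolynomial.coeff κ (shift P)) with ⟨c, hc'⟩ | ⟨ν, hν, hν'⟩
      · rw [hc', MvPolynomial.aeval_C, PowerSeries.algebraMap_apply, coeff_C, if_neg hn] at hκ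
        exact absurd rfl hκ
      · exact h4 κ ν hν (h3 _ (shift_support hν')))
    intro κ
    rw [← hc, hΔ, MvPolynomial.coeff_zero]
  have hconst : ∀ κ, κ ≠ 0 → ∃ c, MvPolynomial.coeff κ (shift P) = MvPolynomial.C c := by
    intro κ hκ
    refine ⟨coeff 0 (MvPolynomial.aeval Λ (MvPolynomial.coeff κ (shift P))), ?_⟩
    rw [← sub_eq_zero]
    refine h6 _ ((hmem _).2 ?_) ?_
    · rw [map_sub, MvPolynomial.aeval_C, PowerSeries.algebraMap_apply, sub_eq_zero]
      ext n
      rw [coeff_C]
      split_ifs with hn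
      · rw [hn]; rfl
      · exact hcoef n hn κ
    · intro ν hν
      by_cases hν0 : ν = 0
      · rw [hν0]; exact h0lt
      · rw [MvPolynomial.coeff_sub, MvPolynomial.coeff_C, if_neg (Ne.symm hν0), sub_zero] at hν
        refine h4 ν κ hκ ?_
        rw [add_comm]
        exact h3 _ (shift_support hν)
  have hadd : ∀ μ, MvPolynomial.coeff μ P ≠ 0 → μ = 0 ∨ ∃ j b, μ = Finsupp.single j (p ^ b) :=
    fun μ hμ => add_form p hconst hμ
  have hlt : ∀ j b, MvPolynomial.coeff (Finsupp.single j (p ^ b)) P ≠ 0 → b < P.totalDegree := by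
    intro j b hb
    have h7 := MvPolynomial.le_totalDegree (MvPolynomial.mem_support_iff.2 hb)
    rw [Finsupp.sum_single_index rfl] at h7
    exact lt_of_lt_of_le (Nat.lt_pow_self hp) h7
  have hne0 : ∀ (j : ι) (b : ℕ), Finsupp.single j (p ^ b) ≠ 0 := fun j b =>
    Finsupp.single_ne_zero.2 (by positivity)
  have hform : P = MvPolynomial.C (MvPolynomial.coeff 0 P) +
      ∑ jb ∈ Finset.univ ×ˢ Finset.range P.totalDegree,
        MvPolynomial.monomial (Finsupp.single jb.1 (p ^ jb.2))
          (MvPolynomial.coeff (Finsupp.single jb.1 (p ^ jb.2)) P) := by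
    ext μ
    rw [MvPolynomial.coeff_add, MvPolynomial.coeff_C, MvPolynomial.coeff_sum]
    simp only [MvPolynomial.coeff_monomial]
    by_cases hμ : MvPolynomial.coeff μ P = 0
    · rw [hμ, Finset.sum_eq_zero, add_zero]
      · split_ifs with h0
        · rw [h0, hμ]
        · rfl
      · intro jb _
        split_ifs with h0
        · rw [h0, hμ]
        · rfl
    · rcases hadd μ hμ with rfl | ⟨j, b, rfl⟩
      · rw [if_pos rfl, Finset.sum_eq_zero, add_zero]
        intro jb _
        rw [if_neg (hne0 _ _)]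
      · rw [if_neg (hne0 j b).symm, zero_add, Finset.sum_eq_single (j, b), if_pos rfl]
        · rintro ⟨j', b'⟩ _ hne
          rw [if_neg]
          intro h0
          rcases (Finsupp.single_eq_single_iff _ _ _ _).1 h0 with ⟨h8, h9⟩ | ⟨h8, -⟩
          · exact hne (Prod.ext h8 (Nat.pow_right_injective hp h9))
          · exact absurd h8 (by positivity)
        · intro hn
          exact absurd (by simpa using hlt j b hμ) hn
  have hΛ0 : ∀ j, constantCoeff (Λ j) = 0 := by
    intro j
    by_contra h0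
    obtain ⟨b, hb⟩ := hΛ j 0 (by rwa [coeff_zero_eq_constantCoeff_apply])
    exact absurd hb.symm (by positivity)
  have hsum : C (MvPolynomial.coeff 0 P) + ∑ j, ∑ b ∈ Finset.range P.totalDegree,
      MvPolynomial.coeff (Finsupp.single j (p ^ b)) P • Λ j ^ p ^ b = 0 := by
    rw [← hP]
    conv_rhs => rw [hform]
    rw [map_add, map_sum, MvPolynomial.aeval_C, Finset.sum_product]
    congr 1
    refine Finset.sum_congr rfl fun j _ => Finset.sum_congr rfl fun b _ => ?_
    rw [MvPolynomial.aeval_monomial,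
      Finsupp.prod_single_index (h := fun i n => Λ i ^ n) (pow_zero _), Algebra.smul_def]
  have hc0 : MvPolynomial.coeff 0 P = 0 := by
    have h7 := congrArg constantCoeff hsum
    rw [map_add, constantCoeff_C, map_zero, map_sum, Finset.sum_eq_zero, add_zero] at h7
    · exact h7
    · intro j _
      rw [map_sum]
      refine Finset.sum_eq_zero fun b _ => ?_
      rw [Algebra.smul_def, map_mul, map_pow, hΛ0, zero_pow (by positivity), mul_zero]
  rw [hc0, map_zero, zero_add] at hsum
  have h7 := h _ _ hsum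
  have h8 : MvPolynomial.coeff μ₀ P ≠ 0 := by rw [h1]; exact one_ne_zero
  rcases hadd μ₀ h8 with h9 | ⟨j, b, rfl⟩
  · exact hμ₀ h9
  · exact h8 (h7 j b (hlt j b h8))

lemma c_pow {k : Type*} [Field k] (p f : ℕ) [Fact p.Prime] [CharP k p] (t x : k) (c : ℕ → k)
    (hc : ∀ K, c K ^ p ^ f = c (K + 1) * (x ^ (p ^ f) ^ (K + 1) - t)) (i : ℕ) : ∀ K,
    c K ^ (p ^ f) ^ i =
      c (K + i) * ∏ l ∈ Finset.range i, (x ^ (p ^ f) ^ (K + i) - t ^ (p ^ f) ^ l) := by
  induction i with
  | zero => intro K; simp
  | succ i ih =>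
    intro K
    have hsub : ∀ u v : k, (u - v) ^ (p ^ f) ^ i = u ^ (p ^ f) ^ i - v ^ (p ^ f) ^ i := by
      intro u v
      rw [← pow_mul, sub_pow_char_pow]
    rw [pow_succ', pow_mul, hc, mul_pow, ih, Finset.prod_range_succ, hsub, ← pow_mul x,
      ← pow_add, mul_assoc, show K + 1 + i = K + (i + 1) by ring]

/-- the tails of the Carlitz exponential series are algebraically independent -/
theorem expser_indep {F k ι : Type*} [Field F] [Fintype F] [Field k] [Algebra F k] [Fintype ι]
    (t x : k) (b : ι → k) (c : ℕ → k) (hc0 : ∀ K, c K ≠ 0)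
    (hc : ∀ K, c K ^ Fintype.card F = c (K + 1) * (x ^ Fintype.card F ^ (K + 1) - t))
    (hb : LinearIndependent F fun ja : ι × ℕ => b ja.1 * x ^ ja.2)
    (G : ι → k⟦X⟧)
    (hG : ∀ j K, coeff (Fintype.card F ^ K) (G j) = c K * b j ^ Fintype.card F ^ K)
    (hG0 : ∀ j n, (∀ K, n ≠ Fintype.card F ^ K) → coeff n (G j) = 0) :
    AlgebraicIndependent k fun o : Option ι => o.elim (X : k⟦X⟧) G := by
  classical
  obtain ⟨p, hp⟩ := CharP.exists F
  obtain ⟨⟨f, hf⟩, hpp, hq⟩ := FiniteField.card F p
  have : Fact p.Prime := ⟨hpp⟩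
  have : CharP k p := charP_of_injective_algebraMap (algebraMap F k).injective p
  have hp1 : 1 < p := hpp.one_lt
  change Fintype.card F = p ^ f at hq
  refine artin p _ ?_ ?_
  · rintro (_ | j) n hn
    · refine ⟨0, ?_⟩
      by_contra h1
      exact hn (by simpa [coeff_X] using h1)
    · by_contra h1
      refine hn (hG0 j n fun K hK => h1 ⟨f * K, ?_⟩)
      rw [hK, hq, pow_mul]
  intro B e he
  rw [Fintype.sum_option] at he
  simp only [Option.elim_none, Option.elim_some] at he
  have hX : ∀ a, coeff (p ^ a) (∑ s ∈ Finset.range B, e none s • (X : k⟦X⟧) ^ p ^ s) =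
      if a < B then e none a else 0 := by
    intro a
    rw [map_sum]
    simp only [coeff_smul, coeff_X_pow, smul_eq_mul, mul_ite, mul_one, mul_zero,
      (Nat.pow_right_injective hp1).eq_iff]
    rw [Finset.sum_ite_eq]
    simp only [Finset.mem_range]
  have hsome : ∀ j, ∀ s < B, e (some j) s = 0 := by
    intro j₀ s₀ hs₀
    set r := s₀ % f with hr
    have hrf : r < f := Nat.mod_lt _ hf
    set π : ℕ → Polynomial k := fun i => ∏ l ∈ Finset.range i,
      (Polynomial.X - Polynomial.C (t ^ (p ^ f) ^ (l + 1))) with hπ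
    have hπd : ∀ i, (π i).degree = i := by
      intro i
      simp only [hπ]
      rw [Polynomial.degree_prod]
      simp only [Polynomial.degree_X_sub_C]
      simp
    have hli : LinearIndependent k π := (Polynomial.Sequence.mk π hπd).linearIndependent
    have hli2 : LinearIndepOn k (fun s => π (s / f)) {s | s % f = r} :=
      hli.comp (fun s : {s | s % f = r} => (s : ℕ) / f) (by
        rintro ⟨s, hs⟩ ⟨s', hs'⟩ hss
        apply Subtype.ext
        change s % f = r at hs
        change s' % f = r at hs'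
        change s / f = s' / f at hss
        change s = s'
        rw [← Nat.div_add_mod s f, ← Nat.div_add_mod s' f, hs, hs', hss])
    have hR := moore_poly x b hb (fun j => ∑ s ∈ (Finset.range B).filter (· % f = r),
      e (some j) s ^ p ^ (f - r) • π (s / f)) (B + 1) (by
        intro K hK
        obtain ⟨K, rfl⟩ : ∃ K', K = K' + 1 := ⟨K - 1, by omega⟩
        have hfK : K ≤ f * K := Nat.le_mul_of_pos_left K hf
        have h1 := congrArg (coeff (p ^ (r + f * K))) he
        rw [map_add, hX, if_neg (by omega), zero_add, map_zero, map_sum] at h1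
        have h2 := congrArg (· ^ p ^ (f - r)) h1
        simp only [sum_pow_char_pow] at h2
        rw [zero_pow (by positivity)] at h2
        have h3 : c K ^ p ^ f ≠ 0 := pow_ne_zero _ (hc0 K)
        refine (mul_eq_zero.1 ?_).resolve_left h3
        rw [← h2, Finset.mul_sum]
        refine Finset.sum_congr rfl fun j _ => ?_
        rw [map_sum, sum_pow_char_pow, Polynomial.eval_finsetSum, Finset.sum_filter,
          Finset.sum_mul, Finset.mul_sum]
        refine Finset.sum_congr rfl fun s hs => ?_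
        have hsB := Finset.mem_range.1 hs
        have hsle : s ≤ r + f * K := by omega
        rw [coeff_smul, coeff_pow_char_pow, if_pos (pow_dvd_pow p hsle),
          Nat.pow_div hsle hpp.pos, smul_eq_mul]
        split_ifs with hsr
        · obtain ⟨i, rfl⟩ : ∃ i, s = r + f * i := ⟨s / f, by
            rw [← hsr, Nat.mod_add_div]⟩
          have hi : i ≤ f * i := Nat.le_mul_of_pos_left i hf
          obtain ⟨K, rfl⟩ : ∃ K', K = K' + i := ⟨K - i, by omega⟩
          have h4 : (r + f * i) / f = i := by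
            rw [Nat.add_mul_div_left _ _ hf, Nat.div_eq_of_lt hrf, zero_add]
          have h5 : p ^ (r + f * (K + i) - (r + f * i)) = Fintype.card F ^ K := by
            rw [hq, ← pow_mul]
            congr 1
            rw [mul_add]
            omega
          have h6 : p ^ (r + f * i) * p ^ (f - r) = (p ^ f) ^ i * p ^ f := by
            rw [← pow_mul, ← pow_add, ← pow_add]
            congr 1
            omega
          have h7 := c_pow p f t x c (by simpa only [hq] using hc) i K
          rw [h4, h5, hG, mul_pow, ← pow_mul, h6, pow_mul, mul_pow, h7, hq, ← pow_mul (b j),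
            ← pow_add, mul_pow, mul_pow, ← pow_mul (b j), ← pow_succ, ← Finset.prod_pow,
            Polynomial.eval_smul, smul_eq_mul, Polynomial.eval_prod]
          simp only [sub_pow_char_pow, ← pow_mul x, ← pow_mul t, ← pow_succ,
            Polynomial.eval_sub, Polynomial.eval_X, Polynomial.eval_C]
          ring
        · rw [hG0, zero_pow (by positivity), mul_zero, zero_pow (by positivity), zero_mul,
            mul_zero]
          intro K' hK'
          rw [hq, ← pow_mul] at hK'
          have h4 := Nat.pow_right_injective hp1 hK'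
          apply hsr
          have h5 : s + f * K' = r + f * K := by omega
          have h6 := congrArg (· % f) h5
          simpa only [Nat.add_mul_mod_self_left, Nat.mod_eq_of_lt hrf] using h6) j₀
    have h1 := linearIndepOn_iff'.1 hli2 _ _ (fun s hs => (Finset.mem_filter.1 hs).2) hR s₀
      (Finset.mem_filter.2 ⟨Finset.mem_range.2 hs₀, rfl⟩)
    exact pow_eq_zero_iff (by positivity) |>.1 h1
  rintro (_ | j) s hs
  · rw [Finset.sum_eq_zero (s := Finset.univ), add_zero] at he
    · have h1 := hX s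
      rw [he, map_zero, if_pos hs] at h1
      exact h1.symm
    · intro j _
      refine Finset.sum_eq_zero fun s hs => ?_
      rw [hsome j s (Finset.mem_range.1 hs), zero_smul]
  · exact hsome j s hs

end Pool.Agent.MP_ee2255_nt.S
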