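import Mathlib

namespace Pool.Agent.MP_ee2255_nt

variable (F : Type*) [Fintype F] {E : Type*} [Field E]

/-- The Carlitz factorial `D_i = ∏_{j < i} (θ^(q^i) - θ^(q^j))`, where `q = #F`. -/
noncomputable def facD (θ : LaurentSeries E) (i : ℕ) : LaurentSeries E :=
  ∏ j ∈ Finset.range i, (θ ^ Fintype.card F ^ i - θ ^ Fintype.card F ^ j)

/-- The Carlitz exponential `exp_C(x) = ∑_i x^(q^i) / D_i`, summed in the `X`-adic topology. -/
noncomputable def expC (θ x : LaurentSeries E) : LaurentSeries E :=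
  ∑' i : ℕ, x ^ Fintype.card F ^ i / facD F θ i

end Pool.Agent.MP_ee2255_nt
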