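import Pool.Agent.MP_ee2255_nt.SDefs
import Pool.Agent.MP_ee2255_nt.Exp

/-! The Carlitz exponential for a general parameter `θ`. -/

namespace Pool.Agent.MP_ee2255_nt.S

open WithZero Filter Topology

variable {F E : Type*} [Field F] [Fintype F] [Field E] [Algebra F E]
  {θ x : LaurentSeries E} {a e : ℤ}

variable (F E) in
/-- the map `x ↦ x ^ q ^ j` -/
noncomputable def fr (j : ℕ) : LaurentSeries E →ₐ[F] LaurentSeries E :=
  FiniteField.frobeniusAlgHom F (LaurentSeries E) ^ j

lemma fr_apply (j : ℕ) (x : LaurentSeries E) : fr F E j x = x ^ Fintype.card F ^ j := by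
  rw [fr, AlgHom.coe_pow, FiniteField.coe_frobeniusAlgHom, pow_iterate]

/-- `θ` has a pole of order `e` -/
structure Pole (θ : LaurentSeries E) (e : ℤ) : Prop where
  pos : 1 ≤ e
  val : Valued.v θ = exp e

lemma exists_pole (hθ : θ.order < 0) : ∃ e, Pole θ e := by
  have h0 : θ ≠ 0 := by
    rintro rfl
    simp at hθ
  obtain ⟨e, he⟩ := exists_v h0
  refine ⟨e, ?_, he⟩
  by_contra h
  have h1 : O θ 0 := O.mono he.le (by omega)
  exact HahnSeries.coeff_order_eq_zero.not.2 h0 (O_iff.1 h1 _ (by omega))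

omit [Field F] [Algebra F E] in
lemma O.qpow' (h : O x a) (j : ℕ) :
    O (x ^ Fintype.card F ^ j) ((Fintype.card F : ℤ) ^ j * a) := by
  simpa using h.pow (Fintype.card F ^ j)

namespace Pole

variable (hθ : Pole θ e)
include hθ

lemma ne : θ ≠ 0 := by
  intro h
  have := hθ.val
  rw [h, map_zero] at this
  exact exp_ne_zero this.symm

lemma v_pow (n : ℕ) : Valued.v (θ ^ n) = exp (n * e) := by
  rw [map_pow, hθ.val, ← exp_nsmul]
  simp

lemma v_sub {i j : ℕ} (h : j < i) : Valued.v (θ ^ i - θ ^ j) = exp (i * e) := by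
  rw [sub_eq_add_neg]
  refine v_add_of_O (hθ.v_pow i) (O.mono (O.neg (hθ.v_pow j).le) ?_)
  have h1 : (j : ℤ) + 1 ≤ i := by exact_mod_cast h
  have := hθ.pos
  nlinarith

omit [Algebra F E] in
lemma v_D (i : ℕ) :
    Valued.v (facD F θ i) = exp ((i : ℤ) * (Fintype.card F : ℤ) ^ i * e) := by
  rw [facD, map_prod, Finset.prod_congr rfl fun j hj => hθ.v_sub
    (Nat.pow_lt_pow_right two_le_q (Finset.mem_range.1 hj)), Finset.prod_const, ← exp_nsmul]
  simp [mul_assoc]

omit [Algebra F E] in
lemma D_ne (i : ℕ) : facD F θ i ≠ 0 := by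
  intro h
  have := hθ.v_D (F := F) i
  rw [h, map_zero] at this
  exact exp_ne_zero this.symm

end Pole

omit [Field F] [Algebra F E] in
lemma D_zero : facD F θ 0 = 1 := by simp [facD]

lemma D_succ (i : ℕ) : facD F θ (i + 1) =
    (θ ^ Fintype.card F ^ (i + 1) - θ) * facD F θ i ^ Fintype.card F := by
  have h := fr_apply (F := F) 1 (facD F θ i)
  rw [pow_one] at h
  rw [← h, facD, facD, Finset.prod_range_succ', map_prod, mul_comm, pow_zero, pow_one]
  congr 1
  refine Finset.prod_congr rfl fun j _ => ?_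
  rw [map_sub, fr_apply, fr_apply, ← pow_mul, ← pow_mul, pow_one, ← pow_succ, ← pow_succ]

variable (F) in
/-- the coefficients of the Anderson generating function -/
noncomputable def gam (θ u : LaurentSeries E) (k : ℕ) : LaurentSeries E := expC F θ (u / θ ^ k)

variable (F) in
/-- numerators of the truncated logarithm -/
noncomputable def aa (θ α : LaurentSeries E) : ℕ → LaurentSeries E
  | 0 => α
  | j + 1 => α ^ Fintype.card F ^ (j + 1) + (θ - θ ^ Fintype.card F ^ (j + 1)) * aa θ α j

variable (F) in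
/-- denominators of the logarithm -/
noncomputable def ll (θ : LaurentSeries E) : ℕ → LaurentSeries E
  | 0 => 1
  | j + 1 => (θ - θ ^ Fintype.card F ^ (j + 1)) * ll θ j

variable (F) in
/-- the truncated Anderson generating function, twisted `j` times and evaluated at `θ` -/
noncomputable def phi (θ u : LaurentSeries E) (J j : ℕ) : LaurentSeries E :=
  ∑ k ∈ Finset.range J, gam F θ u (k + 1) ^ Fintype.card F ^ j * θ ^ k

namespace Pole

variable (hθ : Pole θ e)
include hθ

omit [Algebra F E] in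
lemma O_term (h : O x a) (i : ℕ) :
    O (x ^ Fintype.card F ^ i / facD F θ i) ((Fintype.card F : ℤ) ^ i * (a - i * e)) := by
  convert (O.qpow' (F := F) h i).div (hθ.v_D (F := F) i) using 1
  ring

omit [Algebra F E] in
lemma hasSum_exp (x : LaurentSeries E) :
    HasSum (fun i => x ^ Fintype.card F ^ i / facD F θ i) (expC F θ x) := by
  obtain ⟨a, ha⟩ := exists_O x
  refine (summable_of_O fun b => ?_).hasSum
  filter_upwards [eventually_ge_atTop (a + b.natAbs)] with i hi
  refine (hθ.O_term ha i).mono ?_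
  have h1 := one_le_qpow (F := F) i
  have h0 : (i : ℤ) ≤ i * e := le_mul_of_one_le_right (by positivity) hθ.pos
  have h2 : (a : ℤ) - i * e ≤ 0 := by omega
  have h3 : (a : ℤ) - i * e ≤ b := by omega
  nlinarith

lemma exp_add (x y : LaurentSeries E) : expC F θ (x + y) = expC F θ x + expC F θ y := by
  refine (hθ.hasSum_exp (x + y)).unique
    (((hθ.hasSum_exp x).add (hθ.hasSum_exp y)).congr_fun fun i => ?_)
  rw [← fr_apply, map_add, fr_apply, fr_apply, add_div]

lemma exp_smul (c : F) (x : LaurentSeries E) :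
    expC F θ (algebraMap F _ c * x) = algebraMap F _ c * expC F θ x := by
  refine (hθ.hasSum_exp _).unique (((hθ.hasSum_exp x).mul_left _).congr_fun fun i => ?_)
  rw [← fr_apply, map_mul, AlgHom.commutes, fr_apply, mul_div_assoc]

lemma exp_zero : expC F θ 0 = 0 := by
  simpa using hθ.exp_smul (0 : F) 0

lemma exp_sum {ι : Type*} (s : Finset ι) (f : ι → LaurentSeries E) :
    expC F θ (∑ i ∈ s, f i) = ∑ i ∈ s, expC F θ (f i) :=
  map_sum ({ toFun := expC F θ, map_zero' := hθ.exp_zero, map_add' := hθ.exp_add } :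
    LaurentSeries E →+ LaurentSeries E) f s

lemma exp_theta_mul (x : LaurentSeries E) :
    expC F θ (θ * x) = θ * expC F θ x + expC F θ x ^ Fintype.card F := by
  have h1 := (hasSum_nat_add_iff' 1).2
    ((hθ.hasSum_exp (F := F) (θ * x)).sub ((hθ.hasSum_exp (F := F) x).mul_left θ))
  have h2 := (hθ.hasSum_exp (F := F) x).map (fr F E 1).toRingHom.toAddMonoidHom (by
    have : ⇑(fr F E 1).toRingHom.toAddMonoidHom = fun y => y ^ Fintype.card F ^ 1 :=
      funext (fr_apply 1)
    rw [this]
    exact continuous_pow _)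
  have h3 := h1.unique (h2.congr_fun fun i => ?_)
  · have h4 : (fr F E 1).toRingHom.toAddMonoidHom (expC F θ x) =
      expC F θ x ^ Fintype.card F ^ 1 := fr_apply 1 _
    rw [h4] at h3
    simp only [Finset.range_one, Finset.sum_singleton, pow_zero, pow_one, D_zero, div_one,
      sub_self, sub_zero] at h3
    linear_combination h3
  · have h4 : ((fr F E 1).toRingHom.toAddMonoidHom ∘ fun i => x ^ Fintype.card F ^ i /
      facD F θ i) i = (x ^ Fintype.card F ^ i / facD F θ i) ^ Fintype.card F ^ 1 :=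
      fr_apply 1 _
    have h5 := hθ.D_ne (F := F) (i + 1)
    rw [D_succ] at h5
    have h6 := left_ne_zero_of_mul h5
    have h7 := right_ne_zero_of_mul h5
    rw [h4, D_succ, pow_one, div_pow, ← pow_mul, ← pow_succ, mul_pow]
    field_simp

omit [Algebra F E] in
lemma O_tail (h : O x a) (n : ℕ) (hn : a ≤ n * e) :
    O (expC F θ x - ∑ i ∈ Finset.range n, x ^ Fintype.card F ^ i / facD F θ i)
      ((Fintype.card F : ℤ) ^ n * (a - n * e)) := by
  refine O_of_hasSum ((hasSum_nat_add_iff' n).2 (hθ.hasSum_exp x)) fun i =>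
    (hθ.O_term h _).mono ?_
  have h1 := qpow_mono (F := F) (Nat.le_add_left n i)
  have h2 := one_le_qpow (F := F) n
  have h3 : 0 ≤ (i : ℤ) * e := mul_nonneg (by positivity) (by linarith [hθ.pos])
  push_cast
  nlinarith

lemma gam_rec (u : LaurentSeries E) (k : ℕ) :
    gam F θ u k = θ * gam F θ u (k + 1) + gam F θ u (k + 1) ^ Fintype.card F := by
  rw [gam, gam, ← hθ.exp_theta_mul]
  congr 1
  have := hθ.ne
  field_simp
  ring

omit [Algebra F E] in
lemma exists_O_gam (u : LaurentSeries E) : ∃ c : ℕ, ∀ k, O (gam F θ u k) (c - k * e) := by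
  obtain ⟨a, ha⟩ := exists_O u
  have h1 : ∀ k, ∃ b : ℕ, O (gam F θ u k * θ ^ k) b := fun k => exists_O _
  choose b hb using h1
  refine ⟨a + ∑ k ∈ Finset.range a, b k, fun k => ?_⟩
  rcases lt_or_ge k a with hk | hk
  · refine ((hb k).of_mul (hθ.v_pow k)).mono ?_
    have := Finset.single_le_sum (f := b) (fun _ _ => Nat.zero_le _) (Finset.mem_range.2 hk)
    omega
  · have h0 : (k : ℤ) ≤ k * e := le_mul_of_one_le_right (by positivity) hθ.pos
    have h := hθ.O_tail (F := F) (ha.div (hθ.v_pow k)) 0 (by omega)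
    simp only [Finset.range_zero, Finset.sum_empty, sub_zero, pow_zero, one_mul,
      Nat.cast_zero, zero_mul] at h
    exact h.mono (by omega)

omit [Algebra F E] in
lemma ev_O_gam_sub (u : LaurentSeries E) (b : ℤ) :
    ∀ᶠ J in atTop, O (u - gam F θ u J * θ ^ J) b := by
  obtain ⟨a, ha⟩ := exists_O u
  filter_upwards [eventually_ge_atTop (2 * a + b.natAbs)] with J hJ
  have h0 : (J : ℤ) ≤ J * e := le_mul_of_one_le_right (by positivity) hθ.pos
  have h := hθ.O_tail (F := F) (ha.div (hθ.v_pow J)) 1 (by have := hθ.pos; omega)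
  simp only [Finset.range_one, Finset.sum_singleton, pow_zero, pow_one, D_zero, div_one] at h
  have h1 : u - gam F θ u J * θ ^ J = -((gam F θ u J - u / θ ^ J) * θ ^ J) := by
    have := hθ.ne
    field_simp
    ring
  rw [h1]
  refine (O.mul h (hθ.v_pow J).le).neg.mono ?_
  have h2 := two_le_qz (F := F)
  have h5 := hθ.pos
  have h3 : (a : ℤ) - J * e - e ≤ 0 := by omega
  have h4 : 2 * ((a : ℤ) - J * e - e) + J * e ≤ b := by omega
  push_cast
  nlinarith

omit [Algebra F E] in
lemma eq_zero_of_gam {u : LaurentSeries E} (h : ∀ᶠ J in atTop, gam F θ u J = 0) : u = 0 := by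
  refine eq_zero_of_O fun b => ?_
  obtain ⟨J, h1, h2⟩ := (h.and (hθ.ev_O_gam_sub (F := F) u b)).exists
  simpa [h1] using h2

lemma phi_succ (u : LaurentSeries E) (J j : ℕ) :
    phi F θ u J (j + 1) = expC F θ u ^ Fintype.card F ^ j +
      (θ - θ ^ Fintype.card F ^ j) * phi F θ u J j -
        gam F θ u J ^ Fintype.card F ^ j * θ ^ J := by
  induction J with
  | zero => simp [phi, gam]
  | succ J ih =>
    have h := congrArg (fr F E j) (hθ.gam_rec (F := F) u J)
    rw [map_add, map_mul, fr_apply, fr_apply, fr_apply, fr_apply, ← pow_mul,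
      ← pow_succ'] at h
    unfold phi at ih ⊢
    rw [Finset.sum_range_succ, Finset.sum_range_succ, ih, h]
    ring

omit [Algebra F E] in
lemma v_fac (j : ℕ) : Valued.v (θ - θ ^ Fintype.card F ^ (j + 1)) =
    exp ((Fintype.card F : ℤ) ^ (j + 1) * e) := by
  have h := hθ.v_sub (Nat.one_lt_pow (Nat.succ_ne_zero j) (two_le_q (F := F)))
  rw [pow_one] at h
  rw [Valuation.map_sub_swap, h]
  simp

omit [Algebra F E] in
lemma ll_ne (m : ℕ) : ll F θ m ≠ 0 := by
  induction m with
  | zero => exact one_ne_zero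
  | succ m ih =>
    refine mul_ne_zero (fun h => ?_) ih
    have := hθ.v_fac (F := F) m
    rw [h, map_zero] at this
    exact exp_ne_zero this.symm

lemma ev_O_phi (u : LaurentSeries E) (m : ℕ) (b : ℤ) :
    ∀ᶠ J in atTop, O (phi F θ u J (m + 1) - (aa F θ (expC F θ u) m - ll F θ m * u)) b := by
  induction m generalizing b with
  | zero =>
    filter_upwards [hθ.ev_O_gam_sub (F := F) u b] with J hJ
    convert hJ using 1
    rw [hθ.phi_succ, aa, ll]
    simp only [pow_zero, pow_one]
    ring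
  | succ m ih =>
    obtain ⟨c, hc⟩ := hθ.exists_O_gam (F := F) u
    filter_upwards [ih (b - (Fintype.card F : ℤ) ^ (m + 1) * e),
      eventually_ge_atTop (2 * c + b.natAbs)] with J hJ hJ'
    have h1 : phi F θ u J (m + 1 + 1) - (aa F θ (expC F θ u) (m + 1) - ll F θ (m + 1) * u) =
        (θ - θ ^ Fintype.card F ^ (m + 1)) *
          (phi F θ u J (m + 1) - (aa F θ (expC F θ u) m - ll F θ m * u)) -
          gam F θ u J ^ Fintype.card F ^ (m + 1) * θ ^ J := by
      rw [hθ.phi_succ, aa, ll]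
      ring
    rw [h1]
    refine ((O.mul (hθ.v_fac m).le hJ).mono (by omega)).sub
      ((O.mul (O.qpow' (F := F) (hc J) _) (hθ.v_pow J).le).mono ?_)
    have h2 := two_le_qz (F := F)
    have h3 := qpow_mono (F := F) (Nat.le_add_left 1 m)
    rw [pow_one] at h3
    have h0 : (J : ℤ) ≤ J * e := le_mul_of_one_le_right (by positivity) hθ.pos
    have h4 : (c : ℤ) - J * e ≤ 0 := by omega
    have h5 : 2 * ((c : ℤ) - J * e) + J * e ≤ b := by omega
    nlinarith

/-- uniform truncation bound -/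
lemma O_psi_sub {u : LaurentSeries E} {c : ℕ} (hc : ∀ k, O (gam F θ u k) (c - k * e))
    (m J : ℕ) : O (aa F θ (expC F θ u) m - ll F θ m * u - phi F θ u J (m + 1))
      ((Fintype.card F : ℤ) ^ (m + 1) * (c - J) + J) := by
  obtain ⟨J', h1, h2⟩ := ((hθ.ev_O_phi (F := F) u m
    ((Fintype.card F : ℤ) ^ (m + 1) * (c - J) + J)).and (eventually_ge_atTop J)).exists
  have h3 : aa F θ (expC F θ u) m - ll F θ m * u - phi F θ u J (m + 1) =
      ∑ k ∈ Finset.Ico J J', gam F θ u (k + 1) ^ Fintype.card F ^ (m + 1) * θ ^ k -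
        (phi F θ u J' (m + 1) - (aa F θ (expC F θ u) m - ll F θ m * u)) := by
    rw [Finset.sum_Ico_eq_sub _ h2, phi, phi]
    ring
  rw [h3]
  refine O.sub (O_sum fun k hk => ?_) h1
  refine (O.mul (O.qpow' (F := F) (hc (k + 1)) _) (hθ.v_pow k).le).mono ?_
  have h4 : (J : ℤ) ≤ k := by exact_mod_cast (Finset.mem_Ico.1 hk).1
  have h5 := one_le_qpow (F := F) (m + 1)
  have h6 := hθ.pos
  have h0 : (k : ℤ) ≤ k * e := le_mul_of_one_le_right (by positivity) hθ.pos
  push_cast
  nlinarith

end Pole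

end Pool.Agent.MP_ee2255_nt.S
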