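import Mathlib

/-! Liouville's inequality in a valued function field. -/

namespace Pool.Agent.MP_ee2255_nt.S

open WithZero

variable {E L : Type*} [Field E] [Field L] [Algebra E L]

variable (E) in
/-- polynomials of degree at most `D` in the elements of `Γ` -/
noncomputable def BB (Γ : Set L) (D : ℕ) : Submodule E L := Submodule.span E (insert 1 Γ) ^ D

lemma liou_const (v : Valuation L (WithZero (Multiplicative ℤ)))
    (hE : ∀ c : E, v (algebraMap E L c) ≤ 1) {c : E} (hc : c ≠ 0) : v (algebraMap E L c) = 1 := by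
  refine le_antisymm (hE c) ?_
  have h : v (algebraMap E L c⁻¹) * v (algebraMap E L c) = 1 := by
    rw [← map_mul, ← map_mul, inv_mul_cancel₀ hc, map_one, map_one]
  calc (1 : WithZero (Multiplicative ℤ)) = _ := h.symm
    _ ≤ 1 * v (algebraMap E L c) := mul_le_mul_left (hE _) _
    _ = _ := one_mul _

lemma liou_poly (v : Valuation L (WithZero (Multiplicative ℤ)))
    (hE : ∀ c : E, v (algebraMap E L c) ≤ 1) {θ : L} (hθ : 1 < v θ) (p : Polynomial E)
    (hp : p ≠ 0) : 1 ≤ v (Polynomial.aeval θ p) := by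
  induction h : p.natDegree using Nat.strong_induction_on generalizing p with
  | _ n ih =>
    have e := Polynomial.divX_mul_X_add p
    by_cases h0 : p.divX = 0
    · rw [h0, zero_mul, zero_add] at e
      have hc : p.coeff 0 ≠ 0 := fun hc => hp (by rw [← e, hc, map_zero])
      rw [← e, Polynomial.aeval_C, liou_const v hE hc]
    · have hlt : p.divX.natDegree < n := by
        rw [← h]
        exact Polynomial.natDegree_lt_natDegree h0 (Polynomial.degree_divX_lt hp)
      have h1 := ih _ hlt p.divX h0 rfl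
      have h2 : 1 < v (Polynomial.aeval θ p.divX * θ) := by
        rw [map_mul]
        calc (1 : WithZero (Multiplicative ℤ)) < v θ := hθ
          _ = 1 * v θ := (one_mul _).symm
          _ ≤ _ := mul_le_mul_left h1 _
      rw [← e, map_add, map_mul, Polynomial.aeval_X, Polynomial.aeval_C,
        v.map_add_eq_of_lt_left (lt_of_le_of_lt (hE _) h2)]
      exact h2.le

lemma liou_det {K : Type*} [Field K] {ι : Type*} [Fintype ι] [DecidableEq ι]
    (w : Valuation K (WithZero (Multiplicative ℤ))) (N : Matrix ι ι K)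
    {r : WithZero (Multiplicative ℤ)} (h : ∀ i j, w (N i j) ≤ r) :
    w N.det ≤ r ^ Fintype.card ι := by
  rw [Matrix.det_apply']
  refine w.map_sum_le fun σ _ => ?_
  have hs : w ((Equiv.Perm.sign σ : ℤ) : K) = 1 := by
    rcases Int.units_eq_one_or (Equiv.Perm.sign σ) with h | h <;> simp [h]
  rw [map_mul, hs, one_mul, map_prod]
  exact Finset.prod_le_pow_card _ _ _ fun i _ => h _ _

lemma liou_det_mem {K : Type*} [Field K] {ι : Type*} [Fintype ι] [DecidableEq ι]
    (A : Subring K) (N : Matrix ι ι K) (h : ∀ i j, N i j ∈ A) : N.det ∈ A := by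
  rw [Matrix.det_apply']
  exact A.sum_mem fun σ _ => A.mul_mem (intCast_mem A _) (A.prod_mem fun i _ => h _ _)

lemma liou_eig {K M : Type*} [Field K] [Field M] [Algebra K M] {ι : Type*} [Fintype ι]
    [DecidableEq ι] (b : Module.Basis ι K M) (u : Valuation M (WithZero (Multiplicative ℤ)))
    (y : M) {r : WithZero (Multiplicative ℤ)}
    (h : ∀ i j, u (algebraMap K M (Algebra.leftMulMatrix b y i j)) ≤ r) : u y ≤ r := by
  have : Nonempty ι := b.index_nonempty
  obtain ⟨j, -, hj⟩ := Finset.exists_max_image Finset.univ (fun i => u (b i)) Finset.univ_nonempty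
  have h0 : 0 < u (b j) := zero_lt_iff.mpr (u.ne_zero_iff.mpr (b.ne_zero j))
  have e : y * b j = ∑ i, algebraMap K M (Algebra.leftMulMatrix b y i j) * b i := by
    conv_lhs => rw [← b.sum_repr (y * b j)]
    simp only [Algebra.leftMulMatrix_eq_repr_mul, Algebra.smul_def]
  have : u y * u (b j) ≤ r * u (b j) := by
    rw [← map_mul, e]
    refine u.map_sum_le fun i _ => ?_
    rw [map_mul]
    exact mul_le_mul' (h i j) (hj i (Finset.mem_univ _))
  exact le_of_mul_le_mul_right this h0

lemma liou_core {K M : Type*} [Field K] [Field M] [Algebra K M] {ι : Type*} [Fintype ι]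
    [DecidableEq ι] (b : Module.Basis ι K M) (u : Valuation M (WithZero (Multiplicative ℤ)))
    (A : Subring K) (hA : ∀ a ∈ A, a ≠ 0 → 1 ≤ u (algebraMap K M a)) (z : M) (hz : z ≠ 0)
    {r : WithZero (Multiplicative ℤ)} (hr : 1 ≤ r)
    (h : ∀ i j, Algebra.leftMulMatrix b z i j ∈ A ∧
      u (algebraMap K M (Algebra.leftMulMatrix b z i j)) ≤ r) :
    1 ≤ u z * r ^ Fintype.card ι := by
  set N := Algebra.leftMulMatrix b z with hN
  have hinv : Algebra.leftMulMatrix b z⁻¹ * N = 1 := by
    rw [hN, ← map_mul, inv_mul_cancel₀ hz, map_one]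
  have hdet : N.det ≠ 0 := by
    intro h0
    have := congrArg Matrix.det hinv
    rw [Matrix.det_mul, h0, mul_zero, Matrix.det_one] at this
    exact zero_ne_one this
  have hadj : Algebra.leftMulMatrix b (N.det • z⁻¹) = N.adjugate := by
    rw [map_smul]
    calc N.det • Algebra.leftMulMatrix b z⁻¹
        = Algebra.leftMulMatrix b z⁻¹ * (N * N.adjugate) := by
          rw [Matrix.mul_adjugate, Matrix.mul_smul, mul_one]
      _ = N.adjugate := by rw [← mul_assoc, hinv, one_mul]
  have h1 : u (N.det • z⁻¹) ≤ r ^ Fintype.card ι := by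
    refine liou_eig b u _ fun i j => ?_
    rw [hadj, Matrix.adjugate_apply]
    refine liou_det (u.comap (algebraMap K M)) _ fun k l => ?_
    rw [Matrix.updateRow_apply]
    split_ifs
    · rw [Pi.single_apply]
      split_ifs
      · rw [map_one]; exact hr
      · rw [map_zero]; exact zero_le
    · exact (h k l).2
  have h2 := hA _ (liou_det_mem A N fun i j => (h i j).1) hdet
  have e : algebraMap K M N.det = z * (N.det • z⁻¹) := by
    rw [Algebra.smul_def, mul_left_comm, mul_inv_cancel₀ hz, mul_one]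
  rw [e, map_mul] at h2
  exact h2.trans (mul_le_mul_right h1 _)

lemma liou_bound {ι : Type*} [Finite ι] (f : ι → WithZero (Multiplicative ℤ)) :
    ∃ c : ℕ, ∀ i, f i ≤ exp (c : ℤ) := by
  have h : ∀ i, ∃ c : ℕ, f i ≤ exp (c : ℤ) := by
    intro i
    by_cases h0 : f i = 0
    · exact ⟨0, by rw [h0]; exact zero_le⟩
    · refine ⟨(log (f i)).toNat, ?_⟩
      conv_lhs => rw [← exp_log h0]
      exact exp_le_exp.mpr (Int.self_le_toNat _)
  choose c hc using h
  obtain ⟨C, hC⟩ := (Set.finite_range c).bddAbove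
  exact ⟨C, fun i => (hc i).trans (exp_le_exp.mpr (by exact_mod_cast hC ⟨i, rfl⟩))⟩

theorem liouville (v : Valuation L (WithZero (Multiplicative ℤ)))
    (hE : ∀ c : E, v (algebraMap E L c) ≤ 1) {θ : L} (hθ : 1 < v θ) {Γ : Set L}
    (hΓ : Γ.Finite) (ha : ∀ γ ∈ Γ, IsAlgebraic (IntermediateField.adjoin E {θ}) γ) :
    ∃ c : ℕ, ∀ D : ℕ, ∀ x ∈ BB E Γ D, x ≠ 0 →
      exp (-(c * D : ℤ)) ≤ v x ∧ v x ≤ exp (c * D : ℤ) := by
  classical
  set K := IntermediateField.adjoin E {θ} with hK
  have : Finite Γ := hΓ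
  let M := IntermediateField.adjoin K Γ
  have : FiniteDimensional K M :=
    IntermediateField.finiteDimensional_adjoin fun x hx => (ha x hx).isIntegral
  have : Module.Free K M := Module.Free.of_divisionRing K M
  let b := Module.finBasis K M
  let φ := Algebra.leftMulMatrix b
  let u : Valuation M (WithZero (Multiplicative ℤ)) := v.comap (algebraMap M L)
  let w : Valuation K (WithZero (Multiplicative ℤ)) := v.comap (algebraMap K L)
  have huw : ∀ a : K, u (algebraMap K M a) = w a := fun a => rfl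
  let A : Subring K := (Polynomial.aeval θ : Polynomial E →ₐ[E] L).range.toSubring.comap
    (algebraMap K L)
  have hA : ∀ a ∈ A, a ≠ 0 → 1 ≤ w a := by
    rintro a ⟨p, hp⟩ h0
    have hp' : Polynomial.aeval θ p = algebraMap K L a := hp
    have : p ≠ 0 := by
      rintro rfl
      rw [map_zero] at hp'
      exact h0 ((map_eq_zero _).mp hp'.symm)
    have h := liou_poly v hE hθ p this
    rwa [hp'] at h
  have hAE : ∀ c : E, algebraMap E K c ∈ A := fun c =>
    ⟨Polynomial.C c, by simp [← IsScalarTower.algebraMap_apply]⟩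
  have hden : ∀ k : K, ∃ d ∈ A, d ≠ 0 ∧ d * k ∈ A := by
    intro k
    obtain ⟨r, s, hk⟩ := (IntermediateField.mem_adjoin_simple_iff E (k : L)).mp k.2
    by_cases hs : Polynomial.aeval θ s = 0
    · have : k = 0 := Subtype.ext (by rw [hk, hs, div_zero]; rfl)
      exact ⟨1, A.one_mem, one_ne_zero, by rw [this, mul_zero]; exact A.zero_mem⟩
    · have hsK : Polynomial.aeval θ s ∈ K := by
        exact (IntermediateField.mem_adjoin_simple_iff E (α := θ) (Polynomial.aeval θ s)).mpr
          ⟨s, 1, by simp⟩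
      refine ⟨⟨_, hsK⟩, ⟨s, rfl⟩, fun h => hs (congrArg Subtype.val h), r, ?_⟩
      show Polynomial.aeval θ r = Polynomial.aeval θ s * (k : L)
      rw [hk, mul_div_cancel₀ _ hs]
  have hfin : Finite (insert 1 Γ : Set L) := hΓ.insert 1
  have hmem : ∀ γ : (insert 1 Γ : Set L), (γ : L) ∈ M := by
    rintro ⟨γ, rfl | h⟩
    · exact M.one_mem
    · exact IntermediateField.subset_adjoin K Γ h
  let ι := Fin (Module.finrank K M)
  let g : (insert 1 Γ : Set L) × ι × ι → K := fun q => φ ⟨q.1, hmem q.1⟩ q.2.1 q.2.2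
  choose d0 hd0A hd0 hd0g using fun q => hden (g q)
  have := Fintype.ofFinite (insert 1 Γ : Set L)
  let d : K := ∏ q, d0 q
  have hdA : d ∈ A := A.prod_mem fun q _ => hd0A q
  have hd : d ≠ 0 := Finset.prod_ne_zero_iff.mpr fun q _ => hd0 q
  have hdg : ∀ q, d * g q ∈ A := by
    intro q
    have e : d * g q = (∏ q' ∈ Finset.univ.erase q, d0 q') * (d0 q * g q) := by
      rw [← mul_assoc, Finset.prod_erase_mul _ _ (Finset.mem_univ q)]
    rw [e]
    exact A.mul_mem (A.prod_mem fun q _ => hd0A q) (hd0g q)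
  obtain ⟨c, hc⟩ := liou_bound (fun q : Option ((insert 1 Γ : Set L) × ι × ι) =>
    q.elim (w d) fun q => w (d * g q))
  have hc1 : w d ≤ exp (c : ℤ) := hc none
  have hc2 : ∀ q, w (d * g q) ≤ exp (c : ℤ) := fun q => hc (some q)
  let N : ℕ → Submodule E L := fun D =>
    { carrier := {x | ∃ y : M, (y : L) = x ∧ ∀ i j, φ (d ^ D • y) i j ∈ A ∧
        w (φ (d ^ D • y) i j) ≤ exp (c : ℤ) ^ D}
      zero_mem' := ⟨0, rfl, fun i j => by simp⟩
      add_mem' := by
        rintro _ _ ⟨y, rfl, hy⟩ ⟨y', rfl, hy'⟩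
        refine ⟨y + y', rfl, fun i j => ?_⟩
        rw [smul_add, map_add, Matrix.add_apply]
        exact ⟨A.add_mem (hy i j).1 (hy' i j).1, w.map_add_le (hy i j).2 (hy' i j).2⟩
      smul_mem' := by
        rintro a _ ⟨y, rfl, hy⟩
        refine ⟨algebraMap E K a • y, ?_, fun i j => ?_⟩
        · rw [IntermediateField.coe_smul, algebraMap_smul]
        · rw [smul_comm, map_smul, Matrix.smul_apply, smul_eq_mul, map_mul]
          refine ⟨A.mul_mem (hAE a) (hy i j).1, ?_⟩
          have h1 : w (algebraMap E K a) ≤ 1 := by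
            show v (algebraMap K L (algebraMap E K a)) ≤ 1
            rw [← IsScalarTower.algebraMap_apply]; exact hE a
          exact (mul_le_mul' h1 (hy i j).2).trans (one_mul _).le }
  have hN1 : Submodule.span E (insert 1 Γ) ≤ N 1 := by
    refine Submodule.span_le.mpr fun γ hγ => ⟨⟨γ, hmem ⟨γ, hγ⟩⟩, rfl, fun i j => ?_⟩
    rw [pow_one, pow_one, map_smul, Matrix.smul_apply, smul_eq_mul]
    exact ⟨hdg (⟨γ, hγ⟩, i, j), hc2 (⟨γ, hγ⟩, i, j)⟩
  have hN : ∀ D, BB E Γ D ≤ N D := by
    intro D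
    induction D with
    | zero =>
      rw [BB, pow_zero, Submodule.one_le]
      refine ⟨1, rfl, fun i j => ?_⟩
      rw [pow_zero, pow_zero, one_smul, map_one, Matrix.one_apply]
      split_ifs
      · exact ⟨A.one_mem, by rw [map_one]⟩
      · exact ⟨A.zero_mem, by rw [map_zero]; exact zero_le⟩
    | succ D ih =>
      rw [BB, pow_succ, Submodule.mul_le]
      intro x hx x' hx'
      obtain ⟨y, rfl, hy⟩ := ih hx
      obtain ⟨y', rfl, hy'⟩ := hN1 hx'
      refine ⟨y * y', rfl, fun i j => ?_⟩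
      have e : d ^ (D + 1) • (y * y') = (d ^ D • y) * (d ^ 1 • y') := by
        rw [smul_mul_smul_comm, ← pow_add]
      rw [e, map_mul, Matrix.mul_apply]
      refine ⟨A.sum_mem fun k _ => A.mul_mem (hy i k).1 (hy' k j).1, w.map_sum_le fun k _ => ?_⟩
      rw [map_mul, pow_add]
      exact mul_le_mul' (hy i k).2 (hy' k j).2
  refine ⟨c * (Fintype.card ι + 1), fun D x hx hx0 => ?_⟩
  obtain ⟨y, rfl, hy⟩ := hN D hx
  have hy0 : y ≠ 0 := fun h => hx0 (by rw [h]; rfl)
  have hz0 : d ^ D • y ≠ 0 := by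
    rw [Algebra.smul_def]
    exact mul_ne_zero ((map_ne_zero _).mpr (pow_ne_zero _ hd)) hy0
  have hr : (1 : WithZero (Multiplicative ℤ)) ≤ exp (c : ℤ) ^ D :=
    one_le_pow₀ (by rw [← exp_zero]; exact exp_le_exp.mpr (Int.natCast_nonneg c))
  have k1 := liou_core b u A hA _ hz0 hr hy
  have k2 := liou_eig b u _ fun i j => (hy i j).2
  have e : u (d ^ D • y) = w d ^ D * v (y : L) := by
    rw [Algebra.smul_def, map_mul, huw, map_pow]; rfl
  rw [e] at k1 k2
  have hd1 : 1 ≤ w d ^ D := one_le_pow₀ (hA d hdA hd)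
  have hpow : ∀ m : ℕ, exp (c : ℤ) ^ m = exp ((c : ℤ) * m) := fun m => by
    rw [← exp_nsmul, nsmul_eq_mul, mul_comm]
  constructor
  · have k3 : 1 ≤ exp (c : ℤ) ^ D * v (y : L) * (exp (c : ℤ) ^ D) ^ Fintype.card ι :=
      k1.trans (mul_le_mul_left (mul_le_mul_left (pow_le_pow_left' hc1 D) _) _)
    rw [mul_right_comm, ← pow_mul, ← pow_add, hpow] at k3
    have e2 : ((c * (Fintype.card ι + 1) : ℕ) * D : ℤ) = c * ((D + D * Fintype.card ι : ℕ) : ℤ) := by
      push_cast; ring
    rw [e2, exp_neg]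
    exact (inv_le_iff_one_le_mul₀' exp_pos).mpr k3
  · calc v (y : L) = 1 * v (y : L) := (one_mul _).symm
      _ ≤ w d ^ D * v (y : L) := mul_le_mul_left hd1 _
      _ ≤ exp (c : ℤ) ^ D := k2
      _ ≤ _ := by
        rw [hpow]
        refine exp_le_exp.mpr ?_
        push_cast
        have : (0 : ℤ) ≤ c * (Fintype.card ι : ℤ) * D := by positivity
        nlinarith

end Pool.Agent.MP_ee2255_nt.S
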