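import Mathlib

/-! An abstract form of Mahler's method in two variables. -/

namespace Pool.Agent.MP_ee2255_nt.S

open scoped NNReal

/-- division by `a` followed by evaluation extends to a semilinear map -/
theorem mahler_theta {R A Ω : Type*} [CommRing R] [CommRing A] [IsDomain A] [Field Ω]
    (ψ : R →+* A) (μ : A →+* Ω) (hφ : Function.Injective (μ.comp ψ)) {a : A} (ha : a ≠ 0) :
    ∃ Θ : A →+ Ω, (∀ r x, Θ (ψ r * x) = μ (ψ r) * Θ x) ∧ ∀ x, Θ (a * x) = μ x := by
  let : Algebra R A := ψ.toAlgebra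
  let : Algebra R Ω := (μ.comp ψ).toAlgebra
  have hA : ∀ (r : R) (x : A), r • x = ψ r * x := fun r x => Algebra.smul_def r x
  have hO : ∀ (r : R) (x : Ω), r • x = μ (ψ r) * x := fun r x => Algebra.smul_def r x
  have hB : Module.Baer R Ω := by
    intro I g
    by_cases hI : ∀ x ∈ I, x = 0
    · refine ⟨0, fun x hx => ?_⟩
      have : (⟨x, hx⟩ : I) = 0 := Subtype.ext (hI x hx)
      rw [this, map_zero, LinearMap.zero_apply]
    · push Not at hI
      obtain ⟨x0, hx0, hne⟩ := hI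
      have hm : μ (ψ x0) ≠ 0 := fun h => hne (hφ (by simpa using h))
      refine ⟨LinearMap.toSpanSingleton R Ω (g ⟨x0, hx0⟩ / μ (ψ x0)), fun x hx => ?_⟩
      have e : x • (⟨x0, hx0⟩ : I) = x0 • (⟨x, hx⟩ : I) := Subtype.ext (by simp [mul_comm])
      have e2 := congrArg g e
      rw [map_smul, map_smul, hO, hO] at e2
      rw [LinearMap.toSpanSingleton_apply, hO]
      field_simp
      rw [e2]
  let F : A →ₗ[R] A := LinearMap.mulLeft R a
  let G : A →ₗ[R] Ω :=
    { toFun := μ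
      map_add' := map_add μ
      map_smul' := fun r x => by rw [hA, RingHom.id_apply, hO, map_mul] }
  have hF : Function.Injective F := fun x y h => mul_left_cancel₀ ha h
  obtain ⟨h, hh⟩ := hB.extension_property F hF G
  refine ⟨h.toAddMonoidHom, fun r x => ?_, fun x => ?_⟩
  · have := h.map_smul r x
    rwa [hA, hO] at this
  · exact LinearMap.congr_fun hh x

/-- a linear algebra form of Siegel's lemma -/
theorem mahler_siegel {k Ω U Λ : Type*} [Field k] [Field Ω] [Algebra k Ω] [Fintype U] [Fintype Λ]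
    (v : Valuation Ω ℝ≥0) (hk : ∀ c : k, v (algebraMap k Ω c) ≤ 1) (S : Subalgebra k Ω)
    (ε : ℝ≥0) (T : Finset Ω)
    (hT : ∀ x ∈ S, ∃ y ∈ Submodule.span k (T : Set Ω), v (x - y) ≤ ε)
    (w : U → Λ → Ω) (hw : ∀ u l, w u l ∈ S) (hc : Fintype.card Λ * T.card < Fintype.card U) :
    ∃ c : U → k, c ≠ 0 ∧ ∀ l, v (∑ u, c u • w u l) ≤ ε := by
  let Sm : Submodule k Ω :=
    { carrier := {x | v x ≤ ε}
      add_mem' := fun hx hy => v.map_add_le hx hy
      zero_mem' := by simp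
      smul_mem' := fun c x hx => by
        have hx' : v x ≤ ε := hx
        show v (c • x) ≤ ε
        rw [Algebra.smul_def, map_mul]
        exact (mul_le_of_le_one_left' (hk c)).trans hx' }
  let W : Submodule k (Ω ⧸ Sm) := (Submodule.span k (T : Set Ω)).map Sm.mkQ
  have : Module.Finite k W := Module.Finite.map _ _
  have hW : Module.finrank k W ≤ T.card :=
    (Submodule.finrank_map_le _ _).trans (finrank_span_finset_le_card T)
  have hmem : ∀ u l, Sm.mkQ (w u l) ∈ W := by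
    intro u l
    obtain ⟨y, hy, hv⟩ := hT _ (hw u l)
    refine ⟨y, hy, ?_⟩
    rw [Submodule.mkQ_apply, Submodule.mkQ_apply, eq_comm, Submodule.Quotient.eq]
    exact hv
  let F : (U → k) →ₗ[k] (Λ → W) :=
    Fintype.linearCombination k fun u l => (⟨_, hmem u l⟩ : W)
  have hF : LinearMap.ker F ≠ ⊥ := by
    apply LinearMap.ker_ne_bot_of_finrank_lt
    rw [Module.finrank_pi_fintype, Module.finrank_fintype_fun_eq_card]
    simp only [Finset.sum_const, Finset.card_univ, smul_eq_mul]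
    exact lt_of_le_of_lt (Nat.mul_le_mul_left _ hW) hc
  obtain ⟨c, hc0, hne⟩ := (Submodule.ne_bot_iff _).1 hF
  refine ⟨c, hne, fun l => ?_⟩
  have h1 := congrArg (fun t => ((t l : W) : Ω ⧸ Sm)) (LinearMap.mem_ker.1 hc0)
  simp only [F, Fintype.linearCombination_apply, Finset.sum_apply, Pi.smul_apply,
    Submodule.coe_sum, Submodule.coe_smul, Pi.zero_apply, Submodule.coe_zero] at h1
  have h2 : Sm.mkQ (∑ u, c u • w u l) = 0 := by
    rw [map_sum]
    simpa only [map_smul] using h1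
  exact (Submodule.Quotient.mk_eq_zero Sm).1 h2

/-- polynomial growth forces moderate doubling -/
theorem mahler_doubling (H : ℕ → ℕ) (κ : ℕ) (h1 : ∀ δ, 1 ≤ H δ) (h2 : ∀ δ, H δ ≤ (δ + 1) ^ κ)
    (δ₀ : ℕ) : ∃ δ, δ₀ ≤ δ ∧ H (2 * δ) ≤ 2 ^ (κ + 1) * H δ := by
  by_contra hcon
  push Not at hcon
  have key : ∀ n, (2 ^ (κ + 1)) ^ n ≤ H (2 ^ n * δ₀) := by
    intro n
    induction n with
    | zero => simpa using h1 δ₀
    | succ n ih =>
      have := hcon (2 ^ n * δ₀) (Nat.le_mul_of_pos_left _ (by positivity))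
      rw [pow_succ' 2 n, mul_assoc, pow_succ']
      exact (Nat.mul_le_mul_left _ ih).trans this.le
  set n := (δ₀ + 1) ^ κ with hn
  have e1 := (key n).trans (h2 _)
  have e2 : 2 ^ n * δ₀ + 1 ≤ 2 ^ n * (δ₀ + 1) := by
    rw [mul_add, mul_one]
    exact Nat.add_le_add_left Nat.one_le_two_pow _
  have e3 := e1.trans (Nat.pow_le_pow_left e2 κ)
  rw [mul_pow, ← hn, ← pow_mul, ← pow_mul, add_mul, pow_add, mul_comm κ n, one_mul] at e3
  have e4 := Nat.le_of_mul_le_mul_left e3 (by positivity)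
  exact absurd e4 (not_le.2 Nat.lt_two_pow_self)

section filt

variable (L : Type*) {Ω ι : Type*} [Field L] [Field Ω] [Algebra L Ω] [Fintype ι] (c : ι → Ω)

/-- the span of the monomials in `c` of degree at most `δ` in each variable -/
def mahlerV (δ : ℕ) : Submodule L Ω :=
  Submodule.span L (Set.range fun e : ι → Fin (δ + 1) => ∏ i, c i ^ (e i : ℕ))

theorem mahlerV_mem {δ : ℕ} (e : ι → ℕ) (he : ∀ i, e i ≤ δ) : ∏ i, c i ^ e i ∈ mahlerV L c δ :=
  Submodule.subset_span ⟨fun i => ⟨e i, Nat.lt_succ_of_le (he i)⟩, rfl⟩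

theorem mahlerV_one (δ : ℕ) : 1 ∈ mahlerV L c δ := by
  simpa using mahlerV_mem L c (δ := δ) 0 fun _ => Nat.zero_le _

theorem mahlerV_gen (i : ι) : c i ∈ mahlerV L c 1 := by
  classical
  have := mahlerV_mem L c (δ := 1) (Pi.single i 1) fun j => by
    rw [Pi.single_apply]; split_ifs <;> simp
  rwa [Finset.prod_eq_single i (fun j _ hj => by simp [hj]) (by simp), Pi.single_eq_same,
    pow_one] at this

variable {L c}

theorem mahlerV_mul {a b : ℕ} {x y : Ω} (hx : x ∈ mahlerV L c a) (hy : y ∈ mahlerV L c b) :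
    x * y ∈ mahlerV L c (a + b) := by
  refine Submodule.mul_le.1 ?_ x hx y hy
  rw [mahlerV, mahlerV, Submodule.span_mul_span, Submodule.span_le]
  rintro _ ⟨_, ⟨e, rfl⟩, _, ⟨e', rfl⟩, rfl⟩
  have := mahlerV_mem L c (δ := a + b) (fun i => e i + e' i) fun i =>
    Nat.add_le_add (Nat.le_of_lt_succ (e i).2) (Nat.le_of_lt_succ (e' i).2)
  simp only [pow_add, Finset.prod_mul_distrib] at this
  exact this

theorem mahlerV_mono {a b : ℕ} (h : a ≤ b) {x : Ω} (hx : x ∈ mahlerV L c a) :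
    x ∈ mahlerV L c b := by
  obtain ⟨t, rfl⟩ := Nat.exists_eq_add_of_le h
  simpa using mahlerV_mul hx (mahlerV_one L c t)

instance mahlerV_finite (δ : ℕ) : Module.Finite L (mahlerV L c δ) :=
  Module.Finite.span_of_finite _ (Set.finite_range _)

theorem mahlerV_rank_le (δ : ℕ) :
    Module.finrank L (mahlerV L c δ) ≤ (δ + 1) ^ Fintype.card ι := by
  classical
  have := finrank_range_le_card (R := L) fun e : ι → Fin (δ + 1) => ∏ i, c i ^ (e i : ℕ)
  rw [Fintype.card_fun, Fintype.card_fin] at this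
  exact this

theorem mahlerV_rank_pos (δ : ℕ) : 1 ≤ Module.finrank L (mahlerV L c δ) := by
  have : Nontrivial (mahlerV L c δ) :=
    ⟨⟨⟨1, mahlerV_one L c δ⟩, 0, fun h => one_ne_zero (congrArg Subtype.val h)⟩⟩
  exact Module.finrank_pos

theorem mahlerV_basis {δ H : ℕ} (h : Module.finrank L (mahlerV L c δ) = H) : ∃ a : Fin H → Ω,
    (∀ i, ∃ e : ι → Fin (δ + 1), ∏ i, c i ^ (e i : ℕ) = a i) ∧
      Submodule.span L (Set.range a) = mahlerV L c δ ∧ LinearIndependent L a := by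
  subst h
  have : Module.Finite L (Submodule.span L
    (Set.range fun e : ι → Fin (δ + 1) => ∏ i, c i ^ (e i : ℕ))) := mahlerV_finite δ
  exact Submodule.exists_fun_fin_finrank_span_eq L _

theorem mahlerV_coeff_pow {σ : Type*} {P : MvPolynomial σ Ω}
    (hP : ∀ m, P.coeff m ∈ mahlerV L c 1) (j : ℕ) : ∀ m, (P ^ j).coeff m ∈ mahlerV L c j := by
  classical
  induction j with
  | zero =>
    intro m
    rw [pow_zero, MvPolynomial.coeff_one]
    split_ifs
    · exact mahlerV_one L c 0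
    · exact Submodule.zero_mem _
  | succ j ih =>
    intro m
    rw [pow_succ, MvPolynomial.coeff_mul]
    exact Submodule.sum_mem _ fun x _ => mahlerV_mul (ih _) (hP _)

end filt

open MvPolynomial

/-- clearing denominators -/
theorem mahler_denom {k Ω σ τ Λ U : Type*} [Field k] [Field Ω] [Algebra k Ω] [Fintype Λ]
    [Fintype U] (z : τ → Ω) (b : Λ → Ω) (ψ : MvPolynomial (τ ⊕ σ) k →+* MvPolynomial σ Ω)
    (hψ1 : ∀ r : MvPolynomial τ k, ψ (rename Sum.inl r) = C (aeval z r))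
    (hψ2 : ∀ i, ψ (X (Sum.inr i)) = X i) (Q : U → MvPolynomial σ Ω)
    (hQ : ∀ u m, (Q u).coeff m ∈
      Submodule.span (IntermediateField.adjoin k (Set.range z)) (Set.range b)) :
    ∃ s : MvPolynomial (τ ⊕ σ) k, s ≠ 0 ∧ ∃ g : U → Λ → MvPolynomial (τ ⊕ σ) k,
      ∀ u, ψ s * Q u = ∑ l, ψ (g u l) * C (b l) := by
  classical
  let G : MvPolynomial σ Ω → Prop := fun q => ∃ s : MvPolynomial (τ ⊕ σ) k, s ≠ 0 ∧
    ∃ g : Λ → MvPolynomial (τ ⊕ σ) k, ψ s * q = ∑ l, ψ (g l) * C (b l)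
  have G0 : G 0 := ⟨1, one_ne_zero, 0, by simp⟩
  have Gadd : ∀ p q, G p → G q → G (p + q) := by
    rintro p q ⟨s, hs, g, hg⟩ ⟨s', hs', g', hg'⟩
    refine ⟨s * s', mul_ne_zero hs hs', fun l => s' * g l + s * g' l, ?_⟩
    simp only [map_add, map_mul, add_mul, Finset.sum_add_distrib, mul_assoc, ← Finset.mul_sum,
      ← hg, ← hg']
    ring
  have Gmul : ∀ r q, G q → G (ψ r * q) := by
    rintro r q ⟨s, hs, g, hg⟩
    refine ⟨s, hs, fun l => r * g l, ?_⟩
    simp only [map_mul, mul_assoc, ← Finset.mul_sum, ← hg]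
    ring
  have GC : ∀ x ∈ Submodule.span (IntermediateField.adjoin k (Set.range z)) (Set.range b),
      G (C x) := by
    intro x hx
    induction hx using Submodule.span_induction with
    | mem x hx =>
      obtain ⟨l, rfl⟩ := hx
      refine ⟨1, one_ne_zero, Pi.single l 1, ?_⟩
      rw [Finset.sum_eq_single l (fun j _ hj => by simp [hj]) (by simp)]
      simp
    | zero => simpa using G0
    | add x y _ _ hx hy => simpa using Gadd _ _ hx hy
    | smul a x _ hx =>
      obtain ⟨r, s, hrs⟩ := (IntermediateField.mem_adjoin_range_iff k z a).1 a.2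
      have ha : a • x = aeval z r / aeval z s * x := by rw [← hrs]; rfl
      rw [ha]
      by_cases hs : aeval z s = 0
      · simpa [hs] using G0
      obtain ⟨s', hs', g, hg⟩ := Gmul (rename Sum.inl r) _ hx
      have hs0 : rename (Sum.inl : τ → τ ⊕ σ) s ≠ 0 := by
        intro h
        have : s = 0 := rename_injective _ Sum.inl_injective (by rw [h, map_zero])
        exact hs (by rw [this, map_zero])
      refine ⟨s' * rename Sum.inl s, mul_ne_zero hs' hs0, g, ?_⟩
      rw [← hg, map_mul, hψ1, hψ1, mul_assoc, ← map_mul, ← map_mul]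
      congr 2
      field_simp
  have GQ : ∀ u, G (Q u) := by
    intro u
    rw [(Q u).as_sum]
    refine Finset.sum_induction _ G Gadd G0 fun m _ => ?_
    have := Gmul (m.prod fun i e => X (Sum.inr i) ^ e) _ (GC _ (hQ u m))
    rw [monomial_eq, mul_comm]
    simpa only [Finsupp.prod, map_prod, map_pow, hψ2] using this
  choose s hs g hg using GQ
  refine ⟨∏ u, s u, Finset.prod_ne_zero_iff.2 fun u _ => hs u,
    fun u l => (∏ u' ∈ Finset.univ.erase u, s u') * g u l, fun u => ?_⟩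
  rw [← Finset.prod_erase_mul _ _ (Finset.mem_univ u)]
  simp only [map_mul, mul_assoc, ← Finset.mul_sum, hg]

theorem mahler_prod {k Ω τ : Type*} [Field k] [Field Ω] [Algebra k Ω] [Fintype τ]
    {B : ℕ → Submodule k Ω} (h1 : 1 ∈ B 0) (hmono : Monotone B)
    (hmul : ∀ a b x y, x ∈ B a → y ∈ B b → x * y ∈ B (a + b)) {d n : ℕ} {x : τ → Ω}
    (hx : ∀ i, x i ∈ B d) (e : τ → Fin (n + 1)) :
    ∏ i, x i ^ (e i : ℕ) ∈ B (Fintype.card τ * (d * n)) := by
  classical
  have hpow : ∀ i m, x i ^ m ∈ B (d * m) := fun i m => by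
    induction m with
    | zero => simpa using h1
    | succ m ih => rw [pow_succ, mul_add_one]; exact hmul _ _ _ _ ih (hx i)
  have : ∀ s : Finset τ, ∏ i ∈ s, x i ^ (e i : ℕ) ∈ B (s.card * (d * n)) := fun s => by
    induction s using Finset.induction_on with
    | empty => simpa using h1
    | insert i s his ih =>
      rw [Finset.prod_insert his, Finset.card_insert_of_notMem his, add_one_mul, add_comm]
      exact hmul _ _ _ _ (hmono (Nat.mul_le_mul_left d (Nat.le_of_lt_succ (e i).2)) (hpow i _)) ih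
  exact this _

theorem mahler_indep {k Ω τ ι : Type*} [Field k] [Field Ω] [Algebra k Ω] [Fintype τ] {z : τ → Ω}
    (hz : AlgebraicIndependent k z) {a : ι → Ω}
    (ha : LinearIndependent (IntermediateField.adjoin k (Set.range z)) a) (D : ℕ) :
    LinearIndependent k fun p : (τ → Fin (D + 1)) × ι => (∏ i, z i ^ (p.1 i : ℕ)) * a p.2 := by
  let w : (τ → Fin (D + 1)) → IntermediateField.adjoin k (Set.range z) := fun e =>
    ⟨∏ i, z i ^ (e i : ℕ), prod_mem fun i _ =>
      pow_mem (IntermediateField.subset_adjoin _ _ (Set.mem_range_self i)) _⟩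
  have hw : LinearIndependent k w := by
    apply LinearIndependent.of_comp (IntermediateField.adjoin k (Set.range z)).val.toLinearMap
    have h1 := (basisMonomials τ k).linearIndependent.map' (aeval z).toLinearMap
      (LinearMap.ker_eq_bot.2 hz)
    have h2 := h1.comp (fun e : τ → Fin (D + 1) => Finsupp.equivFunOnFinite.symm fun i => (e i : ℕ))
      fun e e' h => funext fun i => Fin.ext (congrFun (Finsupp.equivFunOnFinite.symm.injective h) i)
    refine (congrArg (fun t => LinearIndependent k t) (funext fun e => ?_)).mp h2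
    simp [w, aeval_monomial, Finsupp.prod_fintype]
  exact linearIndependent_smul hw ha

theorem mahler {k Ω σ : Type*} [Field k] [Field Ω] [Algebra k Ω] [Fintype σ]
    (v : Valuation Ω ℝ≥0) (hk : ∀ c : k, v (algebraMap k Ω c) ≤ 1) (S : Subalgebra k Ω)
    (hS : ∀ N : ℕ, ∃ T : Finset Ω, T.card ≤ N ^ 2 ∧
      ∀ x ∈ S, ∃ y ∈ Submodule.span k (T : Set Ω), v (x - y) ≤ 2⁻¹ ^ N)
    (z : Fin 2 → Ω) (hz : ∀ i, z i ∈ S) (f : σ → Ω) (hf : ∀ i, f i ∈ S)
    (hi : AlgebraicIndependent k (Sum.elim z f))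
    (B : ℕ → Submodule k Ω) (h1 : 1 ∈ B 0) (hmono : Monotone B)
    (hmul : ∀ a b x y, x ∈ B a → y ∈ B b → x * y ∈ B (a + b))
    (γ : ℝ≥0) (hγ : γ ≠ 0) (hL : ∀ D, ∀ x ∈ B D, x ≠ 0 → γ ^ D ≤ v x)
    (hzB : ∀ i, ∃ D, z i ∈ B D)
    (P : MvPolynomial σ Ω) (hP : ∀ μ, ∃ D, P.coeff μ ∈ B D)
    (h0 : MvPolynomial.aeval f P = 0) : P = 0 := by
  classical
  by_contra hP0
  -- a common level `d`
  let c : P.support → Ω := fun m => P.coeff m
  obtain ⟨d, hdz, hdc⟩ : ∃ d, (∀ i, z i ∈ B d) ∧ ∀ m, c m ∈ B d := by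
    choose D hD using hzB
    choose D' hD' using hP
    refine ⟨∑ i, D i + ∑ m : P.support, D' m, fun i => hmono ?_ (hD i),
      fun m => hmono ?_ (hD' m)⟩
    · exact le_add_right (Finset.single_le_sum (fun _ _ => Nat.zero_le _) (Finset.mem_univ i))
    · exact le_add_left (Finset.single_le_sum (f := fun m : P.support => D' m)
        (fun _ _ => Nat.zero_le _) (Finset.mem_univ m))
  let L := IntermediateField.adjoin k (Set.range z)
  obtain ⟨μ, hμC, hμX, hμP⟩ : ∃ μ : MvPolynomial σ Ω →+* Ω,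
      (∀ x, μ (C x) = x) ∧ (∀ i, μ (X i) = f i) ∧ μ P = 0 :=
    ⟨(aeval f : MvPolynomial σ Ω →ₐ[Ω] Ω), fun x => by simp, fun i => by simp, h0⟩
  obtain ⟨ψ, hψ0, hψz, hψ2⟩ : ∃ ψ : MvPolynomial (Fin 2 ⊕ σ) k →+* MvPolynomial σ Ω,
      (∀ x, ψ (C x) = C (algebraMap k Ω x)) ∧ (∀ i, ψ (X (Sum.inl i)) = C (z i)) ∧
        ∀ i, ψ (X (Sum.inr i)) = X i :=
    ⟨eval₂Hom (C.comp (algebraMap k Ω)) (Sum.elim (fun i => C (z i)) X), fun x => by simp,
      fun i => by simp, fun i => by simp⟩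
  have hφ : ∀ r, μ (ψ r) = aeval (Sum.elim z f) r := fun r => by
    induction r using MvPolynomial.induction_on with
    | C x => simp [hψ0, hμC]
    | add p q hp hq => simp only [map_add, hp, hq]
    | mul_X p i hp => cases i <;> simp [hp, hψz, hψ2, hμC, hμX]
  have hψ1 : ∀ r : MvPolynomial (Fin 2) k, ψ (rename Sum.inl r) = C (aeval z r) := fun r => by
    induction r using MvPolynomial.induction_on with
    | C x => simp [hψ0]
    | add p q hp hq => simp only [map_add, hp, hq]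
    | mul_X p i hp => simp [hp, hψz]
  have hφS : ∀ r, μ (ψ r) ∈ S := fun r => by
    induction r using MvPolynomial.induction_on with
    | C x => simp [hψ0, hμC]
    | add p q hp hq => simpa only [map_add] using S.add_mem hp hq
    | mul_X p i hp =>
      rw [map_mul, map_mul]
      refine S.mul_mem hp ?_
      cases i <;> simp [hψz, hψ2, hμC, hμX, hz, hf]
  have hinj : Function.Injective (μ.comp ψ) := fun x y h =>
    hi ((hφ x).symm.trans (h.trans (hφ y)))
  choose Θ hΘ1 hΘ2 using fun j : ℕ => mahler_theta ψ μ hinj (pow_ne_zero j hP0)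
  -- parameters
  obtain ⟨Λ, hΛ⟩ : ∃ Λ : ℕ, (2⁻¹ : ℝ≥0) ^ Λ < γ ^ (2 * d) :=
    NNReal.exists_pow_lt_of_lt_one (by positivity) (by norm_num)
  set κ := Fintype.card P.support
  obtain ⟨δ, hδ, hH⟩ := mahler_doubling (fun δ => Module.finrank L (mahlerV L c δ)) κ
    mahlerV_rank_pos mahlerV_rank_le (2 ^ (κ + 1) * Λ ^ 2)
  have hH1 := mahlerV_rank_pos (L := L) (c := c) δ
  obtain ⟨H, eH⟩ : ∃ H, Module.finrank L (mahlerV L c δ) = H := ⟨_, rfl⟩
  obtain ⟨H', eH'⟩ : ∃ H, Module.finrank L (mahlerV L c (2 * δ)) = H := ⟨_, rfl⟩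
  simp only [eH, eH'] at hH hH1
  obtain ⟨a, haB, ha, hai⟩ := mahlerV_basis eH
  obtain ⟨b, -, hb, -⟩ := mahlerV_basis eH'
  have haV : ∀ i, a i ∈ mahlerV L c δ := fun i => ha ▸ Submodule.subset_span ⟨i, rfl⟩
  replace haB : ∀ i, a i ∈ B (κ * (d * δ)) := fun i => by
    obtain ⟨e, he⟩ := haB i
    exact he ▸ mahler_prod h1 hmono hmul hdc e
  have hPc : ∀ m, P.coeff m ∈ mahlerV L c 1 := fun m => by
    by_cases hm : m ∈ P.support
    · exact mahlerV_gen L c ⟨m, hm⟩
    · rw [notMem_support_iff.1 hm]; exact Submodule.zero_mem _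
  obtain ⟨s, hs, g, hg⟩ := mahler_denom z b ψ hψ1 hψ2
    (fun u : Fin (δ + 1) × Fin H => C (a u.2) * P ^ (u.1 : ℕ)) fun u m => by
      rw [hb, coeff_C_mul, two_mul]
      exact mahlerV_mul (haV _) (mahlerV_mono (Nat.le_of_lt_succ u.1.2) (mahlerV_coeff_pow hPc _ m))
  have hs' : v (μ (ψ s)) ≠ 0 := by
    rw [Valuation.ne_zero_iff]
    exact fun h => hs (hinj (h.trans (map_zero _).symm))
  obtain ⟨M, hM0, hM⟩ : ∃ M : ℝ≥0, 0 < M ∧ ∀ (j : Fin (δ + 1)) l, v (Θ j (C (b l))) ≤ M :=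
    ⟨∑ t : Fin (δ + 1) × Fin H', v (Θ t.1 (C (b t.2))) + 1, by positivity, fun j l =>
      le_add_right (Finset.single_le_sum (f := fun t : Fin (δ + 1) × Fin H' =>
        v (Θ t.1 (C (b t.2)))) (fun _ _ => zero_le) (Finset.mem_univ (j, l)))⟩
  obtain ⟨D, hD⟩ : ∃ D : ℕ, (2⁻¹ ^ Λ / γ ^ (2 * d)) ^ D < v (μ (ψ s)) * γ ^ (κ * (d * δ)) / M :=
    NNReal.exists_pow_lt_of_lt_one (by positivity) ((div_lt_one (by positivity)).2 hΛ)
  obtain ⟨T, hT, hTS⟩ := hS (Λ * D)
  let w : (Fin 2 → Fin (D + 1)) → Ω := fun e => ∏ i, z i ^ (e i : ℕ)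
  obtain ⟨u, hu0, hu⟩ := mahler_siegel v hk S _ T hTS
    (fun (u : Fin (δ + 1) × (Fin 2 → Fin (D + 1)) × Fin H) l => w u.2.1 * μ (ψ (g (u.1, u.2.2) l)))
    (fun u l => S.mul_mem (S.prod_mem fun i _ => S.pow_mem (hz i) _) (hφS _)) (by
      simp only [Fintype.card_prod, Fintype.card_fin, Fintype.card_fun]
      calc H' * T.card ≤ 2 ^ (κ + 1) * H * (Λ * D) ^ 2 := Nat.mul_le_mul hH hT
        _ = 2 ^ (κ + 1) * Λ ^ 2 * (D ^ 2 * H) := by ring
        _ ≤ δ * ((D + 1) ^ 2 * H) := by gcongr; exact Nat.le_succ D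
        _ < (δ + 1) * ((D + 1) ^ 2 * H) :=
          Nat.mul_lt_mul_of_pos_right (Nat.lt_succ_self δ) (by positivity))
  have hwa : LinearIndependent k fun p : (Fin 2 → Fin (D + 1)) × Fin H => w p.1 * a p.2 :=
    mahler_indep (hi.comp Sum.inl Sum.inl_injective) hai D
  let p : Fin (δ + 1) → Ω := fun j => ∑ t, u (j, t) • (w t.1 * a t.2)
  have hp : ∃ j, p j ≠ 0 := by
    by_contra hcon
    push Not at hcon
    exact hu0 (funext fun t => Fintype.linearIndependent_iff.1 hwa _ (hcon t.1) t.2)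
  have hpB : ∀ j, p j ∈ B (2 * (d * D) + κ * (d * δ)) := fun j =>
    Submodule.sum_mem _ fun t _ => Submodule.smul_mem _ _
      (hmul _ _ _ _ (mahler_prod h1 hmono hmul hdz t.1) (haB _))
  obtain ⟨j₀, hj₀, hmin⟩ := (Finset.univ.filter fun j => p j ≠ 0).exists_min_image id
    (by simpa [Finset.Nonempty] using hp)
  have hne : p j₀ ≠ 0 := (Finset.mem_filter.1 hj₀).2
  have hE : Θ j₀ (∑ j, C (p j) * P ^ (j : ℕ)) = p j₀ := by
    rw [map_sum, Finset.sum_eq_single j₀ _ (by simp), mul_comm, hΘ2, hμC]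
    intro j _ hj
    by_cases hpj : p j = 0
    · simp [hpj]
    have hlt : (j₀ : ℕ) < j :=
      lt_of_le_of_ne (hmin j (by simpa using hpj)) fun h => hj (Fin.ext h.symm)
    obtain ⟨t, ht⟩ := Nat.exists_eq_add_of_lt hlt
    rw [ht, add_assoc, pow_add, mul_left_comm, hΘ2, map_mul, map_pow, hμP]
    simp
  have hE2 : μ (ψ s) * Θ j₀ (∑ j, C (p j) * P ^ (j : ℕ)) =
      ∑ l, (∑ t, u t • (w t.2.1 * μ (ψ (g (t.1, t.2.2) l)))) * Θ j₀ (C (b l)) := by
    let r : Fin (δ + 1) × (Fin 2 → Fin (D + 1)) × Fin H → MvPolynomial (Fin 2 ⊕ σ) k :=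
      fun t => C (u t) * ∏ i, X (Sum.inl i) ^ (t.2.1 i : ℕ)
    have hr : ∀ t, ψ (r t) = C (u t • w t.2.1) := fun t => by
      simp only [r, w, map_mul, map_prod, map_pow, hψ0, hψz, Algebra.smul_def]
    have e : ψ s * ∑ j, C (p j) * P ^ (j : ℕ) =
        ∑ l, ψ (∑ t, r t * g (t.1, t.2.2) l) * C (b l) := by
      simp only [map_sum, map_mul, Finset.sum_mul, mul_assoc]
      rw [Finset.sum_comm]
      simp only [← Finset.mul_sum, ← hg, hr]
      rw [Fintype.sum_prod_type, Finset.mul_sum]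
      refine Finset.sum_congr rfl fun j _ => ?_
      simp only [p, map_sum, Finset.sum_mul, Finset.mul_sum, ← smul_mul_assoc, map_mul]
      exact Finset.sum_congr rfl fun t _ => by ring
    rw [← hΘ1, e, map_sum]
    refine Finset.sum_congr rfl fun l _ => ?_
    rw [hΘ1]
    simp only [map_sum, map_mul, hr, hμC, smul_mul_assoc]
  have hv : v (μ (ψ s)) * v (p j₀) ≤ 2⁻¹ ^ (Λ * D) * M := by
    rw [← map_mul, ← hE, hE2]
    exact v.map_sum_le fun l _ => by
      rw [map_mul]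
      exact mul_le_mul' (hu l) (hM _ _)
  have hv2 := hL _ _ (hpB j₀) hne
  rw [div_pow, div_lt_div_iff₀ (by positivity) hM0, ← pow_mul, ← pow_mul, mul_assoc, ← pow_add,
    add_comm, mul_assoc] at hD
  exact absurd ((mul_le_mul_right hv2 _).trans hv) (not_le.2 hD)

end Pool.Agent.MP_ee2255_nt.S

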