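import Pool.Agent.MP_ee2255_nt.SUltra
import Pool.Agent.MP_ee2255_nt.SLiou
import Pool.Agent.MP_ee2255_nt.SMahler

/-! Heights in the ultralimit field. -/

namespace Pool.Agent.MP_ee2255_nt.S

open Filter Topology WithZero
open scoped NNReal

variable {E L : Type*} [Field E] [Field L] [Algebra E L]

section BB

variable {Γ : Set L} {x y : L} {a b : ℕ}

lemma BB_mul (hx : x ∈ BB E Γ a) (hy : y ∈ BB E Γ b) : x * y ∈ BB E Γ (a + b) := by
  rw [BB, pow_add]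
  exact Submodule.mul_mem_mul hx hy

lemma BB_alg (c : E) : algebraMap E L c ∈ BB E Γ 0 := by
  rw [BB, pow_zero]
  exact Submodule.algebraMap_mem c

lemma BB_one : 1 ∈ BB E Γ 0 := by simpa using BB_alg (Γ := Γ) (1 : E)

lemma BB_gen (h : x ∈ Γ) : x ∈ BB E Γ 1 := by
  rw [BB, pow_one]
  exact Submodule.subset_span (Or.inr h)

lemma BB_mono (hx : x ∈ BB E Γ a) (h : a ≤ b) : x ∈ BB E Γ b := by
  induction h with
  | refl => exact hx
  | step _ ih =>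
    have h1 : (1 : L) ∈ BB E Γ 1 := by
      rw [BB, pow_one]
      exact Submodule.subset_span (Or.inl rfl)
    simpa using BB_mul ih h1

lemma BB_pow (hx : x ∈ BB E Γ a) (n : ℕ) : x ^ n ∈ BB E Γ (n * a) := by
  induction n with
  | zero => simpa using BB_one
  | succ n ih => simpa [pow_succ, add_mul] using BB_mul ih hx

lemma BB_gen_pow (h : x ∈ Γ) (n : ℕ) : x ^ n ∈ BB E Γ n := by simpa using BB_pow (BB_gen h) n

end BB

variable (E L) in
/-- the data for the ultralimit construction -/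
structure Setup where
  v : Valuation L (WithZero (Multiplicative ℤ))
  N : ℕ → ℕ
  hN : ∀ i, 0 < N i
  Γ : Set L
  c : ℕ
  hL : ∀ D : ℕ, ∀ x ∈ BB E Γ D, x ≠ 0 → exp (-(c * D : ℤ)) ≤ v x ∧ v x ≤ exp (c * D : ℤ)

namespace Setup

variable (T : Setup E L)

lemma one_lt_base (i : ℕ) : (1 : ℝ≥0) < 2 ^ ((T.N i : ℝ)⁻¹) :=
  NNReal.one_lt_rpow one_lt_two (inv_pos.2 (by exact_mod_cast T.hN i))

/-- the rescaled valuations -/
noncomputable def vs (i : ℕ) : Valuation L ℝ≥0 :=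
  T.v.map (WithZeroMulInt.toNNReal (T.one_lt_base i).ne_zero)
    (WithZeroMulInt.toNNReal_strictMono (T.one_lt_base i)).monotone

lemma toNN_exp (i : ℕ) (a : ℤ) : WithZeroMulInt.toNNReal (T.one_lt_base i).ne_zero (exp a) =
    2 ^ ((a : ℝ) / T.N i) := by
  rw [WithZeroMulInt.toNNReal_neg_apply _ exp_ne_zero, div_eq_inv_mul, NNReal.rpow_mul,
    NNReal.rpow_intCast]
  rfl

lemma vs_le {i : ℕ} {x : L} {a : ℤ} (h : T.v x ≤ exp a) : T.vs i x ≤ 2 ^ ((a : ℝ) / T.N i) := by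
  rw [← T.toNN_exp]
  exact (WithZeroMulInt.toNNReal_strictMono (T.one_lt_base i)).monotone h

lemma le_vs {i : ℕ} {x : L} {a : ℤ} (h : exp a ≤ T.v x) : 2 ^ ((a : ℝ) / T.N i) ≤ T.vs i x := by
  rw [← T.toNN_exp]
  exact (WithZeroMulInt.toNNReal_strictMono (T.one_lt_base i)).monotone h

/-- the ultralimit field -/
abbrev Ω := Om T.vs

/-- its valuation -/
noncomputable abbrev V : Valuation T.Ω ℝ≥0 := VV T.vs

variable {T} {x : ℕ → L} {ω ω' : T.Ω} {a : ℕ → ℤ} {α : ℝ}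

lemma tendsto_two_rpow {f : ℕ → ℝ} (h : Tendsto f UU (𝓝 α)) :
    Tendsto (fun i => (2 : ℝ≥0) ^ f i) UU (𝓝 (2 ^ α)) :=
  Filter.Tendsto.nnrpow tendsto_const_nhds h (Or.inl two_ne_zero)

lemma rep_le (h : Rep T.vs x ω) (h1 : ∀ᶠ i in UU, T.v (x i) ≤ exp (a i))
    (h2 : Tendsto (fun i => (a i : ℝ) / T.N i) UU (𝓝 α)) : T.V ω ≤ 2 ^ α :=
  le_of_tendsto_of_tendsto h.tendsto (tendsto_two_rpow h2) (h1.mono fun _ hi => T.vs_le hi)

lemma rep_ge (h : Rep T.vs x ω) (h1 : ∀ᶠ i in UU, exp (a i) ≤ T.v (x i))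
    (h2 : Tendsto (fun i => (a i : ℝ) / T.N i) UU (𝓝 α)) : 2 ^ α ≤ T.V ω :=
  le_of_tendsto_of_tendsto (tendsto_two_rpow h2) h.tendsto (h1.mono fun _ hi => T.le_vs hi)

lemma rep_eq (h : Rep T.vs x ω) (h1 : ∀ᶠ i in UU, T.v (x i) = exp (a i))
    (h2 : Tendsto (fun i => (a i : ℝ) / T.N i) UU (𝓝 α)) : T.V ω = 2 ^ α :=
  le_antisymm (rep_le h (h1.mono fun _ hi => hi.le) h2) (rep_ge h (h1.mono fun _ hi => hi.ge) h2)

lemma bd_of (h1 : ∀ᶠ i in UU, T.v (x i) ≤ exp (a i))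
    (h2 : Tendsto (fun i => (a i : ℝ) / T.N i) UU (𝓝 α)) : x ∈ Bd T.vs := by
  refine ⟨2 ^ α + 1, ?_⟩
  filter_upwards [h1, (tendsto_two_rpow h2).eventually (gt_mem_nhds (lt_add_one _))] with i h3 h4
  exact (T.vs_le h3).trans h4.le

lemma exists_rep' (h1 : ∀ᶠ i in UU, T.v (x i) ≤ exp (a i))
    (h2 : Tendsto (fun i => (a i : ℝ) / T.N i) UU (𝓝 α)) : ∃ ω, Rep T.vs x ω :=
  ⟨_, bd_of h1 h2, rfl⟩

variable (T) in
/-- negligible degrees -/
def Small (D : ℕ → ℕ) : Prop := Tendsto (fun i => (D i : ℝ) / T.N i) UU (𝓝 0)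

lemma Small.add {D D' : ℕ → ℕ} (h : T.Small D) (h' : T.Small D') :
    T.Small fun i => D i + D' i := by
  simpa [Small, add_div] using Tendsto.add h h'

lemma small_zero : T.Small fun _ => 0 := by simp [Small]

lemma Small.lim {D : ℕ → ℕ} (h : T.Small D) (r s : ℤ) :
    Tendsto (fun i => ((r * T.N i + s * D i : ℤ) : ℝ) / T.N i) UU (𝓝 r) := by
  have := (h.const_mul (s : ℝ)).const_add (r : ℝ)
  rw [mul_zero, add_zero] at this
  refine this.congr fun i => ?_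
  have : (T.N i : ℝ) ≠ 0 := by exact_mod_cast (T.hN i).ne'
  push_cast
  field_simp

variable (T) in
/-- elements of degree at most `c` -/
def Bc (c : ℕ) (ω : T.Ω) : Prop := ∃ (b b' : ℕ → L) (D : ℕ → ℕ), T.Small D ∧
  (∀ᶠ i in UU, b i ∈ BB E T.Γ (c * T.N i + D i) ∧ b' i ∈ BB E T.Γ (D i) ∧ b' i ≠ 0) ∧
    Rep T.vs (fun i => b i / b' i) ω

variable {c c' : ℕ}

lemma Bc.mul (h : T.Bc c ω) (h' : T.Bc c' ω') : T.Bc (c + c') (ω * ω') := by
  obtain ⟨b, b', D, hD, h1, h2⟩ := h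
  obtain ⟨d, d', D', hD', h1', h2'⟩ := h'
  refine ⟨fun i => b i * d i, fun i => b' i * d' i, _, hD.add hD', ?_,
    (h2.mul h2').congr (Eventually.of_forall fun i => div_mul_div_comm _ _ _ _)⟩
  filter_upwards [h1, h1'] with i h3 h4
  exact ⟨BB_mono (BB_mul h3.1 h4.1) (le_of_eq (by ring)), BB_mul h3.2.1 h4.2.1,
    mul_ne_zero h3.2.2 h4.2.2⟩

lemma Bc.add (h : T.Bc c ω) (h' : T.Bc c ω') : T.Bc c (ω + ω') := by
  obtain ⟨b, b', D, hD, h1, h2⟩ := h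
  obtain ⟨d, d', D', hD', h1', h2'⟩ := h'
  refine ⟨fun i => b i * d' i + b' i * d i, fun i => b' i * d' i, _, hD.add hD', ?_,
    (h2.add h2').congr ?_⟩
  · filter_upwards [h1, h1'] with i h3 h4
    exact ⟨add_mem (BB_mono (BB_mul h3.1 h4.2.1) (by omega))
      (BB_mono (BB_mul h3.2.1 h4.1) (by omega)), BB_mul h3.2.1 h4.2.1, mul_ne_zero h3.2.2 h4.2.2⟩
  · filter_upwards [h1, h1'] with i h3 h4
    exact div_add_div _ _ h3.2.2 h4.2.2

lemma Bc.neg (h : T.Bc c ω) : T.Bc c (-ω) := by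
  obtain ⟨b, b', D, hD, h1, h2⟩ := h
  exact ⟨fun i => -b i, b', D, hD, h1.mono fun i hi => ⟨neg_mem hi.1, hi.2⟩,
    h2.neg.congr (Eventually.of_forall fun i => (neg_div _ _).symm)⟩

lemma Bc.mono (h : T.Bc c ω) (hc : c ≤ c') : T.Bc c' ω := by
  obtain ⟨b, b', D, hD, h1, h2⟩ := h
  exact ⟨b, b', D, hD, h1.mono fun i hi =>
    ⟨BB_mono hi.1 (Nat.add_le_add_right (Nat.mul_le_mul_right _ hc) _), hi.2⟩, h2⟩

lemma Bc_of_rep {D : ℕ → ℕ} (hD : T.Small D) (h : Rep T.vs x ω)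
    (h1 : ∀ᶠ i in UU, x i ∈ BB E T.Γ (c * T.N i + D i)) : T.Bc c ω :=
  ⟨x, fun _ => 1, D, hD, h1.mono fun _ hi => ⟨hi, BB_mono BB_one (Nat.zero_le _), one_ne_zero⟩,
    by simpa using h⟩

lemma exists_Bc (h1 : ∀ i, x i ∈ BB E T.Γ (c * T.N i)) : ∃ ω, Rep T.vs x ω ∧ T.Bc c ω := by
  obtain ⟨ω, hω⟩ := exists_rep' (T := T) (x := x) (a := fun i => (T.c * c : ℤ) * T.N i + 0 * (0 : ℕ))
    (Eventually.of_forall fun i => by
      by_cases h0 : x i = 0
      · simp [h0]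
      · simpa [mul_assoc] using (T.hL _ _ (h1 i) h0).2) (small_zero.lim _ _)
  exact ⟨ω, hω, Bc_of_rep small_zero hω (Eventually.of_forall h1)⟩

lemma Bc_one : T.Bc 0 1 := Bc_of_rep small_zero Rep_one (Eventually.of_forall fun _ => by
  simpa using BB_one)

lemma Bc_zero : T.Bc c 0 := Bc_of_rep small_zero Rep_zero (Eventually.of_forall fun _ => zero_mem _)

lemma Bc.pow (h : T.Bc c ω) (n : ℕ) : T.Bc (n * c) (ω ^ n) := by
  induction n with
  | zero => simpa using Bc_one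
  | succ n ih => simpa [pow_succ, add_mul] using ih.mul h

lemma Bc.bound (h : T.Bc c ω) (h0 : ω ≠ 0) :
    2 ^ (-(T.c * c : ℤ) : ℝ) ≤ T.V ω ∧ T.V ω ≤ 2 ^ ((T.c * c : ℤ) : ℝ) := by
  obtain ⟨b, b', D, hD, h1, h2⟩ := h
  have h3 : ∀ᶠ i in UU, exp (-(T.c * c : ℤ) * T.N i + -(2 * T.c : ℤ) * D i) ≤ T.v (b i / b' i) ∧
      T.v (b i / b' i) ≤ exp ((T.c * c : ℤ) * T.N i + (2 * T.c : ℤ) * D i) := by
    filter_upwards [h1, h2.ev_ne h0] with i h4 h5
    have h6 := T.hL _ _ h4.1 (left_ne_zero_of_mul (div_eq_mul_inv (b i) (b' i) ▸ h5))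
    have h7 := T.hL _ _ h4.2.1 h4.2.2
    have h8 : 0 < T.v (b' i) := lt_of_lt_of_le exp_pos h7.1
    rw [map_div₀, le_div_iff₀ h8, div_le_iff₀ h8]
    refine ⟨(mul_le_mul_right h7.2 _).trans (le_of_eq_of_le ?_ h6.1),
      h6.2.trans (le_of_eq_of_le ?_ (mul_le_mul_right h7.1 _))⟩
    · rw [← exp_add]
      congr 1
      push_cast
      ring
    · rw [← exp_add]
      congr 1
      push_cast
      ring
  refine ⟨?_, rep_le h2 (h3.mono fun _ hi => hi.2) (hD.lim _ _)⟩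
  simpa using rep_ge h2 (h3.mono fun _ hi => hi.1) (hD.lim _ _)

variable (T) in
/-- the field of elements of negligible height -/
noncomputable def k0 : Subfield T.Ω where
  carrier := {ω | T.Bc 0 ω}
  mul_mem' h h' := Bc.mul h h'
  one_mem' := Bc_one
  add_mem' h h' := Bc.add h h'
  zero_mem' := Bc_zero
  neg_mem' h := Bc.neg h
  inv_mem' ω h := by
    by_cases h0 : ω = 0
    · rw [h0, inv_zero]
      exact Bc_zero
    obtain ⟨b, b', D, hD, h1, h2⟩ := h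
    refine ⟨b', b, D, hD, ?_, (h2.inv h0).congr (Eventually.of_forall fun i => inv_div _ _)⟩
    filter_upwards [h1, h2.ev_ne h0] with i h4 h5
    exact ⟨by simpa using h4.2.1, by simpa using h4.1,
      left_ne_zero_of_mul (div_eq_mul_inv (b i) (b' i) ▸ h5)⟩

lemma V_k0 {ω : T.k0} (h : ω ≠ 0) : T.V ω = 1 := by
  have := Bc.bound ω.2 (by simpa using h)
  simp only [Nat.cast_zero, mul_zero, Int.cast_zero, neg_zero, NNReal.rpow_zero] at this
  exact le_antisymm this.2 this.1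

lemma V_k0_le (ω : T.k0) : T.V ω ≤ 1 := by
  by_cases h : ω = 0
  · simp [h]
  · exact (V_k0 h).le

variable (T) in
/-- the field of elements of finite height -/
noncomputable def FH : Subfield T.Ω where
  carrier := {ω | ∃ c Δ, Δ ≠ 0 ∧ T.Bc c Δ ∧ T.Bc c (ω * Δ)}
  mul_mem' := by
    rintro ω ω' ⟨c, Δ, h0, h1, h2⟩ ⟨c', Δ', h0', h1', h2'⟩
    exact ⟨c + c', Δ * Δ', mul_ne_zero h0 h0', h1.mul h1', mul_mul_mul_comm ω Δ ω' Δ' ▸ h2.mul h2'⟩
  one_mem' := ⟨0, 1, one_ne_zero, Bc_one, by simpa using Bc_one⟩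
  add_mem' := by
    rintro ω ω' ⟨c, Δ, h0, h1, h2⟩ ⟨c', Δ', h0', h1', h2'⟩
    refine ⟨c + c', Δ * Δ', mul_ne_zero h0 h0', h1.mul h1', ?_⟩
    convert (h2.mul h1').add (h1.mul h2') using 1
    ring
  zero_mem' := ⟨0, 1, one_ne_zero, Bc_one, by simpa using Bc_zero⟩
  neg_mem' := by
    rintro ω ⟨c, Δ, h0, h1, h2⟩
    exact ⟨c, Δ, h0, h1, neg_mul ω Δ ▸ h2.neg⟩
  inv_mem' := by
    rintro ω ⟨c, Δ, h0, h1, h2⟩
    by_cases h : ω = 0
    · exact ⟨0, 1, one_ne_zero, Bc_one, by simpa [h] using Bc_zero⟩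
    · exact ⟨c, ω * Δ, mul_ne_zero h h0, h2, by rwa [inv_mul_cancel_left₀ h]⟩

lemma Bc.mem_FH (h : T.Bc c ω) : ω ∈ T.FH :=
  ⟨c, 1, one_ne_zero, Bc_one.mono (Nat.zero_le _), by simpa using h⟩

lemma exists_common (s : Finset T.Ω) (h : ∀ ω ∈ s, ω ∈ T.FH) :
    ∃ c Δ, Δ ≠ 0 ∧ T.Bc c Δ ∧ ∀ ω ∈ s, T.Bc c (ω * Δ) := by
  classical
  induction s using Finset.induction_on with
  | empty => exact ⟨0, 1, one_ne_zero, Bc_one, by simp⟩
  | insert a s _ ih =>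
    obtain ⟨c, Δ, h0, h1, h2⟩ := ih fun ω hω => h ω (by simp [hω])
    obtain ⟨c', Δ', h0', h1', h2'⟩ := h a (by simp)
    refine ⟨c + c', Δ * Δ', mul_ne_zero h0 h0', h1.mul h1', fun ω hω => ?_⟩
    rcases Finset.mem_insert.1 hω with rfl | hω
    · exact mul_left_comm Δ ω Δ' ▸ h1.mul h2'
    · exact mul_assoc ω Δ Δ' ▸ (h2 ω hω).mul h1'

/-- Mahler's method in the ultralimit field -/
theorem mahler' {σ : Type*} [Fintype σ] (S : Subalgebra T.k0 T.Ω)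
    (hS : ∀ N : ℕ, ∃ s : Finset T.Ω, s.card ≤ N ^ 2 ∧
      ∀ x ∈ S, ∃ y ∈ Submodule.span T.k0 (s : Set T.Ω), T.V (x - y) ≤ 2⁻¹ ^ N)
    (z : Fin 2 → T.Ω) (hz : ∀ i, z i ∈ S) (hz' : ∀ i, z i ∈ T.FH) (f : σ → T.Ω)
    (hf : ∀ i, f i ∈ S) (hi : AlgebraicIndependent T.k0 (Sum.elim z f)) :
    AlgebraicIndependent T.FH f := by
  classical
  refine algebraicIndependent_iff.2 fun P hP => ?_
  let P' := MvPolynomial.map (algebraMap T.FH T.Ω) P
  obtain ⟨c, Δ, h0, h1, h2⟩ := exists_common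
    (Finset.univ.image z ∪ P'.support.image fun μ => P'.coeff μ) (by
      intro ω hω
      simp only [Finset.mem_union, Finset.mem_image] at hω
      rcases hω with ⟨i, -, rfl⟩ | ⟨μ, -, rfl⟩
      · exact hz' i
      · rw [MvPolynomial.coeff_map]
        exact (P.coeff μ).2)
  let B : ℕ → Submodule T.k0 T.Ω := fun D =>
    { carrier := {ω | T.Bc (D * c) (ω * Δ ^ D)}
      add_mem' := fun h h' => by simpa [add_mul] using Bc.add h h'
      zero_mem' := by simpa using Bc_zero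
      smul_mem' := fun r ω h => by
        have := Bc.mul r.2 h
        rw [zero_add, ← mul_assoc] at this
        exact this }
  have hB : ∀ D ω, ω ∈ B D ↔ T.Bc (D * c) (ω * Δ ^ D) := fun _ _ => Iff.rfl
  have hΔ := (h1.bound h0).2
  have hp : (0 : ℝ≥0) < 2 ^ ((T.c * c : ℤ) : ℝ) := NNReal.rpow_pos two_pos
  have := mahler T.V (fun c => V_k0_le c) S hS z hz f hf hi B (by simpa [hB] using Bc_one)
    (monotone_nat_of_le_succ fun D ω hω => by
      rw [hB] at hω ⊢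
      simpa [pow_succ, add_mul, mul_assoc] using hω.mul h1)
    (fun a b x y hx hy => by
      rw [hB] at hx hy ⊢
      convert hx.mul hy using 1 <;> ring)
    (2 ^ (-(T.c * c : ℤ) : ℝ) / 2 ^ ((T.c * c : ℤ) : ℝ))
    (div_ne_zero (NNReal.rpow_pos two_pos).ne' hp.ne')
    (fun D x hx hx0 => by
      have h3 := (Bc.bound ((hB _ _).1 hx) (mul_ne_zero hx0 (pow_ne_zero _ h0))).1
      rw [div_pow, div_le_iff₀ (pow_pos hp _), ← NNReal.rpow_mul_natCast]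
      refine le_trans (le_of_eq ?_) (h3.trans ?_)
      · congr 1
        push_cast
        ring
      · rw [map_mul, map_pow]
        exact mul_le_mul_right (pow_le_pow_left' hΔ _) _)
    (fun i => ⟨1, by simpa [hB] using h2 _ (by simp)⟩) P'
    (fun μ => ⟨1, by
      by_cases hμ : μ ∈ P'.support
      · simpa [hB] using h2 _ (Finset.mem_union_right _ (Finset.mem_image_of_mem _ hμ))
      · rw [MvPolynomial.notMem_support_iff.1 hμ]
        exact zero_mem _⟩)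
    (by rw [MvPolynomial.aeval_map_algebraMap]; exact hP)
  exact MvPolynomial.map_injective _ (algebraMap T.FH T.Ω).injective (this.trans (map_zero _).symm)

end Setup

end Pool.Agent.MP_ee2255_nt.S
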