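import Pool.Agent.MP_ee2255_nt.SAdd

/-! A Kolchin-Ostrowski theorem in characteristic `p`. -/

namespace Pool.Agent.MP_ee2255_nt.S

open MvPolynomial

section Eigen

variable {k ι : Type*} [Field k]

/-- the twisted substitution `X j ↦ α j + a X j` -/
noncomputable def twKO (τ : k →+* k) (a : k) (α : ι → k) :
    MvPolynomial ι k →+* MvPolynomial ι k :=
  eval₂Hom (C.comp τ) fun j => C (α j) + C a * X j

@[simp] lemma twKO_C (τ : k →+* k) (a : k) (α : ι → k) (c : k) :
    twKO τ a α (C c) = C (τ c) := by simp [twKO]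

@[simp] lemma twKO_X (τ : k →+* k) (a : k) (α : ι → k) (j : ι) :
    twKO τ a α (X j) = C (α j) + C a * X j := by simp [twKO]

lemma scale_coeffKO {R : Type*} [CommRing R] (T : R →+* R) (a : R) (Q : MvPolynomial ι R)
    (κ : ι →₀ ℕ) :
    coeff κ (eval₂Hom (C.comp T) (fun j => C a * X j) Q) = a ^ κ.degree * T (coeff κ Q) := by
  classical
  induction Q using MvPolynomial.induction_on' with
  | monomial μ r =>
    have h : eval₂Hom (C.comp T) (fun j => C a * X j) (monomial μ r) =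
        (monomial μ (a ^ μ.degree * T r) : MvPolynomial ι R) := by
      rw [eval₂Hom_monomial, monomial_eq]
      simp only [Finsupp.prod, mul_pow, Finset.prod_mul_distrib, Finset.prod_pow_eq_pow_sum,
        RingHom.comp_apply, map_mul, map_pow, Finsupp.degree_apply]
      ring
    rw [h, coeff_monomial, coeff_monomial]
    split_ifs with e
    · rw [e]
    · simp
  | add P Q hP hQ => simp only [map_add, coeff_add, hP, hQ, mul_add]

lemma shift_twKO (τ : k →+* k) (a : k) (α : ι → k) (P : MvPolynomial ι k) (κ : ι →₀ ℕ) :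
    coeff κ (shift (twKO τ a α P)) = C (a ^ κ.degree) * twKO τ a α (coeff κ (shift P)) := by
  have h : (shift (k := k) (ι := ι)).toRingHom.comp (twKO τ a α) =
      (eval₂Hom (C.comp (twKO τ a α)) (fun j => C (C a) * X j)).comp
        (shift (k := k) (ι := ι)).toRingHom := by
    refine ringHom_ext (fun c => ?_) fun j => ?_
    · simp [shift, MvPolynomial.algebraMap_apply]
    · simp [shift, MvPolynomial.algebraMap_apply]
      ring
  have h1 := RingHom.congr_fun h P
  simp only [RingHom.comp_apply, AlgHom.toRingHom_eq_coe, RingHom.coe_coe] at h1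
  rw [h1, scale_coeffKO, map_pow]

lemma shift_C_mulKO (c : k) (P : MvPolynomial ι k) (κ : ι →₀ ℕ) :
    coeff κ (shift (C c * P)) = C c * coeff κ (shift P) := by
  rw [map_mul, show shift (C c : MvPolynomial ι k) = C (C c) by simp [shift, MvPolynomial.algebraMap_apply],
    coeff_C_mul]

lemma shift_constKO {P : MvPolynomial ι k} {κ : ι →₀ ℕ}
    (h : ∀ ν, ν ≠ 0 → coeff (κ + ν) P = 0) : coeff κ (shift P) = C (coeff κ P) := by
  classical
  ext ν
  rw [coeff_C]
  split_ifs with e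
  · rw [← e, shift_zero_coeff]
  · by_contra h1
    exact shift_support h1 (h ν (Ne.symm e))

lemma coeff_twKO (τ : k →+* k) (a : k) (α : ι → k) {P : MvPolynomial ι k} {κ : ι →₀ ℕ}
    (h : ∀ ν, ν ≠ 0 → coeff (κ + ν) P = 0) :
    coeff κ (twKO τ a α P) = a ^ κ.degree * τ (coeff κ P) := by
  rw [← shift_zero_coeff, shift_twKO, shift_constKO h, twKO_C, ← map_mul, coeff_zero_C]

lemma exp_eqKO {τ : k →+* k} {a : k} (ha : a ≠ 0)
    (hH : ∀ n : ℕ, 1 ≤ n → ∀ c, τ c = a ^ n * c → c = 0) {c : k} (hc : c ≠ 0) {m n : ℕ}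
    (h : a ^ m * τ c = a ^ n * c) : m = n := by
  rcases lt_trichotomy m n with l | l | l
  · obtain ⟨r, rfl⟩ := Nat.exists_eq_add_of_lt l
    refine absurd (hH (r + 1) (by omega) c (mul_left_cancel₀ (pow_ne_zero m ha) ?_)) hc
    rw [h]; ring
  · exact l
  · obtain ⟨r, rfl⟩ := Nat.exists_eq_add_of_lt l
    have hc' : τ c ≠ 0 := (map_ne_zero τ).2 hc
    refine absurd (hH (r + 1) (by omega) c⁻¹ ?_) (inv_ne_zero hc)
    have h1 : a ^ (r + 1) * τ c = c := mul_left_cancel₀ (pow_ne_zero n ha) (by rw [← h]; ring)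
    rw [map_inv₀]
    field_simp
    rw [mul_comm, h1]

lemma top_monoKO {P : MvPolynomial ι k} (hP : P ≠ 0) :
    ∃ κ, coeff κ P ≠ 0 ∧ κ.degree = P.totalDegree ∧ ∀ ν, ν ≠ 0 → coeff (κ + ν) P = 0 := by
  obtain ⟨κ, h1, h2⟩ := Finset.exists_mem_eq_sup P.support (support_nonempty.2 hP)
    fun s : ι →₀ ℕ => s.sum fun _ e => e
  have h3 : κ.degree = P.totalDegree := h2.symm
  refine ⟨κ, mem_support_iff.1 h1, h3, fun ν hν => by_contra fun h4 => ?_⟩
  have h5 : (κ + ν).degree ≤ P.totalDegree := le_totalDegree (mem_support_iff.2 h4)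
  have h6 : ν.degree ≠ 0 := fun e => hν ((Finsupp.degree_eq_zero_iff ν).1 e)
  rw [map_add] at h5
  omega

lemma eigen_degKO {τ : k →+* k} {a : k} (ha : a ≠ 0)
    (hH : ∀ n : ℕ, 1 ≤ n → ∀ c, τ c = a ^ n * c → c = 0) {α : ι → k} {P : MvPolynomial ι k}
    (hP : P ≠ 0) {m n : ℕ} (h : C (a ^ m) * twKO τ a α P = C (a ^ n) * P) :
    m + P.totalDegree = n := by
  obtain ⟨κ, h1, h2, h3⟩ := top_monoKO hP
  have h4 := congrArg (coeff κ) h
  rw [coeff_C_mul, coeff_C_mul, coeff_twKO τ a α h3, ← mul_assoc, ← pow_add, h2] at h4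
  exact exp_eqKO ha hH h1 h4

lemma eigen_addKO [Fintype ι] (p : ℕ) [Fact p.Prime] [CharP k p] {τ : k →+* k} {a : k}
    (ha : a ≠ 0) (hH : ∀ n : ℕ, 1 ≤ n → ∀ c, τ c = a ^ n * c → c = 0) {α : ι → k} (n : ℕ) :
    ∀ P : MvPolynomial ι k, P ≠ 0 → 1 ≤ n → twKO τ a α P = C (a ^ n) * P →
      ∃ (b : ℕ) (c : ι → k) (s : k), c ≠ 0 ∧ (∀ j, τ (c j) = c j) ∧
        twKO τ a α (C s + ∑ j, C (c j) * X j ^ p ^ b) =
          C (a ^ p ^ b) * (C s + ∑ j, C (c j) * X j ^ p ^ b) := by
  classical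
  induction n using Nat.strong_induction_on with
  | _ n ih =>
  intro P hP hn h
  have h1 : ∀ κ : ι →₀ ℕ, C (a ^ κ.degree) * twKO τ a α (coeff κ (shift P)) =
      C (a ^ n) * coeff κ (shift P) := fun κ => by rw [← shift_twKO, h, shift_C_mulKO]
  have h2 : ∀ κ : ι →₀ ℕ, coeff κ (shift P) ≠ 0 → twKO τ a α (coeff κ (shift P)) =
      C (a ^ (coeff κ (shift P)).totalDegree) * coeff κ (shift P) := fun κ hκ => by
    refine mul_left_cancel₀ (a := C (a ^ κ.degree)) (by simp [ha]) ?_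
    rw [h1, ← mul_assoc, ← map_mul, ← pow_add, eigen_degKO ha hH hκ (h1 κ)]
  by_cases h3 : ∃ κ : ι →₀ ℕ, κ ≠ 0 ∧ coeff κ (shift P) ≠ 0 ∧ 1 ≤ (coeff κ (shift P)).totalDegree
  · obtain ⟨κ, e1, e2, e3⟩ := h3
    have e4 := eigen_degKO ha hH e2 (h1 κ)
    have e5 : κ.degree ≠ 0 := fun e => e1 ((Finsupp.degree_eq_zero_iff κ).1 e)
    exact ih _ (by omega) _ e2 e3 (h2 κ e2)
  have h4 : ∀ κ : ι →₀ ℕ, κ ≠ 0 → (coeff κ (shift P)).totalDegree = 0 := fun κ hκ => by
    by_contra e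
    refine h3 ⟨κ, hκ, fun e1 => e ?_, by omega⟩
    rw [e1, totalDegree_zero]
  have h5 : ∀ κ : ι →₀ ℕ, κ ≠ 0 → coeff κ (shift P) = C (coeff κ P) := fun κ hκ => by
    rw [← shift_zero_coeff]
    exact totalDegree_eq_zero_iff_eq_C.1 (h4 κ hκ)
  have h6 : ∀ κ : ι →₀ ℕ, κ ≠ 0 → coeff κ P ≠ 0 → κ.degree = n := fun κ hκ e => by
    have := eigen_degKO ha hH (P := coeff κ (shift P)) (by rw [h5 κ hκ]; simpa using e) (h1 κ)
    rwa [h4 κ hκ] at this
  have h7 : ∀ κ : ι →₀ ℕ, κ ≠ 0 → τ (coeff κ P) = coeff κ P := fun κ hκ => by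
    by_cases e : coeff κ P = 0
    · rw [e, map_zero]
    · have := h2 κ (by rw [h5 κ hκ]; simpa using e)
      rw [h4 κ hκ, h5 κ hκ] at this
      simpa using this
  have h8 : ∀ μ, coeff μ P ≠ 0 → μ = 0 ∨ ∃ j b, μ = Finsupp.single j (p ^ b) := fun μ hμ =>
    add_form p (fun κ hκ => ⟨_, h5 κ hκ⟩) hμ
  obtain ⟨κ, e1, e2, -⟩ := top_monoKO hP
  have e3 : P.totalDegree = n := by
    have := eigen_degKO ha hH hP (m := 0) (n := n) (α := α) (by rw [← h]; simp)
    omega
  have e4 : κ ≠ 0 := fun e => by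
    rw [e, map_zero] at e2
    omega
  obtain ⟨j, b, rfl⟩ := (h8 κ e1).resolve_left e4
  rw [Finsupp.degree_single, e3] at e2
  have hq : p ^ b ≠ 0 := by omega
  have e5 : P = C (coeff 0 P) + ∑ j, C (coeff (Finsupp.single j (p ^ b)) P) * X j ^ p ^ b := by
    ext μ
    simp only [coeff_add, coeff_sum, C_mul_X_pow_eq_monomial, coeff_monomial, coeff_C]
    by_cases e : 0 = μ
    · rw [if_pos e, ← e, Finset.sum_eq_zero fun i _ => if_neg (by simpa using hq), add_zero]
    rw [if_neg e, zero_add]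
    by_cases e6 : ∃ i, Finsupp.single i (p ^ b) = μ
    · obtain ⟨i, rfl⟩ := e6
      rw [Finset.sum_eq_single i (fun i' _ hi => if_neg fun e7 =>
        hi (Finsupp.single_left_injective hq e7)) (fun e7 => absurd (Finset.mem_univ _) e7),
        if_pos rfl]
    · rw [Finset.sum_eq_zero fun i _ => if_neg fun e7 => e6 ⟨i, e7⟩]
      by_contra e7
      obtain ⟨i, b', rfl⟩ := (h8 μ e7).resolve_left (Ne.symm e)
      have e8 := h6 _ (Ne.symm e) e7
      rw [Finsupp.degree_single, ← e2] at e8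
      exact e6 ⟨i, by rw [e8]⟩
  refine ⟨b, fun j => coeff (Finsupp.single j (p ^ b)) P, coeff 0 P, fun e => e1 (congrFun e j),
    fun i => h7 _ (by simpa using hq), ?_⟩
  rw [← e5, e2, h]

lemma exists_eigenKO [Finite ι] (τ : k →+* k) (a : k) (α : ι → k)
    (I : Submodule k (MvPolynomial ι k)) (hI : I ≠ ⊥) (hT : ∀ P ∈ I, twKO τ a α P ∈ I) :
    ∃ P ∈ I, P ≠ 0 ∧ ∃ d : ℕ, twKO τ a α P = C (a ^ d) * P := by
  obtain ⟨P, hP, μ₀, lt, h1, h2, h3, h4, -, h6⟩ := exists_min I hI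
  refine ⟨P, hP, fun e => by simp [e] at h1, μ₀.degree, sub_eq_zero.1 (h6 _ ?_ fun ν hν => ?_)⟩
  · rw [C_mul']
    exact I.sub_mem (hT P hP) (I.smul_mem _ hP)
  by_contra e
  refine hν ?_
  rw [coeff_sub, coeff_C_mul, coeff_twKO τ a α fun κ hκ => by_contra fun e1 =>
    e (h4 ν κ hκ (h3 _ e1))]
  by_cases e2 : coeff ν P = 0
  · simp [e2]
  · rw [(h3 ν e2).resolve_right e, h1, map_one, sub_self]

end Eigen

section Main

variable {N ι : Type*} [Field N] {σ : N →+* N} {M : Subfield N}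

lemma sigma_aevalKO {τ : M →+* M} (hτ : ∀ x : M, (τ x : N) = σ x) {a : M} {f : ι → N} {α : ι → M}
    (hf : ∀ j, σ (f j) = α j + a * f j) (P : MvPolynomial ι M) :
    σ (aeval f P) = aeval f (twKO τ a α P) := by
  induction P using MvPolynomial.induction_on with
  | C c => simp [hτ, Subfield.algebraMap_ofSubfield]
  | add P Q hP hQ => simp only [map_add, hP, hQ]
  | mul_X P j hP => simp [hP, hf, Subfield.algebraMap_ofSubfield]

lemma dep_eigenKO [Finite ι] {τ : M →+* M} (hτ : ∀ x : M, (τ x : N) = σ x) {a : M} {f : ι → N}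
    {α : ι → M} (hf : ∀ j, σ (f j) = α j + a * f j) (h : ¬ AlgebraicIndependent M f) :
    ∃ P : MvPolynomial ι M, aeval f P = 0 ∧ P ≠ 0 ∧ ∃ d : ℕ, twKO τ a α P = C (a ^ d) * P := by
  refine exists_eigenKO τ a α (LinearMap.ker (aeval f : MvPolynomial ι M →ₐ[M] N).toLinearMap)
    (fun e => h (LinearMap.ker_eq_bot.1 e)) fun P hP => ?_
  have h1 : aeval f P = 0 := hP
  change aeval f (twKO τ a α P) = 0
  rw [← sigma_aevalKO hτ hf, h1, map_zero]

lemma zero_eigenKO {τ : M →+* M} {a : M} (ha : a ≠ 0)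
    (hH : ∀ n : ℕ, 1 ≤ n → ∀ c, τ c = a ^ n * c → c = 0) {f : ι → N} {α : ι → M}
    {P : MvPolynomial ι M} (h1 : aeval f P = 0) (h2 : P ≠ 0) {d : ℕ}
    (h : twKO τ a α P = C (a ^ d) * P) : 1 ≤ d := by
  by_contra e
  have h3 := eigen_degKO ha hH h2 (m := 0) (n := d) (α := α) (by rw [← h]; simp)
  have h4 := totalDegree_eq_zero_iff_eq_C.1 (show P.totalDegree = 0 by omega)
  rw [h4, aeval_C, map_eq_zero] at h1
  exact h2 (by rw [h4, h1, map_zero])

lemma drop_eigenKO {τ : M →+* M} {a : M} (ha : a ≠ 0)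
    (hH : ∀ n : ℕ, 1 ≤ n → ∀ c, τ c = a ^ n * c → c = 0) {f : ι → N} {α : ι → M} {i : ι}
    (hi : f i ≠ 0) (hα : α i = 0) (d : ℕ) : ∀ P : MvPolynomial ι M, aeval f P = 0 → P ≠ 0 →
      twKO τ a α P = C (a ^ d) * P → ∃ (n : ℕ) (Q : MvPolynomial {j // j ≠ i} M), Q ≠ 0 ∧ 1 ≤ n ∧
        twKO τ a (fun j : {j // j ≠ i} => α j) Q = C (a ^ n) * Q := by
  classical
  let π : MvPolynomial ι M →ₐ[M] MvPolynomial {j // j ≠ i} M :=
    aeval fun j => if h : j = i then 0 else X ⟨j, h⟩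
  have hπ : ∀ P, π (twKO τ a α P) = twKO τ a (fun j : {j // j ≠ i} => α j) (π P) := fun P => by
    induction P using MvPolynomial.induction_on with
    | C c => simp [π]
    | add P Q hP hQ => simp only [map_add, hP, hQ]
    | mul_X P j hP =>
      rw [map_mul, map_mul, map_mul, map_mul, hP]
      congr 1
      by_cases e : j = i
      · simp [π, e, hα]
      · simp [π, e]
  have hd : ∀ P, X i ∣ P - rename Subtype.val (π P) := fun P => by
    induction P using MvPolynomial.induction_on with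
    | C c => simp [π]
    | add P Q hP hQ =>
      rw [map_add, map_add, add_sub_add_comm]
      exact dvd_add hP hQ
    | mul_X P j hP =>
      rw [map_mul, map_mul]
      by_cases e : j = i
      · simp [π, e]
      · have : rename Subtype.val (π (X j)) = X j := by simp [π, e]
        rw [this, ← sub_mul]
        exact hP.mul_right _
  induction d with
  | zero => exact fun P h1 h2 h => absurd (zero_eigenKO ha hH h1 h2 h) (by omega)
  | succ d ih =>
    intro P h1 h2 h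
    by_cases e : π P = 0
    · obtain ⟨Q, hQ⟩ := hd P
      rw [e, map_zero, sub_zero] at hQ
      subst hQ
      rw [map_mul, aeval_X] at h1
      refine ih Q ((mul_eq_zero.1 h1).resolve_left hi) (right_ne_zero_of_mul h2) ?_
      refine mul_left_cancel₀ (a := C a * X i) (mul_ne_zero (by simp [ha]) (X_ne_zero i)) ?_
      rw [map_mul, twKO_X, hα, map_zero, zero_add] at h
      rw [h, pow_succ, map_mul]
      ring
    · refine ⟨d + 1, π P, e, by omega, ?_⟩
      rw [← hπ, h, map_mul]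
      simp [π]

lemma indep_changeKO {k : Type*} [Field k] [Algebra k N] [Fintype ι] {g u : ι → N} {c : ι → k}
    {s : k} {i : ι} (hi : c i ≠ 0) (h1 : ∀ j, j ≠ i → g j = u j)
    (h2 : g i = algebraMap k N s + ∑ j, algebraMap k N (c j) * u j)
    (hg : AlgebraicIndependent k g) : AlgebraicIndependent k u := by
  classical
  obtain ⟨G, hG1⟩ : ∃ G : ι → MvPolynomial ι k, ∀ j, G j = if j = i then
    C (c i)⁻¹ * (X i - C s - ∑ l ∈ Finset.univ.erase i, C (c l) * X l) else X j := ⟨_, fun _ => rfl⟩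
  obtain ⟨G', hG2⟩ : ∃ G' : ι → MvPolynomial ι k, ∀ j, G' j =
    if j = i then C s + ∑ l, C (c l) * X l else X j := ⟨_, fun _ => rfl⟩
  have hG : (aeval G').comp (aeval G) = AlgHom.id k (MvPolynomial ι k) := by
    refine algHom_ext fun j => ?_
    rw [AlgHom.comp_apply, aeval_X, AlgHom.id_apply, hG1]
    by_cases e : j = i
    · have e4 : ∑ l ∈ Finset.univ.erase i, C (c l) * G' l =
          ∑ l ∈ Finset.univ.erase i, C (c l) * X l :=
        Finset.sum_congr rfl fun l hl => by rw [hG2, if_neg (Finset.mem_erase.1 hl).1]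
      have e5 := Finset.add_sum_erase Finset.univ
        (fun l => (C (c l) * X l : MvPolynomial ι k)) (Finset.mem_univ i)
      have e6 : (C (c i)⁻¹ * C (c i) : MvPolynomial ι k) = 1 := by
        rw [← map_mul, inv_mul_cancel₀ hi, map_one]
      rw [if_pos e]
      simp only [map_mul, map_sub, map_sum, aeval_C, aeval_X, algebraMap_eq, e4]
      rw [hG2, if_pos rfl, ← e5, e]
      linear_combination X i * e6
    · rw [if_neg e, aeval_X, hG2, if_neg e]
  have hGi : AlgebraicIndependent k G := algebraicIndependent_iff.2 fun P hP => by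
    have := AlgHom.congr_fun hG P
    rw [AlgHom.comp_apply, hP, map_zero] at this
    exact this.symm
  have e7 := hg.aeval_of_algebraicIndependent hGi
  have e8 : u = fun j => aeval g (G j) := by
    funext j
    rw [hG1]
    by_cases e : j = i
    · have e4 : ∑ l ∈ Finset.univ.erase i, algebraMap k N (c l) * g l =
          ∑ l ∈ Finset.univ.erase i, algebraMap k N (c l) * u l :=
        Finset.sum_congr rfl fun l hl => by rw [h1 l (Finset.mem_erase.1 hl).1]
      have e5 := Finset.add_sum_erase Finset.univ (fun l => algebraMap k N (c l) * u l)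
        (Finset.mem_univ i)
      have e6 : algebraMap k N (c i)⁻¹ * algebraMap k N (c i) = 1 := by
        rw [← map_mul, inv_mul_cancel₀ hi, map_one]
      rw [if_pos e]
      simp only [map_mul, map_sub, map_sum, aeval_C, aeval_X, e4]
      rw [h2, ← e5, e]
      linear_combination (-u i) * e6
    · rw [if_neg e, aeval_X, h1 j e]
  rw [e8]
  exact e7

end Main

theorem ko {N ι : Type*} [Field N] [Fintype ι] (p : ℕ) [Fact p.Prime] [CharP N p]
    (σ : N →+* N) (M : Subfield N) (hM : ∀ x ∈ M, σ x ∈ M) {a : N} (ha : a ∈ M) (ha0 : a ≠ 0)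
    (hC : ∀ x, σ x = x → x ∈ M)
    (hH : ∀ n : ℕ, 1 ≤ n → ∀ c ∈ M, σ c = a ^ n * c → c = 0)
    (f α : ι → N) (hα : ∀ j, α j ∈ M) (hf : ∀ j, σ (f j) = α j + a * f j)
    (h2 : ∀ (b : ℕ) (c : ι → N), (∀ j, σ (c j) = c j) → ∑ j, c j * f j ^ p ^ b ∈ M → c = 0) :
    AlgebraicIndependent M f := by
  classical
  by_contra hdep
  lift a to M using ha
  lift α to ι → M using hα
  let τ : M →+* M := σ.restrict M M hM
  have hτ : ∀ x : M, (τ x : N) = σ x := fun x => rfl
  have ha1 : a ≠ 0 := fun e => ha0 (by rw [e]; rfl)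
  have hH1 : ∀ n : ℕ, 1 ≤ n → ∀ c, τ c = a ^ n * c → c = 0 := fun n hn c hc =>
    Subtype.ext (hH n hn c c.2 (by rw [← hτ, hc]; simp))
  obtain ⟨P, e1, e2, d, e3⟩ := dep_eigenKO hτ hf hdep
  obtain ⟨b, c, s, hc, hcτ, hQ⟩ := eigen_addKO p ha1 hH1 d P e2 (zero_eigenKO ha1 hH1 e1 e2 e3) e3
  have hcσ : ∀ j, σ (c j) = c j := fun j => by rw [← hτ, hcτ]
  obtain ⟨h, hh⟩ : ∃ h : N, h = s + ∑ j, c j * f j ^ p ^ b := ⟨_, rfl⟩
  have hhσ : σ h = (a ^ p ^ b : M) * h := by
    have := sigma_aevalKO hτ hf (C s + ∑ j, C (c j) * X j ^ p ^ b)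
    rw [hQ] at this
    simpa [hh, Subfield.algebraMap_ofSubfield] using this
  have hh0 : h ≠ 0 := fun e => by
    have := h2 b (fun j => c j) hcσ (by
      rw [show ∑ j, (c j : N) * f j ^ p ^ b = -s by rw [eq_neg_iff_add_eq_zero, add_comm, ← hh, e]]
      exact M.neg_mem s.2)
    exact hc (funext fun j => Subtype.ext (congrFun this j))
  obtain ⟨i, hi⟩ := Function.ne_iff.1 hc
  have hi0 : (c i : N) ≠ 0 := fun e => hi (Subtype.ext e)
  have hfq : ∀ j, σ (f j ^ p ^ b) = (α j ^ p ^ b : M) + (a ^ p ^ b : M) * f j ^ p ^ b := fun j => by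
    rw [map_pow, hf, add_pow_char_pow, mul_pow]
    simp
  have hH2 : ∀ n : ℕ, 1 ≤ n → ∀ c, τ c = (a ^ p ^ b) ^ n * c → c = 0 := fun n hn c hc =>
    hH1 (p ^ b * n) (Nat.mul_pos (pow_pos (Fact.out : p.Prime).pos b) hn) c (by rw [hc, pow_mul])
  let g : ι → N := fun j => if j = i then h else f j ^ p ^ b
  let β : ι → M := fun j => if j = i then 0 else α j ^ p ^ b
  have hg : ∀ j, σ (g j) = β j + (a ^ p ^ b : M) * g j := fun j => by
    by_cases e : j = i
    · simp only [g, β, if_pos e, hhσ]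
      simp
    · simp only [g, β, if_neg e, hfq]
  have hgd : ¬ AlgebraicIndependent M g := fun hgi => by
    refine hdep (AlgebraicIndependent.of_ringHom_of_comp_eq (iterateFrobenius M p b)
      (iterateFrobenius N p b) ?_ (RingHom.injective _) ?_)
    · exact indep_changeKO (u := fun j => f j ^ p ^ b) hi (fun j e => if_neg e)
        ((if_pos rfl).trans hh) hgi
    · ext x
      simp [iterateFrobenius_def, Subfield.algebraMap_ofSubfield]
  obtain ⟨P', e4, e5, d', e6⟩ := dep_eigenKO hτ hg hgd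
  obtain ⟨n, Q, e7, e8, e9⟩ := drop_eigenKO (pow_ne_zero _ ha1) hH2 (f := g) (α := β) (i := i)
    (by simpa [g] using hh0) (by simp [β]) d' P' e4 e5 e6
  obtain ⟨b', c', s', hc', hcτ', hQ'⟩ := eigen_addKO p (pow_ne_zero _ ha1) hH2 n Q e7 e8 e9
  obtain ⟨h', hh'⟩ : ∃ h' : N, h' = s' + ∑ j : {j // j ≠ i}, c' j * g j ^ p ^ b' := ⟨_, rfl⟩
  have hhσ' : σ h' = ((a ^ p ^ b) ^ p ^ b' : M) * h' := by
    have := sigma_aevalKO hτ (f := fun j : {j // j ≠ i} => g j) (fun j => hg j)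
      (C s' + ∑ j, C (c' j) * X j ^ p ^ b')
    rw [hQ'] at this
    simpa [hh', Subfield.algebraMap_ofSubfield] using this
  obtain ⟨r, hr⟩ : ∃ r : N, r = h' / h ^ p ^ b' := ⟨_, rfl⟩
  have hrσ : σ r = r := by
    rw [hr, map_div₀, map_pow, hhσ, hhσ', mul_pow]
    simp only [SubmonoidClass.coe_pow]
    exact mul_div_mul_left _ _ (pow_ne_zero _ (pow_ne_zero _ ha0))
  let c'' : ι → N := fun j => if e : j = i then 0 else c' ⟨j, e⟩
  have f1 : ∑ j, c'' j * f j ^ p ^ (b + b') = h' - s' := by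
    rw [hh', add_sub_cancel_left, Fintype.sum_eq_add_sum_subtype_ne _ i]
    simp only [c'', dif_pos rfl, zero_mul, zero_add]
    refine Finset.sum_congr rfl fun j _ => ?_
    simp only [g, dif_neg j.2, if_neg j.2, pow_add, pow_mul]
  have f2 : ∑ j, (c j : N) ^ p ^ b' * f j ^ p ^ (b + b') = h ^ p ^ b' - s ^ p ^ b' := by
    rw [hh, add_pow_char_pow, add_sub_cancel_left, sum_pow_char_pow]
    simp only [mul_pow, pow_add, pow_mul]
  have f3 := h2 (b + b') (fun j => c'' j - r * c j ^ p ^ b') (fun j => by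
    rw [map_sub, map_mul, map_pow, hrσ, hcσ]
    congr 1
    by_cases e : j = i
    · simp [c'', e]
    · simp only [c'', dif_neg e]
      rw [← hτ, hcτ']) (by
    simp only [sub_mul, mul_assoc, Finset.sum_sub_distrib, ← Finset.mul_sum, f1, f2]
    rw [show h' - s' - r * (h ^ p ^ b' - s ^ p ^ b') = r * s ^ p ^ b' - s' by
      rw [hr]; field_simp; ring]
    exact M.sub_mem (M.mul_mem (hC r hrσ) (M.pow_mem s.2 _)) s'.2)
  have f4 : r = 0 := by
    have := congrFun f3 i
    simpa [c'', hi0] using this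
  refine hc' (funext fun j => Subtype.ext ?_)
  have := congrFun f3 j
  simpa [c'', f4, j.2] using this

end Pool.Agent.MP_ee2255_nt.S
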