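import Pool.Agent.MP_ee2255_nt.SLog1

/-! Algebraic independence of Anderson generating functions. -/

namespace Pool.Agent.MP_ee2255_nt.S

open Polynomial

section TC
variable {E : Type*} [Field E]

/-- Exchange of the two variables. -/
noncomputable def slogT0 (E : Type*) [Field E] :
    PowerSeries E[X] →+* PowerSeries (PowerSeries E) where
  toFun x := PowerSeries.mk fun i => PowerSeries.mk fun n => (PowerSeries.coeff n x).coeff i
  map_one' := by
    ext i n
    simp only [PowerSeries.coeff_mk, PowerSeries.coeff_one]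
    split_ifs <;> simp [*, coeff_one, PowerSeries.coeff_one]
  map_mul' x y := by
    ext i n
    simp only [PowerSeries.coeff_mk, PowerSeries.coeff_mul, finset_sum_coeff, coeff_mul, map_sum]
    exact Finset.sum_comm
  map_zero' := by ext i n; simp
  map_add' x y := by ext i n; simp

lemma slogT0_coeff (x : PowerSeries E[X]) (i n : ℕ) :
    PowerSeries.coeff n (PowerSeries.coeff i (slogT0 E x)) = (PowerSeries.coeff n x).coeff i := by
  simp [slogT0]

/-- The embedding in power series over the Laurent series field. -/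
noncomputable def slogT (E : Type*) [Field E] :
    PowerSeries E[X] →+* PowerSeries (LaurentSeries E) :=
  (PowerSeries.map (HahnSeries.ofPowerSeries ℤ E)).comp (slogT0 E)

lemma slogT_coeff (x : PowerSeries E[X]) (i : ℕ) :
    PowerSeries.coeff i (slogT E x) =
      HahnSeries.ofPowerSeries ℤ E (PowerSeries.coeff i (slogT0 E x)) := by
  simp [slogT]

lemma slogT_injective : Function.Injective (slogT E) := by
  intro x y h
  ext n i
  rw [← slogT0_coeff, ← slogT0_coeff]
  congr 1
  apply HahnSeries.ofPowerSeries_injective (Γ := ℤ)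
  rw [← slogT_coeff, ← slogT_coeff, h]

lemma slogT_map_C (y : PowerSeries E) :
    slogT E (PowerSeries.map C y) = PowerSeries.C (HahnSeries.ofPowerSeries ℤ E y) := by
  refine PowerSeries.ext fun i => ?_
  have : PowerSeries.coeff i (slogT0 E (PowerSeries.map C y)) = if i = 0 then y else 0 := by
    ext n
    rw [slogT0_coeff, PowerSeries.coeff_map, coeff_C]
    split_ifs <;> simp
  rw [slogT_coeff, this, PowerSeries.coeff_C]
  split_ifs <;> simp

lemma slogT_C (r : E[X]) : slogT E (PowerSeries.C r) =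
    ((r.map ((HahnSeries.ofPowerSeries ℤ E).comp PowerSeries.C) : (LaurentSeries E)[X]) :
      PowerSeries (LaurentSeries E)) := by
  refine PowerSeries.ext fun i => ?_
  rw [slogT_coeff, coeff_coe, coeff_map, RingHom.comp_apply]
  congr 1
  ext n
  rw [slogT0_coeff, PowerSeries.coeff_C, PowerSeries.coeff_C]
  split_ifs <;> simp

lemma slogT_S (p : ℕ) [Fact p.Prime] [CharP E p] [CharP (LaurentSeries E) p] (f : ℕ)
    (hq : p ^ f ≠ 0) (x : PowerSeries E[X]) :
    slogT E (slogS (p ^ f) hq (mapRingHom (iterateFrobenius E p f)) x) =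
      PowerSeries.map (iterateFrobenius (LaurentSeries E) p f) (slogT E x) := by
  refine PowerSeries.ext fun i => ?_
  rw [PowerSeries.coeff_map, slogT_coeff, slogT_coeff, iterateFrobenius_def, ← map_pow, slog_pow]
  congr 1
  ext n
  rw [slogT0_coeff, slogS_apply, PowerSeries.coeff_expand, PowerSeries.coeff_expand]
  split_ifs
  · simp [slogT0_coeff]
  · simp

end TC

theorem log_indep {F E κ : Type*} [Field F] [Fintype F] [Field E] [Algebra F E] [Fintype κ]
    {θ : LaurentSeries E} (hθ : θ.order < 0) (a : κ → ℕ → LaurentSeries E)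
    (ha : ∀ j i, a j i = θ * a j (i + 1) + a j (i + 1) ^ Fintype.card F)
    (η : LaurentSeries E) (hη : η ≠ 0) (hC : ∀ j i (n : ℤ), n < 0 → (η * a j i).coeff n = 0)
    (A : κ → PowerSeries E[X])
    (hA : ∀ j (n : ℕ) i, (PowerSeries.coeff n (A j)).coeff i = (η * a j (i + 1)).coeff n)
    (hind : ∀ (d : ℕ) (c : κ → ℕ → F), (∃ n₀, ∀ n ≥ n₀, ∑ j, ∑ l ∈ Finset.range d,
      algebraMap F (LaurentSeries E) (c j l) * a j (n + d - l) = 0) → ∀ j, ∀ l < d, c j l = 0)
    (ϑ : PowerSeries E) (hϑ : (ϑ : LaurentSeries E) = θ⁻¹) :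
    @AlgebraicIndependent (Option κ) E[X] (PowerSeries E[X])
      (fun o => o.elim (PowerSeries.map C ϑ) A) _ _ MvPowerSeries.instAlgebra := by
  classical
  letI : Algebra E[X] (PowerSeries E[X]) := MvPowerSeries.instAlgebra
  obtain ⟨p, hp⟩ := CharP.exists F
  have : Fact p.Prime := ⟨CharP.char_is_prime F p⟩
  obtain ⟨⟨f, hf0⟩, -, hf⟩ := FiniteField.card F p
  simp only [PNat.mk_coe] at hf
  have hq1 : 1 < p ^ f := hf ▸ Fintype.one_lt_card
  have hq : p ^ f ≠ 0 := by omega
  have : CharP E p := charP_of_injective_algebraMap (algebraMap F E).injective p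
  have : CharP (LaurentSeries E) p :=
    charP_of_injective_algebraMap (algebraMap F (LaurentSeries E)).injective p
  obtain ⟨φ, hφ⟩ : ∃ φ, φ = iterateFrobenius (LaurentSeries E) p f := ⟨_, rfl⟩
  have hφ' : ∀ x, φ x = x ^ Fintype.card F := fun x => by rw [hφ, hf, iterateFrobenius_def]
  obtain ⟨Ω, _, al, σ, hal, hσ⟩ : ∃ (Ω : Type _) (_ : Field Ω)
      (al : PowerSeries (LaurentSeries E) →+* Ω) (σ : Ω →+* Ω), Function.Injective al ∧
      ∀ y, σ (al y) = al (PowerSeries.map φ y) :=
    ⟨FractionRing (PowerSeries (LaurentSeries E)), inferInstance, algebraMap _ _,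
      IsFractionRing.lift (g := (algebraMap _ _).comp (PowerSeries.map φ))
        ((IsFractionRing.injective _ _).comp (PowerSeries.map_injective φ φ.injective)),
      IsFractionRing.injective _ _, fun y => IsFractionRing.lift_algebraMap _ y⟩
  obtain ⟨gM, hgM⟩ : ∃ gM : (LaurentSeries E)[X] →+* Ω, ∀ B, gM B = al B :=
    ⟨al.comp coeToPowerSeries.ringHom, fun _ => rfl⟩
  obtain ⟨gN, hgN⟩ : ∃ gN : PowerSeries E[X] →+* Ω, ∀ x, gN x = al (slogT E x) :=
    ⟨al.comp (slogT E), fun _ => rfl⟩
  have iM : Function.Injective gM := fun x y h => by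
    rw [hgM, hgM] at h
    exact coe_injective _ (hal h)
  have iN : Function.Injective gN := fun x y h => by
    rw [hgN, hgN] at h
    exact slogT_injective (hal h)
  have : CharP Ω p := charP_of_injective_ringHom (gM.comp C).injective p
  have hσM : ∀ B, σ (gM B) = gM (B.map φ) := fun B => by
    rw [hgM, hgM, hσ]
    congr 1
    ext1 i
    simp
  have hσN : ∀ x, σ (gN x) = gN (slogS (p ^ f) hq (mapRingHom (iterateFrobenius E p f)) x) :=
    fun x => by rw [hgN, hgN, hσ, slogT_S, hφ]
  have e1 : ∀ y, gN (PowerSeries.map C y) = gM (C (HahnSeries.ofPowerSeries ℤ E y)) := fun y => by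
    rw [hgN, hgM, slogT_map_C, coe_C]
  have e2 : ∀ r, gN (PowerSeries.C r) =
      gM (r.map ((HahnSeries.ofPowerSeries ℤ E).comp PowerSeries.C)) := fun r => by
    rw [hgN, hgM, slogT_C]
  have hCN : ∀ c, gM (C c) ∈ slogFr gN := fun c => by
    obtain ⟨y, z, -, rfl⟩ := IsFractionRing.div_surjective (PowerSeries E) c
    have := map_div₀ (gM.comp C) (algebraMap (PowerSeries E) _ y) (algebraMap (PowerSeries E) _ z)
    simp only [RingHom.comp_apply] at this
    rw [this, LaurentSeries.coe_algebraMap, ← e1, ← e1]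
    exact div_mem (slog_self _ _) (slog_self _ _)
  have hMN : slogFr gM ≤ slogFr gN := by
    refine Subfield.closure_le.2 ?_
    rintro _ ⟨B, rfl⟩
    induction B using Polynomial.induction_on' with
    | add u v hu hv => rw [map_add]; exact add_mem hu hv
    | monomial n c =>
      rw [← C_mul_X_pow_eq_monomial, map_mul, map_pow]
      refine mul_mem (hCN c) (pow_mem ?_ n)
      have := e2 X
      rw [map_X] at this
      rw [← this]
      exact slog_self _ _
  have hfix : ∀ x ∈ slogFr gN, σ x = x → x ∈ slogFr gM := fun x hx h => by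
    obtain ⟨U, V, hV, e⟩ := slog_mem.1 hx
    have e' := congrArg σ e
    rw [map_mul, h, hσN, hσN] at e'
    obtain ⟨U₀, V₀, h0, h1⟩ := slog_T0fix hq hq1 (s := mapRingHom (iterateFrobenius E p f))
      (map_injective _ (iterateFrobenius E p f).injective) (A := U) (B := V)
      (fun h0 => hV (by rw [h0, map_zero])) (iN (by rw [map_mul, map_mul, ← e', ← e]; ring))
    refine slog_mem.2 ⟨U₀.map ((HahnSeries.ofPowerSeries ℤ E).comp PowerSeries.C),
      V₀.map ((HahnSeries.ofPowerSeries ℤ E).comp PowerSeries.C), ?_, ?_⟩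
    · rw [← e2]
      exact (map_ne_zero_iff gN iN).2 ((map_ne_zero_iff _ PowerSeries.C_injective).2 h0)
    · rw [← e2, ← e2]
      apply mul_right_cancel₀ hV
      rw [← map_mul, ← h1, map_mul, ← e]
      ring
  obtain ⟨g, hg⟩ : ∃ g : κ → Ω, ∀ j, g j = al (PowerSeries.mk fun i => a j (i + 1)) :=
    ⟨_, fun _ => rfl⟩
  have hη' : gM (C η) ≠ 0 := (map_ne_zero (gM.comp C)).2 hη
  have hAg : ∀ j, gN (A j) = gM (C η) * g j := fun j => by
    rw [hgN, hgM, hg, ← map_mul, coe_C]
    congr 1
    refine PowerSeries.ext fun i => ?_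
    rw [slogT_coeff, PowerSeries.coeff_C_mul, PowerSeries.coeff_mk]
    ext n
    rw [PowerSeries.coeff_coe]
    split_ifs with h
    · exact (hC j _ n h).symm
    · rw [slogT0_coeff, hA, Int.natAbs_of_nonneg (not_lt.1 h)]
  have hrec : ∀ j, σ (g j) = gM (C (a j 0)) + gM (X - C θ) * g j := fun j => by
    rw [hg, hσ, hgM, hgM, ← map_mul, ← map_add, coe_sub, coe_C, coe_C, coe_X]
    congr 1
    refine PowerSeries.ext fun i => ?_
    rw [PowerSeries.coeff_map, PowerSeries.coeff_mk, hφ', sub_mul, map_add, map_sub,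
      PowerSeries.coeff_C_mul, PowerSeries.coeff_mk]
    cases i with
    | zero =>
      rw [PowerSeries.coeff_zero_C, PowerSeries.coeff_zero_X_mul]
      linear_combination (-1 : LaurentSeries E) * ha j 0
    | succ i =>
      rw [PowerSeries.coeff_succ_C, PowerSeries.coeff_succ_X_mul, PowerSeries.coeff_mk]
      linear_combination (-1 : LaurentSeries E) * ha j (i + 1)
  have main : AlgebraicIndependent (slogFr gM) g := by
    refine slog_ko p σ (slogFr gN) (slogFr gM) (slog_stable σ _ hσN) hMN
      (slog_stable σ (mapRingHom φ) hσM) (slog_self gM (X - C θ))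
      ((map_ne_zero_iff gM iM).2 (X_sub_C_ne_zero θ)) hfix (slog_hH iM φ σ hσM θ) g
      (fun j => gM (C (a j 0))) (fun j => ?_) (fun j => slog_self _ _) hrec fun b c hc hc' hs => ?_
    · rw [eq_div_of_mul_eq hη' ((mul_comm _ _).trans (hAg j).symm)]
      exact div_mem (slog_self _ _) (hCN η)
    have h1 : ∀ j, ∃ U V : (LaurentSeries E)[X], V ≠ 0 ∧ V.map φ = V ∧ c j * gM V = gM U :=
      fun j => slog_den iM φ σ hσM (hc j) (u := 0) (v := 1) (by simp [hc'])
    choose U V hV0 hV hU using h1
    obtain ⟨B, hB0, hB, W, hW⟩ : ∃ B : (LaurentSeries E)[X], B ≠ 0 ∧ B.map φ = B ∧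
        ∃ W : κ → (LaurentSeries E)[X], ∀ j, c j * gM B = gM (W j) := by
      refine ⟨∏ j, V j, Finset.prod_ne_zero_iff.2 fun j _ => hV0 j, ?_,
        fun j => U j * ∏ i ∈ Finset.univ.erase j, V i, fun j => ?_⟩
      · rw [Polynomial.map_prod]
        exact Finset.prod_congr rfl fun j _ => hV j
      · rw [← Finset.mul_prod_erase _ _ (Finset.mem_univ j), map_mul, map_mul, ← mul_assoc, hU]
    have hWf : ∀ j, (W j).map φ = W j := fun j => iM (by
      rw [← hσM, ← hW, map_mul, hc', hσM, hB])
    have e3 : (∑ j, c j * g j ^ p ^ b) * gM B = ∑ j, gM (W j) * g j ^ p ^ b := by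
      rw [Finset.sum_mul]
      exact Finset.sum_congr rfl fun j _ => by rw [← hW]; ring
    obtain ⟨A', B', hB0', hB', e4⟩ := slog_den iM φ σ hσM (e3 ▸ mul_mem hs (slog_self gM B))
      (u := ∑ j, W j * C (a j 0) ^ p ^ b) (v := (X - C θ) ^ p ^ b) (by
        simp only [map_sum, map_mul, map_pow, Finset.mul_sum, ← Finset.sum_add_distrib]
        refine Finset.sum_congr rfl fun j _ => ?_
        rw [hσM, hWf, hrec, add_pow_char_pow, mul_pow]
        ring)
    have h2 : ∀ j, ∃ D : F[X], D.map (algebraMap F (LaurentSeries E)) = W j * B' := fun j => by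
      rw [← mem_lifts, lifts_iff_coeff_lifts]
      intro n
      apply slog_fix
      rw [← hφ', ← coeff_map, Polynomial.map_mul, hWf, hB']
    choose D hD using h2
    have h3 := slog_extract p a hind b D A' (hal (by
      rw [← hgM, ← e4, Finset.sum_mul, map_sum]
      refine Finset.sum_congr rfl fun j _ => ?_
      rw [map_mul, map_pow, ← hg, ← hgM, hD, map_mul]
      ring))
    funext j
    have h4 := hD j
    rw [h3, Polynomial.map_zero] at h4
    have h5 := hW j
    rw [(mul_eq_zero.1 h4.symm).resolve_right hB0', map_zero] at h5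
    exact (mul_eq_zero.1 h5).resolve_right ((map_ne_zero_iff gM iM).2 hB0)
  have hu : (⟨gM (C η), slog_self _ _⟩ : slogFr gM) ≠ 0 := fun h => hη' (congrArg Subtype.val h)
  have main2 : AlgebraicIndependent (slogFr gM) (gN ∘ A) := by
    convert main.polynomial_aeval_of_transcendental
      (f := fun _ => C (⟨gM (C η), slog_self _ _⟩ : slogFr gM) * X) fun _ =>
        Polynomial.transcendental _ (by rw [natDegree_C_mul_X _ hu]; exact one_ne_zero)
          (by rw [leadingCoeff_C_mul_X]; exact mem_nonZeroDivisors_of_ne_zero hu) using 1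
    funext j
    rw [Function.comp_apply, hAg, map_mul, aeval_C, aeval_X]
    rfl
  have hθ0 : θ ≠ 0 := fun h => by simp [h] at hθ
  have hϑ0 : ϑ ≠ 0 := fun h => inv_ne_zero hθ0 (by rw [← hϑ, h, map_zero])
  have hϑ1 : PowerSeries.constantCoeff ϑ = 0 := by
    have h1 := HahnSeries.order_mul hθ0 (inv_ne_zero hθ0)
    rw [mul_inv_cancel₀ hθ0, HahnSeries.order_one] at h1
    rw [← PowerSeries.coeff_zero_eq_constantCoeff_apply, ← LaurentSeries.coeff_coe_powerSeries, hϑ]
    exact HahnSeries.coeff_eq_zero_of_lt_order (by push_cast; omega)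
  have htr : AlgebraicIndependent E[X] fun _ : Unit => PowerSeries.map (C : E →+* E[X]) ϑ :=
    algebraicIndependent_unique_type_iff.2 (slog_trans
      ((map_ne_zero_iff _ (PowerSeries.map_injective _ C_injective)).2 hϑ0) (by
        rw [← PowerSeries.coeff_zero_eq_constantCoeff_apply, PowerSeries.coeff_map,
          PowerSeries.coeff_zero_eq_constantCoeff_apply, hϑ1, map_zero]))
  have hadj : ∀ x ∈ Algebra.adjoin E[X]
      (Set.range fun _ : Unit => PowerSeries.map (C : E →+* E[X]) ϑ), gN x ∈ slogFr gM := by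
    intro x hx
    induction hx using Algebra.adjoin_induction with
    | mem x hx => obtain ⟨_, rfl⟩ := hx; rw [e1]; exact slog_self _ _
    | algebraMap r =>
      rw [show algebraMap E[X] (PowerSeries E[X]) r = PowerSeries.C r from rfl, e2]
      exact slog_self _ _
    | add x y _ _ hx hy => rw [map_add]; exact add_mem hx hy
    | mul x y _ _ hx hy => rw [map_mul]; exact mul_mem hx hy
  have main3 := htr.sumElim (main2.of_ringHom_of_comp_eq
    ((gN.comp (Subalgebra.val _).toRingHom).codRestrict (slogFr gM) fun x => hadj x x.2) gN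
    (fun x y h => Subtype.ext (iN (congrArg Subtype.val h))) rfl)
  convert main3.comp (Equiv.optionEquivSumPUnit.{0} κ) (Equiv.injective _) using 1
  funext o
  cases o <;> rfl

end Pool.Agent.MP_ee2255_nt.S
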