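import Pool.Agent.MP_ee2255_nt.SKO

/-! Auxiliary lemmas for the independence of Anderson generating functions. -/

namespace Pool.Agent.MP_ee2255_nt.S

open Polynomial

section Fr
variable {R Ω : Type*} [CommRing R] [Field Ω]

/-- The field of fractions of the image of a ring homomorphism. -/
def slogFr (g : R →+* Ω) : Subfield Ω := Subfield.closure (Set.range g)

lemma slog_self (g : R →+* Ω) (A : R) : g A ∈ slogFr g := Subfield.subset_closure ⟨A, rfl⟩

lemma slog_mem {g : R →+* Ω} {x : Ω} : x ∈ slogFr g ↔ ∃ A B, g B ≠ 0 ∧ x * g B = g A := by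
  constructor
  · intro h
    obtain ⟨y, hy, z, hz, rfl⟩ := Subfield.mem_closure_iff.1 h
    have e : Subring.closure (Set.range g) = g.range := Subring.closure_eq g.range
    rw [e] at hy hz
    obtain ⟨A, rfl⟩ := hy
    obtain ⟨B, rfl⟩ := hz
    by_cases hB : g B = 0
    · exact ⟨0, 1, by simp, by simp [hB]⟩
    · exact ⟨A, B, hB, div_mul_cancel₀ _ hB⟩
  · rintro ⟨A, B, hB, h⟩
    rw [eq_div_of_mul_eq hB h]
    exact div_mem (slog_self g A) (slog_self g B)

lemma slog_stable {g : R →+* Ω} (σ : Ω →+* Ω) (s : R →+* R) (h : ∀ A, σ (g A) = g (s A)) :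
    ∀ x ∈ slogFr g, σ x ∈ slogFr g := by
  intro x hx
  obtain ⟨A, B, hB, e⟩ := slog_mem.1 hx
  refine slog_mem.2 ⟨s A, s B, ?_, by rw [← h, ← h, ← map_mul, e]⟩
  rw [← h]
  exact (map_ne_zero σ).2 hB

lemma slog_ko {ι : Type*} [Fintype ι] (p : ℕ) [Fact p.Prime] [CharP Ω p]
    (σ : Ω →+* Ω) (N M : Subfield Ω) (hN : ∀ x ∈ N, σ x ∈ N) (hMN : M ≤ N)
    (hM : ∀ x ∈ M, σ x ∈ M) {a : Ω} (ha : a ∈ M) (ha0 : a ≠ 0)
    (hC : ∀ x ∈ N, σ x = x → x ∈ M)
    (hH : ∀ n : ℕ, 1 ≤ n → ∀ c ∈ M, σ c = a ^ n * c → c = 0)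
    (f α : ι → Ω) (hfN : ∀ j, f j ∈ N) (hα : ∀ j, α j ∈ M) (hf : ∀ j, σ (f j) = α j + a * f j)
    (h2 : ∀ (b : ℕ) (c : ι → Ω), (∀ j, c j ∈ M) → (∀ j, σ (c j) = c j) →
      ∑ j, c j * f j ^ p ^ b ∈ M → c = 0) :
    AlgebraicIndependent M f := by
  let σ' : N →+* N := (σ.comp N.subtype).codRestrict N fun x => hN x x.2
  have hσ' : ∀ x : N, (σ' x : Ω) = σ x := fun _ => rfl
  have key := ko p σ' (M.comap N.subtype) (fun x hx => hM x hx) (a := ⟨a, hMN ha⟩) ha
    (fun h => ha0 (congrArg Subtype.val h)) (fun x hx => hC x x.2 (congrArg Subtype.val hx))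
    (fun n hn c hc h => Subtype.ext (hH n hn c hc (congrArg Subtype.val h)))
    (fun j => ⟨f j, hfN j⟩) (fun j => ⟨α j, hMN (hα j)⟩) hα (fun j => Subtype.ext (hf j))
    fun b c hc h => by
      have h3 := h2 b (fun j => c j) (fun j => hC _ (c j).2 (congrArg Subtype.val (hc j)))
        (fun j => congrArg Subtype.val (hc j)) (by
          have h4 : N.subtype _ ∈ M := h
          simpa [map_sum] using h4)
      exact funext fun j => Subtype.ext (congrFun h3 j)
  let e : M.comap N.subtype →+* M :=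
    (N.subtype.comp (M.comap N.subtype).subtype).codRestrict M fun x => x.2
  exact key.ringHom_of_comp_eq e N.subtype (fun x => ⟨⟨⟨x.1, hMN x.2⟩, x.2⟩, rfl⟩)
    Subtype.val_injective rfl

end Fr

lemma slog_fix {F L : Type*} [Field F] [Fintype F] [Field L] [Algebra F L] {x : L}
    (h : x ^ Fintype.card F = x) : ∃ c : F, algebraMap F L c = x := by
  have h1 := roots_map_of_injective_of_card_eq_natDegree (algebraMap F L).injective
    (p := X ^ Fintype.card F - X) (by
      rw [FiniteField.roots_X_pow_card_sub_X,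
        FiniteField.X_pow_card_sub_X_natDegree_eq F Fintype.one_lt_card]
      rfl)
  have h2 : x ∈ ((X ^ Fintype.card F - X : F[X]).map (algebraMap F L)).roots := by
    rw [mem_roots ((Polynomial.map_ne_zero_iff (algebraMap F L).injective).2
      (FiniteField.X_pow_card_sub_X_ne_zero F Fintype.one_lt_card))]
    simp [h]
  rw [← h1] at h2
  obtain ⟨c, -, hc⟩ := Multiset.mem_map.1 h2
  exact ⟨c, hc⟩

section Den
variable {L Ω : Type*} [Field L] [Field Ω] {g : L[X] →+* Ω} (hg : Function.Injective g)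
  (φ : L →+* L) (σ : Ω →+* Ω) (hσ : ∀ A, σ (g A) = g (A.map φ))

include hg hσ

lemma slog_den {r : Ω} (hr : r ∈ slogFr g) {u v : L[X]} (h : σ r = g u + g v * r) :
    ∃ A B : L[X], B ≠ 0 ∧ B.map φ = B ∧ r * g B = g A := by
  obtain ⟨A, B, hB, e⟩ := slog_mem.1 hr
  have hB0 : B ≠ 0 := fun h0 => hB (by rw [h0, map_zero])
  obtain ⟨A', B', h1, h2, h3⟩ : ∃ A' B' : L[X], IsCoprime A' B' ∧ B'.Monic ∧ A' * B = A * B' :=
    ⟨_, _, RatFunc.isCoprime_num_denom (algebraMap _ _ A / algebraMap _ _ B),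
      RatFunc.monic_denom _, (RatFunc.num_mul_eq_mul_denom_iff hB0).2 rfl⟩
  have e1 : r * g B' = g A' := by
    apply mul_right_cancel₀ hB
    rw [← map_mul, h3, map_mul, ← e]
    ring
  refine ⟨A', B', h2.ne_zero, ?_, e1⟩
  have e2 : (g u + g v * r) * g (B'.map φ) = g (A'.map φ) := by
    rw [← h, ← hσ, ← hσ, ← map_mul, e1]
  have e3 : B'.map φ * (u * B' + v * A') = A'.map φ * B' := by
    apply hg
    simp only [map_mul, map_add]
    rw [← e2, ← e1]
    ring
  have h4 : IsCoprime (B'.map φ) (A'.map φ) := h1.symm.map (mapRingHom φ)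
  have h5 : B'.map φ ∣ B' := h4.dvd_of_dvd_mul_left ⟨_, e3.symm⟩
  exact (eq_of_monic_of_dvd_of_natDegree_le (h2.map φ) h2 h5
    (natDegree_map_eq_of_injective φ.injective B').ge).symm

lemma slog_hH (θ : L) (n : ℕ) (hn : 1 ≤ n) (c : Ω) (hc : c ∈ slogFr g)
    (h : σ c = g (X - C θ) ^ n * c) : c = 0 := by
  obtain ⟨A, B, hB, e⟩ := slog_mem.1 hc
  have hB0 : B ≠ 0 := fun h0 => hB (by rw [h0, map_zero])
  by_contra hc0
  have hA0 : A ≠ 0 := fun h0 => by
    rw [h0, map_zero] at e
    exact mul_ne_zero hc0 hB e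
  have e2 : g (X - C θ) ^ n * c * g (B.map φ) = g (A.map φ) := by
    rw [← h, ← hσ, ← hσ, ← map_mul, e]
  have e3 : (X - C θ) ^ n * A * B.map φ = A.map φ * B := by
    apply hg
    simp only [map_mul, map_pow]
    rw [← e2, ← e]
    ring
  have h1 := (Polynomial.map_ne_zero_iff φ.injective).2 hA0
  have h2 := (Polynomial.map_ne_zero_iff φ.injective).2 hB0
  have h3 : (X - C θ) ^ n ≠ 0 := pow_ne_zero _ (X_sub_C_ne_zero θ)
  have e4 := congrArg natDegree e3
  rw [natDegree_mul (mul_ne_zero h3 hA0) h2, natDegree_mul h3 hA0, natDegree_mul h1 hB0,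
    natDegree_pow, natDegree_X_sub_C, natDegree_map_eq_of_injective φ.injective,
    natDegree_map_eq_of_injective φ.injective] at e4
  omega

end Den

lemma slog_cartier {L : Type*} [CommRing L] (y z : PowerSeries L) {Q ρ : ℕ} (hQ : Q ≠ 0)
    (hρ : ρ < Q) (m : ℕ) :
    PowerSeries.coeff (m * Q + ρ) (y * PowerSeries.expand Q hQ z) =
      PowerSeries.coeff m (PowerSeries.mk (fun l => PowerSeries.coeff (l * Q + ρ) y) * z) := by
  rw [PowerSeries.coeff_mul, PowerSeries.coeff_mul]
  symm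
  refine Finset.sum_of_injOn (fun x : ℕ × ℕ => (x.1 * Q + ρ, Q * x.2)) ?_ ?_ ?_ ?_
  · rintro ⟨l, k⟩ - ⟨l', k'⟩ - h
    simp only [Prod.mk.injEq, add_left_inj] at h
    exact Prod.ext (Nat.eq_of_mul_eq_mul_right (Nat.pos_of_ne_zero hQ) h.1)
      (Nat.eq_of_mul_eq_mul_left (Nat.pos_of_ne_zero hQ) h.2)
  · rintro ⟨l, k⟩ h
    simp only [Finset.mem_coe, Finset.HasAntidiagonal.mem_antidiagonal] at h ⊢
    rw [← h]
    ring
  · rintro ⟨u, w⟩ h h'
    rw [Finset.HasAntidiagonal.mem_antidiagonal] at h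
    simp only at h ⊢
    by_cases hw : Q ∣ w
    · obtain ⟨k, rfl⟩ := hw
      have hk : k ≤ m := by
        by_contra hk
        have : Q * (m + 1) ≤ Q * k := Nat.mul_le_mul_left _ (by omega)
        nlinarith
      obtain ⟨l, rfl⟩ := Nat.exists_eq_add_of_le' hk
      refine absurd ⟨(l, k), by simp, Prod.ext ?_ rfl⟩ h'
      simp only
      nlinarith
    · rw [PowerSeries.coeff_expand_of_not_dvd _ _ _ hw, mul_zero]
  · rintro ⟨l, k⟩ -
    simp [PowerSeries.coeff_expand_mul]

lemma slog_pow {L : Type*} [CommRing L] (p : ℕ) [Fact p.Prime] [CharP L p] (b : ℕ)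
    (y : PowerSeries L) : y ^ p ^ b = PowerSeries.expand (p ^ b)
      (pow_ne_zero b (Fact.out : p.Prime).ne_zero) (PowerSeries.map (iterateFrobenius L p b) y) := by
  rw [← PowerSeries.map_expand]
  exact (MvPowerSeries.map_iterateFrobenius_expand p (Fact.out : p.Prime).ne_zero y b).symm

lemma slog_extract {F L κ : Type*} [Field F] [Fintype F] [Field L] [Algebra F L] [Fintype κ]
    (p : ℕ) [Fact p.Prime] [CharP F p] (a : κ → ℕ → L)
    (hind : ∀ (d : ℕ) (c : κ → ℕ → F), (∃ n₀, ∀ n ≥ n₀, ∑ j, ∑ l ∈ Finset.range d,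
      algebraMap F L (c j l) * a j (n + d - l) = 0) → ∀ j, ∀ l < d, c j l = 0)
    (b : ℕ) (D : κ → F[X]) (A : L[X])
    (h : ∑ j, (((D j).map (algebraMap F L) : L[X]) : PowerSeries L) *
      PowerSeries.mk (fun i => a j (i + 1)) ^ p ^ b = A) (j : κ) : D j = 0 := by
  have : CharP L p := charP_of_injective_algebraMap (algebraMap F L).injective p
  have hQ : p ^ b ≠ 0 := pow_ne_zero b (Fact.out : p.Prime).ne_zero
  obtain ⟨d, hd⟩ : ∃ d, ∀ j, (D j).natDegree < d :=
    ⟨∑ j, (D j).natDegree + 1, fun j => Nat.lt_succ_of_le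
      (Finset.single_le_sum (f := fun j => (D j).natDegree) (fun _ _ => Nat.zero_le _)
        (Finset.mem_univ j))⟩
  have hs : Function.Surjective (iterateFrobenius F p b) :=
    Finite.surjective_of_injective (iterateFrobenius F p b).injective
  have key : ∀ ρ < p ^ b, ∀ l, (D j).coeff (l * p ^ b + ρ) = 0 := by
    intro ρ hρ
    choose c hc using fun j l => hs ((D j).coeff (l * p ^ b + ρ))
    have hc0 : ∀ j l, d ≤ l → c j l = 0 := fun j l hl => by
      apply (iterateFrobenius F p b).injective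
      rw [hc, map_zero]
      refine coeff_eq_zero_of_natDegree_lt ((hd j).trans_le (hl.trans ?_))
      exact (Nat.le_mul_of_pos_right l (Nat.pos_of_ne_zero hQ)).trans (Nat.le_add_right _ _)
    have h1 := hind d c ⟨A.natDegree + 2, fun n hn => ?_⟩ j
    · intro l
      rw [← hc]
      by_cases hl : l < d
      · rw [h1 l hl, map_zero]
      · rw [hc0 j l (not_lt.1 hl), map_zero]
    obtain ⟨m, hm⟩ : ∃ m, n + d = m + 1 := ⟨n + d - 1, by omega⟩
    have h2 := congrArg (PowerSeries.coeff (m * p ^ b + ρ)) h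
    have h3 : A.natDegree < m * p ^ b + ρ :=
      lt_of_lt_of_le (by omega) ((Nat.le_mul_of_pos_right m (Nat.pos_of_ne_zero hQ)).trans
        (Nat.le_add_right _ _))
    rw [coeff_coe, coeff_eq_zero_of_natDegree_lt h3, map_sum] at h2
    apply (iterateFrobenius L p b).injective
    rw [map_zero, ← h2, map_sum]
    refine Finset.sum_congr rfl fun j _ => ?_
    rw [slog_pow, slog_cartier _ _ hQ hρ]
    have e : PowerSeries.mk (fun l => PowerSeries.coeff (l * p ^ b + ρ)
        (((D j).map (algebraMap F L) : L[X]) : PowerSeries L)) =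
        PowerSeries.map (iterateFrobenius L p b)
          (PowerSeries.mk fun l => algebraMap F L (c j l)) := by
      ext l
      simp only [PowerSeries.coeff_mk, coeff_coe, coeff_map, PowerSeries.coeff_map, ← hc,
        iterateFrobenius_def, map_pow]
    rw [e, ← map_mul, PowerSeries.coeff_map, PowerSeries.coeff_mul,
      Finset.Nat.sum_antidiagonal_eq_sum_range_succ_mk]
    congr 1
    simp only [PowerSeries.coeff_mk]
    refine Eq.trans (Finset.sum_congr rfl fun l hl => ?_) (Finset.sum_subset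
      (s₁ := Finset.range d) (Finset.range_subset_range.2 (by omega))
      fun l _ hl => by rw [hc0 j l (by simpa using hl), map_zero, zero_mul])
    have := Finset.mem_range.1 hl
    rw [show n + d - l = m - l + 1 by omega]
  ext u
  rw [← Nat.div_add_mod' u (p ^ b), key _ (Nat.mod_lt _ (Nat.pos_of_ne_zero hQ)), coeff_zero]

section T0
variable {R : Type*} [CommRing R] [IsDomain R]

/-- The twist on power series. -/
noncomputable def slogS (q : ℕ) (hq : q ≠ 0) (s : R →+* R) : PowerSeries R →+* PowerSeries R :=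
  (PowerSeries.expand q hq).toRingHom.comp (PowerSeries.map s)

omit [IsDomain R] in
lemma slogS_apply (q : ℕ) (hq : q ≠ 0) (s : R →+* R) (x : PowerSeries R) :
    slogS q hq s x = PowerSeries.expand q hq (PowerSeries.map s x) := rfl

omit [IsDomain R] in
lemma slogS_X (q : ℕ) (hq : q ≠ 0) (s : R →+* R) :
    slogS q hq s PowerSeries.X = PowerSeries.X ^ q := by simp [slogS_apply]

omit [IsDomain R] in
lemma slogS_C (q : ℕ) (hq : q ≠ 0) (s : R →+* R) (r : R) :
    slogS q hq s (PowerSeries.C r) = PowerSeries.C (s r) := by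
  simp [slogS_apply, PowerSeries.expand_C]

omit [IsDomain R] in
lemma slogS_const (q : ℕ) (hq : q ≠ 0) (s : R →+* R) (x : PowerSeries R) :
    PowerSeries.constantCoeff (slogS q hq s x) = s (PowerSeries.constantCoeff x) := by
  rw [slogS_apply, PowerSeries.constantCoeff_expand, ← PowerSeries.coeff_zero_eq_constantCoeff_apply,
    PowerSeries.coeff_map, PowerSeries.coeff_zero_eq_constantCoeff_apply]

omit [IsDomain R] in
lemma slog_decomp {A : PowerSeries R} (hA : A ≠ 0) :
    ∃ (a : ℕ) (A₁ : PowerSeries R), PowerSeries.constantCoeff A₁ ≠ 0 ∧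
      A = PowerSeries.X ^ a * A₁ :=
  ⟨_, _, fun h => hA (PowerSeries.constantCoeff_divXPowOrder_eq_zero_iff.1 h),
    PowerSeries.X_pow_order_mul_divXPowOrder.symm⟩

omit [IsDomain R] in
lemma slog_exp_le {m n : ℕ} {U V : PowerSeries R} (hU : PowerSeries.constantCoeff U ≠ 0)
    (h : PowerSeries.X ^ m * U = PowerSeries.X ^ n * V) : n ≤ m := by
  by_contra hn
  have := congrArg (PowerSeries.coeff m) h
  rw [PowerSeries.coeff_X_pow_mul', PowerSeries.coeff_X_pow_mul', if_pos le_rfl, if_neg hn,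
    Nat.sub_self, PowerSeries.coeff_zero_eq_constantCoeff_apply] at this
  exact hU this

lemma slog_ord {q : ℕ} (hq : q ≠ 0) (hq1 : 1 < q) {s : R →+* R} (hs : Function.Injective s)
    {a b : ℕ} {A B : PowerSeries R} (hA : PowerSeries.constantCoeff A ≠ 0)
    (hB : PowerSeries.constantCoeff B ≠ 0)
    (h : slogS q hq s (PowerSeries.X ^ a * A) * (PowerSeries.X ^ b * B) =
      PowerSeries.X ^ a * A * slogS q hq s (PowerSeries.X ^ b * B)) :
    a = b ∧ slogS q hq s A * B = A * slogS q hq s B := by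
  have h1 : PowerSeries.X ^ (q * a + b) * (slogS q hq s A * B) =
      PowerSeries.X ^ (a + q * b) * (A * slogS q hq s B) := by
    simp only [map_mul, map_pow, slogS_X] at h
    rw [pow_add, pow_add, pow_mul, pow_mul]
    linear_combination h
  have h2 := slog_exp_le (by
    rw [map_mul, slogS_const]
    exact mul_ne_zero ((map_ne_zero_iff s hs).2 hA) hB) h1
  have h3 := slog_exp_le (by
    rw [map_mul, slogS_const]
    exact mul_ne_zero hA ((map_ne_zero_iff s hs).2 hB)) h1.symm
  have h4 : a = b := by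
    obtain ⟨r, rfl⟩ : ∃ r, q = r + 2 := ⟨q - 2, by omega⟩
    nlinarith
  subst h4
  rw [add_comm a] at h1
  exact ⟨rfl, mul_left_cancel₀ (pow_ne_zero _ PowerSeries.X_ne_zero) h1⟩

lemma slog_T0fix {q : ℕ} (hq : q ≠ 0) (hq1 : 1 < q) {s : R →+* R} (hs : Function.Injective s)
    {A B : PowerSeries R} (hB : B ≠ 0) (h : slogS q hq s A * B = A * slogS q hq s B) :
    ∃ A₀ B₀ : R, B₀ ≠ 0 ∧ A * PowerSeries.C B₀ = PowerSeries.C A₀ * B := by
  by_cases hA : A = 0
  · exact ⟨0, 1, one_ne_zero, by simp [hA]⟩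
  obtain ⟨a, A, hA₁, rfl⟩ := slog_decomp hA
  obtain ⟨b, B, hB₁, rfl⟩ := slog_decomp hB
  obtain ⟨rfl, h1⟩ := slog_ord hq hq1 hs hA₁ hB₁ h
  refine ⟨PowerSeries.constantCoeff A, PowerSeries.constantCoeff B, hB₁, ?_⟩
  have h2 := congrArg (fun x => PowerSeries.C (PowerSeries.constantCoeff x)) h1
  simp only [map_mul, slogS_const] at h2
  have h3 : A * PowerSeries.C (PowerSeries.constantCoeff B) -
      PowerSeries.C (PowerSeries.constantCoeff A) * B = 0 := by
    by_contra h4
    obtain ⟨c, U, hU, e⟩ := slog_decomp h4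
    have h5 := (slog_ord hq hq1 hs (a := c) (b := 0) hU
      (B := B * PowerSeries.C (PowerSeries.constantCoeff B)) (by simpa using hB₁) (by
        rw [← e]
        simp only [map_mul, map_sub, slogS_C, pow_zero, one_mul]
        linear_combination (PowerSeries.C (s (PowerSeries.constantCoeff B)) *
          PowerSeries.C (PowerSeries.constantCoeff B)) * h1 - (slogS q hq s B * B) * h2)).1
    rw [h5, pow_zero, one_mul] at e
    rw [← e] at hU
    simp [mul_comm] at hU
  linear_combination PowerSeries.X ^ a * h3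

lemma slog_trans {y : PowerSeries R} (h0 : y ≠ 0) (h : PowerSeries.constantCoeff y = 0) :
    Transcendental R y := by
  intro halg
  obtain ⟨P, h1, h2⟩ := halg.exists_nonzero_coeff_and_aeval_eq_zero (mem_nonZeroDivisors_of_ne_zero h0)
  have h3 := congrArg PowerSeries.constantCoeff h2
  rw [aeval_def, hom_eval₂, h, eval₂_at_zero, map_zero] at h3
  exact h1 (by simpa using h3)

end T0

end Pool.Agent.MP_ee2255_nt.S
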