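import Pool.Agent.MP_ee2255_nt.SPartII

/-! Joint algebraic independence of Carlitz exponentials and Carlitz logarithms. -/

namespace Pool.Agent.MP_ee2255_nt.S

open Filter Topology WithZero Polynomial Setup
open scoped NNReal

variable {F E : Type*} [Field F] [Fintype F] [Field E] [Algebra F E]

theorem Dat.indep (d : Dat F E) {ι κ : Type*} [Fintype ι] [Fintype κ]
    (β : ι → LaurentSeries E) (hβ : ∀ j, β j ∈ d.Γ) (hβi : PInd F d.θ β)
    (u : κ → LaurentSeries E) (hu : ∀ j, expC F d.θ (u j) ∈ d.Γ) (hui : PInd F d.θ u) :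
    AlgebraicIndependent d.T.FH (d.ι₀ ∘ Sum.elim (fun i => expC F d.θ (β i)) u) := by
  obtain ⟨y, ψ, s, hy, hs, hsi, hψ⟩ := d.partI u hu hui
  obtain ⟨z, G, s', hz, hvz, hs', hsi', hG⟩ := d.partII β hβ hβi
  have he : (1 : ℝ) ≤ d.e := by exact_mod_cast d.pole.pos
  have h2 : (1 : ℝ) ≤ √2 := Real.one_le_sqrt.2 one_le_two
  obtain ⟨S, hS, h1, h1', hi⟩ := two_level (V := d.T.V) (k := d.T.k0) (fun c hc => V_k0 hc) d.V_z₁
    (irrational_sqrt_two.intCast_mul (m := d.e) (by have := d.pole.pos; omega)) (by nlinarith)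
    hvz hs hsi hs' hsi'
  let ρ : Fin 2 ⊕ (ι ⊕ κ) → Option ι ⊕ Option κ :=
    Sum.elim ![.inr none, .inl none] (Sum.elim (fun i => .inl (some i)) fun j => .inr (some j))
  have hρ : Function.Injective ρ := by
    rintro (a | a | a) (b | b | b) h
    · fin_cases a <;> fin_cases b <;> simp_all [ρ]
    · fin_cases a <;> simp_all [ρ]
    · fin_cases a <;> simp_all [ρ]
    · fin_cases b <;> simp_all [ρ]
    · simp_all [ρ]
    · simp_all [ρ]
    · fin_cases b <;> simp_all [ρ]
    · simp_all [ρ]
    · simp_all [ρ]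
  have h3 := mahler' S hS ![y, z] (fun i => by
      fin_cases i
      exacts [h1 none, h1' none]) (fun i => by
      fin_cases i
      exacts [hy, hz]) (Sum.elim G ψ) (by
      rintro (i | j)
      exacts [h1' (some i), h1 (some j)]) (by
      convert hi.comp ρ hρ using 1
      ext (a | a | a)
      · fin_cases a <;> rfl
      · rfl
      · rfl)
  have h4 : ∀ o : ι ⊕ κ, ∃ a b : d.T.FH, a ≠ 0 ∧
      d.ι₀ (Sum.elim (fun i => expC F d.θ (β i)) u o) = a * Sum.elim G ψ o + b := by
    rintro (i | j)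
    · obtain ⟨b, hb, h⟩ := hG i
      exact ⟨1, ⟨b, hb⟩, one_ne_zero, by simpa using h⟩
    · obtain ⟨a, ha, b, hb, h0, h⟩ := hψ j
      exact ⟨⟨a, ha⟩, ⟨b, hb⟩, fun h' => h0 (congrArg Subtype.val h'), h⟩
  choose a b h0 hab using h4
  have h5 := h3.polynomial_aeval_of_transcendental (f := fun o => C (a o) * X + C (b o))
    fun o => Polynomial.transcendental _ (by rw [natDegree_linear (h0 o)]; exact one_ne_zero)
      (by rw [leadingCoeff_linear (h0 o)]; exact mem_nonZeroDivisors_of_ne_zero (h0 o))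
  convert h5 using 1
  ext o
  rw [Function.comp_apply, hab, map_add, map_mul, aeval_C, aeval_C, aeval_X]
  rfl

omit [Fintype F] in
lemma adjoin_le {θ : LaurentSeries E} (S : Subfield (LaurentSeries E)) (h : θ ∈ S)
    (h' : ∀ c : E, algebraMap E _ c ∈ S) :
    (IntermediateField.adjoin F {θ}).toSubfield ≤ S := by
  rw [IntermediateField.adjoin_toSubfield, Subfield.closure_le]
  rintro x (⟨c, rfl⟩ | rfl)
  · exact alg_tower (E := E) c ▸ h' _
  · exact h

omit [Fintype F] in
lemma pind_of {θ : LaurentSeries E} {e : ℤ} (hθ : Pole θ e) {ι : Type*} [Fintype ι]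
    {u : ι → LaurentSeries E} (h : LinearIndependent (IntermediateField.adjoin F {θ}) u) :
    PInd F θ u := fun p hp j => by
  have h1 := Fintype.linearIndependent_iff.1 h (fun j => ⟨aeval θ (p j),
    IntermediateField.algebra_adjoin_le_adjoin F _ (aeval_mem_adjoin_singleton F θ)⟩) hp j
  have h2 : aeval θ (p j) = 0 := congrArg Subtype.val h1
  refine (Polynomial.map_eq_zero (algebraMap F E)).1 (hθ.eval_eq_zero ?_)
  have h3 : (algebraMap E (LaurentSeries E)).comp (algebraMap F E) =
      algebraMap F (LaurentSeries E) := by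
    refine RingHom.ext fun c => ?_
    rw [RingHom.comp_apply, alg_tower (F := F)]
  rw [eval₂_map, h3]
  exact h2

theorem main {θ : LaurentSeries E} (hθ : θ.order < 0) {ι κ : Type*} [Fintype ι] [Fintype κ]
    (β : ι → LaurentSeries E) (u : κ → LaurentSeries E)
    (hβ : ∀ i, IsAlgebraic (IntermediateField.adjoin F {θ}) (β i))
    (hu : ∀ j, IsAlgebraic (IntermediateField.adjoin F {θ}) (expC F θ (u j)))
    (hβi : LinearIndependent (IntermediateField.adjoin F {θ}) β)
    (hui : LinearIndependent (IntermediateField.adjoin F {θ}) u) :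
    AlgebraicIndependent (IntermediateField.adjoin F {θ})
      (Sum.elim (fun i => expC F θ (β i)) u) := by
  obtain ⟨e, hp⟩ := exists_pole hθ
  let Γ : Set (LaurentSeries E) := insert θ (Set.range β ∪ Set.range fun j => expC F θ (u j))
  have h1 : ∀ γ, IsAlgebraic (IntermediateField.adjoin F {θ}) γ →
      IsAlgebraic (IntermediateField.adjoin E {θ}) γ := fun γ h =>
    h.ringHom_of_comp_eq (S := IntermediateField.adjoin E {θ})
      ((algebraMap (IntermediateField.adjoin F {θ}) (LaurentSeries E)).codRestrict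
        (IntermediateField.adjoin E {θ}) fun x => adjoin_le (F := F)
          (IntermediateField.adjoin E {θ}).toSubfield (IntermediateField.mem_adjoin_simple_self E θ)
          (IntermediateField.algebraMap_mem _) x.2) (RingHom.id (LaurentSeries E))
      (RingHom.injective _)
      (RingHom.ext fun _ => rfl)
  obtain ⟨c, hc⟩ := liouville (E := E) (Valued.v : Valuation (LaurentSeries E) _)
    (fun c => O_algebraMap c) (θ := θ) (by
      rw [hp.val, ← exp_zero, exp_lt_exp]
      exact hp.pos) (Γ := Γ) (((Set.finite_range _).union (Set.finite_range _)).insert _) (by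
      rintro γ (rfl | ⟨i, rfl⟩ | ⟨j, rfl⟩)
      · exact isAlgebraic_algebraMap
          (⟨γ, IntermediateField.mem_adjoin_simple_self E γ⟩ : IntermediateField.adjoin E {γ})
      · exact h1 _ (hβ i)
      · exact h1 _ (hu j))
  let d : Dat F E := ⟨θ, e, hp, Γ, Or.inl rfl, c, hc⟩
  have h2 := d.indep β (fun i => Or.inr (Or.inl ⟨i, rfl⟩)) (pind_of hp hβi) u
    (fun j => Or.inr (Or.inr ⟨j, rfl⟩)) (pind_of hp hui)
  have h3 := adjoin_le (F := F) (θ := θ) (d.T.FH.comap d.ι₀)
    (Bc.mem_FH (Dat.ι₀_mem (BB_gen d.mem))) fun c => Bc.mem_FH (Dat.ι₀_mem (BB_alg c))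
  exact h2.of_ringHom_of_comp_eq
    ((d.ι₀.comp (algebraMap (IntermediateField.adjoin F {θ}) _)).codRestrict d.T.FH
      fun x => h3 x.2) d.ι₀ (RingHom.injective _) rfl

end Pool.Agent.MP_ee2255_nt.S
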