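import Pool.Agent.MP_ee2255_nt.SSetup
import Pool.Agent.MP_ee2255_nt.SLog

/-! The logarithms in the ultralimit field. -/

namespace Pool.Agent.MP_ee2255_nt.S

open Filter Topology WithZero Polynomial Setup
open scoped NNReal

set_option linter.unusedSectionVars false

variable {F E : Type*} [Field F] [Fintype F] [Field E] [Algebra F E]

variable (F) in
/-- linear independence over `F[θ]` -/
def PInd {ι : Type*} [Fintype ι] (θ : LaurentSeries E) (u : ι → LaurentSeries E) : Prop :=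
  ∀ p : ι → F[X], ∑ j, aeval θ (p j) * u j = 0 → ∀ j, p j = 0

lemma exists_ps {x : LaurentSeries E} (h : O x 0) : ∃ y : PowerSeries E, (y : LaurentSeries E) = x :=
  (LaurentSeries.val_le_one_iff_eq_coe E x).1 h

lemma geom_le (j : ℕ) : Fintype.card F ^ (j + 1) + Fintype.card F ^ (j + 1) ≤
    Fintype.card F ^ (j + 1 + 1) := by
  rw [pow_succ _ (j + 1), ← mul_two]
  exact Nat.mul_le_mul_left _ two_le_q

namespace Dat

variable (d : Dat F E)

lemma fac_mem (j : ℕ) : d.θ - d.θ ^ Fintype.card F ^ j ∈ BB E d.Γ (Fintype.card F ^ j) :=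
  sub_mem (BB_mono (BB_gen d.mem) (Nat.one_le_pow _ _ Fintype.card_pos)) (BB_gen_pow d.mem _)

lemma ll_mem (j : ℕ) : ll F d.θ j ∈ BB E d.Γ (Fintype.card F ^ (j + 1)) := by
  induction j with
  | zero => exact BB_mono BB_one (Nat.zero_le _)
  | succ j ih => exact BB_mono (BB_mul (d.fac_mem _) ih) (geom_le j)

lemma aa_mem {α : LaurentSeries E} (h : α ∈ d.Γ) (j : ℕ) :
    aa F d.θ α j ∈ BB E d.Γ (Fintype.card F ^ (j + 1)) := by
  induction j with
  | zero => exact BB_mono (BB_gen h) (Nat.one_le_pow _ _ Fintype.card_pos)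
  | succ j ih =>
    exact add_mem (BB_mono (BB_gen_pow h _) ((Nat.le_add_right _ _).trans (geom_le j)))
      (BB_mono (BB_mul (d.fac_mem _) ih) (geom_le j))

/-- the coefficient map -/
noncomputable def hk : E[X] →+* d.T.k0 :=
  eval₂RingHom ((d.Φ.comp (algebraMap E _)).codRestrict d.T.k0 Φ_alg_mem)
    ⟨d.ι₀ d.θ, ι₀_mem (BB_gen d.mem)⟩

lemma hk_C (c : E) : (d.hk (C c) : d.T.Ω) = d.Φ (algebraMap E _ c) := by simp [hk]

lemma hk_X : (d.hk X : d.T.Ω) = d.ι₀ d.θ := by simp [hk]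

lemma hk_inj : Function.Injective d.hk := by
  refine (injective_iff_map_eq_zero _).2 fun p hp => ?_
  by_contra h0
  have h1 : Rep d.T.vs (fun i => ∑ n ∈ Finset.range (p.natDegree + 1),
      algebraMap E _ (p.coeff n) ^ Fintype.card F ^ (rr F i + 1) * d.θ ^ n) (d.hk p) := by
    conv_rhs => rw [p.as_sum_range_C_mul_X_pow, map_sum]
    rw [AddSubmonoidClass.coe_finsetSum]
    refine Rep_sum fun n _ => ?_
    rw [map_mul, map_pow, Subfield.coe_mul, SubmonoidClass.coe_pow, hk_C, hk_X]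
    exact (d.rep_Φ _).mul ((d.rep_ι₀ _).pow n)
  refine ne_of_rep (c := 0) (d.small_const p.natDegree) h1 (fun i => sum_mem fun n hn => ?_)
    (fun i h => h0 ?_) (by rw [hp]; rfl)
  · rw [← map_pow]
    exact BB_mono (BB_mul (BB_alg _) (BB_gen_pow d.mem n)) (by
      have := Finset.mem_range.1 hn
      omega)
  · let φ : E →+* E := (FiniteField.frobeniusAlgHom F E ^ (rr F i + 1) : E →ₐ[F] E)
    have hφ : ∀ c, φ c = c ^ Fintype.card F ^ (rr F i + 1) := fun c => by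
      simp only [φ, RingHom.coe_coe, AlgHom.coe_pow, FiniteField.coe_frobeniusAlgHom, pow_iterate]
    refine (Polynomial.map_eq_zero φ).1 (d.pole.eval_eq_zero ?_)
    rw [eval₂_map, eval₂_eq_sum_range, ← h]
    simp [hφ]

/-- the variable at the large scale -/
noncomputable def z₁ : d.T.Ω := d.Φ ((PowerSeries.X : PowerSeries E) : LaurentSeries E)

lemma V_z₁ : d.T.V d.z₁ = 2⁻¹ := by
  have h := LaurentSeries.valuation_X_pow E 1
  rw [pow_one] at h
  rw [z₁, V_Φ h, ← NNReal.rpow_neg_one]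
  simp

lemma good₁ : Good d.T.V (algebraMap d.T.k0 d.T.Ω) d.z₁ := ⟨V_k0_le, d.V_z₁.le⟩

lemma ex_Φ (y : PowerSeries E) : Ex d.T.V (algebraMap d.T.k0 d.T.Ω) d.z₁
    (PowerSeries.map (d.hk.comp C) y) (d.Φ y) := fun M => by
  have h1 : ∀ p : E[X], (p.map (d.hk.comp C)).eval₂ (algebraMap d.T.k0 d.T.Ω) d.z₁ =
      d.Φ ((p : PowerSeries E) : LaurentSeries E) := fun p => by
    induction p using Polynomial.induction_on with
    | C c =>
      rw [map_C, eval₂_C, coe_C]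
      exact d.hk_C c
    | add p q hp hq => simp only [Polynomial.map_add, eval₂_add, hp, hq, Polynomial.coe_add, map_add]
    | monomial n c h =>
      rw [pow_succ, ← mul_assoc, Polynomial.map_mul, eval₂_mul, h, map_X, eval₂_X,
        Polynomial.coe_mul _ X, map_mul, map_mul, coe_X, z₁]
  rw [PowerSeries.trunc_map, h1, ← map_sub, ← map_sub]
  refine (V_Φ_le (a := -M) (O_iff.2 fun n hn => ?_)).trans (two_rpow_le (by simp))
  rw [PowerSeries.coeff_coe]
  split_ifs with h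
  · rfl
  · rw [map_sub, coeff_coe, PowerSeries.coeff_trunc, if_pos (by omega), sub_self]

lemma ex_psi {u η : LaurentSeries E} {c C₀ : ℕ} (hc : ∀ k, O (gam F d.θ u k) (c - k * d.e))
    (hC₀ : c ≤ C₀) (hOη : O η (-C₀)) (hO : ∀ k, O (η * gam F d.θ u k) (-k))
    {A : PowerSeries E[X]} (hA : ∀ (n : ℕ) i, (PowerSeries.coeff n A).coeff i =
      (η * gam F d.θ u (i + 1)).coeff n) {ωa ωl : d.T.Ω}
    (ha : Rep d.T.vs (fun i => aa F d.θ (expC F d.θ u) (rr F i)) ωa)
    (hl : Rep d.T.vs (fun i => ll F d.θ (rr F i)) ωl) :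
    Ex d.T.V (algebraMap d.T.k0 d.T.Ω) d.z₁ (PowerSeries.map d.hk A)
      (d.Φ η * (ωa - ωl * d.ι₀ u)) := by
  refine Ex_of_approx fun M => ?_
  choose B hB using fun k => exists_ps ((hO (k + 1)).mono (by omega))
  refine ⟨_, _, d.good₁.ex_sum (t := Finset.range (M + C₀)) fun k _ =>
    d.good₁.ex_mul (d.ex_Φ (B k)) (d.good₁.ex_C (d.hk X ^ k)), fun n hn => ?_, ?_⟩
  · simp only [map_sum, PowerSeries.coeff_mul_C, PowerSeries.coeff_map,
      RingHom.comp_apply, ← map_pow, ← map_mul]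
    rw [← map_sum]
    congr 1
    ext i
    simp only [finsetSum_coeff, coeff_C_mul_X_pow, Finset.sum_ite_eq, Finset.mem_range, hA]
    split_ifs with h
    · rw [← hB, LaurentSeries.coeff_coe_powerSeries]
    · exact (O_iff.1 (hO (i + 1)) _ (by push_cast; omega)).symm
  · have h1 := ((d.rep_Φ η).mul (ha.sub (hl.mul (d.rep_ι₀ u)))).sub
      (Rep_sum (s := Finset.range (M + C₀)) fun k _ =>
        (d.rep_Φ (B k)).mul ((d.rep_ι₀ d.θ).pow k))
    have h3 : ∀ i, O (η ^ Fintype.card F ^ (rr F i + 1) * (aa F d.θ (expC F d.θ u) (rr F i) -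
        ll F d.θ (rr F i) * u) - ∑ k ∈ Finset.range (M + C₀),
          (B k : LaurentSeries E) ^ Fintype.card F ^ (rr F i + 1) * d.θ ^ k)
        (-M * d.T.N i + 1 * (M + C₀ : ℕ)) := fun i => by
      have h3 := (O.qpow' (F := F) hOη (rr F i + 1)).mul (d.pole.O_psi_sub hc (rr F i) (M + C₀))
      rw [mul_sub, phi, Finset.mul_sum] at h3
      simp only [hB, mul_pow, mul_assoc]
      refine O.mono h3 ?_
      have h4 : (c : ℤ) ≤ C₀ := by exact_mod_cast hC₀
      have h5 := one_le_qpow (F := F) (rr F i + 1)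
      rw [T_N]
      push_cast
      nlinarith
    have h2 := rep_le h1 (Eventually.of_forall h3) ((d.small_const (M + C₀)).lim (-M) 1)
    refine le_trans (le_of_eq ?_) (h2.trans (two_rpow_le (by simp)))
    simp only [← d.hk_X, map_pow]
    rfl

lemma hind_of {κ : Type*} [Fintype κ] {u : κ → LaurentSeries E} (hi : PInd F d.θ u) (D : ℕ)
    (c : κ → ℕ → F) (h : ∃ n₀, ∀ n ≥ n₀, ∑ j, ∑ l ∈ Finset.range D,
      algebraMap F (LaurentSeries E) (c j l) * gam F d.θ (u j) (n + D - l) = 0) (j : κ) (l : ℕ)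
    (hl : l < D) : c j l = 0 := by
  obtain ⟨n₀, hn⟩ := h
  have hp := d.pole
  have h1 := hi (fun j => ∑ l ∈ Finset.range D, monomial l (c j l))
    (hp.eq_zero_of_gam (F := F) (by
      filter_upwards [eventually_ge_atTop (n₀ + D)] with J hJ
      obtain ⟨n, rfl⟩ : ∃ n, J = n + D := ⟨J - D, by omega⟩
      rw [← hn n (by omega), gam, Finset.sum_div, hp.exp_sum]
      refine Finset.sum_congr rfl fun j _ => ?_
      rw [map_sum, Finset.sum_mul, Finset.sum_div, hp.exp_sum]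
      refine Finset.sum_congr rfl fun l hl => ?_
      obtain ⟨r, hr⟩ : ∃ r, n + D = l + r := ⟨n + D - l, by
        have := Finset.mem_range.1 hl
        omega⟩
      rw [gam, ← hp.exp_smul, aeval_monomial, hr, Nat.add_sub_cancel_left, pow_add]
      congr 1
      have := hp.ne
      field_simp)) j
  simpa [coeff_monomial, hl] using congrArg (coeff · l) h1

theorem partI {κ : Type*} [Fintype κ] (u : κ → LaurentSeries E)
    (hu : ∀ j, expC F d.θ (u j) ∈ d.Γ) (hi : PInd F d.θ u) :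
    ∃ (y : d.T.Ω) (ψ : κ → d.T.Ω) (s : Option κ → PowerSeries d.T.k0), y ∈ d.T.FH ∧
      (∀ o, Ex d.T.V (algebraMap d.T.k0 d.T.Ω) d.z₁ (s o) (o.elim y ψ)) ∧
      AlgebraicIndependent d.T.k0 s ∧
      ∀ j, ∃ a ∈ d.T.FH, ∃ b ∈ d.T.FH, a ≠ 0 ∧ d.ι₀ (u j) = a * ψ j + b := by
  have hp := d.pole
  have he := hp.pos
  choose c hc using fun j => hp.exists_O_gam (F := F) (u j)
  obtain ⟨C₀, hC₀⟩ : ∃ C₀ : ℕ, ∀ j, c j ≤ C₀ := ⟨∑ j, c j, fun j =>
    Finset.single_le_sum (f := c) (fun _ _ => Nat.zero_le _) (Finset.mem_univ j)⟩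
  have hvi : Valued.v d.θ⁻¹ = exp (-d.e) := by rw [map_inv₀, hp.val, exp_neg]
  obtain ⟨ϑ, hϑ⟩ := exists_ps (x := d.θ⁻¹) (O.mono hvi.le (by omega))
  obtain ⟨η, hη⟩ : ∃ η, η = d.θ⁻¹ ^ C₀ := ⟨_, rfl⟩
  have hOη : O η (-C₀) := hη ▸ (O.pow hvi.le C₀).mono (by nlinarith)
  have hO : ∀ j k, O (η * gam F d.θ (u j) k) (-k) := fun j k => (hOη.mul (hc j k)).mono (by
    have h1 : (c j : ℤ) ≤ C₀ := by exact_mod_cast hC₀ j
    nlinarith)
  obtain ⟨A, hA⟩ : ∃ A : κ → PowerSeries E[X], ∀ j (n : ℕ) i,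
      (PowerSeries.coeff n (A j)).coeff i = (η * gam F d.θ (u j) (i + 1)).coeff n := by
    refine ⟨fun j => PowerSeries.mk fun n => ∑ i ∈ Finset.range (n + 1),
      monomial i ((η * gam F d.θ (u j) (i + 1)).coeff n), fun j n i => ?_⟩
    simp only [PowerSeries.coeff_mk, finsetSum_coeff, coeff_monomial, Finset.sum_ite_eq',
      Finset.mem_range]
    split_ifs with h
    · rfl
    · exact (O_iff.1 (hO j (i + 1)) _ (by push_cast; omega)).symm
  have hord : d.θ.order < 0 := by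
    by_contra h
    have : O d.θ 0 := O_iff.2 fun n hn => HahnSeries.coeff_eq_zero_of_lt_order (by omega)
    rw [O, hp.val, exp_le_exp] at this
    omega
  have hη' : η ≠ 0 := hη ▸ pow_ne_zero _ (inv_ne_zero hp.ne)
  have hC : ∀ j i (n : ℤ), n < 0 → (η * gam F d.θ (u j) i).coeff n = 0 :=
    fun j i n hn => O_iff.1 (hO j i) n (by omega)
  have hind := log_indep (F := F) hord (fun j i => gam F d.θ (u j) i)
    (fun j i => hp.gam_rec (F := F) (u j) i) η hη' hC A hA (d.hind_of hi) ϑ hϑ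
  have hind' := indep_map' d.hk d.hk_inj hind
  obtain ⟨ωl, hl1, hl2⟩ := exists_Bc (T := d.T) (c := 1) (x := fun i => ll F d.θ (rr F i))
    fun i => by simpa [T_N] using d.ll_mem _
  have hl0 : ωl ≠ 0 := ne_of_rep (c := 1) small_zero hl1
    (fun i => by simpa [T_N] using d.ll_mem _) fun i => hp.ll_ne _
  choose ωa ha1 ha2 using fun j => exists_Bc (T := d.T) (c := 1)
    (x := fun i => aa F d.θ (expC F d.θ (u j)) (rr F i))
    fun i => by simpa [T_N] using d.aa_mem (hu j) _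
  have hy : d.Φ d.θ⁻¹ ∈ d.T.FH := by
    rw [map_inv₀]
    exact inv_mem (Φ_mem d.mem)
  have hη1 : d.Φ η ∈ d.T.FH := by
    rw [hη, map_pow]
    exact pow_mem hy _
  have hη0 : d.Φ η ≠ 0 := (_root_.map_ne_zero _).2 hη'
  refine ⟨d.Φ d.θ⁻¹, fun j => d.Φ η * (ωa j - ωl * d.ι₀ (u j)),
    fun o => PowerSeries.map d.hk (o.elim (PowerSeries.map C ϑ) A), hy, ?_, hind', fun j => ⟨-(d.Φ η * ωl)⁻¹,
      neg_mem (inv_mem (mul_mem hη1 hl2.mem_FH)), ωa j / ωl,
      div_mem (ha2 j).mem_FH hl2.mem_FH, neg_ne_zero.2 (inv_ne_zero (mul_ne_zero hη0 hl0)), ?_⟩⟩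
  · rintro (_ | j)
    · have := d.ex_Φ ϑ
      rwa [hϑ, PowerSeries.map_comp] at this
    · exact d.ex_psi (hc j) (hC₀ j) hOη (hO j) (hA j) (ha1 j) hl1
  · field_simp
    ring

end Dat

end Pool.Agent.MP_ee2255_nt.S
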