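import Pool.Agent.MP_ee2255_nt.SPartI
import Pool.Agent.MP_ee2255_nt.SArtin

/-! The exponentials in the ultralimit field. -/

namespace Pool.Agent.MP_ee2255_nt.S

open Filter Topology WithZero Polynomial Setup
open scoped NNReal

set_option linter.unusedSectionVars false

variable {F E : Type*} [Field F] [Fintype F] [Field E] [Algebra F E]

lemma PInd.sum_eq_zero {ι : Type*} [Fintype ι] {θ : LaurentSeries E} {β : ι → LaurentSeries E}
    (h : PInd F θ β) (s : Finset (ι × ℕ)) (g : ι × ℕ → F)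
    (h0 : ∑ i ∈ s, algebraMap F _ (g i) * (β i.1 * θ ^ i.2) = 0) : ∀ i ∈ s, g i = 0 := by
  classical
  intro i hi
  have h1 := h (fun j => ∑ i ∈ s, if i.1 = j then monomial i.2 (g i) else 0) (by
    simp only [map_sum, Finset.sum_mul]
    rw [Finset.sum_comm, ← h0]
    refine Finset.sum_congr rfl fun i _ => ?_
    rw [Finset.sum_eq_single i.1 (fun j _ hj => by simp [hj.symm]) (by simp), if_pos rfl,
      aeval_monomial]
    ring) i.1
  have h2 := congrArg (coeff · i.2) h1
  simp only [finsetSum_coeff, coeff_zero] at h2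
  rwa [Finset.sum_eq_single i (fun j _ hj => by
    split_ifs with h3
    · exact coeff_monomial_of_ne _ fun h4 => hj (Prod.ext h3 h4.symm)
    · rfl) (fun h3 => (h3 hi).elim), if_pos rfl, coeff_monomial_same] at h2

namespace Dat

variable (d : Dat F E)

lemma fac_mem' (j : ℕ) : d.θ ^ Fintype.card F ^ j - d.θ ∈ BB E d.Γ (Fintype.card F ^ j) :=
  neg_sub d.θ _ ▸ neg_mem (d.fac_mem j)

lemma D_mem (j : ℕ) : facD F d.θ j ∈ BB E d.Γ (j * Fintype.card F ^ j) := by
  induction j with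
  | zero => simpa [D_zero] using BB_one
  | succ j ih =>
    rw [D_succ]
    exact BB_mono (BB_mul (d.fac_mem' _) (BB_pow ih _)) (le_of_eq (by ring))

lemma E_mem {β : LaurentSeries E} (h : β ∈ d.Γ) (j : ℕ) :
    facD F d.θ j * ∑ k ∈ Finset.range j, β ^ Fintype.card F ^ k / facD F d.θ k ∈
      BB E d.Γ (2 * j * Fintype.card F ^ j) := by
  induction j with
  | zero => simp
  | succ j ih =>
    obtain ⟨r, hr⟩ : ∃ r, Fintype.card F = r + 1 := ⟨_, (Nat.sub_add_cancel Fintype.card_pos).symm⟩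
    have h1 : facD F d.θ (j + 1) * ∑ k ∈ Finset.range (j + 1),
        β ^ Fintype.card F ^ k / facD F d.θ k = (d.θ ^ Fintype.card F ^ (j + 1) - d.θ) *
        facD F d.θ j ^ r * (facD F d.θ j * ∑ k ∈ Finset.range j,
          β ^ Fintype.card F ^ k / facD F d.θ k + β ^ Fintype.card F ^ j) := by
      have h2 : facD F d.θ j ^ Fintype.card F = facD F d.θ j ^ r * facD F d.θ j := by
        rw [← pow_succ, ← hr]
      have := d.pole.D_ne (F := F) j
      rw [D_succ, Finset.sum_range_succ, h2]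
      field_simp
    rw [h1]
    refine BB_mono (BB_mul (BB_mul (d.fac_mem' _) (BB_pow (d.D_mem j) r))
      (add_mem (BB_mono ih (Nat.le_add_right _ (Fintype.card F ^ j)))
        (BB_mono (BB_gen_pow h _) (Nat.le_add_left _ _)))) ?_
    have h3 : 1 ≤ r := by have := two_le_q (F := F); omega
    rw [pow_succ]
    generalize Fintype.card F ^ j = Q
    rw [hr]
    nlinarith [Nat.mul_le_mul_right (j * Q) h3, Nat.zero_le (r * Q)]

lemma mq_le (i : ℕ) : mm F i * Fintype.card F ^ mm F i ≤ 2 * d.T.N i := by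
  rw [N_eq]
  nlinarith [Nat.mul_le_mul_right (Fintype.card F ^ mm F i) (mm_le (F := F) i)]

/-- the twisted parameter -/
noncomputable def x₀ : d.T.k0 := ⟨d.Ψ d.θ, Ψ_mem d.mem⟩

/-- the parameter -/
noncomputable def t₀ : d.T.k0 := ⟨d.ι₀ d.θ, ι₀_mem (BB_gen d.mem)⟩

lemma rep_fac (K : ℕ) : Rep d.T.vs (fun i => d.θ ^ Fintype.card F ^ (mm F i + K + 1) - d.θ)
    (d.x₀ ^ Fintype.card F ^ (K + 1) - d.t₀ : d.T.k0) :=
  (((d.rep_Ψ d.θ).pow _).sub (d.rep_ι₀ d.θ)).congr (Eventually.of_forall fun i => by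
    rw [← pow_mul, ← pow_add, add_assoc])

lemma fac_ne (K : ℕ) : d.x₀ ^ Fintype.card F ^ (K + 1) - d.t₀ ≠ 0 := fun h =>
  ne_of_rep (c := 0) (d.small 1 (K + 1)) (d.rep_fac K)
    (fun i => by simpa [add_assoc] using d.fac_mem' _) (fun i h1 => by
      have := d.pole.v_fac (F := F) (mm F i + K)
      rw [← neg_sub, h1, neg_zero, map_zero] at this
      exact exp_ne_zero this.symm) (by rw [h]; rfl)

/-- the coefficients of the tail of the exponential series -/
noncomputable def cK : ℕ → d.T.k0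
  | 0 => 1
  | K + 1 => cK K ^ Fintype.card F / (d.x₀ ^ Fintype.card F ^ (K + 1) - d.t₀)

lemma cK_ne (K : ℕ) : d.cK K ≠ 0 := by
  induction K with
  | zero => exact one_ne_zero
  | succ K ih => exact div_ne_zero (pow_ne_zero _ ih) (d.fac_ne K)

lemma rep_cK (K : ℕ) : Rep d.T.vs (fun i => facD F d.θ (mm F i) ^ Fintype.card F ^ K /
    facD F d.θ (mm F i + K)) (d.cK K) := by
  induction K with
  | zero => exact Rep_one.congr (Eventually.of_forall fun i => by simp [d.pole.D_ne])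
  | succ K ih =>
    refine ((ih.pow _).div (d.rep_fac K) (by exact_mod_cast d.fac_ne K)).congr
      (Eventually.of_forall fun i => ?_)
    rw [← add_assoc, D_succ, div_pow, ← pow_mul, ← pow_succ, div_div, mul_comm]

theorem partII {ι : Type*} [Fintype ι] (β : ι → LaurentSeries E) (hβ : ∀ j, β j ∈ d.Γ)
    (hi : PInd F d.θ β) :
    ∃ (z : d.T.Ω) (G : ι → d.T.Ω) (s : Option ι → PowerSeries d.T.k0), z ∈ d.T.FH ∧
      d.T.V z = 2 ^ (-(d.e * √2)) ∧
      (∀ o, Ex d.T.V (algebraMap d.T.k0 d.T.Ω) z (s o) (o.elim z G)) ∧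
      AlgebraicIndependent d.T.k0 s ∧
      ∀ j, ∃ b ∈ d.T.FH, d.ι₀ (expC F d.θ (β j)) = G j + b := by
  classical
  have hp := d.pole
  have he : (1 : ℝ) ≤ d.e := by exact_mod_cast hp.pos
  have h2 : (1 : ℝ) ≤ √2 := Real.one_le_sqrt.2 one_le_two
  obtain ⟨ωD, hD1, hD2⟩ := exists_Bc (T := d.T) (c := 2) (x := fun i => facD F d.θ (mm F i))
    fun i => BB_mono (d.D_mem _) (d.mq_le i)
  have hvD : d.T.V ωD = 2 ^ (d.e * √2) := rep_eq hD1 (Eventually.of_forall fun i =>
    (hp.v_D (F := F) _).trans (by simp [mul_comm])) (d.lim_m small_zero d.e 0)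
  have hD0 : ωD ≠ 0 := by
    rintro rfl
    rw [map_zero] at hvD
    exact (NNReal.rpow_pos two_pos).ne hvD
  have hz : d.T.V ωD⁻¹ = 2 ^ (-(d.e * √2)) := by rw [map_inv₀, hvD, NNReal.rpow_neg]
  have hg : Good d.T.V (algebraMap d.T.k0 d.T.Ω) ωD⁻¹ := ⟨V_k0_le, by
    rw [hz]
    simpa using two_rpow_le (α := -(d.e * √2)) (M := 1) (by push_cast; nlinarith)⟩
  choose ωE hE1 hE2 using fun j => exists_Bc (T := d.T) (c := 4) (x := fun i =>
    facD F d.θ (mm F i) * ∑ k ∈ Finset.range (mm F i), β j ^ Fintype.card F ^ k / facD F d.θ k)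
    fun i => BB_mono (d.E_mem (hβ j) _) (by nlinarith [d.mq_le i])
  let b : ι → d.T.k0 := fun j => ⟨d.Ψ (β j), Ψ_mem (hβ j)⟩
  obtain ⟨Gs, hG, hG0⟩ : ∃ Gs : ι → PowerSeries d.T.k0, (∀ j K, PowerSeries.coeff
      (Fintype.card F ^ K) (Gs j) = d.cK K * b j ^ Fintype.card F ^ K) ∧
      ∀ j n, (∀ K, n ≠ Fintype.card F ^ K) → PowerSeries.coeff n (Gs j) = 0 :=
    ⟨fun j => PowerSeries.mk fun n => if n = Fintype.card F ^ Nat.log (Fintype.card F) n then
      d.cK (Nat.log (Fintype.card F) n) * b j ^ n else 0,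
      fun j K => by simp [Nat.log_pow (two_le_q (F := F))], fun j n hn => by simp [hn _]⟩
  let : Algebra F d.T.k0 := ((d.ι₀.comp (algebraMap F _)).codRestrict d.T.k0 fun c =>
    ι₀_mem (D := 0) (alg_tower (E := E) c ▸ BB_alg _)).toAlgebra
  have hind := expser_indep (F := F) d.t₀ d.x₀ b d.cK d.cK_ne
    (fun K => (div_mul_cancel₀ _ (d.fac_ne K)).symm)
    (linearIndependent_iff'.2 fun s g h0 => hi.sum_eq_zero s g (d.Ψ.injective (by
      have h1 := congrArg (algebraMap d.T.k0 d.T.Ω) h0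
      simp only [map_sum, map_mul, map_pow, map_zero, Algebra.smul_def, Ψ_alg] at h1 ⊢
      exact h1))) Gs hG hG0
  refine ⟨ωD⁻¹, fun j => d.ι₀ (expC F d.θ (β j)) - ωE j / ωD, _, inv_mem hD2.mem_FH, hz, ?_, hind,
    fun j => ⟨ωE j / ωD, div_mem (hE2 j).mem_FH hD2.mem_FH, (sub_add_cancel _ _).symm⟩⟩
  rintro (_ | j)
  · exact hg.ex_X
  refine Ex_of_approx fun M => ⟨_, _, hg.ex_coe (∑ K ∈ Finset.range M,
    monomial (Fintype.card F ^ K) (d.cK K * b j ^ Fintype.card F ^ K)), fun n hn => ?_, ?_⟩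
  · rw [coeff_coe, finsetSum_coeff]
    by_cases h : ∃ K, n = Fintype.card F ^ K
    · obtain ⟨K, rfl⟩ := h
      rw [Finset.sum_eq_single K (fun K' _ hK => coeff_monomial_of_ne _ fun h =>
        hK (Nat.pow_right_injective two_le_q h).symm) (fun hK => (hK (Finset.mem_range.2
          ((Nat.lt_pow_self two_le_q).trans hn))).elim), coeff_monomial_same]
      exact (hG j K).symm
    · rw [Finset.sum_eq_zero fun K _ => coeff_monomial_of_ne _ fun h' => h ⟨K, h'⟩]
      exact (hG0 j n (not_exists.1 h)).symm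
  · obtain ⟨a, ha⟩ := exists_O (β j)
    have h1 := ((d.rep_ι₀ (expC F d.θ (β j))).sub ((hE1 j).div hD1 hD0)).sub
      (Rep_sum (s := Finset.range M) fun K _ => ((d.rep_cK K).mul
        ((d.rep_Ψ (β j)).pow (Fintype.card F ^ K))).mul ((hD1.inv hD0).pow (Fintype.card F ^ K)))
    have h3 := rep_le h1 (((eventually_ge_atTop a).filter_mono UU_le).mono fun i hi => by
      have h4 := le_mm (F := F) i
      have h5 := hp.pos
      have h6 := hp.O_tail (F := F) ha (mm F i + M) (by push_cast; nlinarith)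
      rw [Finset.sum_range_add, ← sub_sub] at h6
      refine le_of_eq_of_le ?_ (O.mono h6 (le_of_eq ?_))
      · have h7 := hp.D_ne (F := F) (mm F i)
        rw [mul_div_cancel_left₀ _ h7]
        congr 2
        refine Finset.sum_congr rfl fun K _ => ?_
        rw [← pow_mul, ← pow_add, inv_pow]
        field_simp
      · push_cast
        ring) (d.lim_m (d.small 1 M) (-(Fintype.card F ^ M * d.e)) (a - M * d.e))
    refine le_trans (le_of_eq ?_) (h3.trans (two_rpow_le ?_))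
    · simp only [eval₂_finsetSum, eval₂_monomial, map_mul, map_pow]
      rfl
    · have h4 : (M : ℝ) ≤ (Fintype.card F : ℝ) ^ M := by
        exact_mod_cast (Nat.lt_pow_self (two_le_q (F := F))).le
      have h5 : (1 : ℝ) ≤ d.e * √2 := by nlinarith
      push_cast
      nlinarith [Nat.cast_nonneg (α := ℝ) M]

end Dat

end Pool.Agent.MP_ee2255_nt.S
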