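import Mathlib

/-! Power series expansions in a valued field. -/

namespace Pool.Agent.MP_ee2255_nt.S

open PowerSeries
open scoped NNReal Polynomial

section LD

/-- independence of power series is preserved by extension of the coefficient field -/
lemma indep_map {k R ι : Type*} [Field k] [CommRing R] (g : k →+* R) {s : ι → k⟦X⟧}
    (h : AlgebraicIndependent k s) : AlgebraicIndependent R fun i => map g (s i) := by
  letI := g.toAlgebra
  refine algebraicIndependent_iff.2 fun P hP => ?_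
  ext μ
  refine (Module.forall_dual_apply_eq_zero_iff k _).1 fun φ => ?_
  have h1 : MvPolynomial.aeval s
      (∑ ν ∈ P.support, MvPolynomial.monomial ν (φ (P.coeff ν))) = 0 := by
    ext n
    have h2 := congrArg (fun x => φ (coeff n x)) hP
    simp only [MvPolynomial.aeval_def, MvPolynomial.eval₂_eq, map_sum, map_zero] at h2
    simp only [map_sum, MvPolynomial.aeval_monomial, map_zero]
    rw [← h2]
    refine Finset.sum_congr rfl fun ν _ => ?_
    have h3 : ∏ i ∈ ν.support, map g (s i) ^ ν i = map g (ν.prod fun i n => s i ^ n) := by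
      simp [Finsupp.prod]
    rw [h3, ← C_eq_algebraMap, ← C_eq_algebraMap, coeff_C_mul, coeff_C_mul, coeff_map, mul_comm,
      mul_comm (P.coeff ν), ← smul_eq_mul, ← map_smul]
    rfl
  have h4 := congrArg (MvPolynomial.coeff μ) (algebraicIndependent_iff.1 h _ h1)
  classical
  by_cases hμ : μ ∈ P.support
  · simpa [MvPolynomial.coeff_sum, MvPolynomial.coeff_monomial, hμ] using h4
  · simp [MvPolynomial.notMem_support_iff.1 hμ]

lemma indep_map' {R k ι : Type*} [CommRing R] [IsDomain R] [Field k] (g : R →+* k)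
    (hg : Function.Injective g) {s : ι → R⟦X⟧} (h : AlgebraicIndependent R s) :
    AlgebraicIndependent k fun i => map g (s i) := by
  let K := FractionRing R
  have h1 : AlgebraicIndependent R fun i => map (algebraMap R K) (s i) :=
    h.map' (f := mapAlgHom (Algebra.ofId R K)) (map_injective _ (IsFractionRing.injective R K))
  have : Algebra.IsAlgebraic R K := IsLocalization.isAlgebraic K (nonZeroDivisors R)
  have h2 := indep_map (IsFractionRing.lift (K := K) hg) (h1.extendScalars K)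
  convert h2 using 2 with i
  ext n
  simp

end LD

variable {Ω R : Type*} [Field Ω] [CommRing R] (V : Valuation Ω ℝ≥0) (g : R →+* Ω) (z : Ω)

/-- `ω` has the expansion `s` in powers of `z` -/
def Ex (s : R⟦X⟧) (ω : Ω) : Prop := ∀ M, V (ω - (trunc M s).eval₂ g z) ≤ 2⁻¹ ^ M

/-- the standing hypotheses on expansions -/
structure Good : Prop where
  hg : ∀ r, V (g r) ≤ 1
  hz : V z ≤ 2⁻¹

variable {V g z} {s s' : R⟦X⟧} {ω ω' : Ω}

lemma half_le_one : (2⁻¹ : ℝ≥0) ≤ 1 := inv_le_one_of_one_le₀ one_le_two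

lemma eq_zero_of_le {r : ℝ≥0} (C : ℝ≥0) (h : ∀ M : ℕ, r ≤ C * 2⁻¹ ^ M) : r = 0 := by
  have := (NNReal.tendsto_pow_atTop_nhds_zero_of_lt_one (r := 2⁻¹)
    (inv_lt_one_of_one_lt₀ one_lt_two)).const_mul C
  rw [mul_zero] at this
  exact le_antisymm (ge_of_tendsto' this h) zero_le

lemma Ex.le_one (h : Ex V g z s ω) : V ω ≤ 1 := by simpa using h 0

lemma Ex.add (h : Ex V g z s ω) (h' : Ex V g z s' ω') : Ex V g z (s + s') (ω + ω') := fun M => by
  rw [map_add, Polynomial.eval₂_add, add_sub_add_comm]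
  exact V.map_add_le (h M) (h' M)

namespace Good

variable (H : Good V g z)
include H

lemma eval_le (p : R[X]) : V (p.eval₂ g z) ≤ 1 := by
  rw [Polynomial.eval₂_eq_sum, Polynomial.sum]
  refine V.map_sum_le fun i _ => ?_
  rw [map_mul, map_pow]
  exact mul_le_one' (H.hg _) (pow_le_one' (H.hz.trans half_le_one) _)

lemma eval_dvd {p : R[X]} {M : ℕ} (h : ∀ d < M, p.coeff d = 0) : V (p.eval₂ g z) ≤ 2⁻¹ ^ M := by
  obtain ⟨r, rfl⟩ := Polynomial.X_pow_dvd_iff.2 h
  rw [Polynomial.eval₂_mul, Polynomial.eval₂_X_pow, map_mul, map_pow]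
  exact (mul_le_of_le_one_right' (H.eval_le r)).trans (pow_le_pow_left' H.hz _)

lemma ex_coe (p : R[X]) : Ex V g z p (p.eval₂ g z) := fun M => by
  rw [← Polynomial.eval₂_sub]
  exact H.eval_dvd fun d hd => by simp [coeff_trunc, hd]

lemma ex_C (r : R) : Ex V g z (C r) (g r) := by simpa using H.ex_coe (Polynomial.C r)

lemma ex_X : Ex V g z X z := by simpa using H.ex_coe Polynomial.X

lemma ex_mul (h : Ex V g z s ω) (h' : Ex V g z s' ω') : Ex V g z (s * s') (ω * ω') := fun M => by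
  have e : ω * ω' - (trunc M (s * s')).eval₂ g z = (ω - (trunc M s).eval₂ g z) * ω' +
      (trunc M s).eval₂ g z * (ω' - (trunc M s').eval₂ g z) +
      (trunc M s * trunc M s' - trunc M (s * s')).eval₂ g z := by
    rw [Polynomial.eval₂_sub, Polynomial.eval₂_mul]
    ring
  rw [e]
  refine V.map_add_le (V.map_add_le ?_ ?_) (H.eval_dvd fun d hd => ?_)
  · rw [map_mul]
    exact (mul_le_of_le_one_right' h'.le_one).trans (h M)
  · rw [map_mul]
    exact (mul_le_of_le_one_left' (H.eval_le _)).trans (h' M)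
  · rw [Polynomial.coeff_sub, coeff_trunc, if_pos hd, coeff_mul_eq_coeff_trunc_mul_trunc _ _ hd,
      ← Polynomial.coe_mul, Polynomial.coeff_coe, sub_self]

lemma ex_sum {ι : Type*} {t : Finset ι} {s : ι → R⟦X⟧} {ω : ι → Ω}
    (h : ∀ i ∈ t, Ex V g z (s i) (ω i)) : Ex V g z (∑ i ∈ t, s i) (∑ i ∈ t, ω i) := by
  classical
  induction t using Finset.induction_on with
  | empty => simpa using H.ex_C 0
  | insert a t ha ih =>
    simp only [Finset.sum_insert ha]
    exact (h a (by simp)).add (ih fun j hj => h j (by simp [hj]))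

lemma ex_aeval {ι : Type*} {s : ι → R⟦X⟧} {ω : ι → Ω} (h : ∀ i, Ex V g z (s i) (ω i))
    (P : MvPolynomial ι R) : Ex V g z (MvPolynomial.aeval s P) (P.eval₂ g ω) := by
  induction P using MvPolynomial.induction_on with
  | C r => simpa using H.ex_C r
  | add p q hp hq => simpa using hp.add hq
  | mul_X p i hp => simpa using H.ex_mul hp (h i)

end Good

variable (V g z) in
/-- terms of different degrees have different sizes -/
def Dist : Prop :=
  ∀ (r r' : R) (i j : ℕ), r ≠ 0 → V (g r * z ^ i) ≠ 0 ∧ (V (g r * z ^ i) = V (g r' * z ^ j) → i = j)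

lemma Ex.eq_zero (hd : Dist V g z) (h : Ex V g z s 0) : s = 0 := by
  ext n
  by_contra hn
  refine (hd _ 0 n 0 hn).1 (eq_zero_of_le 2 fun M => ?_)
  obtain ⟨j, hj, hj'⟩ := (Finset.range (M + n + 1)).exists_max_image
    (fun i => V (g (coeff i s) * z ^ i)) ⟨0, by simp⟩
  have h1 := hj' n (Finset.mem_range.2 (by omega))
  have h0 : V (g (coeff j s) * z ^ j) ≠ 0 := fun h0 => (hd _ 0 n 0 hn).1 (by simpa [h0] using h1)
  have h2 : coeff j s ≠ 0 := fun h2 => h0 (by simp [h2])
  have h3 := h (M + n + 1)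
  rw [zero_sub, Valuation.map_neg, eval₂_trunc_eq_sum_range, V.map_sum_eq_of_lt hj fun i hi =>
    lt_of_le_of_ne (hj' i (Finset.mem_sdiff.1 hi).1) fun h4 =>
      (Finset.mem_sdiff.1 hi).2 (by simp [(hd _ _ _ _ h2).2 h4.symm])] at h3
  refine (h1.trans h3).trans ((pow_le_pow_right_of_le_one' half_le_one (by omega)).trans
    (le_mul_of_one_le_left' one_le_two))

lemma Good.transfer [Algebra R Ω] (H : Good V (algebraMap R Ω) z) (hd : Dist V (algebraMap R Ω) z)
    {ι : Type*} {s : ι → R⟦X⟧} {ω : ι → Ω} (h : ∀ i, Ex V (algebraMap R Ω) z (s i) (ω i))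
    (hs : AlgebraicIndependent R s) : AlgebraicIndependent R ω := by
  refine algebraicIndependent_iff.2 fun P hP => algebraicIndependent_iff.1 hs P (Ex.eq_zero hd ?_)
  have := H.ex_aeval h P
  rwa [← MvPolynomial.aeval_def, hP] at this

/-- the elements that have an expansion -/
noncomputable def Good.sub {k : Type*} [Field k] [Algebra k Ω] [Algebra k R] [Algebra R Ω]
    [IsScalarTower k R Ω] (H : Good V (algebraMap R Ω) z) : Subalgebra k Ω where
  carrier := {ω | ∃ s, Ex V (algebraMap R Ω) z s ω}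
  mul_mem' := fun ⟨_, h⟩ ⟨_, h'⟩ => ⟨_, H.ex_mul h h'⟩
  add_mem' := fun ⟨_, h⟩ ⟨_, h'⟩ => ⟨_, h.add h'⟩
  algebraMap_mem' c := ⟨_, IsScalarTower.algebraMap_apply k R Ω c ▸ H.ex_C _⟩

theorem two_level {k ι ι' : Type*} [Field k] [Algebra k Ω]
    (hk : ∀ c : k, c ≠ 0 → V (algebraMap k Ω c) = 1) {z z' : Ω} (hz : V z = 2⁻¹) {τ : ℝ}
    (hτ : Irrational τ) (hτ1 : 1 ≤ τ) (hz' : V z' = 2 ^ (-τ))
    {s : ι → k⟦X⟧} {ω : ι → Ω} (h : ∀ i, Ex V (algebraMap k Ω) z (s i) (ω i))
    (hs : AlgebraicIndependent k s)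
    {s' : ι' → k⟦X⟧} {ω' : ι' → Ω} (h' : ∀ i, Ex V (algebraMap k Ω) z' (s' i) (ω' i))
    (hs' : AlgebraicIndependent k s') :
    ∃ S : Subalgebra k Ω, (∀ N : ℕ, ∃ T : Finset Ω, T.card ≤ N ^ 2 ∧
      ∀ x ∈ S, ∃ y ∈ Submodule.span k (T : Set Ω), V (x - y) ≤ 2⁻¹ ^ N) ∧
      (∀ i, ω i ∈ S) ∧ (∀ i, ω' i ∈ S) ∧ AlgebraicIndependent k (Sum.elim ω' ω) := by
  classical
  have H : Good V (algebraMap k Ω) z := ⟨fun c => by
    by_cases hc : c = 0
    · simp [hc]
    · exact (hk c hc).le, hz.le⟩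
  have hd : Dist V (algebraMap k Ω) z := fun r r' i j hr => by
    rw [map_mul, map_mul, map_pow, map_pow, hk r hr, hz, one_mul]
    refine ⟨by simp, fun h1 => ?_⟩
    have h2 : r' ≠ 0 := fun h2 => by simp [h2] at h1
    rw [hk r' h2, one_mul] at h1
    exact pow_right_injective₀ (by simp) (by simp) h1
  let S₁ : Subalgebra k Ω := H.sub
  have hv : ∀ x : S₁, x ≠ 0 → ∃ n : ℕ, V x = 2⁻¹ ^ n := by
    rintro ⟨x, t, ht⟩ hx
    have ht0 : t ≠ 0 := by
      rintro rfl
      exact hx (Subtype.ext ((Valuation.zero_iff V).1 (eq_zero_of_le 1 fun M => by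
        simpa using ht M)))
    have hex := exists_coeff_ne_zero_iff_ne_zero.2 ht0
    refine ⟨Nat.find hex, ?_⟩
    have h1 := ht (Nat.find hex + 1)
    rw [eval₂_trunc_eq_sum_range, Finset.sum_range_succ, Finset.sum_eq_zero fun i hi => by
      simp [not_not.1 (Nat.find_min hex (Finset.mem_range.1 hi))], zero_add] at h1
    have h2 : V (algebraMap k Ω (coeff (Nat.find hex) t) * z ^ Nat.find hex) =
        2⁻¹ ^ Nat.find hex := by rw [map_mul, map_pow, hk _ (Nat.find_spec hex), hz, one_mul]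
    rw [← h2]
    refine V.map_eq_of_sub_lt (h1.trans_lt ?_)
    rw [h2]
    exact pow_lt_pow_right_of_lt_one₀ (by simp) (inv_lt_one_of_one_lt₀ one_lt_two) (lt_add_one _)
  have hz2 : V z' ≤ 2⁻¹ := by
    rw [hz', ← NNReal.rpow_neg_one]
    exact NNReal.rpow_le_rpow_of_exponent_le one_le_two (neg_le_neg hτ1)
  have H' : Good V (algebraMap S₁ Ω) z' := ⟨fun ⟨_, _, ht⟩ => ht.le_one, hz2⟩
  have key : ∀ n i : ℕ, (2⁻¹ : ℝ≥0) ^ n * (2 ^ (-τ)) ^ i = 2 ^ (-(n + i * τ)) := fun n i => by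
    rw [← NNReal.rpow_neg_one, ← NNReal.rpow_mul_natCast, ← NNReal.rpow_mul_natCast,
      ← NNReal.rpow_add two_ne_zero]
    congr 1
    ring
  have hd' : Dist V (algebraMap S₁ Ω) z' := fun r r' i j hr => by
    obtain ⟨n, hn⟩ := hv r hr
    change V (r * z' ^ i) ≠ 0 ∧ (V (r * z' ^ i) = V (r' * z' ^ j) → i = j)
    rw [map_mul, map_mul, map_pow, map_pow, hn, hz', key]
    refine ⟨(NNReal.rpow_pos two_pos).ne', fun h1 => ?_⟩
    have h2 : r' ≠ 0 := fun h2 => by simp [h2] at h1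
    obtain ⟨n', hn'⟩ := hv r' h2
    rw [hn', key] at h1
    have h3 := (NNReal.rpow_right_inj (x := 2) two_ne_zero (by simp)).1 h1
    by_contra h4
    refine (hτ.intCast_mul (m := (i : ℤ) - j) (by omega)).ne_int ((n' : ℤ) - n) ?_
    push_cast
    linarith
  have hex' : ∀ i, Ex V (algebraMap S₁ Ω) z' (map (algebraMap k S₁) (s' i)) (ω' i) := fun i M => by
    rw [trunc_map, Polynomial.eval₂_map, ← IsScalarTower.algebraMap_eq]
    exact h' i M
  refine ⟨H'.sub, fun N => ⟨(Finset.range N ×ˢ Finset.range N).image fun p => z ^ p.1 * z' ^ p.2,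
    Finset.card_image_le.trans (by simp [sq]), ?_⟩,
    fun i => ⟨_, H'.ex_C ⟨ω i, _, h i⟩⟩, fun i => ⟨_, hex' i⟩,
    (H.transfer hd h hs).sumElim_of_tower (S := S₁) ?_ (H'.transfer hd' hex' (indep_map _ hs'))⟩
  · rintro x ⟨t, ht⟩
    choose u hu using fun b => (coeff b t).2
    refine ⟨∑ b ∈ Finset.range N, (trunc N (u b)).eval₂ (algebraMap k Ω) z * z' ^ b,
      sum_mem fun b hb => ?_, ?_⟩
    · rw [eval₂_trunc_eq_sum_range, Finset.sum_mul]
      refine sum_mem fun a ha => ?_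
      rw [mul_assoc, ← Algebra.smul_def]
      exact Submodule.smul_mem _ _ (Submodule.subset_span (Finset.mem_coe.2
        (Finset.mem_image.2 ⟨(a, b), Finset.mem_product.2 ⟨ha, hb⟩, rfl⟩)))
    · have h1 := ht N
      rw [eval₂_trunc_eq_sum_range] at h1
      rw [← sub_add_sub_cancel _ (∑ b ∈ Finset.range N, algebraMap S₁ Ω (coeff b t) * z' ^ b),
        ← Finset.sum_sub_distrib]
      refine V.map_add_le h1 (V.map_sum_le fun b _ => ?_)
      rw [← sub_mul, map_mul, map_pow]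
      exact (mul_le_of_le_one_right' (pow_le_one' (hz2.trans half_le_one) _)).trans (hu b N)
  · rintro _ ⟨i, rfl⟩
    exact ⟨⟨ω i, _, h i⟩, rfl⟩

end Pool.Agent.MP_ee2255_nt.S
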