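import Pool.Agent.MP_ee2255_nt.SExp
import Pool.Agent.MP_ee2255_nt.SHeight
import Pool.Agent.MP_ee2255_nt.SSeries

/-! The two scales and the three embeddings into the ultralimit field. -/

namespace Pool.Agent.MP_ee2255_nt.S

open Filter Topology WithZero Polynomial Setup
open scoped NNReal

variable {F E : Type*} [Field F] [Fintype F] [Field E] [Algebra F E]

omit [Fintype F] in
lemma alg_tower (c : F) : algebraMap F (LaurentSeries E) c =
    algebraMap E (LaurentSeries E) (algebraMap F E c) := by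
  simp [HahnSeries.algebraMap_apply', PowerSeries.algebraMap_apply]

lemma Pole.eval_eq_zero {θ : LaurentSeries E} {e : ℤ} (hθ : Pole θ e) {p : E[X]}
    (h : p.eval₂ (algebraMap E _) θ = 0) : p = 0 := by
  by_contra hp
  have h1 : Valued.v (p.eval₂ (algebraMap E _) θ) = exp (p.natDegree * e) := by
    conv_lhs => rw [← eraseLead_add_C_mul_X_pow p, add_comm]
    rw [eval₂_add]
    refine v_add_of_O ?_ ?_
    · rw [eval₂_mul, eval₂_C, eval₂_X_pow, map_mul, v_algebraMap (leadingCoeff_ne_zero.2 hp),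
        hθ.v_pow, one_mul]
    · rw [eval₂_eq_sum, Polynomial.sum]
      refine O_sum fun i hi => ((O_algebraMap _).mul (hθ.v_pow i).le).mono ?_
      have h2 : (i : ℤ) + 1 ≤ p.natDegree := by
        exact_mod_cast lt_natDegree_of_mem_eraseLead_support hi
      have := hθ.pos
      nlinarith
  rw [h, map_zero] at h1
  exact exp_ne_zero h1.symm

variable (F) in
/-- the first scale -/
noncomputable def mm (i : ℕ) : ℕ := ⌊√2 * (Fintype.card F : ℝ) ^ (i + 1)⌋₊

variable (F) in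
/-- the second scale -/
noncomputable def rr (i : ℕ) : ℕ := mm F i + i

omit [Field F] in
lemma mm_le (i : ℕ) : mm F i ≤ 2 * Fintype.card F ^ (i + 1) := by
  refine Nat.floor_le_of_le ?_
  push_cast
  gcongr
  exact Real.sqrt_le_iff.2 ⟨by norm_num, by norm_num⟩

lemma le_mm (i : ℕ) : i ≤ mm F i := by
  refine Nat.le_floor ?_
  have h1 : i ≤ Fintype.card F ^ (i + 1) :=
    (Nat.le_succ i).trans (Nat.lt_pow_self two_le_q).le
  have h2 : (i : ℝ) ≤ (Fintype.card F : ℝ) ^ (i + 1) := by exact_mod_cast h1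
  exact h2.trans (le_mul_of_one_le_left (by positivity) (Real.one_le_sqrt.2 one_le_two))

lemma tendsto_qpow : Tendsto (fun i => (Fintype.card F : ℝ) ^ (i + 1)) atTop atTop :=
  (tendsto_pow_atTop_atTop_of_one_lt (by exact_mod_cast two_le_q (F := F))).comp
    (tendsto_add_atTop_nat 1)

/-- the data of the problem -/
structure Dat (F E : Type*) [Field E] where
  θ : LaurentSeries E
  e : ℤ
  pole : Pole θ e
  Γ : Set (LaurentSeries E)
  mem : θ ∈ Γ
  c : ℕ
  hL : ∀ D : ℕ, ∀ x ∈ BB E Γ D, x ≠ 0 →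
    exp (-(c * D : ℤ)) ≤ Valued.v x ∧ Valued.v x ≤ exp (c * D : ℤ)

namespace Dat

variable (d : Dat F E)

/-- the ultralimit data -/
noncomputable def T : Setup E (LaurentSeries E) where
  v := Valued.v
  N i := Fintype.card F ^ (rr F i + 1)
  hN _ := pow_pos Fintype.card_pos _
  Γ := d.Γ
  c := d.c
  hL := d.hL

omit [Algebra F E] in
@[simp] lemma T_Γ : d.T.Γ = d.Γ := rfl

omit [Algebra F E] in
lemma T_N (i : ℕ) : d.T.N i = Fintype.card F ^ (rr F i + 1) := rfl

set_option linter.unusedSectionVars false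

lemma N_eq (i : ℕ) : d.T.N i = Fintype.card F ^ mm F i * Fintype.card F ^ (i + 1) := by
  rw [← pow_add]
  rfl

lemma small (a K : ℕ) : d.T.Small fun i => a * Fintype.card F ^ (mm F i + K) := by
  refine Tendsto.mono_left ?_ UU_le
  refine (Tendsto.const_div_atTop (tendsto_qpow (F := F))
    ((a : ℝ) * (Fintype.card F : ℝ) ^ K)).congr fun i => ?_
  have : (Fintype.card F : ℝ) ≠ 0 := by exact_mod_cast Fintype.card_ne_zero
  rw [N_eq]
  push_cast
  field_simp
  ring

lemma small_const (a : ℕ) : d.T.Small fun _ => a := by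
  refine squeeze_zero (fun i => by positivity) (fun i => ?_) (d.small a 0)
  gcongr
  exact Nat.le_mul_of_pos_right _ (pow_pos Fintype.card_pos _)

lemma lim_m {D : ℕ → ℕ} (h : d.T.Small D) (r s : ℤ) : Tendsto (fun i =>
    ((r * (mm F i * (Fintype.card F : ℤ) ^ mm F i) + s * D i : ℤ) : ℝ) / d.T.N i) UU
      (𝓝 (r * √2)) := by
  have h1 := (((tendsto_nat_floor_mul_div_atTop (Real.sqrt_nonneg 2)).comp
    (tendsto_qpow (F := F))).mono_left UU_le).const_mul (r : ℝ)
  have h2 := h1.add (h.const_mul (s : ℝ))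
  rw [mul_zero, add_zero] at h2
  refine h2.congr fun i => ?_
  have : (Fintype.card F : ℝ) ≠ 0 := by exact_mod_cast Fintype.card_ne_zero
  simp only [Function.comp, N_eq]
  rw [← mm]
  push_cast
  field_simp

/-- constant sequences -/
noncomputable def ι₀ : LaurentSeries E →+* d.T.Ω :=
  homO d.T.vs (fun _ => RingHom.id _) fun x => by
    obtain ⟨a, ha⟩ := exists_O x
    exact bd_of (T := d.T) (Eventually.of_forall fun i => O.mono ha (by simp))
      ((d.small_const a).lim 0 1)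

/-- the Frobenius twist at the large scale -/
noncomputable def Φ : LaurentSeries E →+* d.T.Ω :=
  homO d.T.vs (fun i => (fr F E (rr F i + 1)).toRingHom) fun x => by
    obtain ⟨a, ha⟩ := exists_O x
    refine bd_of (T := d.T) (Eventually.of_forall fun i => ?_) (small_zero.lim a 0)
    exact (fr_apply (F := F) _ x).symm ▸ O.mono (O.qpow' (F := F) ha _) (by simp [T, mul_comm])

/-- the Frobenius twist at the small scale -/
noncomputable def Ψ : LaurentSeries E →+* d.T.Ω :=
  homO d.T.vs (fun i => (fr F E (mm F i)).toRingHom) fun x => by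
    obtain ⟨a, ha⟩ := exists_O x
    refine bd_of (T := d.T) (Eventually.of_forall fun i => ?_) ((d.small 1 0).lim 0 a)
    exact (fr_apply (F := F) _ x).symm ▸ O.mono (O.qpow' (F := F) ha _) (by simp [mul_comm])

lemma rep_ι₀ (x : LaurentSeries E) : Rep d.T.vs (fun _ => x) (d.ι₀ x) :=
  rep_homO (fun _ => RingHom.id _) _ x

lemma rep_Φ (x : LaurentSeries E) :
    Rep d.T.vs (fun i => x ^ Fintype.card F ^ (rr F i + 1)) (d.Φ x) :=
  (rep_homO _ _ x).congr (Eventually.of_forall fun _ => fr_apply _ x)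

lemma rep_Ψ (x : LaurentSeries E) : Rep d.T.vs (fun i => x ^ Fintype.card F ^ mm F i) (d.Ψ x) :=
  (rep_homO _ _ x).congr (Eventually.of_forall fun _ => fr_apply _ x)

lemma Ψ_alg (c : F) : d.Ψ (algebraMap F _ c) = d.ι₀ (algebraMap F _ c) :=
  (d.rep_Ψ _).unique ((d.rep_ι₀ _).congr (Eventually.of_forall fun i => by
    rw [← fr_apply, AlgHom.commutes]))

variable {d} {x : LaurentSeries E} {a : ℤ}

lemma V_Φ_le (h : O x a) : d.T.V (d.Φ x) ≤ 2 ^ (a : ℝ) :=
  rep_le (d.rep_Φ x) (Eventually.of_forall fun i => O.mono (O.qpow' (F := F) h _)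
    (by simp [T, mul_comm])) (small_zero.lim a 0)

lemma V_Φ (h : Valued.v x = exp a) : d.T.V (d.Φ x) = 2 ^ (a : ℝ) :=
  rep_eq (d.rep_Φ x) (Eventually.of_forall fun i => by
    change Valued.v _ = _
    rw [map_pow, h, ← exp_nsmul]
    simp [T, mul_comm]) (small_zero.lim a 0)

lemma ι₀_mem {D : ℕ} (h : x ∈ BB E d.Γ D) : d.ι₀ x ∈ d.T.k0 :=
  Bc_of_rep (d.small_const D) (d.rep_ι₀ x) (Eventually.of_forall fun _ => by simpa using h)

lemma Ψ_mem (h : x ∈ d.Γ) : d.Ψ x ∈ d.T.k0 :=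
  Bc_of_rep (d.small 1 0) (d.rep_Ψ x) (Eventually.of_forall fun _ => by
    simpa using BB_gen_pow h _)

lemma Φ_alg_mem (c : E) : d.Φ (algebraMap E _ c) ∈ d.T.k0 :=
  Bc_of_rep small_zero (d.rep_Φ _) (Eventually.of_forall fun _ => by
    rw [← map_pow]
    exact BB_mono (BB_alg _) (Nat.zero_le _))

lemma Φ_mem (h : x ∈ d.Γ) : d.Φ x ∈ d.T.FH :=
  (Bc_of_rep (c := 1) small_zero (d.rep_Φ x) (Eventually.of_forall fun _ => by
    simpa [T_N] using BB_gen_pow h _)).mem_FH

lemma ne_of_rep {y : ℕ → LaurentSeries E} {ω : d.T.Ω} {D : ℕ → ℕ} {c : ℕ} (hD : d.T.Small D)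
    (h : Rep d.T.vs y ω) (h1 : ∀ i, y i ∈ BB E d.Γ (c * d.T.N i + D i)) (h0 : ∀ i, y i ≠ 0) :
    ω ≠ 0 := by
  have := rep_ge h (Eventually.of_forall fun i => le_of_eq_of_le (by
    congr 1
    push_cast
    ring) (d.hL _ _ (h1 i) (h0 i)).1) (hD.lim (-(d.c * c)) (-d.c))
  rintro rfl
  rw [map_zero] at this
  exact (NNReal.rpow_pos two_pos).not_ge this

lemma two_rpow_le {α : ℝ} {M : ℕ} (h : α ≤ -M) : (2 : ℝ≥0) ^ α ≤ 2⁻¹ ^ M := by
  rw [← NNReal.rpow_neg_one, ← NNReal.rpow_mul_natCast]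
  exact NNReal.rpow_le_rpow_of_exponent_le one_le_two (by linarith)

end Dat

lemma Ex_of_approx {Ω R : Type*} [Field Ω] [CommRing R] {V : Valuation Ω ℝ≥0} {g : R →+* Ω}
    {z ω : Ω} {s : PowerSeries R} (h : ∀ M, ∃ s' ω', Ex V g z s' ω' ∧
      (∀ n < M, PowerSeries.coeff n s' = PowerSeries.coeff n s) ∧ V (ω - ω') ≤ 2⁻¹ ^ M) :
    Ex V g z s ω := fun M => by
  obtain ⟨s', ω', h1, h2, h3⟩ := h M
  have h4 : PowerSeries.trunc M s = PowerSeries.trunc M s' := by
    ext n
    rw [PowerSeries.coeff_trunc, PowerSeries.coeff_trunc]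
    split_ifs with hn
    · exact (h2 n hn).symm
    · rfl
  rw [h4, ← sub_add_sub_cancel ω ω']
  exact V.map_add_le h3 (h1 M)

end Pool.Agent.MP_ee2255_nt.S
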