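import Mathlib

/-! The ultralimit of a field with a sequence of real valuations. -/

namespace Pool.Agent.MP_ee2255_nt.S

open Filter Topology
open scoped NNReal

/-- the ultrafilter -/
noncomputable abbrev UU : Filter ℕ := (hyperfilter ℕ : Filter ℕ)

lemma UU_le : UU ≤ atTop := Nat.hyperfilter_le_atTop

variable {L : Type*} [Field L] (vs : ℕ → Valuation L ℝ≥0)

/-- bounded sequences -/
noncomputable def Bd : Subring (ℕ → L) where
  carrier := {x | ∃ C : ℝ≥0, ∀ᶠ i in UU, vs i (x i) ≤ C}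
  mul_mem' := by
    rintro x y ⟨C, h⟩ ⟨C', h'⟩
    refine ⟨C * C', ?_⟩
    filter_upwards [h, h'] with i h1 h2
    rw [Pi.mul_apply, map_mul]
    exact mul_le_mul' h1 h2
  one_mem' := ⟨1, Eventually.of_forall fun i => by simp⟩
  add_mem' := by
    rintro x y ⟨C, h⟩ ⟨C', h'⟩
    refine ⟨max C C', ?_⟩
    filter_upwards [h, h'] with i h1 h2
    exact Valuation.map_add_le _ (h1.trans (le_max_left _ _)) (h2.trans (le_max_right _ _))
  zero_mem' := ⟨0, Eventually.of_forall fun i => by simp⟩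
  neg_mem' := by
    rintro x ⟨C, h⟩
    exact ⟨C, by simpa using h⟩

lemma exists_lim (x : Bd vs) : ∃ r, Tendsto (fun i => vs i (x.1 i)) UU (𝓝 r) := by
  obtain ⟨C, hC⟩ := x.2
  obtain ⟨r, -, hr⟩ := (isCompact_Icc (a := (0 : ℝ≥0)) (b := C)).ultrafilter_le_nhds
    ((hyperfilter ℕ).map fun i => vs i (x.1 i)) (by
      rw [Ultrafilter.coe_map, le_principal_iff, mem_map]
      filter_upwards [hC] with i hi
      exact ⟨zero_le, hi⟩)
  exact ⟨r, hr⟩

/-- the limit valuation on bounded sequences -/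
noncomputable def vB : Valuation (Bd vs) ℝ≥0 where
  toFun x := (exists_lim vs x).choose
  map_zero' := tendsto_nhds_unique (exists_lim vs 0).choose_spec (by simp)
  map_one' := tendsto_nhds_unique (exists_lim vs 1).choose_spec (by simp)
  map_mul' x y := tendsto_nhds_unique (exists_lim vs (x * y)).choose_spec (by
    simpa using (exists_lim vs x).choose_spec.mul (exists_lim vs y).choose_spec)
  map_add_le_max' x y := le_of_tendsto_of_tendsto' (exists_lim vs (x + y)).choose_spec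
    ((exists_lim vs x).choose_spec.max (exists_lim vs y).choose_spec) fun i =>
      Valuation.map_add _ _ _

lemma tendsto_vB (x : Bd vs) : Tendsto (fun i => vs i (x.1 i)) UU (𝓝 (vB vs x)) :=
  (exists_lim vs x).choose_spec

lemma vB_eq_zero {x : Bd vs} (h : ∀ᶠ i in UU, x.1 i = 0) : vB vs x = 0 :=
  tendsto_nhds_unique (tendsto_vB vs x) (tendsto_const_nhds.congr' (by
    filter_upwards [h] with i hi
    simp [hi]))

lemma ev_ne_zero {x : Bd vs} (h : vB vs x ≠ 0) : ∀ᶠ i in UU, x.1 i ≠ 0 := by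
  filter_upwards [(tendsto_vB vs x).eventually_ne h] with i hi
  simpa using hi

lemma inv_mem_Bd {x : Bd vs} (h : vB vs x ≠ 0) : (x.1⁻¹ : ℕ → L) ∈ Bd vs := by
  refine ⟨(vB vs x)⁻¹ + 1, ?_⟩
  have := ((tendsto_vB vs x).inv₀ h).eventually (gt_mem_nhds (lt_add_one _))
  filter_upwards [this] with i hi
  simpa using hi.le

instance : (vB vs).supp.IsMaximal := by
  refine Ideal.isMaximal_iff.2 ⟨by simp, fun J x hJ hx hxJ => ?_⟩
  have h : vB vs x ≠ 0 := hx
  have h1 : 1 - x * ⟨_, inv_mem_Bd vs h⟩ ∈ (vB vs).supp := by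
    refine vB_eq_zero vs ?_
    filter_upwards [ev_ne_zero vs h] with i hi
    simp [hi]
  simpa using J.add_mem (hJ h1) (J.mul_mem_right ⟨_, inv_mem_Bd vs h⟩ hxJ)

/-- the ultralimit field -/
def Om : Type _ := Bd vs ⧸ (vB vs).supp

noncomputable instance : Field (Om vs) := Ideal.Quotient.field _

/-- the quotient map -/
noncomputable def mkO : Bd vs →+* Om vs := Ideal.Quotient.mk _

/-- the limit valuation -/
noncomputable def VV : Valuation (Om vs) ℝ≥0 := (vB vs).onQuot le_rfl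

lemma VV_mk (x : Bd vs) : VV vs (mkO vs x) = vB vs x := rfl

/-- the sequence `x` represents `ω` -/
def Rep (x : ℕ → L) (ω : Om vs) : Prop := ∃ h : x ∈ Bd vs, mkO vs ⟨x, h⟩ = ω

variable {vs} {x y : ℕ → L} {ω ω' : Om vs}

lemma exists_rep (C : ℝ≥0) (h : ∀ᶠ i in UU, vs i (x i) ≤ C) : ∃ ω, Rep vs x ω :=
  ⟨_, ⟨C, h⟩, rfl⟩

lemma Rep.tendsto (h : Rep vs x ω) : Tendsto (fun i => vs i (x i)) UU (𝓝 (VV vs ω)) := by
  obtain ⟨hx, rfl⟩ := h
  exact tendsto_vB vs ⟨x, hx⟩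

lemma Rep.unique (h : Rep vs x ω) (h' : Rep vs x ω') : ω = ω' := h.2.symm.trans h'.2

lemma Rep.add (h : Rep vs x ω) (h' : Rep vs y ω') : Rep vs (fun i => x i + y i) (ω + ω') := by
  obtain ⟨hx, rfl⟩ := h
  obtain ⟨hy, rfl⟩ := h'
  exact ⟨add_mem hx hy, (mkO vs).map_add ⟨x, hx⟩ ⟨y, hy⟩⟩

lemma Rep.mul (h : Rep vs x ω) (h' : Rep vs y ω') : Rep vs (fun i => x i * y i) (ω * ω') := by
  obtain ⟨hx, rfl⟩ := h
  obtain ⟨hy, rfl⟩ := h'
  exact ⟨mul_mem hx hy, (mkO vs).map_mul ⟨x, hx⟩ ⟨y, hy⟩⟩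

lemma Rep.neg (h : Rep vs x ω) : Rep vs (fun i => -x i) (-ω) := by
  obtain ⟨hx, rfl⟩ := h
  exact ⟨neg_mem hx, (mkO vs).map_neg ⟨x, hx⟩⟩

lemma Rep.sub (h : Rep vs x ω) (h' : Rep vs y ω') : Rep vs (fun i => x i - y i) (ω - ω') := by
  simpa [sub_eq_add_neg] using h.add h'.neg

lemma Rep_one : Rep vs (fun _ => 1) 1 := ⟨one_mem _, (mkO vs).map_one⟩

lemma Rep_zero : Rep vs (fun _ => 0) 0 := ⟨zero_mem _, (mkO vs).map_zero⟩

lemma Rep.pow (h : Rep vs x ω) (n : ℕ) : Rep vs (fun i => x i ^ n) (ω ^ n) := by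
  induction n with
  | zero => simpa using Rep_one
  | succ n ih => simpa [pow_succ] using ih.mul h

lemma Rep_sum {ι : Type*} {s : Finset ι} {f : ι → ℕ → L} {g : ι → Om vs}
    (h : ∀ j ∈ s, Rep vs (f j) (g j)) : Rep vs (fun i => ∑ j ∈ s, f j i) (∑ j ∈ s, g j) := by
  classical
  induction s using Finset.induction_on with
  | empty => simpa using Rep_zero
  | insert a s ha ih =>
    simp only [Finset.sum_insert ha]
    exact (h a (by simp)).add (ih fun j hj => h j (by simp [hj]))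

lemma Rep.congr (h : Rep vs x ω) (h' : ∀ᶠ i in UU, x i = y i) : Rep vs y ω := by
  obtain ⟨hx, rfl⟩ := h
  have hy : y ∈ Bd vs := by
    obtain ⟨C, hC⟩ := hx
    refine ⟨C, ?_⟩
    filter_upwards [hC, h'] with i h1 h2
    rwa [← h2]
  refine ⟨hy, Ideal.Quotient.eq.2 (vB_eq_zero vs ?_)⟩
  filter_upwards [h'] with i hi
  simp [hi]

lemma Rep.ev_ne (h : Rep vs x ω) (h0 : ω ≠ 0) : ∀ᶠ i in UU, x i ≠ 0 := by
  filter_upwards [h.tendsto.eventually_ne ((Valuation.ne_zero_iff _).2 h0)] with i hi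
  simpa using hi

lemma Rep.inv (h : Rep vs x ω) (h0 : ω ≠ 0) : Rep vs (fun i => (x i)⁻¹) ω⁻¹ := by
  have h1 := h.ev_ne h0
  obtain ⟨hx, rfl⟩ := h
  have h2 : vB vs ⟨x, hx⟩ ≠ 0 := (Valuation.ne_zero_iff (VV vs)).2 h0
  have h3 : Rep vs (fun i => (x i)⁻¹) (mkO vs ⟨_, inv_mem_Bd vs h2⟩) := ⟨inv_mem_Bd vs h2, rfl⟩
  have h4 := (Rep.mul ⟨hx, rfl⟩ h3).unique (Rep_one.congr (by
    filter_upwards [h1] with i hi
    simp [hi]))
  rwa [← eq_inv_of_mul_eq_one_right h4]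

lemma Rep.div (h : Rep vs x ω) (h' : Rep vs y ω') (h0 : ω' ≠ 0) :
    Rep vs (fun i => x i / y i) (ω / ω') := by
  simpa [div_eq_mul_inv] using h.mul (h'.inv h0)

variable (vs) in
/-- the homomorphism given by a bounded sequence of homomorphisms -/
noncomputable def homO {R : Type*} [CommRing R] (φ : ℕ → R →+* L)
    (h : ∀ r, (fun i => φ i r) ∈ Bd vs) : R →+* Om vs :=
  (mkO vs).comp ((RingHom.pi φ).codRestrict (Bd vs) h)

lemma rep_homO {R : Type*} [CommRing R] (φ : ℕ → R →+* L)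
    (h : ∀ r, (fun i => φ i r) ∈ Bd vs) (r : R) : Rep vs (fun i => φ i r) (homO vs φ h r) :=
  ⟨h r, rfl⟩

end Pool.Agent.MP_ee2255_nt.S
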