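import Pool.Agent.MP_ee2255_nt.TAsym

/-! Calculus of big, low and small sequences. -/

namespace Pool.Agent.MP_ee2255_nt.T

open Polynomial Filter Topology Pool.Agent.MP_655169_nt

theorem sc_pos (N ℓ : ℕ) : 0 < sc N ℓ := pow_pos two_pos _

theorem sc_zero (ℓ : ℕ) : sc 0 ℓ = 1 := by simp [sc]

theorem sc_mono {N N' : ℕ} (h : N ≤ N') (ℓ : ℕ) : sc N ℓ ≤ sc N' ℓ :=
  pow_le_pow_right₀ one_le_two (Nat.mul_le_mul_right _ h)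

theorem sc_lt {N N' : ℕ} (h : N < N') (ℓ : ℕ) : sc N ℓ < sc N' ℓ :=
  pow_lt_pow_right₀ one_lt_two (Nat.mul_lt_mul_of_pos_right h (Nat.succ_pos _))

theorem sc_mul (N N' ℓ : ℕ) : sc N ℓ * sc N' ℓ = sc (N + N') ℓ := by
  rw [sc, sc, sc, ← pow_add, add_mul]

theorem pow_le_sc (N ℓ : ℕ) : (2 : ℝ) ^ N ≤ sc N ℓ :=
  pow_le_pow_right₀ one_le_two (Nat.le_mul_of_pos_right _ (Nat.succ_pos _))

theorem sc_add (N N' ℓ : ℕ) : sc N ℓ + sc N' ℓ ≤ sc (N + N' + 1) ℓ := by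
  have h1 := sc_mono (Nat.le_add_right N N') ℓ
  have h2 := sc_mono (Nat.le_add_left N' N) ℓ
  have h3 := pow_le_sc 1 ℓ
  have h4 := sc_pos (N + N') ℓ
  rw [← sc_mul (N + N') 1]
  nlinarith

theorem le_sc {a N ℓ : ℕ} (h : a ≤ 2 ^ (N * (ℓ + 1))) : (a : ℝ) ≤ sc N ℓ := by
  rw [sc]
  exact_mod_cast h

variable {M M' r r' η L R : ℕ → ℝ} {d : ℕ → ℕ}

theorem msc_add (hM : ∀ ℓ, 1 ≤ M ℓ) (N N' ℓ : ℕ) :
    M ℓ * sc N ℓ + M ℓ * sc N' ℓ ≤ M ℓ * sc (N + N' + 1) ℓ := by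
  rw [← mul_add]
  exact mul_le_mul_of_nonneg_left (sc_add N N' ℓ) (zero_le_one.trans (hM ℓ))

theorem msc_mono (hM : ∀ ℓ, 1 ≤ M ℓ) {N N' : ℕ} (h : N ≤ N') (ℓ : ℕ) :
    M ℓ * sc N ℓ ≤ M ℓ * sc N' ℓ :=
  mul_le_mul_of_nonneg_left (sc_mono h ℓ) (zero_le_one.trans (hM ℓ))

theorem msc_pow (hM : ∀ ℓ, 1 ≤ M ℓ) {a : ℕ} (N : ℕ) {N' ℓ : ℕ} (h : a ≤ 2 ^ (N' * (ℓ + 1))) :
    a * (M ℓ * sc N ℓ) ≤ M ℓ * sc (N + N') ℓ := by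
  rw [← sc_mul, ← mul_assoc (M ℓ), mul_comm (a : ℝ)]
  exact mul_le_mul_of_nonneg_left (le_sc h)
    (mul_nonneg (zero_le_one.trans (hM ℓ)) (sc_pos N ℓ).le)

theorem Big.mono (h : ∀ᶠ ℓ in UU, r ℓ ≤ r' ℓ) (hr : Big M r') : Big M r := by
  obtain ⟨N, hN⟩ := hr
  exact ⟨N, (h.and hN).mono fun ℓ h => h.1.trans h.2⟩

theorem Big.const (hM : ∀ ℓ, 1 ≤ M ℓ) (c : ℝ) : Big M fun _ => c := by
  obtain ⟨N, hN⟩ := pow_unbounded_of_one_lt c (one_lt_two (α := ℝ))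
  refine ⟨N, Eventually.of_forall fun ℓ => ?_⟩
  have h1 := pow_le_sc N ℓ
  have h2 := le_mul_of_one_le_left (sc_pos N ℓ).le (hM ℓ)
  have h3 := Real.add_one_le_exp (M ℓ * sc N ℓ)
  linarith

theorem Big.mul (hM : ∀ ℓ, 1 ≤ M ℓ) (hr : Big M r) (hr' : Big M r') (h0 : ∀ᶠ ℓ in UU, 0 ≤ r' ℓ) :
    Big M fun ℓ => r ℓ * r' ℓ := by
  obtain ⟨N, hN⟩ := hr
  obtain ⟨N', hN'⟩ := hr'
  refine ⟨N + N' + 1, ?_⟩
  filter_upwards [hN, hN', h0] with ℓ h1 h2 h3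
  refine (mul_le_mul h1 h2 h3 (Real.exp_pos _).le).trans ?_
  rw [← Real.exp_add]
  exact Real.exp_le_exp.mpr (msc_add hM N N' ℓ)

theorem Big.pow (hM : ∀ ℓ, 1 ≤ M ℓ) (hr : Big M r) (h0 : ∀ᶠ ℓ in UU, 0 ≤ r ℓ) (hd : Pol d) :
    Big M fun ℓ => r ℓ ^ d ℓ := by
  obtain ⟨N, hN⟩ := hr
  obtain ⟨N', hN'⟩ := hd
  refine ⟨N + N', ?_⟩
  filter_upwards [hN, hN', h0] with ℓ h1 h2 h3
  refine (pow_le_pow_left₀ h3 h1 _).trans ?_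
  rw [← Real.exp_nat_mul]
  exact Real.exp_le_exp.mpr (msc_pow hM N h2)

theorem Big.max (hM : ∀ ℓ, 1 ≤ M ℓ) (hr : Big M r) (hr' : Big M r') :
    Big M fun ℓ => max (r ℓ) (r' ℓ) := by
  obtain ⟨N, hN⟩ := hr
  obtain ⟨N', hN'⟩ := hr'
  refine ⟨N + N', ?_⟩
  filter_upwards [hN, hN'] with ℓ h1 h2
  exact max_le (h1.trans (Real.exp_le_exp.mpr (msc_mono hM (Nat.le_add_right _ _) ℓ)))
    (h2.trans (Real.exp_le_exp.mpr (msc_mono hM (Nat.le_add_left _ _) ℓ)))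

theorem Big.add (hM : ∀ ℓ, 1 ≤ M ℓ) (hr : Big M r) (hr' : Big M r') :
    Big M fun ℓ => r ℓ + r' ℓ := by
  refine Big.mono (Eventually.of_forall fun ℓ => ?_) ((hr.max hM hr').mul hM (Big.const hM 2)
    (Eventually.of_forall fun _ => zero_le_two))
  linarith [le_max_left (r ℓ) (r' ℓ), le_max_right (r ℓ) (r' ℓ)]

theorem Big.sum (hM : ∀ ℓ, 1 ≤ M ℓ) {ι : Type*} (s : Finset ι) {r : ι → ℕ → ℝ}
    (h : ∀ i ∈ s, Big M (r i)) : Big M fun ℓ => ∑ i ∈ s, r i ℓ := by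
  classical
  induction s using Finset.induction_on with
  | empty => simpa using Big.const hM 0
  | insert i s hi ih =>
    simp only [Finset.sum_insert hi]
    exact (h i (Finset.mem_insert_self _ _)).add hM
      (ih fun j hj => h j (Finset.mem_insert_of_mem hj))

theorem Big.level (h : ∀ᶠ ℓ in UU, M ℓ ≤ M' ℓ) (hr : Big M r) : Big M' r := by
  obtain ⟨N, hN⟩ := hr
  refine ⟨N, ?_⟩
  filter_upwards [hN, h] with ℓ h1 h2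
  exact h1.trans (Real.exp_le_exp.mpr (mul_le_mul_of_nonneg_right h2 (sc_pos N ℓ).le))

theorem Low.mono (h : ∀ᶠ ℓ in UU, r ℓ ≤ r' ℓ) (hr : Low M r) : Low M r' := by
  obtain ⟨N, hN⟩ := hr
  exact ⟨N, (h.and hN).mono fun ℓ h => h.2.trans h.1⟩

theorem Low.const (hM : ∀ ℓ, 1 ≤ M ℓ) {c : ℝ} (hc : 0 < c) : Low M fun _ => c := by
  obtain ⟨N, hN⟩ := Big.const hM c⁻¹
  refine ⟨N, hN.mono fun ℓ h => ?_⟩
  rw [Real.exp_neg]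
  exact inv_le_of_inv_le₀ hc h

theorem Low.pos (hr : Low M r) : ∀ᶠ ℓ in UU, 0 < r ℓ := by
  obtain ⟨N, hN⟩ := hr
  exact hN.mono fun ℓ h => (Real.exp_pos _).trans_le h

theorem Low.mul (hM : ∀ ℓ, 1 ≤ M ℓ) (hr : Low M r) (hr' : Low M r') :
    Low M fun ℓ => r ℓ * r' ℓ := by
  obtain ⟨N, hN⟩ := hr
  obtain ⟨N', hN'⟩ := hr'
  refine ⟨N + N' + 1, ?_⟩
  filter_upwards [hN, hN'] with ℓ h1 h2
  refine le_trans ?_ (mul_le_mul h1 h2 (Real.exp_pos _).le ((Real.exp_pos _).le.trans h1))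
  rw [← Real.exp_add]
  exact Real.exp_le_exp.mpr (by linarith [msc_add hM N N' ℓ])

theorem Low.pow (hM : ∀ ℓ, 1 ≤ M ℓ) (hr : Low M r) (hd : Pol d) :
    Low M fun ℓ => r ℓ ^ d ℓ := by
  obtain ⟨N, hN⟩ := hr
  obtain ⟨N', hN'⟩ := hd
  refine ⟨N + N', ?_⟩
  filter_upwards [hN, hN'] with ℓ h1 h2
  refine le_trans ?_ (pow_le_pow_left₀ (Real.exp_pos _).le h1 _)
  rw [← Real.exp_nat_mul]
  exact Real.exp_le_exp.mpr (by linarith [msc_pow hM N h2])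

theorem Low.level (h : ∀ᶠ ℓ in UU, M ℓ ≤ M' ℓ) (hr : Low M r) : Low M' r := by
  obtain ⟨N, hN⟩ := hr
  refine ⟨N, ?_⟩
  filter_upwards [hN, h] with ℓ h1 h2
  exact (Real.exp_le_exp.mpr
    (neg_le_neg (mul_le_mul_of_nonneg_right h2 (sc_pos N ℓ).le))).trans h1

theorem Low.inv (hr : Low M r) : Big M fun ℓ => (r ℓ)⁻¹ := by
  obtain ⟨N, hN⟩ := hr
  refine ⟨N, hN.mono fun ℓ h => ?_⟩
  rw [Real.exp_neg] at h
  exact inv_le_of_inv_le₀ (Real.exp_pos _) h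

/-- If `L ≤ r * R` with `L` low and `R` big then `r` is low. -/
theorem Low.of_le_mul (hM : ∀ ℓ, 1 ≤ M ℓ) (hL : Low M L) (hR : Big M R)
    (h : ∀ᶠ ℓ in UU, 0 ≤ r ℓ ∧ L ℓ ≤ r ℓ * R ℓ) : Low M r := by
  obtain ⟨N, hN⟩ := hL
  obtain ⟨N', hN'⟩ := hR
  refine ⟨N + N' + 1, ?_⟩
  filter_upwards [hN, hN', h] with ℓ h1 h2 h3
  have h4 := h1.trans (h3.2.trans (mul_le_mul_of_nonneg_left h2 h3.1))
  rw [← div_le_iff₀ (Real.exp_pos _), ← Real.exp_sub] at h4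
  exact (Real.exp_le_exp.mpr (by linarith [msc_add hM N N' ℓ])).trans h4

/-- If `r * L ≤ R` with `L` low and `R` big then `r` is big. -/
theorem Big.of_mul_le (hM : ∀ ℓ, 1 ≤ M ℓ) (hL : Low M L) (hR : Big M R)
    (h : ∀ᶠ ℓ in UU, 0 ≤ r ℓ ∧ r ℓ * L ℓ ≤ R ℓ) : Big M r := by
  obtain ⟨N, hN⟩ := hL
  obtain ⟨N', hN'⟩ := hR
  refine ⟨N + N' + 1, ?_⟩
  filter_upwards [hN, hN', h] with ℓ h1 h2 h3
  have h4 := (mul_le_mul_of_nonneg_left h1 h3.1).trans (h3.2.trans h2)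
  rw [← le_div_iff₀ (Real.exp_pos _), ← Real.exp_sub] at h4
  exact h4.trans (Real.exp_le_exp.mpr (by linarith [msc_add hM N N' ℓ]))

/-- A sequence of nonzero elements is low at its own level. -/
theorem low_lev {C : Type*} [NormedField C] {a : ℕ → C} (h : ∀ᶠ ℓ in UU, a ℓ ≠ 0) :
    Low (lev a) fun ℓ => ‖a ℓ‖ := by
  refine ⟨0, h.mono fun ℓ h => ?_⟩
  rw [sc_zero, mul_one, ← Real.le_log_iff_exp_le (norm_pos_iff.mpr h)]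
  exact neg_le.mp (le_max_right _ _)

theorem one_le_lev {C : Type*} [NormedField C] (a : ℕ → C) (ℓ : ℕ) : 1 ≤ lev a ℓ :=
  le_max_left _ _

/-- A very small sequence has a higher level. -/
theorem Sm.le_lev {C : Type*} [NormedField C] {a : ℕ → C} (h0 : ∀ᶠ ℓ in UU, a ℓ ≠ 0)
    (hM : ∀ ℓ, 1 ≤ M ℓ) (h : Sm M fun ℓ => ‖a ℓ‖) : ∀ᶠ ℓ in UU, M ℓ ≤ lev a ℓ := by
  have _ := hM
  filter_upwards [h0, h 0] with ℓ h1 h2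
  rw [sc_zero, mul_one, ← Real.log_lt_iff_lt_exp (norm_pos_iff.mpr h1)] at h2
  exact (lt_neg.mp h2).le.trans (le_max_right _ _)

theorem not_low : ¬ Low M r ↔ Sm M r := by
  simp only [Low, Sm, not_exists, ev_not, not_le]

theorem Sm.not_low (h : Sm M r) (h' : Low M r) : False := T.not_low.mpr h h'

theorem Sm.mono (h : ∀ᶠ ℓ in UU, r ℓ ≤ r' ℓ) (hr : Sm M r') : Sm M r := fun N =>
  (h.and (hr N)).mono fun _ h => h.1.trans_lt h.2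

theorem Sm.level (h : ∀ᶠ ℓ in UU, M ℓ ≤ M' ℓ) (hr : Sm M' r) : Sm M r :=
  T.not_low.mp fun h' => hr.not_low (h'.level h)

theorem Sm.zero : Sm M fun _ => 0 := fun _ => Eventually.of_forall fun _ => Real.exp_pos _

theorem Sm.lt_low (hM : ∀ ℓ, 1 ≤ M ℓ) (hη : Sm M η) (hL : Low M L) : ∀ᶠ ℓ in UU, η ℓ < L ℓ := by
  have _ := hM
  obtain ⟨N, hN⟩ := hL
  exact ((hη N).and hN).mono fun _ h => h.1.trans_le h.2

theorem Sm.lt_one (hM : ∀ ℓ, 1 ≤ M ℓ) (hη : Sm M η) : ∀ᶠ ℓ in UU, η ℓ < 1 :=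
  hη.lt_low hM (Low.const hM one_pos)

theorem Sm.mul_big (hM : ∀ ℓ, 1 ≤ M ℓ) (hη : Sm M η) (hR : Big M R) (h0 : ∀ᶠ ℓ in UU, 0 ≤ R ℓ) :
    Sm M fun ℓ => η ℓ * R ℓ := by
  refine T.not_low.mp fun h => hη.not_low (h.of_le_mul hM hR ?_)
  filter_upwards [h.pos, h0] with ℓ h1 h2
  exact ⟨(pos_of_mul_pos_left h1 h2).le, le_rfl⟩

theorem Sm.max (hη : Sm M η) (hr : Sm M r) : Sm M fun ℓ => max (η ℓ) (r ℓ) := fun N =>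
  ((hη N).and (hr N)).mono fun _ h => max_lt h.1 h.2

theorem Sm.add (hM : ∀ ℓ, 1 ≤ M ℓ) (hη : Sm M η) (hr : Sm M r) : Sm M fun ℓ => η ℓ + r ℓ := by
  refine Sm.mono (Eventually.of_forall fun ℓ => ?_) ((hη.max hr).mul_big hM (Big.const hM 2)
    (Eventually.of_forall fun _ => zero_le_two))
  linarith [le_max_left (η ℓ) (r ℓ), le_max_right (η ℓ) (r ℓ)]

theorem Sm.sum (hM : ∀ ℓ, 1 ≤ M ℓ) {ι : Type*} (s : Finset ι) {r : ι → ℕ → ℝ}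
    (h : ∀ i ∈ s, Sm M (r i)) : Sm M fun ℓ => ∑ i ∈ s, r i ℓ := by
  classical
  induction s using Finset.induction_on with
  | empty => simpa using Sm.zero
  | insert i s hi ih =>
    simp only [Finset.sum_insert hi]
    exact (h i (Finset.mem_insert_self _ _)).add hM
      (ih fun j hj => h j (Finset.mem_insert_of_mem hj))

theorem Sm.pow (hM : ∀ ℓ, 1 ≤ M ℓ) (hη : Sm M η) (h : ∀ᶠ ℓ in UU, 0 ≤ η ℓ ∧ 1 ≤ d ℓ) :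
    Sm M fun ℓ => η ℓ ^ d ℓ := by
  refine hη.mono ?_
  filter_upwards [h, hη.lt_one hM] with ℓ h1 h2
  exact pow_le_of_le_one h1.1 h2.le (Nat.one_le_iff_ne_zero.mp h1.2)

theorem Sm.root (hM : ∀ ℓ, 1 ≤ M ℓ) (hη : Sm M η) (hL : Low M L) (hd : Pol d)
    (h : ∀ᶠ ℓ in UU, 0 ≤ r ℓ ∧ 1 ≤ d ℓ ∧ r ℓ ^ d ℓ * L ℓ ≤ η ℓ) : Sm M r :=
  T.not_low.mp fun h' =>
    hη.not_low (((h'.pow hM hd).mul hM hL).mono (h.mono fun _ h => h.2.2))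

theorem exists_eps (hM : ∀ ℓ, 1 ≤ M ℓ) (hη : Sm M η) (hL : Low M L) (hd : Pol d) :
    ∃ ε, Sm M ε ∧ ∀ᶠ ℓ in UU, 0 < ε ℓ ∧ ε ℓ ≤ 1 ∧ η ℓ < ε ℓ ^ d ℓ * L ℓ := by
  have h1 : Sm M fun ℓ => Real.exp (-(M ℓ * sc ℓ ℓ)) := fun N => by
    filter_upwards [ev_top (eventually_gt_atTop N)] with ℓ h
    exact Real.exp_lt_exp.mpr (neg_lt_neg
      (mul_lt_mul_of_pos_left (sc_lt h ℓ) (zero_lt_one.trans_le (hM ℓ))))
  let η' : ℕ → ℝ := fun ℓ => max (η ℓ) (Real.exp (-(M ℓ * sc ℓ ℓ)))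
  have h2 : ∀ ℓ, 0 < η' ℓ := fun ℓ => (Real.exp_pos _).trans_le (le_max_right _ _)
  have h3 : Sm M fun ℓ => η' ℓ * 2 :=
    (hη.max h1).mul_big hM (Big.const hM 2) (Eventually.of_forall fun _ => zero_le_two)
  let ε : ℕ → ℝ := fun ℓ => (η' ℓ * 2 / L ℓ) ^ (((d ℓ + 1 : ℕ) : ℝ)⁻¹)
  have h4 : ∀ᶠ ℓ in UU, 0 < ε ℓ ∧ ε ℓ ^ (d ℓ + 1) * L ℓ = η' ℓ * 2 := by
    filter_upwards [hL.pos] with ℓ h
    have h5 : 0 < η' ℓ * 2 / L ℓ := div_pos (mul_pos (h2 ℓ) two_pos) h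
    refine ⟨Real.rpow_pos_of_pos h5 _, ?_⟩
    rw [Real.rpow_inv_natCast_pow h5.le (Nat.succ_ne_zero _), div_mul_cancel₀ _ h.ne']
  have h6 : Sm M ε := h3.root hM hL (hd.add (Pol.const 1))
    (h4.mono fun ℓ h => ⟨h.1.le, Nat.le_add_left _ _, h.2.le⟩)
  refine ⟨ε, h6, ?_⟩
  filter_upwards [h4, h6.lt_one hM, hL.pos] with ℓ h7 h8 h9
  refine ⟨h7.1, h8.le, ?_⟩
  have h10 := mul_le_mul_of_nonneg_right
    (pow_le_pow_of_le_one h7.1.le h8.le (Nat.le_add_right (d ℓ) 1)) h9.le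
  have h11 : η ℓ ≤ η' ℓ := le_max_left _ _
  linarith [h7.2, h2 ℓ]

theorem exists_trunc (hM : ∀ ℓ, 1 ≤ M ℓ) (hL : Low M L) (hR : Big M R) {c : ℝ} (hc : 0 < c)
    {q : ℕ} (hq : 2 ≤ q) : ∃ m, Lin m ∧ ∀ᶠ ℓ in UU, ∀ m', m ℓ ≤ m' →
      R ℓ * Real.exp (-(c * M ℓ * (q : ℝ) ^ m')) < L ℓ := by
  obtain ⟨N, hN⟩ := hL
  obtain ⟨N', hN'⟩ := hR
  obtain ⟨K, hK⟩ := pow_unbounded_of_one_lt c⁻¹ (one_lt_two (α := ℝ))
  have hK' : 1 < c * 2 ^ K := by rwa [inv_lt_iff_one_lt_mul₀' hc] at hK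
  refine ⟨fun ℓ => (N + N' + 1) * (ℓ + 1) + K, (Lin.id _).add (Lin.const K), ?_⟩
  filter_upwards [hN, hN'] with ℓ h1 h2 m' hm
  refine lt_of_le_of_lt (mul_le_mul_of_nonneg_right h2 (Real.exp_pos _).le) (lt_of_lt_of_le ?_ h1)
  rw [← Real.exp_add, Real.exp_lt_exp]
  have h3 : sc (N + N' + 1) ℓ * 2 ^ K ≤ (q : ℝ) ^ m' := by
    rw [sc, ← pow_add]
    exact (pow_le_pow_right₀ one_le_two hm).trans
      (pow_le_pow_left₀ zero_le_two (by exact_mod_cast hq) _)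
  have h4 : 0 < M ℓ := zero_lt_one.trans_le (hM ℓ)
  have h5 := mul_le_mul_of_nonneg_left h3 (mul_pos hc h4).le
  have h6 := mul_lt_mul_of_pos_left hK' (mul_pos h4 (sc_pos (N + N' + 1) ℓ))
  have h7 := msc_add hM N N' ℓ
  nlinarith

end Pool.Agent.MP_ee2255_nt.T
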