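import Pool.Agent.MP_ee2255_nt.TNrm
import Pool.Agent.MP_ee2255_nt.TAsy2
import Pool.Agent.MP_655169_nt.VsL

/-! A maximal independent subfamily. -/

set_option linter.unusedSectionVars false

namespace Pool.Agent.MP_ee2255_nt.T

open Polynomial Filter Topology Pool.Agent.MP_655169_nt

theorem al1_cons {E C : Type*} [Field E] [Field C] [Algebra E C] {s : ℕ} (μ : Fin s → C) (y : C)
    (p : MvPolynomial (Fin (s + 1)) E) :
    MvPolynomial.aeval (Fin.cons y μ : Fin (s + 1) → C) p =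
      (MvPolynomial.finSuccEquiv E s p).eval₂
        (MvPolynomial.aeval μ : MvPolynomial (Fin s) E →ₐ[E] C).toRingHom y := by
  induction p using MvPolynomial.induction_on with
  | C a => simp [MvPolynomial.finSuccEquiv_apply]
  | add p q hp hq => rw [map_add, map_add, eval₂_add, hp, hq]
  | mul_X p i hp =>
    rw [map_mul, map_mul, eval₂_mul, hp]
    congr 1
    refine Fin.cases ?_ (fun j => ?_) i
    · simp [MvPolynomial.finSuccEquiv_X_zero]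
    · simp [MvPolynomial.finSuccEquiv_X_succ]

theorem al1_one {E C : Type*} [Field E] [Field C] [Algebra E C] (θ : C)
    (p : MvPolynomial (Fin 1) E) :
    MvPolynomial.aeval (fun _ : Fin 1 => θ) p =
      aeval θ (MvPolynomial.uniqueAlgEquiv E (Fin 1) p) := by
  induction p using MvPolynomial.induction_on with
  | C a => simp [MvPolynomial.uniqueAlgEquiv]
  | add p q hp hq => rw [map_add, map_add, map_add, hp, hq]
  | mul_X p i hp =>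
    rw [map_mul, map_mul, map_mul, hp]
    congr 1
    simp [MvPolynomial.uniqueAlgEquiv]

variable {E C : Type*} [Field E] [NormedField C] [IsUltrametricDist C] [IsAlgClosed C]
  [Algebra E C] (hE : ∀ e : E, ‖algebraMap E C e‖ ≤ 1) {θ : C} (hθ : 1 < ‖θ‖)

/-- A dependent extension gives an algebraic approximation. -/
theorem al1_step {M : ℕ → ℝ} (hM : ∀ ℓ, 1 ≤ M ℓ) {s : ℕ} (μ : ℕ → Fin s → C) (y : ℕ → C)
    (hI : Ind E M μ) (hn : ¬ Ind E M fun ℓ => (Fin.cons (y ℓ) (μ ℓ) : Fin (s + 1) → C)) :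
    ∃ (y' : ℕ → C) (N : ℕ → ℕ), Pol N ∧ Sm M (fun ℓ => ‖y ℓ - y' ℓ‖) ∧
      ∀ᶠ ℓ in UU, Alg E (μ ℓ) (N ℓ) (N ℓ) (y' ℓ) := by
  simp only [Ind, not_forall] at hn
  obtain ⟨p, δ, hδ, hp, hs⟩ := hn
  rw [not_low] at hs
  simp only [al1_cons] at hs
  set Φ : ℕ → (MvPolynomial (Fin s) E)[X] := fun ℓ => MvPolynomial.finSuccEquiv E s (p ℓ) with hΦ
  have hc : ∀ᶠ ℓ in UU, ∀ j, ((Φ ℓ).coeff j).totalDegree ≤ δ ℓ := by
    filter_upwards [hp] with ℓ h j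
    by_cases h0 : (Φ ℓ).coeff j = 0
    · rw [h0]; simp
    · have := MvPolynomial.totalDegree_coeff_finSuccEquiv_add_le (p ℓ) j h0
      exact le_trans (le_trans (Nat.le_add_right _ _) this) h.2
  have hd : ∀ᶠ ℓ in UU, (Φ ℓ).natDegree ≤ δ ℓ := by
    filter_upwards [hp] with ℓ h
    rw [hΦ]
    simp only [MvPolynomial.natDegree_finSuccEquiv]
    exact (MvPolynomial.degreeOf_le_totalDegree _ _).trans h.2
  have hl : Low M fun ℓ => ‖MvPolynomial.aeval (μ ℓ) (Φ ℓ).leadingCoeff‖ := by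
    refine hI (fun ℓ => (Φ ℓ).leadingCoeff) δ hδ ?_
    filter_upwards [hp, hc] with ℓ h h2
    refine ⟨leadingCoeff_ne_zero.2 ?_, h2 _⟩
    exact (map_ne_zero_iff _ (MvPolynomial.finSuccEquiv E s).injective).2 h.1
  have hpos : ∀ᶠ ℓ in UU, 0 < (Φ ℓ).natDegree := by
    filter_upwards [hs.lt_low hM hl] with ℓ h
    by_contra h0
    have h1 : (Φ ℓ).natDegree = 0 := by omega
    have h2 := eq_C_of_natDegree_eq_zero h1
    change ‖(Φ ℓ).eval₂ _ _‖ < _ at h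
    rw [leadingCoeff, h1] at h
    rw [h2] at h
    simp at h
  have hx : ∀ᶠ ℓ in UU, ∃ ξ : C, Alg E (μ ℓ) (δ ℓ) (δ ℓ) ξ ∧
      ‖y ℓ - ξ‖ ^ (Φ ℓ).natDegree * ‖MvPolynomial.aeval (μ ℓ) (Φ ℓ).leadingCoeff‖ ≤
        ‖(Φ ℓ).eval₂ (MvPolynomial.aeval (μ ℓ) : MvPolynomial (Fin s) E →ₐ[E] C).toRingHom
          (y ℓ)‖ := by
    filter_upwards [hc, hd, hl.pos, hpos] with ℓ h1 h2 h3 h4
    have h5 : (MvPolynomial.aeval (μ ℓ) : MvPolynomial (Fin s) E →ₐ[E] C).toRingHom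
        (Φ ℓ).leadingCoeff ≠ 0 := norm_pos_iff.1 h3
    have h6 := natDegree_map_of_leadingCoeff_ne_zero _ h5
    have h7 := leadingCoeff_map_of_leadingCoeff_ne_zero _ h5
    obtain ⟨ξ, a1, a2⟩ := root_near ((Φ ℓ).map
      (MvPolynomial.aeval (μ ℓ) : MvPolynomial (Fin s) E →ₐ[E] C).toRingHom) (by omega) (y ℓ)
    rw [eval_map] at a1 a2
    rw [h6, h7, mul_comm] at a2
    exact ⟨ξ, ⟨Φ ℓ, h2, h1, h5, a1⟩, a2⟩
  obtain ⟨y', hy'⟩ := ev_choose hx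
  refine ⟨y', δ, hδ, Sm.root hM hs hl (hδ.mono hd) ?_, hy'.mono fun ℓ h => h.1⟩
  filter_upwards [hy', hpos] with ℓ h1 h2
  exact ⟨norm_nonneg _, h2, h1.2⟩

include hE hθ

theorem exists_ind {M : ℕ → ℝ} (hM : ∀ ℓ, 1 ≤ M ℓ) {m : ℕ} (lam : ℕ → Fin m → C) :
    ∃ (s : ℕ) (e : Fin s → Option (Fin m)) (i0 : Fin s), Function.Injective e ∧ e i0 = none ∧
      Ind E M (fun ℓ => zz θ (lam ℓ) ∘ e) ∧
      ∃ (lam' : ℕ → Fin m → C) (N : ℕ → ℕ) (η : ℕ → ℝ), Pol N ∧ Sm M η ∧ ∀ᶠ ℓ in UU, 0 ≤ η ℓ ∧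
        ∀ j, Alg E (zz θ (lam ℓ) ∘ e) (N ℓ) (N ℓ) (lam' ℓ j) ∧ ‖lam ℓ j - lam' ℓ j‖ ≤ η ℓ := by
  classical
  let P : ℕ → Prop := fun s => ∃ (e : Fin s → Option (Fin m)) (i0 : Fin s),
    Function.Injective e ∧ e i0 = none ∧ Ind E M (fun ℓ => zz θ (lam ℓ) ∘ e)
  have P1 : P 1 := by
    refine ⟨fun _ => none, 0, fun a b _ => Subsingleton.elim a b, rfl, fun p δ _ hp => ?_⟩
    refine (Low.const hM one_pos).mono ?_
    filter_upwards [hp] with ℓ h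
    have h1 : (zz θ (lam ℓ) ∘ fun _ : Fin 1 => none) = fun _ : Fin 1 => θ := rfl
    rw [h1, al1_one, normE_poly hE hθ
      ((map_ne_zero_iff _ (MvPolynomial.uniqueAlgEquiv E (Fin 1)).injective).2 h.1)]
    exact one_le_pow₀ hθ.le
  obtain ⟨s, ⟨e, i0, he, h0, hI⟩, hmax⟩ : ∃ s, P s ∧ ¬ P (s + 1) := by
    by_contra hc
    push Not at hc
    have h2 : ∀ k, P (k + 1) := fun k => by
      induction k with
      | zero => exact P1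
      | succ k ih => exact hc _ ih
    obtain ⟨e, -, he, -⟩ := h2 (m + 1)
    have := Fintype.card_le_of_injective e he
    simp at this
  have key : ∀ j : Fin m, ∃ (y' : ℕ → C) (N : ℕ → ℕ), Pol N ∧ Sm M (fun ℓ => ‖lam ℓ j - y' ℓ‖) ∧
      ∀ᶠ ℓ in UU, Alg E (zz θ (lam ℓ) ∘ e) (N ℓ) (N ℓ) (y' ℓ) := by
    intro j
    by_cases hj : some j ∈ Set.range e
    · obtain ⟨k, hk⟩ := hj
      refine ⟨fun ℓ => lam ℓ j, fun _ => 1, Pol.const 1, by simpa using Sm.zero,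
        Eventually.of_forall fun ℓ => ?_⟩
      have := Alg.var (F := E) (zz θ (lam ℓ) ∘ e) k
      rwa [Function.comp_apply, hk] at this
    · refine al1_step hM _ (fun ℓ => lam ℓ j) hI fun h => hmax
        ⟨Fin.cons (some j) e, i0.succ, Fin.cons_injective_iff.2 ⟨hj, he⟩, h0, ?_⟩
      have h3 : (fun ℓ => zz θ (lam ℓ) ∘ (Fin.cons (some j) e : Fin (s + 1) → Option (Fin m))) =
          fun ℓ => (Fin.cons (lam ℓ j) (zz θ (lam ℓ) ∘ e) : Fin (s + 1) → C) := by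
        funext ℓ i
        refine Fin.cases rfl (fun _ => rfl) i
      rw [h3]
      exact h
  choose y' N hN hS hA using key
  refine ⟨s, e, i0, he, h0, hI, fun ℓ j => y' j ℓ, fun ℓ => ∑ j, N j ℓ,
    fun ℓ => ∑ j, ‖lam ℓ j - y' j ℓ‖, Pol.sum _ fun j _ => hN j, Sm.sum hM _ fun j _ => hS j, ?_⟩
  filter_upwards [eventually_all.2 hA] with ℓ h
  refine ⟨Finset.sum_nonneg fun _ _ => norm_nonneg _, fun j => ⟨?_, ?_⟩⟩
  · have h4 : N j ℓ ≤ ∑ j, N j ℓ :=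
      Finset.single_le_sum (f := fun j => N j ℓ) (fun _ _ => Nat.zero_le _) (Finset.mem_univ j)
    exact (h j).mono h4 h4
  · exact Finset.single_le_sum (f := fun j => ‖lam ℓ j - y' j ℓ‖) (fun _ _ => norm_nonneg _)
      (Finset.mem_univ j)

omit hθ [IsAlgClosed C] in
theorem exists_fr {F κ : Type*} [Field F] [Fintype F] [Algebra F C] {M : ℕ → ℝ}
    (hM : ∀ ℓ, 1 ≤ M ℓ) (μ : ℕ → κ → C) (hI : Ind E M μ) {R : ℕ → ℝ} (hR : Big M R)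
    (hμ : ∀ᶠ ℓ in UU, 1 ≤ R ℓ ∧ ∀ k, ‖μ ℓ k‖ ≤ R ℓ) (L : ℕ → Fl F θ)
    (Δ : ℕ → MvPolynomial κ E) (γ : ℕ → ℕ) (hγ : Pol γ)
    (h : ∀ᶠ ℓ in UU, FrOk E (L ℓ) (μ ℓ) (Δ ℓ) (γ ℓ)) : ∃ Φ : Fr F θ M, Φ.fl = L := by
  have hR0 : ∀ᶠ ℓ in UU, 0 ≤ R ℓ := hμ.mono fun ℓ h => zero_le_one.trans h.1
  have hDl : Low M fun ℓ => ‖MvPolynomial.aeval (μ ℓ) (Δ ℓ)‖ :=
    hI Δ γ hγ (h.mono fun ℓ h => ⟨h.ne, h.deg⟩)
  have hDb : Big M fun ℓ => ‖MvPolynomial.aeval (μ ℓ) (Δ ℓ)‖ := by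
    refine Big.mono ?_ (hR.pow hM hR0 hγ)
    filter_upwards [hμ, h] with ℓ h1 h2
    exact normE_aeval hE _ h1.1 h1.2 _ h2.deg
  refine ⟨⟨L, fun δ a hδ ha => ?_, fun δ a hδ ha => ?_, fun r δ y hδ hy => ?_⟩, rfl⟩
  · have h1 : ∀ᶠ ℓ in UU, ∃ b : MvPolynomial κ E, (b ≠ 0 ∧ b.totalDegree ≤ γ ℓ * δ ℓ) ∧
        ‖MvPolynomial.aeval (μ ℓ) b‖ ≤ ‖a ℓ‖ * (‖MvPolynomial.aeval (μ ℓ) (Δ ℓ)‖ ^ δ ℓ *
          R ℓ ^ (γ ℓ * δ ℓ * (γ ℓ + 1))) := by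
      filter_upwards [hμ, h, ha, hDl.pos] with ℓ h1 h2 h3 h4
      obtain ⟨b, b1, b2, b3⟩ := mon_low hE h1.1 h1.2 (h2.mon _ _ h3.1)
        (mul_ne_zero (pow_ne_zero _ (norm_pos_iff.1 h4)) h3.2)
      refine ⟨b, ⟨b1, b2⟩, b3.trans (le_of_eq ?_)⟩
      rw [norm_mul, norm_pow]
      ring
    obtain ⟨b, hb⟩ := ev_choose h1
    refine Low.of_le_mul hM (hI b _ (hγ.mul hδ) (hb.mono fun ℓ h => h.1))
      ((hDb.pow hM (Eventually.of_forall fun ℓ => norm_nonneg _) hδ).mul hM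
        (hR.pow hM hR0 ((hγ.mul hδ).mul (hγ.add (Pol.const 1))))
        (hR0.mono fun ℓ h => pow_nonneg h _)) (hb.mono fun ℓ h => ⟨norm_nonneg _, h.2⟩)
  · refine Big.of_mul_le hM (hDl.pow hM hδ) (hR.pow hM hR0 (hγ.mul hδ)) ?_
    filter_upwards [hμ, h, ha] with ℓ h1 h2 h3
    have h4 := mon_big hE h1.1 h1.2 (h2.mon _ _ h3)
    rw [norm_mul, norm_pow, mul_comm] at h4
    exact ⟨norm_nonneg _, h4⟩
  · obtain ⟨l, hl, hl2⟩ := (hγ.mul (hδ.add (Pol.const 1))).log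
    refine ⟨fun ℓ => r * (3 * l ℓ + 4), ((hl.mul 3).add (Lin.const 4)).mul r, ?_⟩
    filter_upwards [h, hy, hl2] with ℓ h1 h2 h3
    exact h1.mas r (δ ℓ) (l ℓ) (y ℓ) h3 h2.1 h2.2

end Pool.Agent.MP_ee2255_nt.T
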