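import Pool.Agent.MP_ee2255_nt.TDefs
import Pool.Agent.MP_655169_nt.Inv1

/-! The minimal equation. -/

namespace Pool.Agent.MP_ee2255_nt.T

open Polynomial Filter Topology Pool.Agent.MP_655169_nt

theorem TMinP_min {R K : Type*} [CommRing R] [IsDomain R] [NormalizedGCDMonoid R] [Field K]
    (φ : R →+* K) (hφ : Function.Injective φ) (ξ : K) {p₀ : R[X]} (h0 : p₀ ≠ 0)
    (hp : p₀.eval₂ φ ξ = 0) :
    ∃ p : R[X], 0 < p.natDegree ∧ p.eval₂ φ ξ = 0 ∧ ∀ q : R[X], q.eval₂ φ ξ = 0 → p ∣ q := by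
  classical
  have hex : ∃ n, ∃ p : R[X], p ≠ 0 ∧ p.eval₂ φ ξ = 0 ∧ p.natDegree = n := ⟨_, p₀, h0, hp, rfl⟩
  obtain ⟨p, hp0, hp1, hp2⟩ := Nat.find_spec hex
  have he : p.primPart.eval₂ φ ξ = 0 := by
    rw [p.eq_C_content_mul_primPart, eval₂_mul, eval₂_C] at hp1
    exact (mul_eq_zero.1 hp1).resolve_left
      ((map_ne_zero_iff φ hφ).2 (content_eq_zero_iff.not.2 hp0))
  have hpos : 0 < p.primPart.natDegree := by
    refine Nat.pos_of_ne_zero fun h => ?_
    rw [eq_C_of_natDegree_eq_zero h, eval₂_C, map_eq_zero_iff φ hφ] at he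
    have := p.primPart_ne_zero
    rw [eq_C_of_natDegree_eq_zero h, he, map_zero] at this
    exact this rfl
  refine ⟨p.primPart, hpos, he, fun q hq =>
    Inv1_dvd φ hφ ξ _ q p.isPrimitive_primPart he hq hpos fun r hr hlt => ?_⟩
  by_contra hr0
  rw [natDegree_primPart, hp2] at hlt
  exact Nat.find_min hex hlt ⟨r, hr0, hr, rfl⟩

theorem TMinP_symm_C {E σ : Type*} [CommRing E] (a : MvPolynomial σ E) :
    (MvPolynomial.optionEquivLeft E σ).symm (C a) = MvPolynomial.rename some a := by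
  rw [AlgEquiv.symm_apply_eq]
  induction a using MvPolynomial.induction_on with
  | C r => simp
  | add p q hp hq => simp only [map_add, hp, hq]
  | mul_X p n hp =>
    simp only [map_mul, hp, MvPolynomial.rename_X, MvPolynomial.optionEquivLeft_X_some]

theorem TMinP_deg {E σ : Type*} [CommRing E] [IsDomain E] {Φ Ψ : (MvPolynomial σ E)[X]} {N : ℕ}
    (h : Φ ∣ Ψ) (h0 : Ψ ≠ 0) (h1 : Ψ.natDegree ≤ N) (h2 : ∀ j, (Ψ.coeff j).totalDegree ≤ N)
    (j : ℕ) : (Φ.coeff j).totalDegree ≤ 2 * N := by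
  let e := MvPolynomial.optionEquivLeft E σ
  have k1 := MvPolynomial.totalDegree_coeff_optionEquivLeft_le E σ (e.symm Φ) j
  have k2 := MvPolynomial.totalDegree_le_of_dvd_of_isDomain (map_dvd e.symm h)
    ((map_ne_zero_iff _ e.symm.injective).2 h0)
  have k3 : (e.symm Ψ).totalDegree ≤ 2 * N := by
    rw [Ψ.as_sum_range_C_mul_X_pow, map_sum]
    refine MvPolynomial.totalDegree_finsetSum_le fun i hi => ?_
    rw [map_mul, map_pow, TMinP_symm_C, MvPolynomial.optionEquivLeft_symm_X]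
    have a1 := (MvPolynomial.totalDegree_rename_le (some : σ → Option σ) (Ψ.coeff i)).trans (h2 i)
    have a2 := MvPolynomial.totalDegree_X_pow (R := E) (none : Option σ) i
    have a3 := Finset.mem_range.1 hi
    refine (MvPolynomial.totalDegree_mul _ _).trans ?_
    omega
  rw [e.apply_symm_apply] at k1
  omega

theorem TMinP_right {E σ : Type*} [CommRing E] (a : E[X]) :
    MvPolynomial.optionEquivRight E σ (aeval (MvPolynomial.X none) a) = MvPolynomial.C a := by
  rw [← aeval_algHom_apply, MvPolynomial.optionEquivRight_X_none]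
  induction a using Polynomial.induction_on' with
  | add p q hp hq => simp only [map_add, hp, hq]
  | monomial n r => simp [← C_mul_X_pow_eq_monomial]

theorem TMinP_ne {E σ : Type*} [CommRing E] {a : E[X]} (ha : a ≠ 0) :
    aeval (MvPolynomial.X none : MvPolynomial (Option σ) E) a ≠ 0 := by
  intro h
  have := TMinP_right (σ := σ) a
  rw [h, map_zero] at this
  exact ha (MvPolynomial.C_eq_zero.1 this.symm)

theorem TMinP_dvd {E σ : Type*} [CommRing E] [IsDomain E] {b : MvPolynomial (Option σ) E}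
    {g : E[X]} (hg : g ≠ 0) (h : b ∣ aeval (MvPolynomial.X none) g) :
    ∃ a : E[X], a.natDegree ≤ b.totalDegree ∧ b = aeval (MvPolynomial.X none) a := by
  have h1 := map_dvd (MvPolynomial.optionEquivRight E σ) h
  rw [TMinP_right, MvPolynomial.dvd_C_iff_exists hg] at h1
  obtain ⟨a, -, ha⟩ := h1
  rw [← TMinP_right] at ha
  have hb := (MvPolynomial.optionEquivRight E σ).injective ha
  refine ⟨a, ?_, hb⟩
  have h2 := MvPolynomial.aeval_natDegree_le (n := 1) b le_rfl
    (fun o : Option σ => o.elim (X : E[X]) fun _ => 0) (by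
      rintro (_ | i)
      · exact natDegree_X_le
      · simp)
  rw [mul_one] at h2
  refine le_trans (le_of_eq ?_) h2
  rw [hb, ← aeval_algHom_apply, MvPolynomial.aeval_X]
  simp

/-- Ring maps into an algebraically closed field extend to the integral elements. -/
theorem TMinP_ext {R K L : Type*} [CommRing R] [CommRing K] [Field L] [IsAlgClosed L]
    (f : R →+* K) (g : R →+* L) (h : ∀ r, f r = 0 → g r = 0) :
    ∃ (B : Subring K) (ψ : B →+* L), (∀ x, f.IsIntegralElem x → x ∈ B) ∧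
      ∀ r (hr : f r ∈ B), ψ ⟨f r, hr⟩ = g r := by
  let _ := f.toAlgebra
  have := RingHom.ker_isPrime g
  obtain ⟨Q, -, hQ, hQP⟩ := Ideal.exists_ideal_over_prime_of_isIntegral
    (S := integralClosure R K) (RingHom.ker g) ⊥ fun r hr =>
      h r (congrArg Subtype.val (Ideal.mem_bot.1 (Ideal.mem_comap.1 hr)))
  have : Q.LiesOver (RingHom.ker g) := ⟨hQP.symm⟩
  let _ : Algebra (R ⧸ RingHom.ker g) L := (RingHom.kerLift g).toAlgebra
  have : FaithfulSMul (R ⧸ RingHom.ker g) L :=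
    (faithfulSMul_iff_algebraMap_injective _ _).2 (RingHom.kerLift_injective g)
  let l : (integralClosure R K ⧸ Q) →ₐ[R ⧸ RingHom.ker g] L := IsAlgClosed.lift
  refine ⟨(integralClosure R K).toSubring, l.toRingHom.comp (Ideal.Quotient.mk Q),
    fun x hx => hx, fun r hr => ?_⟩
  exact (l.commutes (Ideal.Quotient.mk _ r)).trans (RingHom.kerLift_mk g r)

variable {E : Type*} [Field E] {C : Type*} [Field C] [Algebra E C] {κ : Type*}

theorem TMinP_int {μ : κ → C} (hi : AlgebraicIndependent E μ) {x : C}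
    (hx : IsIntegral (Algebra.adjoin E (Set.range μ)) x) :
    ∃ Ψ : (MvPolynomial κ E)[X], Ψ.Monic ∧
      Ψ.eval₂ (MvPolynomial.aeval μ : MvPolynomial κ E →ₐ[E] C).toRingHom x = 0 := by
  obtain ⟨P, hP, hP0⟩ := hx
  refine ⟨P.map hi.repr.toRingHom, hP.map _, ?_⟩
  rw [eval₂_map, ← hP0]
  congr 1
  exact RingHom.ext hi.aeval_repr

theorem TMinP_theta {m : ℕ} (θ : C) (lam : Fin m → C) (h : E[X]) :
    MvPolynomial.aeval (zz θ lam)
      (aeval (MvPolynomial.X none : MvPolynomial (Option (Fin m)) E) h) = aeval θ h := by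
  rw [← aeval_algHom_apply, MvPolynomial.aeval_X]
  rfl

theorem minp {θ : C} {m N : ℕ} {lam : Fin m → C} (hi : AlgebraicIndependent E (zz θ lam)) {u : C}
    (h1 : HInt E θ lam {u}) (h2 : Alg E (zz θ lam) N N u) :
    ∃ Φ, Tp E (2 * N) Φ ∧ 0 < Φ.natDegree ∧ ev3 E θ lam u Φ = 0 ∧
      ∀ Ψ, ev3 E θ lam u Ψ = 0 → Φ ∣ Ψ := by
  classical
  let _ : StrongNormalizationMonoid (MvPolynomial (Option (Fin m)) E) :=
    UniqueFactorizationMonoid.strongNormalizationMonoid
  let _ := UniqueFactorizationMonoid.toNormalizedGCDMonoid (MvPolynomial (Option (Fin m)) E)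
  obtain ⟨Φ₀, a1, a2, a3, a4⟩ := h2
  have h0 : Φ₀ ≠ 0 := by
    rintro rfl
    simp at a3
  obtain ⟨Φ, b1, b2, b3⟩ := TMinP_min _ hi u h0 a4
  have hd := TMinP_deg (b3 _ a4) h0 a1 a2
  obtain ⟨h, hh, hint⟩ := h1
  obtain ⟨Ψ, c1, c2⟩ := TMinP_int hi (hint u rfl)
  have hA := TMinP_ne (σ := Fin m) hh
  have hdvd := b3 (Ψ.comp (Polynomial.C (aeval (MvPolynomial.X none) h) * X)) (by
    rw [eval₂_comp, eval₂_mul, eval₂_C, eval₂_X, ← c2]
    congr 2
    exact TMinP_theta θ lam h)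
  have hl := leadingCoeff_dvd_leadingCoeff hdvd
  rw [leadingCoeff_comp (by rw [natDegree_C_mul_X _ hA]; exact one_ne_zero), c1.leadingCoeff,
    one_mul, leadingCoeff_C_mul_X, ← map_pow] at hl
  obtain ⟨a, ha1, ha2⟩ := TMinP_dvd (pow_ne_zero _ hh) hl
  refine ⟨Φ, ⟨((natDegree_le_of_dvd (b3 _ a4) h0).trans a1).trans (by omega), hd, a, ?_,
    ha1.trans (hd _), ha2⟩, b1, b2, b3⟩
  rintro rfl
  rw [map_zero, leadingCoeff_eq_zero] at ha2
  simp [ha2] at b1

/-- Every root of the specialised equation comes from a specialisation. -/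
theorem ext_pt [IsAlgClosed C] {θ : C} {m : ℕ} {lam : Fin m → C}
    (hi : AlgebraicIndependent E (zz θ lam)) (S : Finset C) (h1 : HInt E θ lam (S : Set C)) {u : C}
    (hu : u ∈ Submodule.span E (S : Set C)) (lam' : Fin m → C) (u' : C)
    (h : ∀ Ψ, ev3 E θ lam u Ψ = 0 → ev3 E θ lam' u' Ψ = 0) :
    ∃ φ : C →ₗ[E] C, Pt E θ lam lam' (S : Set C) φ ∧ φ u = u' := by
  let φ₀ := (MvPolynomial.aeval (zz θ lam) : MvPolynomial (Option (Fin m)) E →ₐ[E] C).toRingHom
  let φ₁ := (MvPolynomial.aeval (zz θ lam') : MvPolynomial (Option (Fin m)) E →ₐ[E] C).toRingHom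
  obtain ⟨B, ψ, hB, hψ⟩ := TMinP_ext (eval₂RingHom φ₀ u) (eval₂RingHom φ₁ u') h
  obtain ⟨g, hg, hint⟩ := h1
  let gA : MvPolynomial (Option (Fin m)) E := aeval (MvPolynomial.X none) g
  have t0 : φ₀ gA = aeval θ g := TMinP_theta θ lam g
  have t1 : φ₁ gA = aeval θ g := TMinP_theta θ lam' g
  have ht : aeval θ g ≠ 0 := t0 ▸ (map_ne_zero_iff φ₀ hi).2 (TMinP_ne hg)
  have hC : ∀ a, eval₂RingHom φ₀ u (Polynomial.C a) = φ₀ a := fun a => eval₂_C _ _
  have hmem : ∀ a, φ₀ a ∈ B := fun a => hC a ▸ hB _ (RingHom.isIntegralElem_map _)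
  have hψC : ∀ a, ψ ⟨φ₀ a, hmem a⟩ = φ₁ a := fun a => by
    have e := hψ (Polynomial.C a) (hC a ▸ hmem a)
    simpa only [coe_eval₂RingHom, eval₂_C] using e
  have hE0 : ∀ e : E, φ₀ (MvPolynomial.C e) = algebraMap E C e := fun e => MvPolynomial.aeval_C _ e
  have hE1 : ∀ e : E, φ₁ (MvPolynomial.C e) = algebraMap E C e := fun e => MvPolynomial.aeval_C _ e
  have hsm : ∀ (e : E) (w : C), aeval θ g * (e • w) = φ₀ (MvPolynomial.C e) * (aeval θ g * w) := by
    intro e w
    rw [hE0, Algebra.smul_def]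
    ring
  have hw : ∀ w ∈ Submodule.span E (S : Set C), aeval θ g * w ∈ B := by
    intro w hw
    induction hw using Submodule.span_induction with
    | mem s hs =>
      obtain ⟨Ψ, c1, c2⟩ := TMinP_int hi (hint s hs)
      refine hB _ ⟨Ψ.map Polynomial.C, c1.map _, ?_⟩
      rw [eval₂_map, ← c2]
      congr 1
      exact RingHom.ext hC
    | zero => simp
    | add x y _ _ hx hy => simpa only [mul_add] using B.add_mem hx hy
    | smul e x _ hx =>
      rw [hsm]
      exact B.mul_mem (hmem _) hx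
  let φ' : Submodule.span E (S : Set C) →ₗ[E] C :=
    { toFun := fun w => ψ ⟨aeval θ g * w, hw w w.2⟩ / aeval θ g
      map_add' := fun x y => by
        rw [← add_div, ← map_add]
        congr 2
        exact Subtype.ext (mul_add _ _ _)
      map_smul' := fun e x => by
        have e1 : (⟨aeval θ g * (e • x : Submodule.span E (S : Set C)), hw _ (e • x).2⟩ : B) =
            ⟨φ₀ (MvPolynomial.C e), hmem _⟩ * ⟨aeval θ g * x, hw x x.2⟩ := Subtype.ext (hsm e x)
        rw [e1, map_mul, hψC, hE1, RingHom.id_apply, Algebra.smul_def, mul_div_assoc] }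
  obtain ⟨φ, hφ⟩ := LinearMap.exists_extend φ'
  have hφ' : ∀ w (h' : w ∈ Submodule.span E (S : Set C)),
      ψ ⟨aeval θ g * w, hw w h'⟩ = aeval θ g * φ w := by
    intro w h'
    have e : φ w = ψ ⟨aeval θ g * w, hw w h'⟩ / aeval θ g := LinearMap.congr_fun hφ ⟨w, h'⟩
    rw [e, mul_div_cancel₀ _ ht]
  refine ⟨φ, fun w h' Ψ hΨ => ?_, mul_left_cancel₀ ht ?_⟩
  · have e1 := scaleRoots_eval₂_eq_zero (s := gA) φ₀ hΨ
    have e2 : (Ψ.scaleRoots gA).eval₂ (φ₀.codRestrict B hmem) ⟨aeval θ g * w, hw w h'⟩ = 0 := by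
      apply B.subtype_injective
      rw [hom_eval₂, map_zero, ← e1, t0]
      rfl
    have e3 := congrArg ψ e2
    have e4 : ψ.comp (φ₀.codRestrict B hmem) = φ₁ := RingHom.ext hψC
    rw [hom_eval₂, map_zero, e4, hφ' w h', ← t1, scaleRoots_eval₂_mul, t1] at e3
    exact (mul_eq_zero.1 e3).resolve_left (pow_ne_zero _ ht)
  · have e0 : eval₂RingHom φ₀ u (Polynomial.C gA * X) = aeval θ g * u := by
      rw [coe_eval₂RingHom, eval₂_mul, eval₂_C, eval₂_X, t0]
    have e := hψ (Polynomial.C gA * X) (e0 ▸ hw u hu)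
    rw [← hφ' u hu]
    simpa only [coe_eval₂RingHom, eval₂_mul, eval₂_C, eval₂_X, t0, t1] using e

end Pool.Agent.MP_ee2255_nt.T
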