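import Pool.Agent.MP_ee2255_nt.TDefs

/-! Linear Noether normalisation over `E(θ)`. -/

namespace Pool.Agent.MP_ee2255_nt.T

open Polynomial Filter Topology Pool.Agent.MP_655169_nt

variable {E : Type*} [Field E] {C : Type*} [Field C] [Algebra E C] {κ : Type*}

theorem TNN_prod {B σ : Type*} [CommRing B] (a b : σ → B) (e : σ → ℕ) (s : Finset σ) :
    (∏ i ∈ s, (Polynomial.C (b i) + Polynomial.C (a i) * X) ^ e i).natDegree ≤ ∑ i ∈ s, e i ∧
    (∏ i ∈ s, (Polynomial.C (b i) + Polynomial.C (a i) * X) ^ e i).coeff (∑ i ∈ s, e i) =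
      ∏ i ∈ s, a i ^ e i := by
  classical
  have h1 : ∀ i, (Polynomial.C (b i) + Polynomial.C (a i) * X).natDegree ≤ 1 := fun i => by
    rw [add_comm]; exact natDegree_linear_le
  induction s using Finset.induction_on with
  | empty => simp
  | insert i s hi ih =>
    rw [Finset.prod_insert hi, Finset.sum_insert hi, Finset.prod_insert hi]
    have h2 : ((Polynomial.C (b i) + Polynomial.C (a i) * X) ^ e i).natDegree ≤ e i :=
      natDegree_pow_le.trans (by simpa using Nat.mul_le_mul_left (e i) (h1 i))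
    refine ⟨natDegree_mul_le.trans (add_le_add h2 ih.1), ?_⟩
    rw [coeff_mul_add_eq_of_natDegree_le h2 ih.1, ih.2]
    have h3 := coeff_pow_of_natDegree_le (m := e i) (h1 i)
    rw [mul_one] at h3
    rw [h3]
    simp

theorem TNN_line {K B σ : Type*} [CommRing K] [CommRing B] [Algebra K B] (a b : σ → B)
    (P : MvPolynomial σ K) :
    (MvPolynomial.aeval (fun i => Polynomial.C (b i) + Polynomial.C (a i) * X) P).natDegree ≤
      P.totalDegree ∧
    (MvPolynomial.aeval (fun i => Polynomial.C (b i) + Polynomial.C (a i) * X) P).coeff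
      P.totalDegree =
      MvPolynomial.aeval a (MvPolynomial.homogeneousComponent P.totalDegree P) := by
  classical
  have hle : ∀ m ∈ P.support, ∑ i ∈ m.support, m i ≤ P.totalDegree := fun m hm =>
    MvPolynomial.le_totalDegree hm
  rw [MvPolynomial.aeval_def, MvPolynomial.eval₂_eq]
  constructor
  · refine natDegree_sum_le_of_forall_le _ _ fun m hm => ?_
    rw [Polynomial.algebraMap_apply]
    exact (natDegree_C_mul_le _ _).trans ((TNN_prod a b m m.support).1.trans (hle m hm))
  · rw [MvPolynomial.homogeneousComponent_apply, map_sum, finsetSum_coeff, Finset.sum_filter]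
    refine Finset.sum_congr rfl fun m hm => ?_
    rw [Polynomial.algebraMap_apply, coeff_C_mul]
    split_ifs with h
    · rw [MvPolynomial.aeval_monomial, ← h]
      congr 1
      exact (TNN_prod a b m m.support).2
    · have h4 : ∑ i ∈ m.support, m i < P.totalDegree := lt_of_le_of_ne (hle m hm) h
      rw [coeff_eq_zero_of_natDegree_lt ((TNN_prod a b m m.support).1.trans_lt h4), mul_zero]

theorem TNN_top {K σ : Type*} [CommRing K] {P : MvPolynomial σ K} (hP : P ≠ 0) :
    MvPolynomial.homogeneousComponent P.totalDegree P ≠ 0 := by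
  classical
  obtain ⟨m, hm, he⟩ := Finset.exists_mem_eq_sup P.support
    (MvPolynomial.support_nonempty.mpr hP) fun s => s.sum fun _ e => e
  intro h
  have h1 := MvPolynomial.coeff_homogeneousComponent P.totalDegree P m
  rw [h, if_pos (show m.degree = P.totalDegree from he.symm)] at h1
  exact MvPolynomial.mem_support_iff.mp hm h1.symm

theorem TNN_grid [Infinite E] {K σ : Type*} [Field K] [Algebra E K] {P : MvPolynomial σ K}
    (hP : P ≠ 0) : ∃ a : σ → E, MvPolynomial.eval (fun i => algebraMap E K (a i)) P ≠ 0 := by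
  by_contra h
  push Not at h
  refine hP (MvPolynomial.funext_set (fun _ => Set.range (algebraMap E K))
    (fun _ => Set.infinite_range_of_injective (algebraMap E K).injective) fun x hx => ?_)
  choose a ha using fun i => hx i (Set.mem_univ i)
  have : x = fun i => algebraMap E K (a i) := funext fun i => (ha i).symm
  rw [this, h, map_zero]

theorem TNN_trans {K : Type*} [CommRing K] [Algebra K C] (B : Subalgebra K C) {T : Set C}
    (hT : ∀ t ∈ T, IsIntegral B t) {y : C} (hy : IsIntegral (Algebra.adjoin K T) y) :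
    IsIntegral B y := by
  have hle : Algebra.adjoin K T ≤ (integralClosure B C).restrictScalars K :=
    Algebra.adjoin_le fun t ht => hT t ht
  have h1 : IsIntegral (integralClosure B C) y :=
    hy.map_of_comp_eq (T := integralClosure B C) (Subalgebra.inclusion hle).toRingHom
      (RingHom.id C) (by ext; rfl)
  exact isIntegral_trans (A := integralClosure B C) y h1

theorem TNN_step [Infinite E] {K : Type*} [Field K] [Algebra E K] [Algebra K C]
    [IsScalarTower E K C] {n : ℕ} (x : Fin (n + 1) → C) (hx : ¬ AlgebraicIndependent K x) :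
    ∃ x' : Fin n → C, (∀ j, x' j ∈ Submodule.span E (Set.range x)) ∧
      ∀ i, IsIntegral (Algebra.adjoin K (Set.range x')) (x i) := by
  rw [algebraicIndependent_iff] at hx
  push Not at hx
  obtain ⟨P, hP0, hP⟩ := hx
  obtain ⟨a, ha⟩ := TNN_grid (E := E) (mul_ne_zero (TNN_top hP) (MvPolynomial.X_ne_zero 0))
  rw [map_mul, MvPolynomial.eval_X] at ha
  have ha0 : a 0 ≠ 0 := fun h => right_ne_zero_of_mul ha (by rw [h, map_zero])
  have ha1 := left_ne_zero_of_mul ha
  set T : C := (a 0)⁻¹ • x 0 with hT
  let x' : Fin n → C := fun j => x j.succ - a j.succ • T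
  set B := Algebra.adjoin K (Set.range x') with hB
  let b : Fin (n + 1) → B := Fin.cons 0 fun j => ⟨x' j, Algebra.subset_adjoin ⟨j, rfl⟩⟩
  let a' : Fin (n + 1) → B := fun i => algebraMap K B (algebraMap E K (a i))
  have hab : ∀ i, x i = (b i : C) + (a' i : C) * T := by
    intro i
    have h1 : (a' i : C) * T = a i • T := by
      rw [Algebra.smul_def, IsScalarTower.algebraMap_apply E K C]
      rfl
    rw [h1]
    refine Fin.cases ?_ (fun j => ?_) i
    · simp [b, hT, smul_smul, ha0]
    · simp [b, x']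
  have hint : IsIntegral B T := by
    obtain ⟨h1, h2⟩ := TNN_line a' b P
    set Q := MvPolynomial.aeval (fun i => Polynomial.C (b i) + Polynomial.C (a' i) * X) P
      with hQ
    set c : K := MvPolynomial.eval (fun i => algebraMap E K (a i))
      (MvPolynomial.homogeneousComponent P.totalDegree P) with hc
    have h3 : Q.coeff P.totalDegree = algebraMap K B c := by
      rw [h2, hc, ← MvPolynomial.coe_aeval_eq_eval]
      exact MvPolynomial.aeval_algebraMap_apply B (fun i => algebraMap E K (a i)) _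
    have h4 : Polynomial.aeval T Q = 0 := by
      have h5 : ((Polynomial.aeval T : B[X] →ₐ[B] C).restrictScalars K).comp
          (MvPolynomial.aeval fun i => Polynomial.C (b i) + Polynomial.C (a' i) * X) =
          MvPolynomial.aeval x := by
        ext i
        simp only [AlgHom.comp_apply, MvPolynomial.aeval_X, AlgHom.restrictScalars_apply,
          map_add, map_mul, Polynomial.aeval_C, Polynomial.aeval_X]
        exact (hab i).symm
      have h6 := DFunLike.congr_fun h5 P
      rw [hP0] at h6
      exact h6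
    refine ⟨Polynomial.C (algebraMap K B c⁻¹) * Q, ?_, ?_⟩
    · refine monic_of_natDegree_le_of_coeff_eq_one P.totalDegree
        ((natDegree_C_mul_le _ _).trans h1) ?_
      rw [coeff_C_mul, h3, ← map_mul, inv_mul_cancel₀ ha1, map_one]
    · rw [← Polynomial.aeval_def, map_mul, h4, mul_zero]
  refine ⟨x', fun j => ?_, fun i => ?_⟩
  · exact Submodule.sub_mem _ (Submodule.subset_span ⟨_, rfl⟩)
      (Submodule.smul_mem _ _ (Submodule.smul_mem _ _ (Submodule.subset_span ⟨_, rfl⟩)))
  · rw [hab i]
    exact (isIntegral_algebraMap (x := b i)).add ((isIntegral_algebraMap (x := a' i)).mul hint)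

theorem TNN_field [Infinite E] {K : Type*} [Field K] [Algebra E K] [Algebra K C]
    [IsScalarTower E K C] (n : ℕ) (x : Fin n → C) :
    ∃ (m : ℕ) (lam : Fin m → C), (∀ j, lam j ∈ Submodule.span E (Set.range x)) ∧
      AlgebraicIndependent K lam ∧ ∀ i, IsIntegral (Algebra.adjoin K (Set.range lam)) (x i) := by
  induction n with
  | zero => exact ⟨0, x, fun j => j.elim0, algebraicIndependent_empty_type, fun j => j.elim0⟩
  | succ n ih =>
    by_cases hx : AlgebraicIndependent K x
    · exact ⟨n + 1, x, fun j => Submodule.subset_span ⟨j, rfl⟩, hx, fun i =>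
        isIntegral_algebraMap (R := Algebra.adjoin K (Set.range x))
          (x := ⟨x i, Algebra.subset_adjoin ⟨i, rfl⟩⟩)⟩
    · obtain ⟨x', h1, h2⟩ := TNN_step (E := E) x hx
      obtain ⟨m, lam, h3, h4, h5⟩ := ih x'
      refine ⟨m, lam, fun j => ?_, h4, fun i => TNN_trans _ ?_ (h2 i)⟩
      · exact Submodule.span_le.mpr (by rintro _ ⟨k, rfl⟩; exact h1 k) (h3 j)
      · rintro _ ⟨k, rfl⟩
        exact h5 k

theorem TNN_aeval_mem (θ : C) {m : ℕ} (lam : Fin m → C) (g : E[X]) :
    aeval θ g ∈ Algebra.adjoin E (Set.range (zz θ lam)) := by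
  have h : Algebra.adjoin E {θ} ≤ Algebra.adjoin E (Set.range (zz θ lam)) :=
    Algebra.adjoin_mono (by rintro _ rfl; exact ⟨none, rfl⟩)
  exact h (Polynomial.aeval_mem_adjoin_singleton E θ)

theorem TNN_den {θ : C} (hθ : Transcendental E θ) {m : ℕ} (lam : Fin m → C) {b : C}
    (hb : b ∈ Algebra.adjoin (IntermediateField.adjoin E {θ}) (Set.range lam)) :
    ∃ h : E[X], h ≠ 0 ∧ aeval θ h * b ∈ Algebra.adjoin E (Set.range (zz θ lam)) := by
  induction hb using Algebra.adjoin_induction with
  | mem y hy =>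
    obtain ⟨j, rfl⟩ := hy
    refine ⟨1, one_ne_zero, ?_⟩
    rw [map_one, one_mul]
    exact Algebra.subset_adjoin ⟨some j, rfl⟩
  | algebraMap r =>
    obtain ⟨p, q, hr⟩ := (IntermediateField.mem_adjoin_simple_iff E r.1).mp r.2
    have h1 : algebraMap (IntermediateField.adjoin E {θ}) C r = aeval θ p / aeval θ q := hr
    rw [h1]
    by_cases hq : q = 0
    · refine ⟨1, one_ne_zero, ?_⟩
      rw [hq, map_zero, div_zero, mul_zero]
      exact zero_mem _
    · refine ⟨q, hq, ?_⟩
      have h2 : aeval θ q ≠ 0 := fun h => hθ ⟨q, hq, h⟩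
      rw [mul_div_cancel₀ _ h2]
      exact TNN_aeval_mem θ lam p
  | add y z _ _ hy hz =>
    obtain ⟨g, hg, h1⟩ := hy
    obtain ⟨h, hh, h2⟩ := hz
    refine ⟨g * h, mul_ne_zero hg hh, ?_⟩
    have : aeval θ (g * h) * (y + z) =
        aeval θ h * (aeval θ g * y) + aeval θ g * (aeval θ h * z) := by
      rw [map_mul]; ring
    rw [this]
    exact add_mem (mul_mem (TNN_aeval_mem θ lam h) h1) (mul_mem (TNN_aeval_mem θ lam g) h2)
  | mul y z _ _ hy hz =>
    obtain ⟨g, hg, h1⟩ := hy
    obtain ⟨h, hh, h2⟩ := hz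
    refine ⟨g * h, mul_ne_zero hg hh, ?_⟩
    have : aeval θ (g * h) * (y * z) = (aeval θ g * y) * (aeval θ h * z) := by
      rw [map_mul]; ring
    rw [this]
    exact mul_mem h1 h2

theorem TNN_clear {θ : C} (hθ : Transcendental E θ) {m : ℕ} (lam : Fin m → C) {s : C}
    (hs : IsIntegral (Algebra.adjoin (IntermediateField.adjoin E {θ}) (Set.range lam)) s) :
    ∃ h : E[X], h ≠ 0 ∧ IsIntegral (Algebra.adjoin E (Set.range (zz θ lam))) (aeval θ h * s) := by
  classical
  set B := Algebra.adjoin (IntermediateField.adjoin E {θ}) (Set.range lam) with hB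
  obtain ⟨p, hp, hps⟩ := hs
  set A := Algebra.adjoin E (Set.range (zz θ lam)) with hA
  set q : C[X] := p.map (algebraMap B C) with hq
  have hqm : q.Monic := hp.map _
  have hqs : q.eval s = 0 := by rw [hq, eval_map, hps]
  have hc : ∀ i, ∃ h : E[X], h ≠ 0 ∧ aeval θ h * q.coeff i ∈ A := fun i => by
    rw [hq, coeff_map]
    exact TNN_den hθ lam (p.coeff i).2
  choose g hg0 hg using hc
  set h : E[X] := ∏ i ∈ Finset.range q.natDegree, g i with hh
  refine ⟨h, Finset.prod_ne_zero_iff.mpr fun i _ => hg0 i, ?_⟩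
  have hl : q.scaleRoots (aeval θ h) ∈ lifts (algebraMap A C) := by
    rw [lifts_iff_coeff_lifts]
    intro i
    suffices hm : (q.scaleRoots (aeval θ h)).coeff i ∈ A from ⟨⟨_, hm⟩, rfl⟩
    rw [coeff_scaleRoots]
    rcases lt_trichotomy i q.natDegree with hi | hi | hi
    · obtain ⟨k, hk⟩ : ∃ k, q.natDegree - i = k + 1 := ⟨q.natDegree - i - 1, by omega⟩
      have h1 : h = g i * ∏ j ∈ (Finset.range q.natDegree).erase i, g j :=
        (Finset.mul_prod_erase _ _ (Finset.mem_range.mpr hi)).symm
      have h2 : q.coeff i * aeval θ h ^ (k + 1) = (aeval θ (g i) * q.coeff i) *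
          (aeval θ (∏ j ∈ (Finset.range q.natDegree).erase i, g j) * aeval θ h ^ k) := by
        rw [pow_succ']
        nth_rewrite 1 [h1]
        rw [map_mul]
        ring
      rw [hk, h2]
      exact mul_mem (hg i) (mul_mem (TNN_aeval_mem θ lam _) (pow_mem (TNN_aeval_mem θ lam _) _))
    · rw [hi, Nat.sub_self, pow_zero, mul_one, hqm.coeff_natDegree]
      exact one_mem _
    · rw [coeff_eq_zero_of_natDegree_lt hi, zero_mul]
      exact zero_mem _
  obtain ⟨r, hr, -, hrm⟩ := lifts_and_natDegree_eq_and_monic hl ((monic_scaleRoots_iff _).mpr hqm)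
  refine ⟨r, hrm, ?_⟩
  rw [← eval_map, hr, scaleRoots_eval_mul, hqs, mul_zero]

theorem nn [Infinite E] (θ : C) (hθ : Transcendental E θ) (S : Finset C) :
    ∃ (m : ℕ) (lam : Fin m → C), (∀ j, lam j ∈ Submodule.span E (S : Set C)) ∧
      AlgebraicIndependent E (zz θ lam) ∧ HInt E θ lam (S : Set C) := by
  classical
  let x : Fin S.card → C := fun i => (S.equivFin.symm i : C)
  have hx : Set.range x = (S : Set C) := by
    ext y
    constructor
    · rintro ⟨i, rfl⟩
      exact (S.equivFin.symm i).2
    · intro hy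
      exact ⟨S.equivFin ⟨y, hy⟩, by simp [x]⟩
  obtain ⟨m, lam, h1, h2, h3⟩ :=
    TNN_field (E := E) (K := IntermediateField.adjoin E {θ}) S.card x
  refine ⟨m, lam, fun j => hx ▸ h1 j, ?_, ?_⟩
  · have h4 : AlgebraicIndependent E fun _ : Unit => θ :=
      algebraicIndependent_unique_type_iff.mpr hθ
    have h5 := h4.sumElim_of_tower (S := IntermediateField.adjoin E {θ}) (by
      rintro _ ⟨_, rfl⟩
      exact ⟨⟨θ, IntermediateField.mem_adjoin_simple_self E θ⟩, rfl⟩) h2
    have h6 := h5.comp (fun o : Option (Fin m) => (o.elim (Sum.inr ()) Sum.inl : Fin m ⊕ Unit))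
      (by rintro (_ | a) (_ | b) h <;> simp_all)
    convert h6 using 1
    ext o
    cases o <;> rfl
  · choose g hg0 hg using fun i => TNN_clear hθ lam (h3 i)
    refine ⟨∏ i, g i, Finset.prod_ne_zero_iff.mpr fun i _ => hg0 i, fun s hs => ?_⟩
    rw [← hx] at hs
    obtain ⟨i, rfl⟩ := hs
    rw [← Finset.prod_erase_mul _ _ (Finset.mem_univ i), map_mul, mul_assoc]
    exact (isIntegral_algebraMap (R := Algebra.adjoin E (Set.range (zz θ lam)))
      (x := ⟨_, TNN_aeval_mem θ lam _⟩)).mul (hg i)

theorem HInt.span {θ : C} {m : ℕ} {lam : Fin m → C} {S : Set C} (h : HInt E θ lam S) :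
    HInt E θ lam (Submodule.span E S : Set C) := by
  obtain ⟨g, hg, h⟩ := h
  refine ⟨g, hg, fun s hs => ?_⟩
  induction hs using Submodule.span_induction with
  | mem y hy => exact h y hy
  | zero => rw [mul_zero]; exact isIntegral_zero
  | add y z _ _ hy hz => rw [mul_add]; exact hy.add hz
  | smul e y _ hy =>
    rw [Algebra.smul_def, mul_left_comm]
    exact (isIntegral_algebraMap (R := Algebra.adjoin E (Set.range (zz θ lam)))
      (x := algebraMap E _ e)).mul hy

end Pool.Agent.MP_ee2255_nt.T
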