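import Pool.Agent.MP_ee2255_nt.TNrm
import Pool.Agent.MP_ee2255_nt.TMinP
import Pool.Agent.MP_ee2255_nt.TNN

/-! A specialisation close to the identity. -/

namespace Pool.Agent.MP_ee2255_nt.T

open Polynomial Filter Topology Pool.Agent.MP_655169_nt

variable {E C : Type*} [Field E] [NormedField C] [IsUltrametricDist C] [IsAlgClosed C]
  [Algebra E C] (hE : ∀ e : E, ‖algebraMap E C e‖ ≤ 1) {θ : C} (hθ : 1 < ‖θ‖)
include hE hθ

omit hθ [IsAlgClosed C] in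
/-- A generic combination is as large as its largest member. -/
theorem TALc_gen [Infinite E] {ι σ : Type*} [Finite ι] [Fintype σ] (v : ι → σ → C) :
    ∃ a : σ → E, ∀ i s, ‖v i s‖ ≤ ‖∑ s, a s • v i s‖ := by
  classical
  let W : {x : ι × σ // v x.1 x.2 ≠ 0 ∧ ∀ s, ‖v x.1 s‖ ≤ ‖v x.1 x.2‖} → Submodule E (σ → E) :=
    fun x =>
    { carrier := {a | ‖∑ s, a s • v x.1.1 s‖ < ‖v x.1.1 x.1.2‖}
      add_mem' := fun {a b} ha hb => by
        simp only [Set.mem_ofPred_eq, Pi.add_apply, add_smul, Finset.sum_add_distrib] at ha hb ⊢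
        exact (IsUltrametricDist.norm_add_le_max _ _).trans_lt (max_lt ha hb)
      zero_mem' := by simpa using x.2.1
      smul_mem' := fun c a ha => by
        simp only [Set.mem_ofPred_eq, Pi.smul_apply, smul_assoc, ← Finset.smul_sum] at ha ⊢
        rw [Algebra.smul_def, norm_mul]
        exact (mul_le_of_le_one_left (norm_nonneg _) (hE c)).trans_lt ha }
  obtain ⟨a, ha⟩ := Submodule.exists_forall_notMem_of_forall_ne_top W fun x hx => by
    have : Pi.single x.1.2 (1 : E) ∈ W x := hx ▸ Submodule.mem_top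
    change ‖∑ s, (Pi.single x.1.2 (1 : E) : σ → E) s • v x.1.1 s‖ < ‖v x.1.1 x.1.2‖ at this
    rw [Finset.sum_eq_single x.1.2 (fun b _ hb => by simp [hb]) (by simp)] at this
    simp at this
  refine ⟨a, fun i s => ?_⟩
  obtain ⟨s₀, -, h0⟩ := Finset.exists_max_image Finset.univ (fun s => ‖v i s‖)
    ⟨s, Finset.mem_univ _⟩
  by_cases e : v i s₀ = 0
  · refine (h0 s (Finset.mem_univ _)).trans ?_
    rw [e, norm_zero]
    exact norm_nonneg _
  · exact (h0 s (Finset.mem_univ _)).trans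
      (not_lt.1 (ha ⟨(i, s₀), e, fun s => h0 s (Finset.mem_univ _)⟩))

omit [IsAlgClosed C] in
theorem TALc_lead {m N : ℕ} (lam : Fin m → C) {Φ : (MvPolynomial (Option (Fin m)) E)[X]}
    (h : Tp E N Φ) : 1 ≤ ‖(MvPolynomial.aeval (zz θ lam) :
      MvPolynomial (Option (Fin m)) E →ₐ[E] C).toRingHom Φ.leadingCoeff‖ := by
  obtain ⟨a, ha, -, e⟩ := h.2.2
  rw [e]
  change 1 ≤ ‖MvPolynomial.aeval (zz θ lam) _‖
  rw [TMinP_theta, normE_poly hE hθ ha]
  exact one_le_pow₀ hθ.le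

theorem TALc_near {m N : ℕ} {lam : Fin m → C} (lam' : Fin m → C)
    {R η : ℝ} (hR : ‖θ‖ ≤ R) (hη : 0 ≤ η) (hl : ∀ j, ‖lam j‖ ≤ R)
    (hl' : ∀ j, ‖lam' j‖ ≤ R) (h : ∀ j, ‖lam j - lam' j‖ ≤ η) {u : C} (hu : ‖u‖ ≤ R)
    {Φ : (MvPolynomial (Option (Fin m)) E)[X]} (h1 : Tp E (2 * N) Φ) (h2 : 0 < Φ.natDegree)
    (h3 : ev3 E θ lam u Φ = 0) :
    ∃ u', ev3 E θ lam' u' Φ = 0 ∧ ‖u - u'‖ ^ Φ.natDegree ≤ R ^ (4 * N) * η := by
  have hR1 : 1 ≤ R := hθ.le.trans hR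
  have k1 := TALc_lead hE hθ lam' h1
  set f := (MvPolynomial.aeval (zz θ lam) :
    MvPolynomial (Option (Fin m)) E →ₐ[E] C).toRingHom with hf
  set f' := (MvPolynomial.aeval (zz θ lam') :
    MvPolynomial (Option (Fin m)) E →ₐ[E] C).toRingHom with hf'
  have k2 : f' Φ.leadingCoeff ≠ 0 := fun e => by
    rw [e, norm_zero] at k1
    linarith
  have k3 := natDegree_map_of_leadingCoeff_ne_zero f' k2
  obtain ⟨u', e1, e2⟩ := root_near (Φ.map f') (by rwa [k3]) u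
  rw [eval_map] at e1
  refine ⟨u', e1, ?_⟩
  rw [k3, leadingCoeff_map_of_leadingCoeff_ne_zero f' k2, eval_map] at e2
  refine (le_mul_of_one_le_left (by positivity) k1).trans (e2.trans ?_)
  have e3 : Φ.eval₂ f' u = -(Φ.eval₂ f u - Φ.eval₂ f' u) := by
    have : Φ.eval₂ f u = 0 := h3
    rw [this]
    ring
  rw [e3, norm_neg, eval₂_eq_sum_range, eval₂_eq_sum_range, ← Finset.sum_sub_distrib]
  refine IsUltrametricDist.norm_sum_le_of_forall_le_of_nonneg (by positivity) fun j hj => ?_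
  have e4 : ‖f (Φ.coeff j) - f' (Φ.coeff j)‖ ≤ R ^ (2 * N) * η :=
    normE_lip hE (zz θ lam) (zz θ lam') hR1 hη (by rintro (_ | k); exacts [hR, hl k])
      (by rintro (_ | k); exacts [hR, hl' k])
      (by rintro (_ | k); exacts [by simpa [zz] using hη, h k]) _ (h1.2.1 j)
  have e5 : ‖u‖ ^ j ≤ R ^ (2 * N) :=
    (pow_le_pow_left₀ (norm_nonneg _) hu j).trans
      (pow_le_pow_right₀ hR1 ((Nat.lt_succ_iff.1 (Finset.mem_range.1 hj)).trans h1.1))
  rw [← sub_mul, norm_mul, norm_pow]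
  refine (mul_le_mul e4 e5 (by positivity) (by positivity)).trans (le_of_eq ?_)
  ring

theorem alc [Infinite E] (S : Finset C) {m N : ℕ} {lam : Fin m → C}
    (hi : AlgebraicIndependent E (zz θ lam)) (h1 : HInt E θ lam (S : Set C))
    (h2 : ∀ u ∈ Submodule.span E (S : Set C), Alg E (zz θ lam) N N u) (lam' : Fin m → C)
    {R η : ℝ} (hR : ‖θ‖ ≤ R) (hη : 0 ≤ η) (hS : ∀ s ∈ S, ‖s‖ ≤ R) (hl : ∀ j, ‖lam j‖ ≤ R)
    (hl' : ∀ j, ‖lam' j‖ ≤ R) (h : ∀ j, ‖lam j - lam' j‖ ≤ η) :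
    ∃ φ : C →ₗ[E] C, (1 ∈ S → φ 1 = 1) ∧
      (∀ u ∈ Submodule.span E (S : Set C), AlgT E θ lam' (2 * N) (φ u)) ∧
      ∃ n, 1 ≤ n ∧ n ≤ 2 * N + 1 ∧ ∀ s ∈ S, ‖s - φ s‖ ^ n ≤ R ^ (4 * N) * η := by
  classical
  have hR1 : 1 ≤ R := hθ.le.trans hR
  have hmin : ∀ u ∈ Submodule.span E (S : Set C), ∃ Φ, Tp E (2 * N) Φ ∧ 0 < Φ.natDegree ∧
      ev3 E θ lam u Φ = 0 ∧ ∀ Ψ, ev3 E θ lam u Ψ = 0 → Φ ∣ Ψ := fun u hu => by
    obtain ⟨g, hg, H⟩ := h1.span
    exact minp hi ⟨g, hg, fun s hs => H s (by rw [hs]; exact hu)⟩ (h2 u hu)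
  choose! Φ p1 p2 p3 p4 using hmin
  let T : Set (S → C) := {τ | ∃ φ : C →ₗ[E] C, Pt E θ lam lam' (S : Set C) φ ∧ ∀ s : S, τ s = φ s}
  have hT : T.Finite := by
    refine (Set.Finite.pi' (t := fun s : S => ((Φ s).map (MvPolynomial.aeval (zz θ lam') :
      MvPolynomial (Option (Fin m)) E →ₐ[E] C).toRingHom).rootSet C)
      fun s => rootSet_finite _ _).subset ?_
    rintro τ ⟨φ, hφ, hτ⟩ s
    have hs : (s : C) ∈ Submodule.span E (S : Set C) := Submodule.subset_span s.2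
    have k1 := TALc_lead hE hθ lam' (p1 s hs)
    rw [mem_rootSet]
    refine ⟨fun e => ?_, ?_⟩
    · have := congrArg (fun p => p.coeff (Φ s).natDegree) e
      simp only [coeff_map, coeff_natDegree, coeff_zero] at this
      rw [this, norm_zero] at k1
      linarith
    · rw [coe_aeval_eq_eval, eval_map, hτ]
      exact hφ s hs _ (p3 s hs)
  have := hT.to_subtype
  obtain ⟨a, ha⟩ := TALc_gen hE (fun (τ : T) (s : S) => (s : C) - τ.1 s)
  set u : C := ∑ s : S, a s • (s : C) with hu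
  have huS : u ∈ Submodule.span E (S : Set C) :=
    sum_mem fun s _ => Submodule.smul_mem _ _ (Submodule.subset_span s.2)
  obtain ⟨u', e1, e2⟩ := TALc_near hE hθ lam' hR hη hl hl' h
    (normE_span hE (S : Set C) (by linarith) hS huS) (p1 u huS) (p2 u huS) (p3 u huS)
  obtain ⟨φ, hφ, rfl⟩ := ext_pt hi S h1 huS lam' u' fun Ψ hΨ => by
    obtain ⟨Θ, rfl⟩ := p4 u huS Ψ hΨ
    unfold ev3 at e1 ⊢
    rw [eval₂_mul, e1, zero_mul]
  refine ⟨φ, fun h1S => ?_, fun w hw => ⟨Φ w, p1 w hw, hφ w hw _ (p3 w hw)⟩, (Φ u).natDegree,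
    p2 u huS, (p1 u huS).1.trans (Nat.le_succ _), fun s hs => ?_⟩
  · have := hφ 1 (Submodule.subset_span h1S) (X - 1) (by simp [ev3, eval₂_sub])
    simpa [ev3, eval₂_sub, sub_eq_zero] using this
  · refine (pow_le_pow_left₀ (norm_nonneg _) ?_ _).trans e2
    refine (ha ⟨fun s => φ s, φ, hφ, fun _ => rfl⟩ ⟨s, hs⟩).trans (le_of_eq ?_)
    simp only [hu, map_sum, map_smul, smul_sub, Finset.sum_sub_distrib]

end Pool.Agent.MP_ee2255_nt.T
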