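import Pool.Agent.MP_ee2255_nt.TDefs

/-! Degree bounds. -/

namespace Pool.Agent.MP_ee2255_nt.T

open Polynomial Filter Topology Pool.Agent.MP_655169_nt

variable {E : Type*} [Field E] {C : Type*} [Field C] [Algebra E C] {κ : Type*}

section Aux

variable {k : Type*} [Field k] [Algebra k C]

theorem tdeg_sep (q : ℕ) [ExpChar k q] {s : C} (hs : IsIntegral k s) :
    ∃ n, q ^ n ≤ (minpoly k s).natDegree ∧ IsSeparable k (s ^ q ^ n) := by
  obtain ⟨g, hg, n, e⟩ := (minpoly.irreducible hs).hasSeparableContraction q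
  refine ⟨n, ?_, hg.of_dvd (minpoly.dvd k _ ?_)⟩
  · have h0 := minpoly.natDegree_pos hs
    rw [← e, natDegree_expand] at h0 ⊢
    exact Nat.le_mul_of_pos_left _ (Nat.pos_of_mul_pos_right h0)
  · rw [← expand_aeval, e, minpoly.aeval]

theorem tdeg_le_card [IsAlgClosed C] (L : IntermediateField k C) [FiniteDimensional k L] {b : C}
    (hb : b ∈ L) (hs : IsSeparable k b) : (minpoly k b).natDegree ≤ Nat.card (L →ₐ[k] C) := by
  have h1 := Algebra.IsAlgebraic.range_eval_eq_rootSet_minpoly (F := k) C (⟨b, hb⟩ : L)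
  rw [IntermediateField.minpoly_eq] at h1
  rw [← card_rootSet_eq_natDegree (K := C) hs (IsAlgClosed.splits _), ← Nat.card_eq_fintype_card,
    ← h1]
  exact Nat.card_le_card_of_surjective _ Set.rangeFactorization_surjective

theorem tdeg_card_le [IsAlgClosed C] (L : IntermediateField k C) [FiniteDimensional k L] (b : L)
    (hb : Function.Injective fun σ : L →ₐ[k] C => σ b) :
    Nat.card (L →ₐ[k] C) ≤ (minpoly k (b : C)).natDegree := by
  have h1 := Algebra.IsAlgebraic.range_eval_eq_rootSet_minpoly (F := k) C b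
  rw [IntermediateField.minpoly_eq] at h1
  rw [← Nat.card_range_of_injective hb, h1]
  exact ncard_rootSet_le _ C

theorem tdeg_step (L : IntermediateField k C) [FiniteDimensional k L] {N : ℕ} {x : C} {p : C[X]}
    (h0 : p ≠ 0) (hN : p.natDegree ≤ N) (hc : ∀ j, p.coeff j ∈ L) (hx : p.eval x = 0) :
    ∃ L' : IntermediateField k C, L ≤ L' ∧ x ∈ L' ∧ FiniteDimensional k L' ∧
      Module.finrank k L' ≤ Module.finrank k L * N := by
  obtain ⟨g, rfl⟩ := (mem_lifts (f := algebraMap L C) p).1
    ((lifts_iff_coeff_lifts p).2 fun j => ⟨⟨_, hc j⟩, rfl⟩)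
  have g0 : g ≠ 0 := fun e => h0 (by rw [e, Polynomial.map_zero])
  have gx : aeval x g = 0 := by rwa [eval_map_algebraMap] at hx
  rw [natDegree_map] at hN
  have hi : IsIntegral L x := (isAlgebraic_iff_isIntegral).1 ⟨g, g0, gx⟩
  have := IntermediateField.adjoin.finiteDimensional hi
  have hf : FiniteDimensional k (IntermediateField.adjoin L {x}) :=
    Module.Finite.trans L (IntermediateField.adjoin L {x})
  refine ⟨(IntermediateField.adjoin L {x}).restrictScalars k, fun y hy => ?_,
    IntermediateField.mem_adjoin_simple_self L x, hf, ?_⟩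
  · exact (IntermediateField.adjoin L {x}).algebraMap_mem ⟨y, hy⟩
  · change Module.finrank k (IntermediateField.adjoin L {x}) ≤ _
    have := Module.Free.of_divisionRing k L
    have := Module.Free.of_divisionRing L (IntermediateField.adjoin L {x})
    rw [← Module.finrank_mul_finrank k L (IntermediateField.adjoin L {x}),
      IntermediateField.adjoin.finrank hi]
    exact Nat.mul_le_mul_left _ ((natDegree_le_of_dvd (minpoly.dvd L x gx) g0).trans hN)

end Aux

theorem tdeg_step' {K : IntermediateField E C} (L : IntermediateField K C) [FiniteDimensional K L]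
    {ι : Type*} {z : ι → C} (hz : ∀ i, z i ∈ L) {N : ℕ} {x : C} {Φ : (MvPolynomial ι E)[X]}
    (hN : Φ.natDegree ≤ N) (h0 : MvPolynomial.aeval z Φ.leadingCoeff ≠ 0)
    (hx : Φ.eval₂ (MvPolynomial.aeval z : MvPolynomial ι E →ₐ[E] C).toRingHom x = 0) :
    ∃ L' : IntermediateField K C, L ≤ L' ∧ x ∈ L' ∧ FiniteDimensional K L' ∧
      Module.finrank K L' ≤ Module.finrank K L * N := by
  refine tdeg_step L (p := Φ.map (MvPolynomial.aeval z : MvPolynomial ι E →ₐ[E] C).toRingHom)
    (fun e => h0 ?_) (natDegree_map_le.trans hN) (fun j => ?_) (by rwa [eval_map])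
  · have := congrArg (fun p => p.coeff Φ.natDegree) e
    simpa using this
  · rw [coeff_map]
    exact MvPolynomial.eval₂_mem (fun i _ => L.algebraMap_mem (algebraMap E K _)) hz

/-- If all linear combinations have degree at most `G` then every element of the field generated
has degree at most `G ^ 2`. -/
theorem deg_adjoin [Infinite E] [IsAlgClosed C] (K : IntermediateField E C) (S : Finset C) (G : ℕ)
    (h : ∀ u ∈ Submodule.span E (S : Set C), IsIntegral K u ∧ (minpoly K u).natDegree ≤ G) :
    ∀ a ∈ IntermediateField.adjoin K (S : Set C),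
      IsIntegral K a ∧ (minpoly K a).natDegree ≤ G ^ 2 := by
  classical
  obtain ⟨q, hq⟩ := ExpChar.exists K
  have : ExpChar C q := expChar_of_injective_algebraMap (algebraMap K C).injective q
  have q0 : 0 < q := expChar_pos K q
  have hS : ∀ s ∈ (S : Set C), IsIntegral K s := fun s hs => (h s (Submodule.subset_span hs)).1
  have hG : 1 ≤ G := by simpa using (h 0 (zero_mem _)).2
  have := IntermediateField.finiteDimensional_adjoin hS
  set L := IntermediateField.adjoin K (S : Set C) with hL
  have hcard : Nat.card (L →ₐ[K] C) ≤ G := by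
    let v : S → L := fun s => ⟨s, IntermediateField.subset_adjoin _ _ s.2⟩
    let T : (S → E) →ₗ[E] L := Fintype.linearCombination E v
    obtain ⟨a, ha⟩ := Submodule.exists_forall_notMem_of_forall_ne_top
      (fun x : {x : (L →ₐ[K] C) × (L →ₐ[K] C) // x.1 ≠ x.2} =>
        LinearMap.eqLocus ((x.1.1.restrictScalars E).toLinearMap ∘ₗ T)
          ((x.1.2.restrictScalars E).toLinearMap ∘ₗ T)) (by
        intro x hx
        refine x.2 (IntermediateField.adjoin_algHom_ext K fun s hs => ?_)
        have h1 : Pi.single ⟨s, hs⟩ 1 ∈ LinearMap.eqLocus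
            ((x.1.1.restrictScalars E).toLinearMap ∘ₗ T)
            ((x.1.2.restrictScalars E).toLinearMap ∘ₗ T) := by
          rw [hx]
          trivial
        simpa [T, v] using h1)
    refine (tdeg_card_le L (T a) fun σ τ e => ?_).trans (h _ ?_).2
    · by_contra hne
      exact ha ⟨(σ, τ), hne⟩ e
    · have e : ((T a : L) : C) = ∑ s : S, a s • (s : C) := by
        simp [T, v, Fintype.linearCombination_apply]
      rw [e]
      exact Submodule.sum_mem _ fun s _ => Submodule.smul_mem _ _ (Submodule.subset_span s.2)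
  choose! n hn hsep using fun s (hs : s ∈ (S : Set C)) => tdeg_sep q (hS s hs)
  have hP : q ^ S.sup n ≤ G := by
    refine Finset.sup_induction (p := fun j => q ^ j ≤ G) (by simpa using hG) ?_ fun s hs =>
      (hn s hs).trans (h s (Submodule.subset_span hs)).2
    intro a ha b hb
    rcases le_total a b with e | e
    · rwa [sup_eq_right.2 e]
    · rwa [sup_eq_left.2 e]
  have hall : ∀ a ∈ L, a ^ q ^ S.sup n ∈ separableClosure K C := by
    intro a ha
    induction ha using IntermediateField.adjoin_induction with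
    | mem s hs =>
      obtain ⟨j, hj⟩ := Nat.exists_eq_add_of_le (Finset.le_sup (f := n) hs)
      rw [hj, pow_add, pow_mul]
      exact pow_mem (mem_separableClosure_iff.2 (hsep s hs)) _
    | algebraMap x => exact pow_mem (IntermediateField.algebraMap_mem _ x) _
    | add x y _ _ hx hy =>
      rw [add_pow_expChar_pow]
      exact add_mem hx hy
    | inv x _ hx =>
      rw [inv_pow]
      exact inv_mem hx
    | mul x y _ _ hx hy =>
      rw [mul_pow]
      exact mul_mem hx hy
  intro a ha
  have hs : IsSeparable K (a ^ q ^ S.sup n) := mem_separableClosure_iff.1 (hall a ha)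
  have h1 := (tdeg_le_card L (pow_mem ha _) hs).trans hcard
  refine ⟨hs.isIntegral.of_pow (pow_pos q0 _), ?_⟩
  have h2 : minpoly K a ∣ expand K (q ^ S.sup n) (minpoly K (a ^ q ^ S.sup n)) :=
    minpoly.dvd K a (by rw [expand_aeval, minpoly.aeval])
  refine (natDegree_le_of_dvd h2 ((expand_ne_zero (pow_pos q0 _)).2
    (minpoly.ne_zero hs.isIntegral))).trans ?_
  rw [natDegree_expand, sq]
  exact Nat.mul_le_mul h1 hP

theorem algT_deg {μ : κ → C} (hμ : AlgebraicIndependent E μ) (i0 : κ) {m N : ℕ} (lam : Fin m → C)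
    (h : ∀ j, Alg E μ N N (lam j)) {u : C} (hu : AlgT E (μ i0) lam N u) :
    IsIntegral (KF E μ) u ∧ (minpoly (KF E μ) u).natDegree ≤ N ^ (m + 1) := by
  classical
  have hm : ∀ (L : IntermediateField (KF E μ) C) (i : κ), μ i ∈ L := fun L i =>
    L.algebraMap_mem ⟨μ i, IntermediateField.subset_adjoin _ _ ⟨i, rfl⟩⟩
  have key : ∀ s : Finset (Fin m), ∃ L : IntermediateField (KF E μ) C, (∀ j ∈ s, lam j ∈ L) ∧
      FiniteDimensional (KF E μ) L ∧ Module.finrank (KF E μ) L ≤ N ^ s.card := by
    intro s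
    induction s using Finset.induction_on with
    | empty => exact ⟨⊥, by simp, inferInstance, by simp⟩
    | insert j s hj ih =>
      obtain ⟨L, h1, h2, h3⟩ := ih
      obtain ⟨Φ, p1, -, p2, p3⟩ := h j
      obtain ⟨L', q1, q2, q3, q4⟩ := tdeg_step' L (hm L) p1 p2 p3
      refine ⟨L', fun i hi => ?_, q3, ?_⟩
      · rcases Finset.mem_insert.1 hi with rfl | hi
        · exact q2
        · exact q1 (h1 i hi)
      · rw [Finset.card_insert_of_notMem hj, pow_succ]
        exact q4.trans (Nat.mul_le_mul_right _ h3)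
  obtain ⟨L, h1, h2, h3⟩ := key Finset.univ
  rw [Finset.card_univ, Fintype.card_fin] at h3
  obtain ⟨Φ, ⟨p1, -, a, a0, -, p2⟩, p3⟩ := hu
  have hz : ∀ o, zz (μ i0) lam o ∈ L := by
    rintro (_ | j)
    · exact hm L i0
    · exact h1 j (Finset.mem_univ j)
  have h0 : MvPolynomial.aeval (zz (μ i0) lam) Φ.leadingCoeff ≠ 0 := by
    rw [p2, ← aeval_algHom_apply, MvPolynomial.aeval_X]
    exact fun e => hμ.transcendental i0 ⟨a, a0, e⟩
  obtain ⟨L', -, q2, q3, q4⟩ := tdeg_step' L hz p1 h0 p3
  refine ⟨IntermediateField.isIntegral_iff.1 (IsIntegral.of_finite _ (⟨u, q2⟩ : L')), ?_⟩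
  have := Module.Free.of_divisionRing (KF E μ) L'
  have h4 := minpoly.natDegree_le (A := KF E μ) (⟨u, q2⟩ : L')
  rw [IntermediateField.minpoly_eq] at h4
  rw [pow_succ]
  exact h4.trans (q4.trans (Nat.mul_le_mul_right _ h3))

theorem AlgT.mono {θ : C} {m N N' : ℕ} {lam : Fin m → C} {u : C} (hu : AlgT E θ lam N u)
    (h : N ≤ N') : AlgT E θ lam N' u := by
  obtain ⟨Φ, ⟨p1, p2, a, a0, a1, p3⟩, p4⟩ := hu
  exact ⟨Φ, ⟨p1.trans h, fun j => (p2 j).trans h, a, a0, a1.trans h, p3⟩, p4⟩

end Pool.Agent.MP_ee2255_nt.T
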