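import Pool.Agent.MP_ee2255_nt.TDefs
import Pool.Agent.MP_655169_nt.Inv

/-! Gauss lemmas. -/

set_option linter.unusedSectionVars false

namespace Pool.Agent.MP_ee2255_nt.T

open Polynomial Filter Topology Pool.Agent.MP_655169_nt

theorem tGauss_top {R Γ A B : Type*} [CommRing R] [LinearOrderedCommGroupWithZero Γ]
    [LinearOrder B] (φ : A → B) (v : Valuation R Γ) (p : A → R) (S : Finset A)
    (hS : ∀ a, a ∉ S → p a = 0) (e : A) (he : v (p e) ≠ 0) :
    ∃ a0, v (p a0) ≠ 0 ∧ ∀ a, v (p a) ≤ v (p a0) ∧ (v (p a) < v (p a0) ∨ φ a ≤ φ a0) := by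
  have heS : e ∈ S := by
    by_contra h
    exact he (by rw [hS e h, map_zero])
  obtain ⟨a0, -, h0⟩ := S.exists_max_image (fun a => toLex (v (p a), φ a)) ⟨e, heS⟩
  have key : ∀ a ∈ S, v (p a) ≤ v (p a0) ∧ (v (p a) < v (p a0) ∨ φ a ≤ φ a0) := by
    intro a ha
    have := h0 a ha
    rw [Prod.Lex.toLex_le_toLex] at this
    rcases this with h | ⟨h1, h2⟩
    · exact ⟨h.le, Or.inl h⟩
    · exact ⟨h1.le, Or.inr h2⟩
  have hne : v (p a0) ≠ 0 := by
    intro h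
    have := (key e heS).1
    rw [h] at this
    exact he (le_zero_iff.1 this)
  refine ⟨a0, hne, fun a => ?_⟩
  by_cases ha : a ∈ S
  · exact key a ha
  · rw [hS a ha, map_zero]
    exact ⟨zero_le, Or.inl (zero_lt_iff.2 hne)⟩

theorem tGauss_core {R Γ A B : Type*} [CommRing R] [LinearOrderedCommGroupWithZero Γ]
    [AddCommMonoid A] [Finset.HasAntidiagonal A] [AddCommMonoid B] [LinearOrder B]
    [IsOrderedCancelAddMonoid B] (φ : A → B) (hφ : Function.Injective φ)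
    (hadd : ∀ a b, φ (a + b) = φ a + φ b) (v : Valuation R Γ) (p q : A → R) (S T : Finset A)
    (hS : ∀ a, a ∉ S → p a = 0) (hT : ∀ a, a ∉ T → q a = 0) (γ : Γ)
    (h : ∀ n, v (∑ x ∈ Finset.HasAntidiagonal.antidiagonal n, p x.1 * q x.2) ≤ γ) (e e' : A) :
    v (p e) * v (q e') ≤ γ := by
  classical
  by_cases he : v (p e) = 0
  · rw [he, zero_mul]; exact zero_le
  by_cases he' : v (q e') = 0
  · rw [he', mul_zero]; exact zero_le
  obtain ⟨a, ha0, ha⟩ := tGauss_top φ v p S hS e he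
  obtain ⟨b, hb0, hb⟩ := tGauss_top φ v q T hT e' he'
  have hapos : 0 < v (p a) := zero_lt_iff.2 ha0
  have hbpos : 0 < v (q b) := zero_lt_iff.2 hb0
  have key : v (∑ x ∈ Finset.HasAntidiagonal.antidiagonal (a + b), p x.1 * q x.2) = v (p (a, b).1 * q (a, b).2) := by
    refine v.map_sum_eq_of_lt (f := fun x : A × A => p x.1 * q x.2) (j := (a, b))
      (Finset.HasAntidiagonal.mem_antidiagonal.2 rfl) fun x hx => ?_
    rw [Finset.mem_sdiff, Finset.HasAntidiagonal.mem_antidiagonal, Finset.mem_singleton] at hx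
    obtain ⟨hx1, hx2⟩ := hx
    rw [map_mul, map_mul]
    rcases (ha x.1).2 with h1 | h1
    · calc v (p x.1) * v (q x.2) ≤ v (p x.1) * v (q b) := mul_le_mul' le_rfl (hb x.2).1
        _ < v (p a) * v (q b) := mul_lt_mul_of_pos_right h1 hbpos
    rcases (hb x.2).2 with h2 | h2
    · calc v (p x.1) * v (q x.2) ≤ v (p a) * v (q x.2) := mul_le_mul' (ha x.1).1 le_rfl
        _ < v (p a) * v (q b) := mul_lt_mul_of_pos_left h2 hapos
    exfalso
    apply hx2
    have hs : φ x.1 + φ x.2 = φ a + φ b := by rw [← hadd, ← hadd, hx1]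
    have e1 : φ x.1 = φ a := by
      by_contra hne
      exact absurd hs (add_lt_add_of_lt_of_le (lt_of_le_of_ne h1 hne) h2).ne
    have e2 : φ x.2 = φ b := by
      rw [e1] at hs
      exact add_left_cancel hs
    exact Prod.ext (hφ e1) (hφ e2)
  have := h (a + b)
  rw [key, map_mul] at this
  exact (mul_le_mul' (ha e).1 (hb e').1).trans this

/-- Gauss lemma for a valuation. -/
theorem mv_gauss {R Γ σ : Type*} [CommRing R] [LinearOrderedCommGroupWithZero Γ] [Finite σ]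
    (v : Valuation R Γ) (P Q : MvPolynomial σ R) (γ : Γ) (h : ∀ e, v ((P * Q).coeff e) ≤ γ)
    (e e' : σ →₀ ℕ) : v (P.coeff e) * v (Q.coeff e') ≤ γ := by
  classical
  let _ : LinearOrder σ := linearOrderOfSTO WellOrderingRel
  refine tGauss_core (B := Lex (σ →₀ ℕ)) toLex toLex.injective (fun _ _ => rfl) v
    (fun a => P.coeff a) (fun a => Q.coeff a) P.support Q.support
    (fun a ha => MvPolynomial.notMem_support_iff.1 ha)
    (fun a ha => MvPolynomial.notMem_support_iff.1 ha) γ (fun n => ?_) e e'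
  have := h n
  rw [MvPolynomial.coeff_mul] at this
  convert this

section GV

variable {R Γ : Type*} [CommRing R] [LinearOrderedCommGroupWithZero Γ] (v : Valuation R Γ)

/-- The largest valuation of a coefficient. -/
noncomputable def tGauss_gn (P : R[X]) : Γ := P.support.sup fun j => v (P.coeff j)

theorem tGauss_le_gn (P : R[X]) (j : ℕ) : v (P.coeff j) ≤ tGauss_gn v P := by
  by_cases h : j ∈ P.support
  · exact Finset.le_sup (f := fun j => v (P.coeff j)) h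
  · rw [notMem_support_iff.1 h, map_zero]
    exact zero_le

theorem tGauss_gn_le (P : R[X]) {γ : Γ} (h : ∀ j, v (P.coeff j) ≤ γ) : tGauss_gn v P ≤ γ :=
  Finset.sup_le fun j _ => h j

theorem tGauss_exists_gn (P : R[X]) : ∃ j, tGauss_gn v P = v (P.coeff j) := by
  rcases P.support.eq_empty_or_nonempty with h | h
  · refine ⟨0, le_antisymm (tGauss_gn_le v P fun j => ?_) (tGauss_le_gn v P 0)⟩
    rw [support_eq_empty.1 h]
    simp
  · obtain ⟨j, -, hj⟩ := P.support.exists_mem_eq_sup h fun j => v (P.coeff j)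
    exact ⟨j, hj⟩

/-- The Gauss valuation on the polynomial ring. -/
noncomputable def tGauss_gv : Valuation R[X] Γ where
  toFun := tGauss_gn v
  map_zero' := le_zero_iff.1 (tGauss_gn_le v 0 fun j => by simp)
  map_one' := by
    refine le_antisymm (tGauss_gn_le v 1 fun j => ?_) ?_
    · rw [coeff_one]
      split_ifs <;> simp
    · simpa using tGauss_le_gn v 1 0
  map_mul' P Q := by
    refine le_antisymm (tGauss_gn_le v _ fun n => ?_) ?_
    · rw [coeff_mul]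
      refine v.map_sum_le fun x _ => ?_
      rw [map_mul]
      exact mul_le_mul' (tGauss_le_gn v P _) (tGauss_le_gn v Q _)
    · obtain ⟨i, hi⟩ := tGauss_exists_gn v P
      obtain ⟨j, hj⟩ := tGauss_exists_gn v Q
      rw [hi, hj]
      refine tGauss_core (B := ℕ) id Function.injective_id (fun _ _ => rfl) v
        (fun a => P.coeff a) (fun a => Q.coeff a) P.support Q.support
        (fun a ha => notMem_support_iff.1 ha) (fun a ha => notMem_support_iff.1 ha) _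
        (fun n => ?_) i j
      rw [← coeff_mul]
      exact tGauss_le_gn v _ n
  map_add_le_max' P Q := by
    refine tGauss_gn_le v _ fun n => ?_
    rw [coeff_add]
    exact (v.map_add _ _).trans (max_le_max (tGauss_le_gn v P n) (tGauss_le_gn v Q n))

end GV

theorem gauss_val {C : Type*} [Field C] (V : ValuationSubring C) (t : C) {r : ℕ}
    (P Q : MvPolynomial (Fin r) C[X]) (h : ∀ e j, t * ((P * Q).coeff e).coeff j ∈ V)
    (e : Fin r →₀ ℕ) (j : ℕ) (e' : Fin r →₀ ℕ) (j' : ℕ) :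
    t * ((P.coeff e).coeff j * (Q.coeff e').coeff j') ∈ V := by
  by_cases ht : t = 0
  · rw [ht, zero_mul]
    exact V.zero_mem
  have hpos : 0 < V.valuation t := zero_lt_iff.2 ((Valuation.ne_zero_iff _).2 ht)
  have key : ∀ c : C, t * c ∈ V ↔ V.valuation c ≤ (V.valuation t)⁻¹ := by
    intro c
    rw [← V.valuation_le_one_iff, map_mul, ← mul_one (V.valuation t)⁻¹, le_inv_mul_iff₀ hpos]
  have h1 := mv_gauss (tGauss_gv V.valuation) P Q (V.valuation t)⁻¹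
    (fun e => tGauss_gn_le V.valuation _ fun j => (key _).1 (h e j)) e e'
  rw [key, map_mul]
  exact (mul_le_mul' (tGauss_le_gn V.valuation _ j) (tGauss_le_gn V.valuation _ j')).trans h1

variable {F C Ω : Type*} [Field F] [Fintype F] [NormedField C] [IsUltrametricDist C]
  [IsAlgClosed C] [Algebra F C] [NormedField Ω] [IsUltrametricDist Ω] [IsAlgClosed Ω]
  [Algebra C Ω] [Algebra F Ω] [IsScalarTower F C Ω] (Z : Sit F C Ω)

variable {ι : Type*}

theorem tGauss_le (Q : MvPolynomial ι C[X]) (e : ι →₀ ℕ) :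
    ‖aeval Z.t (Q.coeff e)‖₊ ≤ Q.support.sup fun e => ‖aeval Z.t (Q.coeff e)‖₊ := by
  by_cases h : e ∈ Q.support
  · exact Finset.le_sup (f := fun e => ‖aeval Z.t (Q.coeff e)‖₊) h
  · rw [MvPolynomial.notMem_support_iff.1 h]
    simp

theorem tGauss_ex (Q : MvPolynomial ι C[X]) : ∃ e, cn Z Q = ‖aeval Z.t (Q.coeff e)‖ := by
  rcases Q.support.eq_empty_or_nonempty with h | h
  · refine ⟨0, ?_⟩
    rw [MvPolynomial.support_eq_empty.1 h]
    simp [cn]
  · obtain ⟨e, -, he⟩ := Q.support.exists_mem_eq_sup h fun e => ‖aeval Z.t (Q.coeff e)‖₊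
    exact ⟨e, by rw [cn, he, coe_nnnorm]⟩

theorem cn_nonneg (Q : MvPolynomial ι C[X]) : 0 ≤ cn Z Q := NNReal.coe_nonneg _
theorem le_cn (Q : MvPolynomial ι C[X]) (e : ι →₀ ℕ) : ‖aeval Z.t (Q.coeff e)‖ ≤ cn Z Q :=
  NNReal.coe_le_coe.2 (tGauss_le Z Q e)
theorem coeff_le_cn (Q : MvPolynomial ι C[X]) (e : ι →₀ ℕ) (j : ℕ) :
    ‖(Q.coeff e).coeff j‖ ≤ cn Z Q := (Z.gauss_le _ j).trans (le_cn Z Q e)
theorem exists_cn (Q : MvPolynomial ι C[X]) : ∃ e j, cn Z Q = ‖(Q.coeff e).coeff j‖ := by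
  obtain ⟨e, he⟩ := tGauss_ex Z Q
  obtain ⟨j, hj⟩ := Z.gauss_ge (Q.coeff e)
  exact ⟨e, j, le_antisymm (he ▸ hj) (coeff_le_cn Z Q e j)⟩
theorem cn_le (Q : MvPolynomial ι C[X]) {A : ℝ} (h : ∀ e j, ‖(Q.coeff e).coeff j‖ ≤ A) :
    cn Z Q ≤ A := by
  obtain ⟨e, j, he⟩ := exists_cn Z Q
  rw [he]
  exact h e j
theorem cn_pos {Q : MvPolynomial ι C[X]} (h : Q ≠ 0) : 0 < cn Z Q := by
  obtain ⟨e, he⟩ := MvPolynomial.ne_zero_iff.1 h
  exact (norm_pos_iff.2 (Z.aeval_ne _ he)).trans_le (le_cn Z Q e)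
theorem cn_mul [Finite ι] (P Q : MvPolynomial ι C[X]) : cn Z (P * Q) = cn Z P * cn Z Q := by
  classical
  refine le_antisymm ?_ ?_
  · obtain ⟨e, he⟩ := tGauss_ex Z (P * Q)
    rw [he, MvPolynomial.coeff_mul, map_sum]
    refine IsUltrametricDist.norm_sum_le_of_forall_le_of_nonneg
      (mul_nonneg (cn_nonneg Z P) (cn_nonneg Z Q)) fun x _ => ?_
    rw [map_mul, norm_mul]
    exact mul_le_mul (le_cn Z P _) (le_cn Z Q _) (norm_nonneg _) (cn_nonneg Z P)
  · obtain ⟨e, he⟩ := tGauss_ex Z P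
    obtain ⟨e', he'⟩ := tGauss_ex Z Q
    have := mv_gauss ((NormedField.valuation (K := Ω)).comap
      (aeval Z.t : C[X] →ₐ[C] Ω).toRingHom) P Q _ (tGauss_le Z (P * Q)) e e'
    rw [he, he']
    exact NNReal.coe_le_coe.2 this
theorem cn_monomial (e : ι →₀ ℕ) (a : C[X]) :
    cn Z (MvPolynomial.monomial e a) = ‖aeval Z.t a‖ := by
  classical
  refine le_antisymm ?_ ?_
  · obtain ⟨e', he'⟩ := tGauss_ex Z (MvPolynomial.monomial e a)
    rw [he', MvPolynomial.coeff_monomial]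
    split_ifs <;> simp
  · simpa using le_cn Z (MvPolynomial.monomial e a) e
theorem cn_C_mul (a : C) (Q : MvPolynomial ι C[X]) :
    cn Z (MvPolynomial.C (Polynomial.C a) * Q) = ‖a‖ * cn Z Q := by
  have key : ∀ e, ‖aeval Z.t ((MvPolynomial.C (Polynomial.C a) * Q).coeff e)‖ =
      ‖a‖ * ‖aeval Z.t (Q.coeff e)‖ := by
    intro e
    rw [MvPolynomial.coeff_C_mul, map_mul, aeval_C, norm_mul, Z.norm_alg]
  refine le_antisymm ?_ ?_
  · obtain ⟨e, he⟩ := tGauss_ex Z (MvPolynomial.C (Polynomial.C a) * Q)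
    rw [he, key]
    exact mul_le_mul_of_nonneg_left (le_cn Z Q e) (norm_nonneg _)
  · obtain ⟨e, he⟩ := tGauss_ex Z Q
    rw [he, ← key]
    exact le_cn Z _ e

theorem FF_add (f : ι → Ω) (P Q : MvPolynomial ι C[X]) :
    Z.FF f (P + Q) = Z.FF f P + Z.FF f Q := MvPolynomial.eval₂_add ..
theorem FF_sub (f : ι → Ω) (P Q : MvPolynomial ι C[X]) :
    Z.FF f (P - Q) = Z.FF f P - Z.FF f Q := MvPolynomial.eval₂_sub ..
theorem FF_mul (f : ι → Ω) (P Q : MvPolynomial ι C[X]) :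
    Z.FF f (P * Q) = Z.FF f P * Z.FF f Q := MvPolynomial.eval₂_mul ..
theorem FF_pow (f : ι → Ω) (P : MvPolynomial ι C[X]) (n : ℕ) :
    Z.FF f (P ^ n) = Z.FF f P ^ n := MvPolynomial.eval₂_pow ..
theorem FF_C (f : ι → Ω) (a : C[X]) : Z.FF f (MvPolynomial.C a) = aeval Z.t a :=
  MvPolynomial.eval₂_C ..
theorem FF_X (f : ι → Ω) (i : ι) : Z.FF f (MvPolynomial.X i) = f i := MvPolynomial.eval₂_X ..
theorem FF_sum {α : Type*} (s : Finset α) (f : ι → Ω) (P : α → MvPolynomial ι C[X]) :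
    Z.FF f (∑ a ∈ s, P a) = ∑ a ∈ s, Z.FF f (P a) := MvPolynomial.eval₂_sum ..
theorem FF_rename {ι' : Type*} (g : ι → ι') (f : ι' → Ω) (P : MvPolynomial ι C[X]) :
    Z.FF f (MvPolynomial.rename g P) = Z.FF (f ∘ g) P := MvPolynomial.eval₂_rename ..
theorem FF_le (f : ι → Ω) {R : ℝ} (hR : 1 ≤ R) (hf : ∀ i, ‖f i‖ ≤ R) (Q : MvPolynomial ι C[X])
    {d : ℕ} (hd : Q.totalDegree ≤ d) : ‖Z.FF f Q‖ ≤ cn Z Q * R ^ d :=
  norm_eval₂_le _ Q f _ R (cn_nonneg Z Q) (le_cn Z Q) hR hf d hd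
theorem FF_lip (f f' : ι → Ω) {R ε : ℝ} (hR : 1 ≤ R) (hε : 0 ≤ ε) (hf : ∀ i, ‖f i‖ ≤ R)
    (hf' : ∀ i, ‖f' i‖ ≤ R) (h : ∀ i, ‖f i - f' i‖ ≤ ε) (Q : MvPolynomial ι C[X]) {d : ℕ}
    (hd : Q.totalDegree ≤ d) : ‖Z.FF f Q - Z.FF f' Q‖ ≤ cn Z Q * R ^ d * ε :=
  lip_eval₂ _ Q f f' _ R ε (cn_nonneg Z Q) (le_cn Z Q) hR hε hf hf' h d hd

theorem tGauss_sgt (f : ι → Ω) (y : ι → C) (Q : MvPolynomial ι C[X]) :
    Z.FF f (Z.sgt y Q) = MvPolynomial.eval₂ ((aeval Z.t : C[X] →ₐ[C] Ω).toRingHom.comp (Z.tw 1))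
      (fun j => algebraMap C Ω (y j) + (Z.t - algebraMap C Ω Z.θ) * f j) Q := by
  induction Q using MvPolynomial.induction_on with
  | C a => simp [Sit.sgt, Sit.FF]
  | add p q hp hq =>
    simp only [Sit.sgt, Sit.FF, MvPolynomial.eval₂_add] at hp hq ⊢
    rw [hp, hq]
  | mul_X p i hp =>
    simp only [Sit.sgt, Sit.FF, MvPolynomial.eval₂_mul, MvPolynomial.eval₂_X,
      MvPolynomial.eval₂_add, MvPolynomial.eval₂_C] at hp ⊢
    rw [hp]
    simp [Sit.ss]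

/-- The twist by approximate data of a polynomial that is small at `f` is small at `f`. -/
theorem sgt_small (f : ι → Ω) (al y : ι → C) (hs : ∀ j, Z.Sol (al j) (f j)) {R ε : ℝ}
    (hR : 1 ≤ R) (hε : 0 ≤ ε) (hε1 : ε ≤ 1) (hf : ∀ i, ‖f i‖ ≤ R) (hy : ∀ j, ‖al j - y j‖ ≤ ε)
    (Q : MvPolynomial ι C[X]) {d : ℕ} (hd : Q.totalDegree ≤ d) :
    ‖Z.FF f (Z.sgt y Q)‖ ≤
      max (‖Z.FF f Q‖ ^ qq F) (cn Z Q ^ qq F * (R ^ qq F) ^ d * ε) := by
  have hRq : 1 ≤ R ^ qq F := one_le_pow₀ hR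
  have h1 : ∀ j, ‖algebraMap C Ω (al j) + (Z.t - algebraMap C Ω Z.θ) * f j‖ ≤ R ^ qq F := by
    intro j
    have := hs j
    rw [Sit.Sol] at this
    rw [← this, Z.σ_norm]
    exact pow_le_pow_left₀ (norm_nonneg _) (hf j) _
  have h2 : ∀ j, ‖(algebraMap C Ω (y j) + (Z.t - algebraMap C Ω Z.θ) * f j) -
      (algebraMap C Ω (al j) + (Z.t - algebraMap C Ω Z.θ) * f j)‖ ≤ ε := by
    intro j
    rw [add_sub_add_right_eq_sub, ← map_sub, Z.norm_alg, norm_sub_rev]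
    exact hy j
  have h3 : ∀ j, ‖algebraMap C Ω (y j) + (Z.t - algebraMap C Ω Z.θ) * f j‖ ≤ R ^ qq F := by
    intro j
    rw [← sub_add_cancel (algebraMap C Ω (y j) + (Z.t - algebraMap C Ω Z.θ) * f j)
      (algebraMap C Ω (al j) + (Z.t - algebraMap C Ω Z.θ) * f j)]
    exact (IsUltrametricDist.norm_add_le_max _ _).trans
      (max_le ((h2 j).trans (hε1.trans hRq)) (h1 j))
  have h4 := lip_eval₂ ((aeval Z.t : C[X] →ₐ[C] Ω).toRingHom.comp (Z.tw 1)) Q _ _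
    (cn Z Q ^ qq F) (R ^ qq F) ε (pow_nonneg (cn_nonneg Z Q) _) (fun e => by
      change ‖aeval Z.t (Z.tw 1 (Q.coeff e))‖ ≤ _
      rw [← Z.σ_aeval, Z.σ_norm]
      exact pow_le_pow_left₀ (norm_nonneg _) (le_cn Z Q e) _) hRq hε h3 h1 h2 d hd
  rw [← tGauss_sgt, ← tGauss_sgt] at h4
  rw [← add_sub_cancel (Z.FF f (Z.sgt al Q)) (Z.FF f (Z.sgt y Q)), add_sub_assoc']
  rw [add_sub_assoc]
  refine (IsUltrametricDist.norm_add_le_max _ _).trans (max_le_max (le_of_eq ?_) h4)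
  rw [Z.FF_sgt f al hs, Z.σ_norm]

end Pool.Agent.MP_ee2255_nt.T
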