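import Pool.Agent.MP_ee2255_nt.TMa6
import Pool.Agent.MP_ee2255_nt.TDeg
import Pool.Agent.MP_ee2255_nt.TGauss

/-! Construction of a filtration. -/

namespace Pool.Agent.MP_ee2255_nt.T

open Polynomial Filter Topology Pool.Agent.MP_655169_nt

section Aux

variable {E C κ : Type*} [Field E] [Field C] [Algebra E C]

/-- `t` weighs the degrees of the polynomials in `μ` at the valuation ring `V`. -/
def TFramePl (E : Type*) [Field E] [Algebra E C] (μ : κ → C) (V : ValuationSubring C) (t : C) : Prop :=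
  ∀ (a : MvPolynomial κ E) (n : ℕ), a.totalDegree ≤ n → MvPolynomial.aeval μ a * t ^ n ∈ V

theorem TFrame_va {μ : κ → C} {x : C} {n : ℕ} (h : ∀ V t, TFramePl E μ V t → x * t ^ n ∈ V) :
    VA E μ x := fun V hV => by
  simpa using h V 1 fun a n _ => by simpa using hV a

theorem TFrame_vi {μ : κ → C} (i0 : κ) {x : C} {n : ℕ} (h : ∀ V t, TFramePl E μ V t → x * t ^ n ∈ V) :
    VI E μ (x / μ i0 ^ n) := fun V hV => by
  rw [div_eq_mul_inv, ← inv_pow]
  refine h V _ fun a n ha => ?_
  have := hV a (MvPolynomial.X i0 ^ n) (pow_ne_zero _ (MvPolynomial.X_ne_zero _))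
    (by rwa [MvPolynomial.totalDegree_X_pow])
  rwa [map_pow, MvPolynomial.aeval_X, div_eq_mul_inv, ← inv_pow] at this

theorem TFrame_const {μ : κ → C} {V : ValuationSubring C} {t : C} (h : TFramePl E μ V t) (e : E) :
    algebraMap E C e ∈ V := by
  simpa using h (MvPolynomial.C e) 0 (by simp)

theorem TFrame_deg (i0 : κ) (a : E[X]) :
    (aeval (MvPolynomial.X i0 : MvPolynomial κ E) a).totalDegree ≤ a.natDegree := by
  rw [aeval_eq_sum_range]
  refine MvPolynomial.totalDegree_finsetSum_le fun i hi => ?_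
  refine (MvPolynomial.totalDegree_smul_le _ _).trans ?_
  rw [MvPolynomial.totalDegree_X_pow]
  exact Nat.lt_succ_iff.1 (Finset.mem_range.1 hi)

theorem TFrame_prod_deg {α : Type*} (s : Finset α) (f : α → MvPolynomial κ E) {N : ℕ}
    (h : ∀ i ∈ s, (f i).totalDegree ≤ N) : (∏ i ∈ s, f i).totalDegree ≤ s.card * N :=
  (MvPolynomial.totalDegree_finsetProd s f).trans
    (by simpa using Finset.sum_le_card_nsmul s _ N h)

theorem TFrame_hom {σ : Type*} (z : σ → C) (V : ValuationSubring C)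
    (hE : ∀ e : E, algebraMap E C e ∈ V) {T : C} (hT : T ∈ V) (hz : ∀ o, T * z o ∈ V)
    (c : MvPolynomial σ E) {N : ℕ} (hc : c.totalDegree ≤ N) :
    T ^ N * MvPolynomial.aeval z c ∈ V := by
  rw [MvPolynomial.aeval_def, MvPolynomial.eval₂_eq, Finset.mul_sum]
  refine sum_mem fun e he => ?_
  have h1 : ∑ i ∈ e.support, e i ≤ N := (MvPolynomial.le_totalDegree he).trans hc
  obtain ⟨d, rfl⟩ := Nat.exists_eq_add_of_le h1
  have : T ^ (∑ i ∈ e.support, e i + d) * (algebraMap E C (c.coeff e) *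
      ∏ i ∈ e.support, z i ^ e i) =
      T ^ d * algebraMap E C (c.coeff e) * ∏ i ∈ e.support, (T * z i) ^ e i := by
    simp only [mul_pow, Finset.prod_mul_distrib, Finset.prod_pow_eq_pow_sum]
    ring
  rw [this]
  exact mul_mem (mul_mem (pow_mem hT _) (hE _)) (prod_mem fun i _ => pow_mem (hz i) _)

theorem TFrame_root {R : Type*} [CommRing R] (f : R →+* C) (V : ValuationSubring C) (Φ : R[X]) {x : C}
    (hx : Φ.eval₂ f x = 0) (h0 : f Φ.leadingCoeff ≠ 0) (t : C) (h : ∀ j, t * f (Φ.coeff j) ∈ V) :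
    t * f Φ.leadingCoeff * x ∈ V := by
  rw [← leadingCoeff_map_of_leadingCoeff_ne_zero f h0]
  exact val_root V (Φ.map f) (by rwa [eval_map]) t fun j => by rw [coeff_map]; exact h j

theorem TFrame_delta {μ : κ → C} (hμ : AlgebraicIndependent E μ) (i0 : κ) {m N : ℕ}
    (lam : Fin m → C) (hl : ∀ j, Alg E μ N N (lam j)) (S : Finset C)
    (hS : S.card ≤ N) (h : ∀ u ∈ S, AlgT E (μ i0) lam N u) :
    ∃ Δ : MvPolynomial κ E, Δ ≠ 0 ∧ Δ.totalDegree ≤ (m + 1) * N ^ 2 ∧ ∀ s ∈ S, ∀ V t,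
      TFramePl E μ V t → MvPolynomial.aeval μ Δ * t ^ ((m + 2) * N ^ 2) * s ∈ V := by
  classical
  choose Φ h1 h2 h3 h4 using hl
  choose! Ψ k1 k2 using h
  have k3 := fun u hu => (k1 u hu).2.2
  choose! a a1 a2 a3 using k3
  have hlc : ∀ j, (Φ j).leadingCoeff.totalDegree ≤ N := fun j => h2 j _
  have ha : ∀ s ∈ S, (aeval (MvPolynomial.X i0 : MvPolynomial κ E) (a s)).totalDegree ≤ N :=
    fun s hs => (TFrame_deg i0 _).trans (a2 s hs)
  have hev : ∀ p : E[X], MvPolynomial.aeval μ (aeval (MvPolynomial.X i0 : MvPolynomial κ E) p) =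
      aeval (μ i0) p := fun p => by
    rw [← aeval_algHom_apply, MvPolynomial.aeval_X]
  have hne : ∀ s ∈ S, aeval (μ i0) (a s) ≠ 0 := fun s hs e =>
    hμ.transcendental i0 ⟨a s, a1 s hs, e⟩
  set Lc : MvPolynomial κ E := ∏ j, (Φ j).leadingCoeff with hLc
  have hLd : Lc.totalDegree ≤ m * N := by
    simpa using TFrame_prod_deg Finset.univ (fun j => (Φ j).leadingCoeff) fun j _ => hlc j
  refine ⟨Lc ^ N * ∏ s ∈ S, aeval (MvPolynomial.X i0) (a s), ?_, ?_, fun s hs V t hV => ?_⟩
  · refine mul_ne_zero (pow_ne_zero _ (Finset.prod_ne_zero_iff.2 fun j _ e => h3 j ?_))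
      (Finset.prod_ne_zero_iff.2 fun s hs e => hne s hs ?_)
    · rw [e, map_zero]
    · rw [← hev, e, map_zero]
  · refine (MvPolynomial.totalDegree_mul _ _).trans ?_
    have e1 := (MvPolynomial.totalDegree_pow Lc N).trans (Nat.mul_le_mul_left N hLd)
    have e2 := (TFrame_prod_deg S _ ha).trans (Nat.mul_le_mul_right N hS)
    nlinarith
  · set T : C := MvPolynomial.aeval μ Lc * t ^ (m * N + 1) with hT
    have hTV : T ∈ V := hV _ _ (hLd.trans (Nat.le_succ _))
    have hz : ∀ o, T * zz (μ i0) lam o ∈ V := by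
      rintro (_ | j)
      · have := hV (Lc * MvPolynomial.X i0) (m * N + 1) ((MvPolynomial.totalDegree_mul _ _).trans
          (by rw [MvPolynomial.totalDegree_X]; omega))
        rw [map_mul, MvPolynomial.aeval_X] at this
        convert this using 1
        simp only [hT, zz, Option.elim]
        ring
      · have e1 := TFrame_root (MvPolynomial.aeval μ : MvPolynomial κ E →ₐ[E] C).toRingHom V (Φ j)
          (h4 j) (h3 j) (t ^ N) fun i => by rw [mul_comm]; exact hV _ _ (h2 j i)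
        have e2 := hV (∏ i ∈ Finset.univ.erase j, (Φ i).leadingCoeff)
          ((Finset.univ.erase j).card * N + 1)
          ((TFrame_prod_deg _ _ fun i _ => hlc i).trans (Nat.le_succ _))
        have e3 : (Finset.univ.erase j).card + 1 = m := by
          rw [Finset.card_erase_add_one (Finset.mem_univ j)]; simp
        have e4 : m * N + 1 = N + ((Finset.univ.erase j).card * N + 1) := by
          conv_lhs => rw [← e3]
          ring
        convert mul_mem e1 e2 using 1
        rw [hT, hLc, ← Finset.mul_prod_erase _ _ (Finset.mem_univ j), map_mul, e4]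
        simp only [zz, Option.elim, AlgHom.toRingHom_eq_coe, RingHom.coe_coe]
        ring
    have hlead : MvPolynomial.aeval (zz (μ i0) lam) (Ψ s).leadingCoeff = aeval (μ i0) (a s) := by
      rw [a3 s hs, ← aeval_algHom_apply, MvPolynomial.aeval_X]
      rfl
    have e1 := TFrame_root (MvPolynomial.aeval (zz (μ i0) lam) :
      MvPolynomial (Option (Fin m)) E →ₐ[E] C).toRingHom V (Ψ s) (k2 s hs)
      (fun e => hne s hs (hlead ▸ e)) (T ^ N)
      fun i => TFrame_hom _ V (TFrame_const hV) hTV hz _ ((k1 s hs).2.1 i)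
    obtain ⟨d, hd⟩ : ∃ d, (m + 2) * N ^ 2 = (m * N + 1) * N + (N * N + d) :=
      ⟨N * N - N, by
        have : N ≤ N * N := Nat.le_mul_self N
        zify [this]
        ring⟩
    have e2 := hV (∏ s' ∈ S.erase s, aeval (MvPolynomial.X i0) (a s')) (N * N + d)
      ((TFrame_prod_deg _ _ fun i hi => ha i (Finset.mem_of_mem_erase hi)).trans
        ((Nat.mul_le_mul_right N ((Finset.card_erase_le).trans hS)).trans (Nat.le_add_right _ _)))
    convert mul_mem e1 e2 using 1
    simp only [AlgHom.toRingHom_eq_coe, RingHom.coe_coe]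
    rw [hlead, hd, hT, ← Finset.mul_prod_erase _ _ hs, map_mul, map_mul, map_pow, hev]
    ring

end Aux

theorem frame_exists {F E C κ : Type*} [Field F] [Fintype F] [Field E] [Infinite E] [Field C]
    [IsAlgClosed C] [Algebra F C] [Algebra E C] [Algebra F E] [IsScalarTower F E C] [Finite κ]
    {μ : κ → C} (hμ : AlgebraicIndependent E μ) (i0 : κ) {θ : C} (hθ : μ i0 = θ) {m N : ℕ}
    (hN : 1 ≤ N) (lam : Fin m → C) (hl : ∀ j, Alg E μ N N (lam j)) (S : Finset C)
    (hS : S.card ≤ N) (h : ∀ u ∈ Submodule.span E (S : Set C), AlgT E θ lam N u) :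
    ∃ (L : Fl F θ) (Δ : MvPolynomial κ E), (∀ s ∈ S, s ∈ L.B 1) ∧
      FrOk E L μ Δ ((m + 2) * N ^ (2 * m + 4)) := by
  subst hθ
  obtain ⟨Δ, d1, d2, d3⟩ := TFrame_delta hμ i0 lam hl S hS fun u hu => h u (Submodule.subset_span hu)
  set K := IntermediateField.adjoin (KF E μ) (S : Set C) with hK
  have hk := deg_adjoin (KF E μ) S _ fun u hu => algT_deg hμ i0 lam hl (h u hu)
  have hpoly : ∀ a : MvPolynomial κ E, MvPolynomial.aeval μ a ∈ K.toSubfield := fun a => by
    have : MvPolynomial.aeval μ a ∈ KF E μ := IntermediateField.algebra_adjoin_le_adjoin E _ (by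
      rw [Algebra.adjoin_range_eq_range_aeval]; exact ⟨a, rfl⟩)
    exact K.algebraMap_mem ⟨_, this⟩
  have hF : ∀ a : F, algebraMap F C a ∈ K.toSubfield := fun a => by
    simpa [← IsScalarTower.algebraMap_apply] using hpoly (MvPolynomial.C (algebraMap F E a))
  have hθ : μ i0 ∈ K.toSubfield := by simpa using hpoly (MvPolynomial.X i0)
  set H := (m + 2) * N ^ 2 with hH
  have hN2 : 1 ≤ N ^ 2 := Nat.one_le_pow _ _ hN
  have hΔ : Δ.totalDegree + 1 ≤ H := by nlinarith
  set D : C := MvPolynomial.aeval μ Δ with hD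
  let B : ℕ → Submodule F C := fun δ =>
    { carrier := {a | a ∈ K.toSubfield ∧ ∀ V t, TFramePl E μ V t → (D * t ^ H) ^ δ * a ∈ V}
      add_mem' := fun {a b} ha hb => ⟨add_mem ha.1 hb.1, fun V t hV => by
        rw [mul_add]; exact add_mem (ha.2 V t hV) (hb.2 V t hV)⟩
      zero_mem' := ⟨zero_mem _, fun V t _ => by rw [mul_zero]; exact zero_mem _⟩
      smul_mem' := fun c a ha => ⟨by rw [Algebra.smul_def]; exact mul_mem (hF c) ha.1,
        fun V t hV => by
          rw [Algebra.smul_def, mul_left_comm, IsScalarTower.algebraMap_apply F E C]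
          exact mul_mem (TFrame_const hV _) (ha.2 V t hV)⟩ }
  let L : Fl F (μ i0) :=
    { k := K.toSubfield
      B := B
      sub := fun _ _ ha => ha.1
      one := ⟨one_mem _, fun V t _ => by rw [pow_zero, mul_one]; exact one_mem _⟩
      theta := ⟨hθ, fun V t hV => by
        have := hV (Δ * MvPolynomial.X i0) H ((MvPolynomial.totalDegree_mul _ _).trans
          (by rwa [MvPolynomial.totalDegree_X]))
        rw [map_mul, MvPolynomial.aeval_X] at this
        convert this using 1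
        ring⟩
      mul := fun δ δ' a b ha hb => ⟨mul_mem ha.1 hb.1, fun V t hV => by
        convert mul_mem (ha.2 V t hV) (hb.2 V t hV) using 1
        ring⟩
      mono := fun δ δ' a hδ ha => ⟨ha.1, fun V t hV => by
        obtain ⟨d, rfl⟩ := Nat.exists_eq_add_of_le hδ
        convert mul_mem (pow_mem (hV Δ H (Nat.le_of_succ_le hΔ)) d) (ha.2 V t hV) using 1
        ring⟩
      gauss := fun r δ P Q hPQ e j e' j' h1 h2 => ⟨mul_mem h1 h2, fun V t hV =>
        gauss_val V _ P Q (fun e j => (hPQ e j).2 V t hV) e j e' j'⟩ }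
  have hγ : (m + 2) * N ^ (2 * m + 4) = (N ^ (m + 1)) ^ 2 * H := by rw [hH]; ring
  have hG : 1 ≤ (N ^ (m + 1)) ^ 2 := Nat.one_le_pow _ _ (Nat.one_le_pow _ _ hN)
  have hG1 : (N ^ (m + 1)) ^ 2 ≤ (m + 2) * N ^ (2 * m + 4) := by
    rw [hγ]; exact Nat.le_mul_of_pos_right _ (by omega)
  have hG2 : Δ.totalDegree ≤ (m + 2) * N ^ (2 * m + 4) := by
    rw [hγ]; exact (Nat.le_of_succ_le hΔ).trans (Nat.le_mul_of_pos_left _ hG)
  have mon : ∀ δ a, a ∈ L.B δ → Mon E μ ((m + 2) * N ^ (2 * m + 4))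
      ((m + 2) * N ^ (2 * m + 4) * δ) (MvPolynomial.aeval μ Δ ^ δ * a) := by
    intro δ a ha
    have h1 := hk _ (mul_mem (pow_mem (hpoly Δ) δ) ha.1)
    have h2 : ∀ V t, TFramePl E μ V t → MvPolynomial.aeval μ Δ ^ δ * a * t ^ (H * δ) ∈ V :=
      fun V t hV => by
        convert ha.2 V t hV using 1
        ring
    exact (mon_of hμ i0 h1.1 h1.2 (TFrame_va h2) (TFrame_vi i0 h2)).mono hG1
      (by rw [hγ]; exact (mul_assoc _ _ _).ge)
  refine ⟨L, Δ, fun s hs => ⟨IntermediateField.subset_adjoin _ _ hs, fun V t hV => ?_⟩,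
    d1, hG2, mon, fun r δ l y hl' hy hr => ?_⟩
  · rw [pow_one]; exact d3 s hs V t hV
  · have hle : (m + 2) * N ^ (2 * m + 4) ≤ (m + 2) * N ^ (2 * m + 4) * (δ + 1) :=
      Nat.le_mul_of_pos_right _ (Nat.succ_pos _)
    refine masser hμ i0 K.toSubfield l
      (fun a ha => ⟨(hk a ha).1, (hk a ha).2.trans (hG1.trans (hle.trans hl'))⟩) hF hθ y
      (fun j => (hy j).1) (Δ ^ δ) (pow_ne_zero _ d1) (n := (m + 2) * N ^ (2 * m + 4))
      (hG.trans (hG1.trans hle)) hl' ?_ (fun j => ?_) hr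
    · refine (MvPolynomial.totalDegree_pow Δ δ).trans ?_
      nlinarith
    · rw [map_pow]
      exact (mon δ _ (hy j)).mono le_rfl (Nat.mul_le_mul_left _ (Nat.le_succ _))

end Pool.Agent.MP_ee2255_nt.T
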