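import Pool.Agent.MP_ee2255_nt.TDefs

/-! Ranks of families. -/

namespace Pool.Agent.MP_ee2255_nt.T

open Polynomial Filter Topology Pool.Agent.MP_655169_nt

variable {E : Type*} [Field E] {C : Type*} [Field C] [Algebra E C] {κ : Type*}
  {κ' : Type*} {ω : κ → C} {d : ℕ}

theorem rk_iff_set : Rk E ω d ↔
    ∃ I, I ⊆ Set.range ω ∧ AlgebraicIndepOn E id I ∧ I.encard = (d : ℕ∞) := by
  constructor
  · rintro ⟨e, he⟩
    refine ⟨Set.range (ω ∘ e), ?_, he.to_subtype_range, ?_⟩
    · rintro _ ⟨i, rfl⟩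
      exact ⟨e i, rfl⟩
    · rw [← Set.image_univ, he.injective.encard_image, Set.encard_univ]
      simp
  · rintro ⟨I, hI, hind, hcard⟩
    have hfin : I.Finite := Set.finite_of_encard_eq_coe hcard
    have : Fintype I := hfin.fintype
    have hc : Fintype.card I = d := by
      have h1 : (I.encard) = (Fintype.card I : ℕ∞) := (Set.coe_fintypeCard I).symm
      rw [hcard] at h1
      exact_mod_cast h1.symm
    let g : Fin d ≃ I := (Fintype.equivFinOfCardEq hc).symm
    choose e he using fun i : Fin d => hI (g i).2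
    refine ⟨e, ?_⟩
    have h2 : ω ∘ e = (fun x : I => id (x : C)) ∘ g := funext fun i => he i
    rw [h2]
    exact AlgebraicIndependent.comp hind g g.injective

theorem rk_iff : Rk E ω d ↔
    (d : ℕ∞) ≤ (AlgebraicIndependent.matroid E C).eRk (Set.range ω) := by
  rw [rk_iff_set, Matroid.le_eRk_iff]
  rfl

theorem Rk.mono {d' : ℕ} (h : Rk E ω d) (hd : d' ≤ d) : Rk E ω d' := by
  rw [rk_iff] at h ⊢
  exact le_trans (by exact_mod_cast hd) h

theorem Rk.comp {ω' : κ' → C} (h : Rk E ω d) (hr : ∀ i, ∃ j, ω i = ω' j) : Rk E ω' d := by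
  rw [rk_iff] at h ⊢
  refine h.trans (Matroid.eRk_mono _ ?_)
  rintro _ ⟨i, rfl⟩
  obtain ⟨j, hj⟩ := hr i
  exact ⟨j, hj.symm⟩

theorem Rk.map_iff {C' : Type*} [Field C'] [Algebra E C'] (φ : C →ₐ[E] C') :
    Rk E (φ ∘ ω) d ↔ Rk E ω d :=
  exists_congr fun e => φ.algebraicIndependent_iff (x := ω ∘ e) φ.toRingHom.injective

theorem Rk.exch {ω' : κ' → C} (h : Rk E ω d)
    (ha : ∀ i, IsAlgebraic (IntermediateField.adjoin E (Set.range ω')) (ω i)) : Rk E ω' d := by
  rw [rk_iff] at h ⊢
  rw [← Matroid.eRk_closure_eq]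
  refine h.trans (Matroid.eRk_mono _ ?_)
  rintro _ ⟨i, rfl⟩
  rw [AlgebraicIndependent.matroid_closure_eq, SetLike.mem_coe, Subalgebra.mem_algebraicClosure]
  exact IntermediateField.isAlgebraic_adjoin_iff.1 (ha i)

theorem Rk.drop (w : C) (h : Rk E (fun o : Option κ => o.elim w ω) (d + 1)) : Rk E ω d := by
  rw [rk_iff] at h ⊢
  rw [Option.range_eq] at h
  have h2 := h.trans (Matroid.eRk_insert_le_add_one _ _ _)
  rw [Nat.cast_add_one] at h2
  exact (ENat.add_le_add_iff_right ENat.one_ne_top).1 h2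

theorem exists_max [Finite κ] (ω : κ → C) : ∃ d, Rk E ω d ∧ ¬ Rk E ω (d + 1) := by
  have h : (AlgebraicIndependent.matroid E C).eRk (Set.range ω) ≠ ⊤ :=
    ((Matroid.eRk_le_encard _ _).trans_lt (Set.finite_range ω).encard_lt_top).ne
  obtain ⟨n, hn⟩ := ENat.ne_top_iff_exists.1 h
  refine ⟨n, rk_iff.2 hn.le, fun h' => ?_⟩
  rw [rk_iff, ← hn] at h'
  have : n + 1 ≤ n := by exact_mod_cast h'
  omega

theorem grow_of_max [Finite κ] (h : Rk E ω d) (h' : ¬ Rk E ω (d + 1)) : ∃ c, Grow E ω c d := by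
  have : Fintype κ := Fintype.ofFinite κ
  obtain ⟨e, he⟩ := h
  have h1 : ∀ i, ∃ D, Alg E (ω ∘ e) D D (ω i) := by
    intro i
    refine alg_of_not_indep he _ fun hi => h' ?_
    refine ⟨fun j => (finSuccEquiv d j).elim i e, ?_⟩
    have h2 : (ω ∘ fun j => (finSuccEquiv d j).elim i e) =
        (fun o : Option (Fin d) => o.elim (ω i) (ω ∘ e)) ∘ finSuccEquiv d := by
      funext j
      simp only [Function.comp_apply]
      cases finSuccEquiv d j <;> rfl
    rw [h2]
    exact hi.comp _ (finSuccEquiv d).injective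
  choose D hD using h1
  have h3 : Grow E (ω ∘ e) 1 d := by
    have := grow_base (F := E) (ω ∘ e)
    rwa [Fintype.card_fin] at this
  have h4 := grow_tower (ω ∘ e) ω 1 d (Finset.univ.sup D) h3 fun i =>
    (hD i).mono (Finset.le_sup (Finset.mem_univ i)) (Finset.le_sup (Finset.mem_univ i))
  have h5 : ∀ k, ∃ j, ω k = Sum.elim (ω ∘ e) ω j := fun k => ⟨Sum.inr k, rfl⟩
  have h6 := Grow_of_range h5 h4
  exact ⟨_, h6⟩

theorem Rk.ext {F : Type*} [Field F] [Algebra F E] [Algebra F C] [IsScalarTower F E C]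
    [Algebra.IsAlgebraic F E] (h : Rk F ω d) : Rk E ω d := by
  obtain ⟨e, he⟩ := h
  exact ⟨e, he.extendScalars E⟩

theorem vs_tower {F : Type*} [Field F] [Algebra F E] [Algebra F C] [IsScalarTower F E C] {D : ℕ}
    {a : C} (h : a ∈ Vs F ω D) : a ∈ Vs E ω D := by
  obtain ⟨G, hG, rfl⟩ := (mem_Vs ω D a).1 h
  refine (mem_Vs ω D _).2 ⟨MvPolynomial.map (algebraMap F E) G, ?_,
    MvPolynomial.aeval_map_algebraMap E ω G⟩
  refine le_trans ?_ hG
  exact Finset.sup_mono (MvPolynomial.support_map_subset _ _)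

theorem vs_expand (G : MvPolynomial κ E) :
    MvPolynomial.aeval ω G = ∑ e ∈ G.support, G.coeff e • ∏ i ∈ e.support, ω i ^ e i := by
  rw [MvPolynomial.aeval_def, MvPolynomial.eval₂_eq]
  exact Finset.sum_congr rfl fun e _ => (Algebra.smul_def _ _).symm

theorem vs_mono_mem {y : κ' → C} {D : ℕ} (hy : ∀ i, y i ∈ Vs E ω D) (e : κ' →₀ ℕ) :
    ∏ i ∈ e.support, y i ^ e i ∈ Vs E ω (D * e.sum fun _ k => k) := by
  have := Vs_aeval ω y D hy (MvPolynomial.monomial e (1 : E)) _
    (MvPolynomial.totalDegree_monomial_le e 1)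
  rw [MvPolynomial.aeval_monomial, map_one, one_mul] at this
  exact this

theorem grow_ext {F : Type*} [Field F] [Algebra F E] [Algebra F C] [IsScalarTower F E C]
    [Finite κ] {c : ℕ} (h : Grow F ω c d) : Grow E ω c d := by
  intro M
  let b := Module.finBasis F (Vs F ω M)
  have h1 : Vs E ω M ≤ Submodule.span E (Set.range fun i => (b i : C)) := by
    intro η hη
    obtain ⟨G, hG, rfl⟩ := (mem_Vs ω M η).1 hη
    rw [vs_expand]
    refine Submodule.sum_mem _ fun e he => Submodule.smul_mem _ _ ?_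
    have h2 : ∏ i ∈ e.support, ω i ^ e i ∈ Vs F ω M := by
      refine Vs_mono ω ?_ (vs_mono_mem (fun i => Vs_var ω i) e)
      rw [one_mul]
      exact (MvPolynomial.le_totalDegree he).trans hG
    refine Submodule.span_subset_span F E _ ?_
    have h3 := congrArg (fun x : Vs F ω M => (x : C)) (b.sum_repr ⟨_, h2⟩)
    simp only [Submodule.coe_sum, Submodule.coe_smul] at h3
    rw [← h3]
    exact Submodule.sum_mem _ fun i _ => Submodule.smul_mem _ _ (Submodule.subset_span ⟨i, rfl⟩)
  have : Module.Finite E (Submodule.span E (Set.range fun i => (b i : C))) :=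
    Module.Finite.span_of_finite E (Set.finite_range _)
  refine (Submodule.finrank_mono h1).trans ((finrank_range_le_card _).trans ?_)
  rw [Fintype.card_fin]
  exact h M

theorem grow_div [Finite κ] {c D : ℕ} (h : Grow E ω c d) (hD : 1 ≤ D) {p : C} (hp0 : p ≠ 0)
    (hp : p ∈ Vs E ω D) (y : κ' → C) (hy : ∀ i, p * y i ∈ Vs E ω D) :
    Grow E y (c * D ^ d) d := by
  intro M
  have h1 : ∀ η ∈ Vs E y M, LinearMap.mulLeft E (p ^ M) η ∈ Vs E ω (D * M) := by
    intro η hη
    obtain ⟨G, hG, rfl⟩ := (mem_Vs y M η).1 hη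
    rw [vs_expand, map_sum]
    refine Submodule.sum_mem _ fun e he => ?_
    rw [map_smul]
    refine Submodule.smul_mem _ _ ?_
    have h2 : (e.sum fun _ k => k) ≤ M := (MvPolynomial.le_totalDegree he).trans hG
    obtain ⟨t, ht⟩ := Nat.exists_eq_add_of_le h2
    have h3 := Vs_mul ω (vs_mono_mem hy e) (Vs_pow ω hp t)
    rw [← mul_add, ← ht] at h3
    convert h3 using 1
    rw [LinearMap.mulLeft_apply, ht, pow_add]
    simp only [mul_pow, Finset.prod_mul_distrib, Finset.prod_pow_eq_pow_sum]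
    rw [Finsupp.sum]
    ring
  have h4 : Function.Injective ((LinearMap.mulLeft E (p ^ M)).restrict h1) := by
    intro a b hab
    have h5 := congrArg Subtype.val hab
    exact Subtype.ext (mul_left_cancel₀ (pow_ne_zero M hp0) h5)
  refine (LinearMap.finrank_le_finrank_of_injective h4).trans ((h _).trans ?_)
  rw [mul_assoc, ← mul_pow]
  exact Nat.mul_le_mul_left _ (Nat.pow_le_pow_left (by nlinarith) _)

theorem le_of_grow [Finite κ] [Fintype κ'] {c : ℕ} (h : Grow E ω c d) {z : κ' → C}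
    (hz : AlgebraicIndependent E z) (hm : ∀ k, z k ∈ Vs E ω 1) : Fintype.card κ' ≤ d := by
  classical
  set n := Fintype.card κ' with hn
  have key : ∀ M : ℕ, (M + 1) ^ n ≤ c * (n * M + 1) ^ d := by
    intro M
    have hmem : ∀ e : κ' → Fin (M + 1), ∏ k, z k ^ (e k : ℕ) ∈ Vs E ω (n * M) := fun e =>
      HF_prod_mem ω z hm M (fun k => (e k : ℕ)) (fun k => Nat.lt_succ_iff.mp (e k).2) Finset.univ
    let v : (κ' → Fin (M + 1)) → Vs E ω (n * M) := fun e => ⟨_, hmem e⟩
    let ex : (κ' → Fin (M + 1)) → (κ' →₀ ℕ) :=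
      fun e => Finsupp.equivFunOnFinite.symm fun k => (e k : ℕ)
    have hex : Function.Injective ex := by
      intro e e' hee
      funext k
      have := congrArg (fun f : κ' →₀ ℕ => f k) hee
      simpa [ex, Fin.ext_iff] using this
    have h1 := ((MvPolynomial.basisMonomials κ' E).linearIndependent.map'
      (MvPolynomial.aeval z).toLinearMap (LinearMap.ker_eq_bot.2 hz)).comp ex hex
    have h2 : LinearIndependent E v := by
      refine LinearIndependent.of_comp (Vs E ω (n * M)).subtype ?_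
      have h0 : (Vs E ω (n * M)).subtype ∘ v = ((MvPolynomial.aeval z).toLinearMap ∘
          MvPolynomial.basisMonomials κ' E) ∘ ex := by
        funext e
        simp [v, ex, MvPolynomial.aeval_monomial, Finsupp.prod_fintype]
      rw [h0]
      exact h1
    have h3 := h2.fintype_card_le_finrank
    rw [Fintype.card_fun, Fintype.card_fin, ← hn] at h3
    exact h3.trans (h _)
  by_contra hlt
  have hlt' : d + 1 ≤ n := by omega
  set M := c * (n + 1) ^ d with hM
  have h1 : (M + 1) ^ d * (M + 1) ≤ (M + 1) ^ d * M :=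
    calc (M + 1) ^ d * (M + 1) = (M + 1) ^ (d + 1) := (pow_succ _ _).symm
      _ ≤ (M + 1) ^ n := Nat.pow_le_pow_right (by omega) hlt'
      _ ≤ c * (n * M + 1) ^ d := key M
      _ ≤ c * ((n + 1) * (M + 1)) ^ d :=
          Nat.mul_le_mul_left _ (Nat.pow_le_pow_left (by nlinarith) _)
      _ = (M + 1) ^ d * (c * (n + 1) ^ d) := by rw [mul_pow]; ring
  have h2 := Nat.le_of_mul_le_mul_left h1 (by positivity)
  omega

theorem span_le_Vs (S : Finset C) {u : C} (hu : u ∈ Submodule.span E (S : Set C)) :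
    u ∈ Vs E (Subtype.val : S → C) 1 := by
  refine (Submodule.span_le.2 fun s hs => ?_ : _ ≤ Vs E (Subtype.val : S → C) 1) hu
  exact Vs_var (F := E) (Subtype.val : S → C) ⟨s, hs⟩

theorem nn_dim {θ : C} (S : Finset C) (hθ : θ ∈ S) {c m : ℕ}
    (hg : Grow E (Subtype.val : S → C) c d) (hr : Rk E (Subtype.val : S → C) d) {lam : Fin m → C}
    (h1 : ∀ j, lam j ∈ Submodule.span E (S : Set C)) (h2 : AlgebraicIndependent E (zz θ lam))
    (h3 : HInt E θ lam (S : Set C)) : m + 1 = d := by
  have h4 : Fintype.card (Option (Fin m)) ≤ d := by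
    refine le_of_grow hg h2 ?_
    rintro (_ | j)
    · exact Vs_var (F := E) (Subtype.val : S → C) ⟨θ, hθ⟩
    · exact span_le_Vs S (h1 j)
  obtain ⟨g, hg0, hg1⟩ := h3
  have h5 : Transcendental E θ := h2.transcendental none
  have h6 : aeval θ g ≠ 0 := fun h0 => h5 ⟨g, hg0, h0⟩
  have h7 : aeval θ g ∈ Algebra.adjoin E (Set.range (zz θ lam)) :=
    Algebra.adjoin_mono (Set.singleton_subset_iff.2 (Set.mem_range_self (f := zz θ lam) none))
      (Polynomial.aeval_mem_adjoin_singleton E θ)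
  have h8 : Rk E (zz θ lam) d := by
    refine hr.exch fun s => IntermediateField.isAlgebraic_adjoin_iff.2 ?_
    refine IsAlgebraic.of_mul (mem_nonZeroDivisors_of_ne_zero h6) ?_ (hg1 s s.2).isAlgebraic
    exact isAlgebraic_algebraMap (⟨_, h7⟩ : Algebra.adjoin E (Set.range (zz θ lam)))
  obtain ⟨e, he⟩ := h8
  have h9 := Fintype.card_le_of_injective e he.injective.of_comp
  rw [Fintype.card_fin] at h9
  rw [Fintype.card_option, Fintype.card_fin] at h4 h9
  omega

open scoped IntermediateField in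
theorem rk_over (θ : C) (hθ : Transcendental E θ)
    (h : Rk E (fun o : Option κ => o.elim θ ω) (d + 1)) : Rk E⟮θ⟯ ω d := by
  rw [rk_iff, Option.range_eq] at h
  change _ ≤ (AlgebraicIndependent.matroid E C).eRk (insert θ (Set.range ω)) at h
  have h1 : (AlgebraicIndependent.matroid E C).Indep {θ} := by
    rw [AlgebraicIndependent.matroid_indep_iff]
    exact (algebraicIndependent_singleton_iff (⟨θ, rfl⟩ : ({θ} : Set C))).2 hθ
  obtain ⟨B, hB, hθB⟩ := h1.subset_isBasis_of_subset
    (Set.singleton_subset_iff.2 (Set.mem_insert θ (Set.range ω))) (Set.subset_univ _)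
  have hθB' : θ ∈ B := Set.singleton_subset_iff.1 hθB
  rw [← hB.encard_eq_eRk, ← Set.encard_sdiff_singleton_add_one hθB', Nat.cast_add_one] at h
  have h2 : (d : ℕ∞) ≤ (B \ {θ}).encard := (ENat.add_le_add_iff_right ENat.one_ne_top).1 h
  obtain ⟨J, hJ, hJc⟩ := Set.exists_subset_encard_eq h2
  refine rk_iff_set.2 ⟨J, fun x hx => ?_, ?_, hJc⟩
  · rcases hB.subset (hJ hx).1 with h3 | h3
    · exact absurd h3 (hJ hx).2
    · exact h3
  · have h3 : AlgebraicIndependent E (fun x : B => (x : C)) := hB.indep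
    let f : J ⊕ Unit → B := Sum.elim (fun x => ⟨x.1, (hJ x.2).1⟩) fun _ => ⟨θ, hθB'⟩
    have hf : Function.Injective f := by
      rintro (x | x) (y | y) hxy
      · have h6 : (f (Sum.inl x)).1 = (f (Sum.inl y)).1 := congrArg Subtype.val hxy
        exact congrArg Sum.inl (Subtype.ext h6)
      · exact absurd (congrArg Subtype.val hxy) (hJ x.2).2
      · exact absurd (congrArg Subtype.val hxy).symm (hJ y.2).2
      · rfl
    have h4 : AlgebraicIndependent E (Sum.elim (fun x : J => (x : C)) fun _ : Unit => θ) := by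
      have h0 : (Sum.elim (fun x : J => (x : C)) fun _ : Unit => θ) =
          (fun x : B => (x : C)) ∘ f := by
        funext x
        cases x <;> rfl
      rw [h0]
      exact h3.comp f hf
    have h5 := (AlgebraicIndependent.sumElim_iff.1 h4).2
    rw [Set.range_const] at h5
    exact IntermediateField.algebraicIndependent_adjoin_iff.2 h5

open scoped IntermediateField in
theorem rk_trdeg (θ : C) (hθ : Transcendental E θ)
    (h : Rk E (fun o : Option κ => o.elim θ ω) (d + 1)) :
    (d : Cardinal) ≤ Algebra.trdeg E⟮θ⟯ (IntermediateField.adjoin E⟮θ⟯ (Set.range ω)) := by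
  obtain ⟨e, he⟩ := rk_over θ hθ h
  let x : Fin d → IntermediateField.adjoin E⟮θ⟯ (Set.range ω) :=
    fun i => ⟨ω (e i), IntermediateField.subset_adjoin _ _ ⟨e i, rfl⟩⟩
  have hx : AlgebraicIndependent E⟮θ⟯ x :=
    AlgebraicIndependent.of_comp (IntermediateField.adjoin E⟮θ⟯ (Set.range ω)).val he
  have := hx.lift_cardinalMk_le_trdeg
  simpa using this

end Pool.Agent.MP_ee2255_nt.T
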