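import Pool.Agent.MP_ee2255_nt.TAL1
import Pool.Agent.MP_ee2255_nt.TALc
import Pool.Agent.MP_ee2255_nt.TFrame
import Pool.Agent.MP_ee2255_nt.TRk

/-! Algebraic approximation at a given level. -/

namespace Pool.Agent.MP_ee2255_nt.T

open Polynomial Filter Topology Pool.Agent.MP_655169_nt

variable {E C : Type*} [Field E] [NormedField C] [IsUltrametricDist C] [IsAlgClosed C]
  [Algebra E C] (hE : ∀ e : E, ‖algebraMap E C e‖ ≤ 1) {θ : C} (hθ : 1 < ‖θ‖)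
include hE hθ

theorem alu {F : Type*} [Field F] [Fintype F] [Infinite E] [Algebra F C] [Algebra F E]
    [IsScalarTower F E C] {M : ℕ → ℝ} (hM : ∀ ℓ, 1 ≤ M ℓ) (S : ℕ → Finset C) {c : ℕ → ℕ}
    (hc : Pol c) (d : ℕ) {R : ℕ → ℝ} (hR : Big M R)
    (h : ∀ᶠ ℓ in UU, θ ∈ S ℓ ∧ (S ℓ).card ≤ c ℓ ∧ Grow E (Subtype.val : S ℓ → C) (c ℓ) d ∧
      Rk E (Subtype.val : S ℓ → C) d ∧ ∀ s ∈ S ℓ, ‖s‖ ≤ R ℓ) :
    ∃ (Φ : Fr F θ M) (φ : ℕ → C →ₗ[E] C) (η : ℕ → ℝ), Sm M η ∧ ∀ᶠ ℓ in UU,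
      (1 ∈ S ℓ → φ ℓ 1 = 1) ∧ ∀ s ∈ S ℓ, φ ℓ s ∈ (Φ.fl ℓ).B 1 ∧ ‖s - φ ℓ s‖ ≤ η ℓ := by
  classical
  have h1 : ∀ᶠ ℓ in UU, ∃ (m : ℕ) (lam : Fin m → C), m + 1 = d ∧
      (∀ j, lam j ∈ Submodule.span E (S ℓ : Set C)) ∧
      AlgebraicIndependent E (zz θ lam) ∧ HInt E θ lam (S ℓ : Set C) := by
    filter_upwards [h] with ℓ hℓ
    obtain ⟨m, lam, a1, a2, a3⟩ := nn (E := E) θ (normE_trans hE hθ) (S ℓ)
    exact ⟨m, lam, nn_dim (S ℓ) hℓ.1 hℓ.2.2.1 hℓ.2.2.2.1 a1 a2 a3, a1, a2, a3⟩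
  obtain ⟨m, rfl⟩ : ∃ m, m + 1 = d :=
    ev_false (h1.mono fun ℓ ⟨m, _, hm, _⟩ => ⟨m, hm⟩)
  obtain ⟨lam, h2⟩ := ev_choose (α := fun _ => Fin m → C)
    (p := fun ℓ lam => (∀ j, lam j ∈ Submodule.span E (S ℓ : Set C)) ∧
      AlgebraicIndependent E (zz θ lam) ∧ HInt E θ lam (S ℓ : Set C))
    (h1.mono fun ℓ ⟨m', lam, hm, hl⟩ => by
      obtain rfl : m' = m := by omega
      exact ⟨lam, hl⟩)
  obtain ⟨s, e, i0, he, hi0, hI, lam', N1, η, hN1, hη, h3⟩ := exists_ind hE hθ hM lam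
  let N0 : ℕ → ℕ := fun ℓ => (m + 1) * (c ℓ * (m + 2) ^ (m + 1))
  have hN0 : Pol N0 := (Pol.const _).mul (hc.mul (Pol.const _))
  let N : ℕ → ℕ := fun ℓ => N1 ℓ + (2 * N0 ℓ + (c ℓ + 1))
  have hN : Pol N := hN1.add (((Pol.const 2).mul hN0).add (hc.add (Pol.const 1)))
  have hR1 : ∀ᶠ ℓ in UU, ‖θ‖ ≤ R ℓ := h.mono fun ℓ hℓ => hℓ.2.2.2.2 θ hℓ.1
  have hl : ∀ᶠ ℓ in UU, ∀ j, ‖lam ℓ j‖ ≤ R ℓ := by
    filter_upwards [h, h2, hR1] with ℓ a1 a2 a3 j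
    exact normE_span hE (S ℓ : Set C) ((norm_nonneg _).trans a3) a1.2.2.2.2 (a2.1 j)
  have h4 : ∀ᶠ ℓ in UU, ∃ x : (C →ₗ[E] C) × ℕ × Fl F θ × MvPolynomial (Fin s) E,
      (1 ∈ S ℓ → x.1 1 = 1) ∧ 1 ≤ x.2.1 ∧ x.2.1 ≤ 2 * N0 ℓ + 1 ∧
      (∀ t ∈ S ℓ, ‖t - x.1 t‖ ^ x.2.1 ≤ R ℓ ^ (4 * N0 ℓ) * η ℓ) ∧
      (∀ t ∈ S ℓ, x.1 t ∈ x.2.2.1.B 1) ∧
      FrOk E x.2.2.1 (zz θ (lam ℓ) ∘ e) x.2.2.2 ((m + 2) * N ℓ ^ (2 * m + 4)) := by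
    filter_upwards [h, h2, h3, hR1, hl, hη.lt_one hM] with ℓ a1 a2 a3 a4 a5 a6
    have b1 : ∀ u ∈ Submodule.span E (S ℓ : Set C), Alg E (zz θ (lam ℓ)) (N0 ℓ) (N0 ℓ) u := by
      intro u hu
      have hcard : Fintype.card (Option (Fin m)) = m + 1 := by simp
      have := alg_of_grow (κ := Option (Fin m)) (Subtype.val : S ℓ → C) (c ℓ)
        (hcard ▸ a1.2.2.1) (zz θ (lam ℓ)) a2.2.1 (by
          rintro (_ | j)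
          · exact span_le_Vs (S ℓ) (Submodule.subset_span a1.1)
          · exact span_le_Vs (S ℓ) (a2.1 j)) 1 u (span_le_Vs (S ℓ) hu)
      rw [hcard, mul_one] at this
      exact this.mono (Nat.le_mul_of_pos_left _ (Nat.succ_pos _)) le_rfl
    have b2 : ∀ j, ‖lam' ℓ j‖ ≤ R ℓ := fun j => by
      have e1 : lam' ℓ j = lam ℓ j + -(lam ℓ j - lam' ℓ j) := by ring
      rw [e1]
      refine (IsUltrametricDist.norm_add_le_max _ _).trans (max_le (a5 j) ?_)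
      rw [norm_neg]
      linarith [(a3.2 j).2]
    obtain ⟨φ, c1, c2, n, c3, c4, c5⟩ := alc hE hθ (S ℓ) a2.2.1 a2.2.2 b1 (lam' ℓ) a4 a3.1
      a1.2.2.2.2 a5 b2 fun j => (a3.2 j).2
    obtain ⟨L, Δ, d1, d2⟩ := frame_exists (F := F) (N := N ℓ) (a2.2.1.comp e he) i0
      (θ := θ) (by simp [hi0, zz]) (by simp only [N]; omega) (lam' ℓ)
      (fun j => (a3.2 j).1.mono (Nat.le_add_right _ _) (Nat.le_add_right _ _))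
      ((S ℓ).image φ) (Finset.card_image_le.trans (a1.2.1.trans (by simp only [N]; omega)))
      (fun u hu => by
        rw [Finset.coe_image, ← Submodule.map_span] at hu
        obtain ⟨w, hw, rfl⟩ := hu
        exact (c2 w hw).mono (by simp only [N]; omega))
    exact ⟨(φ, n, L, Δ), c1, c3, c4, c5, fun t ht => d1 _ (Finset.mem_image_of_mem _ ht), d2⟩
  obtain ⟨x, hx⟩ := ev_choose h4
  obtain ⟨Φ, hΦ⟩ := exists_fr hE hM (fun ℓ => zz θ (lam ℓ) ∘ e) hI hR (by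
      filter_upwards [hR1, hl] with ℓ a1 a2
      refine ⟨hθ.le.trans a1, fun k => ?_⟩
      change ‖zz θ (lam ℓ) (e k)‖ ≤ R ℓ
      rcases e k with _ | j
      · exact a1
      · exact a2 j) (fun ℓ => (x ℓ).2.2.1) (fun ℓ => (x ℓ).2.2.2)
    (fun ℓ => (m + 2) * N ℓ ^ (2 * m + 4)) ((Pol.const _).mul (hN.pow _))
    (hx.mono fun ℓ a => a.2.2.2.2.2)
  have hR0 : ∀ᶠ ℓ in UU, 0 ≤ R ℓ := hR1.mono fun ℓ a => (norm_nonneg _).trans a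
  refine ⟨Φ, fun ℓ => (x ℓ).1,
    fun ℓ => (((S ℓ).sup fun t => ‖t - (x ℓ).1 t‖₊ : NNReal) : ℝ), ?_, ?_⟩
  · refine Sm.root hM (hη.mul_big hM (hR.pow hM hR0 ((Pol.const 4).mul hN0))
      (hR0.mono fun ℓ a => pow_nonneg a _)) (Low.const hM one_pos) (d := fun ℓ => (x ℓ).2.1)
      (Pol.mono (hx.mono fun ℓ a => a.2.2.1) (((Pol.const 2).mul hN0).add (Pol.const 1))) ?_
    filter_upwards [h, hx] with ℓ a1 a2
    refine ⟨NNReal.coe_nonneg _, a2.2.1, ?_⟩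
    obtain ⟨t, ht, e1⟩ := Finset.exists_mem_eq_sup (S ℓ) ⟨θ, a1.1⟩ fun t => ‖t - (x ℓ).1 t‖₊
    rw [e1, mul_one, mul_comm]
    exact a2.2.2.2.1 t ht
  · filter_upwards [hx] with ℓ a
    refine ⟨a.1, fun t ht => ⟨by rw [hΦ]; exact a.2.2.2.2.1 t ht, ?_⟩⟩
    exact NNReal.coe_le_coe.2 (Finset.le_sup (f := fun t => ‖t - (x ℓ).1 t‖₊) ht)

end Pool.Agent.MP_ee2255_nt.T
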