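import Pool.Agent.MP_ee2255_nt.TCarl
import Pool.Agent.MP_655169_nt.Siegel1

/-! Sizes of generating functions. -/

set_option linter.unusedSectionVars false

namespace Pool.Agent.MP_ee2255_nt.T

open Polynomial Filter Topology Pool.Agent.MP_655169_nt

variable {F C Ω : Type*} [Field F] [Fintype F] [NormedField C] [IsUltrametricDist C]
  [IsAlgClosed C] [Algebra F C] [NormedField Ω] [IsUltrametricDist Ω] [IsAlgClosed Ω]
  [Algebra C Ω] [Algebra F Ω] [IsScalarTower F C Ω] (Z : Sit F C Ω)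

theorem tagf_norm (u : C) (i : ℕ) : ‖Z.ee u i‖ = (‖u‖ / ‖Z.θ‖ ^ i) ^ qq F ^ i := by
  rw [Sit.ee, norm_div, norm_carlitzD _ two_le_qq _ Z.hθ, norm_pow, pow_mul, div_pow]

theorem tagf_le {u : C} {n : ℕ} (hn : ‖u‖ ≤ ‖Z.θ‖ ^ n) (i : ℕ) :
    ‖Z.ee u i‖ ≤ ‖Z.θ‖ ^ (n * qq F ^ n) := by
  have h0 : 0 < ‖Z.θ‖ := one_pos.trans Z.hθ
  rw [tagf_norm]
  rcases le_total n i with h | h
  · exact (pow_le_one₀ (by positivity) ((div_le_one (by positivity)).2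
      (hn.trans (pow_le_pow_right₀ Z.hθ.le h)))).trans (one_le_pow₀ Z.hθ.le)
  · refine (pow_le_pow_left₀ (by positivity)
      ((div_le_self (norm_nonneg _) (one_le_pow₀ Z.hθ.le)).trans hn) _).trans ?_
    rw [← pow_mul]
    exact pow_le_pow_right₀ Z.hθ.le
      (Nat.mul_le_mul_left _ (Nat.pow_le_pow_right Fintype.card_pos h))

theorem agf_size {u al : C} {f : Ω} (h : Z.Agf u al f) {n : ℕ} (hn : ‖u‖ ≤ ‖Z.θ‖ ^ n) :
    ‖al‖ ≤ ‖Z.θ‖ ^ (n * qq F ^ n) ∧ ‖f‖ ≤ ‖Z.θ‖ ^ (n * qq F ^ n) ∧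
      (∀ m, ‖Z.fm u m‖ ≤ ‖Z.θ‖ ^ (n * qq F ^ n)) ∧
      (∀ k m, ‖Z.phm u k m‖ ≤ (‖Z.θ‖ ^ (n * qq F ^ n)) ^ qq F ^ (k + 1)) ∧
      ∀ k, ‖ph (qq F) Z.θ u al k‖ ≤ (‖Z.θ‖ ^ (n * qq F ^ n)) ^ qq F ^ (k + 1) := by
  have h0 : (0 : ℝ) ≤ ‖Z.θ‖ ^ (n * qq F ^ n) := by positivity
  have h1 : ∀ j, ‖Z.ee u j‖ / ‖Z.θ‖ ^ qq F ^ j ≤ ‖Z.θ‖ ^ (n * qq F ^ n) := fun j =>
    (div_le_self (norm_nonneg _) (Z.basic_one_le j)).trans (tagf_le Z hn j)
  refine ⟨?_, ?_, fun m => ?_, fun k m => ?_, fun k => ?_⟩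
  · simpa using basic_tail _ _ h.hs.tendsto_sum_nat 0 _ h0 fun j _ => tagf_le Z hn j
  · simpa using basic_tail _ _ h.lim 0 _ h0 fun j _ => (Z.basic_t1 _ j).trans_le (h1 j)
  · exact IsUltrametricDist.norm_sum_le_of_forall_le_of_nonneg h0
      fun j _ => (Z.basic_t1 _ j).trans_le (h1 j)
  · exact IsUltrametricDist.norm_sum_le_of_forall_le_of_nonneg (by positivity)
      fun j _ => (Z.basic_t2 _ k j).trans_le (pow_le_pow_left₀ (by positivity) (h1 j) _)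
  · simpa using basic_tail _ _ (Z.phm_lim h.hs k) 0
      ((‖Z.θ‖ ^ (n * qq F ^ n)) ^ qq F ^ (k + 1)) (by positivity)
      fun j _ => (Z.basic_t2 _ k j).trans_le (pow_le_pow_left₀ (by positivity) (h1 j) _)

theorem tagf_exp {a x t : ℝ} (ht : 1 < t) (h0 : 0 ≤ x) (h1 : a ≤ t⁻¹) (h2 : a ≤ x) :
    a ≤ Real.exp (-(min 1 (Real.log t) * max 1 (-Real.log x))) := by
  rcases le_total 1 (-Real.log x) with h | h
  · have hx : 0 < x := h0.lt_of_ne (by
      rintro rfl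
      norm_num at h)
    rw [max_eq_right h]
    refine h2.trans ((Real.exp_log hx).symm.trans_le (Real.exp_le_exp.2 ?_))
    nlinarith [min_le_left 1 (Real.log t)]
  · rw [max_eq_left h, mul_one]
    refine h1.trans ?_
    rw [← Real.exp_log (one_pos.trans ht), ← Real.exp_neg, Real.log_exp]
    exact Real.exp_le_exp.2 (neg_le_neg (min_le_right _ _))

theorem agf_tail {u al : C} {f : Ω} (h : Z.Agf u al f) {n m : ℕ} (hn : ‖u‖ ≤ ‖Z.θ‖ ^ n)
    (hm : n ≤ m) :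
    ‖f - Z.fm u m‖ ≤
        Real.exp (-(min 1 (Real.log ‖Z.θ‖) * max 1 (-Real.log ‖u‖) * (qq F : ℝ) ^ m)) ∧
      ∀ k, ‖ph (qq F) Z.θ u al k - Z.phm u k m‖ ≤
        Real.exp (-(min 1 (Real.log ‖Z.θ‖) * max 1 (-Real.log ‖u‖) * (qq F : ℝ) ^ m)) ^
          qq F ^ (k + 1) := by
  have h0 : 0 < ‖Z.θ‖ := one_pos.trans Z.hθ
  have h1 : ∀ j, m ≤ j → ‖Z.ee u j‖ / ‖Z.θ‖ ^ qq F ^ j ≤
      Real.exp (-(min 1 (Real.log ‖Z.θ‖) * max 1 (-Real.log ‖u‖) * (qq F : ℝ) ^ m)) := by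
    intro j hj
    have h2 : ‖u‖ / ‖Z.θ‖ ^ j / ‖Z.θ‖ ≤ _ := tagf_exp Z.hθ (norm_nonneg u) (by
      rw [← one_div]
      exact div_le_div_of_nonneg_right ((div_le_one (by positivity)).2
        (hn.trans (pow_le_pow_right₀ Z.hθ.le (hm.trans hj)))) h0.le)
      ((div_le_self (by positivity) Z.hθ.le).trans
        (div_le_self (norm_nonneg _) (one_le_pow₀ Z.hθ.le)))
    have h3 : 0 ≤ min 1 (Real.log ‖Z.θ‖) * max 1 (-Real.log ‖u‖) :=
      mul_nonneg (le_min zero_le_one (Real.log_nonneg Z.hθ.le))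
        (zero_le_one.trans (le_max_left _ _))
    rw [tagf_norm, ← div_pow, ← neg_mul, ← Nat.cast_pow, mul_comm, Real.exp_nat_mul]
    exact (pow_le_pow_left₀ (by positivity) h2 _).trans (pow_le_pow_of_le_one (Real.exp_pos _).le
      (Real.exp_le_one_iff.2 (neg_nonpos.2 h3)) (Nat.pow_le_pow_right Fintype.card_pos hj))
  exact ⟨basic_tail _ _ h.lim m _ (Real.exp_pos _).le
      fun j hj => (Z.basic_t1 _ j).trans_le (h1 j hj),
    fun k => basic_tail _ _ (Z.phm_lim h.hs k) m _ (by positivity)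
      fun j hj => (Z.basic_t2 _ k j).trans_le (pow_le_pow_left₀ (by positivity) (h1 j hj) _)⟩

theorem tagf_ph {κ : Type*} (y : κ → C) (q : ℕ) (hq : 2 ≤ q) {θ u al : C} {δ : ℕ} (hδ : 1 ≤ δ)
    (hθ : θ ∈ Vs F y 1) (hu : u ∈ Vs F y δ) (hal : al ∈ Vs F y δ) (n : ℕ) :
    ph q θ u al n ∈ Vs F y (δ * q ^ (n + 1)) := by
  induction n with
  | zero =>
    exact Vs_mono y (Nat.le_mul_of_pos_right _ (by positivity)) (Submodule.sub_mem _ hal hu)
  | succ n ih =>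
    have h1 : 1 ≤ q ^ (n + 1) := Nat.one_le_pow _ _ (by omega)
    have h2 : δ * q ^ (n + 1) + δ * q ^ (n + 1) ≤ δ * q ^ (n + 1 + 1) := by
      rw [pow_succ q (n + 1), ← mul_assoc, ← mul_two]
      exact Nat.mul_le_mul_left _ hq
    have h3 : q ^ (n + 1) ≤ δ * q ^ (n + 1) := Nat.le_mul_of_pos_left _ hδ
    refine Submodule.add_mem _ (Vs_mono y (by omega) (Vs_pow y hal _)) (Vs_mono y h2 ?_)
    exact Vs_mul y (Submodule.sub_mem _ (Vs_mono y (by omega) hθ)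
      (Vs_mono y (by omega) (Vs_pow y hθ _))) ih

/-- Exponent vectors in a box. -/
noncomputable def tagfE {r D : ℕ} (w : Fin r → Fin (D + 1)) : Fin r →₀ ℕ :=
  Finsupp.equivFunOnFinite.symm fun i => (w i : ℕ)

theorem tagf_inj {r D : ℕ} : Function.Injective (tagfE (r := r) (D := D)) := fun _ _ h =>
  funext fun i => Fin.ext (DFunLike.congr_fun h i)

theorem tagf_deg {r D : ℕ} (w : Fin r → Fin (D + 1)) : (tagfE w).degree ≤ r * D := by
  rw [Finsupp.degree_eq_sum]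
  simpa using Finset.sum_le_card_nsmul Finset.univ (tagfE w) D fun i _ => Nat.lt_succ_iff.1 (w i).2

theorem count {κ : Type*} [Finite κ] (ω : κ → C) {c d r δ D k : ℕ} (hg : Grow F ω c d)
    (hr : Rk F ω d) (hθ : Z.θ ∈ Vs F ω 1) (u al : Fin r → C) (hδ : 1 ≤ δ)
    (hu : ∀ j, u j ∈ Vs F ω δ ∧ al j ∈ Vs F ω δ)
    (h : c * ((d + r + 1) * D * qq F ^ (k + 1) * δ + 1) ^ d < (D + 1) ^ (d + r + 1)) :
    ∃ P : MvPolynomial (Fin r) C[X], P ≠ 0 ∧ P.totalDegree ≤ r * D ∧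
      (∀ e, (P.coeff e).natDegree ≤ D ∧ ∀ j, (P.coeff e).coeff j ∈ Vs F ω (d * D)) ∧
      Z.VV u al k P = 0 := by
  classical
  obtain ⟨e, he⟩ := hr
  let c₁ : (Fin d → Fin (D + 1)) → C := fun w =>
    MvPolynomial.aeval (ω ∘ e) (MvPolynomial.monomial (tagfE w) (1 : F))
  have hli : LinearIndependent F c₁ :=
    (((MvPolynomial.basisMonomials (Fin d) F).linearIndependent.comp _ tagf_inj).map'
      (MvPolynomial.aeval (ω ∘ e)).toLinearMap (LinearMap.ker_eq_bot.2 he) :)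
  have hc : ∀ w, c₁ w ∈ Vs F ω (d * D) := fun w => by
    simpa using Vs_aeval ω (ω ∘ e) 1 (fun i => Vs_var ω (e i)) _ (d * D)
      ((MvPolynomial.totalDegree_monomial_le (tagfE w) (1 : F)).trans (tagf_deg w))
  let g : Fin (D + 1) × ((Fin d → Fin (D + 1)) × (Fin r → Fin (D + 1))) →
      Vs F ω ((d + r + 1) * D * qq F ^ (k + 1) * δ) := fun x =>
    ⟨c₁ x.2.1 ^ qq F ^ (k + 1) * Z.θ ^ (x.1 : ℕ) *
      (tagfE x.2.2).prod fun i n => ph (qq F) Z.θ (u i) (al i) k ^ n, by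
      refine Vs_mono ω ?_ (Vs_mul ω (Vs_mul ω (Vs_pow ω (hc _) _) (Vs_pow ω hθ _))
        (siegel1_prod ω _ _ (fun i => tagf_ph ω _ two_le_qq hδ hθ (hu i).1 (hu i).2 k) _))
      have h1 := Nat.mul_le_mul_right (δ * qq F ^ (k + 1)) (tagf_deg x.2.2)
      have h2 := Nat.lt_succ_iff.1 x.1.2
      have h3 : d * D * qq F ^ (k + 1) ≤ d * D * qq F ^ (k + 1) * δ :=
        Nat.le_mul_of_pos_right _ hδ
      have h4 : D ≤ D * (qq F ^ (k + 1) * δ) :=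
        Nat.le_mul_of_pos_right _ (Nat.mul_pos (pow_pos Fintype.card_pos _) hδ)
      nlinarith⟩
  have hn : ¬ LinearIndependent F g := fun hl => by
    have h1 := hl.fintype_card_le_finrank.trans (hg _)
    simp only [Fintype.card_prod, Fintype.card_fun, Fintype.card_fin] at h1
    rw [← pow_add, ← pow_succ'] at h1
    omega
  obtain ⟨a, ha, i, hi⟩ := Fintype.not_linearIndependent_iff.1 hn
  refine ⟨aux a (fun w => c₁ w.1) fun w => tagfE w.2,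
    aux_ne a (fun h0 => hi (congrFun h0 i)) c₁ hli _ tagf_inj, ?_, fun e' => ⟨?_, fun j => ?_⟩, ?_⟩
  · exact MvPolynomial.totalDegree_finsetSum_le fun x _ =>
      (MvPolynomial.totalDegree_monomial_le _ _).trans (tagf_deg x.2.2)
  · rw [siegel1_coeff]
    refine natDegree_sum_le_of_forall_le _ _ fun x _ => ?_
    split_ifs
    · exact (natDegree_monomial_le _).trans (Nat.lt_succ_iff.1 x.1.2)
    · simp
  · rw [siegel1_coeff2]
    refine sum_mem fun x _ => ?_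
    split_ifs
    · rw [← Algebra.smul_def]
      exact Submodule.smul_mem _ _ (hc _)
    · exact zero_mem _
  · have h1 := congrArg Subtype.val ha
    rw [Submodule.coe_sum] at h1
    rw [Sit.VV, aux, MvPolynomial.eval₂_sum]
    refine (Finset.sum_congr rfl fun x _ => ?_).trans h1
    rw [MvPolynomial.eval₂_monomial, ← C_mul_X_pow_eq_monomial, map_mul, map_pow, Z.evt_C, Z.evt_X,
      mul_pow, ← Z.fr_pow, Z.fr_F, Submodule.coe_smul, Algebra.smul_def, mul_assoc, mul_assoc,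
      ← mul_assoc (_ ^ _)]

end Pool.Agent.MP_ee2255_nt.T
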