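import Pool.Agent.MP_ee2255_nt.TDefs

/-! Calculus of sequences along the ultrafilter. -/

namespace Pool.Agent.MP_ee2255_nt.T

open Polynomial Filter Topology Pool.Agent.MP_655169_nt

instance : (UU).NeBot := inferInstanceAs (Filter.hyperfilter ℕ : Filter ℕ).NeBot

theorem ev_or {p q : ℕ → Prop} (h : ∀ᶠ ℓ in UU, p ℓ ∨ q ℓ) :
    (∀ᶠ ℓ in UU, p ℓ) ∨ ∀ᶠ ℓ in UU, q ℓ := Ultrafilter.eventually_or.1 h

theorem ev_not {p : ℕ → Prop} : (¬ ∀ᶠ ℓ in UU, p ℓ) ↔ ∀ᶠ ℓ in UU, ¬ p ℓ :=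
  Ultrafilter.eventually_not.symm

theorem ev_fin {ι : Type*} [Finite ι] {p : ι → ℕ → Prop} (h : ∀ᶠ ℓ in UU, ∃ i, p i ℓ) :
    ∃ i, ∀ᶠ ℓ in UU, p i ℓ := by
  by_contra hc
  push Not at hc
  have h2 : ∀ᶠ ℓ in UU, ∀ i, ¬ p i ℓ :=
    eventually_all.2 hc
  obtain ⟨ℓ, ⟨i, hi⟩, h3⟩ := (h.and h2).exists
  exact h3 i hi

theorem ev_top {p : ℕ → Prop} (h : ∀ᶠ ℓ in atTop, p ℓ) : ∀ᶠ ℓ in UU, p ℓ :=
  Nat.hyperfilter_le_atTop h

theorem ev_choose {α : ℕ → Type*} [∀ ℓ, Nonempty (α ℓ)] {p : ∀ ℓ, α ℓ → Prop}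
    (h : ∀ᶠ ℓ in UU, ∃ a, p ℓ a) : ∃ a : ∀ ℓ, α ℓ, ∀ᶠ ℓ in UU, p ℓ (a ℓ) :=
  ⟨fun ℓ => Classical.epsilon (p ℓ), h.mono fun _ hℓ => Classical.epsilon_spec hℓ⟩

theorem ev_false {p : Prop} (h : ∀ᶠ _ℓ in UU, p) : p := h.exists.elim fun _ h => h

variable {a b : ℕ → ℕ}

theorem Lin.const (c : ℕ) : Lin fun _ => c :=
  ⟨c, Eventually.of_forall fun ℓ => Nat.le_mul_of_pos_right c ℓ.succ_pos⟩
theorem Lin.id (c : ℕ) : Lin fun ℓ => c * (ℓ + 1) := ⟨c, Eventually.of_forall fun _ => le_rfl⟩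
theorem Lin.mono (h : ∀ᶠ ℓ in UU, a ℓ ≤ b ℓ) (hb : Lin b) : Lin a := by
  obtain ⟨N, hN⟩ := hb
  exact ⟨N, (h.and hN).mono fun _ h => h.1.trans h.2⟩
theorem Lin.add (ha : Lin a) (hb : Lin b) : Lin fun ℓ => a ℓ + b ℓ := by
  obtain ⟨N, hN⟩ := ha
  obtain ⟨M, hM⟩ := hb
  exact ⟨N + M, (hN.and hM).mono fun _ h => by rw [add_mul]; exact add_le_add h.1 h.2⟩
theorem Lin.mul (c : ℕ) (ha : Lin a) : Lin fun ℓ => c * a ℓ := by
  obtain ⟨N, hN⟩ := ha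
  exact ⟨c * N, hN.mono fun _ h => by rw [mul_assoc]; exact Nat.mul_le_mul_left c h⟩
theorem Lin.sum {ι : Type*} (s : Finset ι) {a : ι → ℕ → ℕ} (h : ∀ i ∈ s, Lin (a i)) :
    Lin fun ℓ => ∑ i ∈ s, a i ℓ := by
  classical
  induction s using Finset.induction_on with
  | empty => simpa using Lin.const 0
  | insert i s hi ih =>
    simp only [Finset.sum_insert hi]
    exact (h i (Finset.mem_insert_self i s)).add (ih fun j hj => h j (Finset.mem_insert_of_mem hj))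
theorem Lin.pol (ha : Lin a) : Pol a := by
  obtain ⟨N, hN⟩ := ha
  exact ⟨N, hN.mono fun _ h => h.trans Nat.lt_two_pow_self.le⟩
theorem Lin.pow_pol (q : ℕ) (ha : Lin a) : Pol fun ℓ => q ^ a ℓ := by
  obtain ⟨N, hN⟩ := ha
  refine ⟨q * N, hN.mono fun ℓ h => ?_⟩
  calc q ^ a ℓ ≤ (2 ^ q) ^ a ℓ := Nat.pow_le_pow_left Nat.lt_two_pow_self.le _
    _ = 2 ^ (q * a ℓ) := (pow_mul _ _ _).symm
    _ ≤ 2 ^ (q * N * (ℓ + 1)) :=
      Nat.pow_le_pow_right two_pos (by rw [mul_assoc]; exact Nat.mul_le_mul_left q h)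

theorem Pol.const (c : ℕ) : Pol fun _ => c := (Lin.const c).pol
theorem Pol.mono (h : ∀ᶠ ℓ in UU, a ℓ ≤ b ℓ) (hb : Pol b) : Pol a := by
  obtain ⟨N, hN⟩ := hb
  exact ⟨N, (h.and hN).mono fun _ h => h.1.trans h.2⟩
theorem Pol.add (ha : Pol a) (hb : Pol b) : Pol fun ℓ => a ℓ + b ℓ := by
  obtain ⟨N, hN⟩ := ha
  obtain ⟨M, hM⟩ := hb
  refine ⟨N + M + 1, (hN.and hM).mono fun ℓ h => ?_⟩
  have h1 : 2 ^ (N * (ℓ + 1)) ≤ 2 ^ ((N + M) * (ℓ + 1)) :=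
    Nat.pow_le_pow_right two_pos (Nat.mul_le_mul_right _ (Nat.le_add_right _ _))
  have h2 : 2 ^ (M * (ℓ + 1)) ≤ 2 ^ ((N + M) * (ℓ + 1)) :=
    Nat.pow_le_pow_right two_pos (Nat.mul_le_mul_right _ (Nat.le_add_left _ _))
  have h3 : 2 ^ ((N + M) * (ℓ + 1) + 1) ≤ 2 ^ ((N + M + 1) * (ℓ + 1)) :=
    Nat.pow_le_pow_right two_pos (by rw [add_mul (N + M) 1]; omega)
  rw [pow_succ] at h3
  have := h.1
  have := h.2
  change a ℓ + b ℓ ≤ _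
  omega
theorem Pol.mul (ha : Pol a) (hb : Pol b) : Pol fun ℓ => a ℓ * b ℓ := by
  obtain ⟨N, hN⟩ := ha
  obtain ⟨M, hM⟩ := hb
  exact ⟨N + M, (hN.and hM).mono fun _ h => by
    rw [add_mul, pow_add]; exact Nat.mul_le_mul h.1 h.2⟩
theorem Pol.pow (ha : Pol a) (k : ℕ) : Pol fun ℓ => a ℓ ^ k := by
  induction k with
  | zero => simpa using Pol.const 1
  | succ k ih => simpa only [pow_succ] using ih.mul ha
theorem Pol.sum {ι : Type*} (s : Finset ι) {a : ι → ℕ → ℕ} (h : ∀ i ∈ s, Pol (a i)) :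
    Pol fun ℓ => ∑ i ∈ s, a i ℓ := by
  classical
  induction s using Finset.induction_on with
  | empty => simpa using Pol.const 0
  | insert i s hi ih =>
    simp only [Finset.sum_insert hi]
    exact (h i (Finset.mem_insert_self i s)).add (ih fun j hj => h j (Finset.mem_insert_of_mem hj))
theorem Pol.log (ha : Pol a) : ∃ l, Lin l ∧ ∀ᶠ ℓ in UU, a ℓ ≤ 2 ^ l ℓ := by
  obtain ⟨N, hN⟩ := ha
  exact ⟨_, Lin.id N, hN⟩

/-- An exponential beats a linear sequence. -/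
theorem Lin.lt_pow (ha : Lin a) (c : ℝ) {η : ℝ} (hη : 0 < η) {q : ℕ} (hq : 2 ≤ q) :
    ∀ᶠ ℓ in UU, c * a ℓ < η * (q : ℝ) ^ (ℓ + 1) := by
  obtain ⟨N, hN⟩ := ha
  have hq1 : (1 : ℝ) < q := by exact_mod_cast hq
  have h1 : Tendsto (fun n : ℕ => |c| * N * ((n : ℝ) ^ 1 / (q : ℝ) ^ n)) atTop
      (𝓝 (|c| * N * 0)) := (tendsto_pow_const_div_const_pow_of_one_lt 1 hq1).const_mul _
  rw [mul_zero] at h1
  have h2 := ev_top ((h1.comp (tendsto_add_atTop_nat 1)).eventually (gt_mem_nhds hη))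
  filter_upwards [hN, h2] with ℓ h h'
  have h3 : (a ℓ : ℝ) ≤ N * ((ℓ + 1 : ℕ) : ℝ) := by exact_mod_cast h
  simp only [Function.comp_apply, pow_one] at h'
  rw [← mul_div_assoc, div_lt_iff₀ (pow_pos (by linarith) _)] at h'
  refine lt_of_le_of_lt ?_ h'
  calc c * a ℓ ≤ |c| * a ℓ := mul_le_mul_of_nonneg_right (le_abs_self c) (Nat.cast_nonneg _)
    _ ≤ |c| * (N * ((ℓ + 1 : ℕ) : ℝ)) := mul_le_mul_of_nonneg_left h3 (abs_nonneg c)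
    _ = _ := by ring

end Pool.Agent.MP_ee2255_nt.T
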