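import Pool.Agent.MP_ee2255_nt.TDefs
import Pool.Agent.MP_655169_nt.Inv

/-! Calculus of bounded polynomials. -/

namespace Pool.Agent.MP_ee2255_nt.T

open Polynomial Filter Topology Pool.Agent.MP_655169_nt

section

variable {F C : Type*} [Field F] [Fintype F] [Field C] [Algebra F C] {θ : C}
  {B : ℕ → Submodule F C} {ι : Type*} {δ δ' : ℕ} {P Q : MvPolynomial ι C[X]}

/-- The bound for one coefficient. -/
def TBd_P (B : ℕ → Submodule F C) (δ : ℕ) (a : C[X]) : Prop :=
  a.natDegree ≤ δ ∧ ∀ j, a.coeff j ∈ B δ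

omit [Fintype F] in
theorem TBd_zero : TBd_P B δ 0 := ⟨by simp, fun j => by simp⟩

omit [Fintype F] in
theorem TBd_add {a b : C[X]} (ha : TBd_P B δ a) (hb : TBd_P B δ b) : TBd_P B δ (a + b) :=
  ⟨(natDegree_add_le a b).trans (max_le ha.1 hb.1), fun j => by
    rw [coeff_add]; exact add_mem (ha.2 j) (hb.2 j)⟩

omit [Fintype F] in
theorem TBd_neg {a : C[X]} (ha : TBd_P B δ a) : TBd_P B δ (-a) :=
  ⟨by rw [natDegree_neg]; exact ha.1, fun j => by rw [coeff_neg]; exact neg_mem (ha.2 j)⟩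

omit [Fintype F] in
theorem TBd_sum {α : Type*} (s : Finset α) {a : α → C[X]} (h : ∀ i ∈ s, TBd_P B δ (a i)) :
    TBd_P B δ (∑ i ∈ s, a i) :=
  Finset.sum_induction a (TBd_P B δ) (fun _ _ => TBd_add) TBd_zero h

omit [Fintype F] in
theorem TBd_mul (hB : Flt θ B) {a b : C[X]} (ha : TBd_P B δ a) (hb : TBd_P B δ' b) :
    TBd_P B (δ + δ') (a * b) :=
  ⟨natDegree_mul_le.trans (add_le_add ha.1 hb.1), fun j => by
    rw [coeff_mul]
    exact sum_mem fun x _ => hB.mul _ _ _ _ (ha.2 _) (hb.2 _)⟩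

omit [Fintype F] in
theorem TBd_mono (hB : Flt θ B) (h : δ ≤ δ') {a : C[X]} (ha : TBd_P B δ a) : TBd_P B δ' a :=
  ⟨ha.1.trans h, fun j => hB.mono _ _ _ h (ha.2 j)⟩

omit [Fintype F] in
theorem TBd_C {c : C} (hc : c ∈ B δ) : TBd_P B δ (Polynomial.C c) :=
  ⟨by simp, fun j => by
    rw [coeff_C]
    split_ifs
    · exact hc
    · exact zero_mem _⟩

omit [Fintype F] in
theorem TBd_one (hB : Flt θ B) : TBd_P B δ 1 := by
  rw [← C_1]
  exact TBd_C (hB.mono _ _ _ (Nat.zero_le _) hB.one)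

omit [Fintype F] in
theorem TBd_X (hB : Flt θ B) : TBd_P B 1 X :=
  ⟨natDegree_X_le, fun j => by
    rw [coeff_X]
    split_ifs
    · exact hB.mono _ _ _ (Nat.zero_le _) hB.one
    · exact zero_mem _⟩

omit [Fintype F] in
theorem TBd_cst {a : C[X]} (h : TBd_P B δ a) :
    BdB B δ (MvPolynomial.C a : MvPolynomial ι C[X]) := by
  classical
  refine ⟨by simp, fun e => ?_⟩
  show TBd_P B δ _
  rw [MvPolynomial.coeff_C]
  split_ifs
  · exact h
  · exact TBd_zero

omit [Fintype F] in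
theorem TBd_mapc (φ : C → C) (h0 : φ 0 = 0) (a : C[X]) :
    ∃ b : C[X], ∀ j, b.coeff j = φ (a.coeff j) := by
  refine ⟨∑ i ∈ a.support, monomial i (φ (a.coeff i)), fun j => ?_⟩
  simp only [finsetSum_coeff, coeff_monomial, Finset.sum_ite_eq']
  split_ifs with h
  · rfl
  · rw [notMem_support_iff.1 h, h0]

theorem Flt.pow (hB : Flt θ B) {a : C} (ha : a ∈ B δ) (k : ℕ) : a ^ k ∈ B (k * δ) := by
  induction k with
  | zero => simpa using hB.one
  | succ k ih => rw [pow_succ, add_mul, one_mul]; exact hB.mul _ _ _ _ ih ha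
theorem vs_flt {κ : Type*} (ω : κ → C) (hθ : θ ∈ Vs F ω 1) : Flt θ (Vs F ω) := 
  ⟨by simpa using Vs_const ω (1 : F) 0, hθ, fun _ _ _ _ ha hb => Vs_mul ω ha hb,
    fun _ _ _ h ha => Vs_mono ω h ha⟩
theorem BdB.mono (hB : Flt θ B) (h : δ ≤ δ') (hP : BdB B δ P) : BdB B δ' P := 
  ⟨hP.1.trans h, fun e => TBd_mono hB h (hP.2 e)⟩
theorem BdB.zero : BdB B δ (0 : MvPolynomial ι C[X]) := 
  ⟨by simp, fun _ => TBd_zero⟩
theorem BdB.one (hB : Flt θ B) : BdB B δ (1 : MvPolynomial ι C[X]) := by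
  rw [← MvPolynomial.C_1]
  exact TBd_cst (TBd_one hB)
theorem BdB.add (hP : BdB B δ P) (hQ : BdB B δ Q) : BdB B δ (P + Q) := 
  ⟨(MvPolynomial.totalDegree_add P Q).trans (max_le hP.1 hQ.1), fun e => by
    rw [MvPolynomial.coeff_add]; exact TBd_add (hP.2 e) (hQ.2 e)⟩
theorem BdB.neg (hP : BdB B δ P) : BdB B δ (-P) := 
  ⟨by rw [MvPolynomial.totalDegree_neg]; exact hP.1, fun e => by
    rw [MvPolynomial.coeff_neg]; exact TBd_neg (hP.2 e)⟩
theorem BdB.sub (hP : BdB B δ P) (hQ : BdB B δ Q) : BdB B δ (P - Q) := by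
  rw [sub_eq_add_neg]; exact hP.add hQ.neg
theorem BdB.mul (hB : Flt θ B) (hP : BdB B δ P) (hQ : BdB B δ' Q) : BdB B (δ + δ') (P * Q) := by
  classical
  refine ⟨(MvPolynomial.totalDegree_mul P Q).trans (add_le_add hP.1 hQ.1), fun e => ?_⟩
  rw [MvPolynomial.coeff_mul]
  exact TBd_sum _ fun x _ => TBd_mul hB (hP.2 _) (hQ.2 _)
theorem BdB.sum {α : Type*} (s : Finset α) {P : α → MvPolynomial ι C[X]}
    (h : ∀ a ∈ s, BdB B δ (P a)) : BdB B δ (∑ a ∈ s, P a) := 
  Finset.sum_induction P (BdB B δ) (fun _ _ => BdB.add) BdB.zero h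
theorem BdB.prod (hB : Flt θ B) {α : Type*} (s : Finset α) {P : α → MvPolynomial ι C[X]}
    {δ : α → ℕ} (h : ∀ a ∈ s, BdB B (δ a) (P a)) : BdB B (∑ a ∈ s, δ a) (∏ a ∈ s, P a) := by
  classical
  induction s using Finset.induction_on with
  | empty => simpa using BdB.one hB
  | insert a s ha ih =>
    rw [Finset.sum_insert ha, Finset.prod_insert ha]
    exact BdB.mul hB (h a (Finset.mem_insert_self _ _))
      (ih fun b hb => h b (Finset.mem_insert_of_mem hb))
theorem BdB.pow (hB : Flt θ B) (hP : BdB B δ P) (k : ℕ) : BdB B (k * δ) (P ^ k) := by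
  induction k with
  | zero => simpa using BdB.one hB
  | succ k ih => rw [pow_succ, add_mul, one_mul]; exact BdB.mul hB ih hP
theorem BdB.cst {a : C[X]} (h1 : a.natDegree ≤ δ) (h2 : ∀ j, a.coeff j ∈ B δ) :
    BdB B δ (MvPolynomial.C a : MvPolynomial ι C[X]) := 
  TBd_cst ⟨h1, h2⟩
theorem BdB.var (hB : Flt θ B) (i : ι) : BdB B 1 (MvPolynomial.X i : MvPolynomial ι C[X]) := by
  classical
  refine ⟨(MvPolynomial.totalDegree_X i).le, fun e => ?_⟩
  show TBd_P B 1 _
  rw [MvPolynomial.coeff_X]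
  split_ifs
  · exact TBd_one hB
  · exact TBd_zero
theorem BdB.det (hB : Flt θ B) {n : Type*} [Fintype n] [DecidableEq n]
    (A : Matrix n n (MvPolynomial ι C[X])) (h : ∀ i j, BdB B δ (A i j)) :
    BdB B (Fintype.card n * δ) A.det := by
  rw [Matrix.det_apply]
  refine BdB.sum _ fun σ _ => ?_
  have h1 := BdB.prod hB Finset.univ (P := fun i => A (σ i) i) (δ := fun _ => δ)
    fun i _ => h _ _
  rw [Finset.sum_const, Finset.card_univ, smul_eq_mul] at h1
  rcases Int.units_eq_one_or (Equiv.Perm.sign σ) with h2 | h2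
  · rw [h2, one_smul]; exact h1
  · rw [h2, Units.neg_smul, one_smul]; exact h1.neg
theorem BdB.adjugate (hB : Flt θ B) {n : Type*} [Fintype n] [DecidableEq n]
    (A : Matrix n n (MvPolynomial ι C[X])) (h : ∀ i j, BdB B δ (A i j)) (i j : n) :
    BdB B (Fintype.card n * δ) (A.adjugate i j) := by
  rw [Matrix.adjugate_apply]
  refine BdB.det hB _ fun a b => ?_
  rw [Matrix.updateRow_apply, Pi.single_apply]
  split_ifs
  · exact BdB.one hB
  · exact BdB.zero
  · exact h _ _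
theorem BdB.rename {ι' : Type*} {g : ι → ι'} (hg : Function.Injective g) (hP : BdB B δ P) :
    BdB B δ (MvPolynomial.rename g P) := by
  refine ⟨(MvPolynomial.totalDegree_rename_le g P).trans hP.1, fun e => ?_⟩
  by_cases h : ∃ d : ι →₀ ℕ, d.mapDomain g = e
  · obtain ⟨d, rfl⟩ := h
    rw [MvPolynomial.coeff_rename_mapDomain g hg]
    exact hP.2 d
  · rw [MvPolynomial.coeff_rename_eq_zero g P e fun d hd => absurd ⟨d, hd⟩ h]
    exact TBd_zero
theorem BdB.fin_coeff {r : ℕ} {P : MvPolynomial (Fin (r + 1)) C[X]} (hP : BdB B δ P) (j : ℕ) :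
    BdB B δ ((MvPolynomial.finSuccEquiv C[X] r P).coeff j) := by
  refine ⟨?_, fun e => ?_⟩
  · by_cases h : (MvPolynomial.finSuccEquiv C[X] r P).coeff j = 0
    · rw [h]; simp
    · have := MvPolynomial.totalDegree_coeff_finSuccEquiv_add_le P j h
      have := hP.1
      omega
  · rw [MvPolynomial.finSuccEquiv_coeff_coeff]
    exact hP.2 _
theorem BdB.fin_symm (hB : Flt θ B) {r n : ℕ} {p : (MvPolynomial (Fin r) C[X])[X]}
    (hn : p.natDegree ≤ n) (h : ∀ j, BdB B δ (p.coeff j)) :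
    BdB B (n + δ) ((MvPolynomial.finSuccEquiv C[X] r).symm p) := by
  have key : ∀ e : Fin (r + 1) →₀ ℕ, ((MvPolynomial.finSuccEquiv C[X] r).symm p).coeff e =
      (p.coeff (e 0)).coeff e.tail := by
    intro e
    have := MvPolynomial.finSuccEquiv_coeff_coeff e.tail
      ((MvPolynomial.finSuccEquiv C[X] r).symm p) (e 0)
    rw [AlgEquiv.apply_symm_apply, Finsupp.cons_tail] at this
    exact this.symm
  refine ⟨Finset.sup_le fun e he => ?_, fun e => ?_⟩
  · rw [MvPolynomial.mem_support_iff, key] at he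
    have h1 : e 0 ≤ n := (le_natDegree_of_ne_zero fun h0 => he (by rw [h0]; rfl)).trans hn
    have h2 := (MvPolynomial.le_totalDegree (MvPolynomial.mem_support_iff.2 he)).trans (h _).1
    rw [← Finsupp.cons_tail e, Finsupp.sum_cons]
    exact add_le_add h1 h2
  · rw [key]
    exact TBd_mono hB (Nat.le_add_left _ _) ((h _).2 _)

theorem up_coeff (k : Subfield C) (Qk : MvPolynomial ι k[X]) (e : ι →₀ ℕ) (j : ℕ) :
    ((up k Qk).coeff e).coeff j = ((Qk.coeff e).coeff j : C) := by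
  simp [up, MvPolynomial.coeff_map]
theorem up_inj (k : Subfield C) :
    Function.Injective (up k : MvPolynomial ι k[X] → MvPolynomial ι C[X]) := 
  MvPolynomial.map_injective _ (Polynomial.map_injective _ k.subtype_injective)
theorem exists_up (k : Subfield C) (Q : MvPolynomial ι C[X])
    (h : ∀ e j, (Q.coeff e).coeff j ∈ k) : ∃ Qk, up k Qk = Q := by
  have h1 : ∀ e, ∃ a : k[X], a.map k.subtype = Q.coeff e := fun e =>
    (mem_lifts _).1 ((lifts_iff_coeff_lifts _).2 fun j => ⟨⟨_, h e j⟩, rfl⟩)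
  choose a ha using h1
  refine ⟨∑ e ∈ Q.support, MvPolynomial.monomial e (a e), ?_⟩
  conv_rhs => rw [Q.as_sum]
  rw [map_sum]
  refine Finset.sum_congr rfl fun e _ => ?_
  rw [up, MvPolynomial.map_monomial, coe_mapRingHom, ha]

/-- The set of coefficients. -/
theorem exists_cfs {r : ℕ} {P : MvPolynomial (Fin r) C[X]} (hP : BdB B δ P) :
    ∃ T : Finset C, T.card ≤ (δ + 1) ^ (r + 1) ∧ (∀ e j, (P.coeff e).coeff j ≠ 0 →
      (P.coeff e).coeff j ∈ T) ∧ ∀ a ∈ T, ∃ e j, a = (P.coeff e).coeff j := by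
  classical
  refine ⟨(P.support ×ˢ Finset.range (δ + 1)).image fun x => (P.coeff x.1).coeff x.2, ?_,
    fun e j h => ?_, fun a ha => ?_⟩
  · refine Finset.card_image_le.trans ?_
    rw [Finset.card_product, Finset.card_range, pow_succ]
    refine Nat.mul_le_mul_right _ ?_
    have h1 : P.support.card ≤ (Fintype.piFinset fun _ : Fin r => Finset.range (δ + 1)).card := by
      refine Finset.card_le_card_of_injOn (fun e => (e : Fin r → ℕ)) (fun e he => ?_)
        fun e _ e' _ h => DFunLike.coe_injective h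
      simp only [Finset.mem_coe, Fintype.mem_piFinset, Finset.mem_range]
      intro i
      exact Nat.lt_succ_of_le (((MvPolynomial.monomial_le_degreeOf i he).trans
        (MvPolynomial.degreeOf_le_totalDegree P i)).trans hP.1)
    simpa using h1
  · refine Finset.mem_image.2 ⟨(e, j), Finset.mem_product.2 ⟨?_, ?_⟩, rfl⟩
    · exact MvPolynomial.mem_support_iff.2 fun h0 => h (by rw [h0]; rfl)
    · exact Finset.mem_range.2 (Nat.lt_succ_of_le ((le_natDegree_of_ne_zero h).trans (hP.2 e).1))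
  · obtain ⟨x, _, rfl⟩ := Finset.mem_image.1 ha
    exact ⟨_, _, rfl⟩
/-- Apply a map to all coefficients. -/
theorem exists_mapc (φ : C → C) (h0 : φ 0 = 0) (P : MvPolynomial ι C[X]) :
    ∃ Q : MvPolynomial ι C[X], Q.totalDegree ≤ P.totalDegree ∧
      ∀ e, (Q.coeff e).natDegree ≤ (P.coeff e).natDegree ∧
        ∀ j, (Q.coeff e).coeff j = φ ((P.coeff e).coeff j) := by
  classical
  choose ψ hψ using TBd_mapc φ h0
  have hz : ψ 0 = 0 := by
    ext j; rw [hψ, coeff_zero, h0]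
  have key : ∀ e, (∑ d ∈ P.support, MvPolynomial.monomial d (ψ (P.coeff d))).coeff e =
      ψ (P.coeff e) := by
    intro e
    simp only [MvPolynomial.coeff_sum, MvPolynomial.coeff_monomial, Finset.sum_ite_eq',
      MvPolynomial.mem_support_iff]
    split_ifs with h
    · rfl
    · rw [not_not.1 h, hz]
  refine ⟨∑ d ∈ P.support, MvPolynomial.monomial d (ψ (P.coeff d)), ?_, fun e => ⟨?_, ?_⟩⟩
  · refine Finset.sup_mono fun e he => ?_
    rw [MvPolynomial.mem_support_iff] at he ⊢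
    intro h1
    rw [key, h1, hz] at he
    exact he rfl
  · rw [key, natDegree_le_iff_coeff_eq_zero]
    intro j hj
    rw [hψ, coeff_eq_zero_of_natDegree_lt hj, h0]
  · intro j
    rw [key, hψ]

end

variable {F C Ω : Type*} [Field F] [Fintype F] [NormedField C] [IsUltrametricDist C]
  [IsAlgClosed C] [Algebra F C] [NormedField Ω] [IsUltrametricDist Ω] [IsAlgClosed Ω]
  [Algebra C Ω] [Algebra F Ω] [IsScalarTower F C Ω] (Z : Sit F C Ω)

theorem BdB.sgt {B : ℕ → Submodule F C} (hB : Flt Z.θ B) {ι : Type*} {δ : ℕ} (hδ : 1 ≤ δ)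
    {y : ι → C} (hy : ∀ j, y j ∈ B δ) {Q : MvPolynomial ι C[X]} (hQ : BdB B δ Q) :
    BdB B ((qq F + 3) * δ ^ 2) (Z.sgt y Q) := by
  have hq : 1 ≤ qq F := Fintype.card_pos
  have hf : ∀ i, BdB B (2 * δ) (MvPolynomial.C (Polynomial.C (y i)) +
      MvPolynomial.C Z.ss * MvPolynomial.X i : MvPolynomial ι C[X]) := by
    intro i
    refine BdB.add (BdB.mono hB (by omega) (TBd_cst (TBd_C (hy i)))) ?_
    have h1 : TBd_P B 1 Z.ss := by
      rw [Sit.ss, sub_eq_add_neg]
      exact TBd_add (TBd_X hB) (TBd_neg (TBd_C hB.theta))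
    exact BdB.mono hB (by omega) (BdB.mul hB (TBd_cst h1) (BdB.var hB i))
  rw [Sit.sgt, MvPolynomial.eval₂_eq]
  refine BdB.sum _ fun e he => ?_
  have h1 : TBd_P B (qq F * δ) (Z.tw 1 (Q.coeff e)) := by
    refine ⟨natDegree_map_le.trans ((hQ.2 e).1.trans (Nat.le_mul_of_pos_left _ hq)), fun j => ?_⟩
    rw [Sit.tw, coe_mapRingHom, coeff_map, pow_one, Z.fr_eq]
    exact hB.pow ((hQ.2 e).2 j) _
  have h2 := BdB.prod hB e.support (δ := fun i => e i * (2 * δ))
    fun i _ => BdB.pow hB (hf i) (e i)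
  have h3 : ∑ i ∈ e.support, e i ≤ δ := (MvPolynomial.le_totalDegree he).trans hQ.1
  refine BdB.mono hB ?_ (BdB.mul hB (TBd_cst h1) h2)
  rw [← Finset.sum_mul]
  have h4 : qq F * δ ≤ qq F * δ ^ 2 := Nat.mul_le_mul_left _ (by nlinarith)
  have h5 := Nat.mul_le_mul_right (2 * δ) h3
  nlinarith

end Pool.Agent.MP_ee2255_nt.T
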