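import Pool.Agent.MP_ee2255_nt.TDefs

/-! The Carlitz action. -/

set_option linter.unusedSectionVars false

namespace Pool.Agent.MP_ee2255_nt.T

open Polynomial Filter Topology Pool.Agent.MP_655169_nt

section

variable {F C : Type*} [Field F] [Fintype F] [Field C] [Algebra F C] (θ : C)

theorem TCarl_fr (i : ℕ) (x : C) : (FiniteField.frobeniusAlgHom F C ^ i) x = x ^ qq F ^ i := by
  induction i with
  | zero => simp
  | succ i ih =>
    rw [pow_succ', AlgHom.mul_apply, ih, pow_succ, pow_mul]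
    rfl

theorem TCarl_D_succ (i : ℕ) : carlitzD (qq F) θ (i + 1) =
    carlitzD (qq F) θ i ^ qq F * (θ ^ qq F ^ (i + 1) - θ) := by
  have e : ∀ x : C, x ^ qq F = FiniteField.frobeniusAlgHom F C x := fun _ => rfl
  rw [carlitzD, Finset.prod_range_succ', e (carlitzD _ _ _), carlitzD, map_prod, pow_zero, pow_one]
  congr 1
  refine Finset.prod_congr rfl fun j _ => ?_
  rw [map_sub, ← e, ← e, ← pow_mul, ← pow_mul, ← pow_succ, ← pow_succ]

theorem cth_apply (y : C) : cth F θ y = θ * y + y ^ qq F := rfl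
theorem carl_add_left (c c' : F[X]) (y : C) : carl θ (c + c') y = carl θ c y + carl θ c' y := by
  rw [carl, map_add]; rfl
theorem carl_sub_left (c c' : F[X]) (y : C) : carl θ (c - c') y = carl θ c y - carl θ c' y := by
  rw [carl, map_sub]; rfl
theorem carl_add (c : F[X]) (y y' : C) : carl θ c (y + y') = carl θ c y + carl θ c y' :=
  map_add _ _ _
theorem carl_sub (c : F[X]) (y y' : C) : carl θ c (y - y') = carl θ c y - carl θ c y' :=
  map_sub _ _ _
theorem carl_smul (c : F[X]) (a : F) (y : C) : carl θ c (a • y) = a • carl θ c y :=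
  map_smul _ _ _
theorem carl_smul_left (c : F[X]) (a : F) (y : C) : carl θ (a • c) y = a • carl θ c y := by
  rw [carl, map_smul]; rfl
@[simp] theorem carl_zero (c : F[X]) : carl θ c 0 = 0 := map_zero _
@[simp] theorem carl_zero_left (y : C) : carl θ (0 : F[X]) y = 0 := by
  rw [carl, map_zero]; rfl
@[simp] theorem carl_one (y : C) : carl θ (1 : F[X]) y = y := by
  rw [carl, map_one]; rfl
theorem carl_mul (c c' : F[X]) (y : C) : carl θ (c * c') y = carl θ c (carl θ c' y) := by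
  rw [carl, map_mul]; rfl
theorem carl_X (y : C) : carl θ (X : F[X]) y = θ * y + y ^ qq F := by
  rw [carl, aeval_X]; rfl
theorem carl_C (a : F) (y : C) : carl θ (Polynomial.C a) y = a • y := by
  rw [carl, aeval_C, Module.algebraMap_end_apply]
theorem carl_X_pow (i : ℕ) (y : C) : carl θ ((X : F[X]) ^ i) y = (cth F θ ^ i) y := by
  rw [carl, map_pow, aeval_X]
theorem carl_sum {ι : Type*} (s : Finset ι) (c : F[X]) (y : ι → C) :
    carl θ c (∑ i ∈ s, y i) = ∑ i ∈ s, carl θ c (y i) := map_sum _ _ _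
theorem carl_sum_left {ι : Type*} (s : Finset ι) (c : ι → F[X]) (y : C) :
    carl θ (∑ i ∈ s, c i) y = ∑ i ∈ s, carl θ (c i) y := by
  rw [carl, map_sum, LinearMap.sum_apply]; rfl
theorem carl_eq_sum (c : F[X]) (n : ℕ) (h : c.natDegree < n) (y : C) :
    carl θ c y = ∑ i ∈ Finset.range n, c.coeff i • (cth F θ ^ i) y := by
  rw [carl, aeval_eq_sum_range' h, LinearMap.sum_apply]; rfl

theorem TCarl_succ (i : ℕ) (y : C) :
    (cth F θ ^ (i + 1)) y = θ * (cth F θ ^ i) y + (cth F θ ^ i) y ^ qq F := by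
  rw [pow_succ', Module.End.mul_apply, cth_apply]

theorem carl_map {C' : Type*} [Field C'] [Algebra F C'] (φ : C →ₐ[F] C') (c : F[X]) (y : C) :
    φ (carl θ c y) = carl (φ θ) c (φ y) := by
  have h : ∀ i : ℕ, φ ((cth F θ ^ i) y) = (cth F (φ θ) ^ i) (φ y) := by
    intro i
    induction i with
    | zero => rfl
    | succ i ih => rw [TCarl_succ, TCarl_succ, map_add, map_mul, map_pow, ih]
  rw [carl_eq_sum θ c _ (Nat.lt_succ_self _), carl_eq_sum (φ θ) c _ (Nat.lt_succ_self _), map_sum]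
  exact Finset.sum_congr rfl fun i _ => by rw [map_smul, h]

theorem carl_mem (k : Subfield C) (hF : ∀ a : F, algebraMap F C a ∈ k) (hθ : θ ∈ k) (c : F[X])
    {y : C} (hy : y ∈ k) : carl θ c y ∈ k := by
  have h : ∀ i : ℕ, (cth F θ ^ i) y ∈ k := by
    intro i
    induction i with
    | zero => exact hy
    | succ i ih =>
      rw [TCarl_succ]
      exact k.add_mem (k.mul_mem hθ ih) (k.pow_mem ih _)
  rw [carl_eq_sum θ c _ (Nat.lt_succ_self _)]
  refine k.sum_mem fun i _ => ?_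
  rw [Algebra.smul_def]
  exact k.mul_mem (hF _) (h i)

theorem carl_Vs {κ : Type*} (ω : κ → C) (hθ : θ ∈ Vs F ω 1) {δ n : ℕ} (hδ : 1 ≤ δ) {c : F[X]}
    (hc : c.natDegree ≤ n) {y : C} (hy : y ∈ Vs F ω δ) : carl θ c y ∈ Vs F ω (δ * qq F ^ n) := by
  have hq := two_le_qq (F := F)
  have h : ∀ i : ℕ, (cth F θ ^ i) y ∈ Vs F ω (δ * qq F ^ i) := by
    intro i
    induction i with
    | zero => simpa using hy
    | succ i ih =>
      rw [TCarl_succ]
      have h1 : 1 ≤ δ * qq F ^ i := Nat.mul_pos hδ (by positivity)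
      refine Submodule.add_mem _ (Vs_mono ω ?_ (Vs_mul ω hθ ih)) (Vs_mono ω ?_ (Vs_pow ω ih _))
      · rw [pow_succ, ← mul_assoc]; nlinarith
      · rw [pow_succ, ← mul_assoc]
  rw [carl_eq_sum θ c _ (Nat.lt_succ_of_le hc)]
  refine Submodule.sum_mem _ fun i hi => Submodule.smul_mem _ _ (Vs_mono ω ?_ (h i))
  exact Nat.mul_le_mul_left _
    (Nat.pow_le_pow_right (by omega) (Nat.lt_succ_iff.1 (Finset.mem_range.1 hi)))

/-- A solution of `C_{θ^n} y = z` is integral over any subring containing `θ` and `z`. -/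
theorem integral_of_cth (A : Subalgebra F C) (hθ : θ ∈ A) (n : ℕ) (y : C)
    (h : (cth F θ ^ n) y ∈ A) : IsIntegral A y := by
  have hq := two_le_qq (F := F)
  induction n generalizing y with
  | zero => exact isIntegral_algebraMap (x := (⟨y, h⟩ : A))
  | succ n ih =>
    rw [pow_succ, Module.End.mul_apply] at h
    have h1 := ih _ h
    have hd : (Polynomial.C (⟨θ, hθ⟩ : A) * X).degree < (X ^ qq F : A[X]).degree := by
      rw [degree_X_pow]
      refine (degree_C_mul_X_le _).trans_lt ?_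
      exact_mod_cast hq
    refine IsIntegral.of_aeval_monic (p := X ^ qq F + Polynomial.C (⟨θ, hθ⟩ : A) * X)
      ((monic_X_pow _).add_of_left hd) ?_ ?_
    · rw [natDegree_add_eq_left_of_degree_lt hd, natDegree_X_pow]
      omega
    · have e : aeval y (X ^ qq F + Polynomial.C (⟨θ, hθ⟩ : A) * X) = cth F θ y := by
        rw [cth_apply, map_add, map_mul, map_pow, aeval_X, aeval_C, add_comm]
        rfl
      rwa [e]

variable {ι : Type*} [Fintype ι]

theorem lin_Vs {κ : Type*} (ω : κ → C) (hθ : θ ∈ Vs F ω 1) {δ n : ℕ} {c : ι → F[X]}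
    (hc : ∀ j, (c j).natDegree ≤ n) {x : ι → C} (hx : ∀ j, x j ∈ Vs F ω δ) :
    lin θ c x ∈ Vs F ω (n + δ) := by
  refine Submodule.sum_mem _ fun j _ => Vs_mul ω ?_ (hx j)
  rw [aeval_eq_sum_range' (Nat.lt_succ_of_le (hc j))]
  refine Submodule.sum_mem _ fun i hi => Submodule.smul_mem _ _ (Vs_mono ω ?_ (Vs_pow ω hθ i))
  rw [one_mul]
  exact Nat.lt_succ_iff.1 (Finset.mem_range.1 hi)

theorem lin_lin {ι' : Type*} [Fintype ι'] (c : ι' → F[X]) (d : ι' → ι → F[X]) (x : ι → C) :
    lin θ c (fun j => lin θ (d j) x) = lin θ (fun i => ∑ j, c j * d j i) x := by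
  simp only [lin, map_sum, map_mul, Finset.mul_sum, Finset.sum_mul, mul_assoc]
  exact Finset.sum_comm

theorem lin_map {C' : Type*} [Field C'] [Algebra F C'] (φ : C →ₐ[F] C') (c : ι → F[X])
    (x : ι → C) : φ (lin θ c x) = lin (φ θ) c fun j => φ (x j) := by
  simp only [lin, map_sum, map_mul, aeval_algHom_apply]

theorem Vs_sub {κ : Type*} (ω : κ → C) (k : Subfield C) (hF : ∀ a : F, algebraMap F C a ∈ k)
    (hω : ∀ i, ω i ∈ k) {δ : ℕ} {a : C} (ha : a ∈ Vs F ω δ) : a ∈ k := by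
  obtain ⟨G, -, rfl⟩ := (mem_Vs ω δ a).1 ha
  clear ha
  induction G using MvPolynomial.induction_on with
  | C a => rw [MvPolynomial.aeval_C]; exact hF a
  | add p q hp hq => rw [map_add]; exact k.add_mem hp hq
  | mul_X p i hp => rw [map_mul, MvPolynomial.aeval_X]; exact k.mul_mem hp (hω i)

end

section

variable {F C : Type*} [Field F] [Fintype F] [NormedField C] [IsUltrametricDist C] [Algebra F C]
  {θ : C} {ι : Type*} [Fintype ι]

theorem TCarl_smul_le (a : F) (x : C) : ‖a • x‖ ≤ ‖x‖ := by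
  rw [Algebra.smul_def, norm_mul]
  exact mul_le_of_le_one_left (norm_nonneg _) (norm_F_le a)

theorem carl_norm (hθ : 1 < ‖θ‖) {c : F[X]} {n : ℕ} (hc : c.natDegree ≤ n) {y : C} {ε : ℝ}
    (hy : ‖y‖ ≤ ε) (h : ‖θ‖ ^ n * ε ≤ 1) : ‖carl θ c y‖ ≤ ‖θ‖ ^ n * ε := by
  have hq := two_le_qq (F := F)
  have hε : 0 ≤ ε := (norm_nonneg _).trans hy
  have hm : ∀ i j : ℕ, i ≤ j → ‖θ‖ ^ i * ε ≤ ‖θ‖ ^ j * ε := fun i j hij =>
    mul_le_mul_of_nonneg_right (pow_le_pow_right₀ hθ.le hij) hε
  have h1 : ∀ i : ℕ, i ≤ n → ‖(cth F θ ^ i) y‖ ≤ ‖θ‖ ^ i * ε := by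
    intro i
    induction i with
    | zero => intro _; simpa using hy
    | succ i ih =>
      intro hi
      have h2 := ih (by omega)
      rw [TCarl_succ]
      refine (IsUltrametricDist.norm_add_le_max _ _).trans (max_le ?_ ?_)
      · rw [norm_mul, pow_succ', mul_assoc]
        exact mul_le_mul_of_nonneg_left h2 (norm_nonneg _)
      · rw [norm_pow]
        refine (pow_le_of_le_one (norm_nonneg _) (h2.trans ((hm i n (by omega)).trans h))
          (by omega)).trans (h2.trans (hm _ _ (by omega)))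
  rw [carl_eq_sum θ c _ (Nat.lt_succ_of_le hc)]
  refine IsUltrametricDist.norm_sum_le_of_forall_le_of_nonneg (by positivity) fun i hi => ?_
  have hi' := Nat.lt_succ_iff.1 (Finset.mem_range.1 hi)
  exact (TCarl_smul_le _ _).trans ((h1 i hi').trans (hm _ _ hi'))

theorem lin_norm (hθ : 1 < ‖θ‖) {c : ι → F[X]} {n : ℕ} (hc : ∀ j, (c j).natDegree ≤ n)
    {x : ι → C} {A : ℝ} (hA : 0 ≤ A) (hx : ∀ j, ‖x j‖ ≤ A) : ‖lin θ c x‖ ≤ ‖θ‖ ^ n * A := by
  refine IsUltrametricDist.norm_sum_le_of_forall_le_of_nonneg (by positivity) fun j _ => ?_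
  rw [norm_mul]
  refine mul_le_mul ?_ (hx j) (norm_nonneg _) (by positivity)
  rw [aeval_eq_sum_range' (Nat.lt_succ_of_le (hc j))]
  refine IsUltrametricDist.norm_sum_le_of_forall_le_of_nonneg (by positivity) fun i hi => ?_
  refine (TCarl_smul_le _ _).trans ?_
  rw [norm_pow]
  exact pow_le_pow_right₀ hθ.le (Nat.lt_succ_iff.1 (Finset.mem_range.1 hi))

theorem TCarl_congr {f g : ℕ → C} {a : C} (h : HasSum f a) (e : ∀ i, g i = f i) : HasSum g a := by
  rwa [funext e]

theorem HS.zero : HS F θ 0 0 := by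
  have hq := two_le_qq (F := F)
  have : (fun i => (0 : C) ^ qq F ^ i / carlitzD (qq F) θ i) = fun _ => 0 := by
    funext i
    rw [zero_pow (by positivity), zero_div]
  rw [HS, this]
  exact hasSum_zero

theorem HS.add {u u' al al' : C} (h : HS F θ u al) (h' : HS F θ u' al') :
    HS F θ (u + u') (al + al') := by
  refine TCarl_congr (HasSum.add h h') fun i => ?_
  rw [← TCarl_fr, map_add, TCarl_fr, TCarl_fr, add_div]

theorem HS.sub {u u' al al' : C} (h : HS F θ u al) (h' : HS F θ u' al') :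
    HS F θ (u - u') (al - al') := by
  refine TCarl_congr (HasSum.sub h h') fun i => ?_
  rw [← TCarl_fr, map_sub, TCarl_fr, TCarl_fr, sub_div]

theorem HS.smul {u al : C} (a : F) (h : HS F θ u al) : HS F θ (a • u) (a • al) := by
  rw [Algebra.smul_def a al]
  refine TCarl_congr (HasSum.mul_left (algebraMap F C a) h) fun i => ?_
  rw [← TCarl_fr, map_smul, TCarl_fr, Algebra.smul_def, mul_div_assoc]

theorem HS.theta (hθ : 1 < ‖θ‖) {u al : C} (h : HS F θ u al) :
    HS F θ (θ * u) (θ * al + al ^ qq F) := by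
  have hq := two_le_qq (F := F)
  have hne : ∀ i, θ ^ qq F ^ (i + 1) - θ ≠ 0 := fun i => by
    refine sub_ne_zero.2 fun h => ?_
    have := lt_self_pow₀ hθ (Nat.one_lt_pow (n := i + 1) (by omega) hq)
    rw [← norm_pow, h] at this
    exact lt_irrefl _ this
  have h1 : HasSum (fun i => (u ^ qq F ^ i / carlitzD (qq F) θ i) ^ qq F) (al ^ qq F) :=
    HasSum.map h (FiniteField.frobeniusAlgHom F C) (continuous_pow (qq F))
  have h2 : HasSum (fun i => (θ ^ qq F ^ i - θ) * (u ^ qq F ^ i / carlitzD (qq F) θ i))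
      (al ^ qq F) := by
    rw [← hasSum_nat_add_iff' 1]
    simp only [Finset.range_one, Finset.sum_singleton, pow_zero, pow_one, sub_self, zero_mul,
      sub_zero]
    refine TCarl_congr h1 fun i => ?_
    rw [TCarl_D_succ, div_pow, ← pow_mul, ← pow_succ, mul_comm, div_mul_eq_div_div,
      div_mul_cancel₀ _ (hne i)]
  refine TCarl_congr ((HasSum.mul_left θ h).add h2) fun i => ?_
  rw [mul_pow]
  ring

theorem HS.poly (hθ : 1 < ‖θ‖) {u al : C} (h : HS F θ u al) (c : F[X]) :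
    HS F θ (aeval θ c * u) (carl θ c al) := by
  induction c using Polynomial.induction_on with
  | C a =>
    rw [aeval_C, carl_C, ← Algebra.smul_def]
    exact h.smul a
  | add p q hp hq =>
    rw [map_add, add_mul, carl_add_left]
    exact hp.add hq
  | monomial n a ih =>
    have := ih.theta hθ
    rw [← carl_X, ← carl_mul] at this
    convert this using 1
    · rw [pow_succ, ← mul_assoc, map_mul, aeval_X]
      ring
    · congr 1
      ring

theorem HS.lin (hθ : 1 < ‖θ‖) {x al : ι → C} (h : ∀ j, HS F θ (x j) (al j)) (c : ι → F[X]) :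
    HS F θ (lin θ c x) (∑ j, carl θ (c j) (al j)) := by
  classical
  have key : ∀ s : Finset ι, HS F θ (∑ j ∈ s, aeval θ (c j) * x j)
      (∑ j ∈ s, carl θ (c j) (al j)) := by
    intro s
    induction s using Finset.induction_on with
    | empty => simpa using HS.zero
    | insert a s ha ih =>
      rw [Finset.sum_insert ha, Finset.sum_insert ha]
      exact ((h a).poly hθ (c a)).add ih
  exact key _

theorem HS.unique {u al al' : C} (h : HS F θ u al) (h' : HS F θ u al') : al = al' :=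
  HasSum.unique h h'

/-- The exponential is an isometry near the origin. -/
theorem HS.iso (hθ : 1 < ‖θ‖) {u al : C} (h : HS F θ u al) (hu : ‖u‖ ≤ ‖θ‖) :
    ‖al‖ = ‖u‖ ∧ ‖al - u‖ * ‖θ‖ ≤ ‖u‖ := by
  have hq := two_le_qq (F := F)
  have h0 : 0 < ‖θ‖ := one_pos.trans hθ
  have h1 := basic_tail _ _ (HasSum.tendsto_sum_nat h) 1 (‖u‖ / ‖θ‖) (by positivity) (by
    intro i hi
    obtain ⟨k, hk⟩ : ∃ k, qq F ^ i = k + 1 := ⟨qq F ^ i - 1, by
      have : 0 < qq F ^ i := by positivity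
      omega⟩
    rw [norm_div, norm_carlitzD _ hq θ hθ, norm_pow, hk, div_le_div_iff₀ (by positivity) h0]
    calc ‖u‖ ^ (k + 1) * ‖θ‖ = ‖u‖ * (‖u‖ ^ k * ‖θ‖) := by ring
      _ ≤ ‖u‖ * (‖θ‖ ^ k * ‖θ‖) := by gcongr
      _ ≤ ‖u‖ * ‖θ‖ ^ (i * (k + 1)) := by
        rw [← pow_succ]
        exact mul_le_mul_of_nonneg_left (pow_le_pow_right₀ hθ.le (by nlinarith)) (norm_nonneg _))
  have e : ∑ i ∈ Finset.range 1, u ^ qq F ^ i / carlitzD (qq F) θ i = u := by simp [carlitzD]
  rw [e] at h1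
  refine ⟨?_, (le_div_iff₀ h0).1 h1⟩
  by_cases hu0 : u = 0
  · subst hu0
    simpa using h1
  · have h2 : ‖al - u‖ < ‖u‖ := h1.trans_lt (div_lt_self (norm_pos_iff.2 hu0) hθ)
    have h3 := IsUltrametricDist.norm_add_eq_max_of_norm_ne_norm h2.ne
    rwa [sub_add_cancel, max_eq_right h2.le] at h3

theorem HS.map {C' : Type*} [NormedField C'] (φ : C →+* C') (hφ : ∀ x, ‖φ x‖ = ‖x‖) {u al : C}
    (h : HS F θ u al) : HS F (φ θ) (φ u) (φ al) := by
  have := HasSum.map h φ (AddMonoidHomClass.isometry_of_norm φ hφ).continuous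
  rw [HS]
  convert this using 2 with i
  simp [carlitzD]

theorem HS.exp [CompleteSpace C] (hθ : 1 < ‖θ‖) (u : C) :
    HS F θ u (carlitzExp (qq F) θ u) := by
  refine (NonarchimedeanAddGroup.summable_of_tendsto_cofinite_zero ?_).hasSum
  rw [Nat.cofinite_eq_atTop]
  exact tendsto_term _ two_le_qq θ hθ u

end

end Pool.Agent.MP_ee2255_nt.T
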