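import Pool.Agent.MP_ee2255_nt.TDefs

/-! Simultaneous approximation over `F[X]`. -/

namespace Pool.Agent.MP_ee2255_nt.T

open Polynomial Filter Topology Pool.Agent.MP_655169_nt

theorem dirichlet {F : Type*} [Field F] {r : ℕ} (c : Fin r → F[X]) (j1 : Fin r) (h0 : c j1 ≠ 0)
    (hc : ∀ j, (c j).natDegree ≤ (c j1).natDegree) (ρ : ℕ) (hρ : ρ ≤ (c j1).natDegree) :
    ∃ w : (Fin (ρ + 1) → F) →ₗ[F] (Fin r → F[X]), Function.Injective w ∧ ∀ a j,
      (w a j).natDegree ≤ r * ρ ∧
        (c j1 * w a j - w a j1 * c j).natDegree + ρ ≤ (c j1).natDegree := by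
  classical
  have _ := h0
  let P : (Fin r → Fin (r * ρ + 1) → F) →ₗ[F] (Fin r → F[X]) :=
    LinearMap.pi fun j => (ofFn (r * ρ + 1)).comp (LinearMap.proj j)
  have hP : ∀ a j, (P a j).natDegree ≤ r * ρ := fun a j =>
    Nat.lt_succ_iff.1 (ofFn_natDegree_lt (Nat.le_add_left _ _) (a j))
  let L : (Fin r → F[X]) →ₗ[F] ({j // j ≠ j1} → Fin ((r + 1) * ρ) → F) :=
    LinearMap.pi fun j => LinearMap.pi fun k => (lcoeff F ((c j1).natDegree - ρ + 1 + k)).comp
      ((LinearMap.mulLeft F (c j1)).comp (LinearMap.proj j.1) -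
        (LinearMap.mulRight F (c j.1)).comp (LinearMap.proj j1))
  have h₁ := LinearMap.finrank_range_add_finrank_ker (L.comp P)
  have h₂ := Submodule.finrank_le (LinearMap.range (L.comp P))
  obtain ⟨m, rfl⟩ : ∃ m, r = m + 1 := ⟨r - 1, by have := j1.pos; omega⟩
  simp only [Module.finrank_pi_fintype, Module.finrank_self, Finset.sum_const, Finset.card_univ,
    Fintype.card_fin, smul_eq_mul, mul_one, Fintype.card_subtype_compl, Fintype.card_unique,
    Nat.add_sub_cancel] at h₁ h₂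
  obtain ⟨f, hf⟩ := (finrank_le_iff_exists_linearMap (R := F) (M := Fin (ρ + 1) → F)
    (M' := LinearMap.ker (L.comp P))).1 (by
      rw [Module.finrank_fin_fun]
      nlinarith)
  refine ⟨P.comp ((Submodule.subtype _).comp f), fun a b e => hf (Subtype.ext (funext fun j =>
    injective_ofFn _ (congrFun e j))), fun a j => ⟨hP _ j, ?_⟩⟩
  by_cases hj : j = j1
  · rw [hj, mul_comm, sub_self, natDegree_zero, zero_add]
    exact hρ
  refine (Nat.le_sub_iff_add_le hρ).1 (natDegree_le_iff_coeff_eq_zero.2 fun N hN => ?_)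
  by_cases hN' : N - ((c j1).natDegree - ρ + 1) < (m + 1 + 1) * ρ
  · have := congrFun (congrFun (f a).2 ⟨j, hj⟩) ⟨_, hN'⟩
    refine Eq.trans ?_ this
    conv_lhs => rw [← Nat.add_sub_cancel' (Nat.succ_le_of_lt hN)]
    rfl
  · refine coeff_eq_zero_of_natDegree_lt ((natDegree_sub_le _ _).trans_lt (max_lt ?_ ?_))
    · refine natDegree_mul_le.trans_lt ((Nat.add_le_add_left (hP _ j) _).trans_lt ?_)
      rw [add_mul (m + 1), one_mul] at hN'
      omega
    · refine natDegree_mul_le.trans_lt ((Nat.add_le_add (hP _ j1) (hc j)).trans_lt ?_)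
      rw [add_mul (m + 1), one_mul] at hN'
      omega

/-- More vectors than coordinates satisfy a short relation. -/
theorem short_rel {F ι : Type*} [Field F] [Fintype ι] {s n : ℕ} (hs : Fintype.card ι < s)
    (c : Fin s → ι → F[X]) (hc : ∀ i j, (c i j).natDegree ≤ n) :
    ∃ g : Fin s → F[X], g ≠ 0 ∧ (∀ i, (g i).natDegree ≤ Fintype.card ι * n) ∧
      ∀ j, ∑ i, g i * c i j = 0 := by
  classical
  let K := Fintype.card ι * n
  let L : (Fin s → Fin (K + 1) → F) →ₗ[F] (ι → Fin (K + n + 1) → F) :=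
    LinearMap.pi fun j => (toFn (K + n + 1)).comp (∑ i, (LinearMap.mulRight F (c i j)).comp
      ((ofFn (K + 1)).comp (LinearMap.proj i)))
  obtain ⟨a, h₁, h₂⟩ := (Submodule.ne_bot_iff _).1 (LinearMap.ker_ne_bot_of_finrank_lt (f := L) (by
    simp only [Module.finrank_pi_fintype, Module.finrank_self, Finset.sum_const, Finset.card_univ,
      Fintype.card_fin, smul_eq_mul, mul_one]
    have := Nat.mul_le_mul_right (K + 1) (Nat.succ_le_of_lt hs)
    simp only [K] at this ⊢
    nlinarith))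
  have hP : ∀ i, (ofFn (K + 1) (a i)).natDegree ≤ K := fun i =>
    Nat.lt_succ_iff.1 (ofFn_natDegree_lt (Nat.le_add_left _ _) (a i))
  refine ⟨fun i => ofFn (K + 1) (a i), fun e => h₂ (funext fun i => injective_ofFn _
    ((congrFun e i).trans (map_zero _).symm)), hP, fun j => ?_⟩
  have h₃ : toFn (K + n + 1) (∑ i, ofFn (K + 1) (a i) * c i j) = 0 := by
    simpa [L, LinearMap.sum_apply] using congrFun h₁ j
  rw [← ofFn_comp_toFn_eq_id_of_natDegree_lt (n := K + n + 1) (Nat.lt_succ_of_le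
    (natDegree_sum_le_of_forall_le _ _ fun i _ =>
      natDegree_mul_le.trans (Nat.add_le_add (hP i) (hc i j)))), h₃, map_zero]

end Pool.Agent.MP_ee2255_nt.T
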