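import Pool.Agent.MP_ee2255_nt.TAsy2
import Pool.Agent.MP_ee2255_nt.TCarl
import Pool.Agent.MP_ee2255_nt.TMa1
import Pool.Agent.MP_655169_nt.Norm

/-! Choice of a good basis of short forms. -/

namespace Pool.Agent.MP_ee2255_nt.T

open Polynomial Filter Topology Pool.Agent.MP_655169_nt

variable {F C : Type*} [Field F] [Fintype F] [NormedField C] [IsUltrametricDist C] [Algebra F C]
  {θ : C} (hθ : 1 < ‖θ‖)
include hθ

theorem TLev_norm_le {g : F[X]} {K : ℕ} (hg : g.natDegree ≤ K) : ‖aeval θ g‖ ≤ ‖θ‖ ^ K := by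
  by_cases h : g = 0
  · rw [h, map_zero, norm_zero]
    positivity
  · rw [norm_poly θ hθ g h]
    exact pow_le_pow_right₀ hθ.le hg

theorem TLev_one_le {g : F[X]} (hg : g ≠ 0) : 1 ≤ ‖aeval θ g‖ := by
  rw [norm_poly θ hθ g hg]
  exact one_le_pow₀ hθ.le

/-- The first member of a relation is bounded by the later ones. -/
theorem TLev_first {s K : ℕ} (g : Fin s → F[X]) (b : Fin s → C) (i0 : Fin s) (h0 : g i0 ≠ 0)
    (h1 : ∀ i, i < i0 → g i = 0) (hg : ∀ i, (g i).natDegree ≤ K) (h : lin θ g b = 0) :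
    ‖b i0‖ ≤ (∑ i ∈ Finset.univ.erase i0, if i0 < i then ‖b i‖ else 0) * ‖θ‖ ^ K := by
  unfold lin at h
  rw [← Finset.add_sum_erase _ _ (Finset.mem_univ i0), add_eq_zero_iff_eq_neg] at h
  calc ‖b i0‖ ≤ ‖aeval θ (g i0) * b i0‖ := by
        rw [norm_mul]
        exact le_mul_of_one_le_left (norm_nonneg _) (TLev_one_le hθ h0)
    _ = ‖∑ i ∈ Finset.univ.erase i0, aeval θ (g i) * b i‖ := by rw [h, norm_neg]
    _ ≤ ∑ i ∈ Finset.univ.erase i0, ‖aeval θ (g i) * b i‖ := norm_sum_le _ _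
    _ ≤ _ := by
        rw [Finset.sum_mul]
        refine Finset.sum_le_sum fun i hi => ?_
        split_ifs with h2
        · rw [norm_mul, mul_comm]
          exact mul_le_mul_of_nonneg_left (TLev_norm_le hθ (hg i)) (norm_nonneg _)
        · rw [h1 i (lt_of_le_of_ne (not_lt.1 h2) (Finset.mem_erase.1 hi).1)]
          simp

theorem maxlev {ι : Type*} [Fintype ι] [Nonempty ι] (x : ι → C)
    (hx : ∀ c : ι → F[X], lin θ c x = 0 → c = 0) :
    ∃ (c : ℕ → ι → F[X]) (n : ℕ → ℕ), Lin n ∧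
      (∀ᶠ ℓ in UU, c ℓ ≠ 0 ∧ ∀ j, (c ℓ j).natDegree ≤ n ℓ) ∧
      HL F θ (lev fun ℓ => lin θ (c ℓ) x) fun _ => x := by
  classical
  by_contra hcon
  let S := {p : (ℕ → ι → F[X]) × (ℕ → ℕ) // Lin p.2 ∧
    ∀ᶠ ℓ in UU, p.1 ℓ ≠ 0 ∧ ∀ j, (p.1 ℓ j).natDegree ≤ p.2 ℓ}
  let b : S → ℕ → C := fun p ℓ => lin θ (p.1.1 ℓ) x
  have hb : ∀ p : S, ∀ᶠ ℓ in UU, b p ℓ ≠ 0 := fun p =>
    p.2.2.mono fun ℓ h h' => h.1 (hx _ h')
  have hstep : ∀ p : S, ∃ p' : S, Sm (lev (b p)) fun ℓ => ‖b p' ℓ‖ := by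
    intro p
    by_contra h
    refine hcon ⟨p.1.1, p.1.2, p.2.1, p.2.2, fun c n hn hc => ?_⟩
    by_contra h'
    exact h ⟨⟨(c, n), hn, hc⟩, not_low.1 h'⟩
  choose f hf using hstep
  let p0 : S := ⟨(fun _ _ => 1, fun _ => 0), Lin.const 0, Eventually.of_forall fun ℓ =>
    ⟨fun h => one_ne_zero (congrFun h (Classical.arbitrary ι)), fun j => by simp⟩⟩
  let q : ℕ → S := fun k => f^[k] p0
  have hq : ∀ k, q (k + 1) = f (q k) := fun k => Function.iterate_succ_apply' f k p0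
  have hsm : ∀ i j, i + 1 ≤ j → Sm (lev (b (q i))) fun ℓ => ‖b (q j) ℓ‖ := by
    intro i j hij
    induction j, hij using Nat.le_induction with
    | base => rw [hq]; exact hf _
    | succ j _ ih =>
      rw [hq]
      exact Sm.level (Sm.le_lev (hb _) (one_le_lev _) ih) (hf _)
  let n : ℕ → ℕ := fun ℓ => ∑ i : Fin (Fintype.card ι + 1), (q i).1.2 ℓ
  have hn : Lin n := Lin.sum _ fun i _ => (q i).2.1
  have hdeg : ∀ᶠ ℓ in UU, ∀ (i : Fin (Fintype.card ι + 1)) j, ((q i).1.1 ℓ j).natDegree ≤ n ℓ :=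
    eventually_all.2 fun i => (q i).2.2.mono fun ℓ h j => (h.2 j).trans
      (Finset.single_le_sum (f := fun i : Fin (Fintype.card ι + 1) => (q i).1.2 ℓ)
        (fun _ _ => Nat.zero_le _) (Finset.mem_univ i))
  have hex : ∀ᶠ ℓ in UU, ∃ i0 : Fin (Fintype.card ι + 1), ‖b (q i0) ℓ‖ ≤
      (∑ i ∈ Finset.univ.erase i0, if i0 < i then ‖b (q i) ℓ‖ else 0) *
        ‖θ‖ ^ (Fintype.card ι * n ℓ) := by
    filter_upwards [hdeg] with ℓ h
    obtain ⟨g, hg0, hg, hs⟩ := short_rel (Nat.lt_succ_self _)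
      (fun i : Fin (Fintype.card ι + 1) => (q i).1.1 ℓ) h
    obtain ⟨i0, hi0, hmin⟩ := (wellFounded_lt (α := Fin (Fintype.card ι + 1))).has_min
      {i | g i ≠ 0} (Function.ne_iff.1 hg0)
    refine ⟨i0, TLev_first hθ g (fun i => b (q i) ℓ) i0 hi0
      (fun i hi => not_not.1 fun h' => hmin i h' hi) hg ?_⟩
    rw [lin_lin]
    simp only [hs]
    simp [lin]
  obtain ⟨i0, hi0⟩ := ev_fin hex
  refine Sm.not_low (Sm.mono hi0 (Sm.mul_big (one_le_lev _)
    (Sm.sum (one_le_lev _) _ fun i _ => ?_)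
    (Big.pow (one_le_lev _) (Big.const (one_le_lev _) ‖θ‖)
      (Eventually.of_forall fun _ => norm_nonneg _) (Lin.mul _ hn).pol)
    (Eventually.of_forall fun _ => by positivity))) (low_lev (hb (q i0)))
  split_ifs with h
  · exact hsm _ _ h
  · exact Sm.zero

theorem TLev_last {n : ℕ} (x : Fin (n + 1) → C) (h1 : 1 ≤ ‖x (Fin.last n)‖)
    (c : Fin (n + 1) → F[X]) (h0 : c ≠ 0) (hc : ∀ j, j ≠ Fin.last n → c j = 0) :
    1 ≤ ‖lin θ c x‖ := by
  have h2 : c (Fin.last n) ≠ 0 := fun h => h0 (funext fun j => by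
    by_cases hj : j = Fin.last n
    · rw [hj, h]; rfl
    · exact hc j hj)
  unfold lin
  rw [Finset.sum_eq_single (Fin.last n) (fun j _ hj => by rw [hc j hj]; simp) (by simp), norm_mul]
  exact one_le_mul_of_one_le_of_one_le (TLev_one_le hθ h2) h1

theorem TLev_pick {n : ℕ} (x : Fin (n + 2) → C)
    (hx : ∀ c : Fin (n + 2) → F[X], lin θ c x = 0 → c = 0) (h1 : 1 ≤ ‖x (Fin.last (n + 1))‖) :
    ∃ (c : ℕ → Fin (n + 2) → F[X]) (m : ℕ → ℕ) (j : Fin (n + 2)), j ≠ Fin.last (n + 1) ∧ Lin m ∧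
      (∀ᶠ ℓ in UU, c ℓ j ≠ 0 ∧ ∀ i, (c ℓ i).natDegree ≤ m ℓ) ∧
      HL F θ (lev fun ℓ => lin θ (c ℓ) x) fun _ => x := by
  obtain ⟨c, m, hm, hc, hH⟩ := maxlev hθ x hx
  by_cases h : ∀ᶠ ℓ in UU, ∃ j, j ≠ Fin.last (n + 1) ∧ c ℓ j ≠ 0
  · obtain ⟨j, hj⟩ := ev_fin h
    exact ⟨c, m, j, ev_false (hj.mono fun _ h => h.1), hm,
      (hj.and hc).mono fun _ h => ⟨h.1.2, h.2.2⟩, hH⟩
  · refine ⟨fun _ _ => 1, fun _ => 0, 0, (Fin.last_pos' ).ne, Lin.const 0,
      Eventually.of_forall fun _ => ⟨one_ne_zero, fun _ => by simp⟩, fun d p hp hd =>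
        Low.level ?_ (hH d p hp hd)⟩
    filter_upwards [ev_not.1 h, hc] with ℓ h2 h3
    have h4 := TLev_last hθ x h1 (c ℓ) h3.1 fun j hj => not_not.1 fun h' => h2 ⟨j, hj, h'⟩
    refine le_trans (max_le le_rfl ?_) (one_le_lev _ ℓ)
    have := Real.log_nonneg h4
    linarith

omit hθ [Fintype F] [IsUltrametricDist C] in
theorem TLev_ins {n : ℕ} (x : Fin (n + 1) → C) (j : Fin (n + 1)) (d : Fin n → F[X]) :
    lin θ (Fin.insertNth j 0 d : Fin (n + 1) → F[X]) x = lin θ d fun i => x (j.succAbove i) := by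
  unfold lin
  rw [Fin.sum_univ_succAbove _ j]
  simp

theorem ls (n : ℕ) : ∀ x : Fin (n + 1) → C, (∀ c : Fin (n + 1) → F[X], lin θ c x = 0 → c = 0) →
    1 ≤ ‖x (Fin.last n)‖ →
    ∃ (A : ℕ → Fin (n + 1) → Fin (n + 1) → F[X]) (N : ℕ → ℕ), Lin N ∧
      (∀ᶠ ℓ in UU, (∀ j i, (A ℓ j i).natDegree ≤ N ℓ) ∧
        (∀ c : Fin (n + 1) → F[X], (∀ i, ∑ j, c j * A ℓ j i = 0) → c = 0) ∧
        lin θ (A ℓ (Fin.last n)) x = x (Fin.last n)) ∧
      Good F θ (n + 1) fun ℓ j => lin θ (A ℓ j) x := by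
  induction n with
  | zero =>
    intro x _ h1
    have e : lin θ (fun _ => (1 : F[X])) x = x (Fin.last 0) := by simp [lin]
    refine ⟨fun _ _ _ => 1, fun _ => 0, Lin.const 0, Eventually.of_forall fun ℓ =>
      ⟨fun _ _ => by simp, fun c hc => funext fun j => ?_, e⟩, fun d p _ hd => ?_, trivial⟩
    · have := hc 0
      rw [Subsingleton.elim (α := Fin 1) j 0]
      simpa using this
    · refine Low.mono (hd.mono fun ℓ h => ?_) (Low.const (one_le_lev _) one_pos)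
      exact TLev_last hθ _ (h1.trans_eq (congrArg norm e.symm)) _ h.1 fun j hj =>
        absurd (Subsingleton.elim (α := Fin 1) j _) hj
  | succ n ih =>
    intro x hx h1
    obtain ⟨c, m, j, hj, hm, hc, hH⟩ := TLev_pick hθ x hx h1
    obtain ⟨A, N, hN, hA, hG⟩ := ih (fun i => x (j.succAbove i)) (fun d hd => by
      have h := hx (Fin.insertNth j 0 d) (by rw [TLev_ins]; exact hd)
      funext i
      simpa using congrFun h (j.succAbove i)) (by
        simpa only [Fin.succAbove_ne_last_last hj] using h1)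
    let B : ℕ → Fin (n + 2) → Fin (n + 2) → F[X] := fun ℓ =>
      Fin.cons (c ℓ) fun k => Fin.insertNth j 0 (A ℓ k)
    have hB : ∀ᶠ ℓ in UU, (∀ k i, (B ℓ k i).natDegree ≤ m ℓ + N ℓ) ∧
        (∀ d : Fin (n + 2) → F[X], (∀ i, ∑ k, d k * B ℓ k i = 0) → d = 0) ∧
        lin θ (B ℓ (Fin.last (n + 1))) x = x (Fin.last (n + 1)) := by
      filter_upwards [hc, hA] with ℓ h2 h3
      refine ⟨fun k i => ?_, fun d hd => ?_, ?_⟩
      · refine Fin.cases ?_ (fun k => ?_) k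
        · exact (h2.2 i).trans (Nat.le_add_right _ _)
        · simp only [B, Fin.cons_succ]
          refine Fin.succAboveCases j ?_ (fun i => ?_) i
          · simp
          · rw [Fin.insertNth_apply_succAbove]
            exact (h3.1 k i).trans (Nat.le_add_left _ _)
      · have h4 : d 0 = 0 := by
          have := hd j
          rw [Fin.sum_univ_succ] at this
          simpa [B, h2.1] using this
        have h5 := h3.2.1 (fun k => d k.succ) fun i => by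
          have := hd (j.succAbove i)
          rw [Fin.sum_univ_succ] at this
          simpa [B, h4] using this
        funext k
        refine Fin.cases h4 (fun k => congrFun h5 k) k
      · rw [← Fin.succ_last]
        simp only [B, Fin.cons_succ]
        rw [TLev_ins, h3.2.2, Fin.succAbove_ne_last_last hj, Fin.succ_last]
    refine ⟨B, fun ℓ => m ℓ + N ℓ, hm.add hN, hB, fun d p hp hd => ?_, ?_⟩
    · simp only [lin_lin]
      refine hH (fun ℓ i => ∑ k, d ℓ k * B ℓ k i) (fun ℓ => p ℓ + (m ℓ + N ℓ))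
        (hp.add (hm.add hN)) ?_
      filter_upwards [hd, hB] with ℓ h2 h3
      exact ⟨fun h => h2.1 (h3.2.1 _ fun i => congrFun h i), fun i =>
        natDegree_sum_le_of_forall_le _ _ fun k _ =>
          natDegree_mul_le.trans (Nat.add_le_add (h2.2 k) (h3.1 k i))⟩
    · convert hG using 3 with ℓ k
      simp only [Fin.tail, B, Fin.cons_succ]
      rw [TLev_ins]

end Pool.Agent.MP_ee2255_nt.T
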