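import Pool.Agent.MP_ee2255_nt.TMC
import Pool.Agent.MP_ee2255_nt.TLev

/-! The dimension bound. -/

namespace Pool.Agent.MP_ee2255_nt.T

open Polynomial Filter Topology Pool.Agent.MP_655169_nt

theorem TCor1_num {c d r q N0 s δ : ℕ} (hq : 2 ≤ q) (hd : d ≤ r) (hδ : δ ≤ 2 ^ (N0 * s))
    (hs : c * (d + r + 2) ^ d < q ^ s) :
    c * ((d + r + 1) * q ^ ((d * (N0 + 1) + 1) * s) * q ^ ((d * (N0 + 1) + 2) * s) * δ + 1) ^ d <
      (q ^ ((d * (N0 + 1) + 1) * s) + 1) ^ (d + r + 1) := by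
  set N1 := d * (N0 + 1) + 1 with hN1
  have hq0 : 0 < q := by omega
  have h1 : δ ≤ q ^ (N0 * s) := hδ.trans (Nat.pow_le_pow_left hq _)
  have h2 : (d + r + 1) * q ^ (N1 * s) * q ^ ((d * (N0 + 1) + 2) * s) * δ + 1 ≤
      (d + r + 2) * q ^ ((2 * N1 + 1 + N0) * s) := by
    have e : q ^ ((2 * N1 + 1 + N0) * s) =
        q ^ (N1 * s) * q ^ ((d * (N0 + 1) + 2) * s) * q ^ (N0 * s) := by
      rw [← pow_add, ← pow_add]
      congr 1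
      rw [hN1]; ring
    have h3 : 1 ≤ q ^ ((2 * N1 + 1 + N0) * s) := Nat.pow_pos hq0
    have h4 : (d + r + 1) * q ^ (N1 * s) * q ^ ((d * (N0 + 1) + 2) * s) * δ ≤
        (d + r + 1) * q ^ ((2 * N1 + 1 + N0) * s) := by
      rw [e, ← mul_assoc, ← mul_assoc]
      exact Nat.mul_le_mul_left _ h1
    calc _ ≤ (d + r + 1) * q ^ ((2 * N1 + 1 + N0) * s) + q ^ ((2 * N1 + 1 + N0) * s) :=
          add_le_add h4 h3
      _ = _ := by ring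
  calc _ ≤ c * ((d + r + 2) * q ^ ((2 * N1 + 1 + N0) * s)) ^ d :=
        Nat.mul_le_mul_left _ (Nat.pow_le_pow_left h2 _)
    _ = c * (d + r + 2) ^ d * q ^ ((2 * N1 + 1 + N0) * s * d) := by
        rw [mul_pow, ← pow_mul, mul_assoc c]
    _ < q ^ s * q ^ ((2 * N1 + 1 + N0) * s * d) :=
        Nat.mul_lt_mul_of_pos_right hs (Nat.pow_pos hq0)
    _ = (q ^ (N1 * s)) ^ (2 * d + 1) := by
        rw [← pow_add, ← pow_mul]
        congr 1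
        rw [hN1]; ring
    _ ≤ (q ^ (N1 * s)) ^ (d + r + 1) := Nat.pow_le_pow_right (Nat.pow_pos hq0) (by omega)
    _ ≤ _ := Nat.pow_le_pow_left (Nat.le_succ _) _

variable {F E C Ω : Type*} [Field F] [Fintype F] [Field E] [Infinite E] [NormedField C]
  [IsUltrametricDist C] [IsAlgClosed C] [Algebra F C] [Algebra E C] [Algebra F E]
  [IsScalarTower F E C] [NormedField Ω] [IsUltrametricDist Ω] [IsAlgClosed Ω]
  [Algebra C Ω] [Algebra F Ω] [IsScalarTower F C Ω] (X : Ctx F E C Ω)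

theorem ctx_bound {n : ℕ} (x y : Fin (n + 1) → C) (hm : ∀ j, x j ∈ Vs F X.ω 1 ∧ y j ∈ Vs F X.ω 1)
    (hs : ∀ j, HS F X.Z.θ (x j) (y j)) (hl : x (Fin.last n) = X.per)
    (hx : ∀ c : Fin (n + 1) → F[X], lin X.Z.θ c x = 0 → c = 0) : n + 2 ≤ X.d := by
  by_contra hd
  have hd' : X.d ≤ n + 1 := by omega
  have hq := two_le_qq (F := F)
  have hθ1 := X.Z.hθ
  have hθ : X.Z.θ ∈ Vs F X.ω 1 := X.hθ ▸ Vs_var X.ω X.iθ
  have hper : 1 ≤ ‖x (Fin.last n)‖ := by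
    rw [hl, X.nπ]
    exact one_le_mul_of_one_le_of_one_le hθ1.le (zeta_norm hθ1 X.hζ).1.le
  obtain ⟨A, N, hN, hA, hG⟩ := ls hθ1 n x hx hper
  have hagf : ∀ ℓ j, ∃ f, X.Z.Agf (lin X.Z.θ (A ℓ j) x) (∑ i, carl X.Z.θ (A ℓ j i) (y i)) f :=
    fun ℓ j => X.Z.exists_agf _ _ (HS.lin hθ1 hs (A ℓ j))
  choose f hf using hagf
  obtain ⟨K, hK⟩ : ∃ K : ℕ, ∀ j, ‖x j‖ ≤ ‖X.Z.θ‖ ^ K := by
    obtain ⟨K, hK⟩ := pow_unbounded_of_one_lt (∑ j, ‖x j‖) hθ1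
    exact ⟨K, fun j => (Finset.single_le_sum (f := fun j => ‖x j‖) (fun _ _ => norm_nonneg _)
      (Finset.mem_univ j)).trans hK.le⟩
  have hδ0 : Pol fun ℓ => N ℓ + 1 + qq F ^ N ℓ :=
    ((hN.add (Lin.const 1)).pol).add (hN.pow_pol (qq F))
  have hdeg : ∀ᶠ ℓ in UU, ∀ j, lin X.Z.θ (A ℓ j) x ∈ Vs F X.ω (N ℓ + 1 + qq F ^ N ℓ) ∧
      ∑ i, carl X.Z.θ (A ℓ j i) (y i) ∈ Vs F X.ω (N ℓ + 1 + qq F ^ N ℓ) := by
    filter_upwards [hA] with ℓ h j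
    refine ⟨Vs_mono _ (Nat.le_add_right _ _) (lin_Vs _ X.ω hθ (h.1 j) fun i => (hm i).1),
      Submodule.sum_mem _ fun i _ => Vs_mono _ ?_ (carl_Vs _ X.ω hθ le_rfl (h.1 j i) (hm i).2)⟩
    omega
  have hF : Fam X (fun ℓ j => lin X.Z.θ (A ℓ j) x)
      (fun ℓ j => ∑ i, carl X.Z.θ (A ℓ j i) (y i)) f := by
    refine ⟨Eventually.of_forall hf, ⟨_, hδ0, hdeg⟩, ⟨_, hN.add (Lin.const K), ?_⟩, ?_⟩
    · filter_upwards [hA] with ℓ h j
      rw [pow_add]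
      exact lin_norm hθ1 (h.1 j) (by positivity) hK
    · filter_upwards [hA] with ℓ h j hj
      have : j = Fin.last n := Fin.ext (by rw [Fin.val_last]; omega)
      rw [this, h.2.2, hl]
  obtain ⟨N0, hN0⟩ := hδ0
  have hrk : Rk F X.ω X.d := by
    obtain ⟨e, he⟩ := X.rk
    exact ⟨e, he.restrictScalars (algebraMap F E).injective⟩
  have hbig : ∀ᶠ ℓ in UU, X.c0 * (X.d + (n + 1) + 2) ^ X.d < qq F ^ (ℓ + 1) := by
    filter_upwards [(Lin.const (X.c0 * (X.d + (n + 1) + 2) ^ X.d)).lt_pow 1 one_pos hq] with ℓ h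
    rw [one_mul, one_mul] at h
    exact_mod_cast h
  have hk1 : ∀ ℓ, (X.d * (N0 + 1) + 2) * (ℓ + 1) - 1 + 1 = (X.d * (N0 + 1) + 2) * (ℓ + 1) :=
    fun ℓ => Nat.sub_add_cancel (Nat.mul_pos (by omega) (by omega))
  have hP : ∀ᶠ ℓ in UU, ∃ P : MvPolynomial (Fin (n + 1)) C[X], P ≠ 0 ∧
      P.totalDegree ≤ (n + 1) * qq F ^ ((X.d * (N0 + 1) + 1) * (ℓ + 1)) ∧
      (∀ e, (P.coeff e).natDegree ≤ qq F ^ ((X.d * (N0 + 1) + 1) * (ℓ + 1)) ∧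
        ∀ j, (P.coeff e).coeff j ∈ Vs F X.ω (X.d * qq F ^ ((X.d * (N0 + 1) + 1) * (ℓ + 1)))) ∧
      X.Z.VV (fun j => lin X.Z.θ (A ℓ j) x) (fun j => ∑ i, carl X.Z.θ (A ℓ j i) (y i))
        ((X.d * (N0 + 1) + 2) * (ℓ + 1) - 1) P = 0 := by
    filter_upwards [hdeg, hN0, hbig] with ℓ h1 h2 h3
    refine count X.Z X.ω X.growF hrk hθ _ _ (by omega) h1 ?_
    rw [hk1]
    exact TCor1_num hq hd' h2 h3
  obtain ⟨P, hP⟩ := ev_choose hP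
  have hD0 : Pol fun ℓ => qq F ^ ((X.d * (N0 + 1) + 1) * (ℓ + 1)) :=
    (Lin.id (X.d * (N0 + 1) + 1)).pow_pol (qq F)
  have key := mc X (fun ℓ => (n + 2) * qq F ^ ((X.d * (N0 + 1) + 1) * (ℓ + 1)))
    (fun ℓ => (X.d * (N0 + 1) + 2) * (ℓ + 1) - 1) ((Pol.const _).mul hD0) (by
      intro T hT
      filter_upwards [hT.lt_pow ((n + 2) * Real.log ‖X.Z.θ‖) X.hη hq] with ℓ h
      rw [hk1, ← Real.exp_log (one_pos.trans hθ1), ← Real.exp_nat_mul, Real.exp_lt_exp]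
      have e : qq F ^ ((X.d * (N0 + 1) + 2) * (ℓ + 1)) =
          qq F ^ ((X.d * (N0 + 1) + 1) * (ℓ + 1)) * qq F ^ (ℓ + 1) := by
        rw [← pow_add]
        congr 1
        ring
      rw [e]
      have h0 : (0 : ℝ) < (qq F : ℝ) ^ ((X.d * (N0 + 1) + 1) * (ℓ + 1)) := by
        have : (0 : ℝ) < qq F := by exact_mod_cast (by omega : 0 < qq F)
        positivity
      have := mul_lt_mul_of_pos_left h h0
      push_cast
      linarith) (n + 1) _ _ f hF hG P _ (fun _ => 1) ((Pol.const X.d).mul hD0) (Lin.const 1) (by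
      filter_upwards [hP] with ℓ h
      refine ⟨h.1, h.2.1.trans (Nat.mul_le_mul_right _ (by omega)), fun e =>
        ⟨(h.2.2.1 e).1.trans ?_, (h.2.2.1 e).2⟩⟩
      rw [mul_one]
      exact Nat.le_mul_of_pos_left _ (by omega))
  refine ev_false (p := False) ?_
  filter_upwards [key, hP] with ℓ h1 h2
  have h3 := h1.2
  rw [h2.2.2.2, norm_zero] at h3
  exact absurd h3 (not_le.2 (pow_pos (norm_pos_iff.2 h1.1) _))

end Pool.Agent.MP_ee2255_nt.T
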