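import Pool.Agent.MP_ee2255_nt.TDefs
import Pool.Agent.MP_655169_nt.Amb2
import Pool.Agent.MP_655169_nt.Amb3

/-! Completion at a discrete valuation. -/

namespace Pool.Agent.MP_ee2255_nt.T

open Polynomial Filter Topology Pool.Agent.MP_655169_nt

universe u

/-- Discreteness of the norm passes to the completion. -/
theorem xnrmc_compl {K : Type u} [NormedField K] [IsUltrametricDist K]
    (h : ∀ x : K, x ≠ 0 → ∃ n : ℤ, ‖x‖ = 2 ^ n) :
    Gap (⊤ : Subfield (UniformSpace.Completion K)) (Real.log 2) := by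
  have := amb2_ultra (K := K)
  have key : ∀ z : UniformSpace.Completion K, z ≠ 0 → ∃ n : ℤ, ‖z‖ = 2 ^ n := by
    intro z hz
    obtain ⟨a, ha⟩ := Metric.denseRange_iff.1 (UniformSpace.Completion.denseRange_coe (α := K))
      z ‖z‖ (norm_pos_iff.2 hz)
    rw [dist_eq_norm] at ha
    have e : ‖z‖ = ‖a‖ := by
      have h1 := IsUltrametricDist.norm_add_eq_max_of_norm_ne_norm
        (x := z) (y := -(z - a)) (by rw [norm_neg]; exact ha.ne')
      rw [norm_neg, max_eq_left ha.le, neg_sub, add_sub_cancel,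
        UniformSpace.Completion.norm_coe] at h1
      exact h1.symm
    rw [e]
    exact h a (norm_pos_iff.1 (e ▸ norm_pos_iff.2 hz))
  intro y _ z _ hyz
  rw [Real.exp_neg, Real.exp_log two_pos]
  rcases eq_or_ne y 0 with rfl | hy
  · rw [norm_zero]; positivity
  obtain ⟨a, ha⟩ := key y hy
  obtain ⟨b, hb⟩ := key z (norm_pos_iff.1 ((norm_nonneg y).trans_lt hyz))
  rw [ha, hb] at hyz ⊢
  have hab : a ≤ b - 1 := by
    have := (zpow_lt_zpow_iff_right₀ (one_lt_two (α := ℝ))).1 hyz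
    omega
  calc (2 : ℝ) ^ a ≤ 2 ^ (b - 1) := zpow_le_zpow_right₀ one_le_two hab
    _ = _ := by rw [zpow_sub_one₀ two_ne_zero, mul_comm]

theorem exists_compl {K : Type u} [Field K] (v : Valuation K (WithZero (Multiplicative ℤ))) :
    ∃ (L : Type u) (_ : NormedField L) (_ : IsUltrametricDist L) (_ : CompleteSpace L)
      (φ : K →+* L) (η : ℝ), 0 < η ∧ Gap (⊤ : Subfield L) η ∧
        ∀ x, (v x ≤ 1 → ‖φ x‖ ≤ 1) ∧ (v x < 1 → ‖φ x‖ < 1) := by
  have h2 : (2 : NNReal) ≠ 0 := two_ne_zero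
  have hm := WithZeroMulInt.toNNReal_strictMono (e := 2) one_lt_two
  have hna : ∀ x y : K, (WithZeroMulInt.toNNReal h2 (v (x + y)) : ℝ) ≤
      max (WithZeroMulInt.toNNReal h2 (v x) : ℝ) (WithZeroMulInt.toNNReal h2 (v y) : ℝ) := by
    intro x y
    rcases le_max_iff.1 (v.map_add x y) with h | h
    · exact le_max_of_le_left (NNReal.coe_le_coe.2 (hm.monotone h))
    · exact le_max_of_le_right (NNReal.coe_le_coe.2 (hm.monotone h))
  let f : AbsoluteValue K ℝ :=
    { toFun := fun x => WithZeroMulInt.toNNReal h2 (v x)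
      map_mul' := fun x y => by simp
      nonneg' := fun x => NNReal.coe_nonneg _
      eq_zero' := fun x => by simp
      add_le' := fun x y => (hna x y).trans (max_le
        (le_add_of_nonneg_right (NNReal.coe_nonneg _))
        (le_add_of_nonneg_left (NNReal.coe_nonneg _))) }
  let _ : NormedField K := f.toNormedField
  have hn : ∀ x : K, ‖x‖ = WithZeroMulInt.toNNReal h2 (v x) := fun _ => rfl
  have : IsUltrametricDist K := IsUltrametricDist.isUltrametricDist_of_isNonarchimedean_norm hna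
  refine ⟨UniformSpace.Completion K, inferInstance, amb2_ultra, inferInstance,
    UniformSpace.Completion.coeRingHom, Real.log 2, Real.log_pos one_lt_two,
    xnrmc_compl fun x hx => ?_, fun x => ?_⟩
  · rw [hn, WithZeroMulInt.toNNReal_neg_apply h2 (v.ne_zero_iff.2 hx)]
    exact ⟨_, by push_cast; rfl⟩
  · change (_ → ‖(x : UniformSpace.Completion K)‖ ≤ 1) ∧
      (_ → ‖(x : UniformSpace.Completion K)‖ < 1)
    rw [UniformSpace.Completion.norm_coe, hn]
    exact ⟨fun h => by exact_mod_cast (WithZeroMulInt.toNNReal_le_one_iff one_lt_two).2 h,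
      fun h => by exact_mod_cast (WithZeroMulInt.toNNReal_lt_one_iff one_lt_two).2 h⟩

theorem xnrmc_closed {K : Type u} [NormedField K] [IsUltrametricDist K] [CompleteSpace K]
    (θ : K) (hθ : 1 < ‖θ‖) :
    ∃ (L : Type u) (_ : NormedField L) (_ : IsUltrametricDist L) (_ : IsAlgClosed L)
      (φ : K →+* L), ∀ x, ‖φ x‖ = ‖x‖ := by
  let _ : NontriviallyNormedField K := { non_trivial := ⟨θ, hθ⟩ }
  obtain ⟨Ω, i1, i2, i3, φ, -, hφ, -⟩ := amb3 1 one_pos (RingHom.id K) fun y => by simp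
  exact ⟨Ω, i1, i2, i3, φ, hφ⟩

/-- An isometric embedding into a complete field containing a root of `X ^ n = a`. -/
theorem exists_root_ext {K : Type u} [NormedField K] [IsUltrametricDist K] [CompleteSpace K]
    (θ : K) (hθ : 1 < ‖θ‖) (a : K) {n : ℕ} (hn : 0 < n) :
    ∃ (L : Type u) (_ : NormedField L) (_ : IsUltrametricDist L) (_ : CompleteSpace L)
      (φ : K →+* L) (ζ : L), (∀ x, ‖φ x‖ = ‖x‖) ∧ ζ ^ n = φ a := by
  obtain ⟨Ω, i1, i2, i3, φ, hφ⟩ := xnrmc_closed θ hθ
  obtain ⟨ζ, hζ⟩ := IsAlgClosed.exists_pow_nat_eq (φ a) hn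
  obtain ⟨L, j1, j2, j3, ψ, -, hψ, -⟩ := amb2 1 one_pos (RingHom.id Ω) fun y => by simp
  exact ⟨L, j1, j2, j3, ψ.comp φ, ψ ζ, fun x => by rw [RingHom.comp_apply, hψ, hφ],
    by rw [← map_pow, hζ, RingHom.comp_apply]⟩

/-- An isometric embedding into an algebraically closed field. -/
theorem exists_closed_ext {K : Type u} [NormedField K] [IsUltrametricDist K] [CompleteSpace K]
    (θ : K) (hθ : 1 < ‖θ‖) :
    ∃ (L : Type u) (_ : NormedField L) (_ : IsUltrametricDist L) (_ : IsAlgClosed L)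
      (φ : K →+* L), ∀ x, ‖φ x‖ = ‖x‖ := xnrmc_closed θ hθ

end Pool.Agent.MP_ee2255_nt.T
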