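import Pool.Agent.MP_ee2255_nt.TCor1
import Pool.Agent.MP_ee2255_nt.TNrmC
import Pool.Agent.MP_655169_nt.Amb

/-! The bound in an algebraically closed field. -/

namespace Pool.Agent.MP_ee2255_nt.T

open Polynomial Filter Topology Pool.Agent.MP_655169_nt

theorem tcor2_root {F C : Type*} [Field F] [Fintype F] [NormedField C] [IsUltrametricDist C]
    [Algebra F C] {ξ : C} {p : F[X]} (hp : p ≠ 0) (h : aeval ξ p = 0) : ‖ξ‖ ≤ 1 := by
  refine root_le (p.map (algebraMap F C)) 1 le_rfl (fun j => ?_) ?_ ξ ?_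
  · rw [coeff_map]
    by_cases h0 : p.coeff j = 0
    · rw [h0, map_zero, norm_zero]
      exact zero_le_one
    · exact (norm_F_eq _ h0).le
  · rw [leadingCoeff_map]
    exact (norm_F_eq _ (leadingCoeff_ne_zero.2 hp)).ge
  · rw [eval_map_algebraMap]
    exact h

theorem core {F C : Type*} [Field F] [Fintype F] [NormedField C] [IsUltrametricDist C]
    [IsAlgClosed C] [Algebra F C] {θ : C} (hθ : 1 < ‖θ‖) (E0 : Subfield C) {η : ℝ} (hη : 0 < η)
    (hg : Gap E0 η) (hF : ∀ a : F, algebraMap F C a ∈ E0) (hθ0 : θ ∈ E0)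
    (hex : ∀ u ∈ E0, ∃ al, HS F θ u al) {n : ℕ} (x y : Fin (n + 1) → C)
    (hm : ∀ j, x j ∈ E0 ∧ y j ∈ E0) (hs : ∀ j, HS F θ (x j) (y j)) {ζ : C}
    (hζ : ζ ^ (qq F - 1) = -θ) (hπ : HS F θ (x (Fin.last n) / θ) ζ)
    (hn : ‖x (Fin.last n)‖ = ‖θ‖ * ‖ζ‖) (hx : ∀ c : Fin (n + 1) → F[X], lin θ c x = 0 → c = 0) :
    Rk F (fun o : Option (Fin (n + 1) ⊕ Fin (n + 1)) => o.elim θ (Sum.elim x y)) (n + 2) := by
  classical
  obtain ⟨Ω, _, _, _, _, _, _, Z, hZ⟩ := amb (F := F) θ hθ
  subst hZ
  let E := algebraicClosure F C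
  have : IsAlgClosed E := (algebraicClosure.isAlgClosure F C).isAlgClosed
  have : Infinite E := inferInstance
  let W : Option (Fin (n + 1) ⊕ Fin (n + 1)) → C := fun o => o.elim Z.θ (Sum.elim x y)
  let eq := Fintype.equivFin (Option (Fin (n + 1) ⊕ Fin (n + 1)))
  let ω : Fin (Fintype.card (Option (Fin (n + 1) ⊕ Fin (n + 1)))) → C := fun i => W (eq.symm i)
  have hW : ∀ o, ω (eq o) = W o := fun o => by simp [ω]
  obtain ⟨d, hd, hd'⟩ := exists_max (E := F) ω
  obtain ⟨c, hc⟩ := grow_of_max hd hd'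
  have hE : ∀ e : E, ‖algebraMap E C e‖ ≤ 1 := by
    intro e
    obtain ⟨p, hp, h⟩ := mem_algebraicClosure_iff.1 e.2
    exact tcor2_root hp h
  have hmem : ∀ i, ω i ∈ E0 := by
    intro i
    change W (eq.symm i) ∈ E0
    rcases eq.symm i with _ | j | j
    · exact hθ0
    · exact (hm j).1
    · exact (hm j).2
  let X : Ctx F E C Ω :=
    { Z := Z, ν := _, ω := ω, d := d, c0 := c, hE := hE, growE := grow_ext hc, growF := hc,
      rk := hd.ext, iθ := eq none, hθ := hW none, E0 := E0, η := η, hη := hη, gap := hg,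
      memF := hF, memω := hmem, hex := hex, per := x (Fin.last n), ζ := ζ,
      memπ := (hm _).1, hζ := hζ, hπ := hπ, nπ := hn }
  have hb : n + 2 ≤ d := by
    refine ctx_bound X x y (fun j => ⟨?_, ?_⟩) hs rfl hx
    · have := Vs_var (F := F) ω (eq (some (Sum.inl j)))
      rwa [hW] at this
    · have := Vs_var (F := F) ω (eq (some (Sum.inr j)))
      rwa [hW] at this
  exact (hd.mono hb).comp fun i => ⟨eq.symm i, rfl⟩

theorem tcor2_per {F K : Type*} [Field F] [Fintype F] [NormedField K] [IsUltrametricDist K]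
    [CompleteSpace K] [Algebra F K] {θ ζ : K} (hθ : 1 < ‖θ‖) {η : ℝ} (hη : 0 < η)
    (hg : Gap (⊤ : Subfield K) η) (hζ : ζ ^ (qq F - 1) = -θ) {n : ℕ} (x y : Fin (n + 1) → K)
    (hs : ∀ j, HS F θ (x j) (y j)) (hπ : HS F θ (x (Fin.last n) / θ) ζ)
    (hn : ‖x (Fin.last n)‖ = ‖θ‖ * ‖ζ‖) (hx : ∀ c : Fin (n + 1) → F[X], lin θ c x = 0 → c = 0) :
    Rk F (fun o : Option (Fin (n + 1) ⊕ Fin (n + 1)) => o.elim θ (Sum.elim x y)) (n + 2) := by
  obtain ⟨L, _, _, _, φ, hφ⟩ := exists_closed_ext θ hθ
  let _ : Algebra F L := (φ.comp (algebraMap F K)).toAlgebra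
  let ψ : K →ₐ[F] L := { φ with commutes' := fun _ => rfl }
  have hψ : ∀ a, ψ a = φ a := fun _ => rfl
  have key := core (F := F) (C := L) (θ := φ θ) (by rwa [hφ]) φ.fieldRange hη
    (by
      rintro _ ⟨a, rfl⟩ _ ⟨b, rfl⟩ h
      rw [hφ, hφ] at h ⊢
      exact hg a trivial b trivial h)
    (fun a => ⟨algebraMap F K a, rfl⟩) ⟨θ, rfl⟩
    (by
      rintro _ ⟨a, rfl⟩
      exact ⟨_, (HS.exp (F := F) hθ a).map φ hφ⟩)
    (fun j => φ (x j)) (fun j => φ (y j)) (fun j => ⟨⟨_, rfl⟩, ⟨_, rfl⟩⟩)
    (fun j => (hs j).map φ hφ) (ζ := φ ζ) (by rw [← map_pow, hζ, map_neg])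
    (by
      have := hπ.map φ hφ
      rwa [map_div₀] at this)
    (by rw [hφ, hφ, hφ, hn])
    (by
      intro c hc
      apply hx c
      have h1 := lin_map θ ψ c x
      simp only [hψ] at h1
      rw [← h1] at hc
      exact (map_eq_zero φ).1 hc)
  rw [← Rk.map_iff ψ]
  convert key using 1
  funext o
  rcases o with _ | j | j <;> rfl

theorem tcor2_alg {F K κ : Type*} [Field F] [Field K] [Algebra F K] (ω : κ → K) {a : K}
    (h : a ∈ IntermediateField.adjoin F (Set.range ω)) :
    IsAlgebraic (IntermediateField.adjoin F (Set.range ω)) a :=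
  isAlgebraic_algebraMap (⟨a, h⟩ : IntermediateField.adjoin F (Set.range ω))

theorem tcor2_mem {F K κ : Type*} [Field F] [Field K] [Algebra F K] (ω : κ → K) (i : κ) :
    ω i ∈ IntermediateField.adjoin F (Set.range ω) :=
  IntermediateField.subset_adjoin _ _ ⟨i, rfl⟩

theorem tcor2_snoc {F K : Type*} [Field F] [Field K] [Algebra F K] (θ : K) {n : ℕ}
    (c : Fin (n + 1) → F[X]) (x : Fin n → K) (w : K) :
    lin θ c (Fin.snoc x w : Fin (n + 1) → K) =
      lin θ (fun j => c j.castSucc) x + aeval θ (c (Fin.last n)) * w := by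
  simp [lin, Fin.sum_univ_castSucc]

/-- The theorem over a complete discretely valued field containing `ζ`. -/
theorem disc {F K : Type*} [Field F] [Fintype F] [NormedField K] [IsUltrametricDist K]
    [CompleteSpace K] [Algebra F K] {θ ζ : K} (hθ : 1 < ‖θ‖) {η : ℝ} (hη : 0 < η)
    (hg : Gap (⊤ : Subfield K) η) (hζ : ζ ^ (qq F - 1) = -θ) {n : ℕ} (x y : Fin n → K)
    (hs : ∀ j, HS F θ (x j) (y j)) (hx : ∀ c : Fin n → F[X], lin θ c x = 0 → c = 0) :
    Rk F (fun o : Option (Fin n ⊕ Fin n) => o.elim θ (Sum.elim x y)) (n + 1) := by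
  classical
  obtain ⟨π, hπ, hn⟩ := exists_per (F := F) hθ hζ
  have h0 : 0 < ‖θ‖ := one_pos.trans hθ
  have hθ0 : θ ≠ 0 := norm_pos_iff.1 h0
  have hπ0 : π ≠ 0 := by
    rw [← norm_pos_iff, hn]
    exact mul_pos h0 (one_pos.trans (TPi_zeta hθ hζ).1)
  have hz : HS F θ π 0 := by
    have := hπ.theta hθ
    rwa [TPi_pow hζ, add_neg_cancel, mul_div_cancel₀ _ hθ0] at this
  have htr : ∀ p : F[X], aeval θ p = 0 → p = 0 := by
    intro p hp
    by_contra h
    exact absurd (tcor2_root h hp) (not_le.2 hθ)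
  have hsn : ∀ {m : ℕ} (a b : Fin m → K), (∀ j, HS F θ (a j) (b j)) → ∀ j,
      HS F θ ((Fin.snoc a π : Fin (m + 1) → K) j) ((Fin.snoc b 0 : Fin (m + 1) → K) j) := by
    intro m a b h j
    refine Fin.lastCases ?_ (fun j => ?_) j
    · simpa using hz
    · simpa using h j
  by_cases hI : ∀ c : Fin (n + 1) → F[X], lin θ c (Fin.snoc x π : Fin (n + 1) → K) = 0 → c = 0
  · have key := tcor2_per hθ hη hg hζ (Fin.snoc x π) (Fin.snoc y 0) (hsn x y hs)
      (by simpa using hπ) (by simpa using hn) hI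
    refine Rk.drop π (key.exch fun i => tcor2_alg _ ?_)
    rcases i with _ | j | j
    · exact tcor2_mem _ (some none)
    · refine Fin.lastCases ?_ (fun j => ?_) j
      · simpa using tcor2_mem (F := F) (fun o : Option (Option (Fin n ⊕ Fin n)) =>
          o.elim π fun o => o.elim θ (Sum.elim x y)) none
      · simpa using tcor2_mem (F := F) (fun o : Option (Option (Fin n ⊕ Fin n)) =>
          o.elim π fun o => o.elim θ (Sum.elim x y)) (some (some (Sum.inl j)))
    · refine Fin.lastCases ?_ (fun j => ?_) j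
      · simp
      · simpa using tcor2_mem (F := F) (fun o : Option (Option (Fin n ⊕ Fin n)) =>
          o.elim π fun o => o.elim θ (Sum.elim x y)) (some (some (Sum.inr j)))
  · push Not at hI
    obtain ⟨c, hc, hc0⟩ := hI
    rw [tcor2_snoc] at hc
    have hl : c (Fin.last n) ≠ 0 := by
      intro h
      rw [h, map_zero, zero_mul, add_zero] at hc
      have h1 := hx _ hc
      apply hc0
      funext j
      refine Fin.lastCases h (fun j => congrFun h1 j) j
    have hl' : aeval θ (c (Fin.last n)) ≠ 0 := fun h => hl (htr _ h)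
    obtain ⟨j0, hj0⟩ : ∃ j0 : Fin n, c j0.castSucc ≠ 0 := by
      by_contra h
      push Not at h
      simp only [lin, h, map_zero, zero_mul, Finset.sum_const_zero, zero_add] at hc
      exact mul_ne_zero hl' hπ0 hc
    obtain ⟨m, rfl⟩ : ∃ m, n = m + 1 := ⟨n - 1, by have := j0.pos; omega⟩
    have hind : ∀ a : Fin (m + 1) → F[X],
        lin θ a (Fin.snoc (fun i => x (j0.succAbove i)) π : Fin (m + 1) → K) = 0 → a = 0 := by
      intro a ha
      rw [tcor2_snoc] at ha
      let b : Fin (m + 1) → F[X] := fun j =>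
        c (Fin.last (m + 1)) * (j0.insertNth 0 fun i => a i.castSucc : Fin (m + 1) → F[X]) j -
          a (Fin.last m) * c j.castSucc
      have hb : lin θ b x = 0 := by
        have e1 : lin θ (j0.insertNth 0 fun i => a i.castSucc : Fin (m + 1) → F[X]) x =
            lin θ (fun j => a j.castSucc) fun i => x (j0.succAbove i) := by
          simp [lin, Fin.sum_univ_succAbove _ j0]
        have e2 : lin θ b x = aeval θ (c (Fin.last (m + 1))) *
            lin θ (j0.insertNth 0 fun i => a i.castSucc : Fin (m + 1) → F[X]) x -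
            aeval θ (a (Fin.last m)) * lin θ (fun j => c j.castSucc) x := by
          simp only [lin, b, map_sub, map_mul, Finset.mul_sum, ← Finset.sum_sub_distrib]
          exact Finset.sum_congr rfl fun j _ => by ring
        rw [e2, e1]
        linear_combination aeval θ (c (Fin.last (m + 1))) * ha - aeval θ (a (Fin.last m)) * hc
      have hb0 := hx b hb
      have ha0 : a (Fin.last m) = 0 := by
        have := congrFun hb0 j0
        simp only [b, Fin.insertNth_apply_same, mul_zero, zero_sub, Pi.zero_apply, neg_eq_zero,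
          mul_eq_zero] at this
        exact this.resolve_right hj0
      funext i
      refine Fin.lastCases ha0 (fun i => ?_) i
      have := congrFun hb0 (j0.succAbove i)
      simp only [b, Fin.insertNth_apply_succAbove, ha0, zero_mul, sub_zero, Pi.zero_apply,
        mul_eq_zero] at this
      exact this.resolve_left hl
    have key := tcor2_per hθ hη hg hζ (Fin.snoc (fun i => x (j0.succAbove i)) π)
      (Fin.snoc (fun i => y (j0.succAbove i)) 0) (hsn _ _ fun i => hs _)
      (by simpa using hπ) (by simpa using hn) hind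
    refine key.exch fun i => tcor2_alg _ ?_
    have hθm := tcor2_mem (F := F) (fun o : Option (Fin (m + 1) ⊕ Fin (m + 1)) =>
      o.elim θ (Sum.elim x y)) none
    have hxm := fun j => tcor2_mem (F := F) (fun o : Option (Fin (m + 1) ⊕ Fin (m + 1)) =>
      o.elim θ (Sum.elim x y)) (some (Sum.inl j))
    have hym := fun j => tcor2_mem (F := F) (fun o : Option (Fin (m + 1) ⊕ Fin (m + 1)) =>
      o.elim θ (Sum.elim x y)) (some (Sum.inr j))
    generalize IntermediateField.adjoin F (Set.range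
      fun o : Option (Fin (m + 1) ⊕ Fin (m + 1)) => o.elim θ (Sum.elim x y)) = S at hθm hxm hym ⊢
    have hae : ∀ p : F[X], aeval θ p ∈ S := by
      intro p
      rw [aeval_eq_sum_range]
      exact S.sum_mem fun i _ => S.smul_mem (pow_mem (show θ ∈ S from hθm) i)
    rcases i with _ | j | j
    · exact hθm
    · refine Fin.lastCases ?_ (fun j => ?_) j
      · have e : π = -(lin θ (fun j => c j.castSucc) x) / aeval θ (c (Fin.last (m + 1))) := by
          rw [eq_div_iff hl']
          linear_combination hc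
        have hm : π ∈ S := by
          rw [e]
          exact S.div_mem (S.neg_mem (S.sum_mem fun j _ => S.mul_mem (hae _) (hxm j))) (hae _)
        simpa using hm
      · simpa using hxm (j0.succAbove j)
    · refine Fin.lastCases ?_ (fun j => ?_) j
      · simp
      · simpa using hym (j0.succAbove j)

end Pool.Agent.MP_ee2255_nt.T
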