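import Pool.Agent.MP_655169_nt.Trunc1
import Pool.Agent.MP_655169_nt.Basic
import Pool.Agent.MP_655169_nt.HF

/-!
Definitions for the proof of Schanuel's conjecture for the Carlitz exponential.
Sequences are indexed by a scale `ℓ` and read along an ultrafilter.
-/

namespace Pool.Agent.MP_ee2255_nt.T

open Polynomial Filter Topology Pool.Agent.MP_655169_nt

/-- The ultrafilter on the scales. -/
noncomputable abbrev UU : Filter ℕ := (Filter.hyperfilter ℕ : Filter ℕ)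

/-- The scale functions. -/
noncomputable def sc (N ℓ : ℕ) : ℝ := 2 ^ (N * (ℓ + 1))

/-- At most linear in the scale. -/
def Lin (a : ℕ → ℕ) : Prop := ∃ N, ∀ᶠ ℓ in UU, a ℓ ≤ N * (ℓ + 1)

/-- At most exponential in the scale. -/
def Pol (a : ℕ → ℕ) : Prop := ∃ N, ∀ᶠ ℓ in UU, a ℓ ≤ 2 ^ (N * (ℓ + 1))

/-- Not too big at level `M`. -/
def Big (M r : ℕ → ℝ) : Prop := ∃ N, ∀ᶠ ℓ in UU, r ℓ ≤ Real.exp (M ℓ * sc N ℓ)

/-- Not too small at level `M`. -/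
def Low (M r : ℕ → ℝ) : Prop := ∃ N, ∀ᶠ ℓ in UU, Real.exp (-(M ℓ * sc N ℓ)) ≤ r ℓ

/-- Very small at level `M`. -/
def Sm (M r : ℕ → ℝ) : Prop := ∀ N, ∀ᶠ ℓ in UU, r ℓ < Real.exp (-(M ℓ * sc N ℓ))

section Carl

variable (F : Type*) [Field F] [Fintype F] {C : Type*} [Field C] [Algebra F C]

/-- The Carlitz action of `θ`: `y ↦ θ y + y ^ q`. -/
noncomputable def cth (θ : C) : Module.End F C :=
  LinearMap.mulLeft F θ + (FiniteField.frobeniusAlgHom F C).toLinearMap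

variable {F}

/-- The Carlitz action of a polynomial. -/
noncomputable def carl (θ : C) (c : F[X]) (y : C) : C := aeval (cth F θ) c y

/-- A linear form with polynomial coefficients. -/
noncomputable def lin {ι : Type*} [Fintype ι] (θ : C) (c : ι → F[X]) (x : ι → C) : C :=
  ∑ j, aeval θ (c j) * x j

variable (F)

/-- There is a relation in the Carlitz module. -/
def Rel {ι : Type*} [Fintype ι] (θ : C) (y : ι → C) : Prop :=
  ∃ c : ι → F[X], c ≠ 0 ∧ ∑ j, carl θ (c j) (y j) = 0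

/-- There is a relation of degree at most `n` in the Carlitz module. -/
def RelLe {ι : Type*} [Fintype ι] (θ : C) (y : ι → C) (n : ℕ) : Prop :=
  ∃ c : ι → F[X], c ≠ 0 ∧ (∀ j, (c j).natDegree ≤ n) ∧ ∑ j, carl θ (c j) (y j) = 0

/-- A multiplicative filtration of a subfield with the Gauss property. -/
structure Fl (θ : C) where
  k : Subfield C
  B : ℕ → Submodule F C
  sub : ∀ δ a, a ∈ B δ → a ∈ k
  one : 1 ∈ B 0
  theta : θ ∈ B 1
  mul : ∀ δ δ' a b, a ∈ B δ → b ∈ B δ' → a * b ∈ B (δ + δ')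
  mono : ∀ δ δ' a, δ ≤ δ' → a ∈ B δ → a ∈ B δ'
  gauss : ∀ (r δ : ℕ) (P Q : MvPolynomial (Fin r) C[X]),
    (∀ e j, ((P * Q).coeff e).coeff j ∈ B δ) → ∀ e j e' j', (P.coeff e).coeff j ∈ k →
      (Q.coeff e').coeff j' ∈ k → (P.coeff e).coeff j * (Q.coeff e').coeff j' ∈ B δ

variable {F}

/-- A multiplicative filtration. -/
structure Flt (θ : C) (B : ℕ → Submodule F C) : Prop where
  one : 1 ∈ B 0
  theta : θ ∈ B 1
  mul : ∀ δ δ' a b, a ∈ B δ → b ∈ B δ' → a * b ∈ B (δ + δ')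
  mono : ∀ δ δ' a, δ ≤ δ' → a ∈ B δ → a ∈ B δ'

theorem Fl.flt {θ : C} (L : Fl F θ) : Flt θ L.B := ⟨L.one, L.theta, L.mul, L.mono⟩

instance (θ : C) : Nonempty (Fl F θ) :=
  ⟨{ k := ⊤, B := fun _ => ⊤, sub := by simp, one := by simp, theta := by simp, mul := by simp,
     mono := by simp, gauss := by simp }⟩

/-- Extension of scalars from a subfield. -/
noncomputable def up (k : Subfield C) {ι : Type*} :
    MvPolynomial ι k[X] →+* MvPolynomial ι C[X] :=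
  MvPolynomial.map (Polynomial.mapRingHom k.subtype)

/-- Degrees and coefficients are bounded by `δ`. -/
def BdB (B : ℕ → Submodule F C) (δ : ℕ) {ι : Type*} (Q : MvPolynomial ι C[X]) : Prop :=
  Q.totalDegree ≤ δ ∧ ∀ e, (Q.coeff e).natDegree ≤ δ ∧ ∀ j, (Q.coeff e).coeff j ∈ B δ

end Carl

section Alg

variable (E : Type*) [Field E] {C : Type*} [Field C] [Algebra E C] {κ : Type*}

/-- The family contains `d` algebraically independent members. -/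
def Rk (ω : κ → C) (d : ℕ) : Prop := ∃ e : Fin d → κ, AlgebraicIndependent E (ω ∘ e)

/-- `x` lies in every valuation ring containing `E[μ]`. -/
def VA (μ : κ → C) (x : C) : Prop :=
  ∀ V : ValuationSubring C, (∀ a : MvPolynomial κ E, MvPolynomial.aeval μ a ∈ V) → x ∈ V

/-- `x` lies in every valuation ring containing the quotients of degree at most zero. -/
def VI (μ : κ → C) (x : C) : Prop :=
  ∀ V : ValuationSubring C, (∀ a b : MvPolynomial κ E, b ≠ 0 → a.totalDegree ≤ b.totalDegree →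
    MvPolynomial.aeval μ a / MvPolynomial.aeval μ b ∈ V) → x ∈ V

/-- The field `E(μ)`. -/
noncomputable abbrev KF (μ : κ → C) : IntermediateField E C :=
  IntermediateField.adjoin E (Set.range μ)

/-- `x` is a root of a monic polynomial of bounded degrees over `E[μ]`. -/
def Mon (μ : κ → C) (d₁ d₂ : ℕ) (x : C) : Prop :=
  ∃ Φ : (MvPolynomial κ E)[X], Φ.Monic ∧ Φ.natDegree ≤ d₁ ∧ (∀ j, (Φ.coeff j).totalDegree ≤ d₂) ∧
    Φ.eval₂ (MvPolynomial.aeval μ : MvPolynomial κ E →ₐ[E] C).toRingHom x = 0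

/-- The family `(θ, lam)`. -/
def zz {m : ℕ} (θ : C) (lam : Fin m → C) : Option (Fin m) → C := fun o => o.elim θ lam

/-- Value at `(θ, lam, u)` of a polynomial. -/
noncomputable def ev3 {m : ℕ} (θ : C) (lam : Fin m → C) (u : C)
    (Φ : (MvPolynomial (Option (Fin m)) E)[X]) : C :=
  Φ.eval₂ (MvPolynomial.aeval (zz θ lam) : MvPolynomial (Option (Fin m)) E →ₐ[E] C).toRingHom u

/-- Bounded degrees, and the leading coefficient depends only on the first variable. -/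
def Tp {m : ℕ} (N : ℕ) (Φ : (MvPolynomial (Option (Fin m)) E)[X]) : Prop :=
  Φ.natDegree ≤ N ∧ (∀ j, (Φ.coeff j).totalDegree ≤ N) ∧ ∃ a : E[X], a ≠ 0 ∧ a.natDegree ≤ N ∧
    Φ.leadingCoeff = aeval (MvPolynomial.X none : MvPolynomial (Option (Fin m)) E) a

/-- `u` is algebraic over `E[θ, lam]` with bounded degrees and leading coefficient in `E[θ]`. -/
def AlgT {m : ℕ} (θ : C) (lam : Fin m → C) (N : ℕ) (u : C) : Prop :=
  ∃ Φ : (MvPolynomial (Option (Fin m)) E)[X], Tp E N Φ ∧ ev3 E θ lam u Φ = 0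

/-- A fixed multiple of every element of `S` is integral over `E[θ, lam]`. -/
def HInt {m : ℕ} (θ : C) (lam : Fin m → C) (S : Set C) : Prop :=
  ∃ h : E[X], h ≠ 0 ∧ ∀ s ∈ S,
    IsIntegral (Algebra.adjoin E (Set.range (zz θ lam))) (aeval θ h * s)

/-- `φ` is a specialisation over `lam ↦ lam'` on the span of `S`. -/
def Pt {m : ℕ} (θ : C) (lam lam' : Fin m → C) (S : Set C) (φ : C →ₗ[E] C) : Prop :=
  ∀ u ∈ Submodule.span E S, ∀ Ψ, ev3 E θ lam u Ψ = 0 → ev3 E θ lam' (φ u) Ψ = 0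

end Alg

/-- The arithmetic properties of a filtration at one scale. -/
structure FrOk {F : Type*} (E : Type*) [Field F] [Fintype F] [Field E] {C : Type*} [Field C]
    [Algebra F C] [Algebra E C] {κ : Type*} {θ : C} (L : Fl F θ) (μ : κ → C)
    (Δ : MvPolynomial κ E) (γ : ℕ) : Prop where
  ne : Δ ≠ 0
  deg : Δ.totalDegree ≤ γ
  mon : ∀ δ a, a ∈ L.B δ → Mon E μ γ (γ * δ) (MvPolynomial.aeval μ Δ ^ δ * a)
  mas : ∀ (r δ l : ℕ) (y : Fin r → C), γ * (δ + 1) ≤ 2 ^ l → (∀ j, y j ∈ L.B δ) → Rel F θ y →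
    RelLe F θ y (r * (3 * l + 4))

section Normed

variable (F : Type*) [Field F] [Fintype F] {C : Type*} [NormedField C] [Algebra F C]

/-- `al` is the Carlitz exponential of `u`. -/
def HS (θ u al : C) : Prop := HasSum (fun i => u ^ qq F ^ i / carlitzD (qq F) θ i) al

/-- A sequence of filtrations with Liouville inequalities at level `M` and short relations. -/
structure Fr (θ : C) (M : ℕ → ℝ) where
  fl : ℕ → Fl F θ
  low : ∀ (δ : ℕ → ℕ) (a : ℕ → C), Pol δ → (∀ᶠ ℓ in UU, a ℓ ∈ (fl ℓ).B (δ ℓ) ∧ a ℓ ≠ 0) →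
    Low M fun ℓ => ‖a ℓ‖
  big : ∀ (δ : ℕ → ℕ) (a : ℕ → C), Pol δ → (∀ᶠ ℓ in UU, a ℓ ∈ (fl ℓ).B (δ ℓ)) →
    Big M fun ℓ => ‖a ℓ‖
  mas : ∀ (r : ℕ) (δ : ℕ → ℕ) (y : ℕ → Fin r → C), Pol δ →
    (∀ᶠ ℓ in UU, (∀ j, y ℓ j ∈ (fl ℓ).B (δ ℓ)) ∧ Rel F θ (y ℓ)) →
    ∃ n, Lin n ∧ ∀ᶠ ℓ in UU, RelLe F θ (y ℓ) (n ℓ)

/-- No nonzero polynomial of moderate degree is very small at `μ`. -/
def Ind (E : Type*) [Field E] [Algebra E C] {κ : Type*} (M : ℕ → ℝ) (μ : ℕ → κ → C) : Prop :=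
  ∀ (p : ℕ → MvPolynomial κ E) (δ : ℕ → ℕ), Pol δ →
    (∀ᶠ ℓ in UU, p ℓ ≠ 0 ∧ (p ℓ).totalDegree ≤ δ ℓ) →
    Low M fun ℓ => ‖MvPolynomial.aeval (μ ℓ) (p ℓ)‖

/-- A sequence of linear forms of linear degree in the fixed family `x`. -/
def Sh {ι : Type*} [Fintype ι] (θ : C) (x : ι → C) (a : ℕ → C) : Prop :=
  ∃ (c : ℕ → ι → F[X]) (n : ℕ → ℕ), Lin n ∧
    ∀ᶠ ℓ in UU, (∀ j, (c ℓ j).natDegree ≤ n ℓ) ∧ a ℓ = lin θ (c ℓ) x

/-- The level of a sequence. -/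
noncomputable def lev (a : ℕ → C) (ℓ : ℕ) : ℝ := max 1 (-Real.log ‖a ℓ‖)

/-- No short linear form in `z` is very small at level `M`. -/
def HL {ι : Type*} [Fintype ι] (θ : C) (M : ℕ → ℝ) (z : ℕ → ι → C) : Prop :=
  ∀ (c : ℕ → ι → F[X]) (n : ℕ → ℕ), Lin n →
    (∀ᶠ ℓ in UU, c ℓ ≠ 0 ∧ ∀ j, (c ℓ j).natDegree ≤ n ℓ) → Low M fun ℓ => ‖lin θ (c ℓ) (z ℓ)‖

/-- Every member has the top level among the short forms in itself and the later members. -/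
def Good (θ : C) : (r : ℕ) → (ℕ → Fin r → C) → Prop
  | 0, _ => True
  | r + 1, z => HL F θ (lev fun ℓ => z ℓ 0) z ∧ Good θ r fun ℓ => Fin.tail (z ℓ)

end Normed

section Sit

variable {F C Ω : Type*} [Field F] [Fintype F] [NormedField C] [Algebra F C] [NormedField Ω]
  [Algebra C Ω]

theorem hs_iff (Z : Sit F C Ω) (u al : C) : HasSum (Z.ee u) al ↔ HS F Z.θ u al := Iff.rfl

/-- The largest norm of a coefficient. -/
noncomputable def cn (Z : Sit F C Ω) {ι : Type*} (Q : MvPolynomial ι C[X]) : ℝ :=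
  ((Q.support.sup fun e => ‖aeval Z.t (Q.coeff e)‖₊ : NNReal) : ℝ)

/-- No nonzero bounded polynomial is very small at `f`. -/
def NS (Z : Sit F C Ω) {M : ℕ → ℝ} (Φ : Fr F Z.θ M) {r : ℕ} (f : ℕ → Fin r → Ω) : Prop :=
  ∀ (δ : ℕ → ℕ) (Q : ℕ → MvPolynomial (Fin r) C[X]), Pol δ →
    (∀ᶠ ℓ in UU, Q ℓ ≠ 0 ∧ BdB (Φ.fl ℓ).B (δ ℓ) (Q ℓ)) → Low M fun ℓ => ‖Z.FF (f ℓ) (Q ℓ)‖

/-- The hypotheses on an approximate system of twisted equations. -/
structure Ap (Z : Sit F C Ω) {M : ℕ → ℝ} (Φ : Fr F Z.θ M) {r : ℕ} (al y : ℕ → Fin (r + 1) → C)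
    (f : ℕ → Fin (r + 1) → Ω) : Prop where
  sol : ∀ᶠ ℓ in UU, ∀ j, Z.Sol (al ℓ j) (f ℓ j)
  mem : ∃ δ, Pol δ ∧ ∀ᶠ ℓ in UU, ∀ j, y ℓ j ∈ (Φ.fl ℓ).B (δ ℓ)
  near : ∃ η, Sm M η ∧ ∀ᶠ ℓ in UU, ∀ j, ‖al ℓ j - y ℓ j‖ ≤ η ℓ
  big : ∃ R, Big M R ∧ ∀ᶠ ℓ in UU, ∀ j, ‖f ℓ j‖ ≤ R ℓ
  last : ∀ᶠ ℓ in UU, y ℓ (Fin.last r) = 0 ∧ 1 ≤ ‖f ℓ (Fin.last r)‖
  norel : ¬ ∃ n, Lin n ∧ ∀ᶠ ℓ in UU, RelLe F Z.θ (Fin.init (y ℓ)) (n ℓ)

/-- The product of the first `m` factorials. -/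
noncomputable def dall (Z : Sit F C Ω) (m : ℕ) : C :=
  ∏ i ∈ Finset.range m, carlitzD (qq F) Z.θ i

/-- Replace the first variable by the truncation of the generating function of `u`. -/
noncomputable def cut (Z : Sit F C Ω) {r : ℕ} (u : C) (m D : ℕ)
    (P : MvPolynomial (Fin (r + 1)) C[X]) : MvPolynomial (Fin r) C[X] :=
  ∑ j ∈ Finset.range (D + 1), (MvPolynomial.finSuccEquiv C[X] r P).coeff j *
    MvPolynomial.C ((Polynomial.C (dall Z m) * Z.num u m) ^ j *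
      (Polynomial.C (dall Z m) * Z.den m) ^ (D - j))

end Sit

/-- The global data. -/
structure Ctx (F E C Ω : Type*) [Field F] [Fintype F] [Field E] [NormedField C] [NormedField Ω]
    [Algebra F C] [Algebra E C] [Algebra C Ω] where
  Z : Sit F C Ω
  ν : ℕ
  ω : Fin ν → C
  d : ℕ
  c0 : ℕ
  hE : ∀ e : E, ‖algebraMap E C e‖ ≤ 1
  growE : Grow E ω c0 d
  growF : Grow F ω c0 d
  rk : Rk E ω d
  iθ : Fin ν
  hθ : ω iθ = Z.θ
  E0 : Subfield C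
  η : ℝ
  hη : 0 < η
  gap : Gap E0 η
  memF : ∀ a : F, algebraMap F C a ∈ E0
  memω : ∀ i, ω i ∈ E0
  hex : ∀ u ∈ E0, ∃ al, HS F Z.θ u al
  per : C
  ζ : C
  memπ : per ∈ E0
  hζ : ζ ^ (qq F - 1) = -Z.θ
  hπ : HS F Z.θ (per / Z.θ) ζ
  nπ : ‖per‖ = ‖Z.θ‖ * ‖ζ‖

/-- A family of generating functions of short points whose last member is the period. -/
structure Fam {F E C Ω : Type*} [Field F] [Fintype F] [Field E] [NormedField C] [NormedField Ω]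
    [Algebra F C] [Algebra E C] [Algebra C Ω] (X : Ctx F E C Ω) {r : ℕ} (u al : ℕ → Fin r → C)
    (f : ℕ → Fin r → Ω) : Prop where
  agf : ∀ᶠ ℓ in UU, ∀ j, X.Z.Agf (u ℓ j) (al ℓ j) (f ℓ j)
  deg : ∃ δ, Pol δ ∧ ∀ᶠ ℓ in UU, ∀ j, u ℓ j ∈ Vs F X.ω (δ ℓ) ∧ al ℓ j ∈ Vs F X.ω (δ ℓ)
  size : ∃ n, Lin n ∧ ∀ᶠ ℓ in UU, ∀ j, ‖u ℓ j‖ ≤ ‖X.Z.θ‖ ^ n ℓ
  last : ∀ᶠ ℓ in UU, ∀ j : Fin r, (j : ℕ) + 1 = r → u ℓ j = X.per

end Pool.Agent.MP_ee2255_nt.T
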