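import Pool.Agent.MP_ee2255_nt.TDefs

/-! Valuation rings over a Noetherian domain of dimension one are discrete. -/

namespace Pool.Agent.MP_ee2255_nt.T

open Polynomial Filter Topology Pool.Agent.MP_655169_nt
open scoped Pointwise

theorem dvr1_len_smul {A : Type*} [CommRing A] {a : A} (ha : a ∈ nonZeroDivisors A)
    (I : Ideal A) : Order.coheight (a • I) = Order.coheight I + Ring.ord A a := by
  have := Module.length_eq_add_of_exact (Ideal.mulQuot a I) (Ideal.quotOfMul a I)
    (Ideal.mulQuot_injective I ha) (Ideal.quotOfMul_surjective I) (Ideal.exact_mulQuot_quotOfMul I)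
  rw [Module.length_quotient, Module.length_quotient (N := I)] at this
  exact this

/-- The ideal of elements of value at most `t`. -/
def dvr1J {A K : Type*} [CommRing A] [Field K] [Algebra A K] (V : ValuationSubring K)
    (hV : ∀ a : A, algebraMap A K a ∈ V) (t : V.ValueGroup) : Ideal A where
  carrier := {x | V.valuation (algebraMap A K x) ≤ t}
  add_mem' := fun {x y} hx hy => by
    simp only [Set.mem_ofPred_eq, map_add] at hx hy ⊢
    exact V.valuation.map_add_le hx hy
  zero_mem' := by simp
  smul_mem' := fun c x hx => by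
    simp only [Set.mem_ofPred_eq, smul_eq_mul, map_mul] at hx ⊢
    exact (mul_le_of_le_one_left' ((V.valuation_le_one_iff _).2 (hV c))).trans hx

theorem dvr1_chain {A K : Type*} [CommRing A] [IsDomain A] [IsNoetherianRing A]
    [Ring.KrullDimLE 1 A] [Field K] [Algebra A K] [IsFractionRing A K] (V : ValuationSubring K)
    (hV : ∀ a : A, algebraMap A K a ∈ V) (y : ℕ → K) (h0 : y 0 ≠ 0)
    (hlt : ∀ i, V.valuation (y i) < V.valuation (y (i + 1))) (h1 : ∀ i, V.valuation (y i) ≤ 1) :
    False := by
  have hle : ∀ c : A, V.valuation (algebraMap A K c) ≤ 1 := fun c =>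
    (V.valuation_le_one_iff _).2 (hV c)
  obtain ⟨a, s, hs, has⟩ := IsFractionRing.div_surjective (A := A) (y 0)
  have hs0 : algebraMap A K s ≠ 0 := IsFractionRing.to_map_ne_zero_of_mem_nonZeroDivisors hs
  have ha : algebraMap A K a = algebraMap A K s * y 0 := by
    rw [← has]; field_simp
  have ha0 : a ≠ 0 := by
    rintro rfl
    rw [map_zero] at ha
    exact mul_ne_zero hs0 h0 ha.symm
  have ha1 : a ∈ nonZeroDivisors A := mem_nonZeroDivisors_of_ne_zero ha0
  have hva : V.valuation (algebraMap A K a) ≤ V.valuation (y 0) := by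
    rw [ha, map_mul]
    exact mul_le_of_le_one_left' (hle s)
  obtain ⟨L, hL⟩ := ENat.ne_top_iff_exists.1 (Ring.ord_ne_top ha1)
  obtain ⟨d, hd⟩ := IsLocalization.exist_integer_multiples (nonZeroDivisors A)
    (Finset.range (L + 2)) y
  have hd0 : algebraMap A K d ≠ 0 := IsFractionRing.to_map_ne_zero_of_mem_nonZeroDivisors d.2
  have hvd : V.valuation (algebraMap A K d) ≠ 0 := by simp [hd0]
  set J : ℕ → Ideal A := fun i => dvr1J V hV (V.valuation (algebraMap A K d) * V.valuation (y i))
    with hJ
  have hmem : ∀ i (x : A), x ∈ J i ↔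
      V.valuation (algebraMap A K x) ≤ V.valuation (algebraMap A K d) * V.valuation (y i) :=
    fun i x => Iff.rfl
  have hstep : ∀ i, i ≤ L → J i < J (i + 1) := by
    intro i hi
    have h2 : V.valuation (algebraMap A K d) * V.valuation (y i) <
        V.valuation (algebraMap A K d) * V.valuation (y (i + 1)) :=
      mul_lt_mul_of_pos_left (hlt i) (zero_lt_iff.2 hvd)
    refine lt_of_le_of_ne (fun x hx => (hmem _ _).2 (((hmem _ _).1 hx).trans h2.le)) fun h => ?_
    obtain ⟨b, hb⟩ := hd (i + 1) (Finset.mem_range.2 (by omega))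
    have h3 : V.valuation (algebraMap A K b) =
        V.valuation (algebraMap A K d) * V.valuation (y (i + 1)) := by
      rw [hb, Algebra.smul_def, map_mul]
    have h4 : b ∈ J i := h ▸ (hmem _ _).2 h3.le
    exact absurd ((hmem _ _).1 h4) (not_le.2 (h3 ▸ h2))
  have hch : ∀ i : ℕ, i ≤ L + 1 → Order.coheight (J i) + i ≤ Order.coheight (J 0) := by
    intro i
    induction i with
    | zero => simp
    | succ i ih =>
      intro hi
      refine le_trans ?_ (ih (by omega))
      have := Order.coheight_add_one_le (hstep i (by omega))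
      calc Order.coheight (J (i + 1)) + ((i + 1 : ℕ) : ℕ∞)
          = Order.coheight (J (i + 1)) + 1 + i := by push_cast; ring
        _ ≤ _ := by gcongr
  have hsub : a • J (L + 1) ≤ J 0 := by
    intro x hx
    obtain ⟨z, hz, rfl⟩ := (Submodule.mem_smul_pointwise_iff_exists _ _ _).1 hx
    rw [hmem, smul_eq_mul, map_mul, map_mul, mul_comm]
    exact mul_le_mul' (((hmem _ _).1 hz).trans (mul_le_of_le_one_right' (h1 _))) hva
  have hfin : Order.coheight (J (L + 1)) ≠ ⊤ := by
    have h5 : Ideal.span {(d : A) * a} ≤ J (L + 1) := by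
      rw [Ideal.span_singleton_le_iff_mem, hmem, map_mul, map_mul]
      refine mul_le_mul' le_rfl (hva.trans ?_)
      exact (strictMono_nat_of_lt_succ hlt).monotone (Nat.zero_le _)
    have h6 := Order.coheight_anti h5
    have h7 := Ring.ord_ne_top (mul_mem d.2 ha1)
    rw [Ring.ord, Module.length_quotient] at h7
    exact ne_top_of_le_ne_top h7 h6
  have h8 := (hch (L + 1) le_rfl).trans (Order.coheight_anti hsub)
  rw [dvr1_len_smul ha1, ← hL, ENat.add_le_add_iff_left hfin] at h8
  norm_cast at h8
  omega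

theorem disc_of_dim_one {A K : Type*} [CommRing A] [IsDomain A] [IsNoetherianRing A]
    [Ring.KrullDimLE 1 A] [Field K] [Algebra A K] [IsFractionRing A K] (V : ValuationSubring K)
    (hV : ∀ a : A, algebraMap A K a ∈ V) :
    ∃ v : Valuation K (WithZero (Multiplicative ℤ)), ∀ x, v x ≤ 1 ↔ x ∈ V := by
  classical
  have hwf : WfDvdMonoid V := by
    refine ⟨?_⟩
    rw [wellFounded_iff_isEmpty_descending_chain]
    refine ⟨fun ⟨x, hx⟩ => ?_⟩
    refine dvr1_chain V hV (fun i => (x (i + 1) : K)) (by simpa using (hx 0).1) (fun i => ?_)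
      fun i => V.valuation_le_one _
    obtain ⟨h1, u, hu, h2⟩ := hx (i + 1)
    have h3 : V.valuation (u : K) < 1 := by
      rw [← V.valuation_lt_one_iff]
      exact hu
    have h4 : V.valuation (x (i + 1 + 1) : K) ≠ 0 := by simpa using h1
    rw [h2, MulMemClass.coe_mul, map_mul]
    exact mul_lt_of_lt_one_right (zero_lt_iff.2 h4) h3
  have hpid : IsPrincipalIdealRing V := ((IsBezout.TFAE (R := V)).out 3 1).1 hwf
  by_cases hf : IsLocalRing.maximalIdeal V = ⊥
  · refine ⟨1, fun x => ⟨fun _ => ?_, fun _ => Valuation.one_apply_le_one x⟩⟩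
    by_contra hx
    have hx' := (V.mem_or_inv_mem x).resolve_left hx
    have h1 : (⟨x⁻¹, hx'⟩ : V) ∈ IsLocalRing.maximalIdeal V := by
      rw [V.valuation_lt_one_iff]
      have h2 : 1 < V.valuation x := not_le.1 fun h => hx ((V.valuation_le_one_iff x).1 h)
      simpa using inv_lt_one_of_one_lt₀ h2
    rw [hf, Ideal.mem_bot] at h1
    have h3 : x = 0 := by simpa using congrArg Subtype.val h1
    exact hx (h3 ▸ V.zero_mem)
  · have : IsDiscreteValuationRing V := { not_a_field' := hf }
    refine ⟨(IsDiscreteValuationRing.maximalIdeal V).valuation K, fun x => ⟨fun h => ?_, fun h => ?_⟩⟩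
    · obtain ⟨a, rfl⟩ := IsDiscreteValuationRing.exists_lift_of_le_one h
      exact a.2
    · exact (IsDiscreteValuationRing.maximalIdeal V).valuation_le_one (K := K) ⟨x, h⟩

end Pool.Agent.MP_ee2255_nt.T
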