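import Pool.Agent.MP_ee2255_nt.TDvr1

/-! A discrete valuation dominating a Noetherian local domain. -/

namespace Pool.Agent.MP_ee2255_nt.T

open Polynomial Filter Topology Pool.Agent.MP_655169_nt

theorem dvr2_exists_val {B K : Type*} [CommRing B] [Field K] [Algebra B K]
    (hinj : Function.Injective (algebraMap B K)) (I : Ideal B) (hI : I ≠ ⊤) :
    ∃ V : ValuationSubring K, (∀ b : B, algebraMap B K b ∈ V) ∧
      ∀ b ∈ I, algebraMap B K b ∈ V.nonunits := by
  let f := (algebraMap B K).rangeRestrict
  have hf : Function.Surjective f := RingHom.rangeRestrict_surjective _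
  have hne : I.map f ≠ ⊤ := by
    intro h
    have h1 : (1 : (algebraMap B K).range) ∈ I.map f := h ▸ Submodule.mem_top
    obtain ⟨t, ht, ht1⟩ := (Ideal.mem_map_iff_of_surjective f hf).1 h1
    have h2 : algebraMap B K t = algebraMap B K 1 := by
      rw [map_one]
      exact congrArg Subtype.val ht1
    exact hI ((Ideal.eq_top_iff_one I).2 (hinj h2 ▸ ht))
  obtain ⟨V, hV1, hV2⟩ := Ideal.image_subset_nonunits_valuationSubring (I.map f) hne
  exact ⟨V, fun b => hV1 ⟨b, rfl⟩, fun b hb => hV2 ⟨f b, Ideal.mem_map_of_mem f hb, rfl⟩⟩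

theorem dvr2_step {B K : Type*} [CommRing B] [IsDomain B] [IsNoetherianRing B]
    [Field K] [Algebra B K] [IsFractionRing B K] (x : B) (hx : Ideal.span {x} ≠ ⊤) :
    ∃ v : Valuation K (WithZero (Multiplicative ℤ)), (∀ b : B, v (algebraMap B K b) ≤ 1) ∧
      v (algebraMap B K x) < 1 := by
  obtain ⟨p, hp⟩ := Ideal.nonempty_minimalPrimes hx
  have hpp : p.IsPrime := hp.isPrime
  have hht : p.height ≤ 1 :=
    Ideal.height_le_one_of_isPrincipal_of_mem_minimalPrimes (Ideal.span {x}) p hp
  have hS : p.primeCompl ≤ nonZeroDivisors B := Ideal.primeCompl_le_nonZeroDivisors p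
  let A : Subalgebra B K := Localization.subalgebra.ofField K p.primeCompl hS
  have hloc : IsLocalization.AtPrime A p :=
    Localization.subalgebra.isLocalization_ofField K p.primeCompl hS
  have hN : IsNoetherianRing A := IsLocalization.isNoetherianRing p.primeCompl A inferInstance
  have hL : IsLocalRing A := IsLocalization.AtPrime.isLocalRing A p
  have hdim : Ring.KrullDimLE 1 A := by
    rw [Ring.krullDimLE_iff, IsLocalization.AtPrime.ringKrullDim_eq_height p A]
    exact_mod_cast hht
  obtain ⟨V, hV1, hV2⟩ := dvr2_exists_val (B := A) (K := K) Subtype.val_injective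
    (IsLocalRing.maximalIdeal A) (IsLocalRing.maximalIdeal.isMaximal A).ne_top
  obtain ⟨v, hv⟩ := disc_of_dim_one (A := A) V hV1
  refine ⟨v, fun b => (hv _).2 (hV1 (algebraMap B A b)), ?_⟩
  have hxp : x ∈ p := hp.1.2 (Ideal.subset_span rfl)
  have hxm : algebraMap B A x ∈ IsLocalRing.maximalIdeal A :=
    (IsLocalization.AtPrime.to_map_mem_maximal_iff A p x).2 hxp
  have h1 : algebraMap B K x ∈ V.nonunits := hV2 _ hxm
  rcases V.mem_nonunits_iff_or.1 h1 with h0 | h0
  · rw [h0, map_zero]
    exact zero_lt_one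
  · rw [← hv, not_le, map_inv₀] at h0
    by_contra h
    rw [not_lt] at h
    exact absurd (inv_le_one_of_one_le₀ h) (not_le.2 h0)

theorem exists_disc {R K : Type*} [CommRing R] [IsDomain R] [IsNoetherianRing R] [IsLocalRing R]
    [Field K] [Algebra R K] [IsFractionRing R K] :
    ∃ v : Valuation K (WithZero (Multiplicative ℤ)), (∀ r : R, v (algebraMap R K r) ≤ 1) ∧
      ∀ r ∈ IsLocalRing.maximalIdeal R, v (algebraMap R K r) < 1 := by
  classical
  obtain ⟨V0, h01, h02⟩ := dvr2_exists_val (B := R) (K := K) (IsFractionRing.injective R K)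
    (IsLocalRing.maximalIdeal R) (IsLocalRing.maximalIdeal.isMaximal R).ne_top
  obtain ⟨s, hs⟩ := (IsNoetherian.noetherian (IsLocalRing.maximalIdeal R) : Submodule.FG _)
  obtain ⟨x, hxs, hxmax⟩ := Finset.exists_max_image (insert 0 s)
    (fun y => V0.valuation (algebraMap R K y)) (Finset.insert_nonempty 0 s)
  have hxm : x ∈ IsLocalRing.maximalIdeal R := by
    rcases Finset.mem_insert.1 hxs with h | h
    · rw [h]; exact Submodule.zero_mem _
    · rw [← hs]; exact Submodule.subset_span h
  let t : Finset K := s.image fun y => algebraMap R K y / algebraMap R K x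
  let B : Subalgebra R K := Algebra.adjoin R (t : Set K)
  have hN : IsNoetherianRing B := isNoetherianRing_of_fg ⟨t, rfl⟩
  have hfac : ∀ y ∈ s, algebraMap R K y =
      algebraMap R K x * (algebraMap R K y / algebraMap R K x) := by
    intro y hy
    by_cases h0 : algebraMap R K x = 0
    · have := hxmax y (Finset.mem_insert_of_mem hy)
      rw [h0, map_zero, le_zero_iff, Valuation.zero_iff] at this
      rw [h0, this, zero_mul]
    · rw [mul_div_cancel₀ _ h0]
  have hBV : ∀ z ∈ B, z ∈ V0 := by
    intro z hz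
    induction hz using Algebra.adjoin_induction with
    | mem z hz =>
      obtain ⟨y, hy, rfl⟩ := Finset.mem_image.1 (Finset.mem_coe.1 hz)
      rw [← V0.valuation_le_one_iff, map_div₀]
      exact div_le_one_of_le₀ (hxmax y (Finset.mem_insert_of_mem hy)) zero_le
    | algebraMap r => exact h01 r
    | add a b _ _ ha hb => exact V0.add_mem _ _ ha hb
    | mul a b _ _ ha hb => exact V0.mul_mem _ _ ha hb
  have hne : Ideal.span {algebraMap R B x} ≠ ⊤ := by
    rw [Ne, Ideal.span_singleton_eq_top]
    intro hu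
    obtain ⟨z, hz⟩ := hu.exists_right_inv
    have h1 : algebraMap R K x * (z : K) = 1 := congrArg Subtype.val hz
    have h2 : V0.valuation (algebraMap R K x) < 1 := V0.mem_nonunits_iff.1 (h02 x hxm)
    have h3 : V0.valuation (z : K) ≤ 1 := (V0.valuation_le_one_iff _).2 (hBV _ z.2)
    have h4 := mul_lt_one_of_nonneg_of_lt_one_left zero_le h2 h3
    rw [← map_mul, h1, map_one] at h4
    exact lt_irrefl _ h4
  obtain ⟨v, hv1, hv2⟩ := dvr2_step (B := B) (K := K) (algebraMap R B x) hne
  have hR : ∀ r : R, v (algebraMap R K r) ≤ 1 := fun r => hv1 (algebraMap R B r)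
  have hx : v (algebraMap R K x) < 1 := hv2
  refine ⟨v, hR, fun r hr => ?_⟩
  rw [← hs] at hr
  induction hr using Submodule.span_induction with
  | mem y hy =>
    have hy' : y ∈ s := Finset.mem_coe.1 hy
    have hb : algebraMap R K y / algebraMap R K x ∈ B :=
      Algebra.subset_adjoin (Finset.mem_coe.2 (Finset.mem_image.2 ⟨y, hy', rfl⟩))
    have h3 : v (algebraMap R K y / algebraMap R K x) ≤ 1 := hv1 ⟨_, hb⟩
    rw [hfac y hy', map_mul]
    exact mul_lt_one_of_nonneg_of_lt_one_left zero_le hx h3
  | zero => rw [map_zero, map_zero]; exact zero_lt_one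
  | add a b _ _ ha hb => rw [map_add]; exact v.map_add_lt ha hb
  | smul a b _ hb =>
    rw [smul_eq_mul, map_mul, map_mul]
    exact mul_lt_one_of_nonneg_of_lt_one_right (hR a) zero_le hb

end Pool.Agent.MP_ee2255_nt.T
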