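import Pool.Agent.MP_ee2255_nt.TDefs

/-! Evaluation of power series. -/

namespace Pool.Agent.MP_ee2255_nt.T

open Polynomial Filter Topology Pool.Agent.MP_655169_nt

theorem TEv_summable {σ : Type*} [Fintype σ] (r : σ → ℝ) (h0 : ∀ i, 0 ≤ r i)
    (h1 : ∀ i, r i < 1) : Summable fun e : σ →₀ ℕ => ∏ i, r i ^ e i := by
  classical
  refine summable_of_sum_le (c := ∏ i, (1 - r i)⁻¹)
    (fun e => Finset.prod_nonneg fun i _ => pow_nonneg (h0 i) _) fun S => ?_
  obtain ⟨N, hN⟩ : ∃ N : ℕ, ∀ e ∈ S, ∀ i, e i < N := by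
    refine ⟨S.sup (fun e => Finset.univ.sup fun i => e i) + 1, fun e he i => Nat.lt_succ_of_le ?_⟩
    exact (Finset.le_sup (f := fun i => e i) (Finset.mem_univ i)).trans
      (Finset.le_sup (f := fun e : σ →₀ ℕ => Finset.univ.sup fun i => e i) he)
  have e1 : ∑ e ∈ S, ∏ i, r i ^ e i =
      ∑ p ∈ S.image (fun e : σ →₀ ℕ => (e : σ → ℕ)), ∏ i, r i ^ p i := by
    rw [Finset.sum_image fun a _ b _ h => DFunLike.coe_injective h]
  rw [e1]
  calc ∑ p ∈ S.image (fun e : σ →₀ ℕ => (e : σ → ℕ)), ∏ i, r i ^ p i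
      ≤ ∑ p ∈ Fintype.piFinset fun _ : σ => Finset.range N, ∏ i, r i ^ p i := by
        refine Finset.sum_le_sum_of_subset_of_nonneg ?_
          fun p _ _ => Finset.prod_nonneg fun i _ => pow_nonneg (h0 i) _
        intro p hp
        obtain ⟨e, he, rfl⟩ := Finset.mem_image.1 hp
        exact Fintype.mem_piFinset.2 fun i => Finset.mem_range.2 (hN e he i)
    _ = ∏ i, ∑ j ∈ Finset.range N, r i ^ j := (Finset.prod_univ_sum _ _).symm
    _ ≤ ∏ i, (1 - r i)⁻¹ := by
        refine Finset.prod_le_prod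
          (fun i _ => Finset.sum_nonneg fun j _ => pow_nonneg (h0 i) _) fun i _ => ?_
        rw [← tsum_geometric_of_lt_one (h0 i) (h1 i)]
        exact (summable_geometric_of_lt_one (h0 i) (h1 i)).sum_le_tsum _
          fun j _ => pow_nonneg (h0 i) _

theorem TEv_gen {R L σ : Type*} [CommRing R] [NormedField L] [IsUltrametricDist L]
    [CompleteSpace L] [Fintype σ] (ψ : R →+* L) (hψ : ∀ a, ‖ψ a‖ ≤ 1) (x : σ → L)
    (hx : ∀ i, ‖x i‖ < 1) : ∃ φ : MvPowerSeries σ R →+* L,
      (∀ a, φ (MvPowerSeries.C a) = ψ a) ∧ (∀ i, φ (MvPowerSeries.X i) = x i) ∧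
      ∀ G, ‖φ G‖ ≤ 1 := by
  classical
  let t : MvPowerSeries σ R → (σ →₀ ℕ) → L := fun G e =>
    ψ (MvPowerSeries.coeff e G) * ∏ i, x i ^ e i
  have hb : ∀ G e, ‖t G e‖ ≤ ∏ i, ‖x i‖ ^ e i := by
    intro G e
    simp only [t, norm_mul, norm_prod, norm_pow]
    exact mul_le_of_le_one_left
      (Finset.prod_nonneg fun i _ => pow_nonneg (norm_nonneg _) _) (hψ _)
  have hn : ∀ G, Summable fun e => ‖t G e‖ := fun G =>
    (TEv_summable (fun i => ‖x i‖) (fun i => norm_nonneg _) hx).of_nonneg_of_le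
      (fun e => norm_nonneg _) (hb G)
  have hs : ∀ G, Summable (t G) := fun G => (hn G).of_norm
  have hm : ∀ (d : σ →₀ ℕ) (a : R),
      ∑' e, t (MvPowerSeries.monomial d a) e = ψ a * ∏ i, x i ^ d i := by
    intro d a
    rw [tsum_eq_single d]
    · simp only [t, MvPowerSeries.coeff_monomial_same]
    · intro e he
      simp only [t, MvPowerSeries.coeff_monomial_ne he, map_zero, zero_mul]
  have hC : ∀ a : R, ∑' e, t (MvPowerSeries.C a) e = ψ a := by
    intro a
    have := hm 0 a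
    simpa using this
  refine ⟨{ toFun := fun G => ∑' e, t G e
            map_one' := by simpa using hC 1
            map_mul' := ?_
            map_zero' := by simp [t]
            map_add' := ?_ }, hC, fun i => ?_, fun G => ?_⟩
  · intro G H
    rw [(hs G).tsum_mul_tsum_eq_tsum_sum_antidiagonal (hs H)
      (summable_mul_of_summable_norm (hn G) (hn H))]
    refine tsum_congr fun e => ?_
    simp only [t, MvPowerSeries.coeff_mul, map_sum, map_mul, Finset.sum_mul]
    refine Finset.sum_congr rfl fun p hp => ?_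
    rw [← Finset.HasAntidiagonal.mem_antidiagonal.1 hp]
    simp only [Finsupp.add_apply, pow_add, Finset.prod_mul_distrib]
    ring
  · intro G H
    rw [← (hs G).tsum_add (hs H)]
    refine tsum_congr fun e => ?_
    simp only [t, map_add, add_mul]
  · have := hm (Finsupp.single i 1) 1
    show ∑' e, t (MvPowerSeries.X i) e = x i
    rw [MvPowerSeries.X, this, map_one, one_mul, Finset.prod_eq_single i]
    · simp
    · intro j _ hj
      simp [Finsupp.single_apply, hj.symm]
    · simp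
  · show ‖∑' e, t G e‖ ≤ 1
    refine IsUltrametricDist.norm_tsum_le_of_forall_le_of_nonneg zero_le_one fun e => ?_
    exact (hb G e).trans (Finset.prod_le_one (fun i _ => pow_nonneg (norm_nonneg _) _)
      fun i _ => pow_le_one₀ (norm_nonneg _) (hx i).le)

theorem exists_ev {F L : Type*} [Field F] [Fintype F] [NormedField L] [IsUltrametricDist L]
    [CompleteSpace L] [Algebra F L] {n : ℕ} (s : L) (x : Fin n → L) (hs : ‖s‖ < 1)
    (hx : ∀ i, ‖x i‖ < 1) : ∃ φ : MvPowerSeries (Fin n) (PowerSeries F) →+* L,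
      (∀ a : F, φ (MvPowerSeries.C (PowerSeries.C a)) = algebraMap F L a) ∧
      φ (MvPowerSeries.C PowerSeries.X) = s ∧ (∀ i, φ (MvPowerSeries.X i) = x i) ∧
      ∀ G, ‖φ G‖ ≤ 1 := by
  obtain ⟨ψ, h1, h2, h3⟩ := TEv_gen (σ := Unit) (algebraMap F L) norm_F_le (fun _ => s)
    fun _ => hs
  obtain ⟨φ, k1, k2, k3⟩ := TEv_gen (R := PowerSeries F) ψ h3 x hx
  exact ⟨φ, fun a => (k1 _).trans (h1 a), (k1 _).trans (h2 ()), k2, k3⟩

end Pool.Agent.MP_ee2255_nt.T
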