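import Pool.Agent.MP_ee2255_nt.TGauss
import Pool.Agent.MP_ee2255_nt.TBd

/-! A small irreducible factor. -/

namespace Pool.Agent.MP_ee2255_nt.T

open Polynomial Filter Topology Pool.Agent.MP_655169_nt

section Swap

variable {K ι : Type*} [Field K]

/-- Exchange of the variables. -/
noncomputable def facSw : MvPolynomial ι K[X] →+* (MvPolynomial ι K)[X] :=
  MvPolynomial.eval₂Hom (Polynomial.mapRingHom MvPolynomial.C)
    fun i => Polynomial.C (MvPolynomial.X i)

theorem facSw_coeff (P : MvPolynomial ι K[X]) (e : ι →₀ ℕ) (j : ℕ) :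
    ((facSw P).coeff j).coeff e = (P.coeff e).coeff j := by
  classical
  induction P using MvPolynomial.induction_on' with
  | add p q hp hq => simp only [map_add, Polynomial.coeff_add, MvPolynomial.coeff_add, hp, hq]
  | monomial u a =>
    have h : facSw (MvPolynomial.monomial u a) =
        a.map MvPolynomial.C * Polynomial.C (MvPolynomial.monomial u (1 : K)) := by
      rw [facSw, MvPolynomial.eval₂Hom_monomial, MvPolynomial.monomial_eq, MvPolynomial.C_1,
        one_mul, Finsupp.prod, Finsupp.prod, map_prod]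
      simp
    rw [h, Polynomial.coeff_mul_C, Polynomial.coeff_map, MvPolynomial.coeff_C_mul,
      MvPolynomial.coeff_monomial, MvPolynomial.coeff_monomial]
    split_ifs <;> simp

theorem facSw_ne {P : MvPolynomial ι K[X]} (h : P ≠ 0) : facSw P ≠ 0 := fun k => h (by
  ext e j
  rw [← facSw_coeff, k]
  simp)

theorem facSw_le {P : MvPolynomial ι K[X]} {n : ℕ} :
    (facSw P).natDegree ≤ n ↔ ∀ e, (P.coeff e).natDegree ≤ n := by
  simp only [Polynomial.natDegree_le_iff_coeff_eq_zero]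
  refine ⟨fun h e j hj => by rw [← facSw_coeff, h j hj]; simp, fun h j hj => ?_⟩
  ext e
  rw [facSw_coeff, h e j hj]
  simp

/-- The weight. -/
noncomputable def facW (P : MvPolynomial ι K[X]) : ℕ := P.totalDegree + (facSw P).natDegree

theorem facW_mul {P Q : MvPolynomial ι K[X]} (hP : P ≠ 0) (hQ : Q ≠ 0) :
    facW (P * Q) = facW P + facW Q := by
  rw [facW, facW, facW, MvPolynomial.totalDegree_mul_of_isDomain hP hQ, map_mul,
    Polynomial.natDegree_mul (facSw_ne hP) (facSw_ne hQ)]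
  ring

end Swap

section Up

variable {C ι : Type*} [Field C] (k : Subfield C)

theorem fac_up_C (c : k) : up k (MvPolynomial.C (Polynomial.C c) : MvPolynomial ι k[X]) =
    MvPolynomial.C (Polynomial.C (c : C)) := by
  simp [up]

theorem fac_up_ne {P : MvPolynomial ι k[X]} (h : P ≠ 0) : up k P ≠ 0 := fun e =>
  h (up_inj k (e.trans (map_zero _).symm))

theorem fac_unit {c : k} (h : c ≠ 0) :
    IsUnit (MvPolynomial.C (Polynomial.C c) : MvPolynomial ι k[X]) :=
  ((IsUnit.mk0 c h).map Polynomial.C).map MvPolynomial.C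

theorem fac_pos {P : MvPolynomial ι k[X]} (h : Irreducible P) : 1 ≤ facW (up k P) := by
  by_contra hn
  have h₁ : (up k P).totalDegree = 0 := by unfold facW at hn; omega
  have h₂ : (facSw (up k P)).natDegree ≤ 0 := by unfold facW at hn; omega
  have h₃ := Polynomial.eq_C_of_natDegree_le_zero (facSw_le.1 h₂ 0)
  rw [MvPolynomial.totalDegree_eq_zero_iff_eq_C, h₃, up_coeff, ← fac_up_C] at h₁
  have h₄ := up_inj k h₁
  refine h.not_isUnit (h₄ ▸ fac_unit k fun e => h.ne_zero ?_)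
  rw [h₄, e]
  simp

end Up

variable {F C Ω : Type*} [Field F] [Fintype F] [NormedField C] [IsUltrametricDist C]
  [IsAlgClosed C] [Algebra F C] [NormedField Ω] [IsUltrametricDist Ω] [IsAlgClosed Ω]
  [Algebra C Ω] [Algebra F Ω] [IsScalarTower F C Ω] (Z : Sit F C Ω)

theorem fac_low (k : Subfield C) {r : ℕ} (f : Fin r → Ω) {ε : ℝ} (hε : 0 < ε) (hε1 : ε ≤ 1)
    (P : MvPolynomial (Fin r) k[X]) : P ≠ 0 →
    (∀ R, Irreducible R → R ∣ P → ε * cn Z (up k R) ≤ ‖Z.FF f (up k R)‖) →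
    ε ^ facW (up k P) * cn Z (up k P) ≤ ‖Z.FF f (up k P)‖ := by
  induction P using WfDvdMonoid.induction_on_irreducible with
  | zero => exact fun h => absurd rfl h
  | unit u hu =>
    intro _ _
    obtain ⟨a, -, rfl⟩ := MvPolynomial.isUnit_iff_eq_C_of_isReduced.1 hu
    have e : up k (MvPolynomial.C a : MvPolynomial (Fin r) k[X]) =
        MvPolynomial.C (a.map k.subtype) := by simp [up]
    rw [e, FF_C, MvPolynomial.C_apply, cn_monomial]
    exact mul_le_of_le_one_left (norm_nonneg _) (pow_le_one₀ hε.le hε1)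
  | mul a i ha hi ih =>
    intro _ H
    have h₁ := H i hi (dvd_mul_right i a)
    have h₂ := ih ha fun R hR k' => H R hR (k'.mul_left i)
    have h₃ : ε ^ facW (up k i) ≤ ε := by
      simpa using pow_le_pow_of_le_one hε.le hε1 (fac_pos k hi)
    have h₄ := cn_nonneg Z (up k i)
    have h₅ := cn_nonneg Z (up k a)
    rw [map_mul, facW_mul (fac_up_ne k hi.ne_zero) (fac_up_ne k ha), FF_mul, cn_mul, norm_mul,
      pow_add]
    calc ε ^ facW (up k i) * ε ^ facW (up k a) * (cn Z (up k i) * cn Z (up k a))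
        = ε ^ facW (up k i) * cn Z (up k i) * (ε ^ facW (up k a) * cn Z (up k a)) := by ring
      _ ≤ ε * cn Z (up k i) * (ε ^ facW (up k a) * cn Z (up k a)) := by gcongr
      _ ≤ _ := mul_le_mul h₁ h₂ (by positivity) (norm_nonneg _)

theorem exists_irred (L : Fl F Z.θ) {r : ℕ} (f : Fin r → Ω) (Q : MvPolynomial (Fin r) C[X])
    {δ : ℕ} {ε : ℝ} (hε : 0 < ε) (hε1 : ε ≤ 1) (h0 : Q ≠ 0) (hQ : BdB L.B δ Q)
    (h : ‖Z.FF f Q‖ < ε ^ (2 * δ) * cn Z Q) :
    ∃ Qk : MvPolynomial (Fin r) L.k[X], Irreducible Qk ∧ BdB L.B (2 * δ) (up L.k Qk) ∧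
      ‖Z.FF f (up L.k Qk)‖ < ε * cn Z (up L.k Qk) := by
  obtain ⟨Q0, rfl⟩ := exists_up L.k Q fun e j => L.sub δ _ ((hQ.2 e).2 j)
  have hQ0 : Q0 ≠ 0 := fun e => h0 (by rw [e, map_zero])
  have hd : (facSw (up L.k Q0)).natDegree ≤ δ := facSw_le.2 fun e => (hQ.2 e).1
  have hw : facW (up L.k Q0) ≤ 2 * δ := by
    have := hQ.1
    unfold facW
    omega
  obtain ⟨P, hP, ⟨R, rfl⟩, hs⟩ : ∃ P, Irreducible P ∧ P ∣ Q0 ∧
      ‖Z.FF f (up L.k P)‖ < ε * cn Z (up L.k P) := by
    by_contra hn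
    push Not at hn
    exact (fac_low Z L.k f hε hε1 Q0 hQ0 hn).not_gt (h.trans_le (mul_le_mul_of_nonneg_right
      (pow_le_pow_of_le_one hε.le hε1 hw) (cn_nonneg Z _)))
  have hR : R ≠ 0 := right_ne_zero_of_mul hQ0
  obtain ⟨e', j', hρ⟩ : ∃ e' j', (R.coeff e').coeff j' ≠ 0 := by
    by_contra hn
    push Not at hn
    exact hR (MvPolynomial.ext _ _ fun e => Polynomial.ext fun j => by simp [hn e j])
  have hρ' : (((R.coeff e').coeff j' : L.k) : C) ≠ 0 := fun e => hρ (Subtype.ext e)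
  have hP' := fac_up_ne L.k hP.ne_zero
  have hR' := fac_up_ne L.k hR
  rw [map_mul] at hQ hd h0
  have d₁ : (up L.k P).totalDegree ≤ δ :=
    (MvPolynomial.totalDegree_le_of_dvd_of_isDomain (dvd_mul_right _ _) h0).trans hQ.1
  have d₂ : (facSw (up L.k P)).natDegree ≤ δ := by
    rw [map_mul, Polynomial.natDegree_mul (facSw_ne hP') (facSw_ne hR')] at hd
    omega
  refine ⟨MvPolynomial.C (Polynomial.C ((R.coeff e').coeff j')) * P,
    (irreducible_isUnit_mul (fac_unit L.k hρ)).2 hP, ?_, ?_⟩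
  · rw [map_mul, fac_up_C]
    refine ⟨(MvPolynomial.totalDegree_mul _ _).trans ?_, fun e => ⟨?_, fun j => ?_⟩⟩
    · rw [MvPolynomial.totalDegree_C]
      omega
    · rw [MvPolynomial.coeff_C_mul]
      exact (Polynomial.natDegree_C_mul_le _ _).trans ((facSw_le.1 d₂ e).trans (by omega))
    · rw [MvPolynomial.coeff_C_mul, Polynomial.coeff_C_mul,
        mul_comm (((R.coeff e').coeff j' : L.k) : C), ← up_coeff]
      refine L.mono δ _ _ (by omega) (L.gauss r δ _ _ (fun e j => (hQ.2 e).2 j) e j e' j' ?_ ?_)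
      · rw [up_coeff]
        exact Subtype.prop _
      · rw [up_coeff]
        exact Subtype.prop _
  · have e₁ := cn_monomial Z (0 : Fin r →₀ ℕ) (Polynomial.C (((R.coeff e').coeff j' : L.k) : C))
    have e₂ := cn_C_mul Z (((R.coeff e').coeff j' : L.k) : C) (1 : MvPolynomial (Fin r) C[X])
    have e₃ := cn_monomial Z (0 : Fin r →₀ ℕ) (1 : C[X])
    rw [← MvPolynomial.C_apply] at e₁ e₃
    rw [map_one, map_one, norm_one] at e₃
    rw [mul_one, e₃, mul_one] at e₂
    rw [map_mul, fac_up_C, FF_mul, FF_C, norm_mul, cn_C_mul, ← e₁, e₂, mul_left_comm]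
    exact mul_lt_mul_of_pos_left hs (norm_pos_iff.2 hρ')

end Pool.Agent.MP_ee2255_nt.T
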