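import Pool.Agent.MP_ee2255_nt.TCarl
import Pool.Agent.MP_655169_nt.Inv

/-! From an additive eigenpolynomial to a relation in the Carlitz module. -/

namespace Pool.Agent.MP_ee2255_nt.T

open Polynomial Filter Topology Pool.Agent.MP_655169_nt

theorem TK3_tel {F C : Type*} [Field F] [Fintype F] [Field C] [Algebra F C] (θ : C) {r : ℕ}
    (y : Fin r → C) (d : Fin r → ℕ → F) (a : ℕ → C) (n : ℕ) (h0 : a 0 = 0) (hn : a n = 0)
    (h : ∀ i, ∑ j, d j i • y j = a i - cth F θ (a (i + 1))) {j₀ : Fin r} {i₀ : ℕ} (hi : i₀ < n)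
    (hd : d j₀ i₀ ≠ 0) : Rel F θ y := by
  refine ⟨fun j => ∑ i ∈ Finset.range n, Polynomial.C (d j i) * X ^ i, fun e => hd ?_, ?_⟩
  · have h1 := congrArg (fun f : F[X] => f.coeff i₀) (congrFun e j₀)
    simpa [finsetSum_coeff, coeff_C_mul, coeff_X_pow, hi] using h1
  · simp only [carl_sum_left, carl_mul, carl_C, carl_X_pow]
    rw [Finset.sum_comm]
    have h1 : ∀ i, ∑ j, d j i • (cth F θ ^ i) (y j) =
        (cth F θ ^ i) (a i) - (cth F θ ^ (i + 1)) (a (i + 1)) := fun i => by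
      rw [pow_succ, Module.End.mul_apply, ← map_sub, ← h, map_sum]
      simp only [map_smul]
    simp only [h1]
    rw [Finset.sum_range_sub' (fun i => (cth F θ ^ i) (a i)), h0, hn, map_zero, map_zero, sub_zero]

variable {F C Ω : Type*} [Field F] [Fintype F] [NormedField C] [IsUltrametricDist C]
  [IsAlgClosed C] [Algebra F C] [NormedField Ω] [IsUltrametricDist Ω] [IsAlgClosed Ω]
  [Algebra C Ω] [Algebra F Ω] [IsScalarTower F C Ω] (Z : Sit F C Ω)

theorem rel_of_eq {r : ℕ} (y : Fin r → C) (b : ℕ) (c : Fin r → F[X]) (A : C[X]) (hc : c ≠ 0)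
    (h : Z.tw 1 A + ∑ j, (c j).map (algebraMap F C) * Polynomial.C (y j ^ ringChar F ^ b) =
      Z.ss ^ ringChar F ^ b * A) : Rel F Z.θ y := by
  obtain ⟨p, hp⟩ : ∃ p, p = ringChar F := ⟨_, rfl⟩
  rw [← hp] at h
  have : CharP F p := hp ▸ ringChar.charP F
  have : Fact p.Prime := ⟨CharP.char_is_prime F p⟩
  have : CharP C p := charP_of_injective_algebraMap (algebraMap F C).injective p
  have hP : 0 < p ^ b := pow_pos (Fact.out : p.Prime).pos b
  obtain ⟨j₀, hj₀⟩ := Function.ne_iff.1 hc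
  obtain ⟨i₀, hi₀⟩ : ∃ i, (c j₀).coeff i ≠ 0 := by
    by_contra k
    push Not at k
    exact hj₀ (Polynomial.ext k)
  have hρ : i₀ % p ^ b < p ^ b := Nat.mod_lt _ hP
  obtain ⟨ρ, hρd⟩ : ∃ ρ, ρ = i₀ % p ^ b := ⟨_, rfl⟩
  rw [← hρd] at hρ
  let φ := iterateFrobeniusEquiv C p b
  let ψ := iterateFrobeniusEquiv F p b
  have hφ : ∀ x, φ x = x ^ p ^ b := fun x => rfl
  have hψ : ∀ x, ψ x = x ^ p ^ b := fun x => rfl
  have hs : Z.ss ^ p ^ b = X ^ p ^ b - Polynomial.C (Z.θ ^ p ^ b) := by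
    rw [Sit.ss, sub_pow_char_pow, map_pow]
  have hk : ∀ k, A.coeff k ^ qq F + ∑ j, algebraMap F C ((c j).coeff k) * y j ^ p ^ b =
      (X ^ p ^ b * A).coeff k - Z.θ ^ p ^ b * A.coeff k := fun k => by
    have h1 := congrArg (fun f : C[X] => f.coeff k) h
    simp only [hs, sub_mul, coeff_sub, coeff_add, finsetSum_coeff, coeff_mul_C, coeff_C_mul,
      coeff_map, Sit.tw, coe_mapRingHom, pow_one, Z.fr_eq] at h1
    exact h1
  refine TK3_tel Z.θ y (fun j i => ψ.symm ((c j).coeff (i * p ^ b + ρ)))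
    (fun i => φ.symm ((X ^ p ^ b * A).coeff (i * p ^ b + ρ))) (A.natDegree + i₀ + 2) ?_ ?_
    (fun i => ?_) (j₀ := j₀) (i₀ := i₀ / p ^ b) ?_ ?_
  · rw [zero_mul, zero_add, coeff_X_pow_mul', if_neg hρ.not_ge, map_zero]
  · rw [show (A.natDegree + i₀ + 2) * p ^ b + ρ = (A.natDegree + i₀ + 1) * p ^ b + ρ + p ^ b by
      ring, coeff_X_pow_mul, coeff_eq_zero_of_natDegree_lt, map_zero]
    have := Nat.le_mul_of_pos_right (A.natDegree + i₀ + 1) hP
    omega
  · apply φ.injective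
    rw [show (i + 1) * p ^ b + ρ = i * p ^ b + ρ + p ^ b by ring, coeff_X_pow_mul, cth_apply,
      map_sub, map_add, map_mul, map_pow, RingEquiv.apply_symm_apply, RingEquiv.apply_symm_apply,
      map_sum, hφ Z.θ]
    have h1 : ∀ j, φ (ψ.symm ((c j).coeff (i * p ^ b + ρ)) • y j) =
        algebraMap F C ((c j).coeff (i * p ^ b + ρ)) * y j ^ p ^ b := fun j => by
      rw [Algebra.smul_def, map_mul, hφ, hφ, ← map_pow, ← hψ, RingEquiv.apply_symm_apply]
    simp only [h1]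
    linear_combination hk (i * p ^ b + ρ)
  · have := Nat.div_le_self i₀ (p ^ b)
    omega
  · rw [hρd, Nat.div_add_mod']
    exact fun e => hi₀ ((map_eq_zero_iff _ ψ.symm.injective).1 e)

end Pool.Agent.MP_ee2255_nt.T
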