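import Pool.Agent.MP_ee2255_nt.TDefs
import Pool.Agent.MP_ee2255_nt.SLog1
import Pool.Agent.MP_655169_nt.Inv

/-! Eigenpolynomials of the twist. -/

namespace Pool.Agent.MP_ee2255_nt.T

open Polynomial Filter Topology Pool.Agent.MP_655169_nt

section Strip

variable {k : Type*} [Field k]

theorem tko_strip {τ : k →+* k} {a : k} (ha : a ≠ 0)
    (hH : ∀ n : ℕ, 1 ≤ n → ∀ c, τ c = a ^ n * c → c = 0) {r : ℕ} {α : Fin (r + 1) → k}
    (hα : α (Fin.last r) = 0) (d : ℕ) : ∀ P : MvPolynomial (Fin (r + 1)) k, P ≠ 0 →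
      S.twKO τ a α P = MvPolynomial.C (a ^ d) * P →
      (∃ (c : k) (ν : ℕ), P = MvPolynomial.C c * MvPolynomial.X (Fin.last r) ^ ν) ∨
      ∃ (n : ℕ) (Q : MvPolynomial (Fin r) k), Q ≠ 0 ∧ 1 ≤ n ∧
        S.twKO τ a (fun j : Fin r => α j.castSucc) Q = MvPolynomial.C (a ^ n) * Q := by
  classical
  let π : MvPolynomial (Fin (r + 1)) k →ₐ[k] MvPolynomial (Fin r) k :=
    MvPolynomial.aeval fun j => Fin.lastCases (motive := fun _ => MvPolynomial (Fin r) k) 0
      (fun i => MvPolynomial.X i) j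
  have hπ : ∀ P, π (S.twKO τ a α P) = S.twKO τ a (fun j : Fin r => α j.castSucc) (π P) :=
    fun P => by
    induction P using MvPolynomial.induction_on with
    | C c => simp [π]
    | add P Q hP hQ => simp only [map_add, hP, hQ]
    | mul_X P j hP =>
      rw [map_mul, map_mul, map_mul, map_mul, hP]
      congr 1
      induction j using Fin.lastCases with
      | last => simp [π, hα]
      | cast i => simp [π]
  have hd : ∀ P, MvPolynomial.X (Fin.last r) ∣ P - MvPolynomial.rename Fin.castSucc (π P) :=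
    fun P => by
    induction P using MvPolynomial.induction_on with
    | C c => simp [π]
    | add P Q hP hQ =>
      rw [map_add, map_add, add_sub_add_comm]
      exact dvd_add hP hQ
    | mul_X P j hP =>
      rw [map_mul, map_mul]
      induction j using Fin.lastCases with
      | last => simp [π]
      | cast i =>
        have : MvPolynomial.rename Fin.castSucc (π (MvPolynomial.X i.castSucc)) =
            MvPolynomial.X i.castSucc := by simp [π]
        rw [this, ← sub_mul]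
        exact hP.mul_right _
  induction d with
  | zero =>
    intro P h2 h
    have h3 := S.eigen_degKO ha hH h2 (m := 0) (n := 0) (α := α) (by rw [← h]; simp)
    have h4 := MvPolynomial.totalDegree_eq_zero_iff_eq_C.1 (show P.totalDegree = 0 by omega)
    exact Or.inl ⟨P.coeff 0, 0, by rw [pow_zero, mul_one]; exact h4⟩
  | succ d ih =>
    intro P h2 h
    by_cases e : π P = 0
    · obtain ⟨Q, hQ⟩ := hd P
      rw [e, map_zero, sub_zero] at hQ
      subst hQ
      have h5 : S.twKO τ a α Q = MvPolynomial.C (a ^ d) * Q := by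
        refine mul_left_cancel₀ (a := MvPolynomial.C a * MvPolynomial.X (Fin.last r))
          (mul_ne_zero (by simp [ha]) (MvPolynomial.X_ne_zero _)) ?_
        rw [map_mul, S.twKO_X, hα, map_zero, zero_add] at h
        rw [h, pow_succ, map_mul]
        ring
      rcases ih Q (right_ne_zero_of_mul h2) h5 with ⟨c, ν, rfl⟩ | h6
      · exact Or.inl ⟨c, ν + 1, by ring⟩
      · exact Or.inr h6
    · refine Or.inr ⟨d + 1, π P, e, by omega, ?_⟩
      rw [← hπ, h, map_mul]
      simp [π]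

theorem tko_field (p : ℕ) [Fact p.Prime] [CharP k p] {τ : k →+* k} {a : k} (ha : a ≠ 0)
    (hH : ∀ n : ℕ, 1 ≤ n → ∀ c, τ c = a ^ n * c → c = 0) {r : ℕ} {α : Fin (r + 1) → k}
    (hα : α (Fin.last r) = 0) {P : MvPolynomial (Fin (r + 1)) k} (hP : P ≠ 0) {w : k}
    (h : S.twKO τ a α P = MvPolynomial.C w * P) :
    (∃ (c : k) (ν : ℕ), P = MvPolynomial.C c * MvPolynomial.X (Fin.last r) ^ ν) ∨
      ∃ (b : ℕ) (c : Fin r → k) (s : k), c ≠ 0 ∧ (∀ j, τ (c j) = c j) ∧
        τ s + ∑ j, c j * α j.castSucc ^ p ^ b = a ^ p ^ b * s := by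
  obtain ⟨κ, h1, -, h3⟩ := S.top_monoKO hP
  have h4 := congrArg (MvPolynomial.coeff κ) h
  rw [MvPolynomial.coeff_C_mul, S.coeff_twKO τ a α h3] at h4
  set c := MvPolynomial.coeff κ P
  have hc : τ c ≠ 0 := (map_ne_zero τ).2 h1
  have h5 : (τ c)⁻¹ * w = a ^ κ.degree * c⁻¹ := by
    field_simp
    linear_combination -h4
  have h6 : S.twKO τ a α (MvPolynomial.C c⁻¹ * P) =
      MvPolynomial.C (a ^ κ.degree) * (MvPolynomial.C c⁻¹ * P) := by
    rw [map_mul, S.twKO_C, h, map_inv₀, ← mul_assoc, ← mul_assoc, ← map_mul, ← map_mul, h5]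
  rcases tko_strip ha hH hα _ _ (mul_ne_zero (by simp [h1]) hP) h6 with
    ⟨c', ν, e⟩ | ⟨n, Q, e1, e2, e3⟩
  · refine Or.inl ⟨c * c', ν, ?_⟩
    rw [map_mul, mul_assoc, ← e, ← mul_assoc, ← map_mul, mul_inv_cancel₀ h1, map_one, one_mul]
  · obtain ⟨b, c', s, f1, f2, f3⟩ := S.eigen_addKO p ha hH n Q e1 e2 e3
    refine Or.inr ⟨b, c', s, f1, f2, ?_⟩
    have hq : p ^ b ≠ 0 := pow_ne_zero b (Fact.out : p.Prime).ne_zero
    have f4 := congrArg MvPolynomial.constantCoeff f3
    simpa [f2, zero_pow hq] using f4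

end Strip

variable {F C Ω : Type*} [Field F] [Fintype F] [NormedField C] [IsUltrametricDist C]
  [IsAlgClosed C] [Algebra F C] [NormedField Ω] [IsUltrametricDist Ω] [IsAlgClosed Ω]
  [Algebra C Ω] [Algebra F Ω] [IsScalarTower F C Ω] (Z : Sit F C Ω)

theorem ko_eigen {r : ℕ} (y : Fin (r + 1) → C) (hy : y (Fin.last r) = 0)
    (Q : MvPolynomial (Fin (r + 1)) C[X]) (hQ : Q ≠ 0) (h : Q ∣ Z.sgt y Q) :
    (∃ (a : C[X]) (ν : ℕ), Q = MvPolynomial.C a * MvPolynomial.X (Fin.last r) ^ ν) ∨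
    ∃ (b : ℕ) (c : Fin r → F[X]) (A : C[X]), c ≠ 0 ∧
      Z.tw 1 A + ∑ j, (c j).map (algebraMap F C) * Polynomial.C (y j.castSucc ^ ringChar F ^ b) =
        Z.ss ^ ringChar F ^ b * A := by
  classical
  obtain ⟨w, hw⟩ : ∃ w : C[X], Z.sgt y Q = MvPolynomial.C w * Q := by
    obtain ⟨R, hR⟩ := h
    by_cases h0 : R = 0
    · exact ⟨0, by rw [hR, h0]; simp⟩
    · have h1 := Z.sgt_deg y Q
      rw [hR, MvPolynomial.totalDegree_mul_of_isDomain hQ h0] at h1
      have h2 := MvPolynomial.totalDegree_eq_zero_iff_eq_C.1 (show R.totalDegree = 0 by omega)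
      exact ⟨R.coeff 0, by rw [hR, ← h2, mul_comm]⟩
  obtain ⟨K, _, g, τ, hg, hτ, hall⟩ : ∃ (K : Type _) (_ : Field K) (g : C[X] →+* K) (τ : K →+* K),
      Function.Injective g ∧ (∀ A, τ (g A) = g (Z.tw 1 A)) ∧ ∀ x, x ∈ S.slogFr g := by
    refine ⟨FractionRing C[X], inferInstance, algebraMap _ _,
      IsFractionRing.lift (g := (algebraMap _ _).comp (Z.tw 1))
        ((IsFractionRing.injective _ _).comp Z.tw_bij.1),
      IsFractionRing.injective _ _, fun A => IsFractionRing.lift_algebraMap _ A, fun x => ?_⟩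
    obtain ⟨u, v, -, rfl⟩ := IsFractionRing.div_surjective C[X] x
    exact div_mem (S.slog_self _ _) (S.slog_self _ _)
  have hτ' : ∀ A : C[X], τ (g A) = g (A.map (Z.fr ^ 1)) := hτ
  have : Fact (ringChar F).Prime := ⟨CharP.char_is_prime F _⟩
  have : CharP K (ringChar F) :=
    charP_of_injective_ringHom ((g.comp Polynomial.C).comp (algebraMap F C)).injective _
  have ha : g Z.ss ≠ 0 := (map_ne_zero_iff g hg).2 (X_sub_C_ne_zero Z.θ)
  have hH : ∀ n : ℕ, 1 ≤ n → ∀ c, τ c = g Z.ss ^ n * c → c = 0 := fun n hn c hc =>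
    S.slog_hH hg (Z.fr ^ 1) τ hτ' Z.θ n hn c (hall c) hc
  have hmap : ∀ P : MvPolynomial (Fin (r + 1)) C[X], MvPolynomial.map g (Z.sgt y P) =
      S.twKO τ (g Z.ss) (fun j => g (Polynomial.C (y j))) (MvPolynomial.map g P) := fun P => by
    unfold Sit.sgt
    induction P using MvPolynomial.induction_on with
    | C c => simp [hτ]
    | add P Q hP hQ => simp only [MvPolynomial.eval₂_add, map_add, hP, hQ]
    | mul_X P j hP =>
      rw [MvPolynomial.eval₂_mul, map_mul, map_mul, map_mul, hP]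
      simp
  have hP : MvPolynomial.map g Q ≠ 0 :=
    (map_ne_zero_iff _ (MvPolynomial.map_injective g hg)).2 hQ
  have h1 := hmap Q
  rw [hw, map_mul, MvPolynomial.map_C] at h1
  rcases tko_field (ringChar F) ha hH (by simp [hy]) hP h1.symm with
    ⟨c, ν, e⟩ | ⟨b, c, s, f1, f2, f3⟩
  · refine Or.inl ⟨Q.coeff (Finsupp.single (Fin.last r) ν), ν,
      MvPolynomial.map_injective g hg ?_⟩
    have e1 := congrArg (MvPolynomial.coeff (Finsupp.single (Fin.last r) ν)) e
    rw [MvPolynomial.coeff_map, MvPolynomial.coeff_C_mul, MvPolynomial.coeff_X_pow, if_pos rfl,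
      mul_one] at e1
    rw [e, map_mul, map_pow, MvPolynomial.map_C, MvPolynomial.map_X, e1]
  right
  have h2 : ∀ j, ∃ U V : C[X], V ≠ 0 ∧ Z.tw 1 V = V ∧ c j * g V = g U :=
    fun j => S.slog_den hg (Z.fr ^ 1) τ hτ' (hall (c j)) (u := 0) (v := 1) (by simp [f2])
  choose U V hV0 hV hU using h2
  obtain ⟨B, hB0, hB, W, hW⟩ : ∃ B : C[X], B ≠ 0 ∧ Z.tw 1 B = B ∧
      ∃ W : Fin r → C[X], ∀ j, c j * g B = g (W j) := by
    refine ⟨∏ j, V j, Finset.prod_ne_zero_iff.2 fun j _ => hV0 j, ?_,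
      fun j => U j * ∏ i ∈ Finset.univ.erase j, V i, fun j => ?_⟩
    · rw [map_prod]
      exact Finset.prod_congr rfl fun j _ => hV j
    · rw [← Finset.mul_prod_erase _ _ (Finset.mem_univ j), map_mul, map_mul, ← mul_assoc, hU]
  have hWf : ∀ j, Z.tw 1 (W j) = W j := fun j => hg (by rw [← hτ, ← hW, map_mul, f2, hτ, hB])
  have e3 : g (∑ j, W j * Polynomial.C (y j.castSucc ^ ringChar F ^ b)) =
      (∑ j, c j * g (Polynomial.C (y j.castSucc)) ^ ringChar F ^ b) * g B := by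
    rw [map_sum, Finset.sum_mul]
    refine Finset.sum_congr rfl fun j _ => ?_
    rw [map_mul, ← hW, map_pow, map_pow]
    ring
  have e4 : τ (s * g B) = g (-∑ j, W j * Polynomial.C (y j.castSucc ^ ringChar F ^ b)) +
      g (Z.ss ^ ringChar F ^ b) * (s * g B) := by
    rw [map_neg, e3, map_mul, hτ, hB, map_pow]
    linear_combination g B * f3
  obtain ⟨A, B', hB0', hB', e5⟩ : ∃ A B' : C[X], B' ≠ 0 ∧ Z.tw 1 B' = B' ∧ s * g B * g B' = g A :=
    S.slog_den hg (Z.fr ^ 1) τ hτ' (hall (s * g B)) e4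
  have h3 : ∀ j, ∃ D : F[X], W j * B' = D.map (algebraMap F C) := fun j =>
    Z.tw_fixed _ (by rw [map_mul, hWf, hB'])
  choose D hD using h3
  refine ⟨b, D, A, fun h0 => f1 (funext fun j => ?_), hg ?_⟩
  · have h4 := hD j
    rw [h0, Pi.zero_apply, Polynomial.map_zero] at h4
    have h5 := hW j
    rw [(mul_eq_zero.1 h4).resolve_right hB0', map_zero] at h5
    exact (mul_eq_zero.1 h5).resolve_right ((map_ne_zero_iff g hg).2 hB0)
  · have e6 : ∑ j, (D j).map (algebraMap F C) * Polynomial.C (y j.castSucc ^ ringChar F ^ b) =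
        (∑ j, W j * Polynomial.C (y j.castSucc ^ ringChar F ^ b)) * B' := by
      rw [Finset.sum_mul]
      refine Finset.sum_congr rfl fun j _ => ?_
      rw [← hD]
      ring
    rw [e6, map_add, ← hτ, ← e5, map_mul τ, e4, hτ, hB', map_mul g, map_mul g, ← e5, map_neg]
    ring

end Pool.Agent.MP_ee2255_nt.T
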