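import Pool.Agent.MP_ee2255_nt.TAgf
import Pool.Agent.MP_ee2255_nt.TGauss
import Pool.Agent.MP_ee2255_nt.TBd

/-! Truncation of the first generating function. -/

set_option linter.unusedSectionVars false

namespace Pool.Agent.MP_ee2255_nt.T

open Polynomial Filter Topology Pool.Agent.MP_655169_nt

variable {F C Ω : Type*} [Field F] [Fintype F] [NormedField C] [IsUltrametricDist C]
  [IsAlgClosed C] [Algebra F C] [NormedField Ω] [IsUltrametricDist Ω] [IsAlgClosed Ω]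
  [Algebra C Ω] [Algebra F Ω] [IsScalarTower F C Ω] (Z : Sit F C Ω)

variable {r : ℕ}

theorem ttr_eval {A R : Type*} [CommRing A] [CommRing R] (g : A →+* R) (w₀ : R) (w : Fin r → R)
    (P : MvPolynomial (Fin (r + 1)) A) : MvPolynomial.eval₂ g (Fin.cons w₀ w) P =
      (MvPolynomial.finSuccEquiv A r P).eval₂ (MvPolynomial.eval₂Hom g w) w₀ := by
  induction P using MvPolynomial.induction_on with
  | C a => simp [MvPolynomial.finSuccEquiv_apply]
  | add p q hp hq => rw [MvPolynomial.eval₂_add, map_add, eval₂_add, hp, hq]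
  | mul_X p i hp =>
    rw [MvPolynomial.eval₂_mul, map_mul, eval₂_mul, hp, MvPolynomial.eval₂_X]
    congr 1
    refine Fin.cases ?_ (fun j => ?_) i
    · rw [MvPolynomial.finSuccEquiv_X_zero, eval₂_X, Fin.cons_zero]
    · rw [MvPolynomial.finSuccEquiv_X_succ, eval₂_C, Fin.cons_succ, MvPolynomial.eval₂Hom_X']

theorem ttr_hom {R : Type*} [CommRing R] (g : C[X] →+* R) (u : C) (m D : ℕ) (w₀ : R)
    (w : Fin r → R) (hg : g (Z.num u m) = g (Z.den m) * w₀) (P : MvPolynomial (Fin (r + 1)) C[X])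
    (hD : P.totalDegree ≤ D) : MvPolynomial.eval₂ g w (cut Z u m D P) =
      g (Polynomial.C (dall Z m) * Z.den m) ^ D * MvPolynomial.eval₂ g (Fin.cons w₀ w) P := by
  have hd : (MvPolynomial.finSuccEquiv C[X] r P).natDegree < D + 1 := by
    rw [MvPolynomial.natDegree_finSuccEquiv]
    exact Nat.lt_succ_of_le ((MvPolynomial.degreeOf_le_totalDegree P 0).trans hD)
  rw [ttr_eval, eval₂_eq_sum_range' _ hd, cut, MvPolynomial.eval₂_sum, Finset.mul_sum]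
  refine Finset.sum_congr rfl fun j hj => ?_
  have hj' : j ≤ D := Nat.le_of_lt_succ (Finset.mem_range.1 hj)
  have e : g (Polynomial.C (dall Z m) * Z.den m) ^ D =
      g (Polynomial.C (dall Z m) * Z.den m) ^ j *
        g (Polynomial.C (dall Z m) * Z.den m) ^ (D - j) := by
    rw [← pow_add, Nat.add_sub_cancel' hj']
  rw [MvPolynomial.eval₂_mul, MvPolynomial.eval₂_C, e, MvPolynomial.coe_eval₂Hom]
  simp only [map_mul, map_pow, hg]
  ring

theorem ttr_D_ne (i : ℕ) : carlitzD (qq F) Z.θ i ≠ 0 := by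
  rw [← norm_pos_iff, norm_carlitzD _ two_le_qq _ Z.hθ]
  exact pow_pos (zero_lt_one.trans Z.hθ) _

section Cv

/-- All coefficients have degree at most `δ`. -/
def TtrCv (F : Type*) {C κ : Type*} [Field F] [Field C] [Algebra F C] (ω : κ → C) (δ : ℕ)
    (H : C[X]) : Prop := ∀ j, H.coeff j ∈ Vs F ω δ

variable {F C κ : Type*} [Field F] [Field C] [Algebra F C] {ω : κ → C} {δ δ' : ℕ} {H H' : C[X]}

theorem TtrCv.mono (h : TtrCv F ω δ H) (hδ : δ ≤ δ') : TtrCv F ω δ' H :=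
  fun j => Vs_mono ω hδ (h j)

theorem TtrCv.add (h : TtrCv F ω δ H) (h' : TtrCv F ω δ H') : TtrCv F ω δ (H + H') := fun j => by
  rw [coeff_add]
  exact Submodule.add_mem _ (h j) (h' j)

theorem TtrCv.mul (h : TtrCv F ω δ H) (h' : TtrCv F ω δ' H') : TtrCv F ω (δ + δ') (H * H') :=
  fun j => by
    rw [coeff_mul]
    exact Submodule.sum_mem _ fun x _ => Vs_mul ω (h _) (h' _)

theorem ttr_cv_C {c : C} (h : c ∈ Vs F ω δ) : TtrCv F ω δ (Polynomial.C c) := fun j => by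
  rw [coeff_C]
  split_ifs
  · exact h
  · exact Submodule.zero_mem _

theorem ttr_one (δ : ℕ) : (1 : C) ∈ Vs F ω δ := by simpa using Vs_const ω (1 : F) δ

theorem TtrCv.pow (h : TtrCv F ω δ H) (k : ℕ) : TtrCv F ω (k * δ) (H ^ k) := by
  induction k with
  | zero => rw [pow_zero, ← C_1]; exact ttr_cv_C (ttr_one _)
  | succ k ih => rw [pow_succ, add_mul, one_mul]; exact ih.mul h

theorem ttr_cv_fac {c : C} (h : c ∈ Vs F ω δ) : TtrCv F ω δ (Polynomial.C c - X) := fun j => by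
  rw [coeff_sub, coeff_X]
  refine Submodule.sub_mem _ (ttr_cv_C h j) ?_
  split_ifs
  · exact ttr_one _
  · exact Submodule.zero_mem _

theorem ttr_prod {s : ℕ → C} (n : ℕ) (h : ∀ j < n, s j ∈ Vs F ω δ) :
    ∏ j ∈ Finset.range n, s j ∈ Vs F ω (n * δ) := by
  induction n with
  | zero => simpa using ttr_one 0
  | succ n ih =>
    rw [Finset.prod_range_succ, add_mul, one_mul]
    exact Vs_mul ω (ih fun j hj => h j (Nat.lt_succ_of_lt hj)) (h n (Nat.lt_succ_self n))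

theorem ttr_D_mem {θ : C} (hθ : θ ∈ Vs F ω 1) {q : ℕ} (hq : 1 ≤ q) (i : ℕ) :
    carlitzD q θ i ∈ Vs F ω (i * q ^ i) :=
  ttr_prod i fun j hj => Submodule.sub_mem _ (by simpa using Vs_pow ω hθ (q ^ i))
    (Vs_mono ω (by simpa using Nat.pow_le_pow_right hq hj.le) (Vs_pow ω hθ (q ^ j)))

end Cv

theorem ttr_den_num {κ : Type*} (ω : κ → C) (hθ : Z.θ ∈ Vs F ω 1) {u : C} {δ₀ : ℕ}
    (hu : u ∈ Vs F ω δ₀) (m : ℕ) :
    TtrCv F ω ((m ^ 2 + m) * qq F ^ m) (Polynomial.C (dall Z m) * Z.den m) ∧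
      TtrCv F ω ((δ₀ + m ^ 2 + m) * qq F ^ m) (Polynomial.C (dall Z m) * Z.num u m) := by
  have hq : 1 ≤ qq F := le_trans one_le_two two_le_qq
  induction m with
  | zero =>
    refine ⟨?_, ?_⟩
    · rw [Z.trunc1_den_zero, mul_one, dall, Finset.prod_range_zero]
      exact ttr_cv_C (ttr_one _)
    · rw [Sit.num, mul_zero]
      exact fun j => Submodule.zero_mem _
  | succ m ih =>
    have hD := ttr_cv_C (ttr_D_mem hθ hq m)
    have hf : TtrCv F ω (qq F ^ m) (Polynomial.C (Z.θ ^ qq F ^ m) - X) :=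
      ttr_cv_fac (by simpa using Vs_pow ω hθ (qq F ^ m))
    have hp : qq F ^ m ≤ qq F ^ (m + 1) := Nat.pow_le_pow_right hq (Nat.le_succ m)
    have e₀ : dall Z (m + 1) = carlitzD (qq F) Z.θ m * dall Z m := by
      rw [dall, Finset.prod_range_succ, mul_comm, dall]
    have e₁ : Polynomial.C (carlitzD (qq F) Z.θ m) * Polynomial.C (Z.ee u m) =
        Polynomial.C (u ^ qq F ^ m) := by
      rw [← C_mul, Sit.ee, mul_div_cancel₀ _ (ttr_D_ne Z m)]
    refine ⟨?_, ?_⟩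
    · have e : Polynomial.C (dall Z (m + 1)) * Z.den (m + 1) =
          Polynomial.C (carlitzD (qq F) Z.θ m) * (Polynomial.C (dall Z m) * Z.den m) *
            (Polynomial.C (Z.θ ^ qq F ^ m) - X) := by
        rw [e₀, Z.trunc1_den_succ, C_mul]
        ring
      rw [e]
      refine ((hD.mul ih.1).mul hf).mono (le_trans ?_ (Nat.mul_le_mul_left _ hp))
      nlinarith [Nat.zero_le (m * qq F ^ m), Nat.zero_le (qq F ^ m)]
    · have e : Polynomial.C (dall Z (m + 1)) * Z.num u (m + 1) =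
          Polynomial.C (carlitzD (qq F) Z.θ m) * (Polynomial.C (dall Z m) * Z.num u m) *
            (Polynomial.C (Z.θ ^ qq F ^ m) - X) +
          Polynomial.C (u ^ qq F ^ m) * (Polynomial.C (dall Z m) * Z.den m) := by
        rw [e₀, Sit.num, C_mul, ← e₁]
        ring
      rw [e]
      refine TtrCv.add (((hD.mul ih.2).mul hf).mono (le_trans ?_ (Nat.mul_le_mul_left _ hp)))
        (((ttr_cv_C (Vs_pow ω hu (qq F ^ m))).mul ih.1).mono
          (le_trans ?_ (Nat.mul_le_mul_left _ hp)))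
      · nlinarith [Nat.zero_le (m * qq F ^ m), Nat.zero_le (qq F ^ m)]
      · nlinarith [Nat.zero_le (m * qq F ^ m), Nat.zero_le (qq F ^ m)]

theorem ttr_eq {Λ : Type*} [NormedField Λ] [IsUltrametricDist Λ] {a b : Λ}
    (h : ‖a - b‖ < ‖b‖) : ‖a‖ = ‖b‖ := by
  have := IsUltrametricDist.norm_add_eq_max_of_norm_ne_norm h.ne
  rw [sub_add_cancel] at this
  rw [this, max_eq_right h.le]

theorem cut_FF (u : C) (m D : ℕ) (P : MvPolynomial (Fin (r + 1)) C[X]) (hD : P.totalDegree ≤ D)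
    (f : Fin r → Ω) : Z.FF f (cut Z u m D P) =
      aeval Z.t (Polynomial.C (dall Z m) * Z.den m) ^ D * Z.FF (Fin.cons (Z.fm u m) f) P :=
  ttr_hom Z (aeval Z.t : C[X] →ₐ[C] Ω).toRingHom u m D _ f (Z.num_t u m) P hD

theorem cut_VV (u : C) (m D k : ℕ) (P : MvPolynomial (Fin (r + 1)) C[X]) (hD : P.totalDegree ≤ D)
    (w : Fin r → C) : MvPolynomial.eval₂ (Z.evt k) w (cut Z u m D P) =
      Z.evt k (Polynomial.C (dall Z m) * Z.den m) ^ D *
        MvPolynomial.eval₂ (Z.evt k) (Fin.cons (Z.phm u k m) w) P :=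
  ttr_hom Z (Z.evt k) u m D _ w (Z.num_evt u k m) P hD

theorem cut_norm (m k : ℕ) : aeval Z.t (Polynomial.C (dall Z m) * Z.den m) ≠ 0 ∧
    ‖Z.evt k (Polynomial.C (dall Z m) * Z.den m)‖ =
      ‖aeval Z.t (Polynomial.C (dall Z m) * Z.den m)‖ ^ qq F ^ (k + 1) := by
  have h : dall Z m ≠ 0 := Finset.prod_ne_zero_iff.2 fun i _ => ttr_D_ne Z i
  rw [map_mul, map_mul, aeval_C, Z.evt_C, norm_mul, norm_mul, Z.norm_evt_den, Z.norm_alg, norm_pow,
    mul_pow]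
  exact ⟨mul_ne_zero ((_root_.map_ne_zero _).2 h) (Z.den_ne m), rfl⟩

theorem cut_bd {κ : Type*} (ω : κ → C) (hθ : Z.θ ∈ Vs F ω 1) {u : C} {δ₀ δ D T : ℕ} (m : ℕ)
    (hu : u ∈ Vs F ω δ₀) (P : MvPolynomial (Fin (r + 1)) C[X]) (hD : P.totalDegree ≤ D)
    (hP : ∀ e, (P.coeff e).natDegree ≤ T ∧ ∀ j, (P.coeff e).coeff j ∈ Vs F ω δ) :
    (cut Z u m D P).totalDegree ≤ D ∧ ∀ e, ((cut Z u m D P).coeff e).natDegree ≤ T + D * m ∧
      ∀ j, ((cut Z u m D P).coeff e).coeff j ∈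
        Vs F ω (δ + D * ((δ₀ + m ^ 2 + m) * qq F ^ m)) := by
  obtain ⟨h₁, h₂⟩ := ttr_den_num Z ω hθ hu m
  refine ⟨MvPolynomial.totalDegree_finsetSum_le fun j _ => ?_, fun e => ?_⟩
  · refine (MvPolynomial.totalDegree_mul _ _).trans ?_
    rw [MvPolynomial.totalDegree_C, add_zero]
    by_cases h : (MvPolynomial.finSuccEquiv C[X] r P).coeff j = 0
    · rw [h, MvPolynomial.totalDegree_zero]
      exact Nat.zero_le _
    · exact ((Nat.le_add_right _ _).trans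
        (MvPolynomial.totalDegree_coeff_finSuccEquiv_add_le P j h)).trans hD
  have e₁ : (cut Z u m D P).coeff e = ∑ j ∈ Finset.range (D + 1), P.coeff (e.cons j) *
      ((Polynomial.C (dall Z m) * Z.num u m) ^ j *
        (Polynomial.C (dall Z m) * Z.den m) ^ (D - j)) := by
    rw [cut, MvPolynomial.coeff_sum]
    refine Finset.sum_congr rfl fun j _ => ?_
    rw [mul_comm, MvPolynomial.coeff_C_mul, MvPolynomial.finSuccEquiv_coeff_coeff, mul_comm]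
  rw [e₁]
  refine ⟨natDegree_sum_le_of_forall_le _ _ fun j hj => ?_, fun i => ?_⟩
  · have hj' : j ≤ D := Nat.le_of_lt_succ (Finset.mem_range.1 hj)
    have k₁ : ((Polynomial.C (dall Z m) * Z.num u m) ^ j).natDegree ≤ j * m :=
      natDegree_pow_le.trans (Nat.mul_le_mul_left _
        ((natDegree_C_mul_le _ _).trans (Z.num_deg u m)))
    have k₂ : ((Polynomial.C (dall Z m) * Z.den m) ^ (D - j)).natDegree ≤ (D - j) * m :=
      natDegree_pow_le.trans (Nat.mul_le_mul_left _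
        ((natDegree_C_mul_le _ _).trans (Z.den_deg m)))
    refine natDegree_mul_le.trans (add_le_add (hP _).1
      (natDegree_mul_le.trans ((add_le_add k₁ k₂).trans_eq ?_)))
    rw [← add_mul, Nat.add_sub_cancel' hj']
  · rw [finsetSum_coeff]
    refine Submodule.sum_mem _ fun j hj => ?_
    have hj' : j ≤ D := Nat.le_of_lt_succ (Finset.mem_range.1 hj)
    have k₁ := (h₂.pow j).mul ((h₁.mono (δ' := (δ₀ + m ^ 2 + m) * qq F ^ m)
      (Nat.mul_le_mul_right _ (by omega))).pow (D - j))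
    rw [← add_mul, Nat.add_sub_cancel' hj'] at k₁
    exact TtrCv.mul (δ := δ) (hP _).2 k₁ i

theorem tr_step (u al : Fin (r + 1) → C) (f : Fin (r + 1) → Ω)
    (hA : ∀ j, Z.Agf (u j) (al j) (f j)) {n m D T : ℕ} (hn : ∀ j, ‖u j‖ ≤ ‖Z.θ‖ ^ n) (hm : n ≤ m)
    (P : MvPolynomial (Fin (r + 1)) C[X]) (hD : P.totalDegree ≤ D)
    (hT : ∀ e, (P.coeff e).natDegree ≤ T)
    (h : (‖Z.θ‖ ^ (n * qq F ^ n)) ^ D * ‖Z.θ‖ ^ T *
      Real.exp (-(min 1 (Real.log ‖Z.θ‖) * max 1 (-Real.log ‖u 0‖) * (qq F : ℝ) ^ m)) <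
        ‖Z.FF f P‖ / cn Z P) :
    cut Z (u 0) m D P ≠ 0 ∧ ∀ k,
      ‖Z.FF (Fin.tail f) (cut Z (u 0) m D P)‖ ^ qq F ^ (k + 1) ≤
        ‖Z.VV (Fin.tail u) (Fin.tail al) k (cut Z (u 0) m D P)‖ →
      ‖Z.FF f P‖ ^ qq F ^ (k + 1) ≤ ‖Z.VV u al k P‖ := by
  obtain ⟨R, hR⟩ : ∃ R, R = ‖Z.θ‖ ^ (n * qq F ^ n) := ⟨_, rfl⟩
  obtain ⟨ε, hε⟩ : ∃ ε, ε = Real.exp
    (-(min 1 (Real.log ‖Z.θ‖) * max 1 (-Real.log ‖u 0‖) * (qq F : ℝ) ^ m)) := ⟨_, rfl⟩
  have sz := fun j => agf_size Z (hA j) (hn j)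
  have tl := agf_tail Z (hA 0) (hn 0) hm
  rw [← hR] at sz h
  rw [← hε] at tl h
  have hε0 : 0 < ε := hε ▸ Real.exp_pos _
  have hR1 : 1 ≤ R := hR ▸ one_le_pow₀ Z.hθ.le
  have hθT : 1 ≤ ‖Z.θ‖ ^ T := one_le_pow₀ Z.hθ.le
  have hc : 0 < cn Z P := by
    refine (cn_nonneg Z P).lt_of_ne fun h0 => ?_
    rw [← h0, div_zero] at h
    exact absurd h (not_lt.2 (by positivity))
  rw [lt_div_iff₀ hc] at h
  have h₁ : ‖Z.FF (Fin.cons (Z.fm (u 0) m) (Fin.tail f)) P - Z.FF f P‖ ≤ cn Z P * R ^ D * ε :=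
    FF_lip Z _ _ hR1 hε0.le (fun i => Fin.cases ((sz 0).2.2.1 m) (fun j => (sz j.succ).2.1) i)
      (fun i => (sz i).2.1) (fun i => Fin.cases (by rw [norm_sub_rev]; exact tl.1)
        (fun j => by simp [Fin.tail, hε0.le]) i) P hD
  have h₂ : cn Z P * R ^ D * ε < ‖Z.FF f P‖ := by
    refine lt_of_le_of_lt ?_ h
    have : 0 < cn Z P * R ^ D * ε := by positivity
    nlinarith
  have h₃ := ttr_eq (h₁.trans_lt h₂)
  have h₄ : 0 < ‖Z.FF f P‖ := lt_of_le_of_lt (by positivity) h₂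
  have hFF := cut_FF Z (u 0) m D P hD (Fin.tail f)
  refine ⟨fun h0 => ?_, fun k hk => ?_⟩
  · rw [h0, Sit.FF, MvPolynomial.eval₂_zero] at hFF
    rcases mul_eq_zero.1 hFF.symm with e | e
    · exact (cut_norm Z m 0).1 (eq_zero_of_pow_eq_zero e)
    · rw [e, norm_zero] at h₃
      exact h₄.ne h₃
  obtain ⟨Q, hQ⟩ : ∃ Q, Q = qq F ^ (k + 1) := ⟨_, rfl⟩
  obtain ⟨W, hW⟩ : ∃ W, W = MvPolynomial.eval₂ (Z.evt k) (Fin.cons (Z.phm (u 0) k m)
    fun i => ph (qq F) Z.θ (Fin.tail u i) (Fin.tail al i) k) P := ⟨_, rfl⟩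
  obtain ⟨n₁, n₂⟩ := cut_norm Z m k
  have k₁ : ‖Z.FF f P‖ ^ Q ≤ ‖W‖ := by
    rw [hFF, Sit.VV, cut_VV Z (u 0) m D k P hD, ← hW, norm_mul, norm_mul, h₃, norm_pow, norm_pow,
      n₂, mul_pow, ← pow_mul, ← pow_mul, mul_comm D, ← hQ] at hk
    exact le_of_mul_le_mul_left hk (pow_pos (norm_pos_iff.2 n₁) _)
  have k₂ : ‖Z.VV u al k P - W‖ ≤ cn Z P ^ Q * ‖Z.θ‖ ^ T * (R ^ Q) ^ D * ε ^ Q := by
    rw [hW, Sit.VV, hQ]
    refine lip_eval₂ (Z.evt k) P _ _ _ _ _ (by positivity) (fun e => (Z.evt_le k _ T (hT e)).trans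
      (by gcongr; exact le_cn Z P e)) (one_le_pow₀ hR1) (by positivity)
      (fun i => (sz i).2.2.2.2 k)
      (fun i => Fin.cases ((sz 0).2.2.2.1 k m) (fun j => (sz j.succ).2.2.2.2 k) i)
      (fun i => Fin.cases (tl.2 k) (fun j => ?_) i) D hD
    simp only [Fin.cons_succ, Fin.tail, sub_self, norm_zero]
    positivity
  have hQ1 : Q ≠ 0 := by
    rw [hQ]
    exact pow_ne_zero _ Fintype.card_ne_zero
  have k₃ : cn Z P ^ Q * ‖Z.θ‖ ^ T * (R ^ Q) ^ D * ε ^ Q < ‖Z.FF f P‖ ^ Q := by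
    refine lt_of_le_of_lt ?_ (pow_lt_pow_left₀ h (by positivity) hQ1)
    have e : (R ^ D * ‖Z.θ‖ ^ T * ε * cn Z P) ^ Q =
        cn Z P ^ Q * (‖Z.θ‖ ^ T) ^ Q * (R ^ Q) ^ D * ε ^ Q := by
      rw [← pow_mul R Q D, mul_comm Q D, pow_mul]
      ring
    rw [e]
    gcongr
    exact le_self_pow₀ hθT hQ1
  rw [← hQ, ttr_eq ((k₂.trans_lt k₃).trans_le k₁)]
  exact k₁

end Pool.Agent.MP_ee2255_nt.T
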