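import Pool.Agent.MP_ee2255_nt.TML3
import Pool.Agent.MP_ee2255_nt.TTr

/-! The main comparison. -/

namespace Pool.Agent.MP_ee2255_nt.T

open Polynomial Filter Topology Pool.Agent.MP_655169_nt

variable {F E C Ω : Type*} [Field F] [Fintype F] [Field E] [Infinite E] [NormedField C]
  [IsUltrametricDist C] [IsAlgClosed C] [Algebra F C] [Algebra E C] [Algebra F E]
  [IsScalarTower F E C] [NormedField Ω] [IsUltrametricDist Ω] [IsAlgClosed Ω]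
  [Algebra C Ω] [Algebra F Ω] [IsScalarTower F C Ω] (X : Ctx F E C Ω)

theorem mc (D k : ℕ → ℕ) (hD : Pol D)
    (hk : ∀ T, Lin T → ∀ᶠ ℓ in UU,
      ‖X.Z.θ‖ ^ (D ℓ * T ℓ) < Real.exp (X.η * (qq F ^ (k ℓ + 1) : ℕ))) (r : ℕ) :
    ∀ (u al : ℕ → Fin r → C) (f : ℕ → Fin r → Ω), Fam X u al f → Good F X.Z.θ r u →
    ∀ (P : ℕ → MvPolynomial (Fin r) C[X]) (δ T : ℕ → ℕ), Pol δ → Lin T →
    (∀ᶠ ℓ in UU, P ℓ ≠ 0 ∧ (P ℓ).totalDegree ≤ D ℓ ∧ ∀ e, ((P ℓ).coeff e).natDegree ≤ D ℓ * T ℓ ∧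
      ∀ j, ((P ℓ).coeff e).coeff j ∈ Vs F X.ω (δ ℓ)) →
    ∀ᶠ ℓ in UU, X.Z.FF (f ℓ) (P ℓ) ≠ 0 ∧ ‖X.Z.FF (f ℓ) (P ℓ)‖ ^ qq F ^ (k ℓ + 1) ≤
      ‖X.Z.VV (u ℓ) (al ℓ) (k ℓ) (P ℓ)‖ := by
  have hθ : X.Z.θ ∈ Vs F X.ω 1 := X.hθ ▸ Vs_var X.ω X.iθ
  induction r with
  | zero =>
    intro u al f _ _ P δ T _ hT hP
    filter_upwards [hP, hk T hT] with ℓ ⟨h0, _, h2⟩ h3
    rw [MvPolynomial.eq_C_of_isEmpty (P ℓ)] at h0 ⊢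
    rw [Sit.FF, Sit.VV, MvPolynomial.eval₂_C, MvPolynomial.eval₂_C]
    exact ⟨X.Z.aeval_ne _ fun e => h0 (by rw [e, map_zero]),
      X.Z.evt_ge X.E0 X.η X.gap _ (fun j => Vs_sub X.ω X.E0 X.memF X.memω ((h2 0).2 j)) _
        (h2 0).1 _ h3⟩
  | succ r ih =>
    intro u al f hF hG P δ T hδ hT hP
    obtain ⟨δ₀, hδ₀, h₀⟩ := hF.deg
    obtain ⟨n, hn, hn'⟩ := hF.size
    have hM := one_le_lev fun ℓ => u ℓ 0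
    have hL := ml X hF hM hG.1 ((hδ.add hD).add (hD.mul hT.pol)) (P := P) (hP.mono fun ℓ h =>
      ⟨h.1, h.2.1.trans (by omega), fun e => ⟨(h.2.2 e).1.trans (by omega), fun j =>
        Vs_mono _ (by omega) ((h.2.2 e).2 j)⟩⟩)
    have hc := Big.const hM ‖X.Z.θ‖
    have p0 : ∀ᶠ _ℓ in UU, 0 ≤ ‖X.Z.θ‖ := Eventually.of_forall fun _ => norm_nonneg _
    have hR := ((hc.pow hM p0 (hn.pol.mul (hn.pow_pol (qq F)))).pow hM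
      (Eventually.of_forall fun _ => by positivity) hD).mul hM (hc.pow hM p0 (hD.mul hT.pol))
      (Eventually.of_forall fun _ => by positivity)
    obtain ⟨m₀, hm₀, hm⟩ := exists_trunc hM hL hR (lt_min one_pos (Real.log_pos X.Z.hθ))
      (two_le_qq (F := F))
    have hm₁ := hm₀.add hn
    have st : ∀ᶠ ℓ in UU, cut X.Z (u ℓ 0) (m₀ ℓ + n ℓ) (D ℓ) (P ℓ) ≠ 0 ∧ ∀ k,
        ‖X.Z.FF (Fin.tail (f ℓ)) (cut X.Z (u ℓ 0) (m₀ ℓ + n ℓ) (D ℓ) (P ℓ))‖ ^ qq F ^ (k + 1) ≤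
          ‖X.Z.VV (Fin.tail (u ℓ)) (Fin.tail (al ℓ)) k
            (cut X.Z (u ℓ 0) (m₀ ℓ + n ℓ) (D ℓ) (P ℓ))‖ →
        ‖X.Z.FF (f ℓ) (P ℓ)‖ ^ qq F ^ (k + 1) ≤ ‖X.Z.VV (u ℓ) (al ℓ) k (P ℓ)‖ := by
      filter_upwards [hF.agf, hn', hP, hm] with ℓ h1 h2 h3 h4
      exact tr_step X.Z _ _ _ h1 h2 (Nat.le_add_left _ _) _ h3.2.1 (fun e => (h3.2.2 e).1)
        (h4 _ (Nat.le_add_right _ _))
    have hF' : Fam X (fun ℓ => Fin.tail (u ℓ)) (fun ℓ => Fin.tail (al ℓ))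
        fun ℓ => Fin.tail (f ℓ) :=
      ⟨hF.agf.mono fun ℓ h j => h j.succ, ⟨δ₀, hδ₀, h₀.mono fun ℓ h j => h j.succ⟩,
        ⟨n, hn, hn'.mono fun ℓ h j => h j.succ⟩,
        hF.last.mono fun ℓ h j hj => h j.succ (by rw [Fin.val_succ, hj])⟩
    have key := ih _ _ _ hF' hG.2 (fun ℓ => cut X.Z (u ℓ 0) (m₀ ℓ + n ℓ) (D ℓ) (P ℓ)) _ _
      (hδ.add (hD.mul (((hδ₀.add (hm₁.pol.pow 2)).add hm₁.pol).mul (hm₁.pow_pol (qq F)))))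
      (hT.add hm₁) (by
        filter_upwards [st, hP, h₀] with ℓ h1 h2 h3
        have := cut_bd X.Z X.ω hθ (m₀ ℓ + n ℓ) (h3 0).1 (P ℓ) h2.2.1 h2.2.2
        exact ⟨h1.1, this.1, fun e => ⟨(this.2 e).1.trans (mul_add _ _ _).ge, (this.2 e).2⟩⟩)
    filter_upwards [st, key, hL.pos] with ℓ h1 h2 h3
    exact ⟨fun e => by simp [e] at h3, h1.2 _ h2.2⟩

end Pool.Agent.MP_ee2255_nt.T
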