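import Pool.Agent.MP_ee2255_nt.TCarl

/-! The period. -/

namespace Pool.Agent.MP_ee2255_nt.T

open Polynomial Filter Topology Pool.Agent.MP_655169_nt

theorem TPi_zeta {F K : Type*} [Field F] [Fintype F] [NormedField K] {θ ζ : K} (hθ : 1 < ‖θ‖)
    (hζ : ζ ^ (qq F - 1) = -θ) : 1 < ‖ζ‖ ∧ ‖ζ‖ ≤ ‖θ‖ := by
  have h : ‖ζ‖ ^ (qq F - 1) = ‖θ‖ := by rw [← norm_pow, hζ, norm_neg]
  have h2 : 2 ≤ qq F := two_le_qq
  have h1 : 1 < ‖ζ‖ := by
    by_contra hn
    exact absurd (h ▸ pow_le_one₀ (norm_nonneg ζ) (not_lt.1 hn)) (not_le.2 hθ)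
  exact ⟨h1, h ▸ le_self_pow₀ h1.le (by omega)⟩

theorem TPi_pow {F K : Type*} [Field F] [Fintype F] [Field K] {θ ζ : K}
    (hζ : ζ ^ (qq F - 1) = -θ) : ζ ^ qq F = -(θ * ζ) := by
  have h2 : 2 ≤ qq F := two_le_qq
  rw [show qq F = qq F - 1 + 1 by omega, pow_succ, hζ, neg_mul]

theorem exists_per {F K : Type*} [Field F] [Fintype F] [NormedField K] [IsUltrametricDist K]
    [CompleteSpace K] [Algebra F K] {θ ζ : K} (hθ : 1 < ‖θ‖) (hζ : ζ ^ (qq F - 1) = -θ) :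
    ∃ π : K, HS F θ (π / θ) ζ ∧ ‖π‖ = ‖θ‖ * ‖ζ‖ := by
  have hz := TPi_zeta hθ hζ
  have h0 : 0 < ‖θ‖ := one_pos.trans hθ
  have hθ0 : θ ≠ 0 := norm_pos_iff.1 h0
  let T : K → K := fun w => ζ - (carlitzExp (qq F) θ w - w)
  have key : ∀ w w' : K, ‖w‖ ≤ ‖θ‖ → ‖w'‖ ≤ ‖θ‖ → ‖T w - T w'‖ * ‖θ‖ ≤ ‖w - w'‖ := by
    intro w w' hw hw'
    have h1 : ‖w' - w‖ ≤ ‖θ‖ := by
      rw [sub_eq_add_neg]
      exact (IsUltrametricDist.norm_add_le_max _ _).trans (max_le hw' (by rwa [norm_neg]))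
    have h2 := (((HS.exp (F := F) hθ w').sub (HS.exp hθ w)).iso hθ h1).2
    have e : T w - T w' = carlitzExp (qq F) θ w' - carlitzExp (qq F) θ w - (w' - w) := by
      simp only [T]
      ring
    rw [e, norm_sub_rev w]
    exact h2
  have hm : Set.MapsTo T (Metric.closedBall 0 ‖θ‖) (Metric.closedBall 0 ‖θ‖) := by
    intro w hw
    rw [mem_closedBall_zero_iff] at hw ⊢
    have h2 := ((HS.exp (F := F) hθ w).iso hθ hw).2
    have h3 : ‖carlitzExp (qq F) θ w - w‖ ≤ ‖θ‖ :=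
      ((le_mul_of_one_le_right (norm_nonneg _) hθ.le).trans h2).trans hw
    simp only [T]
    rw [sub_eq_add_neg ζ]
    exact (IsUltrametricDist.norm_add_le_max _ _).trans (max_le hz.2 (by rwa [norm_neg]))
  have hc : ContractingWith ‖θ‖₊⁻¹ (hm.restrict T _ _) := by
    refine ⟨inv_lt_one_of_one_lt₀ (by exact_mod_cast hθ), LipschitzWith.of_dist_le_mul ?_⟩
    intro w w'
    have h1 := key w w' (mem_closedBall_zero_iff.1 w.2) (mem_closedBall_zero_iff.1 w'.2)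
    rw [Subtype.dist_eq, Subtype.dist_eq, dist_eq_norm, dist_eq_norm, NNReal.coe_inv, coe_nnnorm,
      inv_mul_eq_div, le_div_iff₀ h0]
    exact h1
  obtain ⟨w, hw, hf, -⟩ := hc.exists_fixedPoint' Metric.isClosed_closedBall.isComplete hm
    (Metric.mem_closedBall_self h0.le) (edist_ne_top _ _)
  have he : carlitzExp (qq F) θ w = ζ := by
    have : ζ - (carlitzExp (qq F) θ w - w) = w := hf
    linear_combination -this
  have hs : HS F θ w ζ := he ▸ HS.exp hθ w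
  refine ⟨θ * w, by rwa [mul_div_cancel_left₀ _ hθ0], ?_⟩
  rw [norm_mul, (hs.iso hθ (mem_closedBall_zero_iff.1 hw)).1]

theorem zeta_norm {F K : Type*} [Field F] [Fintype F] [NormedField K] {θ ζ : K} (hθ : 1 < ‖θ‖)
    (hζ : ζ ^ (qq F - 1) = -θ) : 1 < ‖ζ‖ ∧ ‖ζ‖ ≤ ‖θ‖ := TPi_zeta hθ hζ

variable {F E C Ω : Type*} [Field F] [Fintype F] [Field E] [Infinite E] [NormedField C]
  [IsUltrametricDist C] [IsAlgClosed C] [Algebra F C] [Algebra E C] [Algebra F E]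
  [IsScalarTower F E C] [NormedField Ω] [IsUltrametricDist Ω] [IsAlgClosed Ω]
  [Algebra C Ω] [Algebra F Ω] [IsScalarTower F C Ω] (X : Ctx F E C Ω)

theorem per_zero : HS F X.Z.θ X.per 0 := by
  have h0 : X.Z.θ ≠ 0 := norm_pos_iff.1 (one_pos.trans X.Z.hθ)
  have h := X.hπ.theta X.Z.hθ
  rw [mul_div_cancel₀ _ h0, TPi_pow X.hζ, add_neg_cancel] at h
  exact h

theorem per_agf {al : C} {f : Ω} (h : X.Z.Agf X.per al f) : al = 0 ∧ 1 ≤ ‖f‖ := by
  refine ⟨HS.unique h.hs (per_zero X), ?_⟩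
  have hz := zeta_norm X.Z.hθ X.hζ
  have h0 : 0 < ‖X.Z.θ‖ := one_pos.trans X.Z.hθ
  have e : ∀ i, ‖algebraMap C Ω (X.Z.ee X.per i) /
      (algebraMap C Ω (X.Z.θ ^ qq F ^ i) - X.Z.t)‖ = (‖X.ζ‖ / ‖X.Z.θ‖ ^ i) ^ qq F ^ i := by
    intro i
    rw [X.Z.basic_t1, Sit.ee, norm_div, norm_carlitzD _ two_le_qq _ X.Z.hθ, norm_pow, X.nπ,
      mul_pow, div_pow, pow_mul]
    field_simp
  have h1 := basic_tail _ f h.lim 1 1 zero_le_one fun i hi => by
    rw [e]
    refine pow_le_one₀ (by positivity) ((div_le_one (by positivity)).2 (hz.2.trans ?_))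
    exact le_self_pow₀ X.Z.hθ.le (by omega)
  rw [Finset.sum_range_one] at h1
  have h2 := e 0
  rw [pow_zero ‖X.Z.θ‖, div_one, pow_zero (qq F), pow_one ‖X.ζ‖] at h2
  rw [pow_zero (qq F)] at h1
  by_contra hn
  have h3 := IsUltrametricDist.norm_add_le_max f (-(f - algebraMap C Ω (X.Z.ee X.per 0) /
      (algebraMap C Ω (X.Z.θ ^ 1) - X.Z.t)))
  rw [norm_neg, neg_sub, add_sub_cancel, h2] at h3
  exact absurd (h3.trans (max_le (not_le.1 hn).le h1)) (not_le.2 hz.1)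

theorem TPi_near (N : ℕ) : ∀ (u a : C) (ε : ℝ), u ∈ X.E0 → HS F X.Z.θ u a →
    ‖u‖ ≤ ‖X.Z.θ‖ ^ (N + 1) → ‖a‖ ≤ ε → ε < 1 →
    ∃ g : F[X], g.natDegree ≤ N ∧ ‖u - aeval X.Z.θ g * X.per‖ ≤ ε := by
  have hθ := X.Z.hθ
  have h0 : 0 < ‖X.Z.θ‖ := one_pos.trans hθ
  have hθ0 : X.Z.θ ≠ 0 := norm_pos_iff.1 h0
  have hz := zeta_norm hθ X.hζ
  have hζ0 : X.ζ ≠ 0 := norm_pos_iff.1 (one_pos.trans hz.1)
  have hq : 2 ≤ qq F := two_le_qq
  have hθE : X.Z.θ ∈ X.E0 := X.hθ ▸ X.memω X.iθ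
  induction N with
  | zero =>
    intro u a ε _ h hN ha _
    rw [zero_add, pow_one] at hN
    refine ⟨0, by simp, ?_⟩
    rw [map_zero, zero_mul, sub_zero, ← (h.iso hθ hN).1]
    exact ha
  | succ N ih =>
    intro u a ε hu h hN ha hε
    obtain ⟨s, hs⟩ := X.hex (u / X.Z.θ) (div_mem hu hθE)
    have e1 : a = X.Z.θ * s + s ^ qq F := by
      have h1 := hs.theta hθ
      rw [mul_div_cancel₀ _ hθ0] at h1
      exact h.unique h1
    have e2 : (s / X.ζ) ^ qq F - s / X.ζ = a / X.ζ ^ qq F := by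
      rw [div_pow, e1, TPi_pow X.hζ]
      field_simp
      ring
    obtain ⟨c, hc⟩ := near_F (F := F) (s / X.ζ) (by
      rw [e2, norm_div, norm_pow]
      exact (div_le_self (norm_nonneg _) (one_le_pow₀ hz.1.le)).trans_lt (ha.trans_lt hε))
    have hs' := hs.sub (X.hπ.smul c)
    have hlt : ‖s - c • X.ζ‖ < ‖X.ζ‖ := by
      have e : s - c • X.ζ = (s / X.ζ - algebraMap F C c) * X.ζ := by
        rw [Algebra.smul_def]
        field_simp
      rw [e, norm_mul]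
      exact mul_lt_of_lt_one_left (one_pos.trans hz.1) hc
    have e3 : a = X.Z.θ * (s - c • X.ζ) + (s - c • X.ζ) ^ qq F := by
      have h1 := hs'.theta hθ
      have h2 := h.sub ((per_zero X).smul c)
      rw [smul_zero, sub_zero] at h2
      have e : X.Z.θ * (u / X.Z.θ - c • (X.per / X.Z.θ)) = u - c • X.per := by
        rw [Algebra.smul_def, Algebra.smul_def]
        field_simp
      rw [e] at h1
      exact h2.unique h1
    have e4 : ‖s - c • X.ζ‖ ≤ ε / ‖X.Z.θ‖ := by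
      rw [le_div_iff₀ h0]
      refine le_trans ?_ ha
      have e : a = (X.Z.θ - -(s - c • X.ζ) ^ (qq F - 1)) * (s - c • X.ζ) := by
        rw [e3, show qq F = qq F - 1 + 1 by omega, pow_succ, Nat.add_sub_cancel]
        ring
      have hl : ‖-(s - c • X.ζ) ^ (qq F - 1)‖ < ‖X.Z.θ‖ := by
        rw [norm_neg, norm_pow, ← norm_neg X.Z.θ, ← X.hζ, norm_pow]
        exact pow_lt_pow_left₀ hlt (norm_nonneg _) (by omega)
      rw [e, norm_mul, basic1_norm_sub hl, mul_comm]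
    have hε0 : 0 ≤ ε := (norm_nonneg _).trans ha
    obtain ⟨g, hg, hg'⟩ := ih (u / X.Z.θ - c • (X.per / X.Z.θ)) _ (ε / ‖X.Z.θ‖)
      (by
        rw [Algebra.smul_def]
        exact sub_mem (div_mem hu hθE) (mul_mem (X.memF c) (div_mem X.memπ hθE))) hs'
      (by
        rw [sub_eq_add_neg]
        refine (IsUltrametricDist.norm_add_le_max _ _).trans (max_le ?_ ?_)
        · rw [norm_div, div_le_iff₀ h0, ← pow_succ]
          exact hN
        · rw [norm_neg, Algebra.smul_def, norm_mul, norm_div, X.nπ, mul_div_cancel_left₀ _ h0.ne']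
          exact (mul_le_of_le_one_left (norm_nonneg _) (norm_F_le c)).trans
            (hz.2.trans (le_self_pow₀ hθ.le (by omega)))) e4
      ((div_le_self hε0 hθ.le).trans_lt hε)
    refine ⟨Polynomial.X * g + Polynomial.C c, ?_, ?_⟩
    · refine natDegree_add_le_of_degree_le (natDegree_mul_le.trans ?_) (by simp)
      have := natDegree_X_le (R := F)
      omega
    · have e : u - aeval X.Z.θ (Polynomial.X * g + Polynomial.C c) * X.per =
          X.Z.θ * (u / X.Z.θ - c • (X.per / X.Z.θ) - aeval X.Z.θ g * X.per) := by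
        rw [map_add, map_mul, aeval_X, aeval_C, Algebra.smul_def]
        field_simp
        ring
      rw [e, norm_mul, mul_comm, ← le_div_iff₀ h0]
      exact hg'

/-- A point with small exponential is close to the period lattice. -/
theorem per_near (N : ℕ) {u a : C} (hu : u ∈ X.E0) (h : HS F X.Z.θ u a) (hN : ‖u‖ ≤ ‖X.Z.θ‖ ^ N)
    {ε : ℝ} (ha : ‖a‖ ≤ ε) (hε : ε < 1) :
    ∃ g : F[X], g.natDegree ≤ N ∧ ‖u - aeval X.Z.θ g * X.per‖ ≤ ε :=
  TPi_near X N u a ε hu h (hN.trans (pow_le_pow_right₀ X.Z.hθ.le (Nat.le_succ N))) ha hε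

end Pool.Agent.MP_ee2255_nt.T
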