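import Pool.Agent.MP_ee2255_nt.TAsy2
import Pool.Agent.MP_ee2255_nt.TPi
import Pool.Agent.MP_ee2255_nt.TRk
import Pool.Agent.MP_ee2255_nt.TGauss
import Pool.Agent.MP_ee2255_nt.TBd

/-! Preparations for the measure lemma. -/

namespace Pool.Agent.MP_ee2255_nt.T

open Polynomial Filter Topology Pool.Agent.MP_655169_nt

variable {F E C Ω : Type*} [Field F] [Fintype F] [Field E] [Infinite E] [NormedField C]
  [IsUltrametricDist C] [IsAlgClosed C] [Algebra F C] [Algebra E C] [Algebra F E]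
  [IsScalarTower F E C] [NormedField Ω] [IsUltrametricDist Ω] [IsAlgClosed Ω]
  [Algebra C Ω] [Algebra F Ω] [IsScalarTower F C Ω] (X : Ctx F E C Ω)

theorem tml2_theta : X.Z.θ ∈ Vs F X.ω 1 := X.hθ ▸ Vs_var X.ω X.iθ

theorem tml2_pt {r δ n n' : ℕ} {u al y : Fin (r + 1) → C} {η : ℝ}
    (h1 : ∀ j, HS F X.Z.θ (u j) (al j)) (h2 : ∀ j, u j ∈ Vs F X.ω δ)
    (h3 : ∀ j, ‖u j‖ ≤ ‖X.Z.θ‖ ^ n') (h4 : u (Fin.last r) = X.per) (hy : ∀ j, ‖al j - y j‖ ≤ η)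
    (hε : η * ‖X.Z.θ‖ ^ n < 1) (h : RelLe F X.Z.θ (Fin.init y) n) :
    ∃ c : Fin (r + 1) → F[X], (c ≠ 0 ∧ ∀ j, (c j).natDegree ≤ n + n') ∧
      ‖lin X.Z.θ c u‖ ≤ η * ‖X.Z.θ‖ ^ n := by
  obtain ⟨c, c0, cn, hc⟩ := h
  have hθ := X.Z.hθ
  have η0 : 0 ≤ η := (norm_nonneg _).trans (hy 0)
  rw [mul_comm] at hε ⊢
  have ha : ‖∑ j, carl X.Z.θ (c j) (Fin.init al j)‖ ≤ ‖X.Z.θ‖ ^ n * η := by
    have e : ∑ j, carl X.Z.θ (c j) (Fin.init al j) =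
        ∑ j, carl X.Z.θ (c j) (Fin.init al j - Fin.init y j) := by
      simp only [carl_sub]
      rw [Finset.sum_sub_distrib, hc, sub_zero]
    rw [e]
    exact IsUltrametricDist.norm_sum_le_of_forall_le_of_nonneg (by positivity) fun j _ =>
      carl_norm hθ (cn j) (hy j.castSucc) hε.le
  have hw : lin X.Z.θ c (Fin.init u) ∈ X.E0 :=
    Vs_sub X.ω X.E0 X.memF X.memω
      (lin_Vs X.Z.θ X.ω (tml2_theta X) cn fun j => h2 j.castSucc)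
  have hs : HS F X.Z.θ (lin X.Z.θ c (Fin.init u)) (∑ j, carl X.Z.θ (c j) (Fin.init al j)) :=
    HS.lin (x := Fin.init u) (al := Fin.init al) hθ (fun j => h1 j.castSucc) c
  have hn : ‖lin X.Z.θ c (Fin.init u)‖ ≤ ‖X.Z.θ‖ ^ (n + n') := by
    rw [pow_add]
    exact lin_norm hθ cn (by positivity) fun j => h3 j.castSucc
  obtain ⟨g, g1, g2⟩ := per_near X (n + n') hw hs hn ha hε
  refine ⟨Fin.snoc c (-g), ⟨fun e => c0 (funext fun j => ?_), fun j => ?_⟩, ?_⟩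
  · simpa using congrFun e j.castSucc
  · refine Fin.lastCases ?_ (fun j => ?_) j
    · simpa using g1
    · simpa using (cn j).trans (Nat.le_add_right n n')
  · have e : lin X.Z.θ (Fin.snoc c (-g) : Fin (r + 1) → F[X]) u =
        lin X.Z.θ c (Fin.init u) - aeval X.Z.θ g * X.per := by
      rw [lin, lin, Fin.sum_univ_castSucc, h4]
      simp only [Fin.snoc_castSucc, Fin.snoc_last, map_neg, neg_mul, sub_eq_add_neg, Fin.init]
    rwa [e]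

theorem norel {r : ℕ} {u al : ℕ → Fin (r + 1) → C} {f : ℕ → Fin (r + 1) → Ω} (hF : Fam X u al f)
    {M : ℕ → ℝ} (hM : ∀ ℓ, 1 ≤ M ℓ) (hL : HL F X.Z.θ M u) {y : ℕ → Fin (r + 1) → C} {η : ℕ → ℝ}
    (hη : Sm M η) (hy : ∀ᶠ ℓ in UU, ∀ j, ‖al ℓ j - y ℓ j‖ ≤ η ℓ) :
    ¬ ∃ n, Lin n ∧ ∀ᶠ ℓ in UU, RelLe F X.Z.θ (Fin.init (y ℓ)) (n ℓ) := by
  rintro ⟨n, hn, hr⟩
  obtain ⟨δ, -, hδ⟩ := hF.deg
  obtain ⟨n', hn', hs⟩ := hF.size
  have hε : Sm M fun ℓ => η ℓ * ‖X.Z.θ‖ ^ n ℓ :=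
    hη.mul_big hM ((Big.const hM ‖X.Z.θ‖).pow hM (Eventually.of_forall fun _ => norm_nonneg _)
      hn.pol) (Eventually.of_forall fun _ => by positivity)
  have key : ∀ᶠ ℓ in UU, ∃ c : Fin (r + 1) → F[X],
      (c ≠ 0 ∧ ∀ j, (c j).natDegree ≤ n ℓ + n' ℓ) ∧
        ‖lin X.Z.θ c (u ℓ)‖ ≤ η ℓ * ‖X.Z.θ‖ ^ n ℓ := by
    filter_upwards [hr, hδ, hs, hF.agf, hF.last, hy, hε.lt_one hM] with ℓ a1 a2 a3 a4 a5 a6 a7
    exact tml2_pt X (fun j => (hs_iff X.Z _ _).1 (a4 j).hs) (fun j => (a2 j).1) a3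
      (a5 _ (by simp)) a6 a7 a1
  obtain ⟨c, hc⟩ := ev_choose key
  exact (hε.mono (hc.mono fun _ h => h.2)).not_low
    (hL c _ (hn.add hn') (hc.mono fun _ h => h.1))

theorem exists_S {r δ δ' : ℕ} (P : MvPolynomial (Fin r) C[X]) (h0 : P ≠ 0)
    (hP : BdB (Vs F X.ω) δ P) (al : Fin r → C) (hal : ∀ j, al j ∈ Vs F X.ω δ') {A : ℝ}
    (hA : ∀ i, ‖X.ω i‖ ≤ A) (hA' : ∀ j, ‖al j‖ ≤ A) :
    ∃ (p : C) (S : Finset C), p ≠ 0 ∧ ‖p‖ = cn X.Z P ∧ (∃ e j, (P.coeff e).coeff j = p) ∧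
      X.Z.θ ∈ S ∧ 1 ∈ S ∧ (∀ j, al j ∈ S) ∧
      (∀ e j, (P.coeff e).coeff j ≠ 0 → p⁻¹ * (P.coeff e).coeff j ∈ S) ∧
      S.card ≤ (δ + 1) ^ (r + 1) + X.ν + r + 1 ∧
      Grow E (Subtype.val : S → C) (X.c0 * (δ + δ' + 1) ^ X.d) X.d ∧
      Rk E (Subtype.val : S → C) X.d ∧ ∀ s ∈ S, ‖s‖ ≤ A := by
  classical
  obtain ⟨e0, j0, hp⟩ := exists_cn X.Z P
  obtain ⟨T, T1, T2, T3⟩ := exists_cfs hP
  set p := (P.coeff e0).coeff j0 with hpe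
  have pp : 0 < ‖p‖ := hp ▸ cn_pos X.Z h0
  have p0 : p ≠ 0 := norm_pos_iff.1 pp
  have pV : p ∈ Vs F X.ω δ := (hP.2 e0).2 j0
  have A1 : 1 ≤ A := X.Z.hθ.le.trans (X.hθ ▸ hA X.iθ)
  let S : Finset C := insert 1 (T.image (fun a => p⁻¹ * a) ∪ Finset.univ.image X.ω ∪
    Finset.univ.image al)
  have hω : ∀ i, X.ω i ∈ S := fun i => by simp [S]
  have hS : ∀ s ∈ S, p * s ∈ Vs F X.ω (δ + δ' + 1) ∧ ‖s‖ ≤ A := by
    intro s hs
    simp only [S, Finset.mem_insert, Finset.mem_union, Finset.mem_image, Finset.mem_univ,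
      true_and] at hs
    rcases hs with rfl | (⟨a, ha, rfl⟩ | ⟨i, rfl⟩) | ⟨j, rfl⟩
    · exact ⟨by rw [mul_one]; exact Vs_mono _ (by omega) pV, by rwa [norm_one]⟩
    · obtain ⟨e, j, rfl⟩ := T3 a ha
      refine ⟨?_, le_trans ?_ A1⟩
      · rw [mul_inv_cancel_left₀ p0]
        exact Vs_mono _ (by omega) ((hP.2 e).2 j)
      · rw [norm_mul, norm_inv, inv_mul_le_one₀ pp, ← hp]
        exact coeff_le_cn X.Z P e j
    · exact ⟨Vs_mono _ (by omega) (Vs_mul _ pV (Vs_var X.ω i)), hA i⟩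
    · exact ⟨Vs_mono _ (by omega) (Vs_mul _ pV (hal j)), hA' j⟩
  refine ⟨p, S, p0, hp.symm, ⟨e0, j0, rfl⟩, X.hθ ▸ hω X.iθ, Finset.mem_insert_self _ _,
    fun j => by simp [S], fun e j h => ?_, ?_, ?_, X.rk.comp fun i => ⟨⟨_, hω i⟩, rfl⟩,
    fun s hs => (hS s hs).2⟩
  · exact Finset.mem_insert_of_mem (Finset.mem_union_left _ (Finset.mem_union_left _
      (Finset.mem_image_of_mem _ (T2 e j h))))
  · refine (Finset.card_insert_le _ _).trans (Nat.add_le_add_right ?_ 1)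
    refine (Finset.card_union_le _ _).trans (Nat.add_le_add ((Finset.card_union_le _ _).trans
      (Nat.add_le_add (Finset.card_image_le.trans T1) ?_)) ?_)
    · simpa using Finset.card_image_le (s := Finset.univ) (f := X.ω)
    · simpa using Finset.card_image_le (s := Finset.univ) (f := al)
  · exact grow_div X.growE (by omega) p0 (vs_tower (Vs_mono _ (by omega) pV)) _
      fun s => vs_tower (hS s.1 s.2).1

end Pool.Agent.MP_ee2255_nt.T
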