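import Pool.Agent.MP_ee2255_nt.TBd

/-! Elimination of the first variable. -/

namespace Pool.Agent.MP_ee2255_nt.T

open Polynomial Filter Topology Pool.Agent.MP_655169_nt

theorem res_bez {R : Type*} [CommRing R] [Nontrivial R] (f g : R[X]) (m n : ℕ)
    (hf : f.natDegree ≤ m) (hg : g.natDegree ≤ n) (H : m ≠ 0) (S : AddSubmonoid R)
    (hS : ∀ i j, (sylvester f g m n).adjugate i j ∈ S) :
    ∃ p q : R[X], p.natDegree ≤ m + n ∧ q.natDegree ≤ m + n ∧ (∀ j, p.coeff j ∈ S) ∧
      (∀ j, q.coeff j ∈ S) ∧ f * p + g * q = C (f.resultant g m n) := by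
  classical
  let w : degreeLT R (m + n) := ⟨1, by
    rw [Polynomial.mem_degreeLT, degree_one]
    exact_mod_cast (by omega : 0 < m + n)⟩
  let Y := adjSylvester (m := m) (n := n) f g w
  have h1 : ((sylvesterMap f g hf hg Y)).1 = _ :=
    congr(($(sylveserMap_comp_adjSylvester f g hf hg) w).1)
  have hrep : ∀ i, (((degreeLT.basis R m).prod (degreeLT.basis R n)).reindex
      finSumFinEquiv).repr Y i ∈ S := by
    intro i
    have h2 := congrFun (Matrix.repr_toLin (degreeLT.basis R (m + n))
      (((degreeLT.basis R m).prod (degreeLT.basis R n)).reindex finSumFinEquiv)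
      (sylvester f g m n).adjugate w) i
    have h3 : (((degreeLT.basis R m).prod (degreeLT.basis R n)).reindex
      finSumFinEquiv).repr Y i = _ := h2
    rw [h3, Matrix.mulVec, dotProduct]
    refine S.sum_mem fun k _ => ?_
    rw [degreeLT.basis_repr]
    show _ * (1 : R[X]).coeff k ∈ S
    rw [coeff_one]
    split_ifs
    · simpa using hS i k
    · simp
  have hd1 : (Y.1 : R[X]).degree < m := Polynomial.mem_degreeLT.1 Y.1.2
  have hd2 : (Y.2 : R[X]).degree < n := Polynomial.mem_degreeLT.1 Y.2.2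
  refine ⟨Y.2, Y.1, ?_, ?_, fun j => ?_, fun j => ?_, by simpa [Algebra.smul_def, w] using h1⟩
  · exact (natDegree_le_of_degree_le hd2.le).trans (by omega)
  · exact (natDegree_le_of_degree_le hd1.le).trans (by omega)
  · by_cases hj : j < n
    · have := hrep (finSumFinEquiv (Sum.inr ⟨j, hj⟩))
      simpa [-finSumFinEquiv_apply_right] using this
    · rw [coeff_eq_zero_of_degree_lt (hd2.trans_le (by exact_mod_cast (by omega : n ≤ j)))]
      exact S.zero_mem
  · by_cases hj : j < m
    · have := hrep (finSumFinEquiv (Sum.inl ⟨j, hj⟩))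
      simpa [-finSumFinEquiv_apply_left] using this
    · rw [coeff_eq_zero_of_degree_lt (hd1.trans_le (by exact_mod_cast (by omega : m ≤ j)))]
      exact S.zero_mem

theorem res_ne {A : Type*} [CommRing A] [IsDomain A] [UniqueFactorizationMonoid A] (p g : A[X])
    (hp : Irreducible p) (h0 : p.natDegree ≠ 0) (hd : ¬ p ∣ g) : resultant p g ≠ 0 := by
  classical
  let K := FractionRing A
  have hprim : p.IsPrimitive := hp.isPrimitive h0
  have hirr : Irreducible (p.map (algebraMap A K)) :=
    (hprim.irreducible_iff_irreducible_map_fraction_map (K := K)).1 hp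
  have hnd : ¬ p.map (algebraMap A K) ∣ g.map (algebraMap A K) := fun h =>
    hd (hprim.dvd_of_fraction_map_dvd_fraction_map h)
  have hcop : IsCoprime (p.map (algebraMap A K)) (g.map (algebraMap A K)) :=
    hirr.coprime_iff_not_dvd.2 hnd
  have hne := resultant_ne_zero _ _ hcop
  intro h
  apply hne
  rw [natDegree_map_eq_of_injective (IsFractionRing.injective A K),
    natDegree_map_eq_of_injective (IsFractionRing.injective A K), resultant_map_map, h, map_zero]

theorem fse_map {R S : Type*} [CommRing R] [CommRing S] (φ : R →+* S) {r : ℕ}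
    (Q : MvPolynomial (Fin (r + 1)) R) :
    MvPolynomial.finSuccEquiv S r (MvPolynomial.map φ Q) =
      (MvPolynomial.finSuccEquiv R r Q).map (MvPolynomial.map φ) := by
  ext i e
  rw [MvPolynomial.finSuccEquiv_coeff_coeff, Polynomial.coeff_map, MvPolynomial.coeff_map,
    MvPolynomial.coeff_map, MvPolynomial.finSuccEquiv_coeff_coeff]

theorem fse_rename {R : Type*} [CommRing R] {r : ℕ} (a : MvPolynomial (Fin r) R) :
    MvPolynomial.finSuccEquiv R r (MvPolynomial.rename Fin.succ a) = Polynomial.C a := by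
  induction a using MvPolynomial.induction_on with
  | C c =>
    rw [MvPolynomial.rename_C]
    exact (MvPolynomial.finSuccEquiv R r).commutes c
  | add p q hp hq => rw [map_add, map_add, hp, hq, map_add]
  | mul_X p j hp =>
    rw [map_mul, map_mul, hp, MvPolynomial.rename_X, MvPolynomial.finSuccEquiv_X_succ, map_mul]

theorem res_alt {F C : Type*} [Field F] [Fintype F] [Field C] [Algebra F C] {θ : C} (L : Fl F θ)
    {r δ : ℕ} (hδ : 1 ≤ δ) (Qk : MvPolynomial (Fin (r + 1)) L.k[X]) (hi : Irreducible Qk)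
    (G : MvPolynomial (Fin (r + 1)) C[X]) (hQ : BdB L.B δ (up L.k Qk)) (hG : BdB L.B δ G) :
    up L.k Qk ∣ G ∨ ∃ (Q₁ : MvPolynomial (Fin r) C[X]) (α β : MvPolynomial (Fin (r + 1)) C[X]),
      Q₁ ≠ 0 ∧ BdB L.B (4 * δ ^ 2) Q₁ ∧ BdB L.B (4 * δ ^ 2) α ∧ BdB L.B (4 * δ ^ 2) β ∧
        MvPolynomial.rename Fin.succ Q₁ = α * up L.k Qk + β * G := by
  classical
  have hB := L.flt
  obtain ⟨Gk, rfl⟩ := exists_up L.k G fun e j => L.sub δ _ ((hG.2 e).2 j)
  by_cases hdv : Qk ∣ Gk
  · exact Or.inl (map_dvd (up L.k) hdv)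
  right
  set p := MvPolynomial.finSuccEquiv L.k[X] r Qk with hp
  set g := MvPolynomial.finSuccEquiv L.k[X] r Gk with hg
  have hpi : Irreducible p := (MulEquiv.irreducible_iff (MvPolynomial.finSuccEquiv L.k[X] r)).2 hi
  have hnd : ¬ p ∣ g := fun h => hdv ((map_dvd_iff (MvPolynomial.finSuccEquiv L.k[X] r)).1 h)
  have hP : MvPolynomial.finSuccEquiv C[X] r (up L.k Qk) = p.map (up L.k) := fse_map _ _
  have hGG : MvPolynomial.finSuccEquiv C[X] r (up L.k Gk) = g.map (up L.k) := fse_map _ _
  have hinj := up_inj (ι := Fin r) L.k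
  have hδ2 : δ ≤ 4 * δ ^ 2 := by nlinarith
  have hcP : ∀ j, BdB L.B δ ((p.map (up L.k)).coeff j) := fun j => hP ▸ hQ.fin_coeff j
  have hcG : ∀ j, BdB L.B δ ((g.map (up L.k)).coeff j) := fun j => hGG ▸ hG.fin_coeff j
  by_cases h0 : p.natDegree = 0
  · refine ⟨(p.map (up L.k)).coeff 0, 1, 0, ?_, (hcP 0).mono hB hδ2, BdB.one hB, BdB.zero, ?_⟩
    · rw [Polynomial.coeff_map]
      intro h
      have h1 : p.coeff 0 = 0 := hinj (by rw [h, map_zero])
      apply hpi.ne_zero
      rw [Polynomial.eq_C_of_natDegree_eq_zero h0, h1, map_zero]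
    · apply (MvPolynomial.finSuccEquiv C[X] r).injective
      rw [fse_rename, one_mul, zero_mul, add_zero, hP]
      exact (Polynomial.eq_C_of_natDegree_eq_zero
        (by rw [natDegree_map_eq_of_injective hinj, h0])).symm
  have hres := res_ne p g hpi h0 hnd
  have hm : p.natDegree ≤ δ := by
    rw [← natDegree_map_eq_of_injective hinj p, ← hP, MvPolynomial.natDegree_finSuccEquiv]
    exact (MvPolynomial.degreeOf_le_totalDegree _ _).trans hQ.1
  have hn : g.natDegree ≤ δ := by
    rw [← natDegree_map_eq_of_injective hinj g, ← hGG, MvPolynomial.natDegree_finSuccEquiv]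
    exact (MvPolynomial.degreeOf_le_totalDegree _ _).trans hG.1
  set m := p.natDegree with hm'
  set n := g.natDegree with hn'
  have hsyl : ∀ i j, BdB L.B δ (sylvester (p.map (up L.k)) (g.map (up L.k)) m n i j) := by
    intro i j
    induction j using Fin.addCases with
    | left j =>
      simp only [sylvester, Matrix.of_apply, Fin.addCases_left]
      split_ifs
      · exact hcG _
      · exact BdB.zero
    | right j =>
      simp only [sylvester, Matrix.of_apply, Fin.addCases_right]
      split_ifs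
      · exact hcP _
      · exact BdB.zero
  let S : AddSubmonoid (MvPolynomial (Fin r) C[X]) :=
    { carrier := {a | BdB L.B (2 * δ ^ 2) a}
      add_mem' := fun ha hb => BdB.add ha hb
      zero_mem' := BdB.zero }
  have hcard : Fintype.card (Fin (m + n)) * δ ≤ 2 * δ ^ 2 := by
    rw [Fintype.card_fin]; nlinarith
  obtain ⟨a, b, ha, hb, hca, hcb, hab⟩ := res_bez (p.map (up L.k)) (g.map (up L.k)) m n
    natDegree_map_le natDegree_map_le h0 S
    fun i j => (BdB.adjugate hB _ hsyl i j).mono hB hcard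
  have hfin : m + n + 2 * δ ^ 2 ≤ 4 * δ ^ 2 := by nlinarith
  refine ⟨resultant (p.map (up L.k)) (g.map (up L.k)) m n,
    (MvPolynomial.finSuccEquiv C[X] r).symm a, (MvPolynomial.finSuccEquiv C[X] r).symm b, ?_,
    (BdB.det hB _ hsyl).mono hB (hcard.trans (by omega)),
    (BdB.fin_symm hB ha hca).mono hB hfin, (BdB.fin_symm hB hb hcb).mono hB hfin, ?_⟩
  · rw [resultant_map_map]
    intro h
    exact hres (hinj (by rw [h, map_zero]))
  · apply (MvPolynomial.finSuccEquiv C[X] r).injective
    rw [fse_rename, map_add, map_mul, map_mul, AlgEquiv.apply_symm_apply,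
      AlgEquiv.apply_symm_apply, hP, hGG, ← hab]
    ring

end Pool.Agent.MP_ee2255_nt.T
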