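import Pool.Agent.MP_ee2255_nt.TAsy2
import Pool.Agent.MP_ee2255_nt.TFac
import Pool.Agent.MP_ee2255_nt.TRes
import Pool.Agent.MP_ee2255_nt.TKO
import Pool.Agent.MP_ee2255_nt.TK3

/-! No bounded polynomial is very small. -/

namespace Pool.Agent.MP_ee2255_nt.T

open Polynomial Filter Topology Pool.Agent.MP_655169_nt

variable {F C Ω : Type*} [Field F] [Fintype F] [NormedField C] [IsUltrametricDist C]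
  [IsAlgClosed C] [Algebra F C] [NormedField Ω] [IsUltrametricDist Ω] [IsAlgClosed Ω]
  [Algebra C Ω] [Algebra F Ω] [IsScalarTower F C Ω] (Z : Sit F C Ω)
  {M : ℕ → ℝ} (hM : ∀ ℓ, 1 ≤ M ℓ) (Φ : Fr F Z.θ M)
include hM

theorem cn_big {ι : Type*} {δ : ℕ → ℕ} {Q : ℕ → MvPolynomial ι C[X]} (hδ : Pol δ)
    (h : ∀ᶠ ℓ in UU, BdB (Φ.fl ℓ).B (δ ℓ) (Q ℓ)) : Big M fun ℓ => cn Z (Q ℓ) := by
  choose e j he using fun ℓ => exists_cn Z (Q ℓ)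
  exact Big.mono (Eventually.of_forall fun ℓ => (he ℓ).le)
    (Φ.big δ (fun ℓ => ((Q ℓ).coeff (e ℓ)).coeff (j ℓ)) hδ (h.mono fun ℓ k => (k.2 _).2 _))

theorem cn_low {ι : Type*} {δ : ℕ → ℕ} {Q : ℕ → MvPolynomial ι C[X]} (hδ : Pol δ)
    (h : ∀ᶠ ℓ in UU, Q ℓ ≠ 0 ∧ BdB (Φ.fl ℓ).B (δ ℓ) (Q ℓ)) : Low M fun ℓ => cn Z (Q ℓ) := by
  choose e j he using fun ℓ => exists_cn Z (Q ℓ)
  exact Low.mono (Eventually.of_forall fun ℓ => (he ℓ).ge)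
    (Φ.low δ (fun ℓ => ((Q ℓ).coeff (e ℓ)).coeff (j ℓ)) hδ (h.mono fun ℓ k =>
      ⟨(k.2.2 _).2 _, norm_pos_iff.1 (he ℓ ▸ cn_pos Z k.1)⟩))

theorem ns_zero (f : ℕ → Fin 0 → Ω) : NS Z Φ f := by
  intro δ Q hδ h
  refine Low.mono (Eventually.of_forall fun ℓ => ?_) (cn_low Z hM Φ hδ h)
  rw [MvPolynomial.eq_C_of_isEmpty (Q ℓ), FF_C, MvPolynomial.C_apply, cn_monomial]

theorem ns_big {ι : Type*} {δ : ℕ → ℕ} {Q : ℕ → MvPolynomial ι C[X]} {f : ℕ → ι → Ω}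
    {R : ℕ → ℝ} (hR : Big M R) (hf : ∀ᶠ ℓ in UU, 1 ≤ R ℓ ∧ ∀ j, ‖f ℓ j‖ ≤ R ℓ) (hδ : Pol δ)
    (h : ∀ᶠ ℓ in UU, BdB (Φ.fl ℓ).B (δ ℓ) (Q ℓ)) : Big M fun ℓ => ‖Z.FF (f ℓ) (Q ℓ)‖ := by
  have h0 : ∀ᶠ ℓ in UU, 0 ≤ R ℓ := hf.mono fun ℓ k => zero_le_one.trans k.1
  refine Big.mono ?_ (Big.mul hM (cn_big Z hM Φ hδ h) (Big.pow hM hR h0 hδ)
    (h0.mono fun ℓ k => pow_nonneg k _))
  filter_upwards [hf, h] with ℓ k₁ k₂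
  exact FF_le Z (f ℓ) k₁.1 k₁.2 (Q ℓ) k₂.1

theorem ns_step {r : ℕ} {al y : ℕ → Fin (r + 1) → C} {f : ℕ → Fin (r + 1) → Ω}
    (h : Ap Z Φ al y f) (ht : NS Z Φ fun ℓ => Fin.tail (f ℓ)) : NS Z Φ f := by
  intro δ Q hδ hQ
  obtain ⟨δy, hδy, hy⟩ := h.mem
  obtain ⟨η, hη, hnear⟩ := h.near
  obtain ⟨R₀, hR₀, hf₀⟩ := h.big
  by_contra hn
  rw [not_low] at hn
  obtain ⟨ε, hε, hε'⟩ := exists_eps hM hn (cn_low Z hM Φ hδ hQ) ((Pol.const 2).mul hδ)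
  obtain ⟨Qk, hQk⟩ := ev_choose (α := fun ℓ => MvPolynomial (Fin (r + 1)) (Φ.fl ℓ).k[X])
    (p := fun ℓ Qk => Irreducible Qk ∧ BdB (Φ.fl ℓ).B (2 * δ ℓ) (up (Φ.fl ℓ).k Qk) ∧
      ‖Z.FF (f ℓ) (up (Φ.fl ℓ).k Qk)‖ < ε ℓ * cn Z (up (Φ.fl ℓ).k Qk)) (by
    filter_upwards [hQ, hε'] with ℓ a b
    exact exists_irred Z (Φ.fl ℓ) (f ℓ) (Q ℓ) b.1 b.2.1 a.1 a.2 b.2.2)
  obtain ⟨P, hP⟩ : ∃ P : ℕ → MvPolynomial (Fin (r + 1)) C[X],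
      ∀ ℓ, P ℓ = up (Φ.fl ℓ).k (Qk ℓ) := ⟨_, fun _ => rfl⟩
  simp only [← hP] at hQk
  obtain ⟨δ₁, e₁⟩ : ∃ δ₁ : ℕ → ℕ, δ₁ = fun ℓ => 2 * δ ℓ + δy ℓ + 1 := ⟨_, rfl⟩
  obtain ⟨δ₂, e₂⟩ : ∃ δ₂ : ℕ → ℕ, δ₂ = fun ℓ => (qq F + 3) * δ₁ ℓ ^ 2 := ⟨_, rfl⟩
  have p₁ : Pol δ₁ := e₁ ▸ (((Pol.const 2).mul hδ).add hδy).add (Pol.const 1)
  have p₂ : Pol δ₂ := e₂ ▸ (Pol.const _).mul (p₁.pow 2)
  have p₃ : Pol fun ℓ => 4 * δ₂ ℓ ^ 2 := (Pol.const _).mul (p₂.pow 2)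
  have d₁ : ∀ ℓ, 1 ≤ δ₁ ℓ := fun ℓ => by rw [e₁]; exact Nat.le_add_left _ _
  have d₂ : ∀ ℓ, δ₁ ℓ ≤ δ₂ ℓ := fun ℓ => by
    rw [e₂]
    exact (Nat.le_self_pow two_ne_zero _).trans (Nat.le_mul_of_pos_left _ (Nat.succ_pos _))
  obtain ⟨R, hR, hf⟩ : ∃ R, Big M R ∧ ∀ᶠ ℓ in UU, 1 ≤ R ℓ ∧ ∀ j, ‖f ℓ j‖ ≤ R ℓ :=
    ⟨fun ℓ => max (R₀ ℓ) 1, Big.max hM hR₀ (Big.const hM 1),
      hf₀.mono fun ℓ k => ⟨le_max_right _ _, fun j => (k j).trans (le_max_left _ _)⟩⟩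
  have R0 : ∀ᶠ ℓ in UU, 0 ≤ R ℓ := hf.mono fun ℓ k => zero_le_one.trans k.1
  have b₁ : ∀ᶠ ℓ in UU, BdB (Φ.fl ℓ).B (δ₁ ℓ) (P ℓ) := hQk.mono fun ℓ k =>
    BdB.mono (Φ.fl ℓ).flt (by rw [e₁]; dsimp only; omega) k.2.1
  have b₂ : ∀ᶠ ℓ in UU, BdB (Φ.fl ℓ).B (δ₂ ℓ) (Z.sgt (y ℓ) (P ℓ)) := by
    filter_upwards [b₁, hy] with ℓ k₁ k₂
    rw [e₂]
    exact BdB.sgt Z (Φ.fl ℓ).flt (d₁ ℓ)
      (fun j => (Φ.fl ℓ).mono _ _ _ (by rw [e₁]; dsimp only; omega) (k₂ j)) k₁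
  have n₁ : ∀ᶠ ℓ in UU, P ℓ ≠ 0 := hQk.mono fun ℓ k => hP ℓ ▸ fac_up_ne _ k.1.ne_zero
  have c₁ : Big M fun ℓ => cn Z (P ℓ) := cn_big Z hM Φ p₁ b₁
  have s₁ : Sm M fun ℓ => ‖Z.FF (f ℓ) (P ℓ)‖ := Sm.mono (hQk.mono fun ℓ k => k.2.2.le)
    (Sm.mul_big hM hε c₁ (Eventually.of_forall fun ℓ => cn_nonneg Z _))
  have s₂ : Sm M fun ℓ => ‖Z.FF (f ℓ) (Z.sgt (y ℓ) (P ℓ))‖ := by
    have t₁ : ∀ᶠ ℓ in UU, 0 ≤ R ℓ ^ qq F := R0.mono fun ℓ k => pow_nonneg k _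
    have t₂ : ∀ᶠ ℓ in UU, 0 ≤ (R ℓ ^ qq F) ^ δ₁ ℓ := t₁.mono fun ℓ k => pow_nonneg k _
    have t₃ := Big.mul hM (Big.pow hM c₁ (Eventually.of_forall fun ℓ => cn_nonneg Z _)
      (Pol.const (qq F))) (Big.pow hM (Big.pow hM hR R0 (Pol.const (qq F))) t₁ p₁) t₂
    refine Sm.mono ?_ (Sm.max (Sm.pow hM (d := fun _ => qq F) s₁
      (Eventually.of_forall fun ℓ => ⟨norm_nonneg _, Fintype.card_pos⟩))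
      (Sm.mul_big hM hη t₃ (t₂.mono fun ℓ k => mul_nonneg (pow_nonneg (cn_nonneg Z _) _) k)))
    filter_upwards [h.sol, hf, hnear, Sm.lt_one hM hη, b₁] with ℓ k₁ k₂ k₃ k₄ k₅
    rw [mul_comm (η ℓ)]
    exact sgt_small Z (f ℓ) (al ℓ) (y ℓ) k₁ k₂.1 ((norm_nonneg _).trans (k₃ 0)) k₄.le k₂.2 k₃
      (P ℓ) k₅.1
  have alt : ∀ᶠ ℓ in UU, P ℓ ∣ Z.sgt (y ℓ) (P ℓ) ∨ ∃ w : MvPolynomial (Fin r) C[X] ×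
      MvPolynomial (Fin (r + 1)) C[X] × MvPolynomial (Fin (r + 1)) C[X],
      (w.1 ≠ 0 ∧ BdB (Φ.fl ℓ).B (4 * δ₂ ℓ ^ 2) w.1) ∧ BdB (Φ.fl ℓ).B (4 * δ₂ ℓ ^ 2) w.2.1 ∧
        BdB (Φ.fl ℓ).B (4 * δ₂ ℓ ^ 2) w.2.2 ∧ MvPolynomial.rename Fin.succ w.1 =
          w.2.1 * P ℓ + w.2.2 * Z.sgt (y ℓ) (P ℓ) := by
    filter_upwards [hQk, b₁, b₂] with ℓ k₁ k₂ k₃
    have k₄ := res_alt (Φ.fl ℓ) ((d₁ ℓ).trans (d₂ ℓ)) (Qk ℓ) k₁.1 _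
      (hP ℓ ▸ BdB.mono (Φ.fl ℓ).flt (d₂ ℓ) k₂) k₃
    rw [← hP] at k₄
    exact k₄.imp id fun ⟨a, b, c, m₁, m₂, m₃⟩ => ⟨(a, b, c), ⟨m₁, m₂⟩, m₃⟩
  rcases ev_or alt with k | k
  · refine h.norel (Φ.mas r δy (fun ℓ => Fin.init (y ℓ)) hδy ?_)
    filter_upwards [k, h.last, n₁, hy, hQk, hε'] with ℓ k₁ k₂ k₃ k₄ k₅ k₆
    refine ⟨fun j => k₄ _, ?_⟩
    rcases ko_eigen Z (y ℓ) k₂.1 (P ℓ) k₃ k₁ with ⟨a, ν, m⟩ | ⟨b, c, A, m₁, m₂⟩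
    · refine absurd k₅.2.2 (not_lt.2 ((mul_le_of_le_one_left (cn_nonneg Z _) k₆.2.1).trans ?_))
      rw [m, FF_mul, FF_C, FF_pow, FF_X, norm_mul, norm_pow,
        MvPolynomial.C_mul_X_pow_eq_monomial, cn_monomial]
      exact le_mul_of_one_le_right (norm_nonneg _) (one_le_pow₀ k₂.2)
    · exact rel_of_eq Z (Fin.init (y ℓ)) b c A m₁ m₂
  · obtain ⟨w, hw⟩ := ev_choose k
    refine Sm.not_low (Sm.mono ?_ (Sm.max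
      (Sm.mul_big hM s₁ (ns_big Z hM Φ hR hf p₃ (hw.mono fun ℓ k => k.2.1))
        (Eventually.of_forall fun ℓ => norm_nonneg _))
      (Sm.mul_big hM s₂ (ns_big Z hM Φ hR hf p₃ (hw.mono fun ℓ k => k.2.2.1))
        (Eventually.of_forall fun ℓ => norm_nonneg _))))
      (ht _ (fun ℓ => (w ℓ).1) p₃ (hw.mono fun ℓ k => k.1))
    filter_upwards [hw] with ℓ k₁
    have k₂ := FF_rename Z Fin.succ (f ℓ) (w ℓ).1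
    rw [k₁.2.2.2, FF_add, FF_mul, FF_mul] at k₂
    rw [← norm_mul, ← norm_mul, mul_comm, mul_comm (Z.FF (f ℓ) (Z.sgt _ _))]
    exact (congrArg norm k₂).ge.trans (IsUltrametricDist.norm_add_le_max _ _)

theorem ns_all (r : ℕ) : ∀ {al y : ℕ → Fin (r + 1) → C} {f : ℕ → Fin (r + 1) → Ω},
    Ap Z Φ al y f → NS Z Φ f := by
  induction r with
  | zero => exact fun h => ns_step Z hM Φ h (ns_zero Z hM Φ _)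
  | succ r ih =>
    intro al y f h
    obtain ⟨δy, hδy, hy⟩ := h.mem
    obtain ⟨η, hη, hnear⟩ := h.near
    obtain ⟨R, hR, hf⟩ := h.big
    refine ns_step Z hM Φ h (ih (al := fun ℓ => Fin.tail (al ℓ)) (y := fun ℓ => Fin.tail (y ℓ))
      ⟨h.sol.mono fun ℓ k j => k _, ⟨δy, hδy, hy.mono fun ℓ k j => k _⟩,
        ⟨η, hη, hnear.mono fun ℓ k j => k _⟩, ⟨R, hR, hf.mono fun ℓ k j => k _⟩,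
        h.last.mono fun ℓ k => k, fun ⟨n, hn, k⟩ => h.norel ⟨n, hn, k.mono ?_⟩⟩)
    rintro ℓ ⟨c, c₁, c₂, c₃⟩
    refine ⟨Fin.cons 0 c, fun e => c₁ (funext fun j => congrFun e j.succ),
      fun j => Fin.cases (by simp) c₂ j, ?_⟩
    rw [Fin.sum_univ_succ, Fin.cons_zero, carl, map_zero, LinearMap.zero_apply, zero_add]
    exact c₃

end Pool.Agent.MP_ee2255_nt.T
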