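import Pool.Agent.MP_ee2255_nt.TML2
import Pool.Agent.MP_ee2255_nt.TAL3
import Pool.Agent.MP_ee2255_nt.TNS
import Pool.Agent.MP_ee2255_nt.TAgf

/-! The measure lemma. -/

set_option linter.unusedSectionVars false

namespace Pool.Agent.MP_ee2255_nt.T

open Polynomial Filter Topology Pool.Agent.MP_655169_nt

variable {F E C Ω : Type*} [Field F] [Fintype F] [Field E] [Infinite E] [NormedField C]
  [IsUltrametricDist C] [IsAlgClosed C] [Algebra F C] [Algebra E C] [Algebra F E]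
  [IsScalarTower F E C] [NormedField Ω] [IsUltrametricDist Ω] [IsAlgClosed Ω]
  [Algebra C Ω] [Algebra F Ω] [IsScalarTower F C Ω] (X : Ctx F E C Ω)

theorem tml3_pt {θ : C} (L : Fl F θ) {r δ : ℕ} {B : ℕ → Submodule F C}
    {P : MvPolynomial (Fin r) C[X]} (hP : BdB B δ P) {p : C} (hp : p ≠ 0)
    (hp' : ∃ e j, (P.coeff e).coeff j = p) {S : Finset C}
    (hS : ∀ e j, (P.coeff e).coeff j ≠ 0 → p⁻¹ * (P.coeff e).coeff j ∈ S) (φ : C →ₗ[E] C)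
    (h1 : φ 1 = 1) {η : ℝ} (h0 : 0 ≤ η) (hφ : ∀ s ∈ S, φ s ∈ L.B 1 ∧ ‖s - φ s‖ ≤ η)
    (f : Fin r → Ω) {R : ℝ} (hR : 1 ≤ R) (hf : ∀ j, ‖f j‖ ≤ R) :
    ∃ Q : MvPolynomial (Fin r) C[X], (Q ≠ 0 ∧ BdB L.B (δ + 1) Q) ∧
      (η * R ^ δ < ‖X.Z.FF f Q‖ → ‖X.Z.FF f Q‖ ≤ ‖X.Z.FF f P‖ / ‖p‖) := by
  obtain ⟨P', hP'⟩ : ∃ P' : MvPolynomial (Fin r) C[X],
      P' = MvPolynomial.C (Polynomial.C p⁻¹) * P := ⟨_, rfl⟩
  have c1 : ∀ e, P'.coeff e = Polynomial.C p⁻¹ * P.coeff e := fun e => by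
    rw [hP', MvPolynomial.coeff_C_mul]
  have c2 : ∀ e j, (P'.coeff e).coeff j = p⁻¹ * (P.coeff e).coeff j := fun e j => by
    rw [c1, coeff_C_mul]
  have c3 : P'.totalDegree ≤ δ := by
    rw [hP']
    refine (MvPolynomial.totalDegree_mul _ _).trans ?_
    rw [MvPolynomial.totalDegree_C, zero_add]
    exact hP.1
  obtain ⟨Q, q1, q2⟩ := exists_mapc φ (map_zero φ) P'
  refine ⟨Q, ⟨?_, (q1.trans c3).trans (Nat.le_succ _), fun e => ⟨?_, fun j => ?_⟩⟩, fun hlt => ?_⟩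
  · obtain ⟨e, j, he⟩ := hp'
    intro hQ
    have := (q2 e).2 j
    rw [hQ, c2, he, inv_mul_cancel₀ hp, h1] at this
    simp at this
  · refine (q2 e).1.trans ?_
    rw [c1]
    exact (natDegree_C_mul_le _ _).trans ((hP.2 e).1.trans (Nat.le_succ _))
  · rw [(q2 e).2 j, c2]
    by_cases h : (P.coeff e).coeff j = 0
    · rw [h, mul_zero, map_zero]
      exact Submodule.zero_mem _
    · exact L.mono _ _ _ (Nat.le_add_left _ _) (hφ _ (hS e j h)).1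
  · have d1 : cn X.Z (P' - Q) ≤ η := cn_le X.Z _ fun e j => by
      rw [MvPolynomial.coeff_sub, coeff_sub, (q2 e).2 j, c2]
      by_cases h : (P.coeff e).coeff j = 0
      · rw [h, mul_zero, map_zero, sub_zero, norm_zero]
        exact h0
      · exact (hφ _ (hS e j h)).2
    have d2 : ‖X.Z.FF f (P' - Q)‖ ≤ η * R ^ δ :=
      (FF_le X.Z f hR hf _ ((MvPolynomial.totalDegree_sub _ _).trans
        (max_le c3 (q1.trans c3)))).trans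
        (mul_le_mul_of_nonneg_right d1 (pow_nonneg (zero_le_one.trans hR) _))
    have d3 : ‖X.Z.FF f P'‖ = ‖X.Z.FF f P‖ / ‖p‖ := by
      rw [hP', FF_mul, FF_C, aeval_C, norm_mul, X.Z.norm_alg, norm_inv, div_eq_inv_mul]
    have d4 : X.Z.FF f Q = X.Z.FF f P' + -X.Z.FF f (P' - Q) := by
      rw [FF_sub]
      ring
    have d5 := IsUltrametricDist.norm_add_le_max (X.Z.FF f P') (-X.Z.FF f (P' - Q))
    rw [← d4, norm_neg, d3] at d5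
    rcases le_max_iff.1 d5 with h | h
    · exact h
    · exact absurd (h.trans d2) (not_le.2 hlt)

theorem ml {r : ℕ} {u al : ℕ → Fin (r + 1) → C} {f : ℕ → Fin (r + 1) → Ω} (hF : Fam X u al f)
    {M : ℕ → ℝ} (hM : ∀ ℓ, 1 ≤ M ℓ) (hL : HL F X.Z.θ M u) {δ : ℕ → ℕ} (hδ : Pol δ)
    {P : ℕ → MvPolynomial (Fin (r + 1)) C[X]}
    (hP : ∀ᶠ ℓ in UU, P ℓ ≠ 0 ∧ BdB (Vs F X.ω) (δ ℓ) (P ℓ)) :
    Low M fun ℓ => ‖X.Z.FF (f ℓ) (P ℓ)‖ / cn X.Z (P ℓ) := by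
  obtain ⟨δ', hδ', hdeg⟩ := hF.deg
  obtain ⟨n, hn, hsz⟩ := hF.size
  obtain ⟨R, hRd⟩ : ∃ R : ℕ → ℝ,
      R = fun ℓ => max (∑ i, ‖X.ω i‖) (‖X.Z.θ‖ ^ (n ℓ * qq F ^ n ℓ)) := ⟨_, rfl⟩
  have hR : Big M R := hRd ▸ Big.max hM (Big.const hM _)
    (Big.pow hM (Big.const hM _) (Eventually.of_forall fun _ => norm_nonneg _)
      (hn.pol.mul (hn.pow_pol _)))
  have r1 : ∀ ℓ, 1 ≤ R ℓ := fun ℓ => by
    rw [hRd]
    exact (one_le_pow₀ X.Z.hθ.le).trans (le_max_right _ _)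
  have r2 : ∀ ℓ i, ‖X.ω i‖ ≤ R ℓ := fun ℓ i => by
    rw [hRd]
    exact (Finset.single_le_sum (f := fun i => ‖X.ω i‖) (fun _ _ => norm_nonneg _)
      (Finset.mem_univ i)).trans (le_max_left _ _)
  have r3 : ∀ᶠ ℓ in UU, ∀ j, ‖al ℓ j‖ ≤ R ℓ ∧ ‖f ℓ j‖ ≤ R ℓ := by
    filter_upwards [hF.agf, hsz] with ℓ k₁ k₂ j
    have := agf_size X.Z (k₁ j) (k₂ j)
    rw [hRd]
    exact ⟨this.1.trans (le_max_right _ _), this.2.1.trans (le_max_right _ _)⟩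
  have h1 : ∀ᶠ ℓ in UU, ∃ x : C × Finset C, x.1 ≠ 0 ∧ ‖x.1‖ = cn X.Z (P ℓ) ∧
      (∃ e j, ((P ℓ).coeff e).coeff j = x.1) ∧ X.Z.θ ∈ x.2 ∧ 1 ∈ x.2 ∧ (∀ j, al ℓ j ∈ x.2) ∧
      (∀ e j, ((P ℓ).coeff e).coeff j ≠ 0 → x.1⁻¹ * ((P ℓ).coeff e).coeff j ∈ x.2) ∧
      x.2.card ≤ (δ ℓ + 1) ^ (r + 1 + 1) + X.ν + (r + 1) + 1 ∧
      Grow E (Subtype.val : x.2 → C) (X.c0 * (δ ℓ + δ' ℓ + 1) ^ X.d) X.d ∧
      Rk E (Subtype.val : x.2 → C) X.d ∧ ∀ s ∈ x.2, ‖s‖ ≤ R ℓ := by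
    filter_upwards [hP, hdeg, r3] with ℓ k₁ k₂ k₃
    obtain ⟨p, S, h⟩ := exists_S X (P ℓ) k₁.1 k₁.2 (al ℓ) (fun j => (k₂ j).2) (r2 ℓ)
      fun j => (k₃ j).1
    exact ⟨(p, S), h⟩
  obtain ⟨x, hx⟩ := ev_choose h1
  obtain ⟨Φ, φ, η, hη, hφ⟩ := alu (F := F) X.hE X.Z.hθ hM (fun ℓ => (x ℓ).2)
    (c := fun ℓ => (δ ℓ + 1) ^ (r + 1 + 1) + (X.ν + (r + 1) + 1) + X.c0 * (δ ℓ + δ' ℓ + 1) ^ X.d)
    ((((hδ.add (Pol.const 1)).pow _).add (Pol.const _)).add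
      ((Pol.const _).mul (((hδ.add hδ').add (Pol.const 1)).pow _))) X.d hR (by
      filter_upwards [hx] with ℓ ⟨_, _, _, k₁, _, _, _, k₂, k₃, k₄, k₅⟩
      exact ⟨k₁, by omega, fun N => (k₃ N).trans
        (Nat.mul_le_mul_right _ (Nat.le_add_left _ _)), k₄, k₅⟩)
  have near : ∀ᶠ ℓ in UU, ∀ j, ‖al ℓ j - φ ℓ (al ℓ j)‖ ≤ η ℓ := by
    filter_upwards [hx, hφ] with ℓ k₁ k₂ j
    exact (k₂.2 _ (k₁.2.2.2.2.2.1 j)).2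
  have ap : Ap X.Z Φ al (fun ℓ j => φ ℓ (al ℓ j)) f :=
    { sol := hF.agf.mono fun ℓ k j => (k j).sol
      mem := ⟨fun _ => 1, Pol.const 1, by
        filter_upwards [hx, hφ] with ℓ k₁ k₂ j
        exact (k₂.2 _ (k₁.2.2.2.2.2.1 j)).1⟩
      near := ⟨η, hη, near⟩
      big := ⟨R, hR, r3.mono fun ℓ k j => (k j).2⟩
      last := by
        filter_upwards [hF.agf, hF.last] with ℓ k₁ k₂
        have k₃ := k₁ (Fin.last r)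
        rw [k₂ (Fin.last r) rfl] at k₃
        have k₄ := per_agf X k₃
        exact ⟨by rw [k₄.1, map_zero], k₄.2⟩
      norel := norel X hF hM hL hη near }
  have h2 : ∀ᶠ ℓ in UU, ∃ Q : MvPolynomial (Fin (r + 1)) C[X],
      (Q ≠ 0 ∧ BdB (Φ.fl ℓ).B (δ ℓ + 1) Q) ∧ (η ℓ * R ℓ ^ δ ℓ < ‖X.Z.FF (f ℓ) Q‖ →
        ‖X.Z.FF (f ℓ) Q‖ ≤ ‖X.Z.FF (f ℓ) (P ℓ)‖ / cn X.Z (P ℓ)) := by
    filter_upwards [hP, hx, hφ, r3, near] with ℓ k₀ ⟨k₁, k₂, k₃, _, k₄, _, k₅, _⟩ k₆ k₇ k₈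
    rw [← k₂]
    exact tml3_pt X (Φ.fl ℓ) k₀.2 k₁ k₃ k₅ (φ ℓ) (k₆.1 k₄) ((norm_nonneg _).trans (k₈ 0)) k₆.2
      (f ℓ) (r1 ℓ) fun j => (k₇ j).2
  obtain ⟨Q, hQ⟩ := ev_choose h2
  have lo := ns_all X.Z hM Φ r ap _ Q (hδ.add (Pol.const 1)) (hQ.mono fun ℓ k => k.1)
  have r0 : ∀ᶠ ℓ in UU, 0 ≤ R ℓ := Eventually.of_forall fun ℓ => zero_le_one.trans (r1 ℓ)
  have sm := Sm.mul_big hM hη (Big.pow hM hR r0 hδ) (r0.mono fun ℓ k => pow_nonneg k _)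
  refine Low.mono ?_ lo
  filter_upwards [hQ, Sm.lt_low hM sm lo] with ℓ k₁ k₂
  exact k₁.2 k₂

end Pool.Agent.MP_ee2255_nt.T
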