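import Pool.Agent.MP_ee2255_nt.TCarl

/-! Local estimates for the Carlitz action. -/

namespace Pool.Agent.MP_ee2255_nt.T

open Polynomial Filter Topology Pool.Agent.MP_655169_nt

variable {F C : Type*} [Field F] [Fintype F] [Field C] [Algebra F C] {θ : C} {r ρ : ℕ}
  {c : F[X]} {d : Fin r → F[X]} {u : C} {y : Fin r → C}

section Aux

variable {Γ : Type*} [LinearOrderedCommGroupWithZero Γ] (v : Valuation C Γ)

theorem tma2_q : 2 ≤ qq F := Fintype.one_lt_card

theorem tma2_smul {a : F} (ha : a ≠ 0) (w : C) : v (a • w) = v w := by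
  have h := congrArg (fun x => v (algebraMap F C x)) (FiniteField.pow_card_sub_one_eq_one a ha)
  simp only [map_pow, map_one] at h
  have h2 : 1 < Fintype.card F := Fintype.one_lt_card
  rw [Algebra.smul_def, map_mul, (pow_eq_one_iff_of_nonneg zero_le (by omega)).1 h, one_mul]

theorem tma2_smul_le (a : F) (w : C) : v (a • w) ≤ v w := by
  rcases eq_or_ne a 0 with rfl | ha
  · simp
  · exact (tma2_smul v ha w).le

theorem tma2_step (k : ℕ) (w : C) : (cth F θ ^ (k + 1)) w =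
    θ * (cth F θ ^ k) w + (cth F θ ^ k) w ^ qq F := by
  rw [pow_succ', Module.End.mul_apply, cth_apply]

theorem tma2_pow (x : Γ) : x ^ qq F = x ^ (qq F - 1) * x := by
  rw [← pow_succ, Nat.sub_add_cancel (one_le_two.trans tma2_q)]

theorem tma2_grow {w : C} (h1 : v θ < v w ^ (qq F - 1)) (h2 : 1 < v w) (k : ℕ) :
    v ((cth F θ ^ k) w) = v w ^ qq F ^ k := by
  induction k with
  | zero => simp
  | succ k ih =>
    have h3 : v w ≤ v ((cth F θ ^ k) w) := by
      rw [ih]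
      exact le_self_pow₀ h2.le (pow_ne_zero _ (by have := tma2_q (F := F); omega))
    rw [tma2_step, v.map_add_eq_of_lt_right, map_pow, ih, ← pow_mul, pow_succ]
    rw [map_mul, map_pow, tma2_pow]
    exact mul_lt_mul_of_pos_right (h1.trans_le (pow_le_pow_left₀ zero_le h3 _))
      (zero_lt_one.trans (h2.trans_le h3))

theorem tma2_up {B : Γ} (h1 : 1 ≤ B) (h2 : v θ ≤ B ^ (qq F - 1)) {w : C} (hw : v w ≤ B) (k : ℕ) :
    v ((cth F θ ^ k) w) ≤ B ^ qq F ^ k := by
  induction k with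
  | zero => simpa using hw
  | succ k ih =>
    rw [tma2_step, pow_succ, pow_mul]
    refine v.map_add_le ?_ (by rw [map_pow]; exact pow_le_pow_left₀ zero_le ih _)
    rw [map_mul, tma2_pow (B ^ qq F ^ k)]
    exact mul_le_mul' (h2.trans (pow_le_pow_left₀ zero_le (le_self_pow₀ h1
      (pow_ne_zero _ (by have := tma2_q (F := F); omega))) _)) ih

theorem tma2_main (hc : c ≠ 0) (hd : ∀ j, (d j).natDegree + ρ ≤ c.natDegree)
    (h : carl θ c u = ∑ j, carl θ (d j) (y j)) {B : Γ} (h1 : 1 ≤ B) (h2 : v θ ≤ B ^ (qq F - 1))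
    (hy : ∀ j, v (y j) ≤ B) {i : ℕ} (hi : i ≤ c.natDegree)
    (h3 : v θ < v ((cth F θ ^ i) u) ^ (qq F - 1)) (h4 : 1 < v ((cth F θ ^ i) u)) :
    v ((cth F θ ^ i) u) ^ qq F ^ (c.natDegree - i) ≤ B ^ qq F ^ (c.natDegree - ρ) := by
  have hq := tma2_q (F := F)
  have e : ∀ j ≤ c.natDegree, v θ < v ((cth F θ ^ j) u) ^ (qq F - 1) → 1 < v ((cth F θ ^ j) u) →
      v ((cth F θ ^ c.natDegree) u) = v ((cth F θ ^ j) u) ^ qq F ^ (c.natDegree - j) :=
    fun j hj a b => by
      rw [← tma2_grow v a b, ← Module.End.mul_apply, ← pow_add, Nat.sub_add_cancel hj]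
  have h5 : v ((cth F θ ^ i) u) ≤ v ((cth F θ ^ c.natDegree) u) := by
    rw [e i hi h3 h4]
    exact le_self_pow₀ h4.le (pow_ne_zero _ (by omega))
  have h6 : v (carl θ c u) = v ((cth F θ ^ c.natDegree) u) := by
    have h0 := tma2_smul v (a := c.coeff c.natDegree) (leadingCoeff_ne_zero.2 hc)
      ((cth F θ ^ c.natDegree) u)
    rw [carl_eq_sum θ c _ (Nat.lt_succ_self _), Finset.sum_range_succ, v.map_add_eq_of_lt_right, h0]
    rw [h0]
    refine v.map_sum_lt (zero_lt_one.trans (h4.trans_le h5)).ne' fun j hj =>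
      (tma2_smul_le v _ _).trans_lt ?_
    have hj' := Finset.mem_range.1 hj
    by_cases a : v θ < v ((cth F θ ^ j) u) ^ (qq F - 1)
    · by_cases b : 1 < v ((cth F θ ^ j) u)
      · rw [e j hj'.le a b]
        exact lt_self_pow₀ b (Nat.one_lt_pow (by omega) hq)
      · exact (not_lt.1 b).trans_lt (h4.trans_le h5)
    · exact (lt_of_pow_lt_pow_left₀ _ zero_le ((not_lt.1 a).trans_lt h3)).trans_le h5
  rw [← e i hi h3 h4, ← h6, h]
  refine v.map_sum_le fun j _ => ?_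
  rw [carl_eq_sum θ (d j) _ (Nat.lt_succ_self _)]
  refine v.map_sum_le fun k hk => (tma2_smul_le v _ _).trans ((tma2_up v h1 h2 (hy j) k).trans
    (pow_le_pow_right₀ h1 (Nat.pow_le_pow_right (by omega) ?_)))
  have := Finset.mem_range.1 hk
  have := hd j
  omega

end Aux

theorem fin_place (V : ValuationSubring C) (hθ : θ ∈ V) (hc : c ≠ 0) (hρ : ρ ≤ c.natDegree)
    (hd : ∀ j, (d j).natDegree + ρ ≤ c.natDegree) (h : carl θ c u = ∑ j, carl θ (d j) (y j))
    {D : C} (hD : D ∈ V) (hy : ∀ j, D * y j ∈ V) : D * u ^ qq F ^ ρ ∈ V := by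
  have hq := tma2_q (F := F)
  by_cases hu : u ∈ V
  · exact mul_mem hD (pow_mem hu _)
  rcases eq_or_ne D 0 with rfl | h0
  · simp
  simp only [← V.valuation_le_one_iff, map_mul, map_pow, not_le] at hθ hD hy hu ⊢
  have h1 : 0 < V.valuation D := zero_lt_iff.2 (by simpa using h0)
  have h2 : 1 ≤ (V.valuation D)⁻¹ := (one_le_inv₀ h1).2 hD
  have h3 := tma2_main V.valuation hc hd h h2 (hθ.trans (one_le_pow₀ h2))
    (fun j => (le_inv_mul_iff₀ h1).2 (hy j) |>.trans_eq (mul_one _)) (Nat.zero_le _)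
    (hθ.trans_lt (one_lt_pow₀ (by simpa using hu) (by omega))) (by simpa using hu)
  rw [pow_zero, Module.End.one_apply, Nat.sub_zero, ← Nat.add_sub_cancel' hρ, pow_add, pow_mul,
    Nat.add_sub_cancel' hρ] at h3
  have h4 := le_of_pow_le_pow_left₀ (pow_ne_zero _ (by omega)) zero_le h3
  exact (le_inv_mul_iff₀ h1).1 (h4.trans_eq (mul_one _).symm)

theorem inf_place {Γ : Type*} [LinearOrderedCommGroupWithZero Γ] (v : Valuation C Γ)
    (hθ : 1 < v θ) (hc : c ≠ 0) (hρ : ρ ≤ c.natDegree)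
    (hd : ∀ j, (d j).natDegree + ρ ≤ c.natDegree) (h : carl θ c u = ∑ j, carl θ (d j) (y j))
    {H : ℕ} (hH : 1 ≤ H) (hy : ∀ j, v (y j) ≤ v θ ^ H) {i : ℕ}
    (hi : (qq F - 1) * H * qq F ^ i ≤ qq F ^ ρ) :
    v ((cth F θ ^ i) u) ^ (qq F - 1) ≤ v θ := by
  have hq := tma2_q (F := F)
  by_contra h3
  replace h3 := not_le.1 h3
  have h0 : 0 < (qq F - 1) * H := Nat.mul_pos (by omega) hH
  have hiρ : i ≤ ρ := (Nat.pow_le_pow_iff_right hq).1 ((Nat.le_mul_of_pos_left _ h0).trans hi)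
  have h4 := tma2_main v hc hd h (one_le_pow₀ hθ.le)
    (by rw [← pow_mul, mul_comm]; exact le_self_pow₀ hθ.le h0.ne') hy (hiρ.trans hρ) h3
    (lt_of_pow_lt_pow_left₀ (qq F - 1) zero_le (by rw [one_pow]; exact hθ.trans h3))
  have h5 := pow_le_pow_left₀ zero_le h4 (qq F - 1)
  rw [pow_right_comm, ← pow_mul (v θ), ← pow_mul (v θ)] at h5
  have h6 := (pow_lt_pow_left₀ h3 zero_le (n := qq F ^ (c.natDegree - i))
    (pow_ne_zero _ (by omega))).trans_le h5
  refine absurd ((pow_lt_pow_iff_right₀ hθ).1 h6) (not_lt.2 ?_)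
  refine Nat.le_of_mul_le_mul_right ?_ (Nat.pow_pos (n := i) (by omega : 0 < qq F))
  calc _ = (qq F - 1) * H * qq F ^ i * qq F ^ (c.natDegree - ρ) := by ring
    _ ≤ qq F ^ ρ * qq F ^ (c.natDegree - ρ) := Nat.mul_le_mul_right _ hi
    _ = _ := by rw [← pow_add, ← pow_add]; congr 1; omega

end Pool.Agent.MP_ee2255_nt.T
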