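import Pool.Agent.MP_ee2255_nt.TCarl

/-! The product of the values of a linear family. -/

namespace Pool.Agent.MP_ee2255_nt.T

open Polynomial Filter Topology Pool.Agent.MP_655169_nt

variable {F C Γ : Type*} [Field F] [Fintype F] [Field C] [IsAlgClosed C] [Algebra F C]
  [LinearOrderedCommGroupWithZero Γ] (v : Valuation C Γ) {θ : C}

omit [IsAlgClosed C] in
theorem TMa5_prod (x : C) : x ^ qq F - x = ∏ a : F, (x - algebraMap F C a) := by
  have hm : (X ^ Fintype.card F - X : F[X]).Monic :=
    monic_X_pow_sub (by rw [degree_X]; exact_mod_cast Fintype.one_lt_card)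
  have hd := FiniteField.X_pow_card_sub_X_natDegree_eq F (Fintype.one_lt_card (α := F))
  have hr := FiniteField.roots_X_pow_card_sub_X F
  have h := prod_multiset_X_sub_C_of_monic_of_roots_card_eq hm (by rw [hr, hd]; rfl)
  rw [hr] at h
  have h2 := congrArg (aeval x) h
  rw [map_sub, map_pow, aeval_X] at h2
  rw [← h2]
  change aeval x (∏ a : F, (X - Polynomial.C a)) = _
  simp [map_prod]

theorem TMa5_q : qq F - 1 ≠ 0 := by
  have : 1 < qq F := Fintype.one_lt_card
  omega

omit [IsAlgClosed C] in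
theorem TMa5_val {a : F} (ha : a ≠ 0) : v (algebraMap F C a) = 1 := by
  have h := FiniteField.pow_card_sub_one_eq_one a ha
  have h2 : v (algebraMap F C a) ^ (qq F - 1) = 1 := by
    rw [← map_pow, ← map_pow, h, map_one, map_one]
  exact (pow_eq_one_iff_of_nonneg zero_le TMa5_q).1 h2

omit [IsAlgClosed C] in
theorem TMa5_val_le (a : F) : v (algebraMap F C a) ≤ 1 := by
  by_cases ha : a = 0
  · simp [ha]
  · exact (TMa5_val v ha).le

omit [IsAlgClosed C] in
theorem TMa5_near (y : C) (h : v (y ^ qq F - y) < 1) : ∃ a : F, v (y - algebraMap F C a) < 1 := by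
  by_contra hc
  push Not at hc
  rw [TMa5_prod, map_prod] at h
  exact absurd h (not_lt.2 (Finset.one_le_prod fun a _ => hc a))

omit [IsAlgClosed C] in
theorem TMa5_uniq {y : C} {a b : F} (ha : v (y - algebraMap F C a) < 1)
    (hb : v (y - algebraMap F C b) < 1) : a = b := by
  by_contra hne
  have h := v.map_sub_lt hb ha
  rw [sub_sub_sub_cancel_left, ← map_sub, TMa5_val v (sub_ne_zero.2 hne)] at h
  exact lt_irrefl _ h

theorem exists_alpha (hθ : 1 < v θ) {W : Type*} [AddCommGroup W] [Module F W] (g : W →ₗ[F] C)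
    (h : ∀ w, v (cth F θ (g w)) ^ (qq F - 1) ≤ v θ) :
    ∃ α : W →ₗ[F] F, ∀ w, α w = 0 → v (cth F θ (g w)) = v θ * v (g w) := by
  have hq := TMa5_q (F := F)
  obtain ⟨ζ, hζ⟩ := IsAlgClosed.exists_pow_nat_eq (-θ) (Nat.pos_of_ne_zero hq)
  have hv : v ζ ^ (qq F - 1) = v θ := by rw [← map_pow, hζ, v.map_neg]
  have hθ0 : 0 < v θ := zero_lt_one.trans hθ
  have hv0 : v ζ ≠ 0 := by
    intro h0
    rw [h0, zero_pow hq] at hv
    exact hθ0.ne hv
  have hζ0 : ζ ≠ 0 := fun h0 => hv0 (by rw [h0, map_zero])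
  have hqq : qq F = qq F - 1 + 1 := by omega
  have key : ∀ x : C, cth F θ x = -θ * ζ * ((x / ζ) ^ qq F - x / ζ) := by
    intro x
    have e : ζ ^ qq F = -θ * ζ := by rw [hqq, pow_succ, hζ]
    rw [cth_apply, div_pow, mul_sub, ← e, mul_div_cancel₀ _ (pow_ne_zero _ hζ0), e]
    field_simp
    ring
  have hex : ∀ w, ∃ a : F, v (g w / ζ - algebraMap F C a) < 1 := by
    intro w
    apply TMa5_near
    have h1 := h w
    rw [← hv] at h1
    have h2 := le_of_pow_le_pow_left₀ hq zero_le h1
    rw [key, map_mul, map_mul, v.map_neg] at h2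
    by_contra hc
    push Not at hc
    have hp : 0 < v ζ := zero_lt_iff.2 hv0
    have h3 : v ζ < v θ * v ζ := lt_mul_of_one_lt_left hp hθ
    have h4 : v θ * v ζ ≤ v θ * v ζ * v ((g w / ζ) ^ qq F - g w / ζ) :=
      le_mul_of_one_le_right zero_le hc
    exact absurd (h3.trans_le (h4.trans h2)) (lt_irrefl _)
  choose a ha using hex
  refine ⟨{ toFun := a, map_add' := fun w w' => ?_, map_smul' := fun c w => ?_ }, fun w hw => ?_⟩
  · refine TMa5_uniq v (ha _) ?_
    have := v.map_add_lt (ha w) (ha w')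
    convert this using 2
    rw [map_add, map_add]
    ring
  · refine TMa5_uniq v (ha _) ?_
    have e : g (c • w) / ζ - algebraMap F C ((RingHom.id F) c • a w) =
        algebraMap F C c * (g w / ζ - algebraMap F C (a w)) := by
      rw [map_smul, Algebra.smul_def, RingHom.id_apply, smul_eq_mul, map_mul]
      ring
    rw [e, map_mul]
    exact lt_of_le_of_lt (mul_le_of_le_one_left zero_le (TMa5_val_le v c)) (ha w)
  · have h1 := ha w
    have hw' : a w = 0 := hw
    rw [hw', map_zero, sub_zero, map_div₀, div_lt_one₀ (zero_lt_iff.2 hv0)] at h1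
    have h2 : v (g w ^ (qq F - 1)) < v θ := by
      rw [map_pow, ← hv]
      exact pow_lt_pow_left₀ h1 zero_le hq
    have e : cth F θ (g w) = (θ + g w ^ (qq F - 1)) * g w := by
      rw [cth_apply, add_mul, ← pow_succ, ← hqq]
    rw [e, map_mul, v.map_add_eq_of_lt_left h2]

omit [Fintype F] in
theorem TMa5_inj {k : ℕ} (α : (Fin (k + 1) → F) →ₗ[F] F) :
    ∃ ι : (Fin k → F) →ₗ[F] (Fin (k + 1) → F), Function.Injective ι ∧ ∀ w, α (ι w) = 0 := by
  have h1 := α.finrank_range_add_finrank_ker
  have h2 : Module.finrank F (LinearMap.range α) ≤ 1 :=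
    (Submodule.finrank_le _).trans_eq (Module.finrank_self F)
  rw [Module.finrank_fin_fun] at h1
  have h3 : Module.finrank F (Fin k → F) ≤ Module.finrank F (LinearMap.ker α) := by
    rw [Module.finrank_fin_fun]
    omega
  obtain ⟨f, hf⟩ := finrank_le_iff_exists_linearMap.1 h3
  exact ⟨(LinearMap.ker α).subtype ∘ₗ f, (Submodule.injective_subtype _).comp hf,
    fun w => (f w).2⟩

omit [IsAlgClosed C] in
theorem TMa5_iter {x : C} (j : ℕ)
    (h : ∀ i, i < j → v ((cth F θ ^ (i + 1)) x) = v θ * v ((cth F θ ^ i) x)) :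
    v ((cth F θ ^ j) x) = v x * v θ ^ j := by
  induction j with
  | zero => simp
  | succ j ih =>
    rw [h j (Nat.lt_succ_self j), ih fun i hi => h i (hi.trans (Nat.lt_succ_self j)), pow_succ,
      mul_comm, mul_assoc]

theorem prod_bound [DecidableEq F] (hθ : 1 < v θ) (ρ k : ℕ) : ∀ (j0 : ℕ) (g : (Fin k → F) →ₗ[F] C),
    k + j0 ≤ ρ → (∀ w i, i ≤ ρ → v ((cth F θ ^ i) (g w)) ^ (qq F - 1) ≤ v θ) →
    (∀ w i, i < j0 → v ((cth F θ ^ (i + 1)) (g w)) = v θ * v ((cth F θ ^ i) (g w))) →
    v (∏ w ∈ Finset.univ.erase 0, g w) * v θ ^ ((qq F ^ k - 1) * j0) ≤ v θ ^ k := by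
  have hq := TMa5_q (F := F)
  have hθ0 : 0 < v θ := zero_lt_one.trans hθ
  induction k with
  | zero =>
    intro j0 g _ _ _
    have : (Finset.univ.erase 0 : Finset (Fin 0 → F)) = ∅ := by
      ext w
      simp [Subsingleton.elim w 0]
    rw [this]
    simp
  | succ k ih =>
    intro j0 g hk h1 h2
    have hstep : ∀ w, cth F θ ((cth F θ ^ j0) (g w)) = (cth F θ ^ (j0 + 1)) (g w) := by
      intro w
      rw [pow_succ', Module.End.mul_apply]
    obtain ⟨α, hα⟩ := exists_alpha v hθ ((cth F θ ^ j0) ∘ₗ g) (fun w => by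
      rw [LinearMap.comp_apply, hstep]
      exact h1 w _ (by omega))
    obtain ⟨ι, hι, hι0⟩ := TMa5_inj α
    have hin := ih (j0 + 1) (g ∘ₗ ι) (by omega) (fun w i hi => h1 (ι w) i hi) (fun w i hi => by
      rcases Nat.lt_succ_iff_lt_or_eq.1 hi with hi | rfl
      · exact h2 (ι w) i hi
      · have := hα (ι w) (hι0 w)
        rw [LinearMap.comp_apply, hstep] at this
        exact this)
    set S : Finset (Fin (k + 1) → F) := Finset.univ.image ι with hS
    have hcard : (Finset.univ \ S).card = qq F ^ k * (qq F - 1) := by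
      rw [Finset.card_sdiff_of_subset (Finset.subset_univ _), hS,
        Finset.card_image_of_injective _ hι]
      simp only [Finset.card_univ, Fintype.card_pi, Finset.prod_const, Fintype.card_fin]
      rw [pow_succ, Nat.mul_sub_one]
    have hsplit : ∏ w ∈ Finset.univ.erase 0, g w =
        (∏ w ∈ Finset.univ.erase 0, (g ∘ₗ ι) w) * ∏ w ∈ Finset.univ \ S, g w := by
      have e1 : (Finset.univ.erase 0 : Finset (Fin (k + 1) → F)) =
          (Finset.univ.erase 0).image ι ∪ (Finset.univ \ S) := by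
        ext w
        simp only [hS, Finset.mem_erase, Finset.mem_univ, and_true, Finset.mem_union,
          Finset.mem_image, Finset.mem_sdiff, true_and]
        constructor
        · intro hw
          by_cases hx : ∃ a, ι a = w
          · obtain ⟨a, rfl⟩ := hx
            exact Or.inl ⟨a, fun h0 => hw (by rw [h0, map_zero]), rfl⟩
          · exact Or.inr hx
        · rintro (⟨a, ha, rfl⟩ | hx) h0
          · exact ha (hι (by rw [h0, map_zero]))
          · exact hx ⟨0, by rw [h0, map_zero]⟩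
      rw [e1, Finset.prod_union, Finset.prod_image fun a _ b _ hab => hι hab]
      · rfl
      · refine Finset.disjoint_left.2 fun w hw hw' => (Finset.mem_sdiff.1 hw').2 ?_
        exact Finset.image_subset_image (Finset.subset_univ _) hw
    have hout : v (∏ w ∈ Finset.univ \ S, g w) * v θ ^ (j0 * (qq F ^ k * (qq F - 1))) ≤
        v θ ^ qq F ^ k := by
      refine le_of_pow_le_pow_left₀ hq zero_le ?_
      have e : v (∏ w ∈ Finset.univ \ S, g w) * v θ ^ (j0 * (qq F ^ k * (qq F - 1))) =
          ∏ w ∈ Finset.univ \ S, v ((cth F θ ^ j0) (g w)) := by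
        rw [Finset.prod_congr rfl fun w _ => TMa5_iter v j0 (h2 w), Finset.prod_mul_distrib,
          Finset.prod_const, hcard, map_prod, pow_mul]
      rw [e, ← Finset.prod_pow, ← pow_mul, ← hcard, ← Finset.prod_const]
      exact Finset.prod_le_prod (fun _ _ => zero_le) fun w _ => h1 w j0 (by omega)
    have hmul := mul_le_mul hin hout zero_le zero_le
    obtain ⟨Q, hQ⟩ : ∃ Q, qq F ^ k = Q + 1 :=
      Nat.exists_eq_add_one_of_ne_zero (pow_ne_zero _ (by omega))
    obtain ⟨p, hp⟩ : ∃ p, qq F = p + 1 := Nat.exists_eq_add_one_of_ne_zero (by omega)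
    have e1 : qq F ^ (k + 1) - 1 = Q + (Q + 1) * p := by
      rw [pow_succ, hQ, hp]
      apply Nat.sub_eq_of_eq_add
      ring
    have e2 : qq F - 1 = p := by omega
    rw [hQ, e2, Nat.add_sub_cancel] at hmul
    rw [hsplit, map_mul, e1]
    refine le_of_mul_le_mul_right (a := v θ ^ Q) ?_ (pow_pos hθ0 _)
    convert hmul using 1
    · simp only [mul_assoc, ← pow_add]
      rw [mul_left_comm (v θ ^ _), ← pow_add]
      congr 3
      ring
    · rw [← pow_add, ← pow_add]
      congr 1
      ring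

end Pool.Agent.MP_ee2255_nt.T
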