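import Pool.Agent.MP_ee2255_nt.TMon
import Pool.Agent.MP_ee2255_nt.TMa1
import Pool.Agent.MP_ee2255_nt.TMa2
import Pool.Agent.MP_ee2255_nt.TMa5

/-! Short relations in the Carlitz module. -/

namespace Pool.Agent.MP_ee2255_nt.T

open Polynomial Filter Topology Pool.Agent.MP_655169_nt

theorem ma6_conj {K C : Type*} [Field K] [Field C] [Algebra K C] [IsAlgClosed C] {x x' : C}
    (hx : IsIntegral K x) (h : IsConjRoot K x x') :
    ∃ (L : Subfield C) (τ : L →+* C), (∀ a, IsIntegral K a → a ∈ L) ∧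
      (∀ a : L, IsConjRoot K (a : C) (τ a)) ∧ ∀ hx : x ∈ L, τ ⟨x, hx⟩ = x' := by
  let L0 := algebraicClosure K C
  let x0 : L0 := ⟨x, mem_algebraicClosure_iff'.2 hx⟩
  let x1 : L0 := ⟨x', mem_algebraicClosure_iff'.2 (h.isIntegral hx)⟩
  have h0 : IsConjRoot K x1 x0 := by
    rw [← isConjRoot_algHom_iff_of_injective (f := L0.val) L0.val.injective]
    exact h.symm
  obtain ⟨σ, hσ⟩ := h0.exists_algEquiv
  refine ⟨L0.toSubfield, (L0.val.comp σ.toAlgHom).toRingHom,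
    fun a ha => mem_algebraicClosure_iff'.2 ha, fun a => ?_, fun hx => ?_⟩
  · have h1 : IsConjRoot K (show L0 from a) (σ a) := isConjRoot_of_algEquiv _ σ
    rw [← isConjRoot_algHom_iff_of_injective (f := L0.val) L0.val.injective] at h1
    exact h1
  · exact congrArg Subtype.val hσ

section

variable {F C : Type*} [Field F] [Fintype F] [Field C] [Algebra F C]

theorem ma6_mem (L : Subfield C) (hF : ∀ a : F, algebraMap F C a ∈ L) {θ : C} (hθ : θ ∈ L)
    {r : ℕ} (c : Fin r → F[X]) {y : Fin r → C} (hy : ∀ j, y j ∈ L) :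
    ∑ j, carl θ (c j) (y j) ∈ L :=
  sum_mem fun j _ => carl_mem θ L hF hθ (c j) (hy j)

theorem ma6_tau (L : Subfield C) (hF : ∀ a : F, algebraMap F C a ∈ L) {θ : C} (hθ : θ ∈ L)
    (τ : L →+* C) (hτF : ∀ a : F, τ ⟨algebraMap F C a, hF a⟩ = algebraMap F C a)
    (hτθ : τ ⟨θ, hθ⟩ = θ) {r : ℕ} (c : Fin r → F[X]) {y : Fin r → C} (hy : ∀ j, y j ∈ L) :
    τ ⟨∑ j, carl θ (c j) (y j), ma6_mem L hF hθ c hy⟩ = ∑ j, carl θ (c j) (τ ⟨y j, hy j⟩) := by
  let : Algebra F L := ((algebraMap F C).codRestrict L hF).toAlgebra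
  let ι : L →ₐ[F] C := ⟨L.subtype, fun _ => rfl⟩
  let τ' : L →ₐ[F] C := ⟨τ, hτF⟩
  have h1 : (⟨∑ j, carl θ (c j) (y j), ma6_mem L hF hθ c hy⟩ : L) =
      ∑ j, carl (⟨θ, hθ⟩ : L) (c j) ⟨y j, hy j⟩ := by
    apply ι.injective
    rw [map_sum]
    change ∑ j, carl θ (c j) (y j) = ∑ j, ι (carl (⟨θ, hθ⟩ : L) (c j) ⟨y j, hy j⟩)
    exact Finset.sum_congr rfl fun j _ => (carl_map (⟨θ, hθ⟩ : L) ι (c j) ⟨y j, hy j⟩).symm
  rw [h1, map_sum]
  refine Finset.sum_congr rfl fun j _ => ?_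
  have h2 := carl_map (⟨θ, hθ⟩ : L) τ' (c j) ⟨y j, hy j⟩
  have h3 : τ' ⟨θ, hθ⟩ = θ := hτθ
  rw [h3] at h2
  exact h2

/-- The family of candidate relations evaluated at `y`. -/
noncomputable def ma6G (θ : C) {r : ℕ} {W : Type*} [AddCommGroup W] [Module F W]
    (w : W →ₗ[F] (Fin r → F[X])) (y : Fin r → C) : W →ₗ[F] C where
  toFun a := ∑ j, carl θ (w a j) (y j)
  map_add' a b := by simp [carl_add_left, Finset.sum_add_distrib]
  map_smul' a b := by simp [carl_smul_left, Finset.smul_sum]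

theorem ma6G_apply (θ : C) {r : ℕ} {W : Type*} [AddCommGroup W] [Module F W]
    (w : W →ₗ[F] (Fin r → F[X])) (y : Fin r → C) (a : W) :
    ma6G θ w y a = ∑ j, carl θ (w a j) (y j) := rfl

theorem ma6_key (θ : C) {r : ℕ} (c u : Fin r → F[X]) (j1 : Fin r) (y : Fin r → C)
    (h : ∑ j, carl θ (c j) (y j) = 0) :
    carl θ (c j1) (∑ j, carl θ (u j) (y j)) = ∑ j, carl θ (c j1 * u j - u j1 * c j) (y j) := by
  simp only [carl_sub_left, carl_mul, Finset.sum_sub_distrib]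
  rw [← carl_sum, ← carl_sum, h, carl_zero, sub_zero]

theorem ma6_pow {a b : ℕ} (h : a ≤ b) : 2 ^ a ≤ qq F ^ b :=
  (Nat.pow_le_pow_left (two_le_qq (F := F)) a).trans
    (Nat.pow_le_pow_right (by have := two_le_qq (F := F); omega) h)

theorem ma6_ineq {H l i : ℕ} (hH : H ≤ 2 ^ l) (hi : i ≤ 2 * l + 3) :
    (qq F - 1) * H * qq F ^ i ≤ qq F ^ (3 * l + 4) := by
  have h2 := two_le_qq (F := F)
  have h1 : H ≤ qq F ^ l := hH.trans (ma6_pow le_rfl)
  have h3 : qq F ^ i ≤ qq F ^ (2 * l + 3) := Nat.pow_le_pow_right (by omega) hi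
  calc (qq F - 1) * H * qq F ^ i ≤ qq F * qq F ^ l * qq F ^ (2 * l + 3) :=
        Nat.mul_le_mul (Nat.mul_le_mul (Nat.sub_le _ _) h1) h3
    _ = qq F ^ (3 * l + 4) := by ring

theorem ma6_final (l : ℕ) : ¬ (qq F ^ (2 * l + 2) - 1) * 1 ≤ (2 * l + 2) * 2 ^ l := by
  have h1 : 2 ^ (2 * l + 2) ≤ qq F ^ (2 * l + 2) := ma6_pow le_rfl
  have h2 : l < 2 ^ l := Nat.lt_two_pow_self
  have h3 : 2 ^ (2 * l + 2) = 4 * (2 ^ l * 2 ^ l) := by ring
  have h4 : (2 * l + 2) * 2 ^ l ≤ 2 * (2 ^ l * 2 ^ l) := by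
    rw [← mul_assoc]
    exact Nat.mul_le_mul_right _ (by omega)
  have h5 : 0 < 2 ^ l * 2 ^ l := by positivity
  omega

end

section

variable {E C κ : Type*} [Field E] [Field C] [Algebra E C] {μ : κ → C} {V : ValuationSubring C}

theorem ma6_theta (i0 : κ) (hV : ∀ a b : MvPolynomial κ E, b ≠ 0 →
      (MvPolynomial.aeval μ a / MvPolynomial.aeval μ b ∈ V ↔ a.totalDegree ≤ b.totalDegree)) :
    1 < V.valuation (μ i0) := by
  have h := hV (MvPolynomial.X i0) 1 one_ne_zero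
  simp only [MvPolynomial.aeval_X, map_one, div_one, MvPolynomial.totalDegree_X,
    MvPolynomial.totalDegree_one] at h
  rw [← V.valuation_le_one_iff] at h
  by_contra h1
  have := h.1 (not_lt.1 h1)
  omega

theorem ma6_root (hμ : AlgebraicIndependent E μ) (i0 : κ) (hV : ∀ a b : MvPolynomial κ E, b ≠ 0 →
      (MvPolynomial.aeval μ a / MvPolynomial.aeval μ b ∈ V ↔ a.totalDegree ≤ b.totalDegree))
    {D : MvPolynomial κ E} (hD : D ≠ 0) {n H : ℕ} {y : C}
    (hm : Mon E μ n H (MvPolynomial.aeval μ D * y)) :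
    V.valuation y ≤ V.valuation (μ i0) ^ H := by
  obtain ⟨Φ, hΦ, -, hd, h0⟩ := hm
  have hθ := ma6_theta i0 hV
  have hθ0 : 0 < V.valuation (μ i0) ^ H := pow_pos (zero_lt_one.trans hθ) H
  have hD0 : MvPolynomial.aeval μ D ≠ 0 := fun h => hD (hμ (by simpa using h))
  have hD1 : 1 ≤ V.valuation (MvPolynomial.aeval μ D) := by
    have h := (hV 1 D hD).2 (by simp)
    rw [← V.valuation_le_one_iff, map_one, map_div₀, map_one,
      div_le_one₀ ((Valuation.pos_iff _).2 hD0)] at h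
    exact h
  have h1 := val_root V
    (Φ.map (MvPolynomial.aeval μ : MvPolynomial κ E →ₐ[E] C).toRingHom)
    (x := MvPolynomial.aeval μ D * y) (by rw [eval_map]; exact h0) (μ i0 ^ H)⁻¹ (fun j => by
      have h := (hV (Φ.coeff j) (MvPolynomial.X i0 ^ H)
        (pow_ne_zero _ (MvPolynomial.X_ne_zero i0))).2
        (by rw [MvPolynomial.totalDegree_X_pow]; exact hd j)
      rw [map_pow, MvPolynomial.aeval_X, div_eq_inv_mul] at h
      rw [coeff_map]
      exact h)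
  rw [(hΦ.map _).leadingCoeff, mul_one, ← V.valuation_le_one_iff, map_mul, map_inv₀, map_pow,
    inv_mul_le_iff₀ hθ0, mul_one, map_mul] at h1
  exact (le_mul_of_one_le_left' hD1).trans h1

end

theorem masser {F E C κ : Type*} [Field F] [Fintype F] [Field E] [Field C] [IsAlgClosed C]
    [Algebra F C] [Algebra E C] [Algebra F E] [IsScalarTower F E C] [Finite κ] {μ : κ → C}
    (hμ : AlgebraicIndependent E μ) (i0 : κ) (k : Subfield C) (l : ℕ)
    (hk : ∀ a ∈ k, IsIntegral (KF E μ) a ∧ (minpoly (KF E μ) a).natDegree ≤ 2 ^ l)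
    (hF : ∀ a : F, algebraMap F C a ∈ k) (hθ : μ i0 ∈ k) {r : ℕ} (y : Fin r → C)
    (hy : ∀ j, y j ∈ k) (D : MvPolynomial κ E) (hD : D ≠ 0) {n H : ℕ} (hH : 1 ≤ H)
    (hH' : H ≤ 2 ^ l) (hDH : D.totalDegree ≤ H)
    (hm : ∀ j, Mon E μ n H (MvPolynomial.aeval μ D * y j)) (h : Rel F (μ i0) y) :
    RelLe F (μ i0) y (r * (3 * l + 4)) := by
  classical
  obtain ⟨c, hc0, hc⟩ := h
  by_contra hno
  obtain ⟨j1, hj1, hmax⟩ : ∃ j1, c j1 ≠ 0 ∧ ∀ j, (c j).natDegree ≤ (c j1).natDegree := by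
    obtain ⟨j0, hj0⟩ := Function.ne_iff.1 hc0
    obtain ⟨j1, h1, h2⟩ := (Finset.univ.filter fun j => c j ≠ 0).exists_max_image
      (fun j => (c j).natDegree) ⟨j0, by simpa using hj0⟩
    refine ⟨j1, by simpa using h1, fun j => ?_⟩
    by_cases hj : c j = 0
    · simp [hj]
    · exact h2 j (by simpa using hj)
  have hρ : 3 * l + 4 ≤ (c j1).natDegree := by
    by_contra h1
    refine hno ⟨c, hc0, fun j => (hmax j).trans ?_, hc⟩
    have : 1 * (3 * l + 4) ≤ r * (3 * l + 4) := Nat.mul_le_mul_right _ j1.pos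
    omega
  obtain ⟨w, hwi, hw⟩ := dirichlet c j1 hj1 hmax (3 * l + 4) hρ
  have hne : ∀ a, a ≠ 0 → ma6G (μ i0) w y a ≠ 0 := fun a ha h0 =>
    hno ⟨w a, fun h1 => ha (hwi (by simpa using h1)), fun j => (hw a j).1, h0⟩
  have hgk : ∀ a, ma6G (μ i0) w y a ∈ k := fun a => ma6_mem k hF hθ (w a) hy
  have hva : ∀ a, VA E μ (ma6G (μ i0) w y a) := by
    intro a
    refine int_of_pow hμ (Q := qq F ^ (3 * l + 4)) (hk _ (hgk a)).1 (hk _ (hgk a)).2 D hD ?_ ?_
    · have h1 : 2 ^ l * D.totalDegree ≤ 2 ^ l * 2 ^ l := Nat.mul_le_mul_left _ (hDH.trans hH')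
      have h2 : 2 ^ (2 * l + 1) ≤ qq F ^ (3 * l + 4) := ma6_pow (by omega)
      have h3 : 2 ^ (2 * l + 1) = 2 * (2 ^ l * 2 ^ l) := by ring
      have h5 : 0 < 2 ^ l * 2 ^ l := by positivity
      omega
    · intro V hV
      exact fin_place V (by simpa using hV (MvPolynomial.X i0)) hj1 hρ (fun j => (hw a j).2)
        (ma6_key (μ i0) c (w a) j1 y hc) (hV D) fun j => (hm j).va V hV
  obtain ⟨V, hV⟩ := exists_inf hμ
  have hθ1 := ma6_theta i0 hV
  have hinf : ∀ y' : Fin r → C, (∀ j, Mon E μ n H (MvPolynomial.aeval μ D * y' j)) →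
      ∑ j, carl (μ i0) (c j) (y' j) = 0 → ∀ a i, i ≤ 2 * l + 3 →
      V.valuation ((cth F (μ i0) ^ i) (ma6G (μ i0) w y' a)) ^ (qq F - 1) ≤
        V.valuation (μ i0) := fun y' hm' hc' a i hi =>
    inf_place V.valuation hθ1 hj1 hρ (fun j => (hw a j).2) (ma6_key (μ i0) c (w a) j1 y' hc') hH
      (fun j => ma6_root hμ i0 hV hD (hm' j)) (ma6_ineq hH' hi)
  obtain ⟨α, hα⟩ := exists_alpha V.valuation hθ1 (ma6G (μ i0) w y) fun a => by
    simpa using hinf y hm hc a 1 (by omega)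
  obtain ⟨e, he, heα⟩ : ∃ e : (Fin (2 * l + 2) → F) →ₗ[F] (Fin (3 * l + 4 + 1) → F),
      Function.Injective e ∧ ∀ b, α (e b) = 0 := by
    have h1 := α.finrank_range_add_finrank_ker
    have h2 : Module.finrank F (LinearMap.range α) ≤ 1 := by
      simpa using (LinearMap.range α).finrank_le
    have h3 : 2 * l + 2 ≤ Module.finrank F (LinearMap.ker α) := by
      simp only [Module.finrank_fin_fun] at h1
      omega
    obtain ⟨f, hf⟩ := exists_linearIndependent_of_le_finrank h3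
    exact ⟨(LinearMap.ker α).subtype ∘ₗ Fintype.linearCombination F f,
      (LinearMap.ker α).injective_subtype.comp hf.fintypeLinearCombination_injective,
      fun b => (Fintype.linearCombination F f b).2⟩
  have hxk : ∏ b ∈ Finset.univ.erase 0, (ma6G (μ i0) w y ∘ₗ e) b ∈ k :=
    prod_mem fun b _ => hgk _
  refine ma6_final (F := F) l (norm_inf hμ i0 V hV
    (x := ∏ b ∈ Finset.univ.erase 0, (ma6G (μ i0) w y ∘ₗ e) b) ?_ (hk _ hxk).1 (hk _ hxk).2
    (VA.prod _ fun b _ => hva _) ?_ ?_)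
  · refine Finset.prod_ne_zero_iff.2 fun b hb => hne _ fun h0 => ?_
    exact (Finset.mem_erase.1 hb).1 (he (by simpa using h0))
  · intro x' hx'
    obtain ⟨L, τ, hL, hτ, hτx⟩ := ma6_conj (hk _ hxk).1 hx'
    have hkL : ∀ a ∈ k, a ∈ L := fun a ha => hL a (hk a ha).1
    have hKL : ∀ a ∈ KF E μ, a ∈ L := fun a ha =>
      hL a (isIntegral_algebraMap (A := C) (x := (⟨a, ha⟩ : KF E μ)))
    have hfix : ∀ a (ha : a ∈ KF E μ), τ ⟨a, hKL a ha⟩ = a := fun a ha =>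
      IsConjRoot.eq_algebraMap (r := (⟨a, ha⟩ : KF E μ)) (hτ ⟨a, hKL a ha⟩)
    have hθK : μ i0 ∈ KF E μ := IntermediateField.subset_adjoin _ _ ⟨i0, rfl⟩
    have hFK : ∀ a : F, algebraMap F C a ∈ KF E μ := fun a => by
      rw [IsScalarTower.algebraMap_apply F E C]
      exact (KF E μ).algebraMap_mem _
    have hDK : MvPolynomial.aeval μ D ∈ KF E μ := by
      have h1 : MvPolynomial.aeval μ D ∈ Algebra.adjoin E (Set.range μ) := by
        rw [Algebra.adjoin_range_eq_range_aeval]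
        exact ⟨D, rfl⟩
      exact IntermediateField.algebra_adjoin_le_adjoin _ _ h1
    have hyL : ∀ j, y j ∈ L := fun j => hkL _ (hy j)
    have htau := fun u : Fin r → F[X] => ma6_tau L (fun a => hKL _ (hFK a)) (hKL _ hθK) τ
      (fun a => hfix _ (hFK a)) (hfix _ hθK) u hyL
    have hm' : ∀ j, Mon E μ n H (MvPolynomial.aeval μ D * τ ⟨y j, hyL j⟩) := fun j => by
      have h1 := hτ (⟨_, hKL _ hDK⟩ * ⟨y j, hyL j⟩)
      rw [map_mul, hfix _ hDK] at h1
      exact (hm j).conj h1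
    have hc' : ∑ j, carl (μ i0) (c j) (τ ⟨y j, hyL j⟩) = 0 := by
      rw [← htau c, ← τ.map_zero]
      exact congrArg τ (Subtype.ext hc)
    have hx : x' = ∏ b ∈ Finset.univ.erase 0,
        (ma6G (μ i0) w (fun j => τ ⟨y j, hyL j⟩) ∘ₗ e) b := by
      rw [← hτx (hkL _ hxk)]
      have h1 : (⟨_, hkL _ hxk⟩ : L) = ∏ b ∈ Finset.univ.erase 0,
          (⟨ma6G (μ i0) w y (e b), hkL _ (hgk _)⟩ : L) := by
        apply Subtype.ext
        rw [SubmonoidClass.coe_finsetProd]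
        rfl
      rw [h1, map_prod]
      exact Finset.prod_congr rfl fun b _ => htau (w (e b))
    have h2 := prod_bound V.valuation hθ1 (2 * l + 3) (2 * l + 2) 0
      (ma6G (μ i0) w (fun j => τ ⟨y j, hyL j⟩) ∘ₗ e) (by omega)
      (fun b i hi => hinf _ hm' hc' (e b) i hi) (fun _ i hi => absurd hi (by omega))
    rw [hx]
    simpa only [mul_zero, pow_zero, mul_one] using h2
  · refine prod_bound V.valuation hθ1 (2 * l + 3) (2 * l + 2) 1 (ma6G (μ i0) w y ∘ₗ e) (by omega)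
      (fun b i hi => hinf y hm hc (e b) i hi) fun b i hi => ?_
    obtain rfl : i = 0 := by omega
    simpa using hα (e b) (heα b)

end Pool.Agent.MP_ee2255_nt.T
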