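import Pool.Agent.MP_ee2255_nt.TVal

/-! Monic equations with bounded degrees. -/

namespace Pool.Agent.MP_ee2255_nt.T

open Polynomial Filter Topology Pool.Agent.MP_655169_nt

variable {E : Type*} [Field E] {C : Type*} [Field C] [Algebra E C] {κ : Type*}
  [Finite κ] {μ : κ → C} {x : C}

theorem coeff_val (K : IntermediateField E C) (s : Set C) (hs : s ⊆ K) {x : C}
    (hx : IsIntegral K x) (h : ∀ V : ValuationSubring C, s ⊆ V → x ∈ V) (j : ℕ)
    (V : ValuationSubring C) (hV : s ⊆ V) : (((minpoly K x).coeff j : K) : C) ∈ V := by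
  have key : ∀ y : C, (∀ V : ValuationSubring C, s ⊆ V → y ∈ V) ↔
      IsIntegral (Subring.closure s) y := by
    intro y
    have := iInf_valuationSubring_superset (s := s)
    have h2 : y ∈ (integralClosure (Subring.closure s) C).toSubring ↔
        IsIntegral (Subring.closure s) y := Iff.rfl
    rw [← h2, ← this, Subring.mem_iInf]
    exact ⟨fun h V => h V.1 V.2, fun h V hV => h ⟨V, hV⟩⟩
  obtain ⟨p, hp, hpx⟩ := (key x).1 h
  have hl : p.map (algebraMap (Subring.closure s) C) ∈ lifts (algebraMap K C) := by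
    rw [lifts_iff_coeff_lifts]
    intro n
    have : ((p.coeff n : Subring.closure s) : C) ∈ K.toSubfield.toSubring :=
      (Subring.closure_le (t := K.toSubfield.toSubring)).2 hs (p.coeff n).2
    exact ⟨⟨_, this⟩, by simp [coeff_map]; rfl⟩
  obtain ⟨q, hq⟩ := (mem_lifts _).1 hl
  have hd : minpoly K x ∣ q := by
    apply minpoly.dvd
    rw [aeval_def, ← eval_map, hq, eval_map]
    exact hpx
  have hd' : (minpoly K x).map (algebraMap K C) ∣ p.map (algebraMap (Subring.closure s) C) := by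
    rw [← hq]; exact Polynomial.map_dvd _ hd
  have := isIntegral_coeff_of_dvd p _ hp ((minpoly.monic hx).map _) hd' j
  rw [coeff_map] at this
  exact (key _).2 this V hV

omit [Finite κ] in
theorem aeval_mem_KF (a : MvPolynomial κ E) : MvPolynomial.aeval μ a ∈ KF E μ := by
  rw [IntermediateField.mem_adjoin_range_iff]
  exact ⟨a, 1, by simp⟩

omit [Finite κ] in
theorem coeff_VA (hx : IsIntegral (KF E μ) x) (h : VA E μ x) (j : ℕ) :
    VA E μ (((minpoly (KF E μ) x).coeff j : KF E μ) : C) := by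
  intro V hV
  refine coeff_val (KF E μ) (Set.range fun a : MvPolynomial κ E => MvPolynomial.aeval μ a) ?_ hx
    ?_ j V ?_
  · rintro _ ⟨a, rfl⟩; exact aeval_mem_KF a
  · intro W hW; exact h W fun a => hW ⟨a, rfl⟩
  · rintro _ ⟨a, rfl⟩; exact hV a

omit [Finite κ] in
theorem coeff_VI (hx : IsIntegral (KF E μ) x) (h : VI E μ x) (j : ℕ) :
    VI E μ (((minpoly (KF E μ) x).coeff j : KF E μ) : C) := by
  intro V hV
  refine coeff_val (KF E μ) {y | ∃ a b : MvPolynomial κ E, b ≠ 0 ∧ a.totalDegree ≤ b.totalDegree ∧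
    y = MvPolynomial.aeval μ a / MvPolynomial.aeval μ b} ?_ hx ?_ j V ?_
  · rintro _ ⟨a, b, -, -, rfl⟩; exact div_mem (aeval_mem_KF a) (aeval_mem_KF b)
  · intro W hW; exact h W fun a b hb hab => hW ⟨a, b, hb, hab, rfl⟩
  · rintro _ ⟨a, b, hb, hab, rfl⟩; exact hV a b hb hab

omit [Finite κ] in
theorem aeval_ne (hμ : AlgebraicIndependent E μ) {a : MvPolynomial κ E} (ha : a ≠ 0) :
    MvPolynomial.aeval μ a ≠ 0 := fun h => ha (hμ (by rw [h, map_zero]))

theorem mon_of (hμ : AlgebraicIndependent E μ) (i0 : κ) {n h : ℕ} (hx : IsIntegral (KF E μ) x)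
    (hn : (minpoly (KF E μ) x).natDegree ≤ n) (h1 : VA E μ x) (h2 : VI E μ (x / μ i0 ^ h)) :
    Mon E μ n (n * h) x := by
  set p := minpoly (KF E μ) x with hp
  have hm : p.Monic := minpoly.monic hx
  have hl : p.map (algebraMap (KF E μ) C) ∈
      lifts (MvPolynomial.aeval μ : MvPolynomial κ E →ₐ[E] C).toRingHom := by
    rw [lifts_iff_coeff_lifts]
    intro j
    obtain ⟨a, ha⟩ := VA_KF hμ (p.coeff j).2 (coeff_VA hx h1 j)
    exact ⟨a, by rw [coeff_map]; exact ha.symm⟩
  obtain ⟨Φ, hΦ, hdeg, hmon⟩ := lifts_and_natDegree_eq_and_monic hl (hm.map _)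
  rw [hm.natDegree_map] at hdeg
  have hθ : μ i0 ≠ 0 := by
    have := aeval_ne hμ (MvPolynomial.X_ne_zero (R := E) i0)
    simpa using this
  have hθK : μ i0 ∈ KF E μ := by simpa using aeval_mem_KF (μ := μ) (MvPolynomial.X (R := E) i0)
  set r : KF E μ := ((⟨μ i0, hθK⟩ : KF E μ) ^ h)⁻¹ with hr
  have hr0 : r ≠ 0 := by
    refine inv_ne_zero (pow_ne_zero _ fun e => hθ ?_)
    simpa using congrArg Subtype.val e
  have hrC : (r : C) = (μ i0 ^ h)⁻¹ := by simp [hr]
  have hrx : r • x = x / μ i0 ^ h := by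
    rw [Algebra.smul_def, div_eq_mul_inv, mul_comm, ← hrC]; rfl
  have hmin := IsIntegrallyClosed.minpoly_smul hr0 hx
  refine ⟨Φ, hmon, hdeg.trans_le hn, fun j => ?_, ?_⟩
  · have h3 := coeff_VI (hx.smul r) (hrx ▸ h2) j
    rw [hmin, coeff_scaleRoots] at h3
    have h4 : MvPolynomial.aeval μ (Φ.coeff j) = ((p.coeff j : KF E μ) : C) := by
      have := congrArg (fun q => Polynomial.coeff q j) hΦ
      simpa [coeff_map] using this
    have h5 := VI_deg hμ (Φ.coeff j) (MvPolynomial.X i0 ^ (h * (p.natDegree - j)))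
      (pow_ne_zero _ (MvPolynomial.X_ne_zero i0)) (by
        convert h3 using 1
        rw [h4, ← hp]
        simp [hrC, pow_mul, div_eq_mul_inv])
    rw [MvPolynomial.totalDegree_X_pow] at h5
    refine h5.trans ?_
    rw [mul_comm]
    exact Nat.mul_le_mul_right _ ((Nat.sub_le _ _).trans hn)
  · rw [← eval_map, hΦ, eval_map, ← aeval_def]
    exact minpoly.aeval _ _

omit [Finite κ] in
theorem totalDegree_pow_eq {b : MvPolynomial κ E} (hb : b ≠ 0) (m : ℕ) :
    (b ^ m).totalDegree = m * b.totalDegree := by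
  induction m with
  | zero => simp
  | succ m ih =>
    rw [pow_succ, MvPolynomial.totalDegree_mul_of_isDomain (pow_ne_zero _ hb) hb, ih]; ring

theorem poly_of_pow (hμ : AlgebraicIndependent E μ) {a : C} (ha : a ∈ KF E μ) {m Q : ℕ}
    (D : MvPolynomial κ E) (hD : D ≠ 0) (hQ : m * D.totalDegree < Q)
    (h : VA E μ (a ^ Q * MvPolynomial.aeval μ D ^ m)) : VA E μ a := by
  obtain ⟨c, hc⟩ := VA_KF hμ (mul_mem (pow_mem ha Q) (pow_mem (aeval_mem_KF D) m)) h
  obtain ⟨α, β, hαβ⟩ := (IntermediateField.mem_adjoin_range_iff E μ a).1 ha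
  by_cases hβ : β = 0
  · have : a = MvPolynomial.aeval μ (0 : MvPolynomial κ E) := by simp [hαβ, hβ]
    rw [this]; exact VA.aeval _
  obtain ⟨α', β', g, hcop, rfl, rfl⟩ := UniqueFactorizationMonoid.exists_reduced_factors' α β hβ
  have hg : g ≠ 0 := left_ne_zero_of_mul hβ
  have hβ' : β' ≠ 0 := right_ne_zero_of_mul hβ
  have hg1 := aeval_ne hμ hg
  have hβ1 := aeval_ne hμ hβ'
  have ha' : a = MvPolynomial.aeval μ α' / MvPolynomial.aeval μ β' := by
    rw [hαβ, map_mul, map_mul, mul_div_mul_left _ _ hg1]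
  have he : α' ^ Q * D ^ m = β' ^ Q * c := by
    apply hμ
    simp only [map_mul, map_pow]
    rw [← hc, ha', div_pow]
    field_simp
  have hd : β' ^ Q ∣ D ^ m :=
    (hcop.symm.pow (m := Q) (n := Q)).dvd_of_dvd_mul_left ⟨c, he⟩
  have hle := MvPolynomial.totalDegree_le_of_dvd_of_isDomain hd (pow_ne_zero _ hD)
  rw [totalDegree_pow_eq hβ', totalDegree_pow_eq hD] at hle
  have h0 : β'.totalDegree = 0 := by
    by_contra hne
    have : Q * 1 ≤ Q * β'.totalDegree := Nat.mul_le_mul_left _ (Nat.one_le_iff_ne_zero.2 hne)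
    omega
  rw [MvPolynomial.totalDegree_eq_zero_iff_eq_C] at h0
  have : a = MvPolynomial.aeval μ (α' * MvPolynomial.C (β'.coeff 0)⁻¹) := by
    rw [ha', map_mul, div_eq_mul_inv]
    congr 1
    conv_lhs => rw [h0]
    simp
  rw [this]; exact VA.aeval _

/-- If a high power of `x` has a denominator of low degree then `x` is integral. -/
theorem int_of_pow [IsAlgClosed C] (hμ : AlgebraicIndependent E μ) {n Q : ℕ}
    (hx : IsIntegral (KF E μ) x) (hn : (minpoly (KF E μ) x).natDegree ≤ n) (D : MvPolynomial κ E)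
    (hD : D ≠ 0) (hQ : n * D.totalDegree < Q) (h : VA E μ (MvPolynomial.aeval μ D * x ^ Q)) :
    VA E μ x := by
  set p := minpoly (KF E μ) x with hp
  have hm : p.Monic := minpoly.monic hx
  set P := p.map (algebraMap (KF E μ) C) with hP
  have hPm : P.Monic := hm.map _
  have hQ0 : 0 < Q := lt_of_le_of_lt (Nat.zero_le _) hQ
  set d : KF E μ := ⟨MvPolynomial.aeval μ D, aeval_mem_KF D⟩ with hd
  obtain ⟨δ, hδ⟩ := IsAlgClosed.exists_pow_nat_eq (MvPolynomial.aeval μ D) hQ0
  have hδ0 : δ ≠ 0 := by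
    rintro rfl
    exact aeval_ne hμ hD (by rw [← hδ, zero_pow hQ0.ne'])
  have hev : ∀ y : C, aeval y (Polynomial.C d * X ^ Q) = MvPolynomial.aeval μ D * y ^ Q := by
    intro y; simp [hd]
  have hint : IsIntegral (KF E μ) (MvPolynomial.aeval μ D * x ^ Q) :=
    (isIntegral_algebraMap (x := d)).mul (hx.pow Q)
  have hroot : ∀ y ∈ P.roots, VA E μ (MvPolynomial.aeval μ D * y ^ Q) := by
    intro y hy
    have hy0 : aeval y p = 0 := by
      rw [aeval_def, ← eval_map]; exact (mem_roots hPm.ne_zero).1 hy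
    refine h.conj (isConjRoot_of_aeval_eq_zero hint ?_)
    have hdv : p ∣ (minpoly (KF E μ) (MvPolynomial.aeval μ D * x ^ Q)).comp
        (Polynomial.C d * X ^ Q) := by
      apply minpoly.dvd
      rw [aeval_comp, hev, minpoly.aeval]
    have := aeval_eq_zero_of_dvd_aeval_eq_zero hdv hy0
    rwa [aeval_comp, hev] at this
  have hco : ∀ j, VA E μ (P.coeff j) := by
    intro j
    have hK : P.coeff j ∈ KF E μ := by rw [hP, coeff_map]; exact (p.coeff j).2
    refine poly_of_pow hμ hK (m := P.natDegree - j) (Q := Q) D hD ?_ ?_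
    · refine lt_of_le_of_lt (Nat.mul_le_mul_right _ ((Nat.sub_le _ _).trans ?_)) hQ
      rw [hP, hm.natDegree_map]; exact hn
    · intro V hV
      have hl := (IsAlgClosed.splits (P.scaleRoots δ)).mem_lift_of_roots_mem_range
        ((monic_scaleRoots_iff δ).2 hPm) V.subtype (by
          intro z hz
          rw [roots_scaleRoots _ (isUnit_iff_ne_zero.2 hδ0)] at hz
          obtain ⟨y, hy, rfl⟩ := Multiset.mem_map.1 hz
          have h1 := hroot y hy V hV
          rw [← hδ, ← mul_pow, ← V.valuation_le_one_iff, map_pow,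
            pow_le_one_iff_of_nonneg zero_le hQ0.ne', V.valuation_le_one_iff] at h1
          exact ⟨⟨_, h1⟩, rfl⟩)
      obtain ⟨w, hw⟩ := (lifts_iff_coeff_lifts _).1 hl j
      rw [coeff_scaleRoots] at hw
      have h2 : P.coeff j * δ ^ (P.natDegree - j) ∈ V := by rw [← hw]; exact w.2
      have h3 := V.pow_mem h2 Q
      rwa [mul_pow, ← pow_mul, mul_comm _ Q, pow_mul, hδ] at h3
  intro V hV
  have := val_root V P (x := x) (by rw [hP, eval_map, ← aeval_def]; exact minpoly.aeval _ _) 1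
    (fun j => by rw [one_mul]; exact hco j V hV)
  rwa [hPm.leadingCoeff, one_mul, one_mul] at this

/-- The norm of a nonzero integral element is not small at infinity. -/
theorem norm_inf [IsAlgClosed C] (hμ : AlgebraicIndependent E μ) (i0 : κ) (V : ValuationSubring C)
    (hV : ∀ a b : MvPolynomial κ E, b ≠ 0 →
      (MvPolynomial.aeval μ a / MvPolynomial.aeval μ b ∈ V ↔ a.totalDegree ≤ b.totalDegree))
    {n k s : ℕ} (h0 : x ≠ 0) (hx : IsIntegral (KF E μ) x)
    (hn : (minpoly (KF E μ) x).natDegree ≤ n) (h1 : VA E μ x)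
    (h2 : ∀ y, IsConjRoot (KF E μ) x y → V.valuation y ≤ V.valuation (μ i0) ^ k)
    (h3 : V.valuation x * V.valuation (μ i0) ^ s ≤ V.valuation (μ i0) ^ k) : s ≤ k * n := by
  classical
  set p := minpoly (KF E μ) x with hp
  have hm : p.Monic := minpoly.monic hx
  set P := p.map (algebraMap (KF E μ) C) with hP
  have hPm : P.Monic := hm.map _
  have hθ : 1 < V.valuation (μ i0) := by
    rw [← not_le, V.valuation_le_one_iff]
    have := hV (MvPolynomial.X i0) 1 one_ne_zero
    simpa using this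
  obtain ⟨a, ha⟩ := VA_KF hμ (p.coeff 0).2 (coeff_VA hx h1 0)
  have hN0 : ((p.coeff 0 : KF E μ) : C) ≠ 0 := fun e =>
    minpoly.coeff_zero_ne_zero hx h0 (Subtype.ext e)
  have ha0 : a ≠ 0 := by
    rintro rfl
    exact hN0 (by simpa using ha)
  have hN : 1 ≤ V.valuation (P.coeff 0) := by
    have h4 := (hV 1 a ha0).2 (by simp)
    rw [← V.valuation_le_one_iff, map_one, one_div, map_inv₀, ← ha] at h4
    have h5 : P.coeff 0 = ((p.coeff 0 : KF E μ) : C) := by rw [hP, coeff_map]; rfl
    rw [h5]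
    exact (inv_le_one₀ ((Valuation.pos_iff _).2 hN0)).1 h4
  have hxr : x ∈ P.roots := (mem_roots hPm.ne_zero).2 (by
    rw [IsRoot, hP, eval_map, ← aeval_def]; exact minpoly.aeval _ _)
  obtain ⟨t, ht⟩ := Multiset.exists_cons_of_mem hxr
  have hcard : t.card + 1 ≤ n := by
    have := card_roots' P
    rw [ht, Multiset.card_cons, hP, hm.natDegree_map] at this
    exact this.trans hn
  have hbd : ∀ u : Multiset C, (∀ y ∈ u, V.valuation y ≤ V.valuation (μ i0) ^ k) →
      V.valuation u.prod ≤ V.valuation (μ i0) ^ (k * u.card) := by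
    intro u
    induction u using Multiset.induction_on with
    | empty => simp
    | cons y u ih =>
      intro hu
      rw [Multiset.prod_cons, Multiset.card_cons, map_mul, mul_add, mul_one, add_comm, pow_add]
      exact mul_le_mul' (hu y (Multiset.mem_cons_self _ _))
        (ih fun z hz => hu z (Multiset.mem_cons_of_mem hz))
  have ht' := hbd t fun y hy => h2 y (isConjRoot_of_aeval_eq_zero hx (by
    have : y ∈ P.roots := by rw [ht]; exact Multiset.mem_cons_of_mem hy
    rw [aeval_def, ← eval_map]; exact (mem_roots hPm.ne_zero).1 this))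
  rw [(IsAlgClosed.splits P).coeff_zero_eq_prod_roots_of_monic hPm, ht, Multiset.prod_cons,
    map_mul, map_pow, Valuation.map_neg, map_one, one_pow, one_mul, map_mul] at hN
  have hfin : V.valuation (μ i0) ^ s ≤ V.valuation (μ i0) ^ (k * (t.card + 1)) := by
    calc V.valuation (μ i0) ^ s = 1 * V.valuation (μ i0) ^ s := (one_mul _).symm
      _ ≤ V.valuation x * V.valuation t.prod * V.valuation (μ i0) ^ s := mul_le_mul' hN le_rfl
      _ = V.valuation x * V.valuation (μ i0) ^ s * V.valuation t.prod := mul_right_comm _ _ _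
      _ ≤ V.valuation (μ i0) ^ k * V.valuation (μ i0) ^ (k * t.card) := mul_le_mul' h3 ht'
      _ = _ := by rw [← pow_add]; congr 1; ring
  exact ((pow_le_pow_iff_right₀ hθ).1 hfin).trans (Nat.mul_le_mul_left _ hcard)

end Pool.Agent.MP_ee2255_nt.T
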