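import Pool.Agent.MP_ee2255_nt.TDefs
import Pool.Agent.MP_655169_nt.Norm

/-! Norm estimates over a field of constants. -/

set_option linter.unusedSectionVars false

namespace Pool.Agent.MP_ee2255_nt.T

open Polynomial Filter Topology Pool.Agent.MP_655169_nt

variable {E C κ : Type*} [Field E] [NormedField C] [IsUltrametricDist C] [Algebra E C]
  (hE : ∀ e : E, ‖algebraMap E C e‖ ≤ 1)
include hE

theorem normE_eq {e : E} (he : e ≠ 0) : ‖algebraMap E C e‖ = 1 := by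
  have h1 := hE e
  have h2 := hE e⁻¹
  have h3 : ‖algebraMap E C e‖ * ‖algebraMap E C e⁻¹‖ = 1 := by
    rw [← norm_mul, ← map_mul, mul_inv_cancel₀ he, map_one, norm_one]
  nlinarith [norm_nonneg (algebraMap E C e), norm_nonneg (algebraMap E C e⁻¹)]
theorem normE_aeval (z : κ → C) {R : ℝ} (hR : 1 ≤ R) (hz : ∀ k, ‖z k‖ ≤ R) (b : MvPolynomial κ E)
    {d : ℕ} (hd : b.totalDegree ≤ d) : ‖MvPolynomial.aeval z b‖ ≤ R ^ d := by
  have := norm_eval₂_le (algebraMap E C) b z 1 R zero_le_one (fun e => hE _) hR hz d hd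
  rwa [one_mul] at this
theorem normE_lip (z z' : κ → C) {R ε : ℝ} (hR : 1 ≤ R) (hε : 0 ≤ ε) (hz : ∀ k, ‖z k‖ ≤ R)
    (hz' : ∀ k, ‖z' k‖ ≤ R) (h : ∀ k, ‖z k - z' k‖ ≤ ε) (b : MvPolynomial κ E) {d : ℕ}
    (hd : b.totalDegree ≤ d) :
    ‖MvPolynomial.aeval z b - MvPolynomial.aeval z' b‖ ≤ R ^ d * ε := by
  have := lip_eval₂ (algebraMap E C) b z z' 1 R ε zero_le_one (fun e => hE _) hR hε hz hz'
    h d hd
  rwa [one_mul] at this
theorem normE_poly {θ : C} (hθ : 1 < ‖θ‖) {a : E[X]} (ha : a ≠ 0) :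
    ‖aeval θ a‖ = ‖θ‖ ^ a.natDegree := by
  have h0 : 0 < ‖θ‖ ^ a.natDegree := by positivity
  have h1 := norm_low (fun j => algebraMap E C (a.coeff j)) 1 zero_le_one
    (fun j => hE _) θ hθ.le a.natDegree
  have h2 : ‖algebraMap E C (a.coeff a.natDegree) * θ ^ a.natDegree‖ = ‖θ‖ ^ a.natDegree := by
    rw [norm_mul, norm_pow, normE_eq hE (e := a.coeff a.natDegree) (leadingCoeff_ne_zero.2 ha),
      one_mul]
  have h3 : ‖∑ j ∈ Finset.range a.natDegree, algebraMap E C (a.coeff j) * θ ^ j‖ <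
      ‖θ‖ ^ a.natDegree := by
    by_contra h
    have h4 := mul_le_mul_of_nonneg_right (not_lt.1 h) (norm_nonneg θ)
    nlinarith
  rw [aeval_eq_sum_range, Finset.sum_range_succ]
  simp only [Algebra.smul_def]
  rw [IsUltrametricDist.norm_add_eq_max_of_norm_ne_norm (by rw [h2]; exact h3.ne), h2,
    max_eq_right h3.le]
theorem normE_trans {θ : C} (hθ : 1 < ‖θ‖) : Transcendental E θ := by
  rintro ⟨a, ha, h⟩
  have h1 := normE_poly hE hθ ha
  have h0 : 0 < ‖θ‖ ^ a.natDegree := by positivity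
  rw [h, norm_zero] at h1
  linarith
theorem normE_span (S : Set C) {R : ℝ} (hR : 0 ≤ R) (hS : ∀ s ∈ S, ‖s‖ ≤ R) {u : C}
    (hu : u ∈ Submodule.span E S) : ‖u‖ ≤ R := by
  induction hu using Submodule.span_induction with
  | mem x hx => exact hS x hx
  | zero => simpa using hR
  | add x y _ _ hx hy => exact (IsUltrametricDist.norm_add_le_max _ _).trans (max_le hx hy)
  | smul a x _ hx =>
    rw [Algebra.smul_def, norm_mul]
    exact (mul_le_of_le_one_left (norm_nonneg _) (hE a)).trans hx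
theorem mon_big {μ : κ → C} {R : ℝ} (hR : 1 ≤ R) (hμ : ∀ k, ‖μ k‖ ≤ R) {d₁ d₂ : ℕ} {x : C}
    (h : Mon E μ d₁ d₂ x) : ‖x‖ ≤ R ^ d₂ := by
  obtain ⟨Φ, hm, -, hd, hΦ⟩ := h
  refine root_le (Φ.map (MvPolynomial.aeval μ : MvPolynomial κ E →ₐ[E] C).toRingHom) _
    (one_le_pow₀ hR) (fun j => ?_) ?_ x ?_
  · rw [coeff_map]
    exact normE_aeval hE μ hR hμ _ (hd j)
  · rw [(hm.map _).leadingCoeff, norm_one]
  · rw [eval_map]
    exact hΦ
theorem mon_low {μ : κ → C} {R : ℝ} (hR : 1 ≤ R) (hμ : ∀ k, ‖μ k‖ ≤ R) {d₁ d₂ : ℕ} {x : C}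
    (h : Mon E μ d₁ d₂ x) (h0 : x ≠ 0) : ∃ b : MvPolynomial κ E, b ≠ 0 ∧ b.totalDegree ≤ d₂ ∧
      ‖MvPolynomial.aeval μ b‖ ≤ ‖x‖ * R ^ (d₂ * (d₁ + 1)) := by
  classical
  have hx := mon_big hE hR hμ h
  obtain ⟨Φ, hm, hn, hd, hΦ⟩ := h
  have hl : Φ.coeff Φ.natDegree ≠ 0 := leadingCoeff_ne_zero.2 hm.ne_zero
  have hex : ∃ j, Φ.coeff j ≠ 0 := ⟨Φ.natDegree, hl⟩
  have hj := Nat.find_spec hex
  have hjn : Nat.find hex ≤ Φ.natDegree := Nat.find_min' hex hl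
  set j := Nat.find hex with hjdef
  refine ⟨Φ.coeff j, hj, hd j, ?_⟩
  have hη : 0 < ‖x‖ := norm_pos_iff.2 h0
  have hR1 : 1 ≤ R ^ d₂ := one_le_pow₀ hR
  rw [eval₂_eq_sum_range, ← Finset.add_sum_erase _ _ (Finset.mem_range.2 (Nat.lt_succ_of_le hjn)),
    add_eq_zero_iff_eq_neg] at hΦ
  have h2 : ‖MvPolynomial.aeval μ (Φ.coeff j) * x ^ j‖ ≤
      ‖x‖ * R ^ (d₂ * (d₁ + 1)) * ‖x‖ ^ j := by
    refine (congrArg norm hΦ).trans_le ?_
    rw [norm_neg]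
    refine IsUltrametricDist.norm_sum_le_of_forall_le_of_nonneg (by positivity) fun i hi => ?_
    change ‖MvPolynomial.aeval μ (Φ.coeff i) * x ^ i‖ ≤ _
    have hi2 := Finset.mem_range.1 (Finset.mem_erase.1 hi).2
    rcases lt_or_gt_of_ne (Finset.mem_erase.1 hi).1 with h3 | h3
    · rw [not_not.1 (Nat.find_min hex h3), map_zero, zero_mul, norm_zero]
      positivity
    · obtain ⟨k, rfl⟩ := Nat.exists_eq_add_of_lt h3
      have h4 : ‖x‖ ^ k ≤ (R ^ d₂) ^ d₁ :=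
        (pow_le_pow_left₀ hη.le hx k).trans (pow_le_pow_right₀ hR1 (by omega))
      have h5 := normE_aeval hE μ hR hμ _ (hd (j + k + 1))
      calc ‖MvPolynomial.aeval μ (Φ.coeff (j + k + 1)) * x ^ (j + k + 1)‖
          = ‖x‖ * (‖x‖ ^ k * ‖MvPolynomial.aeval μ (Φ.coeff (j + k + 1))‖) * ‖x‖ ^ j := by
            rw [norm_mul, norm_pow]; ring
        _ ≤ ‖x‖ * ((R ^ d₂) ^ d₁ * R ^ d₂) * ‖x‖ ^ j := by gcongr
        _ = _ := by rw [← pow_succ, ← pow_mul]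
  rw [norm_mul, norm_pow] at h2
  exact le_of_mul_le_mul_right h2 (pow_pos hη j)

end Pool.Agent.MP_ee2255_nt.T
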