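import Pool.Agent.MP_ee2255_nt.TCarl

/-! The exponential as a power series. -/

namespace Pool.Agent.MP_ee2255_nt.T

open Polynomial Filter Topology Pool.Agent.MP_655169_nt

universe u

theorem ys_inv {R : Type*} [CommRing R] (w : R) (hw : ∀ m, 0 < m → IsUnit (1 - w ^ m)) (q : ℕ)
    (hq : 1 < q) (k : ℕ) : ∃ b : R, ∀ (L : Type u) [Field L] (ψ : R →+* L) (θ : L),
      θ * ψ w = 1 → ψ b * carlitzD q θ k = 1 := by
  have h : ∀ j, ∃ c : R, j < k → ∀ (L : Type u) [Field L] (ψ : R →+* L) (θ : L),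
      θ * ψ w = 1 → ψ c * (θ ^ q ^ k - θ ^ q ^ j) = 1 := by
    intro j
    by_cases hj : j < k
    · obtain ⟨m, hm⟩ := Nat.exists_eq_add_of_lt (Nat.pow_lt_pow_right hq hj)
      obtain ⟨v, hv⟩ := (hw (m + 1) (Nat.succ_pos m)).exists_left_inv
      refine ⟨v * w ^ q ^ k, fun _ L _ ψ θ hθ => ?_⟩
      have h1 := congrArg ψ hv
      simp only [map_mul, map_sub, map_one, map_pow] at h1 ⊢
      have h2 : ψ w ^ q ^ k * θ ^ q ^ k = 1 := by rw [← mul_pow, mul_comm, hθ, one_pow]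
      have h3 : ψ w ^ q ^ j * θ ^ q ^ j = 1 := by rw [← mul_pow, mul_comm, hθ, one_pow]
      have h4 : ψ w ^ q ^ k = ψ w ^ q ^ j * ψ w ^ (m + 1) := by rw [hm, add_assoc, pow_add]
      rw [mul_assoc, mul_sub, h2, h4, mul_right_comm, h3, one_mul, h1]
    · exact ⟨0, fun h => absurd h hj⟩
  choose c hc using h
  refine ⟨∏ j ∈ Finset.range k, c j, fun L _ ψ θ hθ => ?_⟩
  rw [map_prod, carlitzD, ← Finset.prod_mul_distrib]
  exact Finset.prod_eq_one fun j hj => hc j (Finset.mem_range.1 hj) L ψ θ hθ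

theorem ys_series {R : Type*} [CommRing R] {n : ℕ} (i : Fin n) (q : ℕ) (hq : 1 < q) (b : ℕ → R) :
    ∃ Y : MvPowerSeries (Fin n) R, ∀ K, MvPowerSeries.X i ^ K ∣
      Y - ∑ k ∈ Finset.range K, MvPowerSeries.C (b k) * MvPowerSeries.X i ^ q ^ k := by
  classical
  refine ⟨fun e => ∑ k ∈ Finset.range (e i), if e = Finsupp.single i (q ^ k) then b k else 0,
    fun K => ?_⟩
  rw [MvPowerSeries.X_pow_dvd_iff]
  intro e he
  rw [map_sub, map_sum, sub_eq_zero]
  simp only [MvPowerSeries.coeff_C_mul, MvPowerSeries.coeff_X_pow, mul_ite, mul_one, mul_zero]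
  refine Finset.sum_subset (Finset.range_subset_range.2 he.le) fun k _ hk => if_neg fun h => hk ?_
  rw [h, Finsupp.single_eq_same, Finset.mem_range]
  exact Nat.lt_pow_self hq

theorem exists_Y (F : Type*) [Field F] [Fintype F] {n : ℕ} (i : Fin n) :
    ∃ Y : MvPowerSeries (Fin n) (PowerSeries F), ∀ (L : Type u) [NormedField L]
      [IsUltrametricDist L] (φ : MvPowerSeries (Fin n) (PowerSeries F) →+* L),
      (∀ G, ‖φ G‖ ≤ 1) → φ (MvPowerSeries.C PowerSeries.X) ≠ 0 → ‖φ (MvPowerSeries.X i)‖ < 1 →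
      ‖φ (MvPowerSeries.C PowerSeries.X)‖ < 1 →
      HS F (-(φ (MvPowerSeries.C PowerSeries.X) ^ (qq F - 1))⁻¹) (φ (MvPowerSeries.X i)) (φ Y) := by
  have hq : 1 < qq F := Fintype.one_lt_card
  have hw : ∀ m, 0 < m → IsUnit (1 - (-(PowerSeries.X : PowerSeries F) ^ (qq F - 1)) ^ m) := by
    intro m hm
    rw [PowerSeries.isUnit_iff_constantCoeff]
    have : qq F - 1 ≠ 0 := by omega
    simp [this, hm.ne']
  choose b hb using ys_inv.{u} _ hw (qq F) hq
  obtain ⟨Y, hY⟩ := ys_series i (qq F) hq b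
  refine ⟨Y, fun L _ _ φ h1 h0 hx _ => ?_⟩
  set x := φ (MvPowerSeries.X i) with hxe
  set θ := -(φ (MvPowerSeries.C PowerSeries.X) ^ (qq F - 1))⁻¹ with hθ
  have hb' : ∀ k, x ^ qq F ^ k / carlitzD (qq F) θ k =
      φ (MvPowerSeries.C (b k)) * x ^ qq F ^ k := by
    intro k
    have := hb k L (φ.comp MvPowerSeries.C) θ (by
      simp only [RingHom.comp_apply, map_neg, map_pow, hθ, neg_mul_neg]
      exact inv_mul_cancel₀ (pow_ne_zero _ h0))
    rw [RingHom.comp_apply] at this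
    rw [div_eq_mul_inv, ← eq_inv_of_mul_eq_one_left this, mul_comm]
  unfold HS
  simp only [hb']
  have hx0 := norm_nonneg x
  rw [hasSum_iff_tendsto_nat_of_summable_norm]
  · rw [tendsto_iff_norm_sub_tendsto_zero]
    refine squeeze_zero (fun _ => norm_nonneg _) (fun K => ?_)
      (tendsto_pow_atTop_nhds_zero_of_lt_one hx0 hx)
    obtain ⟨G, hG⟩ := hY K
    have h2 := congrArg φ hG
    simp only [map_sub, map_sum, map_mul, map_pow] at h2
    rw [norm_sub_rev, h2, norm_mul, norm_pow]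
    exact mul_le_of_le_one_right (pow_nonneg hx0 _) (h1 G)
  · refine Summable.of_nonneg_of_le (fun _ => norm_nonneg _) (fun k => ?_)
      (summable_geometric_of_lt_one hx0 hx)
    rw [norm_mul, norm_pow]
    exact (mul_le_of_le_one_left (pow_nonneg hx0 _) (h1 _)).trans
      (pow_le_pow_of_le_one hx0 hx.le (Nat.lt_pow_self hq).le)

end Pool.Agent.MP_ee2255_nt.T
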