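import Pool.Agent.MP_ee2255_nt.TCor2
import Pool.Agent.MP_ee2255_nt.TDvr2
import Pool.Agent.MP_ee2255_nt.TNrmC
import Pool.Agent.MP_ee2255_nt.TEv
import Pool.Agent.MP_ee2255_nt.TYs

/-! Reduction to a discrete valuation. -/

namespace Pool.Agent.MP_ee2255_nt.T

open Polynomial Filter Topology Pool.Agent.MP_655169_nt

theorem xred_elim {F K E ι : Type*} [Field F] [Field K] [Field E] [Algebra F K] [Algebra F E]
    (j : K →ₐ[F] E) (θ : K) (x y : ι → K) :
    (j ∘ fun o : Option (ι ⊕ ι) => o.elim θ (Sum.elim x y)) =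
      fun o : Option (ι ⊕ ι) => o.elim (j θ) (Sum.elim (fun i => j (x i)) fun i => j (y i)) := by
  funext o
  rcases o with _ | i | i <;> rfl

theorem xred_norm {F L : Type*} [Fintype F] [Field F] [NormedField L] {s : L} (h0 : s ≠ 0)
    (hs : ‖s‖ < 1) : 1 < ‖-(s ^ (qq F - 1))⁻¹‖ := by
  have hq : 1 < qq F := Fintype.one_lt_card
  rw [norm_neg, norm_inv, norm_pow]
  exact (one_lt_inv₀ (pow_pos (norm_pos_iff.2 h0) _)).2
    (pow_lt_one₀ (norm_nonneg _) hs (by omega))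

/-- Transfer between two embeddings of a field. -/
theorem xred_two {F K E L : Type*} [Field F] [Fintype F] [Field K] [Field E] [NormedField L]
    [IsUltrametricDist L] [CompleteSpace L] [Algebra F K] [Algebra F E] [Algebra F L]
    (j1 : K →ₐ[F] E) (j2 : K →ₐ[F] L) {η : ℝ} (hη : 0 < η) (hg : Gap (⊤ : Subfield L) η) {s : K}
    (h0 : s ≠ 0) (hs : ‖j2 s‖ < 1) {n : ℕ} (x y : Fin n → K)
    (hy : ∀ i, HS F (-(j2 s ^ (qq F - 1))⁻¹) (j2 (x i)) (j2 (y i)))
    (hx : ∀ c : Fin n → F[X], lin (-(j1 s ^ (qq F - 1))⁻¹) c (fun i => j1 (x i)) = 0 → c = 0) :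
    Rk F (fun o : Option (Fin n ⊕ Fin n) => o.elim (-(j1 s ^ (qq F - 1))⁻¹)
      (Sum.elim (fun i => j1 (x i)) fun i => j1 (y i))) (n + 1) := by
  have e1 : j1 (-(s ^ (qq F - 1))⁻¹) = -(j1 s ^ (qq F - 1))⁻¹ := by simp
  have e2 : j2 (-(s ^ (qq F - 1))⁻¹) = -(j2 s ^ (qq F - 1))⁻¹ := by simp
  have h2 := disc (F := F) (ζ := (j2 s)⁻¹) (xred_norm (F := F) ((map_ne_zero j2).2 h0) hs) hη hg
    (by rw [neg_neg, inv_pow]) (fun i => j2 (x i)) (fun i => j2 (y i)) hy fun c hc => by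
      rw [← e2, ← lin_map, map_eq_zero] at hc
      exact hx c (by rw [← e1, ← lin_map, hc, map_zero])
  rw [← e2, ← xred_elim, Rk.map_iff] at h2
  rw [← e1, ← xred_elim, Rk.map_iff]
  exact h2

theorem red_core {F E : Type*} [Field F] [Fintype F] [NormedField E] [IsUltrametricDist E]
    [CompleteSpace E] [Algebra F E] {s : E} (h0 : s ≠ 0) (hs : ‖s‖ < 1) {n : ℕ} (x y : Fin n → E)
    (h1 : ∀ j, ‖x j‖ < 1) (hy : ∀ j, HS F (-(s ^ (qq F - 1))⁻¹) (x j) (y j))
    (hx : ∀ c : Fin n → F[X], lin (-(s ^ (qq F - 1))⁻¹) c x = 0 → c = 0) :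
    Rk F (fun o : Option (Fin n ⊕ Fin n) => o.elim (-(s ^ (qq F - 1))⁻¹) (Sum.elim x y))
      (n + 1) := by
  obtain ⟨ev, e1, e2, e3, e4⟩ := exists_ev (F := F) s x hs h1
  have : IsNoetherianRing ev.range :=
    isNoetherianRing_of_surjective _ _ ev.rangeRestrict ev.rangeRestrict_surjective
  have : IsLocalRing ev.range :=
    IsLocalRing.of_surjective' ev.rangeRestrict ev.rangeRestrict_surjective
  let ψ : MvPowerSeries (Fin n) (PowerSeries F) →+* FractionRing ev.range :=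
    (algebraMap ev.range _).comp ev.rangeRestrict
  let ι1 : FractionRing ev.range →+* E :=
    IsFractionRing.lift (g := ev.range.subtype) Subtype.val_injective
  have hι1 : ∀ G, ι1 (ψ G) = ev G := fun G => IsFractionRing.lift_algebraMap _ _
  obtain ⟨v, hv1, hv2⟩ := exists_disc (R := ev.range) (K := FractionRing ev.range)
  obtain ⟨L, i1, i2, i3, ι2, η, hη, hg, hι2⟩ := exists_compl v
  have le1 : ∀ G, ‖ι2 (ψ G)‖ ≤ 1 := fun G => (hι2 _).1 (hv1 _)
  have lt1 : ∀ G, ‖ev G‖ < 1 → ‖ι2 (ψ G)‖ < 1 := by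
    intro G hG
    refine (hι2 _).2 (hv2 _ ((IsLocalRing.mem_maximalIdeal _).2 fun hu => ?_))
    obtain ⟨r, hr⟩ := hu.exists_left_inv
    obtain ⟨G', rfl⟩ := ev.rangeRestrict_surjective r
    have h2 : ev G' * ev G = 1 := congrArg Subtype.val hr
    have h3 := congrArg norm h2
    rw [norm_mul, norm_one] at h3
    nlinarith [e4 G', norm_nonneg (ev G), norm_nonneg (ev G')]
  let _ : Algebra F (FractionRing ev.range) :=
    (ψ.comp (MvPowerSeries.C.comp PowerSeries.C)).toAlgebra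
  let _ : Algebra F L := (ι2.comp (algebraMap F (FractionRing ev.range))).toAlgebra
  let j1 : FractionRing ev.range →ₐ[F] E :=
    { ι1 with commutes' := fun a => (hι1 _).trans (e1 a) }
  let j2 : FractionRing ev.range →ₐ[F] L := { ι2 with commutes' := fun _ => rfl }
  choose Y hY using fun i : Fin n => exists_Y F i
  have a1 : j1 (ψ (MvPowerSeries.C PowerSeries.X)) = s := (hι1 _).trans e2
  have a2 : (fun i => j1 (ψ (MvPowerSeries.X i))) = x := funext fun i => (hι1 _).trans (e3 i)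
  have a3 : (fun i => j1 (ψ (Y i))) = y := funext fun i => (hι1 _).trans (by
    have := hY i E ev e4 (by rwa [e2]) (by rw [e3]; exact h1 i) (by rwa [e2])
    rw [e2, e3] at this
    exact this.unique (hy i))
  have s0 : ψ (MvPowerSeries.C PowerSeries.X) ≠ 0 := fun h => h0 (by rw [← a1, h, map_zero])
  have s1 : ‖ι2 (ψ (MvPowerSeries.C PowerSeries.X))‖ < 1 := lt1 _ (by rwa [e2])
  have := xred_two j1 j2 hη hg s0 s1 (fun i => ψ (MvPowerSeries.X i)) (fun i => ψ (Y i))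
    (fun i => hY i L (ι2.comp ψ) le1 ((map_ne_zero ι2).2 s0)
      (lt1 _ (by rw [e3]; exact h1 i)) s1) (by rw [a1, a2]; exact hx)
  rwa [a1, a2, a3] at this

open scoped IntermediateField in
theorem xred_lin {F E : Type*} [Field F] [Fintype F] [Field E] [Algebra F E] {θ : E}
    (hθ : Transcendental F θ) {n : ℕ} {x : Fin n → E} (hx : LinearIndependent F⟮θ⟯ x)
    (c : Fin n → F[X]) (hc : lin θ c x = 0) : c = 0 := by
  have hm : ∀ j, aeval θ (c j) ∈ F⟮θ⟯ := fun j =>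
    IntermediateField.algebra_adjoin_le_adjoin F _ (aeval_mem_adjoin_singleton F θ)
  funext j
  have := Fintype.linearIndependent_iff.1 hx (fun j => ⟨_, hm j⟩) hc j
  exact transcendental_iff.1 hθ _ (congrArg Subtype.val this)

/-- The rank bound when a root of `-θ` is available in an isometric extension. -/
theorem xred_rk {F E L : Type*} [Field F] [Fintype F] [NormedField E] [IsUltrametricDist E]
    [CompleteSpace E] [Algebra F E] [NormedField L] [IsUltrametricDist L] [CompleteSpace L]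
    [Algebra F L] (ψ : E →ₐ[F] L) (hψ : ∀ x, ‖ψ x‖ = ‖x‖) {θ : E} (hθ : 1 < ‖θ‖) {ζ : L}
    (hζ : ζ ^ (qq F - 1) = ψ (-θ)) {n : ℕ} (x : Fin n → E)
    (hx : ∀ c : Fin n → F[X], lin θ c x = 0 → c = 0) :
    Rk F (fun o : Option (Fin n ⊕ Fin n) => o.elim θ
      (Sum.elim x fun i => carlitzExp (qq F) θ (x i))) (n + 1) := by
  have hθ' : 1 < ‖ψ θ‖ := by rwa [hψ]
  have t0 : ψ θ ≠ 0 := norm_pos_iff.1 (one_pos.trans hθ')
  have e : -(ζ⁻¹ ^ (qq F - 1))⁻¹ = ψ θ := by rw [inv_pow, inv_inv, hζ, map_neg, neg_neg]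
  have z1 : 1 < ‖ζ‖ := by
    by_contra h
    have := pow_le_one₀ (n := qq F - 1) (norm_nonneg ζ) (not_lt.1 h)
    rw [← norm_pow, hζ, hψ, norm_neg] at this
    linarith
  have z0 : ζ ≠ 0 := norm_pos_iff.1 (one_pos.trans z1)
  obtain ⟨N, hN⟩ := (Filter.eventually_all.2 fun j =>
    (tendsto_pow_atTop_atTop_of_one_lt hθ).eventually_gt_atTop ‖x j‖).exists
  have tN : ψ θ ^ N ≠ 0 := pow_ne_zero _ t0
  have h := red_core (F := F) (inv_ne_zero z0) (by rw [norm_inv]; exact inv_lt_one_of_one_lt₀ z1)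
    (fun j => ψ (x j) / ψ θ ^ N) (fun j => carlitzExp (qq F) (ψ θ) (ψ (x j) / ψ θ ^ N))
    (fun j => by
      rw [norm_div, norm_pow, hψ, hψ]
      exact (div_lt_one (by positivity)).2 (hN j))
    (fun j => by rw [e]; exact HS.exp hθ' _)
    (fun c hc => by
      refine hx c ((map_eq_zero ψ).1 ?_)
      rw [e] at hc
      rw [lin_map, ← mul_zero (ψ θ ^ N), ← hc, lin, lin, Finset.mul_sum]
      exact Finset.sum_congr rfl fun j _ => by field_simp)
  rw [e] at h
  rw [← Rk.map_iff ψ, xred_elim]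
  refine h.exch ?_
  set K := IntermediateField.adjoin F (Set.range fun o : Option (Fin n ⊕ Fin n) => o.elim (ψ θ)
    (Sum.elim (fun i => ψ (x i)) fun i => ψ (carlitzExp (qq F) θ (x i))))
  have m0 : ψ θ ∈ K := IntermediateField.subset_adjoin _ _ ⟨none, rfl⟩
  have m1 : ∀ i, ψ (x i) ∈ K := fun i =>
    IntermediateField.subset_adjoin _ _ ⟨some (Sum.inl i), rfl⟩
  have m2 : ∀ i, ψ (carlitzExp (qq F) θ (x i)) ∈ K := fun i =>
    IntermediateField.subset_adjoin _ _ ⟨some (Sum.inr i), rfl⟩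
  rintro (_ | i | i)
  · exact isAlgebraic_algebraMap (⟨_, m0⟩ : K)
  · exact isAlgebraic_algebraMap (⟨_, div_mem (m1 i) (pow_mem m0 N)⟩ : K)
  · have h1 := (HS.exp (F := F) hθ' (ψ (x i) / ψ θ ^ N)).poly hθ' (X ^ N)
    rw [aeval_X_pow, mul_div_cancel₀ _ tN, carl_X_pow] at h1
    have h2 := h1.unique ((HS.exp (F := F) hθ (x i)).map (ψ : E →+* L) hψ)
    have h3 : IsIntegral K (carlitzExp (qq F) (ψ θ) (ψ (x i) / ψ θ ^ N)) :=
      integral_of_cth (ψ θ) K.toSubalgebra m0 N _ (by rw [h2]; exact m2 i)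
    exact h3.isAlgebraic

open scoped IntermediateField in
theorem main {F E : Type*} [Field F] [Fintype F] [NormedField E] [IsUltrametricDist E]
    [CompleteSpace E] [Algebra F E] (θ : E) (hθ : 1 < ‖θ‖) (n : ℕ) (x : Fin n → E)
    (hx : LinearIndependent F⟮θ⟯ x) :
    (n : Cardinal) ≤ Algebra.trdeg F⟮θ⟯ (IntermediateField.adjoin F⟮θ⟯
      (Set.range x ∪ Set.range fun i => carlitzExp (Fintype.card F) θ (x i))) := by
  have hq : 1 < qq F := Fintype.one_lt_card
  have ht : Transcendental F θ := normE_trans (fun e => norm_F_le e) hθ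
  obtain ⟨L, i1, i2, i3, φ, ζ, hφ, hζ⟩ := exists_root_ext θ hθ (-θ) (n := qq F - 1) (by omega)
  let _ : Algebra F L := (φ.comp (algebraMap F E)).toAlgebra
  have h := xred_rk (F := F) { φ with commutes' := fun _ => rfl } hφ hθ hζ x (xred_lin ht hx)
  rw [← Set.Sum.elim_range]
  exact rk_trdeg θ ht h

end Pool.Agent.MP_ee2255_nt.T
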