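import Pool.Agent.MP_ee2255_nt.TDefs

/-! Integrality through valuation rings. -/

namespace Pool.Agent.MP_ee2255_nt.T

open Polynomial Filter Topology Pool.Agent.MP_655169_nt

variable {E : Type*} [Field E] {C : Type*} [Field C] [Algebra E C] {κ : Type*}
  {μ : κ → C} {x y : C}

theorem VA.aeval (a : MvPolynomial κ E) : VA E μ (MvPolynomial.aeval μ a) := fun _ hV => hV a
theorem VA.add (hx : VA E μ x) (hy : VA E μ y) : VA E μ (x + y) :=
  fun V hV => add_mem (hx V hV) (hy V hV)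
theorem VA.mul (hx : VA E μ x) (hy : VA E μ y) : VA E μ (x * y) :=
  fun V hV => mul_mem (hx V hV) (hy V hV)
theorem VA.pow (hx : VA E μ x) (n : ℕ) : VA E μ (x ^ n) := fun V hV => pow_mem (hx V hV) n
theorem VA.prod {α : Type*} (s : Finset α) {x : α → C} (h : ∀ a ∈ s, VA E μ (x a)) :
    VA E μ (∏ a ∈ s, x a) := fun V hV => prod_mem fun a ha => h a ha V hV
theorem VI.add (hx : VI E μ x) (hy : VI E μ y) : VI E μ (x + y) :=
  fun V hV => add_mem (hx V hV) (hy V hV)
theorem VI.mul (hx : VI E μ x) (hy : VI E μ y) : VI E μ (x * y) :=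
  fun V hV => mul_mem (hx V hV) (hy V hV)
theorem VI.pow (hx : VI E μ x) (n : ℕ) : VI E μ (x ^ n) := fun V hV => pow_mem (hx V hV) n
theorem VI.div (a b : MvPolynomial κ E) (hb : b ≠ 0) (h : a.totalDegree ≤ b.totalDegree) :
    VI E μ (MvPolynomial.aeval μ a / MvPolynomial.aeval μ b) := fun _ hV => hV a b hb h
theorem VI.const (e : E) : VI E μ (algebraMap E C e) := by
  simpa using VI.div (μ := μ) (MvPolynomial.C e) 1 one_ne_zero (by simp)

theorem xval_root (V : ValuationSubring C) (Φ : C[X]) (hx : Φ.eval x = 0) (t : C)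
    (h : ∀ j, t * Φ.coeff j ∈ V) : t * Φ.leadingCoeff * x ∈ V := by
  rcases V.mem_or_inv_mem x with hV | hV
  · exact mul_mem (h _) hV
  rcases eq_or_ne x 0 with rfl | h0
  · rw [mul_zero]
    exact zero_mem V
  rw [eval_eq_sum_range, Finset.sum_range_succ, add_comm, add_eq_zero_iff_eq_neg] at hx
  have key : t * Φ.leadingCoeff * x = -∑ j ∈ Finset.range Φ.natDegree,
      t * Φ.coeff j * x⁻¹ ^ (Φ.natDegree - 1 - j) := by
    refine mul_right_cancel₀ (mul_ne_zero (pow_ne_zero Φ.natDegree h0) (inv_ne_zero h0)) ?_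
    have e : t * Φ.leadingCoeff * x * (x ^ Φ.natDegree * x⁻¹) =
        t * (Φ.coeff Φ.natDegree * x ^ Φ.natDegree) := by
      rw [leadingCoeff]
      field_simp
    rw [e, hx, neg_mul, mul_neg, Finset.mul_sum, Finset.sum_mul]
    refine congrArg _ (Finset.sum_congr rfl fun j hj => ?_)
    obtain ⟨k, hk⟩ := Nat.exists_eq_add_of_lt (Finset.mem_range.1 hj)
    rw [hk, show j + k + 1 - 1 - j = k by omega, inv_pow]
    field_simp
    ring
  rw [key]
  exact neg_mem (sum_mem fun j _ => mul_mem (h j) (pow_mem hV _))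

theorem xval_monic {R : Type*} [CommRing R] (g : R →+* C) (V : ValuationSubring C)
    (hg : ∀ r, g r ∈ V) {Φ : R[X]} (hΦ : Φ.Monic) (hx : Φ.eval₂ g x = 0) : x ∈ V := by
  have := xval_root V (Φ.map g) (by rwa [eval_map]) 1 fun j => by
    rw [one_mul, coeff_map]
    exact hg _
  rwa [(hΦ.map g).leadingCoeff, one_mul, one_mul] at this

theorem VA_iff : VA E μ x ↔ IsIntegral (Algebra.adjoin E (Set.range μ)) x := by
  constructor
  · intro h
    have h1 : x ∈ (integralClosure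
        (Subring.closure ((Algebra.adjoin E (Set.range μ)).toSubring : Set C)) C).toSubring := by
      rw [← iInf_valuationSubring_superset, Subring.mem_iInf]
      refine fun V => h V.1 fun a => V.2 ?_
      rw [Algebra.adjoin_range_eq_range_aeval]
      exact ⟨a, rfl⟩
    rw [Subring.closure_eq] at h1
    exact h1
  · rintro ⟨Φ, hΦ, hx⟩ V hV
    refine xval_monic _ V (fun r => ?_) hΦ hx
    obtain ⟨r, hr⟩ := r
    rw [Algebra.adjoin_range_eq_range_aeval] at hr
    obtain ⟨a, rfl⟩ := hr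
    exact hV a

theorem VA_KF [Finite κ] (hμ : AlgebraicIndependent E μ) (hx : x ∈ KF E μ) (h : VA E μ x) :
    ∃ a : MvPolynomial κ E, x = MvPolynomial.aeval μ a := by
  obtain ⟨a, b, rfl⟩ := (IntermediateField.mem_adjoin_range_iff E μ x).1 hx
  let _ : Algebra (MvPolynomial κ E) C :=
    (MvPolynomial.aeval μ : MvPolynomial κ E →ₐ[E] C).toRingHom.toAlgebra
  have hinj : Function.Injective (Algebra.ofId (MvPolynomial κ E) C) := hμ
  let φ : FractionRing (MvPolynomial κ E) →ₐ[MvPolynomial κ E] C :=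
    IsFractionRing.liftAlgHom hinj
  have hφ : ∀ r, φ (algebraMap _ _ r) = MvPolynomial.aeval μ r := fun r => φ.commutes r
  have h1 : IsIntegral (MvPolynomial κ E) (MvPolynomial.aeval μ a / MvPolynomial.aeval μ b) :=
    IsIntegral.map_of_comp_eq (hμ.aevalEquiv.symm : _ →+* MvPolynomial κ E) (RingHom.id C)
      (RingHom.ext fun r => by
        obtain ⟨s, rfl⟩ := hμ.aevalEquiv.surjective r
        change MvPolynomial.aeval μ (hμ.aevalEquiv.symm (hμ.aevalEquiv s)) = _
        rw [AlgEquiv.symm_apply_apply]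
        rfl) (VA_iff.1 h)
  rw [← hφ, ← hφ, ← map_div₀, isIntegral_algHom_iff φ φ.toRingHom.injective] at h1
  obtain ⟨c, hc⟩ := IsIntegrallyClosed.isIntegral_iff.1 h1
  exact ⟨c, by rw [← hφ, ← hφ, ← map_div₀, ← hc, hφ]⟩

open Classical in
/-- The degree valuation. -/
noncomputable def xvalDeg : Valuation (MvPolynomial κ E) NNReal where
  toFun a := if a = 0 then 0 else 2 ^ a.totalDegree
  map_zero' := if_pos rfl
  map_one' := by simp
  map_mul' a b := by
    by_cases ha : a = 0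
    · simp [ha]
    by_cases hb : b = 0
    · simp [hb]
    rw [if_neg (mul_ne_zero ha hb), if_neg ha, if_neg hb,
      MvPolynomial.totalDegree_mul_of_isDomain ha hb, pow_add]
  map_add_le_max' a b := by
    by_cases ha : a = 0
    · simp [ha]
    by_cases hb : b = 0
    · simp [hb]
    change (if a + b = 0 then 0 else 2 ^ (a + b).totalDegree : NNReal) ≤
      max (if a = 0 then 0 else 2 ^ a.totalDegree) (if b = 0 then 0 else 2 ^ b.totalDegree)
    rw [if_neg ha, if_neg hb]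
    split_ifs
    · exact zero_le
    exact (le_max_iff.1 (MvPolynomial.totalDegree_add a b)).elim
      (fun h => le_max_of_le_left (pow_le_pow_right₀ one_le_two h))
      fun h => le_max_of_le_right (pow_le_pow_right₀ one_le_two h)

theorem xvalDeg_of_ne {a : MvPolynomial κ E} (ha : a ≠ 0) : xvalDeg a = 2 ^ a.totalDegree := by
  classical
  exact if_neg ha

theorem xvalDeg_le (a : MvPolynomial κ E) {b : MvPolynomial κ E} (hb : b ≠ 0) :
    xvalDeg a ≤ xvalDeg b ↔ a.totalDegree ≤ b.totalDegree := by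
  by_cases ha : a = 0
  · simp [ha]
  rw [xvalDeg_of_ne ha, xvalDeg_of_ne hb, pow_le_pow_iff_right₀ one_lt_two]

theorem xval_ext {K : Type*} [Field K] (φ : K →+* C) (O : ValuationSubring K) :
    ∃ V : ValuationSubring C, ∀ z, φ z ∈ V ↔ z ∈ O := by
  obtain ⟨V, h, hl⟩ := IsLocalRing.exists_factor_valuationRing (φ.comp O.subtype)
  refine ⟨V, fun z => ⟨fun hz => ?_, fun hz => h ⟨z, hz⟩⟩⟩
  rcases O.mem_or_inv_mem z with h1 | h1
  · exact h1
  rcases eq_or_ne z 0 with rfl | h0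
  · exact zero_mem O
  have hu := hl.1 ⟨z⁻¹, h1⟩ (isUnit_iff_exists_inv.2 ⟨⟨φ z, hz⟩, Subtype.ext (by
    change φ z⁻¹ * φ z = 1
    rw [← map_mul, inv_mul_cancel₀ h0, map_one])⟩)
  obtain ⟨w, hw⟩ := isUnit_iff_exists_inv.1 hu
  have e : z⁻¹ * w.1 = 1 := congrArg Subtype.val hw
  rw [(inv_mul_eq_one₀ h0).1 e]
  exact w.2

/-- A valuation ring over the degree valuation. -/
theorem exists_inf (hμ : AlgebraicIndependent E μ) : ∃ V : ValuationSubring C,
    ∀ a b : MvPolynomial κ E, b ≠ 0 → (MvPolynomial.aeval μ a / MvPolynomial.aeval μ b ∈ V ↔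
      a.totalDegree ≤ b.totalDegree) := by
  have hinj : Function.Injective
    (MvPolynomial.aeval μ : MvPolynomial κ E →ₐ[E] C).toRingHom := hμ
  let φ : FractionRing (MvPolynomial κ E) →+* C := IsFractionRing.lift hinj
  have hφ : ∀ r, φ (algebraMap _ _ r) = MvPolynomial.aeval μ r := fun r =>
    IsFractionRing.lift_algebraMap hinj r
  have hp : ∀ {b : MvPolynomial κ E}, b ≠ 0 → 0 < xvalDeg b := fun hb => by
    rw [xvalDeg_of_ne hb]
    positivity
  have hS : nonZeroDivisors (MvPolynomial κ E) ≤ (xvalDeg (κ := κ) (E := E)).supp.primeCompl :=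
    fun b hb => (hp (nonZeroDivisors.ne_zero hb)).ne'
  obtain ⟨V, hV⟩ := xval_ext φ
    (xvalDeg.extendToLocalization hS (FractionRing (MvPolynomial κ E))).valuationSubring
  refine ⟨V, fun a b hb => ?_⟩
  rw [← hφ, ← hφ, ← map_div₀, hV, Valuation.mem_valuationSubring_iff, map_div₀,
    Valuation.extendToLocalization_apply_map_apply,
    Valuation.extendToLocalization_apply_map_apply, div_le_one₀ (hp hb), xvalDeg_le a hb]

theorem VI_deg (hμ : AlgebraicIndependent E μ) (a b : MvPolynomial κ E) (hb : b ≠ 0)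
    (h : VI E μ (MvPolynomial.aeval μ a / MvPolynomial.aeval μ b)) :
    a.totalDegree ≤ b.totalDegree := by
  obtain ⟨V, hV⟩ := exists_inf hμ
  exact (hV a b hb).1 (h V fun a b hb hab => (hV a b hb).2 hab)

/-- Bound for a root. -/
theorem val_root (V : ValuationSubring C) (Φ : C[X]) (hx : Φ.eval x = 0) (t : C)
    (h : ∀ j, t * Φ.coeff j ∈ V) : t * Φ.leadingCoeff * x ∈ V := xval_root V Φ hx t h

theorem xval_conj {R : Type*} [CommRing R] (K : IntermediateField E C) (g : R →+* C)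
    (hg : ∀ r, g r ∈ K) {Φ : R[X]} (hx : Φ.eval₂ g x = 0) (hy : IsConjRoot K x y) :
    Φ.eval₂ g y = 0 := by
  have e : ∀ z : C, aeval z (Φ.map (g.codRestrict K hg)) = Φ.eval₂ g z := fun z => by
    rw [aeval_def, eval₂_map]
    rfl
  rw [← e] at hx ⊢
  exact aeval_eq_zero_of_dvd_aeval_eq_zero (minpoly.dvd K x hx) hy.aeval_eq_zero

theorem Mon.mono {d₁ d₂ d₁' d₂' : ℕ} (h : Mon E μ d₁ d₂ x) (h1 : d₁ ≤ d₁') (h2 : d₂ ≤ d₂') :
    Mon E μ d₁' d₂' x := by
  obtain ⟨Φ, a, b, c, d⟩ := h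
  exact ⟨Φ, a, b.trans h1, fun j => (c j).trans h2, d⟩
theorem Mon.va {d₁ d₂ : ℕ} (h : Mon E μ d₁ d₂ x) : VA E μ x := by
  obtain ⟨Φ, a, -, -, d⟩ := h
  exact fun V hV => xval_monic _ V hV a d
theorem Mon.map {C' : Type*} [Field C'] [Algebra E C'] (φ : C →ₐ[E] C') {d₁ d₂ : ℕ}
    (h : Mon E μ d₁ d₂ x) : Mon E (φ ∘ μ) d₁ d₂ (φ x) := by
  obtain ⟨Φ, a, b, c, d⟩ := h
  refine ⟨Φ, a, b, c, ?_⟩
  have e := congrArg φ.toRingHom d
  rw [hom_eval₂, map_zero] at e
  refine Eq.trans (congrArg (fun g => eval₂ g (φ x) Φ) (RingHom.ext fun r => ?_)) e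
  exact (congrArg (fun ψ : MvPolynomial κ E →ₐ[E] C' => ψ r) (MvPolynomial.comp_aeval μ φ)).symm
theorem Mon.conj {d₁ d₂ : ℕ} (h : Mon E μ d₁ d₂ x) (hy : IsConjRoot (KF E μ) x y) :
    Mon E μ d₁ d₂ y := by
  obtain ⟨Φ, a, b, c, d⟩ := h
  refine ⟨Φ, a, b, c, xval_conj _ _ (fun r => ?_) d hy⟩
  exact (IntermediateField.mem_adjoin_range_iff E μ _).2 ⟨r, 1, by simp⟩
theorem VA.conj (h : VA E μ x) (hy : IsConjRoot (KF E μ) x y) : VA E μ y := by
  obtain ⟨Φ, a, d⟩ := VA_iff.1 h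
  exact VA_iff.2 ⟨Φ, a, xval_conj _ _
    (fun r => IntermediateField.algebra_adjoin_le_adjoin E _ r.2) d hy⟩

end Pool.Agent.MP_ee2255_nt.T
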